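import Pool.Agent.Lib.MP_af3a4a_an.P1.CHK.H58.SF

/-!
# Piece (I), profiles (helper58)

`S = N R²`, `x = t R`, `f = m₁ / R`: `|q(tR)| ≤ exp(-S w(t))` with
type A: `w = t f - t²/2`, and (`R ≤ 4/5`, `0 ≤ t ≤ 1`) type V: `w = wV R f t`.
-/

set_option autoImplicit false

namespace Pool.Agent.Lib.MP_af3a4a_an.P1.CHK.H58

open Finset MeasureTheory
open Pool.Agent.Lib.MP_af3a4a_an.SV (uu av)
open Pool.Agent.Lib.MP_af3a4a_an.P1.H80 Pool.Agent.Lib.MP_af3a4a_an.P1.H74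

/-- the interpolation inequality for concave functions -/
theorem chord {h : ℝ → ℝ} {t0 t1 w0 w1 t : ℝ} (hc : ConcaveOn ℝ (Set.Icc t0 t1) h) (ht : t0 < t1)
    (hw0 : w0 ≤ h t0) (hw1 : w1 ≤ h t1) (h0 : t0 ≤ t) (h1 : t ≤ t1) :
    w0 + (w1 - w0) * ((t - t0) / (t1 - t0)) ≤ h t := by
  have hd : 0 < t1 - t0 := sub_pos.2 ht
  obtain ⟨b, hb⟩ : ∃ b, b = (t - t0) / (t1 - t0) := ⟨_, rfl⟩
  have hb0 : 0 ≤ b := by rw [hb]; exact div_nonneg (by linarith) hd.le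
  have hb1 : b ≤ 1 := by rw [hb, div_le_one hd]; linarith
  have hbt : t = t0 + b * (t1 - t0) := by
    rw [hb, div_mul_cancel₀ _ hd.ne']
    ring
  have h2 := hc.2 (Set.left_mem_Icc.2 ht.le) (Set.right_mem_Icc.2 ht.le) (sub_nonneg.2 hb1) hb0
    (by ring)
  simp only [smul_eq_mul] at h2
  have e : (1 - b) * t0 + b * t1 = t := by rw [hbt]; ring
  rw [e] at h2
  rw [← hb]
  have h3 := mul_le_mul_of_nonneg_left hw0 (sub_nonneg.2 hb1)
  have h4 := mul_le_mul_of_nonneg_left hw1 hb0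
  linarith

/-! ### type A -/

theorem point_A {u : ℂ} (hu : ‖u‖ ≤ 1) (x : ℝ) :
    ‖1 - (x : ℂ) * u‖ ≤ Real.exp (-(x * u.re - x ^ 2 / 2)) := by
  have h1 : ‖1 - (x : ℂ) * u‖ ^ 2 ≤ Real.exp (-(x * u.re - x ^ 2 / 2)) ^ 2 := by
    have h2 : ‖1 - (x : ℂ) * u‖ ^ 2 = 1 - 2 * x * u.re + x ^ 2 * ‖u‖ ^ 2 := by
      rw [norm_sq_re_im, norm_sq_re_im]
      simp only [Complex.sub_re, Complex.sub_im, Complex.mul_re, Complex.mul_im, Complex.one_re,
        Complex.one_im, Complex.ofReal_re, Complex.ofReal_im]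
      ring
    have h3 : ‖u‖ ^ 2 ≤ 1 := by
      have := norm_nonneg u
      nlinarith
    have h4 : x ^ 2 * ‖u‖ ^ 2 ≤ x ^ 2 * 1 := mul_le_mul_of_nonneg_left h3 (sq_nonneg x)
    have h5 := Real.add_one_le_exp (-2 * (x * u.re - x ^ 2 / 2))
    have h6 : Real.exp (-(x * u.re - x ^ 2 / 2)) ^ 2 = Real.exp (-2 * (x * u.re - x ^ 2 / 2)) := by
      rw [← Real.exp_nat_mul]
      congr 1
      push_cast
      ring
    rw [h6, h2]
    linarith
  exact abs_le_of_sq_le_sq' h1 (Real.exp_pos _).le |>.2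

theorem sum_re {N : ℕ} (hN : 1 ≤ N) (u : Fin N → ℂ) : ∑ k, (u k).re = N * (av u).re := by
  have h := congrArg Complex.re (sum_av hN u)
  rw [Complex.re_sum] at h
  rw [h]
  simp

theorem qq_A {N : ℕ} (hN : 1 ≤ N) {u : Fin N → ℂ} (hu : ∀ k, ‖u k‖ ≤ 1) (x : ℝ) :
    ‖qq u x‖ ≤ Real.exp (-(N * (x * (av u).re - x ^ 2 / 2))) := by
  unfold qq
  rw [norm_prod]
  calc ∏ k, ‖1 - (x : ℂ) * u k‖ ≤ ∏ k, Real.exp (-(x * (u k).re - x ^ 2 / 2)) :=
        Finset.prod_le_prod (fun _ _ => norm_nonneg _) fun k _ => point_A (hu k) x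
    _ = Real.exp (∑ k, -(x * (u k).re - x ^ 2 / 2)) := (Real.exp_sum _ _).symm
    _ = _ := by
        congr 1
        rw [Finset.sum_neg_distrib, Finset.sum_sub_distrib, ← Finset.mul_sum, sum_re hN]
        simp only [Finset.sum_const, Finset.card_univ, Fintype.card_fin, nsmul_eq_mul]
        ring

/-- the profile of type A -/
theorem qq_A' {N : ℕ} (hN : 1 ≤ N) {u : Fin N → ℂ} (hu : ∀ k, ‖u k‖ ≤ 1) {R f t : ℝ}
    (hf : (av u).re = f * R) :
    ‖qq u (t * R)‖ ≤ Real.exp (-(N * R ^ 2 * (t * f - t ^ 2 / 2))) := by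
  refine (qq_A hN hu (t * R)).trans (le_of_eq ?_)
  rw [hf]
  congr 1
  ring

theorem concA (f : ℝ) (t0 t1 : ℝ) : ConcaveOn ℝ (Set.Icc t0 t1) fun t : ℝ => t * f - t ^ 2 / 2 := by
  refine ⟨convex_Icc _ _, ?_⟩
  intro x _ y _ a b ha hb hab
  simp only [smul_eq_mul]
  have hb' : b = 1 - a := by linarith
  subst hb'
  nlinarith [mul_nonneg (mul_nonneg ha hb) (sq_nonneg (x - y))]

/-! ### type V -/

noncomputable def wV (R f t : ℝ) : ℝ :=
  (1 - 2 * f) * (hV (t * R) / R ^ 2) + f * (t * (1 - t) / (1 + t * R) ^ 2)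

theorem qq_V {N : ℕ} (hN : 1 ≤ N) {w : Fin N → ℂ} {R f t : ℝ} (hw : ∀ k, 1 ≤ ‖w k‖)
    (ht : ∑ k, ‖w k - (R : ℂ)‖ ≤ N) (hR : 0 < R) (hR1 : R ≤ 4 / 5) (h0 : 0 ≤ t) (h1 : t ≤ 1)
    (hf : (av (uu w)).re = f * R) :
    ‖qq (uu w) (t * R)‖ ≤ Real.exp (-(N * R ^ 2 * wV R f t)) := by
  refine ((dual_V2 hR hR1 h0 h1).qq_le hN hw ht).trans (le_of_eq ?_)
  rw [hf]
  congr 1
  unfold wV gV
  field_simp
  ring

theorem pade {x : ℝ} (hx : 0 ≤ x) : 3 * x ^ 2 / (6 + 4 * x) ≤ hV x := by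
  have key : ∀ t ∈ Set.Icc (0 : ℝ) x, HasDerivAt
      (fun t => hV t - 3 * t ^ 2 / (6 + 4 * t)) (4 * t ^ 3 / ((1 + t) * (6 + 4 * t) ^ 2)) t := by
    intro t ht
    have h1 : (0 : ℝ) < 1 + t := by linarith [ht.1]
    have h2 : (0 : ℝ) < 6 + 4 * t := by linarith [ht.1]
    have e1 : HasDerivAt hV (1 - 1 / (1 + t)) t := by
      change HasDerivAt (fun t : ℝ => t - Real.log (1 + t)) (1 - 1 / (1 + t)) t
      exact (hasDerivAt_id t).sub (((hasDerivAt_id t).const_add 1).log (by simp only [id]; linarith))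
    have e2 : HasDerivAt (fun t : ℝ => 3 * t ^ 2 / (6 + 4 * t))
        ((6 * t * (6 + 4 * t) - 3 * t ^ 2 * 4) / (6 + 4 * t) ^ 2) t := by
      have h3 : HasDerivAt (fun t : ℝ => 3 * t ^ 2) (6 * t) t := by
        have := (hasDerivAt_pow 2 t).const_mul 3
        refine this.congr_deriv ?_
        norm_num
        ring
      have h4 : HasDerivAt (fun t : ℝ => 6 + 4 * t) 4 t := by
        have := ((hasDerivAt_id t).const_mul (4 : ℝ)).const_add 6
        simpa using this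
      exact h3.div h4 h2.ne'
    refine (e1.sub e2).congr_deriv ?_
    have h1' := h1.ne'
    have h2' := h2.ne'
    rw [eq_div_iff (by positivity)]
    have a1 : 1 / (1 + t) * (1 + t) = 1 := by field_simp
    have a2 : (6 * t * (6 + 4 * t) - 3 * t ^ 2 * 4) / (6 + 4 * t) ^ 2 * (6 + 4 * t) ^ 2 =
        6 * t * (6 + 4 * t) - 3 * t ^ 2 * 4 := div_mul_cancel₀ _ (by positivity)
    have a3 : (1 - 1 / (1 + t) - (6 * t * (6 + 4 * t) - 3 * t ^ 2 * 4) / (6 + 4 * t) ^ 2) *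
        ((1 + t) * (6 + 4 * t) ^ 2) = (1 + t) * (6 + 4 * t) ^ 2 -
        (1 / (1 + t) * (1 + t)) * (6 + 4 * t) ^ 2 - (1 + t) *
        ((6 * t * (6 + 4 * t) - 3 * t ^ 2 * 4) / (6 + 4 * t) ^ 2 * (6 + 4 * t) ^ 2) := by ring
    rw [a3, a1, a2]
    ring
  have hmono : MonotoneOn (fun t : ℝ => hV t - 3 * t ^ 2 / (6 + 4 * t)) (Set.Icc 0 x) := by
    apply monotoneOn_of_deriv_nonneg (convex_Icc 0 x)
    · exact fun t ht => (key t ht).continuousAt.continuousWithinAt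
    · exact fun t ht => (key t (interior_subset ht)).differentiableAt.differentiableWithinAt
    · intro t ht
      have ht' := interior_subset ht
      rw [(key t ht').deriv]
      have : (0 : ℝ) < 1 + t := by linarith [ht'.1]
      have := ht'.1
      positivity
  have := hmono (Set.left_mem_Icc.2 hx) (Set.right_mem_Icc.2 hx) hx
  simp only [hV, add_zero, Real.log_one] at this
  norm_num at this
  unfold hV
  linarith

theorem hV_div {R t : ℝ} (hR : 0 < R) (h0 : 0 ≤ t) {R1 : ℝ} (hR1 : R ≤ R1) :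
    3 * t ^ 2 / (6 + 4 * (t * R1)) ≤ hV (t * R) / R ^ 2 := by
  rw [le_div_iff₀ (by positivity)]
  refine le_trans ?_ (pade (x := t * R) (by positivity))
  have h1 : 0 < 6 + 4 * (t * R1) := by
    have : 0 ≤ t * R1 := mul_nonneg h0 (hR.le.trans hR1)
    linarith
  have h2 : 0 < 6 + 4 * (t * R) := by positivity
  rw [div_mul_eq_mul_div, div_le_div_iff₀ h1 h2]
  have h3 : t * R ≤ t * R1 := mul_le_mul_of_nonneg_left hR1 h0
  have h4 : 0 ≤ 3 * t ^ 2 * R ^ 2 := by positivity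
  calc 3 * t ^ 2 * R ^ 2 * (6 + 4 * (t * R)) ≤ 3 * t ^ 2 * R ^ 2 * (6 + 4 * (t * R1)) :=
        mul_le_mul_of_nonneg_left (by linarith) h4
    _ = _ := by ring

theorem K_anti {R s t : ℝ} (hR0 : 0 ≤ R) (hR1 : R ≤ 1) (hs : 0 ≤ s) (hst : s ≤ t) (ht : t ≤ 1) :
    (1 - (2 + R) * t) / (1 + t * R) ^ 3 ≤ (1 - (2 + R) * s) / (1 + s * R) ^ 3 := by
  have ht0 : 0 ≤ t := hs.trans hst
  have hs1 : s ≤ 1 := hst.trans ht
  rw [div_le_div_iff₀ (by positivity) (by positivity)]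
  have e : (1 - (2 + R) * s) * (1 + t * R) ^ 3 - (1 - (2 + R) * t) * (1 + s * R) ^ 3 =
      (t - s) * (R * (3 + 3 * R * (s + t) + R ^ 2 * (s ^ 2 + s * t + t ^ 2)) +
        (2 + R) * (1 - 3 * R ^ 2 * (s * t) - R ^ 3 * (s * t) * (s + t))) := by ring
  have h1 : s * t ≤ (s + t) / 2 := by nlinarith
  have hst0 : 0 ≤ s * t := mul_nonneg hs ht0
  have hst1 : s * t ≤ 1 := by nlinarith
  have hsum : s + t ≤ 2 := by linarith
  have hR2 : 0 ≤ R ^ 2 := sq_nonneg R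
  have hR3 : 0 ≤ R ^ 3 := by positivity
  have a1 : 3 * R ^ 2 * (s + t) - (2 + R) * (3 * R ^ 2 * (s * t)) ≥ -(3 * R ^ 3) := by
    have b1 : (2 + R) * (3 * R ^ 2 * (s * t)) ≤ (2 + R) * (3 * R ^ 2 * ((s + t) / 2)) :=
      mul_le_mul_of_nonneg_left (mul_le_mul_of_nonneg_left h1 (by positivity)) (by linarith)
    have b2 : R ^ 3 * (s + t) ≤ R ^ 3 * 2 := mul_le_mul_of_nonneg_left hsum hR3
    nlinarith
  have a2 : R ^ 3 * (s ^ 2 + s * t + t ^ 2) - (2 + R) * (R ^ 3 * (s * t) * (s + t)) ≥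
      -(R ^ 3 * (1 + 2 * R)) := by
    have b0 : 2 * (s * t) ≤ s ^ 2 + t ^ 2 := by nlinarith [sq_nonneg (s - t)]
    have b1 : R ^ 3 * (3 * (s * t)) ≤ R ^ 3 * (s ^ 2 + s * t + t ^ 2) :=
      mul_le_mul_of_nonneg_left (by linarith) hR3
    have b2 : (2 + R) * (R ^ 3 * (s * t) * (s + t)) ≤ (2 + R) * (R ^ 3 * (s * t) * 2) :=
      mul_le_mul_of_nonneg_left (mul_le_mul_of_nonneg_left hsum (by positivity)) (by linarith)
    have b3 : R ^ 3 * (s * t) * (1 + 2 * R) ≤ R ^ 3 * 1 * (1 + 2 * R) :=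
      mul_le_mul_of_nonneg_right (mul_le_mul_of_nonneg_left hst1 hR3) (by linarith)
    nlinarith
  have hpos : 0 ≤ R * (3 + 3 * R * (s + t) + R ^ 2 * (s ^ 2 + s * t + t ^ 2)) +
        (2 + R) * (1 - 3 * R ^ 2 * (s * t) - R ^ 3 * (s * t) * (s + t)) := by
    have c1 : R ^ 3 ≤ R := by nlinarith [mul_nonneg hR0 (sub_nonneg.2 hR1)]
    have c2 : R * R ^ 3 ≤ R * R := mul_le_mul_of_nonneg_left c1 hR0
    have c3 : R ^ 3 * (2 * R) ≤ 2 * R := by nlinarith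
    nlinarith
  have := mul_nonneg (sub_nonneg.2 hst) hpos
  linarith

theorem concV {R f t0 t1 : ℝ} (hR : 0 < R) (hR1 : R ≤ 1) (hf0 : 0 ≤ f) (hf1 : f ≤ 1 / 2)
    (h0 : 0 ≤ t0) (h1 : t1 ≤ 1) :
    ConcaveOn ℝ (Set.Icc t0 t1) fun t : ℝ => wV R f t - (1 - 2 * f) * (t ^ 2 / 2) := by
  have key : ∀ t ∈ Set.Icc t0 t1, HasDerivAt (fun t : ℝ => wV R f t - (1 - 2 * f) * (t ^ 2 / 2))
      (-((1 - 2 * f) * (t ^ 2 * R / (1 + t * R))) + f * ((1 - (2 + R) * t) / (1 + t * R) ^ 3)) t := by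
    intro t ht
    have ht0 : 0 ≤ t := h0.trans ht.1
    have hp : 0 < 1 + t * R := by positivity
    have e0 : HasDerivAt (fun t : ℝ => 1 + t * R) R t := by
      have := ((hasDerivAt_id t).mul_const R).const_add 1
      simpa using this
    have e1 : HasDerivAt (fun t : ℝ => hV (t * R) / R ^ 2) ((R - R / (1 + t * R)) / R ^ 2) t := by
      have h2 := ((hasDerivAt_id t).mul_const R).sub (e0.log hp.ne')
      have h3 := h2.div_const (R ^ 2)
      change HasDerivAt (fun t : ℝ => (t * R - Real.log (1 + t * R)) / R ^ 2) _ t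
      rw [one_mul] at h3
      exact h3
    have e2 : HasDerivAt (fun t : ℝ => t * (1 - t) / (1 + t * R) ^ 2)
        ((1 - (2 + R) * t) / (1 + t * R) ^ 3) t := by
      have h2 : HasDerivAt (fun t : ℝ => t * (1 - t)) (1 - 2 * t) t := by
        have := (hasDerivAt_id t).mul ((hasDerivAt_id t).const_sub 1)
        refine this.congr_deriv ?_
        simp only [id]
        ring
      have h3 : HasDerivAt (fun t : ℝ => (1 + t * R) ^ 2) (2 * (1 + t * R) * R) t := by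
        have := e0.pow 2
        refine this.congr_deriv ?_
        norm_num
      refine (h2.div h3 (by positivity)).congr_deriv ?_
      field_simp
      ring
    have e3 : HasDerivAt (fun t : ℝ => t ^ 2 / 2) t t := by
      have := (hasDerivAt_pow 2 t).div_const 2
      refine this.congr_deriv ?_
      norm_num
    have e4 := ((e1.const_mul (1 - 2 * f)).add (e2.const_mul f)).sub (e3.const_mul (1 - 2 * f))
    refine HasDerivAt.congr_deriv (f := fun t : ℝ => wV R f t - (1 - 2 * f) * (t ^ 2 / 2)) e4 ?_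
    field_simp
    ring
  apply AntitoneOn.concaveOn_of_deriv (convex_Icc _ _)
  · exact fun t ht => (key t ht).continuousAt.continuousWithinAt
  · exact fun t ht => (key t (interior_subset ht)).differentiableAt.differentiableWithinAt
  · intro s hs t ht hst
    have hs' := interior_subset hs
    have ht' := interior_subset ht
    rw [(key s hs').deriv, (key t ht').deriv]
    have hs0 : 0 ≤ s := h0.trans hs'.1
    have ht0 : 0 ≤ t := hs0.trans hst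
    have h2 : s ^ 2 * R / (1 + s * R) ≤ t ^ 2 * R / (1 + t * R) := by
      rw [div_le_div_iff₀ (by positivity) (by positivity)]
      have h3 : s ^ 2 ≤ t ^ 2 := pow_le_pow_left₀ hs0 hst 2
      have h4 : s * t * s ≤ s * t * t := mul_le_mul_of_nonneg_left hst (mul_nonneg hs0 ht0)
      have h5 : s ^ 2 * R ≤ t ^ 2 * R := mul_le_mul_of_nonneg_right h3 hR.le
      have h6 := mul_le_mul_of_nonneg_right h4 (sq_nonneg R)
      nlinarith
    have h7 := mul_le_mul_of_nonneg_left h2 (by linarith : 0 ≤ 1 - 2 * f)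
    have h8 := mul_le_mul_of_nonneg_left (K_anti hR.le hR1 hs0 hst (ht'.2.trans h1)) hf0
    linarith

/-- the interpolation inequality, type V -/
theorem chordV {R f t0 t1 w0 w1 t : ℝ} (hR : 0 < R) (hR1 : R ≤ 1) (hf0 : 0 ≤ f)
    (hf1 : f ≤ 1 / 2) (h0 : 0 ≤ t0) (ht : t0 < t1) (h1 : t1 ≤ 1)
    (hw0 : w0 ≤ wV R f t0 - (1 - 2 * f) * ((t1 - t0) ^ 2 / 8))
    (hw1 : w1 ≤ wV R f t1 - (1 - 2 * f) * ((t1 - t0) ^ 2 / 8)) (ha : t0 ≤ t) (hb : t ≤ t1) :
    w0 + (w1 - w0) * ((t - t0) / (t1 - t0)) ≤ wV R f t := by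
  have hc := concV hR hR1 hf0 hf1 h0 h1
  have hd : 0 < t1 - t0 := sub_pos.2 ht
  have h2 := chord (w0 := w0 + (1 - 2 * f) * ((t1 - t0) ^ 2 / 8) - (1 - 2 * f) * (t0 ^ 2 / 2))
    (w1 := w1 + (1 - 2 * f) * ((t1 - t0) ^ 2 / 8) - (1 - 2 * f) * (t1 ^ 2 / 2)) hc ht
    (by linarith) (by linarith) ha hb
  obtain ⟨b, hbdef⟩ : ∃ b, b = (t - t0) / (t1 - t0) := ⟨_, rfl⟩
  have hbt : t = t0 + b * (t1 - t0) := by
    rw [hbdef, div_mul_cancel₀ _ hd.ne']
    ring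
  rw [← hbdef] at h2 ⊢
  have e : (t1 - t0) ^ 2 / 8 - (t0 ^ 2 / 2 + (t1 ^ 2 / 2 - t0 ^ 2 / 2) * b - t ^ 2 / 2) =
      (t1 - t0) ^ 2 * (1 - 2 * b) ^ 2 / 8 := by
    rw [hbt]
    ring
  have h3 : 0 ≤ (1 - 2 * f) * ((t1 - t0) ^ 2 * (1 - 2 * b) ^ 2 / 8) :=
    mul_nonneg (by linarith) (by positivity)
  rw [← e] at h3
  nlinarith

end Pool.Agent.Lib.MP_af3a4a_an.P1.CHK.H58
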