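import Pool.Agent.Lib.MP_af3a4a_an.P1.H74.Phi
import Pool.Agent.Lib.MP_af3a4a_an.P1.CHK.H58.SW

/-!
# Piece (I), the end tests (helper58)
-/

set_option autoImplicit false

namespace Pool.Agent.Lib.MP_af3a4a_an.P1.CHK.H58

open Finset MeasureTheory ComplexConjugate
open Pool.Agent.Lib.MP_af3a4a_an.SV (uu av)
open Pool.Agent.Lib.MP_af3a4a_an.P1.H80 Pool.Agent.Lib.MP_af3a4a_an.P1.H74

theorem log_31 : (10 : ℝ) / 9 ≤ Real.log (31 / 10) := by
  have h1 : Real.log (31 / 10) = Real.log 2 + Real.log (31 / 20) := by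
    rw [← Real.log_mul (by norm_num) (by norm_num)]
    norm_num
  have h2 : (11 / 20 : ℝ) * 2 / (51 / 20) ≤ Real.log (31 / 20) := by
    have h := Real.hasSum_log_one_add (a := (11 / 20 : ℝ)) (by norm_num)
    have := sum_le_hasSum (Finset.range 1) (fun i _ => by positivity) h
    simp only [Finset.sum_range_succ, Finset.sum_range_zero] at this
    norm_num at this
    norm_num
    linarith
  have h3 := Real.log_two_gt_d9
  rw [h1]
  norm_num at h2
  linarith

/-- `(2/5) (x - 1/x) ≤ log x` for `1 ≤ x ≤ 3.1` -/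
theorem log_lower2 {x : ℝ} (hx : 1 ≤ x) (hx2 : x ≤ 31 / 10) :
    2 / 5 * (x - 1 / x) ≤ Real.log x := by
  have hd : ∀ t : ℝ, 0 < t → HasDerivAt (fun t => Real.log t - 2 / 5 * (t - 1 / t))
      (1 / t - 2 / 5 * (1 + 1 / t ^ 2)) t := by
    intro t ht
    have h1 : HasDerivAt (fun t : ℝ => 1 / t) (-(1 / t ^ 2)) t := by
      have := hasDerivAt_inv ht.ne'
      simpa [one_div] using this
    have h2 := (Real.hasDerivAt_log ht.ne').sub (((hasDerivAt_id t).sub h1).const_mul (2 / 5))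
    exact h2.congr_deriv (by rw [one_div t]; ring)
  have hsgn : ∀ t : ℝ, 0 < t → 1 / t - 2 / 5 * (1 + 1 / t ^ 2) =
      (2 * t - 1) * (2 - t) / (5 * t ^ 2) := by
    intro t ht
    field_simp
    ring
  rcases le_total x 2 with h | h
  · have hmono : MonotoneOn (fun t => Real.log t - 2 / 5 * (t - 1 / t)) (Set.Icc 1 x) := by
      apply monotoneOn_of_deriv_nonneg (convex_Icc _ _)
      · exact fun x hx => (hd x (by linarith [hx.1])).continuousAt.continuousWithinAt
      · exact fun x hx => (hd x (by linarith [(interior_subset hx).1])).differentiableAt.differentiableWithinAt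
      · intro x hx
        have hx' := interior_subset hx
        have hx0 : 0 < x := by linarith [hx'.1]
        rw [(hd x hx0).deriv, hsgn x hx0]
        apply div_nonneg _ (by positivity)
        apply mul_nonneg <;> linarith [hx'.1, hx'.2]
    have := hmono ⟨le_rfl, hx⟩ ⟨hx, le_rfl⟩ hx
    norm_num at this
    norm_num
    linarith
  · have hanti : AntitoneOn (fun t => Real.log t - 2 / 5 * (t - 1 / t)) (Set.Icc x (31 / 10)) := by
      apply antitoneOn_of_deriv_nonpos (convex_Icc _ _)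
      · exact fun x hx => (hd x (by linarith [hx.1])).continuousAt.continuousWithinAt
      · exact fun x hx => (hd x (by linarith [(interior_subset hx).1])).differentiableAt.differentiableWithinAt
      · intro x hx
        have hx' := interior_subset hx
        have hx0 : 0 < x := by linarith [hx'.1]
        rw [(hd x hx0).deriv, hsgn x hx0]
        apply div_nonpos_of_nonpos_of_nonneg _ (by positivity)
        apply mul_nonpos_of_nonneg_of_nonpos <;> linarith [hx'.1, hx'.2]
    have := hanti ⟨le_rfl, hx2⟩ ⟨hx2, le_rfl⟩ hx2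
    have h7 := log_31
    simp only at this
    have e : (2 : ℝ) / 5 * (31 / 10 - 1 / (31 / 10)) ≤ 10 / 9 + 1 / 1000 := by norm_num
    have h8 : (10 : ℝ) / 9 + 1 / 1000 ≤ Real.log (31 / 10) := by
      have h1 : Real.log (31 / 10) = Real.log 2 + Real.log (31 / 20) := by
        rw [← Real.log_mul (by norm_num) (by norm_num)]
        norm_num
      have h2 : (11 / 20 : ℝ) * 2 / (51 / 20) ≤ Real.log (31 / 20) := by
        have h := Real.hasSum_log_one_add (a := (11 / 20 : ℝ)) (by norm_num)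
        have := sum_le_hasSum (Finset.range 1) (fun i _ => by positivity) h
        simp only [Finset.sum_range_succ, Finset.sum_range_zero] at this
        norm_num at this
        norm_num
        linarith
      have h3 := Real.log_two_gt_d9
      rw [h1]
      norm_num at h2
      linarith
    linarith

theorem log_sq_ge {a : ℝ} (a0 : 0 ≤ a) (ha : a ≤ 2 / 5) :
    -(a ^ 2 / 2 + a ^ 4 / 4 + a ^ 6 / 4) ≤ Real.log (1 - a ^ 2) / 2 := by
  obtain ⟨z, hz⟩ : ∃ z, z = a ^ 2 := ⟨_, rfl⟩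
  have hz0 : 0 ≤ z := by rw [hz]; positivity
  have hz1 : z ≤ 4 / 25 := by rw [hz]; nlinarith
  have e4 : a ^ 4 = z ^ 2 := by rw [hz]; ring
  have e6 : a ^ 6 = z ^ 3 := by rw [hz]; ring
  rw [e4, e6, ← hz]
  have hd : ∀ t ∈ Set.Icc (0 : ℝ) z, HasDerivAt
      (fun t => Real.log (1 - t) + (t + t ^ 2 / 2 + t ^ 3 / 2))
      (t ^ 2 * (1 - 3 * t) / (2 * (1 - t))) t := by
    intro t ht
    have h1 : 0 < 1 - t := by linarith [ht.2]
    have e1 : HasDerivAt (fun t : ℝ => Real.log (1 - t)) (-1 / (1 - t)) t := by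
      have := ((hasDerivAt_id t).const_sub 1).log (by simp only [id]; linarith)
      simpa using this
    have e2 : HasDerivAt (fun t : ℝ => t + t ^ 2 / 2 + t ^ 3 / 2) (1 + t + 3 / 2 * t ^ 2) t := by
      have := ((hasDerivAt_id t).add ((hasDerivAt_pow 2 t).div_const 2)).add
        ((hasDerivAt_pow 3 t).div_const 2)
      refine this.congr_deriv ?_
      norm_num
      ring
    refine (e1.add e2).congr_deriv ?_
    field_simp
    ring
  have hmono : MonotoneOn (fun t => Real.log (1 - t) + (t + t ^ 2 / 2 + t ^ 3 / 2))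
      (Set.Icc 0 z) := by
    apply monotoneOn_of_deriv_nonneg (convex_Icc _ _)
    · exact fun t ht => (hd t ht).continuousAt.continuousWithinAt
    · exact fun t ht => (hd t (interior_subset ht)).differentiableAt.differentiableWithinAt
    · intro t ht
      have ht' := interior_subset ht
      rw [(hd t ht').deriv]
      have h1 : 0 < 1 - t := by linarith [ht'.2]
      have h2 : 0 ≤ 1 - 3 * t := by linarith [ht'.2]
      positivity
  have := hmono ⟨le_rfl, hz0⟩ ⟨hz0, le_rfl⟩ hz0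
  norm_num at this
  linarith

theorem pay_le {a cs y : ℝ} (a0 : 0 ≤ a) (ha : a ≤ 2 / 5) (hc0 : 0 ≤ cs) (hy : 0 ≤ y) :
    pay a cs y ≤ a * max 0 (y - 1) := by
  unfold pay
  have h1 : 0 < 1 + a := by linarith
  have hlog : a - a ^ 2 / 2 ≤ Real.log (1 + a) := by
    have := log_one_add_ge a0
    have : 0 ≤ a ^ 3 * (1 / 3 - a / 4) := by
      apply mul_nonneg (by positivity)
      linarith
    nlinarith
  have hm0 : 0 ≤ max 0 (y - 1) := le_max_left _ _
  have hm1 : y - 1 ≤ max 0 (y - 1) := le_max_right _ _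
  apply max_le _ (mul_nonneg a0 hm0)
  have h2 : a / (1 + a) * (y * (1 - a * cs)) ≤ a / (1 + a) * y := by
    apply mul_le_mul_of_nonneg_left _ (by positivity)
    have : 0 ≤ a * cs := mul_nonneg a0 hc0
    nlinarith
  have h3 : a / (1 + a) * y ≤ a * max 0 (y - 1) + (a - a ^ 2 / 2) := by
    rw [div_mul_eq_mul_div, div_le_iff₀ h1]
    have h4 : 0 ≤ a * a * max 0 (y - 1) := mul_nonneg (mul_nonneg a0 a0) hm0
    have h5 : a * (y - 1) ≤ a * max 0 (y - 1) := mul_le_mul_of_nonneg_left hm1 a0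
    nlinarith [mul_nonneg (sq_nonneg a) (sub_nonneg.2 ha)]
  linarith

theorem free_ok {N : ℕ} (hN : 40 ≤ N) {a cs y : ℝ} (a0 : 0 ≤ a) (ha : a ≤ 39 / 100)
    (hc0 : 0 ≤ cs) (hc1 : cs ≤ 1) (hy : 0 ≤ y) (hy2 : y ≤ 21 / 10) (hay : a ≤ 2 * y) :
    Free N a 0 cs y (y + 1) := by
  have hNr : (40 : ℝ) ≤ N := by exact_mod_cast hN
  have h1 : 0 < 1 + a := by linarith
  have hlog : Real.log (1 + a) ≤ a := by
    have := Real.log_le_sub_one_of_pos h1
    linarith
  have hn : ((N : ℝ) + 1) / N ≤ 41 / 40 := by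
    rw [div_le_div_iff₀ (by linarith) (by norm_num)]
    linarith
  have hn0 : 0 ≤ ((N : ℝ) + 1) / N := by positivity
  have haN : a * (((N : ℝ) + 1) / N) ≤ 2 / 5 := by
    calc a * (((N : ℝ) + 1) / N) ≤ 39 / 100 * (41 / 40) := mul_le_mul ha hn hn0 (by norm_num)
      _ ≤ 2 / 5 := by norm_num
  refine ⟨a0, by linarith, by norm_num, by linarith, by nlinarith, ?_, ?_, ?_⟩
  · have h2 : a / (1 + a) * (y * (1 + a * cs)) ≤ a * y := by
      rw [div_mul_eq_mul_div, div_le_iff₀ h1]
      have : a * cs ≤ a * 1 := mul_le_mul_of_nonneg_left hc1 a0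
      have : 0 ≤ a * y := mul_nonneg a0 hy
      nlinarith
    linarith
  · have h3 := log_lower2 (x := y + 1) (by linarith) (by linarith)
    have h4 : 0 ≤ (y + 1) - 1 / (y + 1) := by
      rw [sub_nonneg, div_le_iff₀ (by linarith)]
      nlinarith
    calc a * (((N : ℝ) + 1) / N) * (y + 1 - 1 / (y + 1)) ≤ 2 / 5 * (y + 1 - 1 / (y + 1)) :=
          mul_le_mul_of_nonneg_right haN h4
      _ ≤ Real.log (y + 1) := h3
      _ = (1 - 0) * Real.log (y + 1) := by ring
  · linarith

section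

variable {N : ℕ} {z w : Fin N → ℂ} {R : ℝ} {σ : Fin N → ℂ}

/-- the test on the ray, `R - y ≤ a` -/
theorem end_ray (hC : Cfg2 N z w R σ) (hN : 40 ≤ N) {a y F : ℝ} (a0 : 0 ≤ a) (ha : a ≤ 39 / 100)
    (hy : 0 < y) (hyR : y ≤ R) (hR2 : R ≤ 21 / 10) (hs : R - y ≤ a) (hay : a ≤ 2 * y) (hF : 0 < F)
    (hFq : F ≤ ((N : ℝ) + 1) * ‖∫ x in (0 : ℝ)..y, qq (uu w) x‖)
    (hfin : 1 - y + a * max 0 (y - 1) ≤
      N * (a * (y - (av (uu w)).re) - (a ^ 2 / 2 + a ^ 4 / 4 + a ^ 6 / 4))
        + a * (1 - (av (uu w)).re) + Real.log (F / y)) : False := by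
  have hn : (0 : ℝ) < (N : ℝ) + 1 := by positivity
  have h1 := log_sq_ge a0 (by linarith)
  have h2 := pay_le a0 (by linarith) (zero_le_one) hy.le
  have h3 := le_kap a0 (by linarith : a < 1)
  have hN0 : (0 : ℝ) ≤ N := Nat.cast_nonneg N
  refine phi_ray hC (a := a) (X₀ := y + 1) (G := F / (N + 1)) hy hyR
    (free_ok hN a0 ha zero_le_one le_rfl hy.le (by linarith) hay) (hs.trans h3)
    (div_pos hF hn) ?_ ?_
  · rw [div_le_iff₀ hn]
    linarith
  · rw [mul_div_cancel₀ _ hn.ne']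
    have h4 := mul_le_mul_of_nonneg_left h1 hN0
    linarith

/-- the test with the certificate `s = R - y ≤ 1/4` -/
theorem end_cert (hC : Cfg2 N z w R σ) (hN : 40 ≤ N) {a y F : ℝ} (a0 : 0 ≤ a) (ha : a ≤ 29 / 100)
    (hy : 0 < y) (hyR : y < R) (hR2 : R ≤ 2) (hs : R - y ≤ 1 / 4)
    (hA : (1 / 2 + (1 + a) ^ 2 * (R - y) ^ 2 / 2) * (1 + a) ^ 2 * (R - y) ^ 2 ≤
      a ^ 2 / (2 * (1 + a)) + a * (R - y)) (hF : 0 < F)
    (hFq : F ≤ ((N : ℝ) + 1) * ‖∫ x in (0 : ℝ)..y, qq (uu w) x‖)
    (hfin : 1 - y ≤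
      N * (a * (y - (av (uu w)).re) - (a ^ 2 / 2 + a ^ 4 / 4 + a ^ 6 / 4))
        + a * (1 - (av (uu w)).re) + Real.log (F / y)) : False := by
  have hn : (0 : ℝ) < (N : ℝ) + 1 := by positivity
  have hNr : (40 : ℝ) ≤ N := by exact_mod_cast hN
  have h1 := log_sq_ge a0 (by linarith)
  have h3 := le_kap a0 (by linarith : a < 1)
  have hN0 : (0 : ℝ) ≤ N := Nat.cast_nonneg N
  obtain ⟨s, hsdef⟩ : ∃ s, s = R - y := ⟨_, rfl⟩
  rw [← hsdef] at hA hs
  have hs0 : 0 < s := by rw [hsdef]; linarith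
  have ha1 : 0 < 1 + a := by linarith
  have hkap : kap a ≤ 35 / 100 := by
    unfold kap
    have k1 : Real.log (1 + a) ≤ a := by
      have := Real.log_le_sub_one_of_pos ha1
      linarith
    have k2 : -(41 / 100 : ℝ) ≤ Real.log (1 - a) := by
      have h5 : 1 - 1 / (1 - a) ≤ Real.log (1 - a) := by
        have := Real.one_sub_inv_le_log_of_pos (by linarith : 0 < 1 - a)
        simpa [one_div] using this
      have h6 : 1 / (1 - a) ≤ 141 / 100 := by
        rw [div_le_iff₀ (by linarith)]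
        linarith
      linarith
    linarith
  have hlogs : Real.log s ≤ -(135 / 100) := by
    have h5 : Real.log s ≤ Real.log (1 / 4) := Real.log_le_log hs0 hs
    have h6 : Real.log (1 / 4) = -(2 * Real.log 2) := by
      rw [one_div, Real.log_inv]
      have : (4 : ℝ) = 2 ^ 2 := by norm_num
      rw [this, Real.log_pow]
      push_cast
      ring
    have h7 := Real.log_two_gt_d9
    linarith
  have hcert : Cert a (1 / 2 + (1 + a) ^ 2 * s ^ 2 / 2) 0 s 0 := by
    refine ⟨a0, by linarith, ?_, ?_, ?_, ?_, ?_⟩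
    · have : min (1 / 4) ((1 + a) ^ 2 * (s ^ 2 + 0 ^ 2)) ≤ (1 + a) ^ 2 * s ^ 2 := by
        refine (min_le_right _ _).trans (le_of_eq ?_)
        ring
      linarith
    · simp
    · have h5 : a ^ 2 / (2 * (1 + a)) ≤ ww a := by
        unfold ww
        have e : a ^ 2 / (2 * (1 + a)) = (a - a / (1 + a)) / 2 := by
          field_simp
          ring
        rw [e]
        linarith
      linarith
    · simp
    · have e1 : Real.sqrt ((s - kap a) ^ 2 + 0 ^ 2) = |s - kap a| := by
        rw [zero_pow (two_ne_zero), add_zero, Real.sqrt_sq_eq_abs]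
      have e2 : Real.log (s ^ 2 + 0 ^ 2) / 2 = Real.log s := by
        rw [zero_pow (two_ne_zero), add_zero, Real.log_pow]
        push_cast
        ring
      rw [e1, e2]
      have h6 : Real.log (1 - a ^ 2) ≤ 0 := by
        apply Real.log_nonpos
        · nlinarith
        · nlinarith [sq_nonneg a]
      have h7 : |s - kap a| ≤ 35 / 100 := by
        rw [abs_le]
        constructor
        · linarith
        · have := kap_nonneg a0 (by linarith : a < 1)
          linarith
      have h8 : 0 ≤ a * s := mul_nonneg a0 hs0.le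
      linarith
  have hc : CertAt a 0 1 ((R - y : ℝ) : ℂ) := by
    refine ⟨a0, by linarith, Or.inr ⟨?_, 1 / 2 + (1 + a) ^ 2 * s ^ 2 / 2, ?_⟩⟩
    · rw [← hsdef]
      exact_mod_cast hs0.ne'
    · rw [← hsdef, map_one, one_mul, Complex.ofReal_re, Complex.ofReal_im]
      exact hcert
  have hfI := Cfg2.fI_eq w hy.le
  have hpos : 0 < ((N : ℝ) + 1) * ‖fI w (y : ℂ)‖ := by
    have : F ≤ y * (((N : ℝ) + 1) * ‖fI w (y : ℂ)‖) := by
      rw [← hfI] at hFq
      linarith
    have h8 := lt_of_lt_of_le hF this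
    by_contra hcon
    have h9 := mul_nonpos_of_nonneg_of_nonpos hy.le (not_lt.1 hcon)
    linarith
  have hf : fI w (y : ℂ) ≠ 0 := by
    intro h0
    rw [h0, norm_zero, mul_zero] at hpos
    exact lt_irrefl _ hpos
  have hn41 : ((N : ℝ) + 1) / N ≤ 41 / 40 := by
    rw [div_le_div_iff₀ (by linarith) (by norm_num)]
    linarith
  have haN : a * (((N : ℝ) + 1) / N) ≤ 3 / 10 := by
    calc a * (((N : ℝ) + 1) / N) ≤ 29 / 100 * (41 / 40) :=
          mul_le_mul ha hn41 (by positivity) (by norm_num)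
      _ ≤ 3 / 10 := by norm_num
  have hmain := hC.cert (a := a) (l := 0) (e := 1) (y := y) norm_one hc haN hy.le hyR.le
    (by rw [← hsdef]; nlinarith) (by linarith) (by nlinarith) hf
  have e1 : (conj (1 : ℂ) * conj (av (uu w))).re = (av (uu w)).re := by
    rw [map_one, one_mul, Complex.conj_re]
  rw [e1, Complex.one_re] at hmain
  have hlog : Real.log (F / y) ≤ Real.log (((N : ℝ) + 1) * ‖fI w (y : ℂ)‖) := by
    apply Real.log_le_log (div_pos hF hy)
    rw [div_le_iff₀ hy]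
    rw [← hfI] at hFq
    linarith
  have h4 := mul_le_mul_of_nonneg_left h1 hN0
  linarith

/-- the test at `y = R`, direction `i` -/
theorem end_tilt (hC : Cfg2 N z w R σ) (hN : 40 ≤ N) {a μ F : ℝ} (a0 : 0 ≤ a) (ha : a ≤ 39 / 100)
    (hR2 : R ≤ 21 / 10) (haR : a ≤ 2 * R) (hμ : μ ≤ (av (uu w)).im) (hF : 0 < F)
    (hFq : F ≤ ((N : ℝ) + 1) * ‖∫ x in (0 : ℝ)..R, qq (uu w) x‖)
    (hfin : 1 - R + a * max 0 (R - 1) ≤
      N * (a * μ - (a ^ 2 / 2 + a ^ 4 / 4 + a ^ 6 / 4)) + Real.log (F / R)) : False := by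
  have hn : (0 : ℝ) < (N : ℝ) + 1 := by positivity
  have hR := hC.hR
  have h1 := log_sq_ge a0 (by linarith)
  have h2 := pay_le a0 (by linarith) (le_refl (0 : ℝ)) hR.le
  have hN0 : (0 : ℝ) ≤ N := Nat.cast_nonneg N
  have him := hC.him
  refine phi_c hC (a := a) (X₀ := R + 1) (cs := 0) (sn := 1) (G := F / (N + 1)) (by norm_num)
    (free_ok hN a0 ha le_rfl zero_le_one hR.le hR2 haR) (div_pos hF hn) ?_ ?_
  · rw [div_le_iff₀ hn]
    linarith
  · rw [mul_div_cancel₀ _ hn.ne']
    have h4 := mul_le_mul_of_nonneg_left h1 hN0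
    have h5 := mul_le_mul_of_nonneg_left hμ (mul_nonneg hN0 a0)
    have h6 := mul_nonneg a0 him
    nlinarith

end

end Pool.Agent.Lib.MP_af3a4a_an.P1.CHK.H58
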