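import Pool.Agent.Lib.MP_af3a4a_an.P1.CHK.H58.MV
import Pool.Agent.Lib.MP_af3a4a_an.P1.CHK.H58.SE
import Pool.Agent.Lib.MP_af3a4a_an.P1.CHK.H39.PureT24

/-!
# `N ≥ 100`, `R ∈ [21/10, 29/12]` (helper58)
-/

set_option autoImplicit false

namespace Pool.Agent.Lib.MP_af3a4a_an.P1.CHK.H58.M

open Finset MeasureTheory ComplexConjugate
open Pool.Agent.Lib.MP_af3a4a_an.SV (uu av)
open Pool.Agent.Lib.MP_af3a4a_an.P1.H80
open Pool.Agent.Lib.MP_af3a4a_an.P1.H74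
open Pool.Agent.Lib.MP_af3a4a_an.P1.H81
open Pool.Agent.Lib.MP_af3a4a_an.P1.CHK.Arith

theorem g600 : chk ⟨2150, 2475, 16133, 0, 614⟩ [
    ⟨6670, 128, 640, 0, 50, 25⟩,
    ⟨8192, 128, 128, 43, 7, 25⟩,
    ⟨0, 128, 128, 34, 16, 25⟩] = true := by decide +kernel

theorem g300 : chk ⟨2150, 2475, 11408, 17311, 614⟩ [
    ⟨3035, 128, 640, 0, 35, 18⟩,
    ⟨8192, 128, 384, 18, 17, 18⟩,
    ⟨0, 128, 128, 34, 1, 18⟩] = true := by decide +kernel

theorem g200 : chk ⟨2150, 2475, 9314, 12241, 614⟩ [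
    ⟨2334, 128, 640, 0, 29, 14⟩,
    ⟨5369, 128, 640, 15, 14, 14⟩,
    ⟨8192, 128, 128, 29, 0, 14⟩,
    ⟨0, 128, 128, 29, 0, 14⟩] = true := by decide +kernel

theorem g150 : chk ⟨2150, 2475, 8066, 9995, 614⟩ [
    ⟨1380, 128, 640, 0, 25, 12⟩,
    ⟨2156, 128, 768, 10, 15, 12⟩,
    ⟨3862, 128, 640, 14, 11, 12⟩,
    ⟨8192, 128, 256, 21, 4, 12⟩,
    ⟨0, 128, 128, 25, 0, 12⟩] = true := by decide +kernel

theorem g125 : chk ⟨2150, 2475, 7364, 8656, 614⟩ [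
    ⟨1061, 128, 640, 0, 23, 11⟩,
    ⟨1508, 128, 768, 8, 15, 11⟩,
    ⟨1955, 128, 768, 11, 12, 11⟩,
    ⟨2712, 128, 640, 14, 9, 11⟩,
    ⟨4878, 128, 512, 17, 6, 11⟩,
    ⟨8192, 128, 256, 23, 0, 11⟩,
    ⟨0, 128, 128, 23, 0, 11⟩] = true := by decide +kernel

theorem g112 : chk ⟨2150, 2475, 6970, 7902, 600⟩ [
    ⟨1061, 128, 640, 0, 21, 10⟩,
    ⟨1312, 128, 768, 8, 13, 10⟩,
    ⟨1496, 128, 768, 10, 11, 10⟩,
    ⟨1680, 128, 640, 11, 10, 10⟩,
    ⟨1920, 128, 640, 12, 9, 10⟩,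
    ⟨2327, 128, 640, 14, 7, 10⟩,
    ⟨3225, 128, 640, 16, 5, 10⟩,
    ⟨5793, 128, 384, 19, 2, 10⟩,
    ⟨8192, 128, 128, 21, 0, 10⟩,
    ⟨0, 128, 128, 21, 0, 10⟩] = true := by decide +kernel

theorem g100a : chk ⟨2150, 2300, 6832, 7479, 640⟩ [
    ⟨1061, 64, 640, 0, 42, 24⟩,
    ⟨1312, 64, 704, 16, 26, 24⟩,
    ⟨1500, 64, 704, 19, 23, 24⟩,
    ⟨1688, 64, 704, 22, 20, 24⟩,
    ⟨2007, 64, 704, 24, 18, 24⟩,
    ⟨2547, 64, 640, 28, 14, 24⟩,
    ⟨3736, 64, 512, 33, 9, 24⟩,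
    ⟨8192, 64, 384, 39, 3, 24⟩,
    ⟨0, 64, 128, 42, 0, 24⟩] = true := by decide +kernel

theorem g100b : chk ⟨2300, 2475, 6586, 7231, 660⟩ [
    ⟨816, 64, 640, 0, 41, 25⟩,
    ⟨1160, 64, 704, 12, 29, 25⟩,
    ⟨1304, 64, 704, 17, 24, 25⟩,
    ⟨1448, 64, 704, 19, 22, 25⟩,
    ⟨1592, 64, 704, 21, 20, 25⟩,
    ⟨1780, 64, 704, 23, 18, 25⟩,
    ⟨2025, 64, 640, 26, 15, 25⟩,
    ⟨2565, 64, 640, 28, 13, 25⟩,
    ⟨3754, 64, 512, 33, 8, 25⟩,
    ⟨8192, 64, 384, 39, 2, 25⟩,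
    ⟨0, 64, 128, 41, 0, 25⟩] = true := by decide +kernel


theorem end_ray24 {N : ℕ} {z w : Fin N → ℂ} {R : ℝ} {σ : Fin N → ℂ} (hC : Cfg2 N z w R σ)
    (hN : 40 ≤ N) {a y F : ℝ} (a0 : 0 ≤ a) (ha : a ≤ 39 / 100)
    (hy : 0 < y) (hyR : y ≤ R) (hy2 : y ≤ 21 / 10) (hs : R - y ≤ a) (hay : a ≤ 2 * y) (hF : 0 < F)
    (hFq : F ≤ ((N : ℝ) + 1) * ‖∫ x in (0 : ℝ)..y, qq (uu w) x‖)
    (hfin : 1 - y + a * max 0 (y - 1) ≤
      N * (a * (y - (av (uu w)).re) - (a ^ 2 / 2 + a ^ 4 / 4 + a ^ 6 / 4))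
        + a * (1 - (av (uu w)).re) + Real.log (F / y)) : False := by
  have hn : (0 : ℝ) < (N : ℝ) + 1 := by positivity
  have h1 := log_sq_ge a0 (by linarith)
  have h2 := pay_le a0 (by linarith) (zero_le_one) hy.le
  have h3 := le_kap a0 (by linarith : a < 1)
  have hN0 : (0 : ℝ) ≤ N := Nat.cast_nonneg N
  refine phi_ray hC (a := a) (X₀ := y + 1) (G := F / (N + 1)) hy hyR
    (free_ok hN a0 ha zero_le_one le_rfl hy.le hy2 hay) (hs.trans h3)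
    (div_pos hF hn) ?_ ?_
  · rw [div_le_iff₀ hn]
    linarith
  · rw [mul_div_cancel₀ _ hn.ne']
    have h4 := mul_le_mul_of_nonneg_left h1 hN0
    linarith

/-- the profile of type C -/
theorem prof24 {N : ℕ} (hN : 1 ≤ N) {w : Fin N → ℂ} {R x : ℝ} (hw : ∀ k, 1 ≤ ‖w k‖)
    (ht : ∑ k, ‖w k - (R : ℂ)‖ ≤ N) (hR : 21 / 10 ≤ R) (hR2 : R ≤ 29 / 12) (hx0 : 0 ≤ x)
    (hx : x ≤ 1) : ‖qq (uu w) x‖ ≤ Real.exp (-(N * (2 / 5 * x ^ 2 / R))) := by
  have hR0 : 0 < R := by linarith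
  rcases le_total x (2 / 5) with h | h
  · refine (qq_P hN hw ht (by linarith) hR2 hx0 h).trans (Real.exp_le_exp.2 (neg_le_neg ?_))
    apply mul_le_mul_of_nonneg_left _ (Nat.cast_nonneg N)
    apply div_le_div_of_nonneg_right _ hR0.le
    nlinarith [sq_nonneg x]
  · refine ((CHK.H39.pure_t24 hR hR2 hN hw ht h (by linarith)).2 hx).trans (le_of_eq ?_)
    congr 1
    field_simp

/-- the test at the end -/
theorem end24 {N : ℕ} {z w : Fin N → ℂ} {R : ℝ} {σ : Fin N → ℂ} (hC : Cfg2 N z w R σ)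
    (hN : 100 ≤ N) (hR : 21 / 10 ≤ R) (hR2 : R ≤ 29 / 12)
    (hF : 1 / 16384 ≤ ((N : ℝ) + 1) * ‖∫ x in (0 : ℝ)..(R - 19 / 50), qq (uu w) x‖) : False := by
  have hR0 : 0 < R := by linarith
  have h0 := first_moment (by omega) hC.cfg.far hC.dist.le hR0
  have hNr : (100 : ℝ) ≤ N := by exact_mod_cast hN
  obtain ⟨m1, hm1⟩ : ∃ m1, m1 = (av (uu w)).re := ⟨_, rfl⟩
  have hm' : m1 ≤ 20 / 21 := by
    rw [← hm1] at h0
    have h2 : m1 ≤ ‖av (uu w)‖ := by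
      rw [hm1]
      exact Complex.re_le_norm _
    by_contra h
    have h3 : 20 / 21 < m1 := not_le.1 h
    have h4 : m1 ^ 2 ≤ ‖av (uu w)‖ ^ 2 := pow_le_pow_left₀ (by linarith) h2 2
    have h5 : 21 / 10 * m1 ^ 2 ≤ R * ‖av (uu w)‖ ^ 2 :=
      mul_le_mul hR h4 (sq_nonneg _) hR0.le
    nlinarith
  have hlog : -11 ≤ Real.log (1 / 16384 / (R - 19 / 50)) := by
    have h1 : (0 : ℝ) < R - 19 / 50 := by linarith
    have h2 : Real.log (1 / 16384 / (R - 19 / 50)) = -(14 * Real.log 2) -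
        Real.log (R - 19 / 50) := by
      rw [Real.log_div (by norm_num) h1.ne', one_div, Real.log_inv,
        show (16384 : ℝ) = 2 ^ 14 by norm_num, Real.log_pow]
      norm_num
    have h3 := Real.log_le_sub_one_of_pos h1
    have h4 := Real.log_two_lt_d9
    rw [h2]
    linarith
  refine end_ray24 hC (by omega) (a := 19 / 50) (y := R - 19 / 50) (F := 1 / 16384) (by norm_num)
    (by norm_num) (by linarith) (by linarith) (by linarith) (by linarith) (by linarith)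
    (by norm_num) hF ?_
  rw [← hm1, max_eq_right (by linarith)]
  have h1 : 100 * (19 / 50 * (R - 19 / 50 - m1) - ((19 / 50) ^ 2 / 2 + (19 / 50) ^ 4 / 4 +
      (19 / 50) ^ 6 / 4)) ≤ N * (19 / 50 * (R - 19 / 50 - m1) - ((19 / 50) ^ 2 / 2 +
        (19 / 50) ^ 4 / 4 + (19 / 50) ^ 6 / 4)) := by
    apply mul_le_mul_of_nonneg_right hNr
    norm_num
    linarith
  norm_num at h1 hlog ⊢
  linarith

/-- **`N ≥ 100`, `R ∈ [21/10, 29/12]`** -/
theorem mid24 {N : ℕ} {z w : Fin N → ℂ} {R : ℝ} {σ : Fin N → ℂ} (hN : 100 ≤ N)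
    (hC : Cfg2 N z w R σ) (hR : 21 / 10 ≤ R) (hR2 : R ≤ 29 / 12) : False := by
  have hw : ∀ k, 1 ≤ ‖w k‖ := hC.cfg.far
  have ht : ∑ k, ‖w k - (R : ℂ)‖ ≤ N := hC.dist.le
  have hN1 : 1 ≤ N := by omega
  have hP : ∀ x ∈ Set.Icc (0 : ℝ) 1, ‖qq (uu w) x‖ ≤ Real.exp (-(N * (2 / 5 * x ^ 2 / R))) :=
    fun x hx => prof24 hN1 hw ht hR hR2 hx.1 hx.2
  have hP2 : ∀ x ∈ Set.Icc (1 : ℝ) (R - 19 / 50), ‖qq (uu w) x‖ ≤
      Real.exp (-(N * (x ^ 2 / (4 * R)))) :=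
    fun x hx => (CHK.H39.pure_t24 hR hR2 hN1 hw ht (by linarith [hx.1]) hx.2).1
  refine end24 hC hN hR hR2 ?_
  have hNr : (100 : ℝ) ≤ N := by exact_mod_cast hN
  rcases le_or_gt (600 : ℝ) N with h600 | h600
  · exact chk_sound g600 hN hw ht hR2 (by norm_num; linarith) (by norm_num; linarith)
      (by norm_num; linarith) (fun h => absurd rfl h) hP hP2
  rcases le_or_gt (300 : ℝ) N with h300 | h300
  · exact chk_sound g300 hN hw ht hR2 (by norm_num; linarith) (by norm_num; linarith)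
      (by norm_num; linarith) (by intro _; norm_num; linarith) hP hP2
  rcases le_or_gt (200 : ℝ) N with h200 | h200
  · exact chk_sound g200 hN hw ht hR2 (by norm_num; linarith) (by norm_num; linarith)
      (by norm_num; linarith) (by intro _; norm_num; linarith) hP hP2
  rcases le_or_gt (150 : ℝ) N with h150 | h150
  · exact chk_sound g150 hN hw ht hR2 (by norm_num; linarith) (by norm_num; linarith)
      (by norm_num; linarith) (by intro _; norm_num; linarith) hP hP2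
  rcases le_or_gt (125 : ℝ) N with h125 | h125
  · exact chk_sound g125 hN hw ht hR2 (by norm_num; linarith) (by norm_num; linarith)
      (by norm_num; linarith) (by intro _; norm_num; linarith) hP hP2
  rcases le_or_gt (112 : ℝ) N with h112 | h112
  · exact chk_sound g112 hN hw ht hR2 (by norm_num; linarith) (by norm_num; linarith)
      (by norm_num; linarith) (by intro _; norm_num; linarith) hP hP2
  rcases le_or_gt R (2300 / 1024) with h | h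
  · exact chk_sound g100a hN hw ht hR2 (by norm_num; linarith) (by norm_num; linarith)
      (by norm_num; linarith) (by intro _; norm_num; linarith) hP hP2
  · exact chk_sound g100b hN hw ht hR2 (by norm_num; linarith) (by norm_num; linarith)
      (by norm_num; linarith) (by intro _; norm_num; linarith) hP hP2

end Pool.Agent.Lib.MP_af3a4a_an.P1.CHK.H58.M
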