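import Pool.Agent.Lib.MP_af3a4a_an.P1.CHK.H58.SK

/-!
# Piece (I), covers by boxes (helper58)
-/

set_option autoImplicit false

namespace Pool.Agent.Lib.MP_af3a4a_an.P1.CHK.H58.S

open Finset MeasureTheory ComplexConjugate
open Pool.Agent.Lib.MP_af3a4a_an.SV (uu av)
open Pool.Agent.Lib.MP_af3a4a_an.P1.H80 Pool.Agent.Lib.MP_af3a4a_an.P1.H74
open Pool.Agent.Lib.MP_af3a4a_an.P1.CHK.Arith

structure En where
  (Sb ts na nv np nt F md al mu : ℕ)

def mk (R0 R1 f0 f1 Sa : ℕ) (e : En) : Bx :=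
  ⟨R0, R1, f0, f1, Sa, e.Sb, e.ts, e.na, e.nv, e.np, e.nt, e.F, e.md, e.al, e.mu⟩

/-- consecutive intervals of `S = N R²` from `Sa` to infinity -/
def goS (v nr : Bool) (R0 R1 f0 f1 : ℕ) : ℕ → List En → Bool
  | _, [] => false
  | Sa, e :: l => (v || Nat.beq e.nv 0) && ((nr || !(Nat.beq e.md 3)) &&
      (chk (mk R0 R1 f0 f1 Sa e) && (Nat.beq e.Sb 0 || goS v nr R0 R1 f0 f1 e.Sb l)))

/-- the lower end of `N R²` (from C0), in units of `2^-20` -/
def rc2 (f1 : ℕ) : ℕ :=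
  bif Nat.ble f1 125829 then 21233664 else bif Nat.ble f1 262144 then 16777216
    else bif Nat.ble f1 440401 then 12845056 else 9437184

/-- consecutive intervals of `f` -/
def goF (Na : ℕ) (v nr : Bool) (R0 R1 : ℕ) : ℕ → List (ℕ × List En) → Bool
  | f0, [] => Nat.ble 2097152 f0 || Nat.ble 1099511627776 (f0 * R0)
  | f0, p :: l => ev (Nat.max (rc2 p.1) (Na * (R0 * R0) / 1048576)) (fun Sa =>
      goS v nr R0 R1 f0 p.1 Sa p.2) && goF Na v nr R0 R1 p.1 l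

/-- consecutive intervals of `R` -/
def goR (Na : ℕ) (v nr : Bool) (flo Re : ℕ) : ℕ → List (ℕ × List (ℕ × List En)) → Bool
  | R0, [] => Nat.ble Re R0
  | R0, p :: l => goF Na v nr R0 p.1 flo p.2 && goR Na v nr flo Re p.1 l

section

variable {N : ℕ} {z w : Fin N → ℂ} {R : ℝ} {σ : Fin N → ℂ} {f : ℝ} {v nr : Bool}

theorem goS_sound (hC : Cfg2 N z w R σ) (hN : 40 ≤ N) (hR21 : R ≤ 21 / 10) {R0 R1 f0 f1 : ℕ}
    (hR0 : (R0 : ℝ) / 2 ^ 20 ≤ R) (hR1 : R ≤ (R1 : ℝ) / 2 ^ 20)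
    (hf : (av (uu w)).re = f * R) (hf0 : (f0 : ℝ) / 2 ^ 20 ≤ f) (hf1 : f ≤ (f1 : ℝ) / 2 ^ 20)
    (hV : v = true → R ≤ 4 / 5)
    (hnear : nr = true → 1 / 4 < ‖(R : ℂ) - conj (av (uu w))‖) (l : List En) :
    ∀ Sa : ℕ, (Sa : ℝ) / 2 ^ 20 ≤ N * R ^ 2 → goS v nr R0 R1 f0 f1 Sa l = true → False := by
  induction l with
  | nil =>
    intro Sa _ hc
    simp [goS] at hc
  | cons e l ih =>
    intro Sa hSa hc
    simp only [goS, Bool.and_eq_true, Bool.or_eq_true, Nat.beq_eq] at hc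
    obtain ⟨c1, c2, c3, c4⟩ := hc
    have key : (e.Sb = 0 ∨ N * R ^ 2 ≤ (e.Sb : ℝ) / 2 ^ 20) → False := by
      intro hSb
      refine chk_sound (b := mk R0 R1 f0 f1 Sa e) c3 hC hN hR21 hR0 hR1 hf hf0 hf1 hSa hSb ?_ ?_
      · rcases c1 with h | h
        · exact Or.inr (hV h)
        · exact Or.inl h
      · intro hmd
        rcases c2 with h | h
        · exact hnear h
        · have : Nat.beq e.md 3 = true := by
            have h3 : e.md = 3 := hmd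
            rw [h3]
            rfl
          rw [this] at h
          simp at h
    rcases c4 with h | h
    · exact key (Or.inl h)
    · rcases le_total (N * R ^ 2) ((e.Sb : ℝ) / 2 ^ 20) with h1 | h1
      · exact key (Or.inr h1)
      · exact ih e.Sb h1 h

theorem goF_sound (hC : Cfg2 N z w R σ) (hN : 40 ≤ N) {Na : ℕ} (hNa : Na ≤ N)
    (hR21 : R ≤ 21 / 10) {R0 R1 : ℕ}
    (hR0 : (R0 : ℝ) / 2 ^ 20 ≤ R) (hR1 : R ≤ (R1 : ℝ) / 2 ^ 20)
    (hf : (av (uu w)).re = f * R) (hf2 : f ≤ 2)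
    (hrc : ∀ g : ℕ, f ≤ (g : ℝ) / 2 ^ 20 → (rc2 g : ℝ) / 2 ^ 20 ≤ N * R ^ 2)
    (hV : v = true → R ≤ 4 / 5)
    (hnear : nr = true → 1 / 4 < ‖(R : ℂ) - conj (av (uu w))‖) (l : List (ℕ × List En)) :
    ∀ f0 : ℕ, (f0 : ℝ) / 2 ^ 20 < f → goF Na v nr R0 R1 f0 l = true → False := by
  induction l with
  | nil =>
    intro f0 hf0 hc
    simp only [goF, Bool.or_eq_true, Nat.ble_eq] at hc
    rcases hc with h | h
    · have : (2097152 : ℝ) ≤ f0 := by exact_mod_cast h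
      rw [div_lt_iff₀ (by positivity)] at hf0
      norm_num at hf0
      linarith
    · have h1 : (1099511627776 : ℝ) ≤ (f0 : ℝ) * R0 := by exact_mod_cast h
      have h2 : (f0 : ℝ) / 2 ^ 20 * ((R0 : ℝ) / 2 ^ 20) ≤ (f0 : ℝ) / 2 ^ 20 * R :=
        mul_le_mul_of_nonneg_left hR0 (by positivity)
      have h3 : (f0 : ℝ) / 2 ^ 20 * R < f * R := mul_lt_mul_of_pos_right hf0 hC.hR
      have h4 : (av (uu w)).re ≤ 1 := (Complex.re_le_norm _).trans hC.av_le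
      rw [hf] at h4
      have e : (f0 : ℝ) / 2 ^ 20 * ((R0 : ℝ) / 2 ^ 20) = (f0 : ℝ) * R0 / 2 ^ 40 := by ring
      rw [e] at h2
      have h5 : 1 ≤ (f0 : ℝ) * R0 / 2 ^ 40 := by
        rw [le_div_iff₀ (by positivity)]
        norm_num
        linarith
      linarith
  | cons p l ih =>
    intro f0 hf0 hc
    simp only [goF, ev_eq, Bool.and_eq_true] at hc
    obtain ⟨c1, c2⟩ := hc
    rcases le_or_gt f ((p.1 : ℝ) / 2 ^ 20) with h | h
    · refine goS_sound hC hN hR21 hR0 hR1 hf hf0.le h hV hnear p.2 _ ?_ c1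
      have h1 := hrc p.1 h
      have h2 : (((Na * (R0 * R0) / 1048576 : ℕ)) : ℝ) / 2 ^ 20 ≤ N * R ^ 2 := by
        have h3 := div_le_real (Na * (R0 * R0)) 1048576
        have h4 : (Na : ℝ) * ((R0 : ℝ) / 2 ^ 20) ^ 2 ≤ N * R ^ 2 := by
          apply mul_le_mul _ (pow_le_pow_left₀ (by positivity) hR0 2) (by positivity)
            (Nat.cast_nonneg N)
          exact_mod_cast hNa
        refine le_trans ?_ h4
        have h5 := div_le_div_of_nonneg_right h3 (by positivity : (0 : ℝ) ≤ 2 ^ 20)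
        refine h5.trans (le_of_eq ?_)
        push_cast
        norm_num
        ring
      rcases Nat.le_total (rc2 p.1) (Na * (R0 * R0) / 1048576) with h6 | h6
      · have : Nat.max (rc2 p.1) (Na * (R0 * R0) / 1048576) = Na * (R0 * R0) / 1048576 :=
          Nat.max_eq_right h6
        rw [this]
        exact h2
      · have : Nat.max (rc2 p.1) (Na * (R0 * R0) / 1048576) = rc2 p.1 := Nat.max_eq_left h6
        rw [this]
        exact h1
    · exact ih p.1 h c2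

theorem goR_sound (hC : Cfg2 N z w R σ) (hN : 40 ≤ N) {Na : ℕ} (hNa : Na ≤ N)
    (hR21 : R ≤ 21 / 10) (hf : (av (uu w)).re = f * R) (hf2 : f ≤ 2)
    (hrc : ∀ g : ℕ, f ≤ (g : ℝ) / 2 ^ 20 → (rc2 g : ℝ) / 2 ^ 20 ≤ N * R ^ 2)
    (hV : v = true → R ≤ 4 / 5)
    (hnear : nr = true → 1 / 4 < ‖(R : ℂ) - conj (av (uu w))‖) {flo Re : ℕ}
    (hflo : (flo : ℝ) / 2 ^ 20 < f) (hRe : R < (Re : ℝ) / 2 ^ 20)
    (l : List (ℕ × List (ℕ × List En))) :
    ∀ R0 : ℕ, (R0 : ℝ) / 2 ^ 20 ≤ R → goR Na v nr flo Re R0 l = true → False := by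
  induction l with
  | nil =>
    intro R0 hR0 hc
    simp only [goR, Nat.ble_eq] at hc
    have h1 : (Re : ℝ) / 2 ^ 20 ≤ (R0 : ℝ) / 2 ^ 20 := by
      apply div_le_div_of_nonneg_right _ (by positivity)
      exact_mod_cast hc
    linarith
  | cons p l ih =>
    intro R0 hR0 hc
    simp only [goR, Bool.and_eq_true] at hc
    obtain ⟨c1, c2⟩ := hc
    rcases le_total R ((p.1 : ℝ) / 2 ^ 20) with h | h
    · exact goF_sound hC hN hNa hR21 hR0 h hf hf2 hrc hV hnear p.2 flo hflo c1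
    · exact ih p.1 h c2

end

end Pool.Agent.Lib.MP_af3a4a_an.P1.CHK.H58.S
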