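import Pool.Agent.Lib.MP_af3a4a_an.P1.CHK.H58.Main
import Pool.Agent.Lib.MP_af3a4a_an.P1.H74.V2

/-!
# DUAL (helper58): the checker gives helper74's `Dual`, and the mean bound for `qq`
-/

set_option autoImplicit false

namespace Pool.Agent.Lib.MP_af3a4a_an.P1.CHK.H58

open Pool.Agent.Lib.MP_af3a4a_an.SV (uu av)
open Pool.Agent.Lib.MP_af3a4a_an.P1.H74 Pool.Agent.Lib.MP_af3a4a_an.P1.H80

theorem Valid.dual {l α γ h R0 R1 : ℝ} (hV : Valid l α γ h R0 R1) (hα : 0 ≤ α) {R : ℝ}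
    (h0 : R0 ≤ R) (h1 : R ≤ R1) : Dual R (l * R) α γ h := by
  refine ⟨hα, fun v hv => (hV R h0 h1 v hv).trans (le_of_eq ?_)⟩
  rw [mul_assoc]

/-- **the checked dual** -/
theorem chk_dual {M D l r0 r1 a gp gn hp hn c : ℕ} (h : chk M D l r0 r1 a gp gn hp hn c = true)
    {R : ℝ} (h0 : (r0 : ℝ) / M ≤ R) (h1 : R ≤ (r1 : ℝ) / M) :
    Dual R ((l : ℝ) / D * R) ((a : ℝ) / S) (((gp : ℝ) - gn) / S) (((hp : ℝ) - hn) / S) :=
  (chk_sound h).dual (by positivity) h0 h1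

/-- the checked bound for the mean -/
theorem chk_qq {M D l r0 r1 a gp gn hp hn c : ℕ} (h : chk M D l r0 r1 a gp gn hp hn c = true)
    {R : ℝ} (h0 : (r0 : ℝ) / M ≤ R) (h1 : R ≤ (r1 : ℝ) / M) {N : ℕ} (hN : 1 ≤ N)
    {w : Fin N → ℂ} (hw : ∀ k, 1 ≤ ‖w k‖) (ht : ∑ k, ‖w k - (R : ℂ)‖ ≤ N) :
    ‖qq (uu w) ((l : ℝ) / D * R)‖ ≤
      Real.exp (-(N * (((hp : ℝ) - hn) / S + ((gp : ℝ) - gn) / S * R * (av (uu w)).re))) :=
  (chk_dual h h0 h1).qq_le hN hw ht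

end Pool.Agent.Lib.MP_af3a4a_an.P1.CHK.H58
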