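import Mathlib

/-!
# DUAL (helper58): lower bounds of the three boundary polynomials on a trapezoid in the `(B, R)` plane
-/

set_option autoImplicit false

namespace Pool.Agent.Lib.MP_af3a4a_an.P1.CHK.H58

/-- a cubic on `[0, 1]` is bounded below by its end values minus a quarter of half the second
derivative -/
theorem cubic_lb {c0 c1 c2 c3 t m v : ℝ} (ht0 : 0 ≤ t) (ht1 : t ≤ 1) (hm : 0 ≤ m) (h2 : c2 ≤ m)
    (h3 : c2 + 3 * c3 ≤ m) (hv0 : v + m / 4 ≤ c0) (hv1 : v + m / 4 ≤ c0 + c1 + c2 + c3) :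
    v ≤ c0 + c1 * t + c2 * t ^ 2 + c3 * t ^ 3 := by
  have h4 : c2 + c3 * (1 + t) ≤ m := by
    have h5 : c2 + c3 * (1 + t) = (1 - (1 + t) / 3) * c2 + ((1 + t) / 3) * (c2 + 3 * c3) := by ring
    rw [h5]
    have h6 : (1 - (1 + t) / 3) * c2 ≤ (1 - (1 + t) / 3) * m :=
      mul_le_mul_of_nonneg_left h2 (by linarith)
    have h7 : ((1 + t) / 3) * (c2 + 3 * c3) ≤ ((1 + t) / 3) * m :=
      mul_le_mul_of_nonneg_left h3 (by linarith)
    linarith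
  have h8 : c0 + c1 * t + c2 * t ^ 2 + c3 * t ^ 3 =
      (1 - t) * c0 + t * (c0 + c1 + c2 + c3) - t * (1 - t) * (c2 + c3 * (1 + t)) := by ring
  rw [h8]
  have h9 : t * (1 - t) * (c2 + c3 * (1 + t)) ≤ t * (1 - t) * m :=
    mul_le_mul_of_nonneg_left h4 (mul_nonneg ht0 (by linarith))
  have h10 : t * (1 - t) * m ≤ m / 4 := by nlinarith [mul_nonneg hm (sq_nonneg (t - 1 / 2))]
  have h11 : (1 - t) * (v + m / 4) ≤ (1 - t) * c0 := mul_le_mul_of_nonneg_left hv0 (by linarith)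
  have h12 : t * (v + m / 4) ≤ t * (c0 + c1 + c2 + c3) := mul_le_mul_of_nonneg_left hv1 ht0
  linarith

theorem sq_mul_le {w db X X' m : ℝ} (hw : 0 ≤ w) (hwd : w ≤ db) (hX : X ≤ X') (hm : 0 ≤ m)
    (h : X' * db ^ 2 ≤ m) : w ^ 2 * X ≤ m := by
  rcases le_total X 0 with h0 | h0
  · have : w ^ 2 * X ≤ 0 := mul_nonpos_of_nonneg_of_nonpos (sq_nonneg w) h0
    linarith
  · have h1 : w ^ 2 ≤ db ^ 2 := pow_le_pow_left₀ hw hwd 2
    calc w ^ 2 * X ≤ db ^ 2 * X := mul_le_mul_of_nonneg_right h1 h0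
      _ ≤ db ^ 2 * X' := mul_le_mul_of_nonneg_left hX (sq_nonneg _)
      _ = X' * db ^ 2 := by ring
      _ ≤ m := h

/-- affine functions between two numbers -/
theorem aff_le {p q b τ : ℝ} (h0 : 0 ≤ τ) (h1 : τ ≤ 1) (hp : p ≤ b) (hq : q ≤ b) :
    p + τ * (q - p) ≤ b := by nlinarith

theorem aff_ge {p q b τ : ℝ} (h0 : 0 ≤ τ) (h1 : τ ≤ 1) (hp : b ≤ p) (hq : b ≤ q) :
    b ≤ p + τ * (q - p) := by nlinarith

section

variable (al A C2 C3 M : ℝ)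

/-- value at `s = (r + b)^2` -/
noncomputable def Fp (b r : ℝ) : ℝ := (al * b + A) * (r + b) ^ 2 + C2 * b ^ 2 + C3 * r ^ 2
/-- value at `s = (r - b)^2` -/
noncomputable def Fm (b r : ℝ) : ℝ := (al * b + A) * (r - b) ^ 2 + C2 * b ^ 2 + C3 * r ^ 2
/-- value at `s = M^2` -/
noncomputable def F1 (b r : ℝ) : ℝ := (al * b + A) * M ^ 2 + C2 * b ^ 2 + C3 * r ^ 2

/-- half the second derivative of `Fp` along a line -/
noncomputable def gp (b r dp dr : ℝ) : ℝ :=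
  2 * al * dp * (dr + dp) * (r + b) + (dr + dp) ^ 2 * (al * b + A) + C2 * dp ^ 2 + C3 * dr ^ 2
end

variable {al A C2 C3 M : ℝ}

theorem Fp_line {p q r0 r1 τ v e : ℝ} (h0 : 0 ≤ τ) (h1 : τ ≤ 1) (he : 0 ≤ e)
    (hg0 : gp al A C2 C3 p r0 (q - p) (r1 - r0) ≤ e)
    (hg1 : gp al A C2 C3 q r1 (q - p) (r1 - r0) ≤ e)
    (hv0 : v + e / 4 ≤ Fp al A C2 C3 p r0) (hv1 : v + e / 4 ≤ Fp al A C2 C3 q r1) :
    v ≤ Fp al A C2 C3 (p + τ * (q - p)) (r0 + τ * (r1 - r0)) := by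
  set dp := q - p with hdp
  set dr := r1 - r0 with hdr
  have hq : q = p + dp := by rw [hdp]; ring
  have hr : r1 = r0 + dr := by rw [hdr]; ring
  have key := cubic_lb (c0 := Fp al A C2 C3 p r0)
    (c1 := al * dp * (r0 + p) ^ 2 + 2 * (al * p + A) * (r0 + p) * (dr + dp) + 2 * C2 * p * dp
      + 2 * C3 * r0 * dr)
    (c2 := gp al A C2 C3 p r0 dp dr)
    (c3 := al * dp * (dr + dp) ^ 2) (t := τ) (m := e) (v := v) h0 h1 he hg0 ?_ hv0 ?_
  · refine key.trans (le_of_eq ?_)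
    unfold Fp gp
    ring
  · refine le_trans (le_of_eq ?_) hg1
    rw [hq, hr]
    unfold gp
    ring
  · refine hv1.trans (le_of_eq ?_)
    rw [hq, hr]
    unfold Fp gp
    ring

theorem Fm_line {p q r0 r1 τ v e : ℝ} (h0 : 0 ≤ τ) (h1 : τ ≤ 1) (he : 0 ≤ e)
    (hg0 : 2 * al * (q - p) * ((r1 - r0) - (q - p)) * (r0 - p)
      + ((r1 - r0) - (q - p)) ^ 2 * (al * p + A) + C2 * (q - p) ^ 2 + C3 * (r1 - r0) ^ 2 ≤ e)
    (hg1 : 2 * al * (q - p) * ((r1 - r0) - (q - p)) * (r1 - q)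
      + ((r1 - r0) - (q - p)) ^ 2 * (al * q + A) + C2 * (q - p) ^ 2 + C3 * (r1 - r0) ^ 2 ≤ e)
    (hv0 : v + e / 4 ≤ Fm al A C2 C3 p r0) (hv1 : v + e / 4 ≤ Fm al A C2 C3 q r1) :
    v ≤ Fm al A C2 C3 (p + τ * (q - p)) (r0 + τ * (r1 - r0)) := by
  set dp := q - p with hdp
  set dr := r1 - r0 with hdr
  have hq : q = p + dp := by rw [hdp]; ring
  have hr : r1 = r0 + dr := by rw [hdr]; ring
  have key := cubic_lb (c0 := Fm al A C2 C3 p r0)
    (c1 := al * dp * (r0 - p) ^ 2 + 2 * (al * p + A) * (r0 - p) * (dr - dp) + 2 * C2 * p * dp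
      + 2 * C3 * r0 * dr)
    (c2 := 2 * al * dp * (dr - dp) * (r0 - p)
      + (dr - dp) ^ 2 * (al * p + A) + C2 * dp ^ 2 + C3 * dr ^ 2)
    (c3 := al * dp * (dr - dp) ^ 2) (t := τ) (m := e) (v := v) h0 h1 he hg0 ?_ hv0 ?_
  · refine key.trans (le_of_eq ?_)
    unfold Fm
    ring
  · refine le_trans (le_of_eq ?_) hg1
    rw [hq, hr]
    ring
  · refine hv1.trans (le_of_eq ?_)
    rw [hq, hr]
    unfold Fm
    ring

theorem F1_line {p q r0 r1 τ v e : ℝ} (h0 : 0 ≤ τ) (h1 : τ ≤ 1) (he : 0 ≤ e)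
    (hg : C2 * (q - p) ^ 2 + C3 * (r1 - r0) ^ 2 ≤ e)
    (hv0 : v + e / 4 ≤ F1 al A C2 C3 M p r0) (hv1 : v + e / 4 ≤ F1 al A C2 C3 M q r1) :
    v ≤ F1 al A C2 C3 M (p + τ * (q - p)) (r0 + τ * (r1 - r0)) := by
  set dp := q - p with hdp
  set dr := r1 - r0 with hdr
  have hq : q = p + dp := by rw [hdp]; ring
  have hr : r1 = r0 + dr := by rw [hdr]; ring
  have key := cubic_lb (c0 := F1 al A C2 C3 M p r0)
    (c1 := al * dp * M ^ 2 + 2 * C2 * p * dp + 2 * C3 * r0 * dr)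
    (c2 := C2 * dp ^ 2 + C3 * dr ^ 2) (c3 := 0) (t := τ) (m := e) (v := v) h0 h1 he hg
    (by linarith) hv0 ?_
  · refine key.trans (le_of_eq ?_)
    unfold F1
    ring
  · refine hv1.trans (le_of_eq ?_)
    rw [hq, hr]
    unfold F1
    ring

/-- `B` direction, `Fp` -/
theorem Fp_B {L0 w t R bm r1 db cb v : ℝ} (hal : 0 ≤ al) (ht0 : 0 ≤ t) (ht1 : t ≤ 1)
    (hw : 0 ≤ w) (hwd : w ≤ db) (hbm : L0 + w ≤ bm) (hR : R ≤ r1) (hcb0 : 0 ≤ cb)
    (hcb : (al * bm + A + 2 * al * (r1 + bm) + C2) * db ^ 2 ≤ cb)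
    (hv0 : v + cb / 4 ≤ Fp al A C2 C3 L0 R) (hv1 : v + cb / 4 ≤ Fp al A C2 C3 (L0 + w) R) :
    v ≤ Fp al A C2 C3 (L0 + t * w) R := by
  have key := cubic_lb (c0 := Fp al A C2 C3 L0 R)
    (c1 := al * w * (R + L0) ^ 2 + 2 * (al * L0 + A) * (R + L0) * w + 2 * C2 * L0 * w)
    (c2 := w ^ 2 * (al * L0 + A + 2 * al * (R + L0) + C2))
    (c3 := al * w ^ 3) (t := t) (m := cb) (v := v) ht0 ht1 hcb0 ?_ ?_ hv0 ?_
  · refine key.trans (le_of_eq ?_)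
    unfold Fp
    ring
  · refine sq_mul_le hw hwd ?_ hcb0 hcb
    have h1 : al * L0 ≤ al * bm := mul_le_mul_of_nonneg_left (by linarith) hal
    have h2 : al * (R + L0) ≤ al * (r1 + bm) := mul_le_mul_of_nonneg_left (by linarith) hal
    linarith
  · have h3 : w ^ 2 * (al * L0 + A + 2 * al * (R + L0) + C2) + 3 * (al * w ^ 3) =
        w ^ 2 * (al * (L0 + w) + A + 2 * al * (R + (L0 + w)) + C2) := by ring
    rw [h3]
    refine sq_mul_le hw hwd ?_ hcb0 hcb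
    have h1 : al * (L0 + w) ≤ al * bm := mul_le_mul_of_nonneg_left (by linarith) hal
    have h2 : al * (R + (L0 + w)) ≤ al * (r1 + bm) := mul_le_mul_of_nonneg_left (by linarith) hal
    linarith
  · refine hv1.trans (le_of_eq ?_)
    unfold Fp
    ring

/-- `B` direction, `Fm` -/
theorem Fm_B {L0 w t R bm D db cb v : ℝ} (hal : 0 ≤ al) (ht0 : 0 ≤ t) (ht1 : t ≤ 1)
    (hw : 0 ≤ w) (hwd : w ≤ db) (hbm : L0 + w ≤ bm) (hD : L0 + w - R ≤ D) (hcb0 : 0 ≤ cb)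
    (hcb : (al * bm + A + 2 * al * D + C2) * db ^ 2 ≤ cb)
    (hv0 : v + cb / 4 ≤ Fm al A C2 C3 L0 R) (hv1 : v + cb / 4 ≤ Fm al A C2 C3 (L0 + w) R) :
    v ≤ Fm al A C2 C3 (L0 + t * w) R := by
  have key := cubic_lb (c0 := Fm al A C2 C3 L0 R)
    (c1 := al * w * (R - L0) ^ 2 - 2 * (al * L0 + A) * (R - L0) * w + 2 * C2 * L0 * w)
    (c2 := w ^ 2 * (al * L0 + A + 2 * al * (L0 - R) + C2))
    (c3 := al * w ^ 3) (t := t) (m := cb) (v := v) ht0 ht1 hcb0 ?_ ?_ hv0 ?_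
  · refine key.trans (le_of_eq ?_)
    unfold Fm
    ring
  · refine sq_mul_le hw hwd ?_ hcb0 hcb
    have h1 : al * L0 ≤ al * bm := mul_le_mul_of_nonneg_left (by linarith) hal
    have h2 : al * (L0 - R) ≤ al * D := mul_le_mul_of_nonneg_left (by linarith) hal
    linarith
  · have h3 : w ^ 2 * (al * L0 + A + 2 * al * (L0 - R) + C2) + 3 * (al * w ^ 3) =
        w ^ 2 * (al * (L0 + w) + A + 2 * al * ((L0 + w) - R) + C2) := by ring
    rw [h3]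
    refine sq_mul_le hw hwd ?_ hcb0 hcb
    have h1 : al * (L0 + w) ≤ al * bm := mul_le_mul_of_nonneg_left (by linarith) hal
    have h2 : al * ((L0 + w) - R) ≤ al * D := mul_le_mul_of_nonneg_left (by linarith) hal
    linarith
  · refine hv1.trans (le_of_eq ?_)
    unfold Fm
    ring

/-- `B` direction, `F1` -/
theorem F1_B {L0 w t R v : ℝ} (hal : 0 ≤ al) (ht0 : 0 ≤ t) (ht1 : t ≤ 1)
    (hL0 : 0 ≤ L0) (hw : 0 ≤ w)
    (hv0 : v ≤ F1 al A C2 C3 M L0 R) (hv1 : v ≤ F1 al A C2 C3 M (L0 + w) R) :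
    v ≤ F1 al A C2 C3 M (L0 + t * w) R := by
  rcases le_total C2 0 with h | h
  · have key := cubic_lb (c0 := F1 al A C2 C3 M L0 R)
      (c1 := al * w * M ^ 2 + 2 * C2 * L0 * w) (c2 := C2 * w ^ 2) (c3 := 0) (t := t) (m := 0)
      (v := v) ht0 ht1 le_rfl (mul_nonpos_of_nonpos_of_nonneg h (sq_nonneg w)) ?_ (by linarith) ?_
    · refine key.trans (le_of_eq ?_)
      unfold F1
      ring
    · have := mul_nonpos_of_nonpos_of_nonneg h (sq_nonneg w)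
      linarith
    · have h1 : v + 0 / 4 ≤ F1 al A C2 C3 M (L0 + w) R := by linarith
      refine h1.trans (le_of_eq ?_)
      unfold F1
      ring
  · refine hv0.trans ?_
    have h1 : F1 al A C2 C3 M (L0 + t * w) R - F1 al A C2 C3 M L0 R =
        al * (t * w) * M ^ 2 + C2 * (t * w) * (2 * L0 + t * w) := by
      unfold F1
      ring
    have h2 : 0 ≤ t * w := mul_nonneg ht0 hw
    have h3 : 0 ≤ al * (t * w) * M ^ 2 := mul_nonneg (mul_nonneg hal h2) (sq_nonneg _)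
    have h4 : 0 ≤ C2 * (t * w) * (2 * L0 + t * w) :=
      mul_nonneg (mul_nonneg h h2) (by linarith)
    linarith

end Pool.Agent.Lib.MP_af3a4a_an.P1.CHK.H58
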