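import Mathlib

/-!
# DUAL (helper58): pointwise bounds `|1 - l R u| ≤ exp (α (|w - R| - 1) - γ R Re u - h)`, `u = 1/w`,
for all `|w| ≥ 1`, and the mean version
-/

set_option autoImplicit false

namespace Pool.Agent.Lib.MP_af3a4a_an.P1.CHK.H58

open Real

/-- The pointwise dual inequality on a range of `R`. -/
def Valid (l α γ h R0 R1 : ℝ) : Prop :=
  ∀ R : ℝ, R0 ≤ R → R ≤ R1 → ∀ w : ℂ, 1 ≤ ‖w‖ →
    ‖1 - ((l * R : ℝ) : ℂ) * w⁻¹‖ ≤ Real.exp (α * (‖w - (R : ℂ)‖ - 1) - γ * (R * (w⁻¹).re) - h)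

/-- The polynomial in `s = |w|^2`, `B = |w - R|`, `R`. -/
noncomputable def QQ (l α γ h κ L s B R : ℝ) : ℝ :=
  s * (2 * α * B + (-2 * α - γ - 2 * h + 1 - L - κ * (1 - l))) + (γ - κ * l) * B ^ 2
    + (κ * l * (1 - l) - γ) * R ^ 2

theorem point_of_Q {l α γ h κ L R : ℝ} {w : ℂ} (hw : 1 ≤ ‖w‖) (hκ : 0 < κ)
    (hL : -Real.log κ ≤ L) (hQ : 0 ≤ QQ l α γ h κ L (‖w‖ ^ 2) ‖w - (R : ℂ)‖ R) :
    ‖1 - ((l * R : ℝ) : ℂ) * w⁻¹‖ ≤
      Real.exp (α * (‖w - (R : ℂ)‖ - 1) - γ * (R * (w⁻¹).re) - h) := by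
  have hw0 : w ≠ 0 := by
    intro h0
    rw [h0, norm_zero] at hw
    linarith
  obtain ⟨x, y⟩ := w
  set w : ℂ := ⟨x, y⟩ with hwdef
  have hs : ‖w‖ ^ 2 = x ^ 2 + y ^ 2 := by
    rw [← Complex.normSq_eq_norm_sq, Complex.normSq_apply]
    simp only [hwdef]
    ring
  have hs1 : 1 ≤ x ^ 2 + y ^ 2 := by
    rw [← hs]
    nlinarith
  have hspos : 0 < x ^ 2 + y ^ 2 := by linarith
  have hB : ‖w - (R : ℂ)‖ ^ 2 = (x - R) ^ 2 + y ^ 2 := by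
    rw [← Complex.normSq_eq_norm_sq, Complex.normSq_apply]
    simp [hwdef]
    ring
  have hre : (w⁻¹).re = x / (x ^ 2 + y ^ 2) := by
    rw [Complex.inv_re, Complex.normSq_eq_norm_sq, hs]
  have hT : ‖1 - ((l * R : ℝ) : ℂ) * w⁻¹‖ ^ 2 =
      ((x - l * R) ^ 2 + y ^ 2) / (x ^ 2 + y ^ 2) := by
    have h1 : 1 - ((l * R : ℝ) : ℂ) * w⁻¹ = (w - ((l * R : ℝ) : ℂ)) * w⁻¹ := by
      rw [sub_mul, mul_inv_cancel₀ hw0]
    rw [h1, norm_mul, norm_inv, mul_pow, inv_pow, hs, ← Complex.normSq_eq_norm_sq,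
      Complex.normSq_apply]
    simp only [hwdef, Complex.sub_re, Complex.ofReal_re, Complex.sub_im, Complex.ofReal_im,
      sub_zero]
    ring
  rw [hre]
  set B := ‖w - (R : ℂ)‖ with hBdef
  set T := ‖1 - ((l * R : ℝ) : ℂ) * w⁻¹‖ with hTdef
  have hT0 : 0 ≤ T := norm_nonneg _
  unfold QQ at hQ
  rw [hs] at hQ
  -- `T ^ 2 ≤ exp (κ T^2 - 1 + L)`
  have h1 : T ^ 2 ≤ Real.exp (κ * T ^ 2 - 1 + L) := by
    have h2 : κ * T ^ 2 ≤ Real.exp (κ * T ^ 2 - 1) := by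
      have := Real.add_one_le_exp (κ * T ^ 2 - 1)
      linarith
    have h3 : 1 ≤ κ * Real.exp L := by
      have h4 : Real.exp (-Real.log κ) ≤ Real.exp L := Real.exp_le_exp.2 hL
      rw [Real.exp_neg, Real.exp_log hκ] at h4
      calc (1 : ℝ) = κ * κ⁻¹ := (mul_inv_cancel₀ hκ.ne').symm
        _ ≤ κ * Real.exp L := mul_le_mul_of_nonneg_left h4 hκ.le
    rw [Real.exp_add]
    have h5 : 0 < Real.exp L := Real.exp_pos L
    calc T ^ 2 = 1 * T ^ 2 := (one_mul _).symm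
      _ ≤ κ * Real.exp L * T ^ 2 := mul_le_mul_of_nonneg_right h3 (sq_nonneg T)
      _ = κ * T ^ 2 * Real.exp L := by ring
      _ ≤ Real.exp (κ * T ^ 2 - 1) * Real.exp L := mul_le_mul_of_nonneg_right h2 h5.le
  have h6 : κ * T ^ 2 - 1 + L ≤ 2 * (α * (B - 1) - γ * (R * (x / (x ^ 2 + y ^ 2))) - h) := by
    rw [hT]
    have h7 : 0 ≤ (2 * (α * (B - 1) - γ * (R * (x / (x ^ 2 + y ^ 2))) - h) -
        (κ * (((x - l * R) ^ 2 + y ^ 2) / (x ^ 2 + y ^ 2)) - 1 + L)) * (x ^ 2 + y ^ 2) := by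
      have h8 : (2 * (α * (B - 1) - γ * (R * (x / (x ^ 2 + y ^ 2))) - h) -
        (κ * (((x - l * R) ^ 2 + y ^ 2) / (x ^ 2 + y ^ 2)) - 1 + L)) * (x ^ 2 + y ^ 2) =
          (x ^ 2 + y ^ 2) * (2 * α * (B - 1) - 2 * h + 1 - L) - 2 * γ * R * x
            - κ * ((x - l * R) ^ 2 + y ^ 2) := by
        field_simp
        ring
      rw [h8]
      have h9 : (x ^ 2 + y ^ 2) * (2 * α * (B - 1) - 2 * h + 1 - L) - 2 * γ * R * x
            - κ * ((x - l * R) ^ 2 + y ^ 2) =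
          (x ^ 2 + y ^ 2) * (2 * α * B + (-2 * α - γ - 2 * h + 1 - L - κ * (1 - l)))
            + (γ - κ * l) * ((x - R) ^ 2 + y ^ 2) + (κ * l * (1 - l) - γ) * R ^ 2 := by
        ring
      rw [h9, ← hB]
      exact hQ
    have h10 := nonneg_of_mul_nonneg_left h7 hspos
    linarith
  have h11 : T ^ 2 ≤ Real.exp (α * (B - 1) - γ * (R * (x / (x ^ 2 + y ^ 2))) - h) ^ 2 := by
    calc T ^ 2 ≤ Real.exp (κ * T ^ 2 - 1 + L) := h1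
      _ ≤ Real.exp (2 * (α * (B - 1) - γ * (R * (x / (x ^ 2 + y ^ 2))) - h)) :=
        Real.exp_le_exp.2 h6
      _ = _ := by
        rw [← Real.exp_nat_mul]
        norm_num
  exact le_of_sq_le_sq h11 (Real.exp_pos _).le

/-- far points -/
theorem point_of_far {l α γ h R Bm : ℝ} {w : ℂ} (hw : 1 ≤ ‖w‖) (hl : 0 ≤ l) (hα : 0 ≤ α)
    (hR : 0 ≤ R) (hB : Bm ≤ ‖w - (R : ℂ)‖) (hBR : R < Bm)
    (hm : (l + |γ|) * R ≤ (α * (Bm - 1) - h) * (Bm - R)) :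
    ‖1 - ((l * R : ℝ) : ℂ) * w⁻¹‖ ≤
      Real.exp (α * (‖w - (R : ℂ)‖ - 1) - γ * (R * (w⁻¹).re) - h) := by
  have hwpos : 0 < ‖w‖ := by linarith
  have h1 : Bm - R ≤ ‖w‖ := by
    have h2 : ‖w - (R : ℂ)‖ ≤ ‖w‖ + R := by
      calc ‖w - (R : ℂ)‖ ≤ ‖w‖ + ‖(R : ℂ)‖ := norm_sub_le _ _
        _ = ‖w‖ + R := by rw [Complex.norm_real, Real.norm_of_nonneg hR]
    linarith
  have hp : 0 < Bm - R := by linarith
  have h3 : ‖w⁻¹‖ ≤ (Bm - R)⁻¹ := by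
    rw [norm_inv]
    exact inv_anti₀ hp h1
  have h4 : ‖1 - ((l * R : ℝ) : ℂ) * w⁻¹‖ ≤ Real.exp (l * R * (Bm - R)⁻¹) := by
    calc ‖1 - ((l * R : ℝ) : ℂ) * w⁻¹‖ ≤ ‖(1 : ℂ)‖ + ‖((l * R : ℝ) : ℂ) * w⁻¹‖ := norm_sub_le _ _
      _ = 1 + l * R * ‖w⁻¹‖ := by
        rw [norm_one, norm_mul, Complex.norm_real, Real.norm_of_nonneg (by positivity)]
      _ ≤ 1 + l * R * (Bm - R)⁻¹ := by
        have := mul_le_mul_of_nonneg_left h3 (mul_nonneg hl hR)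
        linarith
      _ ≤ Real.exp (l * R * (Bm - R)⁻¹) := by
        have := Real.add_one_le_exp (l * R * (Bm - R)⁻¹)
        linarith
  refine h4.trans (Real.exp_le_exp.2 ?_)
  have h5 : |(w⁻¹).re| ≤ (Bm - R)⁻¹ := (Complex.abs_re_le_norm _).trans h3
  have h6 : γ * (R * (w⁻¹).re) ≤ |γ| * R * (Bm - R)⁻¹ := by
    calc γ * (R * (w⁻¹).re) ≤ |γ * (R * (w⁻¹).re)| := le_abs_self _
      _ = |γ| * R * |(w⁻¹).re| := by
        rw [abs_mul, abs_mul, abs_of_nonneg hR]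
        ring
      _ ≤ |γ| * R * (Bm - R)⁻¹ :=
        mul_le_mul_of_nonneg_left h5 (mul_nonneg (abs_nonneg _) hR)
  have h7 : (l + |γ|) * R * (Bm - R)⁻¹ ≤ α * (Bm - 1) - h := by
    rw [← div_eq_mul_inv, div_le_iff₀ hp]
    exact hm
  have h8 : α * (Bm - 1) ≤ α * (‖w - (R : ℂ)‖ - 1) :=
    mul_le_mul_of_nonneg_left (by linarith) hα
  nlinarith

/-- the mean version -/
theorem Valid.prod {l α γ h R0 R1 : ℝ} (hV : Valid l α γ h R0 R1) (hα : 0 ≤ α) {N : ℕ}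
    {w : Fin N → ℂ} {R : ℝ} (h0 : R0 ≤ R) (h1 : R ≤ R1) (hw : ∀ k, 1 ≤ ‖w k‖)
    (ht : ∑ k, ‖w k - (R : ℂ)‖ ≤ N) :
    ‖∏ k, (1 - ((l * R : ℝ) : ℂ) * (w k)⁻¹)‖ ≤
      Real.exp (-(N * h) - γ * (R * ∑ k, ((w k)⁻¹).re)) := by
  rw [norm_prod]
  calc ∏ k, ‖1 - ((l * R : ℝ) : ℂ) * (w k)⁻¹‖
      ≤ ∏ k, Real.exp (α * (‖w k - (R : ℂ)‖ - 1) - γ * (R * ((w k)⁻¹).re) - h) := by
        apply Finset.prod_le_prod
        · exact fun _ _ => norm_nonneg _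
        · intro k _
          exact hV R h0 h1 (w k) (hw k)
    _ = Real.exp (∑ k, (α * (‖w k - (R : ℂ)‖ - 1) - γ * (R * ((w k)⁻¹).re) - h)) :=
        (Real.exp_sum _ _).symm
    _ ≤ _ := by
        apply Real.exp_le_exp.2
        rw [Finset.sum_sub_distrib, Finset.sum_sub_distrib, ← Finset.mul_sum,
          Finset.sum_sub_distrib, ← Finset.mul_sum, ← Finset.mul_sum]
        simp only [Finset.sum_const, Finset.card_univ, Fintype.card_fin, nsmul_eq_mul, mul_one]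
        have : α * (∑ k, ‖w k - (R : ℂ)‖ - N) ≤ 0 :=
          mul_nonpos_of_nonneg_of_nonpos hα (by linarith)
        linarith

end Pool.Agent.Lib.MP_af3a4a_an.P1.CHK.H58
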