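import Pool.Agent.Lib.MP_af3a4a_an.P1.CHK.H58.GX
import Pool.Agent.Lib.MP_af3a4a_an.P1.CHK.H39.Tab1
import Pool.Agent.Lib.MP_af3a4a_an.P1.CHK.H39.Tab2
import Pool.Agent.Lib.MP_af3a4a_an.P1.CHK.H39.Tab3

/-!
# Rows for `4/5 ≤ R ≤ 21/10`, `m₁ ≤ R / 2`, `100 ≤ N < 250` (generated, helper58)
-/

set_option autoImplicit false

namespace Pool.Agent.Lib.MP_af3a4a_an.P1.CHK.H58.G

open Pool.Agent.Lib.MP_af3a4a_an.P1.CHK.H39.Tab

theorem hi_800 : rowsOK false 819 845 1024 1024 0 512 3 tab800 250 100 [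
  ⟨100, 160, 10240, 12953, 0, [], [⟨3746, 160, 640, 240, 202, false, true, true, [(1, 10), (4, 6), (5, 3), (6, 3), (7, 3), (8, 3), (9, 4), (10, 3)], [(11, 3)]⟩,
    ⟨5345, 160, 0, 240, 162, true, true, true, [(0, 25), (8, 3), (9, 4), (10, 3), (11, 1)], [(11, 2)]⟩]⟩,
  ⟨161, 249, 12993, 16159, 0, [], [⟨1632, 160, 640, 336, 343, false, false, true, [(1, 12), (4, 8), (5, 4), (6, 4), (7, 4), (8, 4), (9, 2)], [(9, 2), (10, 4), (11, 4)]⟩,
    ⟨6668, 160, 0, 240, 160, true, true, true, [(0, 10), (1, 2), (4, 8), (5, 4), (6, 4)], [(7, 4), (8, 4), (9, 4), (10, 4), (11, 4)]⟩]⟩] = true := by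
  decide +kernel

theorem hi_825 : rowsOK false 844 871 1024 1024 0 512 3 tab825 250 100 [
  ⟨100, 160, 10240, 12953, 0, [], [⟨4162, 160, 640, 208, 217, false, false, true, [(1, 10), (4, 6), (5, 3), (6, 3), (7, 3), (8, 3), (9, 4), (10, 3), (11, 3)], [(12, 3)]⟩,
    ⟨5509, 160, 0, 208, 198, true, true, true, [(0, 30), (9, 2), (10, 3), (11, 3), (12, 1)], [(12, 2)]⟩]⟩,
  ⟨161, 249, 12993, 16159, 0, [], [⟨1632, 160, 640, 384, 384, false, false, true, [(1, 12), (4, 8), (5, 4), (6, 4), (7, 4), (8, 4)], [(9, 4), (10, 4), (11, 4), (12, 1)]⟩,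
    ⟨6873, 160, 0, 208, 196, true, true, true, [(0, 10), (1, 2), (4, 8), (5, 4), (6, 4)], [(7, 4), (8, 4), (9, 4), (10, 4), (11, 4), (12, 4)]⟩]⟩] = true := by
  decide +kernel

theorem hi_850 : rowsOK false 870 896 1024 1024 0 512 3 tab850 250 100 [
  ⟨100, 160, 10240, 12953, 0, [], [⟨4162, 160, 640, 240, 211, false, true, true, [(1, 10), (4, 6), (5, 3), (6, 3), (7, 3), (8, 3), (9, 4), (10, 3), (11, 3)], [(12, 3)]⟩,
    ⟨5667, 160, 0, 240, 179, true, true, true, [(0, 29), (9, 3), (10, 3), (11, 3), (12, 1)], [(12, 2)]⟩]⟩,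
  ⟨161, 249, 12993, 16159, 0, [], [⟨1632, 160, 640, 384, 384, false, false, true, [(1, 12), (4, 8), (5, 4), (6, 4), (7, 4), (8, 4), (9, 2)], [(9, 2), (10, 4), (11, 4), (12, 3)]⟩,
    ⟨7070, 160, 0, 240, 177, true, true, true, [(0, 10), (1, 2), (4, 8), (5, 4), (6, 4), (7, 2)], [(7, 2), (8, 4), (9, 4), (10, 4), (11, 4), (12, 4)]⟩]⟩] = true := by
  decide +kernel

theorem hi_875 : rowsOK false 896 922 1024 1024 0 512 3 tab875 250 100 [
  ⟨100, 160, 10240, 12953, 0, [], [⟨1632, 160, 640, 368, 368, false, false, true, [(1, 10), (4, 6), (5, 3), (6, 3), (7, 3), (8, 3), (9, 4)], [(10, 3), (11, 3), (12, 3)]⟩,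
    ⟨5832, 160, 640, 256, 176, false, true, true, [(0, 11), (4, 5), (5, 3), (6, 3), (7, 3), (8, 3), (9, 4), (10, 3), (11, 3)], [(12, 3)]⟩]⟩,
  ⟨161, 249, 12993, 16159, 0, [], [⟨1632, 160, 640, 368, 388, false, false, true, [(1, 12), (4, 8), (5, 4), (6, 4), (7, 4), (8, 4), (9, 4)], [(10, 4), (11, 4), (12, 4)]⟩,
    ⟨7275, 160, 0, 256, 174, true, true, true, [(0, 10), (1, 2), (4, 8), (5, 4), (6, 4), (7, 1)], [(7, 3), (8, 4), (9, 4), (10, 4), (11, 4), (12, 4)]⟩]⟩] = true := by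
  decide +kernel

theorem hi_900 : rowsOK false 921 948 1024 1024 0 512 3 tab900 250 100 [
  ⟨100, 160, 10240, 12953, 0, [], [⟨1632, 160, 640, 368, 382, false, false, true, [(1, 10), (4, 6), (5, 3), (6, 3), (7, 3), (8, 3), (9, 4), (10, 2)], [(10, 1), (11, 3), (12, 3), (13, 3)]⟩,
    ⟨5996, 160, 640, 240, 204, false, true, true, [(0, 11), (4, 5), (5, 3), (6, 3), (7, 3), (8, 3), (9, 4), (10, 3), (11, 3), (12, 3)], [(13, 3)]⟩]⟩,
  ⟨161, 249, 12993, 16159, 0, [], [⟨1632, 160, 640, 384, 397, false, false, true, [(1, 12), (4, 8), (5, 4), (6, 4), (7, 4), (8, 4), (9, 4)], [(10, 4), (11, 4), (12, 4), (13, 4)]⟩,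
    ⟨7480, 160, 0, 240, 202, true, true, true, [(0, 10), (1, 2), (4, 8), (5, 4), (6, 4), (7, 1)], [(7, 3), (8, 4), (9, 4), (10, 4), (11, 4), (12, 4), (13, 4)]⟩]⟩] = true := by
  decide +kernel

theorem hi_925 : rowsOK false 947 973 1024 1024 0 512 3 tab925 250 100 [
  ⟨100, 160, 10240, 12953, 0, [], [⟨1632, 160, 640, 384, 392, false, false, true, [(1, 10), (4, 6), (5, 3), (6, 3), (7, 3), (8, 3), (9, 4), (10, 3)], [(11, 3), (12, 3), (13, 3)]⟩,
    ⟨6154, 160, 640, 256, 201, false, true, true, [(0, 11), (4, 5), (5, 3), (6, 3), (7, 3), (8, 3), (9, 4), (10, 3), (11, 3), (12, 3)], [(13, 3)]⟩]⟩,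
  ⟨161, 249, 12993, 16159, 0, [], [⟨1632, 160, 640, 384, 399, false, false, true, [(1, 12), (4, 8), (5, 4), (6, 4), (7, 4), (8, 4), (9, 4), (10, 4)], [(11, 4), (12, 4), (13, 4)]⟩,
    ⟨7678, 160, 0, 256, 199, true, true, true, [(0, 10), (1, 2), (4, 8), (5, 4), (6, 4)], [(7, 4), (8, 4), (9, 4), (10, 4), (11, 4), (12, 4), (13, 4)]⟩]⟩] = true := by
  decide +kernel

theorem hi_950 : rowsOK false 972 999 1024 1024 0 512 3 tab950 250 100 [
  ⟨100, 160, 10240, 12953, 0, [], [⟨1632, 160, 640, 384, 399, false, false, true, [(1, 10), (4, 6), (5, 3), (6, 3), (7, 3), (8, 3), (9, 4), (10, 3)], [(11, 3), (12, 3), (13, 3), (14, 4)]⟩,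
    ⟨6319, 160, 640, 240, 229, false, true, true, [(0, 11), (4, 5), (5, 3), (6, 3), (7, 3), (8, 3), (9, 4), (10, 3), (11, 3), (12, 3)], [(13, 3), (14, 4)]⟩]⟩,
  ⟨161, 249, 12993, 16159, 0, [], [⟨1632, 160, 640, 384, 399, false, false, true, [(1, 12), (4, 8), (5, 4), (6, 4), (7, 4), (8, 4), (9, 4), (10, 4)], [(11, 4), (12, 4), (13, 4), (14, 4)]⟩,
    ⟨7883, 160, 0, 240, 227, true, true, true, [(0, 10), (1, 2), (4, 8), (5, 4), (6, 4)], [(7, 4), (8, 4), (9, 4), (10, 4), (11, 4), (12, 4), (13, 4), (14, 4)]⟩]⟩] = true := by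
  decide +kernel

theorem hi_975 : rowsOK false 998 1024 1024 1024 0 512 3 tab975 250 100 [
  ⟨100, 160, 10240, 12953, 0, [], [⟨1632, 160, 640, 384, 399, false, false, true, [(1, 11), (4, 5), (5, 3), (6, 3), (7, 3), (8, 3), (9, 4), (10, 3)], [(11, 3), (12, 3), (13, 3), (14, 4)]⟩,
    ⟨6477, 160, 640, 256, 227, false, true, true, [(0, 11), (4, 5), (5, 3), (6, 3), (7, 3), (8, 3), (9, 4), (10, 3), (11, 3), (12, 3)], [(13, 3), (14, 4)]⟩]⟩,
  ⟨161, 233, 12993, 15631, 0, [], [⟨1632, 160, 640, 384, 399, false, false, true, [(1, 14), (4, 6), (5, 4), (6, 4), (7, 4), (8, 4), (9, 4), (10, 4)], [(11, 4), (12, 4), (13, 4), (14, 4)]⟩,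
    ⟨7816, 160, 0, 256, 225, true, true, true, [(0, 10), (1, 4), (4, 6), (5, 4), (6, 2)], [(6, 2), (7, 4), (8, 4), (9, 4), (10, 4), (11, 4), (12, 4), (13, 4), (14, 4)]⟩]⟩,
  ⟨234, 249, 15664, 16159, 0, [], [⟨1632, 160, 640, 384, 399, false, false, true, [(1, 17), (4, 7), (5, 5), (6, 5), (7, 5), (8, 5), (9, 4)], [(10, 5), (11, 5), (12, 5), (13, 1)]⟩,
    ⟨7906, 160, 0, 256, 224, true, true, true, [(0, 10), (1, 7), (4, 7), (5, 5), (6, 5), (7, 3)], [(7, 2), (8, 5), (9, 4), (10, 5), (11, 5), (12, 5), (13, 5), (14, 5)]⟩,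
    ⟨8080, 160, 0, 256, 224, true, true, true, [(0, 70)], [(0, 5)]⟩]⟩] = true := by
  decide +kernel

theorem hi_1000 : rowsOK true 1024 1050 1024 1050 0 512 3 tab1000 250 100 [
  ⟨100, 160, 10112, 12953, 0, [], [⟨1632, 160, 640, 384, 399, false, false, true, [(1, 10), (4, 5), (5, 3), (6, 4), (7, 3), (8, 3), (9, 3), (10, 3), (11, 3)], [(12, 4), (13, 3), (14, 3), (15, 3)]⟩,
    ⟨6810, 160, 640, 240, 247, false, false, true, [(0, 10), (4, 5), (5, 3), (6, 4), (7, 3), (8, 3), (9, 3), (10, 3), (11, 3), (12, 4)], [(13, 3), (14, 3), (15, 3)]⟩]⟩,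
  ⟨161, 249, 12831, 16159, 0, [], [⟨1632, 160, 640, 384, 399, false, false, true, [(1, 13), (4, 7), (5, 4), (6, 4), (7, 4), (8, 4), (9, 4), (10, 4)], [(11, 4), (12, 4), (13, 4), (14, 4), (15, 4)]⟩,
    ⟨7906, 160, 640, 240, 246, false, false, true, [(0, 10), (1, 3), (4, 7), (5, 4), (6, 4), (7, 4), (8, 4), (9, 4), (10, 4), (11, 4), (12, 4)], [(13, 4), (14, 4), (15, 4)]⟩,
    ⟨8495, 160, 0, 240, 246, true, false, true, [(0, 61)], [(0, 5)]⟩]⟩] = true := by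
  decide +kernel

theorem hi_1025 : rowsOK true 1049 1076 1049 1076 0 512 3 tab1025 250 100 [
  ⟨100, 160, 9989, 12798, 0, [], [⟨1632, 160, 640, 384, 399, false, false, true, [(1, 9), (4, 6), (5, 3), (6, 3), (7, 3), (8, 4), (9, 3), (10, 3), (11, 3)], [(12, 3), (13, 3), (14, 3), (15, 3), (16, 4)]⟩,
    ⟨7066, 160, 640, 208, 291, false, false, true, [(0, 10), (4, 5), (5, 3), (6, 3), (7, 3), (8, 4), (9, 3), (10, 3), (11, 3), (12, 3)], [(13, 3), (14, 3), (15, 3), (16, 4)]⟩]⟩,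
  ⟨161, 249, 12675, 15965, 0, [], [⟨1632, 160, 640, 384, 399, false, false, true, [(1, 12), (4, 7), (5, 4), (6, 4), (7, 4), (8, 4), (9, 4), (10, 4)], [(11, 4), (12, 4), (13, 4), (14, 4), (15, 4), (16, 4)]⟩,
    ⟨7906, 160, 640, 208, 290, false, false, true, [(0, 10), (1, 2), (4, 7), (5, 4), (6, 4), (7, 4), (8, 4), (9, 4), (10, 4), (11, 4), (12, 4)], [(13, 4), (14, 4), (15, 4), (16, 4)]⟩,
    ⟨8814, 160, 0, 208, 290, true, false, true, [(0, 65)], [(0, 4)]⟩]⟩] = true := by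
  decide +kernel

theorem hi_1050 : rowsOK true 1075 1101 1075 1101 0 512 4 tab1050 250 100 [
  ⟨100, 160, 9875, 12642, 0, [], [⟨1632, 160, 640, 384, 399, false, false, true, [(1, 9), (4, 6), (5, 3), (6, 3), (7, 3), (8, 3), (9, 3), (10, 3), (11, 4)], [(12, 3), (13, 3), (14, 3), (15, 3), (16, 3)]⟩,
    ⟨7308, 160, 640, 240, 273, false, false, true, [(0, 10), (4, 5), (5, 3), (6, 3), (7, 3), (8, 3), (9, 3), (10, 3), (11, 4), (12, 3)], [(13, 3), (14, 3), (15, 3), (16, 3)]⟩]⟩,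
  ⟨161, 249, 12530, 15771, 0, [], [⟨1632, 160, 640, 384, 399, false, false, true, [(1, 12), (4, 7), (5, 4), (6, 4), (7, 4), (8, 4), (9, 4), (10, 4)], [(11, 3), (12, 4), (13, 4), (14, 4), (15, 4), (16, 4)]⟩,
    ⟨7906, 160, 640, 240, 271, false, false, true, [(0, 10), (1, 2), (4, 7), (5, 4), (6, 4), (7, 4), (8, 4), (9, 4), (10, 4), (11, 3), (12, 4)], [(13, 4), (14, 4), (15, 4), (16, 4)]⟩,
    ⟨9116, 160, 0, 240, 271, true, false, true, [(0, 63)], [(0, 5)]⟩]⟩] = true := by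
  decide +kernel

theorem hi_1075 : rowsOK true 1100 1127 1100 1127 0 512 4 tab1075 250 100 [
  ⟨100, 160, 9760, 12498, 0, [], [⟨1632, 160, 640, 384, 399, false, false, true, [(1, 9), (4, 6), (5, 3), (6, 3), (7, 3), (8, 3), (9, 3), (10, 3), (11, 3)], [(12, 3), (13, 3), (14, 3), (15, 3), (16, 3), (17, 3)]⟩,
    ⟨7570, 160, 640, 208, 296, false, true, true, [(0, 10), (4, 5), (5, 3), (6, 3), (7, 3), (8, 3), (9, 3), (10, 3), (11, 3), (12, 3)], [(13, 3), (14, 3), (15, 3), (16, 3), (17, 3)]⟩]⟩,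
  ⟨161, 249, 12385, 15591, 0, [], [⟨1632, 160, 640, 384, 399, false, false, true, [(1, 12), (4, 7), (5, 4), (6, 4), (7, 3), (8, 4), (9, 4), (10, 4)], [(11, 4), (12, 4), (13, 4), (14, 4), (15, 3), (16, 4), (17, 4)]⟩,
    ⟨7906, 160, 640, 208, 296, false, true, true, [(0, 10), (1, 2), (4, 7), (5, 4), (6, 4), (7, 3), (8, 4), (9, 4), (10, 4), (11, 4), (12, 4)], [(13, 4), (14, 4), (15, 3), (16, 4), (17, 4)]⟩,
    ⟨9443, 160, 0, 208, 296, true, true, true, [(0, 67)], [(0, 3)]⟩]⟩] = true := by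
  decide +kernel

theorem hi_1100 : rowsOK true 1126 1152 1126 1152 0 512 4 tab1100 250 100 [
  ⟨100, 160, 9654, 12353, 0, [], [⟨1632, 160, 640, 384, 399, false, false, true, [(1, 9), (4, 6), (5, 3), (6, 3), (7, 3), (8, 3), (9, 3), (10, 3), (11, 3)], [(12, 3), (13, 3), (14, 3), (15, 3), (16, 3), (17, 3)]⟩,
    ⟨7818, 160, 640, 240, 296, false, true, true, [(0, 10), (4, 5), (5, 3), (6, 3), (7, 3), (8, 3), (9, 3), (10, 3), (11, 3), (12, 3)], [(13, 3), (14, 3), (15, 3), (16, 3), (17, 3)]⟩]⟩,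
  ⟨161, 249, 12250, 15410, 0, [], [⟨1632, 160, 640, 384, 399, false, false, true, [(1, 12), (4, 7), (5, 3), (6, 4), (7, 4), (8, 4), (9, 4), (10, 4)], [(11, 3), (12, 4), (13, 4), (14, 4), (15, 4), (16, 4), (17, 3)]⟩,
    ⟨7906, 160, 640, 240, 296, false, false, true, [(0, 10), (1, 2), (4, 7), (5, 3), (6, 4), (7, 4), (8, 4), (9, 4), (10, 4), (11, 3), (12, 4)], [(13, 4), (14, 4), (15, 4), (16, 4), (17, 3)]⟩,
    ⟨9752, 160, 0, 240, 296, true, false, true, [(0, 66)], [(0, 2)]⟩]⟩] = true := by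
  decide +kernel

theorem hi_1125 : rowsOK true 1152 1178 1152 1178 0 512 4 tab1125 250 100 [
  ⟨100, 145, 9547, 11626, 0, [], [⟨1632, 160, 640, 384, 399, false, false, true, [(1, 9), (4, 5), (5, 3), (6, 3), (7, 3), (8, 3), (9, 3), (10, 3), (11, 3)], [(12, 3), (13, 3), (14, 3), (15, 3), (16, 3), (17, 3)]⟩,
    ⟨7693, 160, 640, 256, 295, false, false, true, [(0, 10), (4, 4), (5, 3), (6, 3), (7, 3), (8, 3), (9, 3), (10, 3), (11, 3), (12, 3)], [(13, 3), (14, 3), (15, 3), (16, 3), (17, 3)]⟩]⟩,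
  ⟨146, 233, 11535, 14737, 0, [], [⟨1632, 160, 640, 384, 399, false, false, true, [(1, 11), (4, 7), (5, 3), (6, 4), (7, 3), (8, 4), (9, 4), (10, 3)], [(11, 4), (12, 3), (13, 4), (14, 4), (15, 3), (16, 4), (17, 3)]⟩,
    ⟨7906, 160, 640, 256, 293, false, false, true, [(0, 10), (1, 1), (4, 7), (5, 3), (6, 4), (7, 3), (8, 4), (9, 4), (10, 3), (11, 4), (12, 3)], [(13, 4), (14, 4), (15, 3), (16, 4), (17, 3)]⟩,
    ⟨9752, 160, 0, 256, 293, true, false, true, [(0, 63)], [(0, 1)]⟩]⟩,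
  ⟨234, 249, 14604, 15235, 0, [], [⟨1632, 160, 640, 384, 399, false, false, true, [(1, 14), (4, 8), (5, 5), (6, 4), (7, 5), (8, 5), (9, 4)], [(10, 5), (11, 4), (12, 5), (13, 4), (14, 5), (15, 5), (16, 1)]⟩,
    ⟨7906, 160, 640, 256, 389, false, false, true, [(0, 10), (1, 4), (4, 8), (5, 5), (6, 4), (7, 5), (8, 5), (9, 4), (10, 5), (11, 4)], [(12, 5), (13, 4), (14, 5), (15, 5), (16, 4), (17, 5)]⟩,
    ⟨10081, 160, 0, 256, 292, true, false, true, [(0, 47), (10, 3), (11, 4), (12, 5), (13, 4), (14, 5), (15, 5), (16, 4), (17, 2)], [(17, 3)]⟩]⟩] = true := by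
  decide +kernel

theorem hi_1150 : rowsOK true 1177 1204 1177 1204 0 512 4 tab1150 250 100 [
  ⟨100, 160, 9443, 12082, 0, [], [⟨1632, 160, 640, 384, 399, false, false, true, [(1, 9), (4, 5), (5, 3), (6, 3), (7, 3), (8, 3), (9, 3), (10, 3), (11, 3)], [(12, 3), (13, 3), (14, 3), (15, 3), (16, 3), (17, 3), (18, 3)]⟩,
    ⟨7906, 160, 640, 240, 296, false, true, true, [(0, 10), (4, 4), (5, 3), (6, 3), (7, 3), (8, 3), (9, 3), (10, 3), (11, 3), (12, 3)], [(13, 3), (14, 3), (15, 3), (16, 3), (17, 3), (18, 3)]⟩,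
    ⟨8352, 160, 0, 240, 296, true, true, true, [(0, 54)], [(0, 4)]⟩]⟩,
  ⟨161, 249, 11982, 15072, 0, [], [⟨1632, 160, 640, 384, 399, false, false, true, [(1, 11), (4, 7), (5, 4), (6, 4), (7, 3), (8, 4), (9, 4), (10, 4)], [(11, 3), (12, 4), (13, 4), (14, 4), (15, 3), (16, 4), (17, 4), (18, 4)]⟩,
    ⟨7906, 160, 640, 240, 335, false, false, true, [(0, 10), (1, 1), (4, 7), (5, 4), (6, 4), (7, 3), (8, 4), (9, 4), (10, 4), (11, 3), (12, 4)], [(13, 4), (14, 4), (15, 3), (16, 4), (17, 4), (18, 4)]⟩,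
    ⟨10419, 160, 0, 240, 296, true, true, true, [(0, 50), (13, 2), (14, 4), (15, 3), (16, 4), (17, 4), (18, 1)], [(18, 3)]⟩]⟩] = true := by
  decide +kernel

theorem hi_1175 : rowsOK true 1203 1229 1203 1229 0 512 4 tab1175 250 100 [
  ⟨100, 160, 9347, 11951, 0, [], [⟨1632, 160, 640, 384, 399, false, false, true, [(1, 9), (4, 5), (5, 3), (6, 3), (7, 3), (8, 3), (9, 3), (10, 3), (11, 3)], [(12, 2), (13, 3), (14, 3), (15, 3), (16, 3), (17, 3), (18, 3)]⟩,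
    ⟨7906, 160, 640, 256, 296, false, true, true, [(0, 10), (4, 4), (5, 3), (6, 3), (7, 3), (8, 3), (9, 3), (10, 3), (11, 3), (12, 2)], [(13, 3), (14, 3), (15, 3), (16, 3), (17, 3), (18, 3)]⟩,
    ⟨8608, 160, 0, 256, 296, true, true, true, [(0, 54)], [(0, 3)]⟩]⟩,
  ⟨161, 249, 11860, 14908, 0, [], [⟨1632, 160, 640, 384, 399, false, false, true, [(1, 11), (4, 7), (5, 4), (6, 3), (7, 4), (8, 4), (9, 4), (10, 3)], [(11, 4), (12, 4), (13, 3), (14, 4), (15, 4), (16, 3), (17, 4), (18, 4)]⟩,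
    ⟨7906, 160, 640, 256, 352, false, false, true, [(0, 9), (1, 2), (4, 7), (5, 4), (6, 3), (7, 4), (8, 4), (9, 4), (10, 3), (11, 4), (12, 4)], [(13, 3), (14, 4), (15, 4), (16, 3), (17, 4), (18, 4)]⟩,
    ⟨10738, 160, 0, 256, 296, true, true, true, [(0, 49), (13, 2), (14, 4), (15, 4), (16, 3), (17, 4), (18, 2)], [(18, 2)]⟩]⟩] = true := by
  decide +kernel

theorem hi_1200 : rowsOK true 1228 1280 1228 1280 0 512 4 tab1200 250 100 [
  ⟨100, 160, 9158, 11828, 0, [], [⟨1632, 160, 640, 384, 399, false, false, true, [(1, 9), (4, 5), (5, 3), (6, 3), (7, 2), (8, 3), (9, 3), (10, 3), (11, 3)], [(12, 3), (13, 3), (14, 2), (15, 3), (16, 3), (17, 3), (18, 3), (19, 3)]⟩,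
    ⟨7906, 160, 640, 256, 296, false, true, true, [(0, 9), (4, 5), (5, 3), (6, 3), (7, 2), (8, 3), (9, 3), (10, 3), (11, 3), (12, 3)], [(13, 3), (14, 2), (15, 3), (16, 3), (17, 3), (18, 3), (19, 3)]⟩,
    ⟨9241, 160, 0, 256, 296, true, true, true, [(0, 54)], [(0, 5)]⟩]⟩,
  ⟨161, 249, 11621, 14756, 0, [], [⟨1632, 160, 640, 384, 399, false, false, true, [(1, 11), (4, 7), (5, 3), (6, 4), (7, 4), (8, 3), (9, 4), (10, 3), (11, 4)], [(12, 4), (13, 3), (14, 4), (15, 4), (16, 3), (17, 4), (18, 4), (19, 3)]⟩,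
    ⟨7906, 160, 640, 256, 377, false, false, true, [(0, 9), (1, 2), (4, 7), (5, 3), (6, 4), (7, 4), (8, 3), (9, 4), (10, 3), (11, 4), (12, 4)], [(13, 3), (14, 4), (15, 4), (16, 3), (17, 4), (18, 4), (19, 3)]⟩,
    ⟨11529, 160, 0, 256, 296, true, true, true, [(0, 47), (13, 3), (14, 4), (15, 4), (16, 3), (17, 4), (18, 3)], [(18, 1), (19, 3)]⟩]⟩] = true := by
  decide +kernel

theorem hi_1250 : rowsOK true 1280 1332 1280 1332 0 512 4 tab1250 250 100 [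
  ⟨100, 160, 8978, 11586, 0, [], [⟨2496, 160, 640, 384, 399, false, false, true, [(1, 8), (4, 6), (5, 2), (6, 3), (7, 3), (8, 3), (9, 3), (10, 2), (11, 3), (12, 3)], [(13, 3), (14, 3), (15, 2), (16, 3), (17, 3), (18, 3), (19, 3), (20, 2), (21, 3)]⟩,
    ⟨9802, 160, 0, 240, 360, true, false, true, [(0, 14), (5, 2), (6, 3), (7, 2)], [(7, 1), (8, 3), (9, 3), (10, 2), (11, 3), (12, 3), (13, 3), (14, 3), (15, 2), (16, 3), (17, 3), (18, 3), (19, 3), (20, 2), (21, 3)]⟩]⟩,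
  ⟨161, 249, 11392, 14453, 0, [], [⟨1632, 160, 640, 384, 399, false, false, true, [(1, 11), (4, 6), (5, 4), (6, 3), (7, 4), (8, 4), (9, 3), (10, 4), (11, 3)], [(12, 4), (13, 3), (14, 4), (15, 3), (16, 4), (17, 4), (18, 3), (19, 4), (20, 3), (21, 4)]⟩,
    ⟨7906, 160, 640, 272, 399, false, false, true, [(0, 9), (1, 2), (4, 6), (5, 4), (6, 3), (7, 4), (8, 4), (9, 3), (10, 4), (11, 3), (12, 4)], [(13, 3), (14, 4), (15, 3), (16, 4), (17, 4), (18, 3), (19, 4), (20, 3), (21, 4)]⟩,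
    ⟨12228, 160, 0, 224, 375, true, false, true, [(0, 44), (12, 2), (13, 3), (14, 4), (15, 3), (16, 4), (17, 4), (18, 3), (19, 2)], [(19, 2), (20, 3), (21, 4)]⟩]⟩] = true := by
  decide +kernel

theorem hi_1300 : rowsOK true 1331 1383 1331 1383 0 512 4 tab1300 250 100 [
  ⟨100, 160, 8811, 11362, 0, [], [⟨1663, 160, 640, 384, 399, false, false, true, [(1, 8), (4, 5), (5, 3), (6, 3), (7, 3), (8, 2), (9, 3), (10, 3), (11, 3)], [(12, 2), (13, 3), (14, 3), (15, 3), (16, 2), (17, 3), (18, 3), (19, 3), (20, 2), (21, 3), (22, 3)]⟩,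
    ⟨8056, 160, 640, 256, 369, false, false, true, [(0, 9), (4, 4), (5, 3), (6, 3), (7, 3), (8, 2), (9, 3), (10, 3), (11, 3), (12, 2)], [(13, 3), (14, 3), (15, 3), (16, 2), (17, 3), (18, 3), (19, 3), (20, 2), (21, 3), (22, 3)]⟩,
    ⟨10363, 160, 0, 256, 369, true, false, true, [(0, 53)], [(0, 10)]⟩]⟩,
  ⟨161, 249, 11180, 14173, 0, [], [⟨4162, 160, 640, 384, 399, false, false, true, [(1, 11), (4, 6), (5, 3), (6, 4), (7, 3), (8, 4), (9, 3), (10, 4), (11, 3), (12, 4)], [(13, 3), (14, 4), (15, 3), (16, 4), (17, 3), (18, 4), (19, 3), (20, 4), (21, 3), (22, 4)]⟩,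
    ⟨12927, 160, 0, 240, 384, true, false, true, [(0, 22), (6, 2), (7, 3), (8, 4), (9, 3), (10, 4), (11, 3), (12, 4), (13, 3), (14, 4), (15, 3), (16, 4), (17, 3), (18, 4), (19, 1)], [(19, 2), (20, 4), (21, 3), (22, 4)]⟩]⟩] = true := by
  decide +kernel

theorem hi_1350 : rowsOK true 1382 1434 1382 1434 0 512 4 tab1350 250 100 [
  ⟨100, 160, 8653, 11150, 0, [], [⟨1663, 160, 640, 384, 399, false, false, true, [(1, 8), (4, 5), (5, 3), (6, 2), (7, 3), (8, 3), (9, 3), (10, 2), (11, 3), (12, 2)], [(12, 1), (13, 2), (14, 3), (15, 3), (16, 2), (17, 3), (18, 3), (19, 3), (20, 2), (21, 3), (22, 3)]⟩,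
    ⟨6812, 160, 640, 304, 399, false, false, true, [(0, 9), (4, 4), (5, 3), (6, 2), (7, 3), (8, 3), (9, 3), (10, 2), (11, 3), (12, 3)], [(13, 2), (14, 3), (15, 3), (16, 2), (17, 3), (18, 3), (19, 3), (20, 2), (21, 3), (22, 3)]⟩,
    ⟨10934, 160, 0, 256, 394, true, false, true, [(0, 37), (14, 3), (15, 3), (16, 2), (17, 3), (18, 3), (19, 1)], [(19, 2), (20, 2), (21, 3), (22, 3)]⟩]⟩,
  ⟨161, 249, 10979, 13909, 0, [], [⟨2496, 160, 640, 384, 399, false, false, true, [(1, 10), (4, 7), (5, 3), (6, 3), (7, 4), (8, 3), (9, 4), (10, 3), (11, 4)], [(12, 3), (13, 4), (14, 3), (15, 3), (16, 4), (17, 3), (18, 4), (19, 3), (20, 4), (21, 3), (22, 3)]⟩,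
    ⟨11388, 160, 0, 256, 393, true, false, true, [(0, 13), (4, 4), (5, 3)], [(6, 3), (7, 4), (8, 3), (9, 4), (10, 3), (11, 4), (12, 3), (13, 4), (14, 3), (15, 3), (16, 4), (17, 3), (18, 4), (19, 3), (20, 4), (21, 3), (22, 3)]⟩,
    ⟨13639, 160, 0, 256, 393, true, false, true, [(0, 31)], [(0, 49)]⟩]⟩] = true := by
  decide +kernel

theorem hi_1400 : rowsOK true 1433 1485 1433 1485 0 512 4 tab1400 250 100 [
  ⟨100, 145, 8503, 10424, 0, [], [⟨1663, 160, 640, 384, 399, false, false, true, [(1, 8), (4, 5), (5, 2), (6, 3), (7, 3), (8, 2), (9, 3), (10, 3), (11, 2), (12, 3)], [(13, 3), (14, 2), (15, 3), (16, 3), (17, 2), (18, 3), (19, 3), (20, 2), (21, 3), (22, 3), (23, 2)]⟩,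
    ⟨3742, 160, 640, 384, 399, false, false, true, [(0, 9), (4, 4), (5, 2), (6, 3), (7, 3), (8, 2), (9, 3), (10, 3), (11, 2), (12, 3)], [(13, 3), (14, 2), (15, 3), (16, 3), (17, 2), (18, 3), (19, 3), (20, 2), (21, 3), (22, 3), (23, 2)]⟩,
    ⟨10962, 160, 0, 256, 399, true, false, true, [(0, 19), (7, 2), (8, 2), (9, 3), (10, 3), (11, 2), (12, 3), (13, 3), (14, 2), (15, 3), (16, 3), (17, 2), (18, 3), (19, 1)], [(19, 2), (20, 2), (21, 3), (22, 3), (23, 2)]⟩]⟩,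
  ⟨146, 233, 10274, 13214, 0, [], [⟨2219, 160, 640, 384, 399, false, false, true, [(1, 10), (4, 6), (5, 3), (6, 3), (7, 3), (8, 3), (9, 4), (10, 3), (11, 3), (12, 3)], [(13, 3), (14, 4), (15, 3), (16, 3), (17, 3), (18, 4), (19, 3), (20, 3), (21, 3), (22, 3), (23, 4)]⟩,
    ⟨10124, 160, 640, 256, 399, false, false, true, [(0, 12), (4, 4), (5, 3), (6, 3), (7, 3), (8, 3), (9, 4), (10, 3), (11, 3), (12, 3)], [(13, 3), (14, 4), (15, 3), (16, 3), (17, 3), (18, 4), (19, 3), (20, 3), (21, 3), (22, 3), (23, 4)]⟩,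
    ⟨13895, 160, 0, 256, 399, true, false, true, [(0, 58), (18, 3), (19, 1)], [(19, 2), (20, 3), (21, 3), (22, 3), (23, 4)]⟩]⟩,
  ⟨234, 249, 13007, 13660, 0, [], [⟨3329, 160, 640, 384, 399, false, false, true, [(1, 12), (4, 8), (5, 4), (6, 4), (7, 4), (8, 4), (9, 4), (10, 4), (11, 3)], [(11, 1), (12, 4), (13, 4), (14, 4), (15, 5), (16, 4), (17, 4), (18, 4), (19, 4), (20, 4), (21, 4), (22, 3)]⟩,
    ⟨14364, 160, 0, 256, 399, true, false, true, [(0, 16), (4, 4), (5, 4), (6, 4), (7, 4), (8, 4), (9, 4), (10, 4), (11, 4), (12, 4), (13, 4), (14, 4)], [(15, 5), (16, 4), (17, 4), (18, 4), (19, 4), (20, 4), (21, 4), (22, 4), (23, 4)]⟩]⟩] = true := by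
  decide +kernel

theorem hi_1450 : rowsOK true 1484 1536 1484 1536 0 512 4 tab1450 250 100 [
  ⟨100, 160, 8360, 10760, 0, [], [⟨1663, 160, 640, 384, 399, false, false, true, [(1, 8), (4, 5), (5, 2), (6, 3), (7, 2), (8, 3), (9, 3), (10, 2), (11, 3), (12, 2)], [(13, 3), (14, 3), (15, 2), (16, 3), (17, 3), (18, 2), (19, 3), (20, 2), (21, 3), (22, 3), (23, 2), (24, 3)]⟩,
    ⟨2682, 160, 640, 384, 399, false, false, true, [(0, 9), (4, 4), (5, 2), (6, 3), (7, 2), (8, 3), (9, 3), (10, 2), (11, 3), (12, 2)], [(13, 3), (14, 3), (15, 2), (16, 3), (17, 3), (18, 2), (19, 3), (20, 2), (21, 3), (22, 3), (23, 2), (24, 3)]⟩,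
    ⟨7030, 160, 480, 320, 399, false, false, true, [(0, 14), (5, 1), (6, 3), (7, 2), (8, 3), (9, 3), (10, 2), (11, 3), (12, 2), (13, 2)], [(13, 1), (14, 3), (15, 2), (16, 3), (17, 3), (18, 2), (19, 3), (20, 2), (21, 3), (22, 3), (23, 2), (24, 3)]⟩,
    ⟨12106, 160, 0, 256, 399, true, false, true, [(0, 36), (14, 3), (15, 2), (16, 3), (17, 3), (18, 2), (19, 1)], [(19, 2), (20, 2), (21, 3), (22, 3), (23, 2), (24, 3)]⟩]⟩,
  ⟨161, 249, 10608, 13423, 0, [], [⟨2496, 160, 640, 384, 399, false, false, true, [(1, 10), (4, 6), (5, 3), (6, 4), (7, 3), (8, 3), (9, 4), (10, 3), (11, 3), (12, 3)], [(12, 1), (13, 3), (14, 3), (15, 4), (16, 3), (17, 3), (18, 3), (19, 4), (20, 3), (21, 3), (22, 4), (23, 3), (24, 3)]⟩,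
    ⟨11388, 160, 480, 256, 399, false, false, true, [(0, 13), (4, 3), (5, 3), (6, 4), (7, 3), (8, 3), (9, 4), (10, 3), (11, 3), (12, 4)], [(13, 3), (14, 3), (15, 4), (16, 3), (17, 3), (18, 3), (19, 4), (20, 3), (21, 3), (22, 4), (23, 3), (24, 3)]⟩,
    ⟨15101, 160, 0, 256, 399, true, false, true, [(0, 64)], [(0, 3), (20, 2), (21, 3), (22, 4), (23, 3), (24, 3)]⟩]⟩] = true := by
  decide +kernel

theorem hi_1500 : rowsOK true 1536 1588 1536 1588 0 512 4 tab1500 250 100 [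
  ⟨100, 160, 8222, 10576, 0, [], [⟨1663, 160, 640, 384, 399, false, false, true, [(1, 8), (4, 4), (5, 3), (6, 2), (7, 3), (8, 3), (9, 2), (10, 3), (11, 2), (12, 3)], [(13, 2), (14, 3), (15, 3), (16, 2), (17, 3), (18, 2), (19, 3), (20, 2), (21, 3), (22, 3), (23, 2), (24, 3), (25, 2), (26, 3)]⟩,
    ⟨2682, 160, 640, 384, 399, false, false, true, [(0, 9), (4, 3), (5, 3), (6, 2), (7, 3), (8, 3), (9, 2), (10, 3), (11, 2), (12, 2)], [(12, 1), (13, 2), (14, 3), (15, 3), (16, 2), (17, 3), (18, 2), (19, 3), (20, 2), (21, 3), (22, 3), (23, 2), (24, 3), (25, 2), (26, 3)]⟩,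
    ⟨7030, 160, 480, 352, 399, false, false, true, [(0, 13), (5, 2), (6, 2), (7, 3), (8, 3), (9, 2), (10, 3), (11, 2), (12, 3), (13, 1)], [(13, 1), (14, 3), (15, 3), (16, 2), (17, 3), (18, 2), (19, 3), (20, 2), (21, 3), (22, 3), (23, 2), (24, 3), (25, 2), (26, 3)]⟩,
    ⟨12718, 160, 0, 256, 399, true, false, true, [(0, 35), (14, 3), (15, 3), (16, 2), (17, 3), (18, 2), (19, 1)], [(19, 2), (20, 2), (21, 3), (22, 3), (23, 2), (24, 3), (25, 2), (26, 3)]⟩]⟩,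
  ⟨161, 249, 10433, 13194, 0, [], [⟨2496, 160, 640, 384, 399, false, false, true, [(1, 10), (4, 6), (5, 3), (6, 3), (7, 4), (8, 3), (9, 3), (10, 3), (11, 4), (12, 2)], [(12, 1), (13, 3), (14, 3), (15, 4), (16, 3), (17, 3), (18, 3), (19, 4), (20, 3), (21, 3), (22, 4), (23, 3), (24, 3), (25, 3), (26, 4)]⟩,
    ⟨11388, 160, 480, 272, 399, false, false, true, [(0, 13), (4, 3), (5, 3), (6, 3), (7, 4), (8, 3), (9, 3), (10, 3), (11, 4), (12, 3)], [(13, 3), (14, 3), (15, 4), (16, 3), (17, 3), (18, 3), (19, 4), (20, 3), (21, 3), (22, 4), (23, 3), (24, 3), (25, 3), (26, 4)]⟩,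
    ⟨15866, 160, 0, 256, 399, true, false, true, [(0, 61), (19, 2)], [(19, 2), (20, 3), (21, 3), (22, 4), (23, 3), (24, 3), (25, 3), (26, 4)]⟩]⟩] = true := by
  decide +kernel

theorem hi_1550 : rowsOK true 1587 1639 1587 1639 0 512 4 tab1550 250 100 [
  ⟨100, 160, 8093, 10405, 0, [], [⟨1663, 160, 640, 384, 399, false, false, true, [(1, 8), (4, 4), (5, 3), (6, 2), (7, 3), (8, 2), (9, 3), (10, 2), (11, 3), (12, 2), (13, 1)], [(13, 2), (14, 2), (15, 3), (16, 2), (17, 3), (18, 3), (19, 2), (20, 3), (21, 2), (22, 3), (23, 2), (24, 3), (25, 2), (26, 3), (27, 2)]⟩,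
    ⟨2682, 160, 640, 384, 399, false, false, true, [(0, 9), (4, 3), (5, 3), (6, 2), (7, 3), (8, 2), (9, 3), (10, 2), (11, 3), (12, 2)], [(13, 3), (14, 2), (15, 3), (16, 2), (17, 3), (18, 3), (19, 2), (20, 3), (21, 2), (22, 3), (23, 2), (24, 3), (25, 2), (26, 3), (27, 2)]⟩,
    ⟨7030, 160, 480, 368, 399, false, false, true, [(0, 13), (5, 2), (6, 2), (7, 3), (8, 2), (9, 3), (10, 2), (11, 3), (12, 2), (13, 1)], [(13, 2), (14, 2), (15, 3), (16, 2), (17, 3), (18, 3), (19, 2), (20, 3), (21, 2), (22, 3), (23, 2), (24, 3), (25, 2), (26, 3), (27, 2)]⟩,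
    ⟨13329, 160, 0, 256, 399, true, false, true, [(0, 34), (13, 1), (14, 2), (15, 3), (16, 2), (17, 3), (18, 3), (19, 1)], [(19, 1), (20, 3), (21, 2), (22, 3), (23, 2), (24, 3), (25, 2), (26, 3), (27, 2)]⟩]⟩,
  ⟨161, 249, 10270, 12980, 0, [], [⟨2496, 160, 640, 384, 399, false, false, true, [(1, 11), (4, 5), (5, 3), (6, 3), (7, 3), (8, 3), (9, 4), (10, 3), (11, 3), (12, 3)], [(13, 3), (14, 4), (15, 3), (16, 3), (17, 3), (18, 3), (19, 4), (20, 3), (21, 3), (22, 3), (23, 4), (24, 3), (25, 3), (26, 3), (27, 3)]⟩,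
    ⟨11388, 160, 640, 304, 399, false, false, true, [(0, 12), (4, 4), (5, 3), (6, 3), (7, 3), (8, 3), (9, 4), (10, 3), (11, 3), (12, 3), (13, 1)], [(13, 2), (14, 4), (15, 3), (16, 3), (17, 3), (18, 3), (19, 4), (20, 3), (21, 3), (22, 3), (23, 4), (24, 3), (25, 3), (26, 3), (27, 3)]⟩,
    ⟨16627, 160, 0, 256, 399, true, false, true, [(0, 58), (18, 2), (19, 2)], [(19, 2), (20, 3), (21, 3), (22, 3), (23, 4), (24, 3), (25, 3), (26, 3), (27, 3)]⟩]⟩] = true := by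
  decide +kernel

theorem hi_1600 : rowsOK true 1638 1690 1638 1690 0 512 4 tab1600 250 100 [
  ⟨100, 160, 7970, 10242, 0, [], [⟨1663, 160, 640, 384, 399, false, false, true, [(1, 8), (4, 4), (5, 2), (6, 3), (7, 2), (8, 3), (9, 2), (10, 3), (11, 2), (12, 3), (13, 1)], [(13, 1), (14, 3), (15, 2), (16, 3), (17, 2), (18, 3), (19, 2), (20, 3), (21, 2), (22, 3), (23, 2), (24, 3), (25, 2), (26, 3), (27, 2)]⟩,
    ⟨2579, 160, 640, 384, 399, false, false, true, [(0, 9), (4, 3), (5, 2), (6, 3), (7, 2), (8, 3), (9, 2), (10, 3), (11, 2), (12, 3)], [(13, 2), (14, 3), (15, 2), (16, 3), (17, 2), (18, 3), (19, 2), (20, 3), (21, 2), (22, 3), (23, 2), (24, 3), (25, 2), (26, 3), (27, 2)]⟩,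
    ⟨6488, 160, 480, 368, 399, false, false, true, [(0, 12), (5, 2), (6, 3), (7, 2), (8, 3), (9, 2), (10, 3), (11, 2), (12, 3)], [(13, 2), (14, 3), (15, 2), (16, 3), (17, 2), (18, 3), (19, 2), (20, 3), (21, 2), (22, 3), (23, 2), (24, 3), (25, 2), (26, 3), (27, 2)]⟩,
    ⟨13949, 160, 0, 256, 399, true, false, true, [(0, 31), (12, 1), (13, 2), (14, 3), (15, 2), (16, 3), (17, 2), (18, 3), (19, 1)], [(19, 1), (20, 3), (21, 2), (22, 3), (23, 2), (24, 3), (25, 2), (26, 3), (27, 2)]⟩]⟩,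
  ⟨161, 249, 10113, 12776, 0, [], [⟨2496, 160, 640, 384, 399, false, false, true, [(1, 10), (4, 5), (5, 3), (6, 4), (7, 3), (8, 3), (9, 3), (10, 3), (11, 3), (12, 3)], [(12, 1), (13, 3), (14, 3), (15, 3), (16, 3), (17, 3), (18, 4), (19, 3), (20, 3), (21, 3), (22, 3), (23, 3), (24, 4), (25, 3), (26, 3), (27, 3)]⟩,
    ⟨11388, 160, 640, 320, 399, false, false, true, [(0, 12), (4, 3), (5, 3), (6, 4), (7, 3), (8, 3), (9, 3), (10, 3), (11, 3), (12, 4)], [(13, 3), (14, 3), (15, 3), (16, 3), (17, 3), (18, 4), (19, 3), (20, 3), (21, 3), (22, 3), (23, 3), (24, 4), (25, 3), (26, 3), (27, 3)]⟩,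
    ⟨17400, 160, 0, 256, 399, true, false, true, [(0, 56), (18, 4), (19, 1)], [(19, 2), (20, 3), (21, 3), (22, 3), (23, 3), (24, 4), (25, 3), (26, 3), (27, 3)]⟩]⟩] = true := by
  decide +kernel

theorem hi_1650 : rowsOK true 1689 1741 1689 1741 0 512 4 tab1650 250 100 [
  ⟨100, 160, 7853, 10086, 0, [], [⟨1663, 160, 640, 384, 399, false, false, true, [(1, 9), (4, 3), (5, 2), (6, 3), (7, 2), (8, 3), (9, 2), (10, 2), (11, 3), (12, 2), (13, 1)], [(13, 2), (14, 2), (15, 3), (16, 2), (17, 3), (18, 2), (19, 3), (20, 2), (21, 2), (22, 3), (23, 2), (24, 3), (25, 2), (26, 3), (27, 2), (28, 3)]⟩,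
    ⟨2579, 160, 640, 384, 399, false, false, true, [(0, 9), (4, 3), (5, 2), (6, 3), (7, 2), (8, 3), (9, 2), (10, 2), (11, 3), (12, 2)], [(13, 3), (14, 2), (15, 3), (16, 2), (17, 3), (18, 2), (19, 3), (20, 2), (21, 2), (22, 3), (23, 2), (24, 3), (25, 2), (26, 3), (27, 2), (28, 3)]⟩,
    ⟨6488, 160, 480, 384, 399, false, false, true, [(0, 12), (5, 2), (6, 3), (7, 2), (8, 3), (9, 2), (10, 2), (11, 3), (12, 2)], [(13, 3), (14, 2), (15, 3), (16, 2), (17, 3), (18, 2), (19, 3), (20, 2), (21, 2), (22, 3), (23, 2), (24, 3), (25, 2), (26, 3), (27, 2), (28, 3)]⟩,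
    ⟨14578, 160, 0, 256, 399, true, false, true, [(0, 30), (12, 1), (13, 3), (14, 2), (15, 3), (16, 2), (17, 3), (18, 2), (19, 1)], [(19, 2), (20, 2), (21, 2), (22, 3), (23, 2), (24, 3), (25, 2), (26, 3), (27, 2), (28, 3)]⟩]⟩,
  ⟨161, 249, 9964, 12582, 0, [], [⟨2496, 160, 640, 384, 399, false, false, true, [(1, 11), (4, 4), (5, 3), (6, 3), (7, 3), (8, 4), (9, 3), (10, 3), (11, 3), (12, 3)], [(13, 3), (14, 3), (15, 3), (16, 3), (17, 4), (18, 3), (19, 3), (20, 3), (21, 3), (22, 3), (23, 3), (24, 3), (25, 3), (26, 4), (27, 3), (28, 3)]⟩,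
    ⟨11388, 160, 640, 320, 399, false, false, true, [(0, 12), (4, 3), (5, 3), (6, 3), (7, 3), (8, 4), (9, 3), (10, 3), (11, 3), (12, 3)], [(13, 3), (14, 3), (15, 3), (16, 3), (17, 4), (18, 3), (19, 3), (20, 3), (21, 3), (22, 3), (23, 3), (24, 3), (25, 3), (26, 4), (27, 3), (28, 3)]⟩,
    ⟨18186, 160, 0, 256, 399, true, false, true, [(0, 54), (17, 2), (18, 3), (19, 1)], [(19, 2), (20, 3), (21, 3), (22, 3), (23, 3), (24, 3), (25, 3), (26, 4), (27, 3), (28, 3)]⟩]⟩] = true := by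
  decide +kernel

theorem hi_1700 : rowsOK true 1740 1792 1740 1792 0 512 4 tab1700 250 100 [
  ⟨100, 160, 7740, 9937, 0, [], [⟨1663, 160, 640, 384, 399, false, false, true, [(1, 9), (4, 3), (5, 2), (6, 2), (7, 3), (8, 2), (9, 3), (10, 2), (11, 3), (12, 2), (13, 1)], [(13, 1), (14, 3), (15, 2), (16, 3), (17, 2), (18, 2), (19, 3), (20, 2), (21, 3), (22, 2), (23, 3), (24, 2), (25, 2), (26, 3), (27, 2), (28, 3), (29, 2)]⟩,
    ⟨2579, 160, 640, 384, 399, false, false, true, [(0, 9), (4, 3), (5, 2), (6, 2), (7, 3), (8, 2), (9, 3), (10, 2), (11, 3), (12, 2)], [(13, 2), (14, 3), (15, 2), (16, 3), (17, 2), (18, 2), (19, 3), (20, 2), (21, 3), (22, 2), (23, 3), (24, 2), (25, 2), (26, 3), (27, 2), (28, 3), (29, 2)]⟩,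
    ⟨6488, 160, 480, 384, 399, false, false, true, [(0, 12), (5, 2), (6, 2), (7, 3), (8, 2), (9, 3), (10, 2), (11, 3), (12, 2)], [(13, 2), (14, 3), (15, 2), (16, 3), (17, 2), (18, 2), (19, 3), (20, 2), (21, 3), (22, 2), (23, 3), (24, 2), (25, 2), (26, 3), (27, 2), (28, 3), (29, 2)]⟩,
    ⟨15217, 160, 0, 256, 399, true, false, true, [(0, 29), (12, 2), (13, 2), (14, 3), (15, 2), (16, 3), (17, 2), (18, 2), (19, 1)], [(19, 2), (20, 2), (21, 3), (22, 2), (23, 3), (24, 2), (25, 2), (26, 3), (27, 2), (28, 3), (29, 2)]⟩]⟩,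
  ⟨161, 249, 9821, 12396, 0, [], [⟨2496, 160, 640, 384, 399, false, false, true, [(1, 11), (4, 4), (5, 3), (6, 3), (7, 3), (8, 3), (9, 3), (10, 3), (11, 3), (12, 3)], [(13, 3), (14, 4), (15, 3), (16, 3), (17, 3), (18, 3), (19, 3), (20, 3), (21, 3), (22, 3), (23, 3), (24, 3), (25, 3), (26, 3), (27, 3), (28, 4), (29, 3)]⟩,
    ⟨11388, 160, 640, 336, 399, false, false, true, [(0, 12), (4, 3), (5, 3), (6, 3), (7, 3), (8, 3), (9, 3), (10, 3), (11, 3), (12, 3)], [(13, 3), (14, 4), (15, 3), (16, 3), (17, 3), (18, 3), (19, 3), (20, 3), (21, 3), (22, 3), (23, 3), (24, 3), (25, 3), (26, 3), (27, 3), (28, 4), (29, 3)]⟩,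
    ⟨18982, 160, 0, 256, 399, true, false, true, [(0, 53), (17, 2), (18, 3), (19, 1)], [(19, 2), (20, 3), (21, 3), (22, 3), (23, 3), (24, 3), (25, 3), (26, 3), (27, 3), (28, 4), (29, 3)]⟩]⟩] = true := by
  decide +kernel

theorem hi_1750 : rowsOK true 1792 1844 1792 1844 0 512 4 tab1750 250 100 [
  ⟨100, 160, 7630, 9792, 0, [], [⟨1663, 160, 640, 384, 399, false, false, true, [(1, 9), (4, 2), (5, 3), (6, 2), (7, 3), (8, 2), (9, 2), (10, 3), (11, 2), (12, 3)], [(13, 2), (14, 2), (15, 3), (16, 2), (17, 2), (18, 3), (19, 2), (20, 3), (21, 2), (22, 2), (23, 3), (24, 2), (25, 2), (26, 3), (27, 2), (28, 3), (29, 2), (30, 2), (31, 3)]⟩,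
    ⟨2579, 160, 640, 384, 399, false, false, true, [(0, 9), (4, 2), (5, 3), (6, 2), (7, 3), (8, 2), (9, 2), (10, 3), (11, 2), (12, 3)], [(13, 2), (14, 2), (15, 3), (16, 2), (17, 2), (18, 3), (19, 2), (20, 3), (21, 2), (22, 2), (23, 3), (24, 2), (25, 2), (26, 3), (27, 2), (28, 3), (29, 2), (30, 2), (31, 3)]⟩,
    ⟨4900, 160, 480, 384, 399, false, false, true, [(0, 12), (5, 2), (6, 2), (7, 3), (8, 2), (9, 2), (10, 3), (11, 2), (12, 2)], [(12, 1), (13, 2), (14, 2), (15, 3), (16, 2), (17, 2), (18, 3), (19, 2), (20, 3), (21, 2), (22, 2), (23, 3), (24, 2), (25, 2), (26, 3), (27, 2), (28, 3), (29, 2), (30, 2), (31, 3)]⟩,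
    ⟨13169, 160, 0, 272, 399, true, false, true, [(0, 22), (9, 1), (10, 3), (11, 2), (12, 3), (13, 2), (14, 2), (15, 3), (16, 2), (17, 2), (18, 3), (19, 1)], [(19, 1), (20, 3), (21, 2), (22, 2), (23, 3), (24, 2), (25, 2), (26, 3), (27, 2), (28, 3), (29, 2), (30, 2), (31, 3)]⟩,
    ⟨15877, 160, 0, 272, 399, true, false, true, [(0, 27)], [(0, 49)]⟩]⟩,
  ⟨161, 249, 9682, 12215, 0, [], [⟨2496, 160, 640, 384, 399, false, false, true, [(1, 11), (4, 4), (5, 3), (6, 3), (7, 3), (8, 3), (9, 3), (10, 3), (11, 3), (12, 3)], [(13, 3), (14, 3), (15, 3), (16, 3), (17, 3), (18, 3), (19, 3), (20, 3), (21, 3), (22, 3), (23, 3), (24, 3), (25, 3), (26, 3), (27, 3), (28, 3), (29, 3), (30, 3), (31, 3)]⟩,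
    ⟨7646, 160, 640, 384, 399, false, false, true, [(0, 11), (4, 4), (5, 3), (6, 3), (7, 3), (8, 3), (9, 3), (10, 3), (11, 3), (12, 2)], [(12, 1), (13, 3), (14, 3), (15, 3), (16, 3), (17, 3), (18, 3), (19, 3), (20, 3), (21, 3), (22, 3), (23, 3), (24, 3), (25, 3), (26, 3), (27, 3), (28, 3), (29, 3), (30, 3), (31, 3)]⟩,
    ⟨19806, 160, 0, 272, 399, true, false, true, [(0, 34), (11, 2), (12, 3), (13, 3), (14, 3), (15, 3), (16, 3), (17, 3), (18, 3), (19, 1)], [(19, 2), (20, 3), (21, 3), (22, 3), (23, 3), (24, 3), (25, 3), (26, 3), (27, 3), (28, 3), (29, 3), (30, 3), (31, 3)]⟩]⟩] = true := by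
  decide +kernel

theorem hi_1800 : rowsOK true 1843 1895 1843 1895 0 512 4 tab1800 250 100 [
  ⟨100, 160, 7527, 9655, 0, [], [⟨1478, 160, 640, 384, 399, false, false, true, [(1, 9), (4, 2), (5, 3), (6, 2), (7, 2), (8, 3), (9, 2), (10, 2), (11, 3), (12, 2), (13, 1)], [(13, 1), (14, 3), (15, 2), (16, 2), (17, 3), (18, 2), (19, 3), (20, 2), (21, 2), (22, 3), (23, 2), (24, 2), (25, 3), (26, 2), (27, 2), (28, 3), (29, 2), (30, 2), (31, 3), (32, 2)]⟩,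
    ⟨2292, 160, 640, 384, 399, false, false, true, [(0, 8), (1, 1), (4, 2), (5, 3), (6, 2), (7, 2), (8, 3), (9, 2), (10, 2), (11, 3), (12, 2), (13, 1)], [(13, 1), (14, 3), (15, 2), (16, 2), (17, 3), (18, 2), (19, 3), (20, 2), (21, 2), (22, 3), (23, 2), (24, 2), (25, 3), (26, 2), (27, 2), (28, 3), (29, 2), (30, 2), (31, 3), (32, 2)]⟩,
    ⟨3973, 160, 640, 384, 399, false, false, true, [(0, 11), (5, 3), (6, 2), (7, 2), (8, 3), (9, 2), (10, 2), (11, 3), (12, 1)], [(12, 1), (13, 2), (14, 3), (15, 2), (16, 2), (17, 3), (18, 2), (19, 3), (20, 2), (21, 2), (22, 3), (23, 2), (24, 2), (25, 3), (26, 2), (27, 2), (28, 3), (29, 2), (30, 2), (31, 3), (32, 2)]⟩,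
    ⟨10435, 160, 0, 320, 399, true, false, true, [(0, 18), (8, 3), (9, 2), (10, 2), (11, 3)], [(12, 2), (13, 2), (14, 3), (15, 2), (16, 2), (17, 3), (18, 2), (19, 3), (20, 2), (21, 2), (22, 3), (23, 2), (24, 2), (25, 3), (26, 2), (27, 2), (28, 3), (29, 2), (30, 2), (31, 3), (32, 2)]⟩,
    ⟨16533, 160, 0, 272, 399, true, false, true, [(0, 45)], [(0, 4), (21, 2), (22, 3), (23, 2), (24, 2), (25, 3), (26, 2), (27, 2), (28, 3), (29, 2), (30, 2), (31, 3), (32, 2)]⟩]⟩,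
  ⟨161, 249, 9551, 12045, 0, [], [⟨2496, 160, 640, 368, 399, false, false, true, [(1, 11), (4, 3), (5, 3), (6, 3), (7, 3), (8, 3), (9, 3), (10, 3), (11, 3), (12, 3)], [(13, 3), (14, 3), (15, 3), (16, 3), (17, 3), (18, 3), (19, 3), (20, 3), (21, 3), (22, 3), (23, 3), (24, 3), (25, 3), (26, 3), (27, 3), (28, 3), (29, 3), (30, 3), (31, 3), (32, 3)]⟩,
    ⟨6241, 160, 640, 368, 399, false, false, true, [(0, 12), (4, 2), (5, 3), (6, 3), (7, 3), (8, 3), (9, 3), (10, 3), (11, 3), (12, 2)], [(12, 1), (13, 3), (14, 3), (15, 3), (16, 3), (17, 3), (18, 3), (19, 3), (20, 3), (21, 3), (22, 3), (23, 3), (24, 3), (25, 3), (26, 3), (27, 3), (28, 3), (29, 3), (30, 3), (31, 3), (32, 3)]⟩,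
    ⟨18880, 160, 0, 272, 399, true, false, true, [(0, 29), (10, 3), (11, 3), (12, 3), (13, 3), (14, 3), (15, 3), (16, 3), (17, 3), (18, 3), (19, 1)], [(19, 2), (20, 3), (21, 3), (22, 3), (23, 3), (24, 3), (25, 3), (26, 3), (27, 3), (28, 3), (29, 3), (30, 3), (31, 3), (32, 3)]⟩,
    ⟨20626, 160, 0, 272, 399, true, false, true, [(0, 15)], [(0, 83)]⟩]⟩] = true := by
  decide +kernel

theorem hi_1850 : rowsOK true 1894 1946 1894 1946 0 512 4 tab1850 250 100 [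
  ⟨100, 160, 7428, 9525, 0, [], [⟨1478, 160, 640, 384, 399, false, false, true, [(1, 9), (4, 2), (5, 2), (6, 3), (7, 2), (8, 2), (9, 3), (10, 2), (11, 2), (12, 3), (13, 1)], [(13, 1), (14, 2), (15, 3), (16, 2), (17, 2), (18, 3), (19, 2), (20, 2), (21, 3), (22, 2), (23, 2), (24, 3), (25, 2), (26, 2), (27, 3), (28, 2), (29, 2), (30, 2), (31, 3), (32, 2)]⟩,
    ⟨2202, 160, 640, 384, 399, false, false, true, [(0, 8), (1, 1), (4, 2), (5, 2), (6, 3), (7, 2), (8, 2), (9, 3), (10, 2), (11, 2), (12, 3)], [(13, 2), (14, 2), (15, 3), (16, 2), (17, 2), (18, 3), (19, 2), (20, 2), (21, 3), (22, 2), (23, 2), (24, 3), (25, 2), (26, 2), (27, 3), (28, 2), (29, 2), (30, 2), (31, 3), (32, 2)]⟩,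
    ⟨3697, 160, 640, 384, 399, false, false, true, [(0, 11), (5, 2), (6, 3), (7, 2), (8, 2), (9, 3), (10, 2), (11, 2), (12, 2)], [(12, 1), (13, 2), (14, 2), (15, 3), (16, 2), (17, 2), (18, 3), (19, 2), (20, 2), (21, 3), (22, 2), (23, 2), (24, 3), (25, 2), (26, 2), (27, 3), (28, 2), (29, 2), (30, 2), (31, 3), (32, 2)]⟩,
    ⟨9444, 160, 0, 368, 399, true, false, true, [(0, 16), (7, 2), (8, 2), (9, 1)], [(9, 2), (10, 2), (11, 2), (12, 3), (13, 2), (14, 2), (15, 3), (16, 2), (17, 2), (18, 3), (19, 2), (20, 2), (21, 3), (22, 2), (23, 2), (24, 3), (25, 2), (26, 2), (27, 3), (28, 2), (29, 2), (30, 2), (31, 3), (32, 2)]⟩,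
    ⟨17200, 160, 0, 288, 399, true, false, true, [(0, 42), (18, 2), (19, 1)], [(19, 1), (20, 2), (21, 3), (22, 2), (23, 2), (24, 3), (25, 2), (26, 2), (27, 3), (28, 2), (29, 2), (30, 2), (31, 3), (32, 2)]⟩]⟩,
  ⟨161, 249, 9425, 11882, 0, [], [⟨2496, 160, 640, 368, 399, false, false, true, [(1, 12), (4, 2), (5, 3), (6, 3), (7, 3), (8, 3), (9, 3), (10, 3), (11, 3), (12, 3)], [(13, 3), (14, 3), (15, 3), (16, 3), (17, 3), (18, 2), (19, 3), (20, 3), (21, 3), (22, 3), (23, 3), (24, 3), (25, 3), (26, 3), (27, 3), (28, 3), (29, 3), (30, 3), (31, 3), (32, 3)]⟩,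
    ⟨6241, 160, 640, 368, 399, false, false, true, [(0, 12), (4, 2), (5, 3), (6, 3), (7, 3), (8, 3), (9, 3), (10, 3), (11, 3), (12, 1)], [(12, 2), (13, 3), (14, 3), (15, 3), (16, 3), (17, 3), (18, 2), (19, 3), (20, 3), (21, 3), (22, 3), (23, 3), (24, 3), (25, 3), (26, 3), (27, 3), (28, 3), (29, 3), (30, 3), (31, 3), (32, 3)]⟩,
    ⟨18880, 160, 0, 272, 399, true, false, true, [(0, 27), (9, 2), (10, 3), (11, 3), (12, 3), (13, 3), (14, 3), (15, 3), (16, 3), (17, 3), (18, 2), (19, 2)], [(19, 1), (20, 3), (21, 3), (22, 3), (23, 3), (24, 3), (25, 3), (26, 3), (27, 3), (28, 3), (29, 3), (30, 3), (31, 3), (32, 3)]⟩,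
    ⟨21456, 160, 0, 272, 399, true, false, true, [(0, 15)], [(0, 82)]⟩]⟩] = true := by
  decide +kernel

theorem hi_1900 : rowsOK true 1945 1997 1945 1997 0 512 4 tab1900 250 100 [
  ⟨100, 160, 7332, 9399, 0, [], [⟨1478, 160, 640, 384, 399, false, false, true, [(1, 9), (4, 2), (5, 2), (6, 3), (7, 2), (8, 2), (9, 2), (10, 3), (11, 2), (12, 2), (13, 2)], [(13, 1), (14, 2), (15, 2), (16, 2), (17, 3), (18, 2), (19, 2), (20, 3), (21, 2), (22, 2), (23, 2), (24, 3), (25, 2), (26, 2), (27, 3), (28, 2), (29, 2), (30, 3), (31, 2), (32, 2), (33, 2)]⟩,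
    ⟨2202, 160, 640, 384, 399, false, false, true, [(0, 8), (1, 1), (4, 2), (5, 2), (6, 3), (7, 2), (8, 2), (9, 2), (10, 3), (11, 2), (12, 2), (13, 1)], [(13, 2), (14, 2), (15, 2), (16, 2), (17, 3), (18, 2), (19, 2), (20, 3), (21, 2), (22, 2), (23, 2), (24, 3), (25, 2), (26, 2), (27, 3), (28, 2), (29, 2), (30, 3), (31, 2), (32, 2), (33, 2)]⟩,
    ⟨3697, 160, 640, 384, 399, false, false, true, [(0, 11), (5, 2), (6, 3), (7, 2), (8, 2), (9, 2), (10, 3), (11, 2), (12, 2)], [(13, 3), (14, 2), (15, 2), (16, 2), (17, 3), (18, 2), (19, 2), (20, 3), (21, 2), (22, 2), (23, 2), (24, 3), (25, 2), (26, 2), (27, 3), (28, 2), (29, 2), (30, 3), (31, 2), (32, 2), (33, 2)]⟩,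
    ⟨9444, 160, 0, 368, 399, true, false, true, [(0, 16), (7, 2), (8, 1)], [(8, 1), (9, 2), (10, 3), (11, 2), (12, 2), (13, 3), (14, 2), (15, 2), (16, 2), (17, 3), (18, 2), (19, 2), (20, 3), (21, 2), (22, 2), (23, 2), (24, 3), (25, 2), (26, 2), (27, 3), (28, 2), (29, 2), (30, 3), (31, 2), (32, 2), (33, 2)]⟩,
    ⟨17874, 160, 0, 272, 399, true, false, true, [(0, 41), (18, 2), (19, 1)], [(19, 1), (20, 3), (21, 2), (22, 2), (23, 2), (24, 3), (25, 2), (26, 2), (27, 3), (28, 2), (29, 2), (30, 3), (31, 2), (32, 2), (33, 2)]⟩]⟩,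
  ⟨161, 249, 9304, 11725, 0, [], [⟨2496, 160, 640, 368, 399, false, false, true, [(1, 12), (4, 2), (5, 3), (6, 3), (7, 3), (8, 3), (9, 3), (10, 2), (11, 3), (12, 3), (13, 1)], [(13, 2), (14, 3), (15, 3), (16, 3), (17, 3), (18, 3), (19, 3), (20, 3), (21, 2), (22, 3), (23, 3), (24, 3), (25, 3), (26, 3), (27, 3), (28, 3), (29, 3), (30, 3), (31, 3), (32, 2), (33, 3)]⟩,
    ⟨6241, 160, 640, 368, 399, false, false, true, [(0, 12), (4, 2), (5, 3), (6, 3), (7, 3), (8, 3), (9, 3), (10, 2), (11, 3), (12, 1)], [(12, 2), (13, 3), (14, 3), (15, 3), (16, 3), (17, 3), (18, 3), (19, 3), (20, 3), (21, 2), (22, 3), (23, 3), (24, 3), (25, 3), (26, 3), (27, 3), (28, 3), (29, 3), (30, 3), (31, 3), (32, 2), (33, 3)]⟩,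
    ⟨18880, 160, 0, 272, 399, true, false, true, [(0, 26), (9, 3), (10, 2), (11, 3), (12, 3), (13, 3), (14, 3), (15, 3), (16, 3), (17, 3), (18, 3), (19, 1)], [(19, 2), (20, 3), (21, 2), (22, 3), (23, 3), (24, 3), (25, 3), (26, 3), (27, 3), (28, 3), (29, 3), (30, 3), (31, 3), (32, 2), (33, 3)]⟩,
    ⟨22297, 160, 0, 272, 399, true, false, true, [(0, 15)], [(0, 83)]⟩]⟩] = true := by
  decide +kernel

theorem hi_1950 : rowsOK true 1996 2048 1996 2048 0 512 4 tab1950 250 100 [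
  ⟨100, 160, 7240, 9278, 0, [], [⟨1478, 160, 640, 384, 399, false, false, true, [(1, 9), (4, 2), (5, 2), (6, 2), (7, 3), (8, 2), (9, 2), (10, 2), (11, 3), (12, 2), (13, 1)], [(13, 1), (14, 2), (15, 3), (16, 2), (17, 2), (18, 2), (19, 3), (20, 2), (21, 2), (22, 3), (23, 2), (24, 2), (25, 2), (26, 3), (27, 2), (28, 2), (29, 2), (30, 3), (31, 2), (32, 2), (33, 2), (34, 3)]⟩,
    ⟨2175, 160, 640, 384, 399, false, false, true, [(0, 8), (1, 1), (4, 2), (5, 2), (6, 2), (7, 3), (8, 2), (9, 2), (10, 2), (11, 3), (12, 2), (13, 1)], [(13, 1), (14, 2), (15, 3), (16, 2), (17, 2), (18, 2), (19, 3), (20, 2), (21, 2), (22, 3), (23, 2), (24, 2), (25, 2), (26, 3), (27, 2), (28, 2), (29, 2), (30, 3), (31, 2), (32, 2), (33, 2), (34, 3)]⟩,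
    ⟨3614, 160, 640, 384, 399, false, false, true, [(0, 11), (5, 2), (6, 2), (7, 3), (8, 2), (9, 2), (10, 2), (11, 3), (12, 1)], [(12, 1), (13, 2), (14, 2), (15, 3), (16, 2), (17, 2), (18, 2), (19, 3), (20, 2), (21, 2), (22, 3), (23, 2), (24, 2), (25, 2), (26, 3), (27, 2), (28, 2), (29, 2), (30, 3), (31, 2), (32, 2), (33, 2), (34, 3)]⟩,
    ⟨9146, 160, 0, 384, 399, true, false, true, [(0, 16), (7, 2)], [(8, 2), (9, 2), (10, 2), (11, 3), (12, 2), (13, 2), (14, 2), (15, 3), (16, 2), (17, 2), (18, 2), (19, 3), (20, 2), (21, 2), (22, 3), (23, 2), (24, 2), (25, 2), (26, 3), (27, 2), (28, 2), (29, 2), (30, 3), (31, 2), (32, 2), (33, 2), (34, 3)]⟩,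
    ⟨18557, 160, 0, 288, 399, true, false, true, [(0, 39), (17, 1), (18, 2), (19, 1)], [(19, 2), (20, 2), (21, 2), (22, 3), (23, 2), (24, 2), (25, 2), (26, 3), (27, 2), (28, 2), (29, 2), (30, 3), (31, 2), (32, 2), (33, 2), (34, 3)]⟩]⟩,
  ⟨161, 249, 9187, 11574, 0, [], [⟨2496, 160, 640, 368, 399, false, false, true, [(1, 12), (4, 2), (5, 3), (6, 3), (7, 2), (8, 3), (9, 3), (10, 3), (11, 3), (12, 3)], [(13, 3), (14, 3), (15, 2), (16, 3), (17, 3), (18, 3), (19, 3), (20, 3), (21, 3), (22, 3), (23, 2), (24, 3), (25, 3), (26, 3), (27, 3), (28, 3), (29, 3), (30, 2), (31, 3), (32, 3), (33, 3), (34, 3)]⟩,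
    ⟨6241, 160, 640, 368, 399, false, false, true, [(0, 12), (4, 2), (5, 3), (6, 3), (7, 2), (8, 3), (9, 3), (10, 3), (11, 3)], [(12, 3), (13, 3), (14, 3), (15, 2), (16, 3), (17, 3), (18, 3), (19, 3), (20, 3), (21, 3), (22, 3), (23, 2), (24, 3), (25, 3), (26, 3), (27, 3), (28, 3), (29, 3), (30, 2), (31, 3), (32, 3), (33, 3), (34, 3)]⟩,
    ⟨18880, 160, 0, 272, 399, true, false, true, [(0, 26), (9, 2), (10, 3), (11, 3), (12, 3), (13, 3), (14, 3), (15, 2), (16, 3), (17, 3), (18, 3), (19, 1)], [(19, 2), (20, 3), (21, 3), (22, 3), (23, 2), (24, 3), (25, 3), (26, 3), (27, 3), (28, 3), (29, 3), (30, 2), (31, 3), (32, 3), (33, 3), (34, 3)]⟩,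
    ⟨23149, 160, 0, 272, 399, true, false, true, [(0, 15)], [(0, 85)]⟩]⟩] = true := by
  decide +kernel

theorem hi_2000 : rowsOK true 2048 2100 2048 2100 0 512 4 tab2000 250 100 [
  ⟨100, 160, 7150, 9159, 0, [], [⟨1478, 160, 640, 384, 399, false, false, true, [(1, 9), (4, 2), (5, 2), (6, 2), (7, 2), (8, 3), (9, 2), (10, 2), (11, 2), (12, 3), (13, 1)], [(13, 1), (14, 2), (15, 2), (16, 2), (17, 3), (18, 2), (19, 2), (20, 2), (21, 3), (22, 2), (23, 2), (24, 2), (25, 3), (26, 2), (27, 2), (28, 2), (29, 3), (30, 2), (31, 2), (32, 2), (33, 2), (34, 3), (35, 2), (36, 2)]⟩,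
    ⟨2112, 160, 640, 384, 399, false, false, true, [(0, 8), (1, 1), (4, 2), (5, 2), (6, 2), (7, 2), (8, 3), (9, 2), (10, 2), (11, 2), (12, 3)], [(13, 2), (14, 2), (15, 2), (16, 2), (17, 3), (18, 2), (19, 2), (20, 2), (21, 3), (22, 2), (23, 2), (24, 2), (25, 3), (26, 2), (27, 2), (28, 2), (29, 3), (30, 2), (31, 2), (32, 2), (33, 2), (34, 3), (35, 2), (36, 2)]⟩,
    ⟨3421, 160, 640, 384, 399, false, false, true, [(0, 11), (5, 2), (6, 2), (7, 2), (8, 3), (9, 2), (10, 2), (11, 2), (12, 2)], [(12, 1), (13, 2), (14, 2), (15, 2), (16, 2), (17, 3), (18, 2), (19, 2), (20, 2), (21, 3), (22, 2), (23, 2), (24, 2), (25, 3), (26, 2), (27, 2), (28, 2), (29, 3), (30, 2), (31, 2), (32, 2), (33, 2), (34, 3), (35, 2), (36, 2)]⟩,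
    ⟨8453, 160, 320, 384, 399, false, false, true, [(0, 14), (6, 1), (7, 2), (8, 3), (9, 2), (10, 2), (11, 2), (12, 1)], [(12, 2), (13, 2), (14, 2), (15, 2), (16, 2), (17, 3), (18, 2), (19, 2), (20, 2), (21, 3), (22, 2), (23, 2), (24, 2), (25, 3), (26, 2), (27, 2), (28, 2), (29, 3), (30, 2), (31, 2), (32, 2), (33, 2), (34, 3), (35, 2), (36, 2)]⟩,
    ⟨19261, 160, 0, 304, 399, true, false, true, [(0, 35), (16, 2), (17, 3), (18, 2), (19, 1)], [(19, 1), (20, 2), (21, 3), (22, 2), (23, 2), (24, 2), (25, 3), (26, 2), (27, 2), (28, 2), (29, 3), (30, 2), (31, 2), (32, 2), (33, 2), (34, 3), (35, 2), (36, 2)]⟩]⟩,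
  ⟨161, 249, 9073, 11426, 0, [], [⟨2496, 160, 640, 368, 399, false, false, true, [(1, 12), (4, 2), (5, 3), (6, 2), (7, 3), (8, 3), (9, 3), (10, 3), (11, 3), (12, 2), (13, 1)], [(13, 2), (14, 3), (15, 3), (16, 3), (17, 3), (18, 2), (19, 3), (20, 3), (21, 3), (22, 3), (23, 3), (24, 2), (25, 3), (26, 3), (27, 3), (28, 3), (29, 3), (30, 2), (31, 3), (32, 3), (33, 3), (34, 3), (35, 3), (36, 2)]⟩,
    ⟨6241, 160, 640, 368, 399, false, false, true, [(0, 12), (4, 2), (5, 3), (6, 2), (7, 3), (8, 3), (9, 3), (10, 3), (11, 3)], [(12, 2), (13, 3), (14, 3), (15, 3), (16, 3), (17, 3), (18, 2), (19, 3), (20, 3), (21, 3), (22, 3), (23, 3), (24, 2), (25, 3), (26, 3), (27, 3), (28, 3), (29, 3), (30, 2), (31, 3), (32, 3), (33, 3), (34, 3), (35, 3), (36, 2)]⟩,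
    ⟨18880, 160, 0, 304, 399, true, false, true, [(0, 26), (9, 2), (10, 3), (11, 3), (12, 2), (13, 3), (14, 3), (15, 3), (16, 3), (17, 3), (18, 2), (19, 2)], [(19, 1), (20, 3), (21, 3), (22, 3), (23, 3), (24, 2), (25, 3), (26, 3), (27, 3), (28, 3), (29, 3), (30, 2), (31, 3), (32, 3), (33, 3), (34, 3), (35, 3), (36, 2)]⟩,
    ⟨24028, 160, 0, 304, 399, true, false, true, [(0, 15)], [(0, 73), (31, 2), (32, 3), (33, 3), (34, 3), (35, 3), (36, 2)]⟩]⟩] = true := by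
  decide +kernel

theorem hi_2050 : rowsOK true 2099 2151 2099 2151 0 512 4 tab2050 250 100 [
  ⟨100, 160, 7065, 9047, 0, [], [⟨1478, 160, 640, 384, 399, false, false, true, [(1, 9), (4, 2), (5, 2), (6, 2), (7, 2), (8, 2), (9, 3), (10, 2), (11, 2), (12, 2), (13, 2)], [(14, 3), (15, 2), (16, 2), (17, 2), (18, 2), (19, 3), (20, 2), (21, 2), (22, 2), (23, 2), (24, 3), (25, 2), (26, 2), (27, 2), (28, 3), (29, 2), (30, 2), (31, 2), (32, 2), (33, 3), (34, 2), (35, 2), (36, 2), (37, 2)]⟩,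
    ⟨2112, 160, 640, 384, 399, false, false, true, [(0, 8), (1, 1), (4, 2), (5, 2), (6, 2), (7, 2), (8, 2), (9, 3), (10, 2), (11, 2), (12, 2), (13, 1)], [(13, 1), (14, 3), (15, 2), (16, 2), (17, 2), (18, 2), (19, 3), (20, 2), (21, 2), (22, 2), (23, 2), (24, 3), (25, 2), (26, 2), (27, 2), (28, 3), (29, 2), (30, 2), (31, 2), (32, 2), (33, 3), (34, 2), (35, 2), (36, 2), (37, 2)]⟩,
    ⟨3302, 160, 640, 384, 399, false, false, true, [(0, 11), (5, 2), (6, 2), (7, 2), (8, 2), (9, 3), (10, 2), (11, 2), (12, 2)], [(13, 2), (14, 3), (15, 2), (16, 2), (17, 2), (18, 2), (19, 3), (20, 2), (21, 2), (22, 2), (23, 2), (24, 3), (25, 2), (26, 2), (27, 2), (28, 3), (29, 2), (30, 2), (31, 2), (32, 2), (33, 3), (34, 2), (35, 2), (36, 2), (37, 2)]⟩,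
    ⟨7877, 160, 480, 384, 399, false, false, true, [(0, 14), (6, 1), (7, 2), (8, 2), (9, 3), (10, 2), (11, 2), (12, 1)], [(12, 1), (13, 2), (14, 3), (15, 2), (16, 2), (17, 2), (18, 2), (19, 3), (20, 2), (21, 2), (22, 2), (23, 2), (24, 3), (25, 2), (26, 2), (27, 2), (28, 3), (29, 2), (30, 2), (31, 2), (32, 2), (33, 3), (34, 2), (35, 2), (36, 2), (37, 2)]⟩,
    ⟨19960, 160, 0, 304, 399, true, false, true, [(0, 33), (15, 2)], [(16, 2), (17, 2), (18, 2), (19, 3), (20, 2), (21, 2), (22, 2), (23, 2), (24, 3), (25, 2), (26, 2), (27, 2), (28, 3), (29, 2), (30, 2), (31, 2), (32, 2), (33, 3), (34, 2), (35, 2), (36, 2), (37, 2)]⟩]⟩,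
  ⟨161, 249, 8964, 11287, 0, [], [⟨2496, 160, 640, 352, 399, false, false, true, [(1, 12), (4, 2), (5, 2), (6, 3), (7, 3), (8, 3), (9, 3), (10, 2), (11, 3), (12, 3)], [(13, 3), (14, 3), (15, 2), (16, 3), (17, 3), (18, 3), (19, 3), (20, 2), (21, 3), (22, 3), (23, 3), (24, 3), (25, 2), (26, 3), (27, 3), (28, 3), (29, 3), (30, 2), (31, 3), (32, 3), (33, 3), (34, 3), (35, 2), (36, 3), (37, 3)]⟩,
    ⟨6241, 160, 640, 336, 399, false, false, true, [(0, 12), (4, 2), (5, 2), (6, 3), (7, 3), (8, 3), (9, 3), (10, 2), (11, 3)], [(12, 3), (13, 3), (14, 3), (15, 2), (16, 3), (17, 3), (18, 3), (19, 3), (20, 2), (21, 3), (22, 3), (23, 3), (24, 3), (25, 2), (26, 3), (27, 3), (28, 3), (29, 3), (30, 2), (31, 3), (32, 3), (33, 3), (34, 3), (35, 2), (36, 3), (37, 3)]⟩,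
    ⟨18880, 160, 0, 304, 399, true, false, true, [(0, 26), (9, 2), (10, 2), (11, 3), (12, 3), (13, 3), (14, 3), (15, 2), (16, 1)], [(16, 2), (17, 3), (18, 3), (19, 3), (20, 2), (21, 3), (22, 3), (23, 3), (24, 3), (25, 2), (26, 3), (27, 3), (28, 3), (29, 3), (30, 2), (31, 3), (32, 3), (33, 3), (34, 3), (35, 2), (36, 3), (37, 3)]⟩,
    ⟨24902, 160, 0, 304, 399, true, false, true, [(0, 15)], [(0, 69), (30, 2), (31, 3), (32, 3), (33, 3), (34, 3), (35, 2), (36, 3), (37, 3)]⟩]⟩] = true := by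
  decide +kernel

end Pool.Agent.Lib.MP_af3a4a_an.P1.CHK.H58.G
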