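import Pool.Agent.Lib.MP_af3a4a_an.P1.CHK.H58.GX

/-!
# Rows for small R, part 1 (generated, helper58)
-/

set_option autoImplicit false

namespace Pool.Agent.Lib.MP_af3a4a_an.P1.CHK.H58.G

theorem lo_190 : rowsOK false 190 202 1024 1024 0 512 0 [] 250 100 [
  ⟨100, 160, 10240, 12953, 512, [(0, 21196, 1702052, 4839303, 5328236)], []⟩,
  ⟨161, 249, 12993, 16159, 512, [(36, 14877, 1702052, 5334729, 5789668)], []⟩] = true := by
  decide +kernel

theorem lo_202 : rowsOK false 202 214 1024 1024 0 512 0 [] 250 100 [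
  ⟨100, 160, 10240, 12953, 512, [(0, 23899, 1641541, 4839303, 5328236)], []⟩,
  ⟨161, 249, 12993, 16159, 512, [(87, 6234, 1641541, 5334729, 5789668)], []⟩] = true := by
  decide +kernel

theorem lo_214 : rowsOK false 214 226 1024 1024 0 512 0 [] 250 100 [
  ⟨100, 160, 10240, 12953, 512, [(1, 26611, 1584332, 4839303, 5328236)], []⟩,
  ⟨161, 209, 12993, 14804, 512, [(90, 7905, 1584332, 5334729, 5606846)], []⟩,
  ⟨210, 249, 14839, 16159, 450, [(120, 248, 1584332, 5611827, 5789668)], [⟨1463, 48, 0, 144, 69, true, true, false, [(0, 2), (3, 25)], []⟩,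
    ⟨1533, 64, 0, 128, 60, true, true, false, [(0, 4), (3, 21)], []⟩,
    ⟨1784, 64, 0, 128, 60, true, true, false, [(0, 20), (3, 5)], []⟩]⟩] = true := by
  decide +kernel

theorem lo_226 : rowsOK false 226 238 1024 1024 0 512 0 [] 250 100 [
  ⟨100, 160, 10240, 12953, 512, [(52, 19475, 1530083, 4839303, 5328236)], []⟩,
  ⟨161, 183, 12993, 13853, 512, [(108, 5918, 1530083, 5334729, 5468254)], []⟩,
  ⟨184, 200, 13890, 14482, 481, [(130, 0, 1530083, 5473937, 5560916)], [⟨1683, 96, 0, 144, 69, true, true, false, [(0, 4), (3, 10)], []⟩]⟩,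
  ⟨201, 249, 14517, 16159, 361, [(130, 0, 1530083, 5566120, 5789668)], [⟨1207, 48, 0, 144, 69, true, true, false, [(0, 1), (3, 30)], []⟩,
    ⟨1305, 48, 0, 144, 69, true, true, false, [(0, 1), (3, 30)], []⟩,
    ⟨1353, 128, 0, 144, 69, true, true, false, [(0, 1), (3, 11)], []⟩,
    ⟨1401, 128, 0, 144, 69, true, true, false, [(0, 2), (3, 10)], []⟩,
    ⟨1443, 128, 0, 144, 69, true, true, false, [(0, 2), (3, 10)], []⟩,
    ⟨1480, 128, 0, 144, 69, true, true, false, [(0, 2), (3, 10)], []⟩,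
    ⟨1509, 128, 0, 144, 69, true, true, false, [(0, 3), (3, 9)], []⟩,
    ⟨1559, 48, 0, 144, 69, true, true, false, [(0, 3), (3, 28)], []⟩,
    ⟨1590, 48, 0, 144, 69, true, true, false, [(0, 7), (3, 24)], []⟩,
    ⟨1656, 32, 0, 128, 60, true, true, false, [(0, 54), (3, 1)], []⟩,
    ⟨1878, 160, 0, 128, 60, true, true, false, [(0, 11)], []⟩]⟩] = true := by
  decide +kernel

theorem lo_238 : rowsOK false 238 250 1024 1024 0 512 0 [] 250 100 [
  ⟨100, 160, 10240, 12953, 512, [(133, 1854, 1478503, 4839303, 5328236)], []⟩,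
  ⟨161, 169, 12993, 13312, 482, [(138, 438, 1478503, 5334729, 5385273)], [⟨1626, 128, 0, 144, 69, true, true, false, [(0, 4), (3, 7)], []⟩]⟩,
  ⟨170, 178, 13351, 13662, 452, [(138, 438, 1478503, 5391423, 5439366)], [⟨1513, 160, 0, 144, 69, true, true, false, [(0, 2), (3, 7)], []⟩,
    ⟨1668, 160, 0, 144, 69, true, true, false, [(0, 8), (3, 1)], []⟩]⟩,
  ⟨179, 195, 13700, 14300, 401, [(138, 438, 1478503, 5445207, 5534502)], [⟨1390, 128, 0, 160, 78, true, true, false, [(0, 1), (3, 9)], []⟩,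
    ⟨1534, 96, 0, 144, 69, true, true, false, [(0, 2), (3, 14)], []⟩,
    ⟨1746, 128, 0, 144, 69, true, true, false, [(0, 6), (3, 6)], []⟩]⟩,
  ⟨196, 249, 14336, 16159, 281, [(139, 154, 1478503, 5539838, 5789668)], [⟨976, 48, 528, 144, 69, false, true, false, [(0, 1), (3, 34)], []⟩,
    ⟨1025, 48, 528, 144, 69, false, true, false, [(0, 1), (3, 34)], []⟩,
    ⟨1046, 96, 0, 160, 78, true, true, false, [(0, 1), (3, 14)], []⟩,
    ⟨1069, 96, 0, 160, 78, true, true, false, [(0, 1), (3, 14)], []⟩,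
    ⟨1095, 96, 0, 160, 78, true, true, false, [(0, 1), (3, 14)], []⟩,
    ⟨1124, 96, 0, 160, 78, true, true, false, [(0, 1), (3, 14)], []⟩,
    ⟨1153, 96, 0, 160, 78, true, true, false, [(0, 1), (3, 14)], []⟩,
    ⟨1182, 96, 0, 160, 78, true, true, false, [(0, 1), (3, 14)], []⟩,
    ⟨1207, 96, 0, 160, 78, true, true, false, [(0, 1), (3, 14)], []⟩,
    ⟨1231, 96, 0, 160, 78, true, true, false, [(0, 1), (3, 14)], []⟩,
    ⟨1282, 48, 0, 144, 69, true, true, false, [(0, 1), (3, 34)], []⟩,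
    ⟨1339, 48, 0, 144, 69, true, true, false, [(0, 1), (3, 34)], []⟩,
    ⟨1403, 48, 0, 144, 69, true, true, false, [(0, 1), (3, 34)], []⟩,
    ⟨1467, 48, 0, 144, 69, true, true, false, [(0, 2), (3, 33)], []⟩,
    ⟨1531, 48, 0, 144, 69, true, true, false, [(0, 2), (3, 33)], []⟩,
    ⟨1581, 48, 0, 144, 69, true, true, false, [(0, 3), (3, 32)], []⟩,
    ⟨1620, 48, 0, 144, 69, true, true, false, [(0, 4), (3, 31)], []⟩,
    ⟨1644, 48, 0, 144, 69, true, true, false, [(0, 6), (3, 29)], []⟩,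
    ⟨1660, 48, 0, 144, 69, true, true, false, [(0, 18), (3, 17)], []⟩,
    ⟨1680, 48, 0, 144, 69, true, true, false, [(0, 35)], []⟩,
    ⟨1705, 48, 0, 144, 69, true, true, false, [(0, 35)], []⟩,
    ⟨1973, 48, 0, 128, 60, true, true, false, [(0, 41)], []⟩]⟩] = true := by
  decide +kernel

theorem lo_250 : rowsOK false 250 262 1024 1024 0 512 0 [] 250 100 [
  ⟨100, 130, 10240, 11676, 512, [(102, 13332, 1429342, 4839303, 5112013)], []⟩,
  ⟨131, 133, 11720, 11810, 512, [(118, 9006, 1429342, 5119987, 5135755)], []⟩,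
  ⟨134, 136, 11853, 11942, 512, [(140, 2799, 1429342, 5143551, 5158972)], []⟩,
  ⟨137, 149, 11985, 12500, 460, [(147, 764, 1429342, 5166598, 5254030)], [⟨1403, 128, 0, 160, 78, true, true, false, [(0, 3), (3, 7)], []⟩,
    ⟨1489, 128, 0, 160, 78, true, true, false, [(0, 5), (3, 5)], []⟩,
    ⟨1600, 160, 0, 160, 78, true, true, false, [(0, 8)], []⟩]⟩,
  ⟨150, 163, 12541, 13074, 410, [(148, 472, 1429342, 5260997, 5347595)], [⟨1337, 96, 0, 160, 78, true, true, false, [(0, 2), (3, 12)], []⟩,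
    ⟨1445, 96, 0, 160, 78, true, true, false, [(0, 2), (3, 12)], []⟩,
    ⟨1540, 128, 0, 144, 69, true, true, false, [(0, 4), (3, 8)], []⟩,
    ⟨1673, 160, 0, 144, 69, true, true, false, [(0, 10)], []⟩]⟩,
  ⟨164, 178, 13113, 13662, 364, [(149, 178, 1429342, 5353970, 5439366)], [⟨1266, 128, 0, 160, 78, true, true, false, [(0, 1), (3, 10)], []⟩,
    ⟨1410, 128, 0, 160, 78, true, true, false, [(0, 2), (3, 9)], []⟩,
    ⟨1523, 128, 0, 160, 78, true, true, false, [(0, 2), (3, 9)], []⟩,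
    ⟨1748, 160, 0, 144, 69, true, true, false, [(0, 5), (3, 5)], []⟩]⟩,
  ⟨179, 195, 13700, 14300, 319, [(149, 178, 1429342, 5445207, 5534502)], [⟨1153, 160, 0, 160, 78, true, true, false, [(0, 1), (3, 8)], []⟩,
    ⟨1293, 160, 0, 160, 78, true, true, false, [(0, 1), (3, 8)], []⟩,
    ⟨1433, 160, 0, 160, 78, true, true, false, [(0, 1), (3, 8)], []⟩,
    ⟨1590, 128, 0, 144, 69, true, true, false, [(0, 2), (3, 11)], []⟩,
    ⟨1830, 128, 0, 144, 69, true, true, false, [(0, 5), (3, 8)], []⟩]⟩,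
  ⟨196, 249, 14336, 16159, 211, [(149, 178, 1429342, 5539838, 5789668)], [⟨810, 160, 800, 52, 145, false, false, false, [(0, 1), (3, 20)], []⟩,
    ⟨888, 160, 640, 144, 69, false, true, false, [(0, 1), (3, 11)], []⟩,
    ⟨956, 160, 640, 144, 69, false, true, false, [(0, 1), (3, 11)], []⟩,
    ⟨1009, 160, 640, 144, 69, false, true, false, [(0, 1), (3, 11)], []⟩,
    ⟨1050, 160, 640, 144, 69, false, true, false, [(0, 1), (3, 11)], []⟩,
    ⟨1078, 160, 640, 144, 69, false, true, false, [(0, 1), (3, 11)], []⟩,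
    ⟨1132, 96, 0, 160, 78, true, true, false, [(0, 1), (3, 16)], []⟩,
    ⟨1193, 96, 0, 160, 78, true, true, false, [(0, 1), (3, 16)], []⟩,
    ⟨1261, 96, 0, 160, 78, true, true, false, [(0, 1), (3, 16)], []⟩,
    ⟨1329, 96, 0, 160, 78, true, true, false, [(0, 1), (3, 16)], []⟩,
    ⟨1382, 96, 0, 160, 78, true, true, false, [(0, 1), (3, 16)], []⟩,
    ⟨1423, 96, 0, 160, 78, true, true, false, [(0, 1), (3, 16)], []⟩,
    ⟨1493, 48, 0, 144, 69, true, true, false, [(0, 2), (3, 37)], []⟩,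
    ⟨1563, 48, 0, 144, 69, true, true, false, [(0, 2), (3, 37)], []⟩,
    ⟨1631, 48, 0, 144, 69, true, true, false, [(0, 2), (3, 37)], []⟩,
    ⟨1684, 48, 0, 144, 69, true, true, false, [(0, 3), (3, 36)], []⟩,
    ⟨1725, 48, 0, 144, 69, true, true, false, [(0, 5), (3, 34)], []⟩,
    ⟨1761, 48, 0, 144, 69, true, true, false, [(0, 24), (3, 15)], []⟩,
    ⟨1776, 160, 0, 144, 69, true, true, false, [(0, 12)], []⟩,
    ⟨1801, 160, 0, 144, 69, true, true, false, [(0, 12)], []⟩,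
    ⟨2068, 160, 0, 144, 69, true, true, false, [(0, 12)], []⟩]⟩] = true := by
  decide +kernel

theorem lo_262 : rowsOK false 262 274 1024 1024 0 512 0 [] 250 100 [
  ⟨100, 113, 10240, 10886, 512, [(115, 13103, 1382383, 4839303, 4966262)], []⟩,
  ⟨114, 116, 10933, 11029, 512, [(147, 3960, 1382383, 4975420, 4993499)], []⟩,
  ⟨117, 122, 11076, 11311, 483, [(156, 1283, 1382383, 5002424, 5045939)], [⟨1414, 128, 0, 160, 78, true, true, false, [(0, 4), (3, 6)], []⟩,
    ⟨1514, 160, 0, 160, 78, true, true, false, [(0, 8)], []⟩]⟩,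
  ⟨123, 125, 11356, 11449, 469, [(157, 983, 1382383, 5054430, 5071207)], [⟨1506, 160, 0, 160, 78, true, true, false, [(0, 3), (3, 5)], []⟩,
    ⟨1532, 160, 0, 160, 78, true, true, false, [(0, 8)], []⟩]⟩,
  ⟨126, 137, 11494, 11986, 417, [(158, 683, 1382383, 5079496, 5166598)], [⟨1275, 96, 0, 176, 88, true, true, false, [(0, 2), (3, 10)], []⟩,
    ⟨1343, 96, 0, 160, 78, true, true, false, [(0, 2), (3, 12)], []⟩,
    ⟨1419, 96, 0, 160, 78, true, true, false, [(0, 3), (3, 11)], []⟩,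
    ⟨1504, 96, 0, 160, 78, true, true, false, [(0, 6), (3, 8)], []⟩,
    ⟨1604, 160, 0, 160, 78, true, true, false, [(0, 9)], []⟩]⟩,
  ⟨138, 150, 12029, 12542, 369, [(159, 381, 1382383, 5174169, 5260997)], [⟨1179, 128, 0, 160, 78, true, true, false, [(0, 1), (3, 10)], []⟩,
    ⟨1267, 128, 0, 160, 78, true, true, false, [(0, 1), (3, 10)], []⟩,
    ⟨1377, 128, 0, 160, 78, true, true, false, [(0, 2), (3, 9)], []⟩,
    ⟨1487, 128, 0, 160, 78, true, true, false, [(0, 3), (3, 8)], []⟩,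
    ⟨1678, 64, 0, 160, 78, true, true, false, [(0, 7), (3, 15)], []⟩]⟩,
  ⟨151, 164, 12583, 13114, 325, [(160, 79, 1382383, 5267918, 5353970)], [⟨1122, 128, 0, 176, 88, true, true, false, [(0, 1), (3, 9)], []⟩,
    ⟨1223, 128, 0, 176, 88, true, true, false, [(0, 1), (3, 9)], []⟩,
    ⟨1302, 128, 0, 176, 88, true, true, false, [(0, 1), (3, 9)], []⟩,
    ⟨1451, 64, 0, 160, 78, true, true, false, [(0, 2), (3, 21)], []⟩,
    ⟨1581, 64, 0, 160, 78, true, true, false, [(0, 3), (3, 20)], []⟩,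
    ⟨1755, 64, 0, 160, 78, true, true, false, [(0, 14), (3, 9)], []⟩]⟩,
  ⟨165, 179, 13153, 13701, 284, [(160, 79, 1382383, 5360305, 5445207)], [⟨1034, 128, 512, 160, 78, false, true, false, [(0, 1), (3, 11)], []⟩,
    ⟨1147, 128, 0, 160, 78, true, true, false, [(0, 1), (3, 11)], []⟩,
    ⟨1303, 128, 0, 160, 78, true, true, false, [(0, 1), (3, 11)], []⟩,
    ⟨1478, 128, 0, 160, 78, true, true, false, [(0, 2), (3, 10)], []⟩,
    ⟨1631, 128, 0, 160, 78, true, true, false, [(0, 2), (3, 10)], []⟩,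
    ⟨1834, 160, 0, 144, 69, true, true, false, [(0, 7), (3, 4)], []⟩]⟩,
  ⟨180, 196, 13738, 14336, 244, [(160, 79, 1382383, 5451017, 5539838)], [⟨965, 160, 480, 160, 78, false, true, false, [(0, 1), (3, 9)], []⟩,
    ⟨1109, 128, 0, 176, 88, true, true, false, [(0, 1), (3, 10)], []⟩,
    ⟨1253, 160, 0, 160, 78, true, true, false, [(0, 1), (3, 9)], []⟩,
    ⟨1433, 160, 0, 160, 78, true, true, false, [(0, 1), (3, 9)], []⟩,
    ⟨1606, 160, 0, 160, 78, true, true, false, [(0, 2), (3, 8)], []⟩,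
    ⟨1727, 160, 0, 160, 78, true, true, false, [(0, 3), (3, 7)], []⟩,
    ⟨1919, 160, 0, 144, 69, true, true, false, [(0, 10), (3, 2)], []⟩]⟩,
  ⟨197, 249, 14372, 16159, 150, [(160, 79, 1382383, 5545147, 5789668)], [⟨779, 160, 800, 52, 159, false, false, false, [(0, 1), (3, 21)], []⟩,
    ⟨912, 160, 640, 112, 89, false, true, false, [(0, 1), (3, 15)], []⟩,
    ⟨1028, 160, 640, 144, 69, false, true, false, [(0, 1), (3, 12)], []⟩,
    ⟨1119, 160, 640, 144, 69, false, true, false, [(0, 1), (3, 12)], []⟩,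
    ⟨1190, 160, 640, 144, 69, false, true, false, [(0, 1), (3, 12)], []⟩,
    ⟨1239, 160, 640, 144, 69, false, true, false, [(0, 1), (3, 12)], []⟩,
    ⟨1307, 96, 0, 160, 78, true, true, false, [(0, 1), (3, 18)], []⟩,
    ⟨1383, 96, 0, 160, 78, true, true, false, [(0, 1), (3, 18)], []⟩,
    ⟨1459, 96, 0, 160, 78, true, true, false, [(0, 1), (3, 18)], []⟩,
    ⟨1506, 160, 0, 144, 69, true, true, false, [(0, 1), (3, 12)], []⟩,
    ⟨1559, 160, 0, 144, 69, true, true, false, [(0, 2), (3, 11)], []⟩,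
    ⟨1618, 160, 0, 144, 69, true, true, false, [(0, 2), (3, 11)], []⟩,
    ⟨1677, 160, 0, 144, 69, true, true, false, [(0, 2), (3, 11)], []⟩,
    ⟨1734, 160, 0, 144, 69, true, true, false, [(0, 3), (3, 10)], []⟩,
    ⟨1784, 160, 0, 144, 69, true, true, false, [(0, 4), (3, 9)], []⟩,
    ⟨1823, 160, 0, 144, 69, true, true, false, [(0, 6), (3, 7)], []⟩,
    ⟨1877, 160, 0, 144, 69, true, true, false, [(0, 13)], []⟩,
    ⟨2162, 160, 0, 144, 69, true, true, false, [(0, 13)], []⟩]⟩] = true := by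
  decide +kernel

theorem lo_274 : rowsOK false 274 286 1024 1024 0 512 0 [] 250 100 [
  ⟨100, 102, 10240, 10342, 493, [(154, 5361, 1337437, 4839303, 4859864)], [⟨1397, 160, 0, 176, 88, true, true, false, [(0, 5), (3, 2)], []⟩,
    ⟨1445, 160, 0, 160, 78, true, true, false, [(0, 8)], []⟩]⟩,
  ⟨103, 108, 10392, 10642, 460, [(165, 2027, 1337437, 4869995, 4919233)], [⟨1319, 96, 0, 176, 88, true, true, false, [(0, 3), (3, 9)], []⟩,
    ⟨1374, 96, 0, 176, 88, true, true, false, [(0, 4), (3, 8)], []⟩,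
    ⟨1436, 96, 0, 160, 78, true, true, false, [(0, 14)], []⟩,
    ⟨1487, 128, 0, 160, 78, true, true, false, [(0, 11)], []⟩]⟩,
  ⟨109, 118, 10690, 11124, 410, [(167, 1413, 1337437, 4928809, 5011272)], [⟨1223, 48, 0, 176, 88, true, true, false, [(0, 2), (3, 23)], []⟩,
    ⟨1298, 48, 0, 176, 88, true, true, false, [(0, 2), (3, 23)], []⟩,
    ⟨1357, 48, 0, 176, 88, true, true, false, [(0, 3), (3, 22)], []⟩,
    ⟨1398, 48, 0, 176, 88, true, true, false, [(0, 4), (3, 21)], []⟩,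
    ⟨1476, 32, 0, 160, 78, true, true, false, [(0, 14), (3, 29)], []⟩,
    ⟨1554, 160, 0, 160, 78, true, true, false, [(0, 9)], []⟩]⟩,
  ⟨119, 124, 11170, 11403, 384, [(169, 799, 1337437, 5020047, 5062852)], [⟨1232, 96, 0, 176, 88, true, true, false, [(0, 1), (3, 12)], []⟩,
    ⟨1344, 96, 0, 176, 88, true, true, false, [(0, 2), (3, 11)], []⟩,
    ⟨1432, 128, 0, 160, 78, true, true, false, [(0, 3), (3, 8)], []⟩,
    ⟨1553, 128, 0, 160, 78, true, true, false, [(0, 6), (3, 5)], []⟩,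
    ⟨1593, 160, 0, 160, 78, true, true, false, [(0, 9)], []⟩]⟩,
  ⟨125, 131, 11448, 11721, 356, [(170, 490, 1337437, 5071207, 5119987)], [⟨1142, 128, 0, 176, 88, true, true, false, [(0, 1), (3, 9)], []⟩,
    ⟨1230, 128, 0, 176, 88, true, true, false, [(0, 1), (3, 9)], []⟩,
    ⟨1318, 128, 0, 176, 88, true, true, false, [(0, 2), (3, 8)], []⟩,
    ⟨1395, 128, 0, 176, 88, true, true, false, [(0, 2), (3, 8)], []⟩,
    ⟨1448, 128, 0, 176, 88, true, true, false, [(0, 3), (3, 7)], []⟩,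
    ⟨1559, 64, 0, 160, 78, true, true, false, [(0, 5), (3, 18)], []⟩,
    ⟨1637, 128, 0, 144, 69, true, true, false, [(0, 13)], []⟩]⟩,
  ⟨132, 143, 11764, 12246, 313, [(170, 490, 1337437, 5127901, 5211225)], [⟨1024, 64, 0, 176, 88, true, true, false, [(0, 1), (3, 20)], []⟩,
    ⟨1102, 64, 0, 176, 88, true, true, false, [(0, 1), (3, 20)], []⟩,
    ⟨1170, 96, 0, 176, 88, true, true, false, [(0, 1), (3, 13)], []⟩,
    ⟨1246, 96, 0, 176, 88, true, true, false, [(0, 1), (3, 13)], []⟩,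
    ⟨1322, 96, 0, 176, 88, true, true, false, [(0, 2), (3, 12)], []⟩,
    ⟨1398, 128, 0, 160, 78, true, true, false, [(0, 2), (3, 10)], []⟩,
    ⟨1483, 128, 0, 160, 78, true, true, false, [(0, 2), (3, 10)], []⟩,
    ⟨1565, 128, 0, 160, 78, true, true, false, [(0, 4), (3, 8)], []⟩,
    ⟨1711, 128, 0, 160, 78, true, true, false, [(0, 12)], []⟩]⟩,
  ⟨144, 156, 12288, 12790, 272, [(170, 490, 1337437, 5218481, 5301856)], [⟨928, 160, 480, 160, 78, false, true, false, [(0, 1), (3, 9)], []⟩,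
    ⟨990, 128, 0, 176, 88, true, true, false, [(0, 1), (3, 10)], []⟩,
    ⟨1076, 128, 0, 176, 88, true, true, false, [(0, 1), (3, 10)], []⟩,
    ⟨1173, 128, 0, 176, 88, true, true, false, [(0, 1), (3, 10)], []⟩,
    ⟨1282, 128, 0, 176, 88, true, true, false, [(0, 1), (3, 10)], []⟩,
    ⟨1387, 128, 0, 176, 88, true, true, false, [(0, 2), (3, 9)], []⟩,
    ⟨1479, 160, 0, 160, 78, true, true, false, [(0, 2), (3, 8)], []⟩,
    ⟨1571, 160, 0, 160, 78, true, true, false, [(0, 3), (3, 7)], []⟩,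
    ⟨1674, 160, 0, 160, 78, true, true, false, [(0, 5), (3, 5)], []⟩,
    ⟨1787, 160, 0, 160, 78, true, true, false, [(0, 10)], []⟩]⟩,
  ⟨157, 171, 12830, 13391, 232, [(170, 490, 1337437, 5308513, 5397537)], [⟨921, 128, 512, 160, 78, false, true, false, [(0, 1), (3, 12)], []⟩,
    ⟨1034, 128, 512, 160, 78, false, true, false, [(0, 1), (3, 12)], []⟩,
    ⟨1123, 160, 0, 176, 88, true, true, false, [(0, 1), (3, 8)], []⟩,
    ⟨1234, 160, 0, 176, 88, true, true, false, [(0, 1), (3, 8)], []⟩,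
    ⟨1345, 160, 0, 176, 88, true, true, false, [(0, 1), (3, 8)], []⟩,
    ⟨1498, 128, 0, 160, 78, true, true, false, [(0, 2), (3, 11)], []⟩,
    ⟨1651, 128, 0, 160, 78, true, true, false, [(0, 2), (3, 11)], []⟩,
    ⟨1871, 128, 0, 160, 78, true, true, false, [(0, 6), (3, 7)], []⟩]⟩,
  ⟨172, 196, 13429, 14336, 177, [(170, 490, 1337437, 5403616, 5539838)], [⟨814, 160, 800, 48, 169, false, false, false, [(0, 1), (3, 20)], []⟩,
    ⟨949, 128, 640, 144, 69, false, true, false, [(0, 1), (3, 15)], []⟩,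
    ⟨1055, 128, 640, 144, 69, false, true, false, [(0, 1), (3, 15)], []⟩,
    ⟨1138, 160, 0, 176, 88, true, true, false, [(0, 1), (3, 9)], []⟩,
    ⟨1242, 160, 0, 176, 88, true, true, false, [(0, 1), (3, 9)], []⟩,
    ⟨1342, 160, 0, 176, 88, true, true, false, [(0, 1), (3, 9)], []⟩,
    ⟨1467, 128, 0, 160, 78, true, true, false, [(0, 1), (3, 13)], []⟩,
    ⟨1592, 128, 0, 160, 78, true, true, false, [(0, 2), (3, 12)], []⟩,
    ⟨1701, 128, 0, 160, 78, true, true, false, [(0, 2), (3, 12)], []⟩,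
    ⟨1777, 128, 0, 160, 78, true, true, false, [(0, 4), (3, 10)], []⟩,
    ⟨2003, 128, 0, 144, 69, true, true, false, [(0, 15), (3, 1)], []⟩]⟩,
  ⟨197, 249, 14372, 16159, 93, [(171, 181, 1337437, 5545147, 5789668)], [⟨749, 160, 800, 44, 173, false, false, false, [(0, 1), (3, 23)], []⟩,
    ⟨945, 160, 800, 56, 155, false, false, false, [(0, 1), (3, 22)], []⟩,
    ⟨1077, 160, 640, 160, 78, false, true, false, [(0, 1), (3, 12)], []⟩,
    ⟨1169, 160, 640, 160, 78, false, true, false, [(0, 1), (3, 12)], []⟩,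
    ⟨1261, 128, 640, 144, 69, false, true, false, [(0, 1), (3, 17)], []⟩,
    ⟨1364, 96, 0, 160, 78, true, true, false, [(0, 1), (3, 20)], []⟩,
    ⟨1480, 96, 0, 160, 78, true, true, false, [(0, 1), (3, 20)], []⟩,
    ⟨1561, 160, 0, 160, 78, true, true, false, [(0, 1), (3, 12)], []⟩,
    ⟨1632, 160, 0, 160, 78, true, true, false, [(0, 2), (3, 11)], []⟩,
    ⟨1712, 96, 0, 160, 78, true, true, false, [(0, 2), (3, 19)], []⟩,
    ⟨1775, 128, 0, 144, 69, true, true, false, [(0, 2), (3, 16)], []⟩,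
    ⟨1830, 128, 0, 144, 69, true, true, false, [(0, 3), (3, 15)], []⟩,
    ⟨1873, 128, 0, 144, 69, true, true, false, [(0, 4), (3, 14)], []⟩,
    ⟨1963, 48, 0, 144, 69, true, true, false, [(0, 11), (3, 36)], []⟩,
    ⟨2257, 128, 0, 144, 69, true, true, false, [(0, 18)], []⟩]⟩] = true := by
  decide +kernel

theorem lo_286 : rowsOK false 286 290 1024 1024 0 512 0 [] 250 100 [
  ⟨100, 113, 10240, 10886, 405, [(172, 1095, 1322873, 4839303, 4966262)], [⟨1259, 64, 0, 176, 88, true, true, false, [(0, 2), (3, 17)], []⟩,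
    ⟨1371, 64, 0, 176, 88, true, true, false, [(0, 2), (3, 17)], []⟩,
    ⟨1542, 64, 0, 176, 88, true, true, false, [(0, 6), (3, 13)], []⟩]⟩,
  ⟨114, 124, 10933, 11403, 356, [(173, 785, 1322873, 4975420, 5062852)], [⟨1237, 128, 0, 176, 88, true, true, false, [(0, 1), (3, 9)], []⟩,
    ⟨1391, 160, 0, 176, 88, true, true, false, [(0, 2), (3, 6)], []⟩,
    ⟨1539, 128, 0, 176, 88, true, true, false, [(0, 3), (3, 7)], []⟩,
    ⟨1615, 160, 0, 176, 88, true, true, false, [(0, 8)], []⟩]⟩,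
  ⟨125, 136, 11448, 11942, 311, [(174, 474, 1322873, 5071207, 5158972)], [⟨1147, 128, 0, 192, 98, true, true, false, [(0, 1), (3, 8)], []⟩,
    ⟨1285, 128, 0, 192, 98, true, true, false, [(0, 1), (3, 8)], []⟩,
    ⟨1440, 128, 0, 160, 78, true, true, false, [(0, 2), (3, 10)], []⟩,
    ⟨1692, 128, 0, 160, 78, true, true, false, [(0, 3), (3, 9)], []⟩]⟩,
  ⟨137, 156, 11985, 12790, 249, [(175, 163, 1322873, 5166598, 5301856)], [⟨957, 160, 480, 176, 88, false, true, false, [(0, 1), (3, 8)], []⟩,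
    ⟨1101, 160, 0, 176, 88, true, true, false, [(0, 1), (3, 8)], []⟩,
    ⟨1281, 160, 0, 176, 88, true, true, false, [(0, 1), (3, 8)], []⟩,
    ⟨1461, 160, 0, 176, 88, true, true, false, [(0, 2), (3, 7)], []⟩,
    ⟨1586, 160, 0, 176, 88, true, true, false, [(0, 2), (3, 7)], []⟩,
    ⟨1812, 128, 0, 160, 78, true, true, false, [(0, 5), (3, 8)], []⟩]⟩,
  ⟨157, 188, 12830, 14041, 173, [(175, 163, 1322873, 5308513, 5496368)], [⟨822, 128, 640, 160, 78, false, true, false, [(0, 1), (3, 13)], []⟩,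
    ⟨1012, 128, 512, 160, 78, false, true, false, [(0, 1), (3, 13)], []⟩,
    ⟨1161, 128, 512, 160, 78, false, true, false, [(0, 1), (3, 13)], []⟩,
    ⟨1291, 160, 0, 176, 88, true, true, false, [(0, 1), (3, 9)], []⟩,
    ⟨1421, 160, 0, 176, 88, true, true, false, [(0, 1), (3, 9)], []⟩,
    ⟨1600, 128, 0, 160, 78, true, true, false, [(0, 2), (3, 12)], []⟩,
    ⟨1757, 128, 0, 160, 78, true, true, false, [(0, 3), (3, 11)], []⟩,
    ⟨1989, 128, 0, 160, 78, true, true, false, [(0, 11), (3, 3)], []⟩]⟩,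
  ⟨189, 249, 14077, 16159, 75, [(175, 163, 1322873, 5501901, 5789668)], [⟨723, 160, 800, 48, 182, false, false, false, [(0, 1), (3, 23)], []⟩,
    ⟨990, 160, 800, 88, 131, false, false, false, [(0, 1), (3, 19)], []⟩,
    ⟨1176, 160, 640, 160, 78, false, true, false, [(0, 1), (3, 12)], []⟩,
    ⟨1362, 128, 640, 144, 69, false, true, false, [(0, 1), (3, 17)], []⟩,
    ⟨1508, 160, 0, 160, 78, true, true, false, [(0, 1), (3, 12)], []⟩,
    ⟨1672, 160, 0, 160, 78, true, true, false, [(0, 2), (3, 11)], []⟩,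
    ⟨1801, 160, 0, 160, 78, true, true, false, [(0, 2), (3, 11)], []⟩,
    ⟨1930, 128, 0, 144, 69, true, true, false, [(0, 3), (3, 15)], []⟩,
    ⟨2289, 160, 0, 144, 69, true, true, false, [(0, 11), (3, 4)], []⟩]⟩] = true := by
  decide +kernel

theorem lp_190 : rowsOK false 190 202 1024 1024 512 5519 0 [] 250 100 [
  ⟨100, 160, 10240, 12953, 5519, [(0, 21196, 1702052, 4839303, 5328236)], []⟩,
  ⟨161, 249, 12993, 16159, 678, [(101, 738, 1702052, 5334729, 5789668)], [⟨1740, 160, 0, 112, 52, true, true, false, [(0, 9)], []⟩,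
    ⟨2107, 160, 0, 88, 40, true, true, false, [(0, 12)], []⟩,
    ⟨3973, 160, 0, 40, 18, true, true, false, [(0, 16)], []⟩,
    ⟨10621, 160, 0, 0, 0, true, false, false, [(0, 20)], []⟩,
    ⟨17181, 160, 0, 0, 0, true, false, false, [(0, 20)], []⟩]⟩] = true := by
  decide +kernel

theorem lp_202 : rowsOK false 202 214 1024 1024 512 5191 0 [] 250 100 [
  ⟨100, 160, 10240, 12953, 5191, [(0, 23899, 1641541, 4839303, 5328236)], []⟩,
  ⟨161, 233, 12993, 15631, 599, [(110, 583, 1641541, 5334729, 5720316)], [⟨1561, 160, 0, 120, 56, true, true, false, [(0, 9)], []⟩,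
    ⟨1703, 160, 0, 112, 52, true, true, false, [(0, 10)], []⟩,
    ⟨1971, 160, 0, 104, 48, true, true, false, [(0, 11)], []⟩,
    ⟨3108, 128, 0, 64, 28, true, true, false, [(0, 18)], []⟩,
    ⟨7960, 160, 0, 0, 0, true, false, false, [(0, 21)], []⟩,
    ⟨16560, 160, 0, 0, 0, true, false, false, [(0, 21)], []⟩]⟩,
  ⟨234, 249, 15664, 16159, 555, [(111, 329, 1641541, 5724787, 5789668)], [⟨2330, 160, 0, 104, 48, true, true, false, [(0, 11)], []⟩,
    ⟨5546, 160, 0, 12, 6, true, true, false, [(0, 20)], []⟩,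
    ⟨16400, 160, 0, 0, 0, true, false, false, [(0, 22)], []⟩,
    ⟨17120, 160, 0, 0, 0, true, false, true, [(0, 17)], [(0, 5)]⟩]⟩] = true := by
  decide +kernel

theorem lp_214 : rowsOK false 214 226 1024 1024 512 4900 0 [] 250 100 [
  ⟨100, 145, 10240, 12331, 4900, [(0, 26782, 1584332, 4839303, 5225688)], []⟩,
  ⟨146, 189, 12373, 14078, 624, [(115, 1567, 1584332, 5232846, 5501901)], [⟨1865, 160, 0, 112, 52, true, true, false, [(0, 10)], []⟩,
    ⟨2766, 160, 0, 80, 36, true, true, false, [(0, 13)], []⟩,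
    ⟨6611, 160, 0, 0, 0, true, false, false, [(0, 20)], []⟩,
    ⟨14868, 160, 0, 0, 0, true, false, false, [(0, 20)], []⟩]⟩,
  ⟨190, 216, 14114, 15050, 536, [(120, 248, 1584332, 5507405, 5641229)], [⟨1870, 160, 0, 120, 56, true, true, false, [(0, 10)], []⟩,
    ⟨2793, 160, 0, 88, 40, true, true, false, [(0, 13)], []⟩,
    ⟨6732, 160, 0, 0, 0, true, false, false, [(0, 21)], []⟩,
    ⟨15895, 160, 0, 0, 0, true, false, false, [(0, 21)], []⟩]⟩,
  ⟨217, 249, 15084, 16159, 512, [], [⟨1752, 160, 0, 128, 60, true, true, false, [(0, 10)], []⟩,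
    ⟨2200, 160, 0, 112, 52, true, true, false, [(0, 12)], []⟩,
    ⟨4286, 160, 0, 44, 19, true, true, false, [(0, 18)], []⟩,
    ⟨11718, 160, 0, 0, 0, true, false, false, [(0, 23)], []⟩,
    ⟨17066, 160, 0, 0, 0, true, false, false, [(0, 23)], []⟩]⟩] = true := by
  decide +kernel

theorem lp_226 : rowsOK false 226 238 1024 1024 512 4640 0 [] 250 100 [
  ⟨100, 130, 10240, 11676, 4640, [(0, 29852, 1530083, 4839303, 5112013)], []⟩,
  ⟨131, 170, 11720, 13352, 582, [(126, 1099, 1530083, 5119987, 5391423)], [⟨1646, 160, 0, 128, 60, true, true, false, [(0, 9)], []⟩,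
    ⟨2011, 160, 0, 104, 48, true, true, false, [(0, 11)], []⟩,
    ⟨3402, 160, 0, 56, 25, true, true, false, [(0, 15)], []⟩,
    ⟨8749, 160, 0, 0, 0, true, false, false, [(0, 20)], []⟩,
    ⟨14062, 160, 0, 0, 0, true, false, false, [(0, 20)], []⟩]⟩,
  ⟨171, 205, 13390, 14662, 512, [], [⟨1507, 128, 0, 144, 69, true, true, false, [(0, 11)], []⟩,
    ⟨1613, 160, 0, 128, 60, true, true, false, [(0, 10)], []⟩,
    ⟨1914, 160, 0, 128, 60, true, true, false, [(0, 10)], []⟩,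
    ⟨2678, 160, 0, 96, 44, true, true, false, [(0, 13)], []⟩,
    ⟨6423, 160, 0, 0, 0, true, false, false, [(0, 22)], []⟩,
    ⟨15442, 160, 0, 0, 0, true, false, false, [(0, 22)], []⟩]⟩,
  ⟨206, 249, 14697, 16159, 512, [], [⟨1744, 160, 0, 128, 60, true, true, false, [(0, 11)], []⟩,
    ⟨2023, 160, 0, 120, 56, true, true, false, [(0, 12)], []⟩,
    ⟨2890, 160, 0, 88, 40, true, true, false, [(0, 15)], []⟩,
    ⟨6590, 160, 0, 0, 0, true, false, false, [(0, 24)], []⟩,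
    ⟨17019, 160, 0, 0, 0, true, false, false, [(0, 24)], []⟩]⟩] = true := by
  decide +kernel

theorem lp_238 : rowsOK false 238 250 1024 1024 512 4406 0 [] 250 100 [
  ⟨100, 120, 10240, 11218, 4406, [(0, 33113, 1478503, 4839303, 5028749)], []⟩,
  ⟨121, 145, 11264, 12331, 578, [(134, 1572, 1478503, 5037379, 5225688)], [⟨1670, 128, 0, 144, 69, true, true, false, [(0, 10)], []⟩,
    ⟨2216, 160, 0, 104, 48, true, true, false, [(0, 11)], []⟩,
    ⟨4893, 160, 0, 12, 6, true, true, false, [(0, 18)], []⟩,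
    ⟨12954, 160, 0, 0, 0, true, false, false, [(0, 19)], []⟩]⟩,
  ⟨146, 175, 12373, 13547, 512, [], [⟨1499, 64, 0, 144, 69, true, true, false, [(0, 22)], []⟩,
    ⟨1605, 160, 0, 144, 69, true, true, false, [(0, 9)], []⟩,
    ⟨1846, 128, 0, 128, 60, true, true, false, [(0, 13)], []⟩,
    ⟨2527, 160, 0, 96, 44, true, true, false, [(0, 13)], []⟩,
    ⟨5866, 160, 0, 0, 0, true, false, false, [(0, 21)], []⟩,
    ⟨14231, 160, 0, 0, 0, true, false, false, [(0, 21)], []⟩]⟩,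
  ⟨176, 211, 13584, 14875, 512, [], [⟨1633, 64, 0, 144, 69, true, true, false, [(0, 25)], []⟩,
    ⟨1807, 128, 0, 128, 60, true, true, false, [(0, 14)], []⟩,
    ⟨2201, 160, 0, 120, 56, true, true, false, [(0, 12)], []⟩,
    ⟨3869, 160, 0, 52, 23, true, true, false, [(0, 18)], []⟩,
    ⟨10281, 160, 0, 0, 0, true, false, false, [(0, 23)], []⟩,
    ⟨15626, 160, 0, 0, 0, true, false, false, [(0, 23)], []⟩]⟩,
  ⟨212, 249, 14909, 16159, 512, [], [⟨1787, 160, 0, 144, 69, true, true, false, [(0, 11)], []⟩,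
    ⟨2073, 160, 0, 120, 56, true, true, false, [(0, 13)], []⟩,
    ⟨2962, 160, 0, 88, 40, true, true, false, [(0, 16)], []⟩,
    ⟨6756, 160, 0, 0, 0, true, false, false, [(0, 25)], []⟩,
    ⟨16975, 160, 0, 0, 0, true, false, false, [(0, 25)], []⟩]⟩] = true := by
  decide +kernel

theorem lp_250 : rowsOK false 250 262 1024 1024 512 4195 0 [] 250 100 [
  ⟨100, 120, 10240, 11218, 596, [(122, 7900, 1429342, 4839303, 5028749)], [⟨1631, 96, 0, 144, 69, true, true, false, [(0, 14)], []⟩,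
    ⟨2079, 160, 0, 120, 56, true, true, false, [(0, 10)], []⟩,
    ⟨4355, 160, 0, 44, 19, true, true, false, [(0, 15)], []⟩,
    ⟨11759, 160, 0, 0, 0, true, false, false, [(0, 18)], []⟩]⟩,
  ⟨121, 131, 11264, 11721, 538, [(143, 1931, 1429342, 5037379, 5119987)], [⟨1637, 128, 0, 144, 69, true, true, false, [(0, 11)], []⟩,
    ⟨2128, 160, 0, 128, 60, true, true, false, [(0, 10)], []⟩,
    ⟨4621, 160, 0, 40, 18, true, true, false, [(0, 16)], []⟩,
    ⟨12286, 160, 0, 0, 0, true, false, false, [(0, 19)], []⟩]⟩,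
  ⟨132, 150, 11764, 12542, 512, [], [⟨1491, 128, 0, 160, 78, true, true, false, [(0, 10)], []⟩,
    ⟨1665, 64, 0, 144, 69, true, true, false, [(0, 23)], []⟩,
    ⟨2108, 160, 0, 120, 56, true, true, false, [(0, 11)], []⟩,
    ⟨3795, 160, 0, 56, 25, true, true, false, [(0, 16)], []⟩,
    ⟨10280, 160, 0, 0, 0, true, false, false, [(0, 21)], []⟩,
    ⟨13147, 160, 0, 0, 0, true, false, false, [(0, 21)], []⟩]⟩,
  ⟨151, 181, 12583, 13777, 512, [], [⟨1585, 160, 0, 144, 69, true, true, false, [(0, 10)], []⟩,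
    ⟨1712, 160, 0, 144, 69, true, true, false, [(0, 10)], []⟩,
    ⟨1976, 160, 0, 120, 56, true, true, false, [(0, 12)], []⟩,
    ⟨2796, 160, 0, 96, 44, true, true, false, [(0, 14)], []⟩,
    ⟨6295, 160, 0, 0, 0, true, false, false, [(0, 23)], []⟩,
    ⟨14441, 160, 0, 0, 0, true, false, false, [(0, 23)], []⟩]⟩,
  ⟨182, 218, 13814, 15120, 512, [], [⟨1775, 160, 0, 144, 69, true, true, false, [(0, 11)], []⟩,
    ⟨2028, 96, 0, 128, 60, true, true, false, [(0, 21)], []⟩,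
    ⟨2671, 160, 0, 104, 48, true, true, false, [(0, 15)], []⟩,
    ⟨5823, 160, 0, 4, 2, true, true, false, [(0, 24)], []⟩,
    ⟨15849, 160, 0, 0, 0, true, false, false, [(0, 25)], []⟩]⟩,
  ⟨219, 249, 15153, 16159, 512, [], [⟨2139, 128, 0, 128, 60, true, true, false, [(0, 17)], []⟩,
    ⟨3040, 160, 0, 80, 36, true, true, false, [(0, 18)], []⟩,
    ⟨6885, 160, 0, 0, 0, true, false, false, [(0, 26)], []⟩,
    ⟨16938, 160, 0, 0, 0, true, false, false, [(0, 26)], []⟩]⟩] = true := by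
  decide +kernel

theorem lp_262 : rowsOK false 262 274 1024 1024 512 4003 0 [] 250 100 [
  ⟨100, 113, 10240, 10886, 529, [(145, 4549, 1382383, 4839303, 4966262)], [⟨1423, 64, 0, 160, 78, true, true, false, [(0, 19)], []⟩,
    ⟨1529, 128, 0, 144, 69, true, true, false, [(0, 11)], []⟩,
    ⟨1770, 160, 0, 144, 69, true, true, false, [(0, 9)], []⟩,
    ⟨2519, 160, 0, 96, 44, true, true, false, [(0, 12)], []⟩,
    ⟨6191, 160, 0, 0, 0, true, false, false, [(0, 19)], []⟩,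
    ⟨11387, 160, 0, 0, 0, true, false, false, [(0, 19)], []⟩]⟩,
  ⟨114, 129, 10933, 11631, 512, [], [⟨1468, 48, 0, 160, 78, true, true, false, [(0, 27)], []⟩,
    ⟨1547, 96, 0, 160, 78, true, true, false, [(0, 14)], []⟩,
    ⟨1712, 128, 0, 144, 69, true, true, false, [(0, 12)], []⟩,
    ⟨2226, 160, 0, 120, 56, true, true, false, [(0, 11)], []⟩,
    ⟨4836, 160, 0, 36, 16, true, true, false, [(0, 17)], []⟩,
    ⟨12167, 160, 0, 0, 0, true, false, false, [(0, 20)], []⟩]⟩,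
  ⟨130, 148, 11675, 12458, 512, [], [⟨1563, 128, 0, 160, 78, true, true, false, [(0, 11)], []⟩,
    ⟨1723, 160, 0, 144, 69, true, true, false, [(0, 10)], []⟩,
    ⟨2131, 128, 0, 128, 60, true, true, false, [(0, 14)], []⟩,
    ⟨3685, 160, 0, 64, 28, true, true, false, [(0, 16)], []⟩,
    ⟨9659, 160, 0, 0, 0, true, false, false, [(0, 21)], []⟩,
    ⟨13032, 160, 0, 0, 0, true, false, false, [(0, 21)], []⟩]⟩,
  ⟨149, 169, 12499, 13312, 512, [], [⟨1699, 96, 0, 144, 69, true, true, false, [(0, 18)], []⟩,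
    ⟨1928, 160, 0, 128, 60, true, true, false, [(0, 12)], []⟩,
    ⟨2640, 160, 0, 104, 48, true, true, false, [(0, 14)], []⟩,
    ⟨6130, 160, 0, 0, 0, true, false, false, [(0, 23)], []⟩,
    ⟨13925, 160, 0, 0, 0, true, false, false, [(0, 23)], []⟩]⟩,
  ⟨170, 204, 13351, 14626, 512, [], [⟨1830, 48, 0, 144, 69, true, true, false, [(0, 39)], []⟩,
    ⟨2109, 96, 0, 128, 60, true, true, false, [(0, 22)], []⟩,
    ⟨2897, 160, 0, 96, 44, true, true, false, [(0, 16)], []⟩,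
    ⟨6760, 160, 0, 0, 0, true, false, false, [(0, 25)], []⟩,
    ⟨15299, 160, 0, 0, 0, true, false, false, [(0, 25)], []⟩]⟩,
  ⟨205, 249, 14661, 16159, 512, [], [⟨2003, 160, 0, 144, 69, true, true, false, [(0, 13)], []⟩,
    ⟨2439, 128, 0, 120, 56, true, true, false, [(0, 19)], []⟩,
    ⟨4100, 160, 0, 52, 23, true, true, false, [(0, 22)], []⟩,
    ⟨10485, 160, 0, 0, 0, true, false, false, [(0, 28)], []⟩,
    ⟨16903, 160, 0, 0, 0, true, false, false, [(0, 28)], []⟩]⟩] = true := by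
  decide +kernel

theorem lp_274 : rowsOK false 274 286 1024 1024 512 3827 0 [] 250 100 [
  ⟨100, 109, 10240, 10691, 512, [], [⟨1394, 96, 0, 176, 88, true, true, false, [(0, 12)], []⟩,
    ⟨1445, 64, 0, 160, 78, true, true, false, [(0, 21)], []⟩,
    ⟨1562, 96, 0, 160, 78, true, true, false, [(0, 14)], []⟩,
    ⟨1827, 128, 0, 144, 69, true, true, false, [(0, 12)], []⟩,
    ⟨2651, 160, 0, 104, 48, true, true, false, [(0, 12)], []⟩,
    ⟨6167, 160, 0, 0, 0, true, false, false, [(0, 19)], []⟩,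
    ⟨11160, 160, 0, 0, 0, true, false, false, [(0, 19)], []⟩]⟩,
  ⟨110, 119, 10739, 11171, 512, [], [⟨1498, 128, 0, 160, 78, true, true, false, [(0, 11)], []⟩,
    ⟨1640, 128, 0, 160, 78, true, true, false, [(0, 11)], []⟩,
    ⟨1962, 160, 0, 144, 69, true, true, false, [(0, 10)], []⟩,
    ⟨2962, 160, 0, 96, 44, true, true, false, [(0, 13)], []⟩,
    ⟨7229, 160, 0, 0, 0, true, false, false, [(0, 20)], []⟩,
    ⟨11661, 160, 0, 0, 0, true, false, false, [(0, 20)], []⟩]⟩,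
  ⟨120, 136, 11217, 11942, 512, [], [⟨1578, 64, 0, 160, 78, true, true, false, [(0, 23)], []⟩,
    ⟨1726, 128, 0, 144, 69, true, true, false, [(0, 13)], []⟩,
    ⟨2033, 128, 0, 144, 69, true, true, false, [(0, 13)], []⟩,
    ⟨2986, 160, 0, 96, 44, true, true, false, [(0, 14)], []⟩,
    ⟨7053, 160, 0, 0, 0, true, false, false, [(0, 21)], []⟩,
    ⟨12466, 160, 0, 0, 0, true, false, false, [(0, 21)], []⟩]⟩,
  ⟨137, 156, 11985, 12790, 512, [], [⟨1673, 160, 0, 160, 78, true, true, false, [(0, 10)], []⟩,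
    ⟨1853, 128, 0, 144, 69, true, true, false, [(0, 14)], []⟩,
    ⟨2362, 160, 0, 120, 56, true, true, false, [(0, 13)], []⟩,
    ⟨4946, 160, 0, 32, 14, true, true, false, [(0, 20)], []⟩,
    ⟨13351, 160, 0, 0, 0, true, false, false, [(0, 23)], []⟩]⟩,
  ⟨157, 188, 12830, 14041, 512, [], [⟨1743, 96, 0, 160, 78, true, true, false, [(0, 18)], []⟩,
    ⟨1830, 64, 0, 144, 69, true, true, false, [(0, 31)], []⟩,
    ⟨2028, 128, 0, 128, 60, true, true, false, [(0, 17)], []⟩,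
    ⟨2644, 160, 0, 112, 52, true, true, false, [(0, 15)], []⟩,
    ⟨5664, 160, 0, 8, 4, true, true, false, [(0, 24)], []⟩,
    ⟨14657, 160, 0, 0, 0, true, false, false, [(0, 25)], []⟩]⟩,
  ⟨189, 249, 14077, 16159, 512, [], [⟨1904, 48, 0, 144, 69, true, true, false, [(0, 47)], []⟩,
    ⟨1960, 48, 0, 144, 69, true, true, false, [(0, 47)], []⟩,
    ⟨2055, 96, 0, 128, 60, true, true, false, [(0, 26)], []⟩,
    ⟨2298, 160, 0, 128, 60, true, true, false, [(0, 16)], []⟩,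
    ⟨3053, 160, 0, 96, 44, true, true, false, [(0, 19)], []⟩,
    ⟨6754, 160, 0, 0, 0, true, false, false, [(0, 29)], []⟩,
    ⟨16868, 160, 0, 0, 0, true, false, false, [(0, 29)], []⟩]⟩] = true := by
  decide +kernel

theorem lp_286 : rowsOK false 286 290 1024 1024 512 3667 0 [] 250 100 [
  ⟨100, 120, 10240, 11218, 512, [], [⟨1460, 96, 0, 160, 78, true, true, false, [(0, 15)], []⟩,
    ⟨1498, 160, 0, 160, 78, true, true, false, [(0, 9)], []⟩,
    ⟨1597, 160, 0, 160, 78, true, true, false, [(0, 9)], []⟩,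
    ⟨1850, 160, 0, 144, 69, true, true, false, [(0, 10)], []⟩,
    ⟨2421, 160, 0, 104, 48, true, true, false, [(0, 13)], []⟩,
    ⟨5221, 160, 0, 0, 0, true, false, false, [(0, 20)], []⟩,
    ⟨11377, 160, 0, 0, 0, true, false, false, [(0, 20)], []⟩]⟩,
  ⟨121, 145, 11264, 12331, 512, [], [⟨1659, 160, 0, 160, 78, true, true, false, [(0, 10)], []⟩,
    ⟨1879, 160, 0, 144, 69, true, true, false, [(0, 11)], []⟩,
    ⟨2438, 160, 0, 120, 56, true, true, false, [(0, 13)], []⟩,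
    ⟨5179, 160, 0, 12, 6, true, true, false, [(0, 21)], []⟩,
    ⟨12506, 160, 0, 0, 0, true, false, false, [(0, 22)], []⟩]⟩,
  ⟨146, 189, 12373, 14078, 512, [], [⟨1782, 128, 0, 160, 78, true, true, false, [(0, 14)], []⟩,
    ⟨1940, 96, 0, 144, 69, true, true, false, [(0, 21)], []⟩,
    ⟨2343, 160, 0, 128, 60, true, true, false, [(0, 14)], []⟩,
    ⟨3707, 160, 0, 60, 27, true, true, false, [(0, 20)], []⟩,
    ⟨8951, 160, 0, 0, 0, true, false, false, [(0, 25)], []⟩,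
    ⟨14278, 160, 0, 0, 0, true, false, false, [(0, 25)], []⟩]⟩,
  ⟨190, 249, 14114, 16159, 512, [], [⟨2187, 128, 0, 144, 69, true, true, false, [(0, 18)], []⟩,
    ⟨2739, 160, 0, 112, 52, true, true, false, [(0, 18)], []⟩,
    ⟨5892, 160, 0, 20, 9, true, true, false, [(0, 27)], []⟩,
    ⟨16388, 160, 0, 0, 0, true, false, false, [(0, 29)], []⟩]⟩] = true := by
  decide +kernel

end Pool.Agent.Lib.MP_af3a4a_an.P1.CHK.H58.G
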