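import Pool.Agent.Lib.MP_af3a4a_an.P1.CHK.H58.GX

/-!
# Rows for small R, part 2 (generated, helper58)
-/

set_option autoImplicit false

namespace Pool.Agent.Lib.MP_af3a4a_an.P1.CHK.H58.G

theorem lo_290 : rowsOK false 290 302 1024 1024 0 512 0 [] 250 100 [
  ⟨100, 102, 10240, 10342, 373, [(182, 1858, 1280358, 4839303, 4859864)], [⟨1126, 160, 0, 192, 98, true, true, false, [(0, 1), (3, 6)], []⟩,
    ⟨1196, 160, 0, 176, 88, true, true, false, [(0, 2), (3, 6)], []⟩,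
    ⟨1275, 160, 0, 176, 88, true, true, false, [(0, 2), (3, 6)], []⟩,
    ⟨1354, 160, 0, 176, 88, true, true, false, [(0, 2), (3, 6)], []⟩,
    ⟨1430, 160, 0, 176, 88, true, true, false, [(0, 4), (3, 4)], []⟩,
    ⟨1526, 160, 0, 176, 88, true, true, false, [(0, 8)], []⟩]⟩,
  ⟨103, 108, 10392, 10642, 344, [(184, 1228, 1280358, 4869995, 4919233)], [⟨1050, 96, 0, 192, 98, true, true, false, [(0, 1), (3, 11)], []⟩,
    ⟨1112, 96, 0, 192, 98, true, true, false, [(0, 1), (3, 11)], []⟩,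
    ⟨1172, 96, 0, 192, 98, true, true, false, [(0, 1), (3, 11)], []⟩,
    ⟨1225, 96, 0, 176, 88, true, true, false, [(0, 2), (3, 12)], []⟩,
    ⟨1284, 96, 0, 176, 88, true, true, false, [(0, 2), (3, 12)], []⟩,
    ⟨1343, 96, 0, 176, 88, true, true, false, [(0, 2), (3, 12)], []⟩,
    ⟨1402, 96, 0, 176, 88, true, true, false, [(0, 3), (3, 11)], []⟩,
    ⟨1448, 96, 0, 176, 88, true, true, false, [(0, 5), (3, 9)], []⟩,
    ⟨1500, 96, 0, 176, 88, true, true, false, [(0, 13), (3, 1)], []⟩,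
    ⟨1570, 128, 0, 160, 78, true, true, false, [(0, 12)], []⟩]⟩,
  ⟨109, 118, 10690, 11124, 301, [(185, 913, 1280358, 4928809, 5011272)], [⟨944, 48, 0, 192, 98, true, true, false, [(0, 1), (3, 24)], []⟩,
    ⟨1006, 48, 0, 192, 98, true, true, false, [(0, 1), (3, 24)], []⟩,
    ⟨1076, 48, 0, 192, 98, true, true, false, [(0, 1), (3, 24)], []⟩,
    ⟨1144, 48, 0, 192, 98, true, true, false, [(0, 1), (3, 24)], []⟩,
    ⟨1203, 48, 0, 192, 98, true, true, false, [(0, 1), (3, 24)], []⟩,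
    ⟨1284, 32, 0, 176, 88, true, true, false, [(0, 2), (3, 41)], []⟩,
    ⟨1311, 128, 0, 176, 88, true, true, false, [(0, 2), (3, 9)], []⟩,
    ⟨1338, 128, 0, 176, 88, true, true, false, [(0, 2), (3, 9)], []⟩,
    ⟨1365, 128, 0, 176, 88, true, true, false, [(0, 2), (3, 9)], []⟩,
    ⟨1392, 128, 0, 176, 88, true, true, false, [(0, 2), (3, 9)], []⟩,
    ⟨1416, 128, 0, 176, 88, true, true, false, [(0, 3), (3, 8)], []⟩,
    ⟨1437, 128, 0, 176, 88, true, true, false, [(0, 3), (3, 8)], []⟩,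
    ⟨1493, 32, 0, 176, 88, true, true, false, [(0, 5), (3, 38)], []⟩,
    ⟨1542, 32, 0, 176, 88, true, true, false, [(0, 35), (3, 8)], []⟩,
    ⟨1641, 128, 0, 176, 88, true, true, false, [(0, 11)], []⟩]⟩,
  ⟨119, 124, 11170, 11403, 278, [(185, 913, 1280358, 5020047, 5062852)], [⟨936, 96, 0, 192, 98, true, true, false, [(0, 1), (3, 12)], []⟩,
    ⟨1034, 96, 0, 192, 98, true, true, false, [(0, 1), (3, 12)], []⟩,
    ⟨1132, 96, 0, 192, 98, true, true, false, [(0, 1), (3, 12)], []⟩,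
    ⟨1230, 96, 0, 192, 98, true, true, false, [(0, 1), (3, 12)], []⟩,
    ⟨1328, 128, 0, 176, 88, true, true, false, [(0, 2), (3, 9)], []⟩,
    ⟨1426, 128, 0, 176, 88, true, true, false, [(0, 2), (3, 9)], []⟩,
    ⟨1512, 128, 0, 176, 88, true, true, false, [(0, 3), (3, 8)], []⟩,
    ⟨1682, 48, 0, 160, 78, true, true, false, [(0, 6), (3, 27)], []⟩]⟩,
  ⟨125, 136, 11448, 11942, 237, [(186, 596, 1280358, 5071207, 5158972)], [⟨820, 128, 512, 160, 78, false, true, false, [(0, 1), (3, 12)], []⟩,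
    ⟨881, 128, 512, 160, 78, false, true, false, [(0, 1), (3, 12)], []⟩,
    ⟨929, 128, 512, 160, 78, false, true, false, [(0, 1), (3, 12)], []⟩,
    ⟨995, 48, 0, 192, 98, true, true, false, [(0, 1), (3, 26)], []⟩,
    ⟨1069, 48, 0, 192, 98, true, true, false, [(0, 1), (3, 26)], []⟩,
    ⟨1143, 64, 0, 176, 88, true, true, false, [(0, 1), (3, 22)], []⟩,
    ⟨1236, 64, 0, 176, 88, true, true, false, [(0, 1), (3, 22)], []⟩,
    ⟨1340, 64, 0, 176, 88, true, true, false, [(0, 1), (3, 22)], []⟩,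
    ⟨1440, 64, 0, 176, 88, true, true, false, [(0, 2), (3, 21)], []⟩,
    ⟨1501, 128, 0, 160, 78, true, true, false, [(0, 2), (3, 11)], []⟩,
    ⟨1562, 128, 0, 160, 78, true, true, false, [(0, 3), (3, 10)], []⟩,
    ⟨1630, 128, 0, 160, 78, true, true, false, [(0, 6), (3, 7)], []⟩,
    ⟨1761, 128, 0, 160, 78, true, true, false, [(0, 13)], []⟩]⟩,
  ⟨137, 149, 11985, 12500, 200, [(187, 279, 1280358, 5166598, 5254030)], [⟨785, 160, 640, 80, 149, false, false, false, [(0, 1), (3, 16)], []⟩,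
    ⟨868, 160, 640, 160, 78, false, true, false, [(0, 1), (3, 10)], []⟩,
    ⟨933, 160, 480, 160, 78, false, true, false, [(0, 1), (3, 10)], []⟩,
    ⟨984, 160, 480, 160, 78, false, true, false, [(0, 1), (3, 10)], []⟩,
    ⟨1024, 160, 480, 160, 78, false, true, false, [(0, 1), (3, 10)], []⟩,
    ⟨1059, 160, 480, 160, 78, false, true, false, [(0, 1), (3, 10)], []⟩,
    ⟨1133, 96, 0, 192, 98, true, true, false, [(0, 1), (3, 13)], []⟩,
    ⟨1178, 160, 0, 176, 88, true, true, false, [(0, 1), (3, 9)], []⟩,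
    ⟨1234, 160, 0, 176, 88, true, true, false, [(0, 1), (3, 9)], []⟩,
    ⟨1297, 160, 0, 176, 88, true, true, false, [(0, 1), (3, 9)], []⟩,
    ⟨1368, 160, 0, 176, 88, true, true, false, [(0, 1), (3, 9)], []⟩,
    ⟨1439, 160, 0, 176, 88, true, true, false, [(0, 2), (3, 8)], []⟩,
    ⟨1510, 160, 0, 160, 78, true, true, false, [(0, 2), (3, 9)], []⟩,
    ⟨1590, 160, 0, 160, 78, true, true, false, [(0, 2), (3, 9)], []⟩,
    ⟨1670, 160, 0, 160, 78, true, true, false, [(0, 4), (3, 7)], []⟩,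
    ⟨1844, 160, 0, 160, 78, true, true, false, [(0, 11)], []⟩]⟩,
  ⟨150, 163, 12541, 13074, 165, [(187, 279, 1280358, 5260997, 5347595)], [⟨789, 160, 800, 64, 167, false, false, false, [(0, 1), (3, 18)], []⟩,
    ⟨908, 160, 640, 128, 94, false, true, false, [(0, 1), (3, 13)], []⟩,
    ⟨1012, 128, 0, 192, 98, true, true, false, [(0, 1), (3, 10)], []⟩,
    ⟨1129, 128, 0, 192, 98, true, true, false, [(0, 1), (3, 10)], []⟩,
    ⟨1231, 128, 0, 192, 98, true, true, false, [(0, 1), (3, 10)], []⟩,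
    ⟨1385, 96, 0, 176, 88, true, true, false, [(0, 1), (3, 16)], []⟩,
    ⟨1489, 128, 0, 176, 88, true, true, false, [(0, 2), (3, 11)], []⟩,
    ⟨1646, 96, 0, 160, 78, true, true, false, [(0, 2), (3, 17)], []⟩,
    ⟨1803, 96, 0, 160, 78, true, true, false, [(0, 4), (3, 15)], []⟩,
    ⟨1928, 160, 0, 144, 69, true, true, false, [(0, 13)], []⟩]⟩,
  ⟨164, 178, 13113, 13662, 132, [(187, 279, 1280358, 5353970, 5439366)], [⟨805, 160, 800, 52, 172, false, false, false, [(0, 1), (3, 20)], []⟩,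
    ⟨1026, 128, 640, 160, 78, false, true, false, [(0, 1), (3, 14)], []⟩,
    ⟨1161, 160, 640, 160, 78, false, true, false, [(0, 1), (3, 11)], []⟩,
    ⟨1291, 160, 0, 176, 88, true, true, false, [(0, 1), (3, 10)], []⟩,
    ⟨1437, 160, 0, 176, 88, true, true, false, [(0, 1), (3, 10)], []⟩,
    ⟨1601, 160, 0, 160, 78, true, true, false, [(0, 2), (3, 10)], []⟩,
    ⟨1765, 160, 0, 160, 78, true, true, false, [(0, 2), (3, 10)], []⟩,
    ⟨2015, 160, 0, 160, 78, true, true, false, [(0, 5), (3, 7)], []⟩]⟩,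
  ⟨179, 214, 13700, 14980, 71, [(187, 279, 1280358, 5445207, 5631519)], [⟨705, 160, 800, 40, 194, false, false, false, [(0, 1), (3, 23)], []⟩,
    ⟨945, 160, 800, 52, 164, false, false, false, [(0, 1), (3, 22)], []⟩,
    ⟨1107, 160, 640, 160, 78, false, true, false, [(0, 1), (3, 12)], []⟩,
    ⟨1234, 160, 640, 160, 78, false, true, false, [(0, 1), (3, 12)], []⟩,
    ⟨1320, 160, 480, 160, 78, false, true, false, [(0, 1), (3, 12)], []⟩,
    ⟨1428, 160, 0, 160, 78, true, true, false, [(0, 1), (3, 12)], []⟩,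
    ⟨1563, 160, 0, 160, 78, true, true, false, [(0, 1), (3, 12)], []⟩,
    ⟨1698, 160, 0, 160, 78, true, true, false, [(0, 2), (3, 11)], []⟩,
    ⟨1828, 160, 0, 160, 78, true, true, false, [(0, 2), (3, 11)], []⟩,
    ⟨1916, 160, 0, 160, 78, true, true, false, [(0, 4), (3, 9)], []⟩,
    ⟨1977, 160, 0, 160, 78, true, true, false, [(0, 13)], []⟩,
    ⟨2209, 160, 0, 144, 69, true, true, false, [(0, 15)], []⟩]⟩,
  ⟨215, 249, 15014, 16159, 26, [(187, 279, 1280358, 5636385, 5789668)], [⟨653, 160, 800, 40, 202, false, false, false, [(0, 1), (3, 25)], []⟩,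
    ⟨1083, 160, 800, 60, 160, false, false, false, [(0, 1), (3, 23)], []⟩,
    ⟨1373, 160, 640, 144, 69, false, true, false, [(0, 1), (3, 15)], []⟩,
    ⟨1627, 128, 0, 160, 78, true, true, false, [(0, 1), (3, 17)], []⟩,
    ⟨1881, 128, 0, 160, 78, true, true, false, [(0, 2), (3, 16)], []⟩,
    ⟨2103, 160, 0, 144, 69, true, true, false, [(0, 3), (3, 13)], []⟩,
    ⟨2383, 160, 0, 144, 69, true, true, false, [(0, 15), (3, 1)], []⟩]⟩] = true := by
  decide +kernel

theorem lp_290 : rowsOK false 290 302 1024 1024 512 2048 0 [] 250 100 [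
  ⟨100, 109, 10240, 10691, 512, [], [⟨1469, 32, 0, 176, 88, true, true, false, [(0, 42)], []⟩,
    ⟨1531, 48, 0, 160, 78, true, true, false, [(0, 31)], []⟩,
    ⟨1625, 128, 0, 160, 78, true, true, false, [(0, 12)], []⟩,
    ⟨1893, 128, 0, 144, 69, true, true, false, [(0, 13)], []⟩,
    ⟨2650, 160, 0, 104, 48, true, true, false, [(0, 13)], []⟩,
    ⟨6307, 160, 0, 0, 0, true, false, false, [(0, 20)], []⟩]⟩,
  ⟨110, 119, 10739, 11171, 512, [], [⟨1544, 128, 0, 176, 88, true, true, false, [(0, 11)], []⟩,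
    ⟨1640, 48, 0, 160, 78, true, true, false, [(0, 33)], []⟩,
    ⟨1821, 160, 0, 144, 69, true, true, false, [(0, 11)], []⟩,
    ⟨2385, 160, 0, 128, 60, true, true, false, [(0, 12)], []⟩,
    ⟨6590, 160, 0, 12, 6, true, true, false, [(0, 20)], []⟩]⟩,
  ⟨120, 136, 11217, 11942, 512, [], [⟨1643, 128, 0, 160, 78, true, true, false, [(0, 13)], []⟩,
    ⟨1769, 128, 0, 160, 78, true, true, false, [(0, 13)], []⟩,
    ⟨1983, 160, 0, 144, 69, true, true, false, [(0, 12)], []⟩,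
    ⟨2649, 160, 0, 112, 52, true, true, false, [(0, 14)], []⟩,
    ⟨7044, 160, 0, 0, 0, true, false, false, [(0, 23)], []⟩]⟩,
  ⟨137, 164, 11985, 13114, 512, [], [⟨1727, 96, 0, 160, 78, true, true, false, [(0, 19)], []⟩,
    ⟨1785, 96, 0, 160, 78, true, true, false, [(0, 19)], []⟩,
    ⟨1895, 128, 0, 144, 69, true, true, false, [(0, 16)], []⟩,
    ⟨2208, 160, 0, 128, 60, true, true, false, [(0, 14)], []⟩,
    ⟨3180, 160, 0, 80, 36, true, true, false, [(0, 18)], []⟩,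
    ⟨7736, 160, 0, 0, 0, true, false, false, [(0, 25)], []⟩]⟩,
  ⟨165, 198, 13153, 14409, 512, [], [⟨1951, 160, 0, 144, 69, true, true, false, [(0, 14)], []⟩,
    ⟨2179, 160, 0, 144, 69, true, true, false, [(0, 14)], []⟩,
    ⟨2823, 160, 0, 112, 52, true, true, false, [(0, 17)], []⟩,
    ⟨5980, 160, 0, 0, 0, true, false, false, [(0, 27)], []⟩,
    ⟨8500, 160, 0, 0, 0, true, false, false, [(0, 27)], []⟩]⟩,
  ⟨199, 249, 14445, 16159, 512, [], [⟨2189, 160, 0, 144, 69, true, true, false, [(0, 16)], []⟩,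
    ⟨2679, 160, 0, 120, 56, true, true, false, [(0, 18)], []⟩,
    ⟨4752, 160, 0, 40, 18, true, true, false, [(0, 26)], []⟩,
    ⟨9532, 160, 0, 0, 0, true, false, false, [(0, 30)], []⟩]⟩] = true := by
  decide +kernel

theorem lo_302 : rowsOK false 302 314 1024 1024 0 512 0 [] 250 100 [
  ⟨100, 105, 10240, 10493, 280, [(199, 689, 1239499, 4839303, 4889969)], [⟨874, 32, 0, 208, 109, true, true, false, [(0, 1), (3, 33)], []⟩,
    ⟨923, 32, 0, 208, 109, true, true, false, [(0, 1), (3, 33)], []⟩,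
    ⟨957, 64, 0, 192, 98, true, true, false, [(0, 1), (3, 19)], []⟩,
    ⟨1000, 64, 0, 192, 98, true, true, false, [(0, 1), (3, 19)], []⟩,
    ⟨1048, 64, 0, 192, 98, true, true, false, [(0, 1), (3, 19)], []⟩,
    ⟨1108, 64, 0, 192, 98, true, true, false, [(0, 1), (3, 19)], []⟩,
    ⟨1168, 64, 0, 192, 98, true, true, false, [(0, 1), (3, 19)], []⟩,
    ⟨1228, 64, 0, 192, 98, true, true, false, [(0, 2), (3, 18)], []⟩,
    ⟨1286, 64, 0, 192, 98, true, true, false, [(0, 2), (3, 18)], []⟩,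
    ⟨1331, 96, 0, 176, 88, true, true, false, [(0, 2), (3, 13)], []⟩,
    ⟨1376, 96, 0, 176, 88, true, true, false, [(0, 2), (3, 13)], []⟩,
    ⟨1421, 96, 0, 176, 88, true, true, false, [(0, 3), (3, 12)], []⟩,
    ⟨1466, 96, 0, 176, 88, true, true, false, [(0, 4), (3, 11)], []⟩,
    ⟨1505, 96, 0, 176, 88, true, true, false, [(0, 8), (3, 7)], []⟩,
    ⟨1609, 96, 0, 176, 88, true, true, false, [(0, 15)], []⟩]⟩,
  ⟨106, 108, 10542, 10642, 267, [(199, 689, 1239499, 4899814, 4919233)], [⟨859, 160, 480, 176, 88, false, true, false, [(0, 1), (3, 8)], []⟩,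
    ⟨914, 160, 0, 192, 98, true, true, false, [(0, 1), (3, 7)], []⟩,
    ⟨983, 160, 0, 192, 98, true, true, false, [(0, 1), (3, 7)], []⟩,
    ⟨1069, 160, 0, 192, 98, true, true, false, [(0, 1), (3, 7)], []⟩,
    ⟨1166, 160, 0, 192, 98, true, true, false, [(0, 1), (3, 7)], []⟩,
    ⟨1263, 160, 0, 192, 98, true, true, false, [(0, 1), (3, 7)], []⟩,
    ⟨1360, 160, 0, 176, 88, true, true, false, [(0, 2), (3, 7)], []⟩,
    ⟨1457, 160, 0, 176, 88, true, true, false, [(0, 2), (3, 7)], []⟩,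
    ⟨1542, 160, 0, 176, 88, true, true, false, [(0, 4), (3, 5)], []⟩,
    ⟨1632, 160, 0, 176, 88, true, true, false, [(0, 9)], []⟩]⟩,
  ⟨109, 118, 10690, 11124, 228, [(199, 689, 1239499, 4928809, 5011272)], [⟨739, 128, 512, 176, 88, false, true, false, [(0, 1), (3, 11)], []⟩,
    ⟨772, 128, 512, 176, 88, false, true, false, [(0, 1), (3, 11)], []⟩,
    ⟨798, 128, 512, 176, 88, false, true, false, [(0, 1), (3, 11)], []⟩,
    ⟨824, 96, 0, 208, 109, true, true, false, [(0, 1), (3, 11)], []⟩,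
    ⟨853, 96, 0, 208, 109, true, true, false, [(0, 1), (3, 11)], []⟩,
    ⟨885, 96, 0, 208, 109, true, true, false, [(0, 1), (3, 11)], []⟩,
    ⟨917, 96, 0, 208, 109, true, true, false, [(0, 1), (3, 11)], []⟩,
    ⟨949, 96, 0, 208, 109, true, true, false, [(0, 1), (3, 11)], []⟩,
    ⟨980, 96, 0, 208, 109, true, true, false, [(0, 1), (3, 11)], []⟩,
    ⟨1007, 96, 0, 208, 109, true, true, false, [(0, 1), (3, 11)], []⟩,
    ⟨1053, 48, 0, 192, 98, true, true, false, [(0, 1), (3, 27)], []⟩,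
    ⟨1105, 48, 0, 192, 98, true, true, false, [(0, 1), (3, 27)], []⟩,
    ⟨1151, 64, 0, 192, 98, true, true, false, [(0, 1), (3, 20)], []⟩,
    ⟨1197, 64, 0, 192, 98, true, true, false, [(0, 1), (3, 20)], []⟩,
    ⟨1243, 64, 0, 192, 98, true, true, false, [(0, 1), (3, 20)], []⟩,
    ⟨1283, 64, 0, 192, 98, true, true, false, [(0, 2), (3, 19)], []⟩,
    ⟨1359, 32, 0, 176, 88, true, true, false, [(0, 2), (3, 45)], []⟩,
    ⟨1388, 128, 0, 176, 88, true, true, false, [(0, 2), (3, 10)], []⟩,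
    ⟨1417, 128, 0, 176, 88, true, true, false, [(0, 2), (3, 10)], []⟩,
    ⟨1446, 128, 0, 176, 88, true, true, false, [(0, 2), (3, 10)], []⟩,
    ⟨1474, 128, 0, 176, 88, true, true, false, [(0, 3), (3, 9)], []⟩,
    ⟨1499, 128, 0, 176, 88, true, true, false, [(0, 3), (3, 9)], []⟩,
    ⟨1518, 128, 0, 176, 88, true, true, false, [(0, 4), (3, 8)], []⟩,
    ⟨1535, 128, 0, 176, 88, true, true, false, [(0, 5), (3, 7)], []⟩,
    ⟨1591, 32, 0, 176, 88, true, true, false, [(0, 12), (3, 35)], []⟩,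
    ⟨1706, 64, 0, 176, 88, true, true, false, [(0, 24)], []⟩]⟩,
  ⟨119, 129, 11170, 11631, 191, [(199, 689, 1239499, 5020047, 5103978)], [⟨726, 128, 640, 112, 131, false, false, false, [(0, 1), (3, 17)], []⟩,
    ⟨795, 128, 512, 160, 78, false, true, false, [(0, 1), (3, 13)], []⟩,
    ⟨849, 128, 512, 160, 78, false, true, false, [(0, 1), (3, 13)], []⟩,
    ⟨903, 64, 0, 208, 109, true, true, false, [(0, 1), (3, 18)], []⟩,
    ⟨957, 64, 0, 208, 109, true, true, false, [(0, 1), (3, 18)], []⟩,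
    ⟨994, 128, 0, 192, 98, true, true, false, [(0, 1), (3, 10)], []⟩,
    ⟨1040, 128, 0, 192, 98, true, true, false, [(0, 1), (3, 10)], []⟩,
    ⟨1098, 128, 0, 192, 98, true, true, false, [(0, 1), (3, 10)], []⟩,
    ⟨1163, 128, 0, 192, 98, true, true, false, [(0, 1), (3, 10)], []⟩,
    ⟨1228, 128, 0, 192, 98, true, true, false, [(0, 1), (3, 10)], []⟩,
    ⟨1285, 128, 0, 192, 98, true, true, false, [(0, 1), (3, 10)], []⟩,
    ⟨1335, 128, 0, 192, 98, true, true, false, [(0, 2), (3, 9)], []⟩,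
    ⟨1374, 160, 0, 176, 88, true, true, false, [(0, 2), (3, 8)], []⟩,
    ⟨1418, 160, 0, 176, 88, true, true, false, [(0, 2), (3, 8)], []⟩,
    ⟨1462, 160, 0, 176, 88, true, true, false, [(0, 2), (3, 8)], []⟩,
    ⟨1506, 160, 0, 176, 88, true, true, false, [(0, 2), (3, 8)], []⟩,
    ⟨1545, 160, 0, 176, 88, true, true, false, [(0, 3), (3, 7)], []⟩,
    ⟨1575, 160, 0, 176, 88, true, true, false, [(0, 3), (3, 7)], []⟩,
    ⟨1601, 160, 0, 176, 88, true, true, false, [(0, 4), (3, 6)], []⟩,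
    ⟨1621, 160, 0, 160, 78, true, true, false, [(0, 6), (3, 5)], []⟩,
    ⟨1660, 160, 0, 160, 78, true, true, false, [(0, 11)], []⟩,
    ⟨1784, 160, 0, 160, 78, true, true, false, [(0, 11)], []⟩]⟩,
  ⟨130, 141, 11675, 12160, 157, [(200, 367, 1239499, 5112013, 5196559)], [⟨720, 160, 800, 60, 178, false, false, false, [(0, 1), (3, 18)], []⟩,
    ⟨826, 160, 640, 72, 164, false, false, false, [(0, 1), (3, 17)], []⟩,
    ⟨932, 128, 512, 176, 88, false, true, false, [(0, 1), (3, 12)], []⟩,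
    ⟨1006, 128, 512, 176, 88, false, true, false, [(0, 1), (3, 12)], []⟩,
    ⟨1099, 64, 0, 192, 98, true, true, false, [(0, 1), (3, 22)], []⟩,
    ⟨1203, 64, 0, 192, 98, true, true, false, [(0, 1), (3, 22)], []⟩,
    ⟨1294, 128, 0, 176, 88, true, true, false, [(0, 1), (3, 12)], []⟩,
    ⟨1396, 128, 0, 176, 88, true, true, false, [(0, 1), (3, 12)], []⟩,
    ⟨1498, 128, 0, 176, 88, true, true, false, [(0, 2), (3, 11)], []⟩,
    ⟨1596, 128, 0, 176, 88, true, true, false, [(0, 2), (3, 11)], []⟩,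
    ⟨1664, 128, 0, 176, 88, true, true, false, [(0, 3), (3, 10)], []⟩,
    ⟨1767, 64, 0, 160, 78, true, true, false, [(0, 8), (3, 21)], []⟩,
    ⟨1865, 160, 0, 160, 78, true, true, false, [(0, 12)], []⟩]⟩,
  ⟨142, 154, 12202, 12708, 124, [(200, 367, 1239499, 5203918, 5288412)], [⟨725, 160, 800, 44, 195, false, false, false, [(0, 1), (3, 20)], []⟩,
    ⟨903, 128, 640, 160, 78, false, true, false, [(0, 1), (3, 14)], []⟩,
    ⟨1023, 160, 640, 160, 78, false, true, false, [(0, 1), (3, 11)], []⟩,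
    ⟨1143, 128, 0, 192, 98, true, true, false, [(0, 1), (3, 11)], []⟩,
    ⟨1263, 128, 0, 192, 98, true, true, false, [(0, 1), (3, 11)], []⟩,
    ⟨1368, 160, 0, 176, 88, true, true, false, [(0, 1), (3, 10)], []⟩,
    ⟨1486, 160, 0, 176, 88, true, true, false, [(0, 2), (3, 9)], []⟩,
    ⟨1600, 160, 0, 176, 88, true, true, false, [(0, 2), (3, 9)], []⟩,
    ⟨1714, 160, 0, 160, 78, true, true, false, [(0, 3), (3, 9)], []⟩,
    ⟨1949, 128, 0, 160, 78, true, true, false, [(0, 5), (3, 10)], []⟩]⟩,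
  ⟨155, 176, 12748, 13585, 79, [(200, 367, 1239499, 5295156, 5427584)], [⟨653, 160, 800, 40, 207, false, false, false, [(0, 1), (3, 22)], []⟩,
    ⟨875, 160, 800, 52, 177, false, false, false, [(0, 1), (3, 21)], []⟩,
    ⟨1030, 160, 640, 160, 78, false, true, false, [(0, 1), (3, 12)], []⟩,
    ⟨1166, 160, 640, 160, 78, false, true, false, [(0, 1), (3, 12)], []⟩,
    ⟨1297, 96, 0, 192, 98, true, true, false, [(0, 1), (3, 16)], []⟩,
    ⟨1388, 128, 0, 176, 88, true, true, false, [(0, 1), (3, 14)], []⟩,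
    ⟨1479, 160, 0, 160, 78, true, true, false, [(0, 1), (3, 12)], []⟩,
    ⟨1604, 128, 0, 160, 78, true, true, false, [(0, 2), (3, 14)], []⟩,
    ⟨1744, 128, 0, 160, 78, true, true, false, [(0, 2), (3, 14)], []⟩,
    ⟨1867, 128, 0, 160, 78, true, true, false, [(0, 4), (3, 12)], []⟩,
    ⟨2083, 160, 0, 160, 78, true, true, false, [(0, 13)], []⟩]⟩,
  ⟨177, 212, 13623, 14910, 22, [(200, 367, 1239499, 5433491, 5621720)], [⟨577, 160, 800, 40, 216, false, false, false, [(0, 1), (3, 24)], []⟩,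
    ⟨920, 160, 800, 40, 190, false, false, false, [(0, 1), (3, 24)], []⟩,
    ⟨1130, 160, 640, 96, 126, false, false, false, [(0, 1), (3, 19)], []⟩,
    ⟨1277, 160, 640, 128, 83, false, true, false, [(0, 1), (3, 16)], []⟩,
    ⟨1442, 128, 0, 176, 88, true, true, false, [(0, 1), (3, 15)], []⟩,
    ⟨1607, 128, 0, 176, 88, true, true, false, [(0, 1), (3, 15)], []⟩,
    ⟨1751, 128, 0, 160, 78, true, true, false, [(0, 2), (3, 16)], []⟩,
    ⟨1890, 128, 0, 160, 78, true, true, false, [(0, 2), (3, 16)], []⟩,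
    ⟨1987, 128, 0, 160, 78, true, true, false, [(0, 4), (3, 14)], []⟩,
    ⟨2287, 96, 0, 144, 69, true, true, false, [(0, 22), (3, 4)], []⟩]⟩,
  ⟨213, 249, 14944, 16159, 0, [], [⟨601, 160, 800, 44, 213, false, false, false, [(0, 1), (3, 26)], []⟩,
    ⟨1074, 160, 800, 52, 172, false, false, false, [(0, 1), (3, 25)], []⟩,
    ⟨1405, 160, 640, 112, 98, false, true, false, [(0, 1), (3, 19)], []⟩,
    ⟨1665, 160, 0, 176, 88, true, true, false, [(0, 1), (3, 13)], []⟩,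
    ⟨1990, 128, 0, 160, 78, true, true, false, [(0, 2), (3, 17)], []⟩,
    ⟨2478, 160, 0, 144, 69, true, true, false, [(0, 3), (3, 14)], []⟩]⟩] = true := by
  decide +kernel

theorem lp_302 : rowsOK false 302 314 1024 1024 512 2048 0 [] 250 100 [
  ⟨100, 105, 10240, 10493, 512, [], [⟨1580, 96, 0, 176, 88, true, true, false, [(0, 15)], []⟩,
    ⟨1726, 160, 0, 160, 78, true, true, false, [(0, 10)], []⟩,
    ⟨2098, 160, 0, 144, 69, true, true, false, [(0, 11)], []⟩,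
    ⟨3358, 160, 0, 80, 36, true, true, false, [(0, 15)], []⟩,
    ⟨6436, 160, 0, 0, 0, true, false, false, [(0, 21)], []⟩]⟩,
  ⟨106, 115, 10542, 10982, 512, [], [⟨1616, 48, 0, 176, 88, true, true, false, [(0, 31)], []⟩,
    ⟨1758, 128, 0, 160, 78, true, true, false, [(0, 13)], []⟩,
    ⟨2026, 160, 0, 144, 69, true, true, false, [(0, 12)], []⟩,
    ⟨2859, 160, 0, 96, 44, true, true, false, [(0, 15)], []⟩,
    ⟨6736, 160, 0, 0, 0, true, false, false, [(0, 22)], []⟩]⟩,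
  ⟨116, 126, 11028, 11495, 512, [], [⟨1664, 160, 0, 160, 78, true, true, false, [(0, 11)], []⟩,
    ⟨1785, 160, 0, 160, 78, true, true, false, [(0, 11)], []⟩,
    ⟨2128, 160, 0, 144, 69, true, true, false, [(0, 12)], []⟩,
    ⟨3193, 160, 0, 88, 40, true, true, false, [(0, 16)], []⟩,
    ⟨7050, 160, 0, 0, 0, true, false, false, [(0, 23)], []⟩]⟩,
  ⟨127, 144, 11539, 12288, 512, [], [⟨1790, 64, 0, 160, 78, true, true, false, [(0, 29)], []⟩,
    ⟨1975, 128, 0, 144, 69, true, true, false, [(0, 16)], []⟩,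
    ⟨2498, 160, 0, 128, 60, true, true, false, [(0, 14)], []⟩,
    ⟨5486, 160, 0, 24, 11, true, true, false, [(0, 22)], []⟩,
    ⟨7537, 160, 0, 0, 0, true, false, false, [(0, 24)], []⟩]⟩,
  ⟨145, 174, 12330, 13508, 512, [], [⟨1880, 128, 0, 160, 78, true, true, false, [(0, 16)], []⟩,
    ⟨1986, 128, 0, 160, 78, true, true, false, [(0, 16)], []⟩,
    ⟨2227, 128, 0, 144, 69, true, true, false, [(0, 18)], []⟩,
    ⟨3045, 160, 0, 96, 44, true, true, false, [(0, 18)], []⟩,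
    ⟨6536, 160, 0, 0, 0, true, false, false, [(0, 26)], []⟩,
    ⟨8285, 160, 0, 0, 0, true, false, false, [(0, 26)], []⟩]⟩,
  ⟨175, 210, 13546, 14840, 512, [], [⟨2098, 160, 0, 160, 78, true, true, false, [(0, 14)], []⟩,
    ⟨2443, 160, 0, 128, 60, true, true, false, [(0, 17)], []⟩,
    ⟨3612, 160, 0, 72, 32, true, true, false, [(0, 22)], []⟩,
    ⟨9102, 160, 0, 0, 0, true, false, false, [(0, 29)], []⟩]⟩,
  ⟨211, 249, 14874, 16159, 512, [], [⟨2684, 128, 0, 128, 60, true, true, false, [(0, 23)], []⟩,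
    ⟨4553, 160, 0, 52, 23, true, true, false, [(0, 26)], []⟩,
    ⟨9911, 160, 0, 0, 0, true, false, false, [(0, 31)], []⟩]⟩] = true := by
  decide +kernel

theorem lo_314 : rowsOK false 314 326 1024 1024 0 512 0 [] 250 100 [
  ⟨100, 109, 10240, 10691, 191, [(213, 797, 1200173, 4839303, 4928809)], [⟨663, 64, 512, 192, 98, false, true, false, [(0, 1), (3, 21)], []⟩,
    ⟨724, 64, 512, 192, 98, false, true, false, [(0, 1), (3, 21)], []⟩,
    ⟨772, 64, 512, 192, 98, false, true, false, [(0, 1), (3, 21)], []⟩,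
    ⟨805, 64, 512, 192, 98, false, true, false, [(0, 1), (3, 21)], []⟩,
    ⟨831, 64, 512, 192, 98, false, true, false, [(0, 1), (3, 21)], []⟩,
    ⟨843, 96, 0, 208, 109, true, true, false, [(0, 1), (3, 12)], []⟩,
    ⟨859, 96, 0, 208, 109, true, true, false, [(0, 1), (3, 12)], []⟩,
    ⟨877, 96, 0, 208, 109, true, true, false, [(0, 1), (3, 12)], []⟩,
    ⟨897, 96, 0, 208, 109, true, true, false, [(0, 1), (3, 12)], []⟩,
    ⟨922, 96, 0, 208, 109, true, true, false, [(0, 1), (3, 12)], []⟩,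
    ⟨947, 96, 0, 208, 109, true, true, false, [(0, 1), (3, 12)], []⟩,
    ⟨975, 96, 0, 208, 109, true, true, false, [(0, 1), (3, 12)], []⟩,
    ⟨1003, 96, 0, 208, 109, true, true, false, [(0, 1), (3, 12)], []⟩,
    ⟨1031, 96, 0, 208, 109, true, true, false, [(0, 1), (3, 12)], []⟩,
    ⟨1058, 96, 0, 208, 109, true, true, false, [(0, 1), (3, 12)], []⟩,
    ⟨1104, 64, 0, 192, 98, true, true, false, [(0, 1), (3, 21)], []⟩,
    ⟨1156, 64, 0, 192, 98, true, true, false, [(0, 1), (3, 21)], []⟩,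
    ⟨1214, 64, 0, 192, 98, true, true, false, [(0, 1), (3, 21)], []⟩,
    ⟨1272, 64, 0, 192, 98, true, true, false, [(0, 2), (3, 20)], []⟩,
    ⟨1323, 64, 0, 192, 98, true, true, false, [(0, 2), (3, 20)], []⟩,
    ⟨1368, 64, 0, 192, 98, true, true, false, [(0, 2), (3, 20)], []⟩,
    ⟨1399, 64, 0, 192, 98, true, true, false, [(0, 2), (3, 20)], []⟩,
    ⟨1423, 64, 0, 192, 98, true, true, false, [(0, 2), (3, 20)], []⟩,
    ⟨1460, 32, 0, 176, 88, true, true, false, [(0, 3), (3, 46)], []⟩,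
    ⟨1492, 32, 0, 176, 88, true, true, false, [(0, 3), (3, 46)], []⟩,
    ⟨1523, 32, 0, 176, 88, true, true, false, [(0, 4), (3, 45)], []⟩,
    ⟨1550, 32, 0, 176, 88, true, true, false, [(0, 8), (3, 41)], []⟩,
    ⟨1576, 32, 0, 176, 88, true, true, false, [(0, 41), (3, 8)], []⟩,
    ⟨1702, 32, 0, 176, 88, true, true, false, [(0, 49)], []⟩]⟩,
  ⟨110, 115, 10739, 10982, 170, [(214, 472, 1200173, 4938299, 4984499)], [⟨674, 160, 640, 60, 190, false, false, false, [(0, 1), (3, 17)], []⟩,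
    ⟨786, 96, 576, 176, 88, false, true, false, [(0, 1), (3, 16)], []⟩,
    ⟨874, 96, 576, 176, 88, false, true, false, [(0, 1), (3, 16)], []⟩,
    ⟨935, 96, 576, 176, 88, false, true, false, [(0, 1), (3, 16)], []⟩,
    ⟨1003, 96, 0, 192, 98, true, true, false, [(0, 1), (3, 14)], []⟩,
    ⟨1088, 96, 0, 192, 98, true, true, false, [(0, 1), (3, 14)], []⟩,
    ⟨1194, 96, 0, 192, 98, true, true, false, [(0, 1), (3, 14)], []⟩,
    ⟨1239, 160, 0, 192, 98, true, true, false, [(0, 1), (3, 8)], []⟩,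
    ⟨1289, 160, 0, 192, 98, true, true, false, [(0, 1), (3, 8)], []⟩,
    ⟨1339, 160, 0, 192, 98, true, true, false, [(0, 2), (3, 7)], []⟩,
    ⟨1383, 160, 0, 192, 98, true, true, false, [(0, 2), (3, 7)], []⟩,
    ⟨1467, 96, 0, 176, 88, true, true, false, [(0, 2), (3, 15)], []⟩,
    ⟨1551, 96, 0, 176, 88, true, true, false, [(0, 3), (3, 14)], []⟩,
    ⟨1625, 96, 0, 176, 88, true, true, false, [(0, 4), (3, 13)], []⟩,
    ⟨1749, 96, 0, 176, 88, true, true, false, [(0, 17)], []⟩]⟩,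
  ⟨116, 126, 11028, 11495, 135, [(214, 472, 1200173, 4993499, 5079496)], [⟨638, 160, 640, 56, 199, false, false, false, [(0, 1), (3, 18)], []⟩,
    ⟨756, 160, 640, 72, 172, false, false, false, [(0, 1), (3, 17)], []⟩,
    ⟨836, 128, 640, 144, 100, false, true, false, [(0, 1), (3, 15)], []⟩,
    ⟨890, 128, 512, 192, 98, false, true, false, [(0, 1), (3, 11)], []⟩,
    ⟨927, 128, 512, 192, 98, false, true, false, [(0, 1), (3, 11)], []⟩,
    ⟨964, 96, 576, 176, 88, false, true, false, [(0, 1), (3, 17)], []⟩,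
    ⟨1005, 64, 0, 208, 109, true, true, false, [(0, 1), (3, 20)], []⟩,
    ⟨1037, 128, 0, 192, 98, true, true, false, [(0, 1), (3, 11)], []⟩,
    ⟨1081, 128, 0, 192, 98, true, true, false, [(0, 1), (3, 11)], []⟩,
    ⟨1130, 128, 0, 192, 98, true, true, false, [(0, 1), (3, 11)], []⟩,
    ⟨1191, 128, 0, 192, 98, true, true, false, [(0, 1), (3, 11)], []⟩,
    ⟨1259, 128, 0, 192, 98, true, true, false, [(0, 1), (3, 11)], []⟩,
    ⟨1327, 128, 0, 192, 98, true, true, false, [(0, 1), (3, 11)], []⟩,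
    ⟨1386, 128, 0, 192, 98, true, true, false, [(0, 2), (3, 10)], []⟩,
    ⟨1438, 128, 0, 192, 98, true, true, false, [(0, 2), (3, 10)], []⟩,
    ⟨1490, 96, 0, 176, 88, true, true, false, [(0, 2), (3, 16)], []⟩,
    ⟨1542, 96, 0, 176, 88, true, true, false, [(0, 2), (3, 16)], []⟩,
    ⟨1592, 96, 0, 176, 88, true, true, false, [(0, 3), (3, 15)], []⟩,
    ⟨1631, 96, 0, 176, 88, true, true, false, [(0, 4), (3, 14)], []⟩,
    ⟨1665, 96, 0, 176, 88, true, true, false, [(0, 6), (3, 12)], []⟩,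
    ⟨1695, 96, 0, 176, 88, true, true, false, [(0, 16), (3, 2)], []⟩,
    ⟨1830, 64, 0, 176, 88, true, true, false, [(0, 27)], []⟩]⟩,
  ⟨127, 138, 11539, 12030, 102, [(213, 797, 1200173, 5087721, 5174169)], [⟨642, 160, 800, 40, 216, false, false, false, [(0, 1), (3, 20)], []⟩,
    ⟨802, 160, 640, 72, 170, false, false, false, [(0, 1), (3, 18)], []⟩,
    ⟨928, 128, 512, 176, 88, false, true, false, [(0, 1), (3, 13)], []⟩,
    ⟨1027, 128, 512, 176, 88, false, true, false, [(0, 1), (3, 13)], []⟩,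
    ⟨1096, 128, 512, 176, 88, false, true, false, [(0, 1), (3, 13)], []⟩,
    ⟨1156, 160, 0, 192, 98, true, true, false, [(0, 1), (3, 9)], []⟩,
    ⟨1223, 160, 0, 192, 98, true, true, false, [(0, 1), (3, 9)], []⟩,
    ⟨1298, 160, 0, 192, 98, true, true, false, [(0, 1), (3, 9)], []⟩,
    ⟨1373, 160, 0, 192, 98, true, true, false, [(0, 1), (3, 9)], []⟩,
    ⟨1476, 128, 0, 176, 88, true, true, false, [(0, 2), (3, 12)], []⟩,
    ⟨1579, 128, 0, 176, 88, true, true, false, [(0, 2), (3, 12)], []⟩,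
    ⟨1669, 128, 0, 176, 88, true, true, false, [(0, 3), (3, 11)], []⟩,
    ⟨1740, 128, 0, 176, 88, true, true, false, [(0, 4), (3, 10)], []⟩,
    ⟨1915, 48, 0, 160, 78, true, true, false, [(0, 25), (3, 16)], []⟩]⟩,
  ⟨139, 158, 12072, 12872, 58, [(215, 147, 1200173, 5181686, 5315129)], [⟨609, 160, 800, 36, 225, false, false, false, [(0, 1), (3, 22)], []⟩,
    ⟨829, 160, 800, 60, 182, false, false, false, [(0, 1), (3, 20)], []⟩,
    ⟨964, 160, 640, 176, 88, false, true, false, [(0, 1), (3, 11)], []⟩,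
    ⟨1070, 160, 640, 176, 88, false, true, false, [(0, 1), (3, 11)], []⟩,
    ⟨1144, 160, 480, 176, 88, false, true, false, [(0, 1), (3, 11)], []⟩,
    ⟨1195, 160, 480, 176, 88, false, true, false, [(0, 1), (3, 11)], []⟩,
    ⟨1252, 160, 0, 176, 88, true, true, false, [(0, 1), (3, 11)], []⟩,
    ⟨1323, 160, 0, 176, 88, true, true, false, [(0, 1), (3, 11)], []⟩,
    ⟨1412, 160, 0, 176, 88, true, true, false, [(0, 1), (3, 11)], []⟩,
    ⟨1512, 160, 0, 176, 88, true, true, false, [(0, 2), (3, 10)], []⟩,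
    ⟨1612, 160, 0, 176, 88, true, true, false, [(0, 2), (3, 10)], []⟩,
    ⟨1691, 160, 0, 176, 88, true, true, false, [(0, 2), (3, 10)], []⟩,
    ⟨1753, 160, 0, 176, 88, true, true, false, [(0, 3), (3, 9)], []⟩,
    ⟨1796, 160, 0, 176, 88, true, true, false, [(0, 4), (3, 8)], []⟩,
    ⟨1861, 96, 0, 160, 78, true, true, false, [(0, 9), (3, 13)], []⟩,
    ⟨2049, 128, 0, 160, 78, true, true, false, [(0, 17)], []⟩]⟩,
  ⟨159, 181, 12912, 13777, 17, [(215, 147, 1200173, 5321703, 5456794)], [⟨556, 160, 800, 44, 224, false, false, false, [(0, 1), (3, 23)], []⟩,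
    ⟨899, 160, 800, 56, 184, false, false, false, [(0, 1), (3, 22)], []⟩,
    ⟨1109, 160, 640, 160, 78, false, true, false, [(0, 1), (3, 13)], []⟩,
    ⟨1274, 160, 640, 160, 78, false, true, false, [(0, 1), (3, 13)], []⟩,
    ⟨1404, 160, 640, 160, 78, false, true, false, [(0, 1), (3, 13)], []⟩,
    ⟨1583, 128, 0, 176, 88, true, true, false, [(0, 1), (3, 15)], []⟩,
    ⟨1740, 160, 0, 160, 78, true, true, false, [(0, 2), (3, 12)], []⟩,
    ⟨1897, 160, 0, 160, 78, true, true, false, [(0, 3), (3, 11)], []⟩,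
    ⟨2194, 160, 0, 160, 78, true, true, false, [(0, 6), (3, 8)], []⟩]⟩,
  ⟨182, 249, 13814, 16159, 0, [], [⟨546, 160, 800, 64, 206, false, false, false, [(0, 1), (3, 25)], []⟩,
    ⟨928, 160, 800, 64, 178, false, false, false, [(0, 1), (3, 25)], []⟩,
    ⟨1162, 160, 800, 64, 161, false, false, false, [(0, 1), (3, 25)], []⟩,
    ⟨1325, 160, 640, 144, 76, false, true, false, [(0, 1), (3, 17)], []⟩,
    ⟨1453, 160, 640, 144, 69, false, true, false, [(0, 1), (3, 17)], []⟩,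
    ⟨1554, 160, 0, 176, 88, true, true, false, [(0, 1), (3, 14)], []⟩,
    ⟨1655, 160, 0, 176, 88, true, true, false, [(0, 1), (3, 14)], []⟩,
    ⟨1734, 160, 0, 176, 88, true, true, false, [(0, 2), (3, 13)], []⟩,
    ⟨1823, 128, 0, 160, 78, true, true, false, [(0, 2), (3, 19)], []⟩,
    ⟨1909, 128, 0, 160, 78, true, true, false, [(0, 2), (3, 19)], []⟩,
    ⟨1969, 128, 0, 160, 78, true, true, false, [(0, 3), (3, 18)], []⟩,
    ⟨2036, 64, 0, 160, 78, true, true, false, [(0, 3), (3, 38)], []⟩,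
    ⟨2077, 64, 0, 160, 78, true, true, false, [(0, 6), (3, 35)], []⟩,
    ⟨2097, 64, 0, 160, 78, true, true, false, [(0, 12), (3, 29)], []⟩,
    ⟨2106, 64, 0, 160, 78, true, true, false, [(0, 29), (3, 12)], []⟩,
    ⟨2115, 64, 0, 160, 78, true, true, false, [(0, 41)], []⟩,
    ⟨2127, 64, 0, 160, 78, true, true, false, [(0, 41)], []⟩,
    ⟨2155, 160, 0, 144, 69, true, true, false, [(0, 18)], []⟩,
    ⟨2573, 160, 0, 144, 69, true, true, false, [(0, 18)], []⟩]⟩] = true := by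
  decide +kernel

theorem lp_314 : rowsOK false 314 326 1024 1024 512 2048 0 [] 250 100 [
  ⟨100, 109, 10240, 10691, 512, [], [⟨1619, 32, 0, 176, 88, true, true, false, [(0, 49)], []⟩,
    ⟨1653, 160, 0, 176, 88, true, true, false, [(0, 10)], []⟩,
    ⟨1752, 160, 0, 160, 78, true, true, false, [(0, 11)], []⟩,
    ⟨2005, 160, 0, 144, 69, true, true, false, [(0, 12)], []⟩,
    ⟨2791, 160, 0, 112, 52, true, true, false, [(0, 14)], []⟩,
    ⟨6808, 160, 0, 0, 0, true, false, false, [(0, 22)], []⟩]⟩,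
  ⟨110, 119, 10739, 11171, 512, [], [⟨1701, 128, 0, 176, 88, true, true, false, [(0, 13)], []⟩,
    ⟨1859, 96, 0, 160, 78, true, true, false, [(0, 19)], []⟩,
    ⟨2187, 160, 0, 144, 69, true, true, false, [(0, 13)], []⟩,
    ⟨3298, 160, 0, 80, 36, true, true, false, [(0, 17)], []⟩,
    ⟨7113, 160, 0, 0, 0, true, false, false, [(0, 23)], []⟩]⟩,
  ⟨120, 130, 11217, 11676, 512, [], [⟨1797, 160, 0, 160, 78, true, true, false, [(0, 12)], []⟩,
    ⟨2020, 160, 0, 160, 78, true, true, false, [(0, 12)], []⟩,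
    ⟨2650, 160, 0, 120, 56, true, true, false, [(0, 15)], []⟩,
    ⟨7435, 160, 0, 4, 2, true, true, false, [(0, 23)], []⟩]⟩,
  ⟨131, 149, 11720, 12500, 512, [], [⟨1885, 128, 0, 160, 78, true, true, false, [(0, 16)], []⟩,
    ⟨2087, 160, 0, 144, 69, true, true, false, [(0, 14)], []⟩,
    ⟨2658, 160, 0, 120, 56, true, true, false, [(0, 16)], []⟩,
    ⟨5458, 160, 0, 0, 0, true, false, false, [(0, 25)], []⟩,
    ⟨7959, 160, 0, 0, 0, true, false, false, [(0, 25)], []⟩]⟩,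
  ⟨150, 180, 12541, 13739, 512, [], [⟨2023, 160, 0, 160, 78, true, true, false, [(0, 14)], []⟩,
    ⟨2162, 160, 0, 160, 78, true, true, false, [(0, 14)], []⟩,
    ⟨2635, 160, 0, 112, 52, true, true, false, [(0, 18)], []⟩,
    ⟨5037, 160, 0, 28, 12, true, true, false, [(0, 25)], []⟩,
    ⟨8748, 160, 0, 0, 0, true, false, false, [(0, 28)], []⟩]⟩,
  ⟨181, 235, 13776, 15698, 512, [], [⟨2224, 128, 0, 144, 69, true, true, false, [(0, 22)], []⟩,
    ⟨2574, 160, 0, 128, 60, true, true, false, [(0, 19)], []⟩,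
    ⟨3661, 160, 0, 80, 36, true, true, false, [(0, 24)], []⟩,
    ⟨8299, 160, 0, 0, 0, true, false, false, [(0, 32)], []⟩,
    ⟨9996, 160, 0, 0, 0, true, false, false, [(0, 32)], []⟩]⟩,
  ⟨236, 249, 15730, 16159, 512, [], [⟨3396, 160, 0, 104, 48, true, true, false, [(0, 22)], []⟩,
    ⟨7599, 160, 0, 0, 0, true, false, false, [(0, 33)], []⟩,
    ⟨10289, 160, 0, 0, 0, true, false, false, [(0, 33)], []⟩]⟩] = true := by
  decide +kernel

theorem lo_326 : rowsOK false 326 338 1024 1024 0 512 0 [] 250 100 [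
  ⟨100, 105, 10240, 10493, 138, [(229, 650, 1162268, 4839303, 4889969)], [⟨599, 160, 640, 60, 207, false, false, false, [(0, 1), (3, 17)], []⟩,
    ⟨687, 160, 640, 60, 198, false, false, false, [(0, 1), (3, 17)], []⟩,
    ⟨764, 96, 576, 160, 99, false, true, false, [(0, 1), (3, 18)], []⟩,
    ⟨824, 96, 576, 160, 93, false, true, false, [(0, 1), (3, 18)], []⟩,
    ⟨882, 64, 512, 176, 88, false, true, false, [(0, 1), (3, 25)], []⟩,
    ⟨922, 96, 0, 208, 109, true, true, false, [(0, 1), (3, 13)], []⟩,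
    ⟨972, 96, 0, 208, 109, true, true, false, [(0, 1), (3, 13)], []⟩,
    ⟨1028, 96, 0, 208, 109, true, true, false, [(0, 1), (3, 13)], []⟩,
    ⟨1091, 96, 0, 208, 109, true, true, false, [(0, 1), (3, 13)], []⟩,
    ⟨1154, 96, 0, 208, 109, true, true, false, [(0, 1), (3, 13)], []⟩,
    ⟨1215, 96, 0, 208, 109, true, true, false, [(0, 1), (3, 13)], []⟩,
    ⟨1263, 96, 0, 208, 109, true, true, false, [(0, 1), (3, 13)], []⟩,
    ⟨1296, 128, 0, 192, 98, true, true, false, [(0, 2), (3, 10)], []⟩,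
    ⟨1333, 128, 0, 192, 98, true, true, false, [(0, 2), (3, 10)], []⟩,
    ⟨1370, 128, 0, 192, 98, true, true, false, [(0, 2), (3, 10)], []⟩,
    ⟨1407, 128, 0, 192, 98, true, true, false, [(0, 2), (3, 10)], []⟩,
    ⟨1443, 128, 0, 192, 98, true, true, false, [(0, 2), (3, 10)], []⟩,
    ⟨1498, 64, 0, 176, 88, true, true, false, [(0, 2), (3, 24)], []⟩,
    ⟨1532, 128, 0, 176, 88, true, true, false, [(0, 3), (3, 10)], []⟩,
    ⟨1566, 128, 0, 176, 88, true, true, false, [(0, 4), (3, 9)], []⟩,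
    ⟨1599, 128, 0, 176, 88, true, true, false, [(0, 5), (3, 8)], []⟩,
    ⟨1636, 128, 0, 176, 88, true, true, false, [(0, 12), (3, 1)], []⟩,
    ⟨1732, 128, 0, 176, 88, true, true, false, [(0, 13)], []⟩]⟩,
  ⟨106, 115, 10542, 10982, 105, [(229, 650, 1162268, 4899814, 4984499)], [⟨585, 160, 800, 40, 230, false, false, false, [(0, 1), (3, 19)], []⟩,
    ⟨703, 160, 640, 72, 186, false, false, false, [(0, 1), (3, 17)], []⟩,
    ⟨785, 128, 640, 88, 170, false, false, false, [(0, 1), (3, 20)], []⟩,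
    ⟨835, 128, 512, 176, 88, false, true, false, [(0, 1), (3, 13)], []⟩,
    ⟨874, 128, 512, 176, 88, false, true, false, [(0, 1), (3, 13)], []⟩,
    ⟨904, 128, 512, 176, 88, false, true, false, [(0, 1), (3, 13)], []⟩,
    ⟨927, 128, 512, 176, 88, false, true, false, [(0, 1), (3, 13)], []⟩,
    ⟨945, 128, 512, 176, 88, false, true, false, [(0, 1), (3, 13)], []⟩,
    ⟨973, 64, 0, 208, 109, true, true, false, [(0, 1), (3, 21)], []⟩,
    ⟨995, 128, 0, 208, 109, true, true, false, [(0, 1), (3, 10)], []⟩,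
    ⟨1020, 128, 0, 208, 109, true, true, false, [(0, 1), (3, 10)], []⟩,
    ⟨1048, 128, 0, 208, 109, true, true, false, [(0, 1), (3, 10)], []⟩,
    ⟨1079, 128, 0, 208, 109, true, true, false, [(0, 1), (3, 10)], []⟩,
    ⟨1110, 128, 0, 208, 109, true, true, false, [(0, 1), (3, 10)], []⟩,
    ⟨1141, 128, 0, 208, 109, true, true, false, [(0, 1), (3, 10)], []⟩,
    ⟨1172, 128, 0, 208, 109, true, true, false, [(0, 1), (3, 10)], []⟩,
    ⟨1199, 128, 0, 208, 109, true, true, false, [(0, 1), (3, 10)], []⟩,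
    ⟨1262, 48, 0, 192, 98, true, true, false, [(0, 1), (3, 32)], []⟩,
    ⟨1275, 160, 0, 192, 98, true, true, false, [(0, 1), (3, 9)], []⟩,
    ⟨1333, 64, 0, 192, 98, true, true, false, [(0, 2), (3, 23)], []⟩,
    ⟨1391, 64, 0, 192, 98, true, true, false, [(0, 2), (3, 23)], []⟩,
    ⟨1442, 64, 0, 192, 98, true, true, false, [(0, 2), (3, 23)], []⟩,
    ⟨1482, 64, 0, 192, 98, true, true, false, [(0, 2), (3, 23)], []⟩,
    ⟨1527, 48, 0, 192, 98, true, true, false, [(0, 2), (3, 31)], []⟩,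
    ⟨1571, 32, 0, 192, 98, true, true, false, [(0, 3), (3, 46)], []⟩,
    ⟨1610, 32, 0, 176, 88, true, true, false, [(0, 4), (3, 51)], []⟩,
    ⟨1644, 32, 0, 176, 88, true, true, false, [(0, 6), (3, 49)], []⟩,
    ⟨1674, 32, 0, 176, 88, true, true, false, [(0, 21), (3, 34)], []⟩,
    ⟨1708, 160, 0, 176, 88, true, true, false, [(0, 11)], []⟩,
    ⟨1813, 160, 0, 176, 88, true, true, false, [(0, 11)], []⟩]⟩,
  ⟨116, 126, 11028, 11495, 73, [(229, 650, 1162268, 4993499, 5079496)], [⟨577, 160, 800, 40, 232, false, false, false, [(0, 1), (3, 20)], []⟩,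
    ⟨757, 160, 640, 72, 183, false, false, false, [(0, 1), (3, 18)], []⟩,
    ⟨867, 96, 576, 176, 88, false, true, false, [(0, 1), (3, 18)], []⟩,
    ⟨944, 128, 512, 192, 98, false, true, false, [(0, 1), (3, 12)], []⟩,
    ⟨1004, 128, 512, 192, 98, false, true, false, [(0, 1), (3, 12)], []⟩,
    ⟨1071, 64, 0, 208, 109, true, true, false, [(0, 1), (3, 22)], []⟩,
    ⟨1124, 128, 0, 192, 98, true, true, false, [(0, 1), (3, 12)], []⟩,
    ⟨1190, 128, 0, 192, 98, true, true, false, [(0, 1), (3, 12)], []⟩,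
    ⟨1264, 128, 0, 192, 98, true, true, false, [(0, 1), (3, 12)], []⟩,
    ⟨1347, 128, 0, 192, 98, true, true, false, [(0, 1), (3, 12)], []⟩,
    ⟨1430, 128, 0, 192, 98, true, true, false, [(0, 2), (3, 11)], []⟩,
    ⟨1503, 128, 0, 192, 98, true, true, false, [(0, 2), (3, 11)], []⟩,
    ⟨1585, 96, 0, 176, 88, true, true, false, [(0, 2), (3, 17)], []⟩,
    ⟨1667, 96, 0, 176, 88, true, true, false, [(0, 3), (3, 16)], []⟩,
    ⟨1731, 96, 0, 176, 88, true, true, false, [(0, 5), (3, 14)], []⟩,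
    ⟨1898, 48, 0, 176, 88, true, true, false, [(0, 30), (3, 8)], []⟩]⟩,
  ⟨127, 138, 11539, 12030, 44, [(230, 323, 1162268, 5087721, 5174169)], [⟨557, 160, 800, 40, 228, false, false, false, [(0, 1), (3, 21)], []⟩,
    ⟨802, 160, 800, 52, 202, false, false, false, [(0, 1), (3, 20)], []⟩,
    ⟨952, 128, 640, 176, 88, false, true, false, [(0, 1), (3, 14)], []⟩,
    ⟨1053, 160, 640, 176, 88, false, true, false, [(0, 1), (3, 11)], []⟩,
    ⟨1154, 128, 0, 208, 109, true, true, false, [(0, 1), (3, 11)], []⟩,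
    ⟨1242, 128, 0, 208, 109, true, true, false, [(0, 1), (3, 11)], []⟩,
    ⟨1330, 160, 0, 192, 98, true, true, false, [(0, 1), (3, 10)], []⟩,
    ⟨1429, 160, 0, 192, 98, true, true, false, [(0, 1), (3, 10)], []⟩,
    ⟨1553, 128, 0, 176, 88, true, true, false, [(0, 2), (3, 13)], []⟩,
    ⟨1662, 160, 0, 176, 88, true, true, false, [(0, 2), (3, 10)], []⟩,
    ⟨1757, 160, 0, 176, 88, true, true, false, [(0, 3), (3, 9)], []⟩,
    ⟨1840, 160, 0, 176, 88, true, true, false, [(0, 6), (3, 6)], []⟩,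
    ⟨1986, 160, 0, 176, 88, true, true, false, [(0, 12)], []⟩]⟩,
  ⟨139, 158, 12072, 12872, 4, [(230, 323, 1162268, 5181686, 5315129)], [⟨506, 160, 800, 36, 238, false, false, false, [(0, 1), (3, 23)], []⟩,
    ⟨807, 160, 800, 60, 196, false, false, false, [(0, 1), (3, 21)], []⟩,
    ⟨991, 160, 640, 160, 88, false, true, false, [(0, 1), (3, 13)], []⟩,
    ⟨1136, 160, 640, 160, 78, false, true, false, [(0, 1), (3, 13)], []⟩,
    ⟨1237, 160, 640, 160, 78, false, true, false, [(0, 1), (3, 13)], []⟩,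
    ⟨1316, 160, 640, 160, 78, false, true, false, [(0, 1), (3, 13)], []⟩,
    ⟨1405, 160, 0, 176, 88, true, true, false, [(0, 1), (3, 12)], []⟩,
    ⟨1528, 128, 0, 176, 88, true, true, false, [(0, 1), (3, 15)], []⟩,
    ⟨1647, 160, 0, 176, 88, true, true, false, [(0, 2), (3, 11)], []⟩,
    ⟨1751, 160, 0, 176, 88, true, true, false, [(0, 2), (3, 11)], []⟩,
    ⟨1851, 128, 0, 176, 88, true, true, false, [(0, 3), (3, 13)], []⟩,
    ⟨1930, 160, 0, 160, 78, true, true, false, [(0, 7), (3, 7)], []⟩,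
    ⟨2125, 160, 0, 160, 78, true, true, false, [(0, 14)], []⟩]⟩,
  ⟨159, 206, 12912, 14698, 0, [], [⟨491, 160, 800, 72, 213, false, false, false, [(0, 1), (3, 23)], []⟩,
    ⟨877, 160, 800, 72, 182, false, false, false, [(0, 1), (3, 23)], []⟩,
    ⟨1090, 160, 640, 72, 165, false, false, false, [(0, 1), (3, 23)], []⟩,
    ⟨1239, 160, 640, 160, 78, false, true, false, [(0, 1), (3, 15)], []⟩,
    ⟨1356, 160, 640, 160, 78, false, true, false, [(0, 1), (3, 15)], []⟩,
    ⟨1448, 160, 640, 160, 78, false, true, false, [(0, 1), (3, 15)], []⟩,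
    ⟨1529, 96, 0, 192, 98, true, true, false, [(0, 1), (3, 21)], []⟩,
    ⟨1593, 160, 0, 176, 88, true, true, false, [(0, 1), (3, 14)], []⟩,
    ⟨1665, 160, 0, 160, 78, true, true, false, [(0, 2), (3, 14)], []⟩,
    ⟨1746, 160, 0, 160, 78, true, true, false, [(0, 2), (3, 14)], []⟩,
    ⟨1827, 160, 0, 160, 78, true, true, false, [(0, 2), (3, 14)], []⟩,
    ⟨1898, 160, 0, 160, 78, true, true, false, [(0, 3), (3, 13)], []⟩,
    ⟨1954, 160, 0, 160, 78, true, true, false, [(0, 3), (3, 13)], []⟩,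
    ⟨1998, 160, 0, 160, 78, true, true, false, [(0, 4), (3, 12)], []⟩,
    ⟨2028, 160, 0, 160, 78, true, true, false, [(0, 7), (3, 9)], []⟩,
    ⟨2054, 160, 0, 160, 78, true, true, false, [(0, 14), (3, 2)], []⟩,
    ⟨2115, 160, 0, 160, 78, true, true, false, [(0, 16)], []⟩,
    ⟨2426, 160, 0, 160, 78, true, true, false, [(0, 16)], []⟩]⟩,
  ⟨207, 249, 14732, 16159, 0, [], [⟨601, 160, 800, 44, 236, false, false, false, [(0, 1), (3, 28)], []⟩,
    ⟨1180, 160, 800, 44, 196, false, false, false, [(0, 1), (3, 28)], []⟩,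
    ⟨1585, 160, 640, 96, 124, false, false, false, [(0, 1), (3, 23)], []⟩,
    ⟨1939, 160, 0, 176, 88, true, true, false, [(0, 1), (3, 15)], []⟩,
    ⟨2249, 160, 0, 160, 78, true, true, false, [(0, 2), (3, 16)], []⟩,
    ⟨2667, 160, 0, 144, 69, true, true, false, [(0, 7), (3, 13)], []⟩]⟩] = true := by
  decide +kernel

theorem lp_326 : rowsOK false 326 338 1024 1024 512 2048 0 [] 250 100 [
  ⟨100, 109, 10240, 10691, 512, [], [⟨1673, 32, 0, 176, 88, true, true, false, [(0, 53)], []⟩,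
    ⟨1727, 96, 0, 176, 88, true, true, false, [(0, 18)], []⟩,
    ⟨1795, 160, 0, 176, 88, true, true, false, [(0, 11)], []⟩,
    ⟨2009, 160, 0, 160, 78, true, true, false, [(0, 12)], []⟩,
    ⟨2614, 160, 0, 128, 60, true, true, false, [(0, 14)], []⟩,
    ⟨7058, 160, 0, 4, 2, true, true, false, [(0, 22)], []⟩]⟩,
  ⟨110, 119, 10739, 11171, 512, [], [⟨1779, 128, 0, 176, 88, true, true, false, [(0, 14)], []⟩,
    ⟨1885, 128, 0, 176, 88, true, true, false, [(0, 14)], []⟩,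
    ⟨2186, 128, 0, 144, 69, true, true, false, [(0, 17)], []⟩,
    ⟨3121, 160, 0, 104, 48, true, true, false, [(0, 16)], []⟩,
    ⟨7375, 160, 0, 0, 0, true, false, false, [(0, 24)], []⟩]⟩,
  ⟨120, 136, 11217, 11942, 512, [], [⟨1815, 160, 0, 176, 88, true, true, false, [(0, 12)], []⟩,
    ⟨1921, 160, 0, 160, 78, true, true, false, [(0, 13)], []⟩,
    ⟨2162, 160, 0, 160, 78, true, true, false, [(0, 13)], []⟩,
    ⟨2843, 160, 0, 120, 56, true, true, false, [(0, 16)], []⟩,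
    ⟨7884, 160, 0, 0, 0, true, false, false, [(0, 25)], []⟩]⟩,
  ⟨137, 164, 11985, 13114, 512, [], [⟨1945, 128, 0, 160, 78, true, true, false, [(0, 18)], []⟩,
    ⟨2066, 128, 0, 160, 78, true, true, false, [(0, 18)], []⟩,
    ⟨2317, 160, 0, 144, 69, true, true, false, [(0, 16)], []⟩,
    ⟨3168, 160, 0, 104, 48, true, true, false, [(0, 19)], []⟩,
    ⟨6800, 160, 0, 0, 0, true, false, false, [(0, 28)], []⟩,
    ⟨8658, 160, 0, 0, 0, true, false, false, [(0, 28)], []⟩]⟩,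
  ⟨165, 198, 13153, 14409, 512, [], [⟨2253, 160, 0, 160, 78, true, true, false, [(0, 16)], []⟩,
    ⟨2752, 160, 0, 128, 60, true, true, false, [(0, 19)], []⟩,
    ⟨5074, 160, 0, 32, 14, true, true, false, [(0, 27)], []⟩,
    ⟨9513, 160, 0, 0, 0, true, false, false, [(0, 30)], []⟩]⟩,
  ⟨199, 249, 14445, 16159, 512, [], [⟨2662, 128, 0, 144, 69, true, true, false, [(0, 24)], []⟩,
    ⟨3789, 160, 0, 88, 40, true, true, false, [(0, 25)], []⟩,
    ⟨8598, 160, 0, 0, 0, true, false, false, [(0, 34)], []⟩,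
    ⟨10668, 160, 0, 0, 0, true, false, false, [(0, 34)], []⟩]⟩] = true := by
  decide +kernel

theorem lo_338 : rowsOK false 338 350 1024 1024 0 512 0 [] 250 100 [
  ⟨100, 105, 10240, 10493, 73, [(246, 647, 1125686, 4839303, 4889969)], [⟨530, 160, 800, 24, 254, false, false, false, [(0, 1), (3, 20)], []⟩,
    ⟨690, 160, 640, 72, 198, false, false, false, [(0, 1), (3, 17)], []⟩,
    ⟨788, 128, 640, 88, 172, false, false, false, [(0, 1), (3, 20)], []⟩,
    ⟨874, 96, 576, 192, 98, false, true, false, [(0, 1), (3, 16)], []⟩,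
    ⟨934, 96, 480, 192, 98, false, true, false, [(0, 1), (3, 16)], []⟩,
    ⟨981, 96, 480, 192, 98, false, true, false, [(0, 1), (3, 16)], []⟩,
    ⟨1052, 64, 0, 208, 109, true, true, false, [(0, 1), (3, 22)], []⟩,
    ⟨1132, 64, 0, 208, 109, true, true, false, [(0, 1), (3, 22)], []⟩,
    ⟨1212, 64, 0, 208, 109, true, true, false, [(0, 1), (3, 22)], []⟩,
    ⟨1282, 96, 0, 192, 98, true, true, false, [(0, 1), (3, 16)], []⟩,
    ⟨1361, 96, 0, 192, 98, true, true, false, [(0, 2), (3, 15)], []⟩,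
    ⟨1440, 96, 0, 192, 98, true, true, false, [(0, 2), (3, 15)], []⟩,
    ⟨1519, 96, 0, 192, 98, true, true, false, [(0, 2), (3, 15)], []⟩,
    ⟨1581, 96, 0, 192, 98, true, true, false, [(0, 3), (3, 14)], []⟩,
    ⟨1630, 96, 0, 192, 98, true, true, false, [(0, 4), (3, 13)], []⟩,
    ⟨1657, 128, 0, 176, 88, true, true, false, [(0, 6), (3, 8)], []⟩,
    ⟨1687, 128, 0, 176, 88, true, true, false, [(0, 11), (3, 3)], []⟩,
    ⟨1794, 128, 0, 176, 88, true, true, false, [(0, 14)], []⟩]⟩,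
  ⟨106, 115, 10542, 10982, 43, [(246, 647, 1125686, 4899814, 4984499)], [⟨509, 160, 800, 40, 241, false, false, false, [(0, 1), (3, 20)], []⟩,
    ⟨686, 160, 640, 52, 220, false, false, false, [(0, 1), (3, 19)], []⟩,
    ⟨809, 128, 640, 88, 172, false, false, false, [(0, 1), (3, 21)], []⟩,
    ⟨884, 128, 640, 160, 100, false, true, false, [(0, 1), (3, 15)], []⟩,
    ⟨936, 128, 512, 176, 88, false, true, false, [(0, 1), (3, 14)], []⟩,
    ⟨977, 128, 512, 176, 88, false, true, false, [(0, 1), (3, 14)], []⟩,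
    ⟨1005, 128, 0, 208, 109, true, true, false, [(0, 1), (3, 11)], []⟩,
    ⟨1040, 128, 0, 208, 109, true, true, false, [(0, 1), (3, 11)], []⟩,
    ⟨1084, 128, 0, 208, 109, true, true, false, [(0, 1), (3, 11)], []⟩,
    ⟨1133, 128, 0, 208, 109, true, true, false, [(0, 1), (3, 11)], []⟩,
    ⟨1188, 128, 0, 208, 109, true, true, false, [(0, 1), (3, 11)], []⟩,
    ⟨1243, 128, 0, 208, 109, true, true, false, [(0, 1), (3, 11)], []⟩,
    ⟨1291, 128, 0, 208, 109, true, true, false, [(0, 1), (3, 11)], []⟩,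
    ⟨1333, 128, 0, 208, 109, true, true, false, [(0, 1), (3, 11)], []⟩,
    ⟨1386, 96, 0, 192, 98, true, true, false, [(0, 2), (3, 16)], []⟩,
    ⟨1439, 96, 0, 192, 98, true, true, false, [(0, 2), (3, 16)], []⟩,
    ⟨1492, 96, 0, 192, 98, true, true, false, [(0, 2), (3, 16)], []⟩,
    ⟨1538, 96, 0, 192, 98, true, true, false, [(0, 2), (3, 16)], []⟩,
    ⟨1578, 96, 0, 192, 98, true, true, false, [(0, 2), (3, 16)], []⟩,
    ⟨1609, 96, 0, 192, 98, true, true, false, [(0, 3), (3, 15)], []⟩,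
    ⟨1656, 48, 0, 176, 88, true, true, false, [(0, 3), (3, 36)], []⟩,
    ⟨1703, 48, 0, 176, 88, true, true, false, [(0, 5), (3, 34)], []⟩,
    ⟨1748, 48, 0, 176, 88, true, true, false, [(0, 19), (3, 20)], []⟩,
    ⟨1877, 48, 0, 176, 88, true, true, false, [(0, 39)], []⟩]⟩,
  ⟨116, 126, 11028, 11495, 14, [(246, 647, 1125686, 4993499, 5079496)], [⟨485, 160, 800, 40, 245, false, false, false, [(0, 1), (3, 21)], []⟩,
    ⟨752, 128, 768, 88, 180, false, false, false, [(0, 1), (3, 22)], []⟩,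
    ⟨899, 160, 640, 80, 174, false, false, false, [(0, 1), (3, 18)], []⟩,
    ⟨1001, 128, 512, 192, 98, false, true, false, [(0, 1), (3, 13)], []⟩,
    ⟨1081, 128, 512, 192, 98, false, true, false, [(0, 1), (3, 13)], []⟩,
    ⟨1135, 160, 0, 208, 109, true, true, false, [(0, 1), (3, 9)], []⟩,
    ⟨1196, 160, 0, 208, 109, true, true, false, [(0, 1), (3, 9)], []⟩,
    ⟨1280, 128, 0, 192, 98, true, true, false, [(0, 1), (3, 13)], []⟩,
    ⟨1374, 128, 0, 192, 98, true, true, false, [(0, 1), (3, 13)], []⟩,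
    ⟨1480, 128, 0, 192, 98, true, true, false, [(0, 2), (3, 12)], []⟩,
    ⟨1582, 128, 0, 192, 98, true, true, false, [(0, 2), (3, 12)], []⟩,
    ⟨1653, 128, 0, 192, 98, true, true, false, [(0, 2), (3, 12)], []⟩,
    ⟨1702, 128, 0, 192, 98, true, true, false, [(0, 3), (3, 11)], []⟩,
    ⟨1776, 64, 0, 176, 88, true, true, false, [(0, 4), (3, 27)], []⟩,
    ⟨1850, 64, 0, 176, 88, true, true, false, [(0, 14), (3, 17)], []⟩,
    ⟨1965, 160, 0, 176, 88, true, true, false, [(0, 13)], []⟩]⟩,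
  ⟨127, 144, 11539, 12288, 0, [], [⟨436, 160, 800, 44, 247, false, false, false, [(0, 1), (3, 22)], []⟩,
    ⟨741, 160, 800, 44, 227, false, false, false, [(0, 1), (3, 22)], []⟩,
    ⟨928, 160, 640, 72, 183, false, false, false, [(0, 1), (3, 20)], []⟩,
    ⟨1043, 160, 640, 192, 98, false, true, false, [(0, 1), (3, 11)], []⟩,
    ⟨1123, 160, 480, 192, 98, false, true, false, [(0, 1), (3, 11)], []⟩,
    ⟨1186, 160, 0, 208, 109, true, true, false, [(0, 1), (3, 10)], []⟩,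
    ⟨1257, 160, 0, 192, 98, true, true, false, [(0, 1), (3, 11)], []⟩,
    ⟨1346, 160, 0, 192, 98, true, true, false, [(0, 1), (3, 11)], []⟩,
    ⟨1446, 160, 0, 192, 98, true, true, false, [(0, 1), (3, 11)], []⟩,
    ⟨1546, 160, 0, 192, 98, true, true, false, [(0, 2), (3, 10)], []⟩,
    ⟨1634, 160, 0, 192, 98, true, true, false, [(0, 2), (3, 10)], []⟩,
    ⟨1695, 160, 0, 192, 98, true, true, false, [(0, 2), (3, 10)], []⟩,
    ⟨1787, 96, 0, 176, 88, true, true, false, [(0, 3), (3, 19)], []⟩,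
    ⟨1859, 96, 0, 176, 88, true, true, false, [(0, 4), (3, 18)], []⟩,
    ⟨1922, 96, 0, 176, 88, true, true, false, [(0, 12), (3, 10)], []⟩,
    ⟨2101, 128, 0, 160, 78, true, true, false, [(0, 18)], []⟩]⟩,
  ⟨145, 174, 12330, 13508, 0, [], [⟨491, 160, 800, 48, 240, false, false, false, [(0, 1), (3, 24)], []⟩,
    ⟨834, 160, 800, 72, 195, false, false, false, [(0, 1), (3, 22)], []⟩,
    ⟨1074, 160, 800, 72, 175, false, false, false, [(0, 1), (3, 22)], []⟩,
    ⟨1242, 128, 640, 176, 88, false, true, false, [(0, 1), (3, 17)], []⟩,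
    ⟨1359, 128, 512, 176, 88, false, true, false, [(0, 1), (3, 17)], []⟩,
    ⟨1505, 96, 0, 192, 98, true, true, false, [(0, 1), (3, 21)], []⟩,
    ⟨1651, 128, 0, 176, 88, true, true, false, [(0, 2), (3, 16)], []⟩,
    ⟨1797, 128, 0, 176, 88, true, true, false, [(0, 2), (3, 16)], []⟩,
    ⟨1912, 128, 0, 176, 88, true, true, false, [(0, 3), (3, 15)], []⟩,
    ⟨1992, 128, 0, 176, 88, true, true, false, [(0, 4), (3, 14)], []⟩,
    ⟨2036, 128, 0, 176, 88, true, true, false, [(0, 12), (3, 6)], []⟩,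
    ⟨2309, 160, 0, 160, 78, true, true, false, [(0, 16)], []⟩]⟩,
  ⟨175, 249, 13546, 16159, 0, [], [⟨546, 160, 800, 80, 214, false, false, false, [(0, 1), (3, 26)], []⟩,
    ⟨976, 160, 800, 80, 181, false, false, false, [(0, 1), (3, 26)], []⟩,
    ⟨1277, 160, 640, 88, 158, false, false, false, [(0, 1), (3, 25)], []⟩,
    ⟨1461, 160, 640, 128, 104, false, true, false, [(0, 1), (3, 21)], []⟩,
    ⟨1589, 160, 640, 160, 78, false, true, false, [(0, 1), (3, 18)], []⟩,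
    ⟨1717, 128, 0, 176, 88, true, true, false, [(0, 1), (3, 21)], []⟩,
    ⟨1845, 128, 0, 176, 88, true, true, false, [(0, 2), (3, 20)], []⟩,
    ⟨1946, 160, 0, 160, 78, true, true, false, [(0, 2), (3, 17)], []⟩,
    ⟨2034, 160, 0, 160, 78, true, true, false, [(0, 2), (3, 17)], []⟩,
    ⟨2095, 160, 0, 160, 78, true, true, false, [(0, 3), (3, 16)], []⟩,
    ⟨2137, 160, 0, 160, 78, true, true, false, [(0, 4), (3, 15)], []⟩,
    ⟨2166, 160, 0, 160, 78, true, true, false, [(0, 5), (3, 14)], []⟩,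
    ⟨2184, 160, 0, 160, 78, true, true, false, [(0, 6), (3, 13)], []⟩,
    ⟨2219, 64, 0, 160, 78, true, true, false, [(0, 12), (3, 35)], []⟩,
    ⟨2250, 64, 0, 160, 78, true, true, false, [(0, 47)], []⟩,
    ⟨2285, 160, 0, 160, 78, true, true, false, [(0, 19)], []⟩,
    ⟨2762, 160, 0, 160, 78, true, true, false, [(0, 19)], []⟩]⟩] = true := by
  decide +kernel

theorem lp_338 : rowsOK false 338 350 1024 1024 512 2048 0 [] 250 100 [
  ⟨100, 109, 10240, 10691, 512, [], [⟨1720, 96, 0, 176, 88, true, true, false, [(0, 19)], []⟩,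
    ⟨1799, 96, 0, 176, 88, true, true, false, [(0, 19)], []⟩,
    ⟨1948, 96, 0, 160, 78, true, true, false, [(0, 21)], []⟩,
    ⟨2370, 128, 0, 144, 69, true, true, false, [(0, 17)], []⟩,
    ⟨4156, 160, 0, 44, 19, true, true, false, [(0, 20)], []⟩,
    ⟨7309, 160, 0, 0, 0, true, false, false, [(0, 23)], []⟩]⟩,
  ⟨110, 119, 10739, 11171, 512, [], [⟨1858, 160, 0, 176, 88, true, true, false, [(0, 12)], []⟩,
    ⟨2078, 160, 0, 160, 78, true, true, false, [(0, 13)], []⟩,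
    ⟨2637, 160, 0, 120, 56, true, true, false, [(0, 16)], []⟩,
    ⟨5378, 160, 0, 0, 0, true, false, false, [(0, 24)], []⟩,
    ⟨7637, 160, 0, 0, 0, true, false, false, [(0, 24)], []⟩]⟩,
  ⟨120, 136, 11217, 11942, 512, [], [⟨1913, 128, 0, 176, 88, true, true, false, [(0, 16)], []⟩,
    ⟨2073, 160, 0, 160, 78, true, true, false, [(0, 14)], []⟩,
    ⟨2481, 128, 0, 144, 69, true, true, false, [(0, 19)], []⟩,
    ⟨4035, 160, 0, 64, 28, true, true, false, [(0, 21)], []⟩,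
    ⟨8164, 160, 0, 0, 0, true, false, false, [(0, 26)], []⟩]⟩,
  ⟨137, 156, 11985, 12790, 512, [], [⟨2153, 160, 0, 160, 78, true, true, false, [(0, 15)], []⟩,
    ⟨2551, 160, 0, 120, 56, true, true, false, [(0, 18)], []⟩,
    ⟨4236, 160, 0, 56, 25, true, true, false, [(0, 23)], []⟩,
    ⟨8744, 160, 0, 0, 0, true, false, false, [(0, 28)], []⟩]⟩,
  ⟨157, 204, 12830, 14626, 512, [], [⟨2206, 160, 0, 160, 78, true, true, false, [(0, 17)], []⟩,
    ⟨2459, 128, 0, 144, 69, true, true, false, [(0, 23)], []⟩,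
    ⟨3245, 160, 0, 104, 48, true, true, false, [(0, 22)], []⟩,
    ⟨7098, 160, 0, 0, 0, true, false, false, [(0, 32)], []⟩,
    ⟨9999, 160, 0, 0, 0, true, false, false, [(0, 32)], []⟩]⟩,
  ⟨205, 249, 14661, 16159, 512, [], [⟨3020, 160, 0, 128, 60, true, true, false, [(0, 22)], []⟩,
    ⟨5561, 160, 0, 36, 16, true, true, false, [(0, 31)], []⟩,
    ⟨11047, 160, 0, 0, 0, true, false, false, [(0, 35)], []⟩]⟩] = true := by
  decide +kernel

end Pool.Agent.Lib.MP_af3a4a_an.P1.CHK.H58.G
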