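import Pool.Agent.Lib.MP_af3a4a_an.P1.CHK.H58.GX

/-!
# Rows for small R, part 3 (generated, helper58)
-/

set_option autoImplicit false

namespace Pool.Agent.Lib.MP_af3a4a_an.P1.CHK.H58.G

theorem lo_350 : rowsOK false 350 366 1024 1024 0 512 0 [] 250 100 [
  ⟨100, 102, 10240, 10342, 0, [], [⟨400, 160, 800, 36, 267, false, false, false, [(0, 1), (3, 20)], []⟩,
    ⟨645, 160, 800, 52, 227, false, false, false, [(0, 1), (3, 19)], []⟩,
    ⟨780, 160, 640, 72, 201, false, false, false, [(0, 1), (3, 18)], []⟩,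
    ⟨886, 96, 576, 176, 94, false, true, false, [(0, 1), (3, 19)], []⟩,
    ⟨960, 96, 576, 176, 88, false, true, false, [(0, 1), (3, 19)], []⟩,
    ⟨1018, 96, 0, 224, 120, true, true, false, [(0, 1), (3, 14)], []⟩,
    ⟨1083, 96, 0, 224, 120, true, true, false, [(0, 1), (3, 14)], []⟩,
    ⟨1140, 96, 0, 224, 120, true, true, false, [(0, 1), (3, 14)], []⟩,
    ⟨1226, 64, 0, 208, 109, true, true, false, [(0, 1), (3, 24)], []⟩,
    ⟨1312, 64, 0, 208, 109, true, true, false, [(0, 1), (3, 24)], []⟩,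
    ⟨1398, 64, 0, 208, 109, true, true, false, [(0, 2), (3, 23)], []⟩,
    ⟨1435, 160, 0, 192, 98, true, true, false, [(0, 2), (3, 9)], []⟩,
    ⟨1476, 160, 0, 192, 98, true, true, false, [(0, 2), (3, 9)], []⟩,
    ⟨1522, 160, 0, 192, 98, true, true, false, [(0, 2), (3, 9)], []⟩,
    ⟨1567, 160, 0, 192, 98, true, true, false, [(0, 2), (3, 9)], []⟩,
    ⟨1606, 160, 0, 192, 98, true, true, false, [(0, 3), (3, 8)], []⟩,
    ⟨1640, 160, 0, 192, 98, true, true, false, [(0, 3), (3, 8)], []⟩,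
    ⟨1670, 160, 0, 192, 98, true, true, false, [(0, 4), (3, 7)], []⟩,
    ⟨1693, 160, 0, 192, 98, true, true, false, [(0, 5), (3, 6)], []⟩,
    ⟨1716, 128, 0, 176, 88, true, true, false, [(0, 6), (3, 9)], []⟩,
    ⟨1742, 96, 0, 176, 88, true, true, false, [(0, 12), (3, 8)], []⟩,
    ⟨1803, 160, 0, 176, 88, true, true, false, [(0, 12)], []⟩,
    ⟨1849, 160, 0, 176, 88, true, true, false, [(0, 12)], []⟩]⟩,
  ⟨103, 108, 10392, 10642, 0, [], [⟨436, 160, 800, 28, 272, false, false, false, [(0, 1), (3, 21)], []⟩,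
    ⟨676, 160, 800, 60, 224, false, false, false, [(0, 1), (3, 19)], []⟩,
    ⟨808, 160, 640, 80, 191, false, false, false, [(0, 1), (3, 18)], []⟩,
    ⟨881, 160, 640, 120, 152, false, false, false, [(0, 1), (3, 15)], []⟩,
    ⟨926, 160, 640, 120, 147, false, false, false, [(0, 1), (3, 15)], []⟩,
    ⟨971, 96, 576, 192, 98, false, true, false, [(0, 1), (3, 18)], []⟩,
    ⟨1006, 96, 576, 192, 98, false, true, false, [(0, 1), (3, 18)], []⟩,
    ⟨1050, 48, 0, 224, 120, true, true, false, [(0, 1), (3, 30)], []⟩,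
    ⟨1074, 128, 0, 208, 109, true, true, false, [(0, 1), (3, 12)], []⟩,
    ⟨1104, 128, 0, 208, 109, true, true, false, [(0, 1), (3, 12)], []⟩,
    ⟨1138, 128, 0, 208, 109, true, true, false, [(0, 1), (3, 12)], []⟩,
    ⟨1176, 128, 0, 208, 109, true, true, false, [(0, 1), (3, 12)], []⟩,
    ⟨1219, 128, 0, 208, 109, true, true, false, [(0, 1), (3, 12)], []⟩,
    ⟨1267, 128, 0, 208, 109, true, true, false, [(0, 1), (3, 12)], []⟩,
    ⟨1315, 128, 0, 208, 109, true, true, false, [(0, 1), (3, 12)], []⟩,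
    ⟨1363, 128, 0, 208, 109, true, true, false, [(0, 2), (3, 11)], []⟩,
    ⟨1405, 128, 0, 208, 109, true, true, false, [(0, 2), (3, 11)], []⟩,
    ⟨1458, 96, 0, 192, 98, true, true, false, [(0, 2), (3, 17)], []⟩,
    ⟨1511, 96, 0, 192, 98, true, true, false, [(0, 2), (3, 17)], []⟩,
    ⟨1564, 96, 0, 192, 98, true, true, false, [(0, 2), (3, 17)], []⟩,
    ⟨1610, 96, 0, 192, 98, true, true, false, [(0, 2), (3, 17)], []⟩,
    ⟨1650, 96, 0, 192, 98, true, true, false, [(0, 3), (3, 16)], []⟩,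
    ⟨1681, 96, 0, 192, 98, true, true, false, [(0, 3), (3, 16)], []⟩,
    ⟨1705, 96, 0, 192, 98, true, true, false, [(0, 4), (3, 15)], []⟩,
    ⟨1721, 96, 0, 192, 98, true, true, false, [(0, 5), (3, 14)], []⟩,
    ⟨1733, 96, 0, 192, 98, true, true, false, [(0, 6), (3, 13)], []⟩,
    ⟨1747, 64, 0, 176, 88, true, true, false, [(0, 9), (3, 22)], []⟩,
    ⟨1759, 64, 0, 176, 88, true, true, false, [(0, 15), (3, 16)], []⟩,
    ⟨1773, 64, 0, 176, 88, true, true, false, [(0, 29), (3, 2)], []⟩,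
    ⟨1821, 64, 0, 176, 88, true, true, false, [(0, 31)], []⟩,
    ⟨1902, 128, 0, 176, 88, true, true, false, [(0, 16)], []⟩]⟩,
  ⟨109, 114, 10690, 10934, 0, [], [⟨436, 160, 800, 40, 261, false, false, false, [(0, 1), (3, 21)], []⟩,
    ⟨703, 160, 800, 52, 231, false, false, false, [(0, 1), (3, 20)], []⟩,
    ⟨867, 160, 640, 72, 195, false, false, false, [(0, 1), (3, 19)], []⟩,
    ⟨957, 160, 640, 112, 154, false, false, false, [(0, 1), (3, 16)], []⟩,
    ⟨1036, 128, 640, 176, 88, false, true, false, [(0, 1), (3, 15)], []⟩,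
    ⟨1091, 128, 512, 176, 88, false, true, false, [(0, 1), (3, 15)], []⟩,
    ⟨1134, 128, 0, 224, 120, true, true, false, [(0, 1), (3, 11)], []⟩,
    ⟨1188, 96, 0, 208, 109, true, true, false, [(0, 1), (3, 17)], []⟩,
    ⟨1249, 96, 0, 208, 109, true, true, false, [(0, 1), (3, 17)], []⟩,
    ⟨1278, 160, 0, 208, 109, true, true, false, [(0, 1), (3, 10)], []⟩,
    ⟨1310, 160, 0, 208, 109, true, true, false, [(0, 1), (3, 10)], []⟩,
    ⟨1342, 160, 0, 208, 109, true, true, false, [(0, 1), (3, 10)], []⟩,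
    ⟨1373, 160, 0, 208, 109, true, true, false, [(0, 1), (3, 10)], []⟩,
    ⟨1404, 160, 0, 192, 98, true, true, false, [(0, 2), (3, 10)], []⟩,
    ⟨1439, 160, 0, 192, 98, true, true, false, [(0, 2), (3, 10)], []⟩,
    ⟨1478, 160, 0, 192, 98, true, true, false, [(0, 2), (3, 10)], []⟩,
    ⟨1537, 96, 0, 192, 98, true, true, false, [(0, 2), (3, 18)], []⟩,
    ⟨1578, 160, 0, 192, 98, true, true, false, [(0, 2), (3, 10)], []⟩,
    ⟨1618, 160, 0, 192, 98, true, true, false, [(0, 2), (3, 10)], []⟩,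
    ⟨1653, 160, 0, 192, 98, true, true, false, [(0, 2), (3, 10)], []⟩,
    ⟨1697, 128, 0, 176, 88, true, true, false, [(0, 3), (3, 13)], []⟩,
    ⟨1741, 128, 0, 176, 88, true, true, false, [(0, 4), (3, 12)], []⟩,
    ⟨1775, 128, 0, 176, 88, true, true, false, [(0, 5), (3, 11)], []⟩,
    ⟨1808, 128, 0, 176, 88, true, true, false, [(0, 8), (3, 8)], []⟩,
    ⟨1858, 128, 0, 176, 88, true, true, false, [(0, 16)], []⟩,
    ⟨1955, 160, 0, 176, 88, true, true, false, [(0, 13)], []⟩]⟩,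
  ⟨115, 120, 10981, 11218, 0, [], [⟨436, 160, 800, 32, 269, false, false, false, [(0, 1), (3, 22)], []⟩,
    ⟨741, 160, 800, 60, 221, false, false, false, [(0, 1), (3, 20)], []⟩,
    ⟨928, 160, 640, 80, 183, false, false, false, [(0, 1), (3, 19)], []⟩,
    ⟨1043, 128, 512, 192, 98, false, true, false, [(0, 1), (3, 14)], []⟩,
    ⟨1133, 128, 512, 192, 98, false, true, false, [(0, 1), (3, 14)], []⟩,
    ⟨1194, 160, 0, 208, 109, true, true, false, [(0, 1), (3, 10)], []⟩,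
    ⟨1262, 160, 0, 208, 109, true, true, false, [(0, 1), (3, 10)], []⟩,
    ⟨1338, 160, 0, 208, 109, true, true, false, [(0, 1), (3, 10)], []⟩,
    ⟨1443, 128, 0, 192, 98, true, true, false, [(0, 1), (3, 14)], []⟩,
    ⟨1544, 160, 0, 192, 98, true, true, false, [(0, 2), (3, 10)], []⟩,
    ⟨1645, 160, 0, 192, 98, true, true, false, [(0, 2), (3, 10)], []⟩,
    ⟨1742, 128, 0, 192, 98, true, true, false, [(0, 3), (3, 12)], []⟩,
    ⟨1808, 128, 0, 192, 98, true, true, false, [(0, 4), (3, 11)], []⟩,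
    ⟨1872, 96, 0, 176, 88, true, true, false, [(0, 8), (3, 14)], []⟩,
    ⟨2005, 96, 0, 176, 88, true, true, false, [(0, 22)], []⟩]⟩,
  ⟨121, 131, 11264, 11721, 0, [], [⟨436, 160, 800, 32, 270, false, false, false, [(0, 1), (3, 23)], []⟩,
    ⟨741, 160, 800, 32, 242, false, false, false, [(0, 1), (3, 23)], []⟩,
    ⟨954, 160, 640, 88, 175, false, false, false, [(0, 1), (3, 19)], []⟩,
    ⟨1084, 160, 640, 88, 163, false, false, false, [(0, 1), (3, 19)], []⟩,
    ⟨1172, 128, 640, 176, 88, false, true, false, [(0, 1), (3, 16)], []⟩,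
    ⟨1271, 96, 0, 208, 109, true, true, false, [(0, 1), (3, 18)], []⟩,
    ⟨1382, 96, 0, 208, 109, true, true, false, [(0, 1), (3, 18)], []⟩,
    ⟨1493, 96, 0, 192, 98, true, true, false, [(0, 1), (3, 20)], []⟩,
    ⟨1604, 96, 0, 192, 98, true, true, false, [(0, 2), (3, 19)], []⟩,
    ⟨1711, 96, 0, 192, 98, true, true, false, [(0, 2), (3, 19)], []⟩,
    ⟨1795, 128, 0, 176, 88, true, true, false, [(0, 3), (3, 14)], []⟩,
    ⟨1879, 128, 0, 176, 88, true, true, false, [(0, 4), (3, 13)], []⟩,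
    ⟨1963, 128, 0, 176, 88, true, true, false, [(0, 11), (3, 6)], []⟩,
    ⟨2095, 160, 0, 160, 78, true, true, false, [(0, 15)], []⟩]⟩,
  ⟨132, 143, 11764, 12246, 0, [], [⟨491, 160, 800, 32, 266, false, false, false, [(0, 1), (3, 24)], []⟩,
    ⟨834, 160, 800, 60, 216, false, false, false, [(0, 1), (3, 22)], []⟩,
    ⟨1074, 160, 640, 112, 151, false, false, false, [(0, 1), (3, 18)], []⟩,
    ⟨1221, 160, 640, 112, 138, false, false, false, [(0, 1), (3, 18)], []⟩,
    ⟨1337, 160, 0, 208, 109, true, true, false, [(0, 1), (3, 11)], []⟩,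
    ⟨1453, 160, 0, 208, 109, true, true, false, [(0, 1), (3, 11)], []⟩,
    ⟨1613, 96, 0, 192, 98, true, true, false, [(0, 2), (3, 20)], []⟩,
    ⟨1739, 128, 0, 176, 88, true, true, false, [(0, 2), (3, 16)], []⟩,
    ⟨1865, 128, 0, 176, 88, true, true, false, [(0, 2), (3, 16)], []⟩,
    ⟨1975, 128, 0, 176, 88, true, true, false, [(0, 4), (3, 14)], []⟩,
    ⟨2189, 96, 0, 176, 88, true, true, false, [(0, 17), (3, 7)], []⟩]⟩,
  ⟨144, 172, 12288, 13430, 0, [], [⟨491, 160, 800, 52, 247, false, false, false, [(0, 1), (3, 25)], []⟩,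
    ⟨877, 160, 800, 52, 223, false, false, false, [(0, 1), (3, 25)], []⟩,
    ⟨1137, 160, 800, 64, 189, false, false, false, [(0, 1), (3, 24)], []⟩,
    ⟨1296, 160, 640, 160, 88, false, true, false, [(0, 1), (3, 16)], []⟩,
    ⟨1407, 160, 640, 160, 79, false, true, false, [(0, 1), (3, 16)], []⟩,
    ⟨1532, 128, 0, 192, 98, true, true, false, [(0, 1), (3, 17)], []⟩,
    ⟨1657, 128, 0, 192, 98, true, true, false, [(0, 2), (3, 16)], []⟩,
    ⟨1766, 128, 0, 192, 98, true, true, false, [(0, 2), (3, 16)], []⟩,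
    ⟨1861, 160, 0, 176, 88, true, true, false, [(0, 2), (3, 14)], []⟩,
    ⟨1944, 160, 0, 176, 88, true, true, false, [(0, 3), (3, 13)], []⟩,
    ⟨2037, 96, 0, 176, 88, true, true, false, [(0, 4), (3, 22)], []⟩,
    ⟨2094, 96, 0, 176, 88, true, true, false, [(0, 10), (3, 16)], []⟩,
    ⟨2401, 160, 0, 160, 78, true, true, false, [(0, 17)], []⟩]⟩,
  ⟨173, 224, 13468, 15326, 0, [], [⟨546, 160, 800, 72, 226, false, false, false, [(0, 1), (3, 27)], []⟩,
    ⟨1024, 160, 800, 80, 189, false, false, false, [(0, 1), (3, 26)], []⟩,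
    ⟨1358, 160, 640, 80, 164, false, false, false, [(0, 1), (3, 26)], []⟩,
    ⟨1591, 160, 640, 112, 122, false, false, false, [(0, 1), (3, 23)], []⟩,
    ⟨1816, 160, 0, 176, 88, true, true, false, [(0, 1), (3, 17)], []⟩,
    ⟨2033, 160, 0, 176, 88, true, true, false, [(0, 2), (3, 16)], []⟩,
    ⟨2166, 160, 0, 176, 88, true, true, false, [(0, 3), (3, 15)], []⟩,
    ⟨2231, 160, 0, 160, 78, true, true, false, [(0, 4), (3, 16)], []⟩,
    ⟨2354, 64, 0, 160, 78, true, true, false, [(0, 12), (3, 37)], []⟩,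
    ⟨2739, 160, 0, 144, 69, true, true, false, [(0, 21)], []⟩]⟩,
  ⟨225, 249, 15360, 16159, 0, [], [⟨656, 160, 800, 44, 250, false, false, false, [(0, 1), (3, 31)], []⟩,
    ⟨1394, 160, 800, 72, 181, false, false, false, [(0, 1), (3, 28)], []⟩,
    ⟨1975, 160, 640, 104, 118, false, false, false, [(0, 1), (3, 25)], []⟩,
    ⟨2556, 160, 0, 160, 78, true, true, false, [(0, 2), (3, 19)], []⟩,
    ⟨2888, 160, 0, 128, 60, true, true, false, [(0, 10), (3, 14)], []⟩]⟩] = true := by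
  decide +kernel

theorem lp_350 : rowsOK false 350 366 1024 1024 512 2048 0 [] 250 100 [
  ⟨100, 102, 10240, 10342, 512, [], [⟨1828, 160, 0, 176, 88, true, true, false, [(0, 12)], []⟩,
    ⟨2006, 160, 0, 176, 88, true, true, false, [(0, 12)], []⟩,
    ⟨2459, 128, 0, 144, 69, true, true, false, [(0, 18)], []⟩,
    ⟨4760, 160, 0, 36, 16, true, true, false, [(0, 21)], []⟩,
    ⟨7393, 160, 0, 0, 0, true, false, false, [(0, 24)], []⟩]⟩,
  ⟨103, 108, 10392, 10642, 512, [], [⟨1824, 64, 0, 176, 88, true, true, false, [(0, 31)], []⟩,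
    ⟨1917, 96, 0, 176, 88, true, true, false, [(0, 21)], []⟩,
    ⟨2182, 128, 0, 160, 78, true, true, false, [(0, 17)], []⟩,
    ⟨2930, 160, 0, 120, 56, true, true, false, [(0, 16)], []⟩,
    ⟨7608, 160, 0, 0, 0, true, false, false, [(0, 24)], []⟩]⟩,
  ⟨109, 118, 10690, 11124, 512, [], [⟨1850, 160, 0, 176, 88, true, true, false, [(0, 13)], []⟩,
    ⟨1921, 160, 0, 176, 88, true, true, false, [(0, 13)], []⟩,
    ⟨2124, 160, 0, 160, 78, true, true, false, [(0, 14)], []⟩,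
    ⟨2583, 160, 0, 120, 56, true, true, false, [(0, 17)], []⟩,
    ⟨5206, 160, 0, 28, 12, true, true, false, [(0, 23)], []⟩,
    ⟨7952, 160, 0, 0, 0, true, false, false, [(0, 25)], []⟩]⟩,
  ⟨119, 135, 11170, 11898, 512, [], [⟨1951, 96, 0, 176, 88, true, true, false, [(0, 23)], []⟩,
    ⟨2010, 160, 0, 176, 88, true, true, false, [(0, 14)], []⟩,
    ⟨2213, 160, 0, 160, 78, true, true, false, [(0, 15)], []⟩,
    ⟨2787, 160, 0, 120, 56, true, true, false, [(0, 18)], []⟩,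
    ⟨5602, 160, 0, 8, 4, true, true, false, [(0, 26)], []⟩,
    ⟨8506, 160, 0, 0, 0, true, false, false, [(0, 27)], []⟩]⟩,
  ⟨136, 163, 11941, 13074, 512, [], [⟨2074, 128, 0, 176, 88, true, true, false, [(0, 19)], []⟩,
    ⟨2208, 48, 0, 160, 78, true, true, false, [(0, 55)], []⟩,
    ⟨2550, 160, 0, 144, 69, true, true, false, [(0, 18)], []⟩,
    ⟨3709, 160, 0, 80, 36, true, true, false, [(0, 23)], []⟩,
    ⟨9346, 160, 0, 0, 0, true, false, false, [(0, 30)], []⟩]⟩,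
  ⟨164, 213, 13113, 14945, 512, [], [⟨2352, 160, 0, 160, 78, true, true, false, [(0, 19)], []⟩,
    ⟨2585, 160, 0, 144, 69, true, true, false, [(0, 21)], []⟩,
    ⟨3376, 160, 0, 104, 48, true, true, false, [(0, 24)], []⟩,
    ⟨6752, 160, 0, 0, 0, true, false, false, [(0, 34)], []⟩,
    ⟨10684, 160, 0, 0, 0, true, false, false, [(0, 34)], []⟩]⟩,
  ⟨214, 249, 14979, 16159, 512, [], [⟨3297, 160, 0, 128, 60, true, true, false, [(0, 24)], []⟩,
    ⟨8446, 160, 0, 4, 2, true, true, false, [(0, 36)], []⟩,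
    ⟨11552, 160, 0, 0, 0, true, false, false, [(0, 37)], []⟩]⟩] = true := by
  decide +kernel

theorem lo_366 : rowsOK false 366 382 1024 1024 0 512 0 [] 250 100 [
  ⟨100, 105, 10240, 10493, 0, [], [⟨436, 160, 800, 40, 276, false, false, false, [(0, 1), (3, 21)], []⟩,
    ⟨703, 160, 800, 56, 233, false, false, false, [(0, 1), (3, 20)], []⟩,
    ⟨850, 160, 640, 72, 210, false, false, false, [(0, 1), (3, 19)], []⟩,
    ⟨940, 160, 640, 88, 185, false, false, false, [(0, 1), (3, 18)], []⟩,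
    ⟨995, 160, 640, 104, 171, false, false, false, [(0, 1), (3, 17)], []⟩,
    ⟨1048, 96, 576, 176, 94, false, true, false, [(0, 1), (3, 21)], []⟩,
    ⟨1107, 48, 0, 224, 120, true, true, false, [(0, 1), (3, 33)], []⟩,
    ⟨1147, 96, 0, 224, 120, true, true, false, [(0, 1), (3, 16)], []⟩,
    ⟨1187, 128, 0, 208, 109, true, true, false, [(0, 1), (3, 13)], []⟩,
    ⟨1237, 128, 0, 208, 109, true, true, false, [(0, 1), (3, 13)], []⟩,
    ⟨1293, 128, 0, 208, 109, true, true, false, [(0, 1), (3, 13)], []⟩,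
    ⟨1356, 128, 0, 208, 109, true, true, false, [(0, 1), (3, 13)], []⟩,
    ⟨1419, 128, 0, 208, 109, true, true, false, [(0, 2), (3, 12)], []⟩,
    ⟨1482, 128, 0, 208, 109, true, true, false, [(0, 2), (3, 12)], []⟩,
    ⟨1537, 128, 0, 208, 109, true, true, false, [(0, 2), (3, 12)], []⟩,
    ⟨1575, 128, 0, 208, 109, true, true, false, [(0, 2), (3, 12)], []⟩,
    ⟨1605, 128, 0, 208, 109, true, true, false, [(0, 2), (3, 12)], []⟩,
    ⟨1651, 64, 0, 192, 98, true, true, false, [(0, 3), (3, 28)], []⟩,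
    ⟨1703, 48, 0, 192, 98, true, true, false, [(0, 3), (3, 38)], []⟩,
    ⟨1739, 64, 0, 192, 98, true, true, false, [(0, 4), (3, 27)], []⟩,
    ⟨1767, 64, 0, 192, 98, true, true, false, [(0, 5), (3, 26)], []⟩,
    ⟨1798, 48, 0, 192, 98, true, true, false, [(0, 7), (3, 34)], []⟩,
    ⟨1829, 32, 0, 192, 98, true, true, false, [(0, 39), (3, 22)], []⟩,
    ⟨1864, 96, 0, 176, 88, true, true, false, [(0, 22)], []⟩,
    ⟨1958, 96, 0, 176, 88, true, true, false, [(0, 22)], []⟩]⟩,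
  ⟨106, 111, 10542, 10789, 0, [], [⟨436, 160, 800, 36, 280, false, false, false, [(0, 1), (3, 22)], []⟩,
    ⟨741, 160, 800, 64, 231, false, false, false, [(0, 1), (3, 20)], []⟩,
    ⟨928, 160, 640, 80, 196, false, false, false, [(0, 1), (3, 19)], []⟩,
    ⟨1031, 160, 640, 96, 170, false, false, false, [(0, 1), (3, 18)], []⟩,
    ⟨1112, 128, 640, 176, 90, false, true, false, [(0, 1), (3, 16)], []⟩,
    ⟨1168, 128, 512, 176, 88, false, true, false, [(0, 1), (3, 16)], []⟩,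
    ⟨1253, 64, 0, 208, 109, true, true, false, [(0, 1), (3, 28)], []⟩,
    ⟨1282, 160, 0, 208, 109, true, true, false, [(0, 1), (3, 11)], []⟩,
    ⟨1314, 160, 0, 208, 109, true, true, false, [(0, 1), (3, 11)], []⟩,
    ⟨1350, 160, 0, 208, 109, true, true, false, [(0, 1), (3, 11)], []⟩,
    ⟨1390, 160, 0, 208, 109, true, true, false, [(0, 1), (3, 11)], []⟩,
    ⟨1430, 160, 0, 208, 109, true, true, false, [(0, 2), (3, 10)], []⟩,
    ⟨1514, 96, 0, 192, 98, true, true, false, [(0, 2), (3, 19)], []⟩,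
    ⟨1608, 96, 0, 192, 98, true, true, false, [(0, 2), (3, 19)], []⟩,
    ⟨1702, 96, 0, 192, 98, true, true, false, [(0, 2), (3, 19)], []⟩,
    ⟨1776, 96, 0, 192, 98, true, true, false, [(0, 3), (3, 18)], []⟩,
    ⟨1834, 96, 0, 192, 98, true, true, false, [(0, 5), (3, 16)], []⟩,
    ⟨1879, 96, 0, 192, 98, true, true, false, [(0, 11), (3, 10)], []⟩,
    ⟨2013, 128, 0, 176, 88, true, true, false, [(0, 17)], []⟩]⟩,
  ⟨112, 122, 10836, 11311, 0, [], [⟨436, 160, 800, 36, 281, false, false, false, [(0, 1), (3, 23)], []⟩,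
    ⟨741, 160, 800, 36, 252, false, false, false, [(0, 1), (3, 23)], []⟩,
    ⟨947, 160, 640, 64, 212, false, false, false, [(0, 1), (3, 21)], []⟩,
    ⟨1060, 160, 640, 80, 186, false, false, false, [(0, 1), (3, 20)], []⟩,
    ⟨1159, 96, 576, 192, 98, false, true, false, [(0, 1), (3, 21)], []⟩,
    ⟨1207, 160, 0, 224, 120, true, true, false, [(0, 1), (3, 10)], []⟩,
    ⟨1255, 160, 0, 224, 120, true, true, false, [(0, 1), (3, 10)], []⟩,
    ⟨1297, 160, 0, 224, 120, true, true, false, [(0, 1), (3, 10)], []⟩,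
    ⟨1330, 160, 0, 224, 120, true, true, false, [(0, 1), (3, 10)], []⟩,
    ⟨1356, 160, 0, 224, 120, true, true, false, [(0, 1), (3, 10)], []⟩,
    ⟨1432, 96, 0, 192, 98, true, true, false, [(0, 1), (3, 21)], []⟩,
    ⟨1527, 96, 0, 192, 98, true, true, false, [(0, 2), (3, 20)], []⟩,
    ⟨1622, 96, 0, 192, 98, true, true, false, [(0, 2), (3, 20)], []⟩,
    ⟨1717, 96, 0, 192, 98, true, true, false, [(0, 2), (3, 20)], []⟩,
    ⟨1800, 96, 0, 192, 98, true, true, false, [(0, 3), (3, 19)], []⟩,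
    ⟨1858, 96, 0, 192, 98, true, true, false, [(0, 4), (3, 18)], []⟩,
    ⟨1897, 96, 0, 192, 98, true, true, false, [(0, 6), (3, 16)], []⟩,
    ⟨1918, 96, 0, 192, 98, true, true, false, [(0, 11), (3, 11)], []⟩,
    ⟨1941, 96, 0, 176, 88, true, true, false, [(0, 24)], []⟩,
    ⟨2110, 96, 0, 176, 88, true, true, false, [(0, 24)], []⟩]⟩,
  ⟨123, 134, 11356, 11854, 0, [], [⟨491, 160, 800, 40, 273, false, false, false, [(0, 1), (3, 24)], []⟩,
    ⟨834, 160, 800, 52, 230, false, false, false, [(0, 1), (3, 23)], []⟩,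
    ⟨1074, 160, 640, 120, 156, false, false, false, [(0, 1), (3, 18)], []⟩,
    ⟨1236, 160, 640, 120, 141, false, false, false, [(0, 1), (3, 18)], []⟩,
    ⟨1392, 96, 0, 208, 109, true, true, false, [(0, 1), (3, 20)], []⟩,
    ⟨1548, 96, 0, 208, 109, true, true, false, [(0, 1), (3, 20)], []⟩,
    ⟨1685, 160, 0, 192, 98, true, true, false, [(0, 2), (3, 12)], []⟩,
    ⟨1805, 160, 0, 192, 98, true, true, false, [(0, 2), (3, 12)], []⟩,
    ⟨1910, 160, 0, 176, 88, true, true, false, [(0, 3), (3, 12)], []⟩,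
    ⟨2002, 160, 0, 176, 88, true, true, false, [(0, 5), (3, 10)], []⟩,
    ⟨2212, 160, 0, 176, 88, true, true, false, [(0, 14), (3, 1)], []⟩]⟩,
  ⟨135, 153, 11897, 12667, 0, [], [⟨491, 160, 800, 48, 267, false, false, false, [(0, 1), (3, 25)], []⟩,
    ⟨921, 160, 800, 60, 225, false, false, false, [(0, 1), (3, 24)], []⟩,
    ⟨1184, 160, 640, 72, 190, false, false, false, [(0, 1), (3, 23)], []⟩,
    ⟨1368, 128, 640, 176, 88, false, true, false, [(0, 1), (3, 19)], []⟩,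
    ⟨1529, 128, 0, 208, 109, true, true, false, [(0, 1), (3, 16)], []⟩,
    ⟨1684, 160, 0, 192, 98, true, true, false, [(0, 2), (3, 13)], []⟩,
    ⟨1839, 160, 0, 176, 88, true, true, false, [(0, 2), (3, 14)], []⟩,
    ⟨1994, 160, 0, 176, 88, true, true, false, [(0, 3), (3, 13)], []⟩,
    ⟨2116, 160, 0, 176, 88, true, true, false, [(0, 5), (3, 11)], []⟩,
    ⟨2363, 160, 0, 176, 88, true, true, false, [(0, 16)], []⟩]⟩,
  ⟨154, 184, 12707, 13891, 0, [], [⟨546, 160, 800, 52, 260, false, false, false, [(0, 1), (3, 27)], []⟩,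
    ⟨1024, 160, 800, 52, 229, false, false, false, [(0, 1), (3, 27)], []⟩,
    ⟨1358, 160, 640, 88, 166, false, false, false, [(0, 1), (3, 24)], []⟩,
    ⟨1591, 160, 640, 112, 131, false, false, false, [(0, 1), (3, 22)], []⟩,
    ⟨1824, 128, 0, 176, 88, true, true, false, [(0, 2), (3, 20)], []⟩,
    ⟨2028, 160, 0, 176, 88, true, true, false, [(0, 2), (3, 16)], []⟩,
    ⟨2188, 160, 0, 176, 88, true, true, false, [(0, 3), (3, 15)], []⟩,
    ⟨2591, 160, 0, 160, 78, true, true, false, [(0, 8), (3, 11)], []⟩]⟩,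
  ⟨185, 249, 13927, 16159, 0, [], [⟨601, 160, 800, 72, 239, false, false, false, [(0, 1), (3, 30)], []⟩,
    ⟨1202, 160, 800, 80, 194, false, false, false, [(0, 1), (3, 29)], []⟩,
    ⟨1622, 160, 640, 88, 163, false, false, false, [(0, 1), (3, 28)], []⟩,
    ⟨1916, 160, 0, 192, 98, true, true, false, [(0, 1), (3, 18)], []⟩,
    ⟨2210, 160, 0, 176, 88, true, true, false, [(0, 2), (3, 19)], []⟩,
    ⟨2441, 160, 0, 160, 78, true, true, false, [(0, 3), (3, 19)], []⟩,
    ⟨3015, 160, 0, 160, 78, true, true, false, [(0, 14), (3, 8)], []⟩]⟩] = true := by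
  decide +kernel

theorem lp_366 : rowsOK false 366 382 1024 1024 512 2048 0 [] 250 100 [
  ⟨100, 105, 10240, 10493, 512, [], [⟨1868, 96, 0, 176, 88, true, true, false, [(0, 22)], []⟩,
    ⟨1989, 96, 0, 176, 88, true, true, false, [(0, 22)], []⟩,
    ⟨2298, 128, 0, 160, 78, true, true, false, [(0, 18)], []⟩,
    ⟨3258, 160, 0, 88, 40, true, true, false, [(0, 19)], []⟩,
    ⟨7829, 160, 0, 0, 0, true, false, false, [(0, 25)], []⟩]⟩,
  ⟨106, 115, 10542, 10982, 512, [], [⟨1893, 128, 0, 192, 98, true, true, false, [(0, 16)], []⟩,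
    ⟨1921, 64, 0, 176, 88, true, true, false, [(0, 35)], []⟩,
    ⟨1994, 160, 0, 176, 88, true, true, false, [(0, 14)], []⟩,
    ⟨2202, 160, 0, 160, 78, true, true, false, [(0, 15)], []⟩,
    ⟨2849, 128, 0, 120, 56, true, true, false, [(0, 22)], []⟩,
    ⟨6021, 160, 0, 0, 0, true, false, false, [(0, 26)], []⟩,
    ⟨8194, 160, 0, 0, 0, true, false, false, [(0, 26)], []⟩]⟩,
  ⟨116, 132, 11028, 11765, 512, [], [⟨2032, 64, 0, 176, 88, true, true, false, [(0, 37)], []⟩,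
    ⟨2150, 160, 0, 160, 78, true, true, false, [(0, 16)], []⟩,
    ⟨2451, 160, 0, 160, 78, true, true, false, [(0, 16)], []⟩,
    ⟨3471, 160, 0, 96, 44, true, true, false, [(0, 21)], []⟩,
    ⟨7823, 160, 0, 0, 0, true, false, false, [(0, 28)], []⟩,
    ⟨8778, 160, 0, 0, 0, true, false, false, [(0, 28)], []⟩]⟩,
  ⟨133, 151, 11809, 12584, 512, [], [⟨2238, 160, 0, 176, 88, true, true, false, [(0, 16)], []⟩,
    ⟨2674, 128, 0, 144, 69, true, true, false, [(0, 23)], []⟩,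
    ⟨4335, 160, 0, 60, 27, true, true, false, [(0, 25)], []⟩,
    ⟨9389, 160, 0, 0, 0, true, false, false, [(0, 30)], []⟩]⟩,
  ⟨152, 182, 12624, 13815, 512, [], [⟨2497, 160, 0, 160, 78, true, true, false, [(0, 19)], []⟩,
    ⟨3246, 160, 0, 112, 52, true, true, false, [(0, 23)], []⟩,
    ⟨6918, 160, 0, 0, 0, true, false, false, [(0, 33)], []⟩,
    ⟨10308, 160, 0, 0, 0, true, false, false, [(0, 33)], []⟩]⟩,
  ⟨183, 249, 13852, 16159, 512, [], [⟨2716, 160, 0, 160, 78, true, true, false, [(0, 22)], []⟩,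
    ⟨3465, 160, 0, 120, 56, true, true, false, [(0, 26)], []⟩,
    ⟨7137, 160, 0, 0, 0, true, false, false, [(0, 38)], []⟩,
    ⟨12057, 160, 0, 0, 0, true, false, false, [(0, 38)], []⟩]⟩] = true := by
  decide +kernel

theorem lo_382 : rowsOK false 382 398 1024 1024 0 512 0 [] 250 100 [
  ⟨100, 105, 10240, 10493, 0, [], [⟨436, 160, 800, 40, 292, false, false, false, [(0, 1), (3, 22)], []⟩,
    ⟨741, 160, 800, 72, 229, false, false, false, [(0, 1), (3, 20)], []⟩,
    ⟨928, 160, 640, 88, 202, false, false, false, [(0, 1), (3, 19)], []⟩,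
    ⟨1043, 160, 640, 104, 174, false, false, false, [(0, 1), (3, 18)], []⟩,
    ⟨1123, 96, 576, 192, 98, false, true, false, [(0, 1), (3, 21)], []⟩,
    ⟨1193, 128, 0, 224, 120, true, true, false, [(0, 1), (3, 13)], []⟩,
    ⟨1272, 128, 0, 224, 120, true, true, false, [(0, 1), (3, 13)], []⟩,
    ⟨1351, 128, 0, 224, 120, true, true, false, [(0, 1), (3, 13)], []⟩,
    ⟨1420, 128, 0, 224, 120, true, true, false, [(0, 1), (3, 13)], []⟩,
    ⟨1474, 128, 0, 224, 120, true, true, false, [(0, 2), (3, 12)], []⟩,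
    ⟨1566, 64, 0, 208, 109, true, true, false, [(0, 2), (3, 29)], []⟩,
    ⟨1647, 96, 0, 192, 98, true, true, false, [(0, 2), (3, 20)], []⟩,
    ⟨1728, 96, 0, 192, 98, true, true, false, [(0, 2), (3, 20)], []⟩,
    ⟨1806, 96, 0, 192, 98, true, true, false, [(0, 3), (3, 19)], []⟩,
    ⟨1867, 96, 0, 192, 98, true, true, false, [(0, 5), (3, 17)], []⟩,
    ⟨1915, 96, 0, 192, 98, true, true, false, [(0, 14), (3, 8)], []⟩,
    ⟨2040, 96, 0, 192, 98, true, true, false, [(0, 22)], []⟩]⟩,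
  ⟨106, 115, 10542, 10982, 0, [], [⟨436, 160, 800, 40, 292, false, false, false, [(0, 1), (3, 23)], []⟩,
    ⟨779, 160, 800, 40, 259, false, false, false, [(0, 1), (3, 23)], []⟩,
    ⟨968, 160, 640, 72, 216, false, false, false, [(0, 1), (3, 21)], []⟩,
    ⟨1096, 160, 640, 160, 124, false, true, false, [(0, 1), (3, 15)], []⟩,
    ⟨1182, 160, 640, 160, 115, false, true, false, [(0, 1), (3, 15)], []⟩,
    ⟨1240, 160, 640, 176, 94, false, true, false, [(0, 1), (3, 14)], []⟩,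
    ⟨1291, 160, 0, 224, 120, true, true, false, [(0, 1), (3, 11)], []⟩,
    ⟨1355, 128, 0, 208, 109, true, true, false, [(0, 1), (3, 15)], []⟩,
    ⟨1419, 160, 0, 208, 109, true, true, false, [(0, 1), (3, 12)], []⟩,
    ⟨1491, 160, 0, 208, 109, true, true, false, [(0, 2), (3, 11)], []⟩,
    ⟨1563, 160, 0, 208, 109, true, true, false, [(0, 2), (3, 11)], []⟩,
    ⟨1626, 160, 0, 208, 109, true, true, false, [(0, 2), (3, 11)], []⟩,
    ⟨1689, 160, 0, 192, 98, true, true, false, [(0, 2), (3, 12)], []⟩,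
    ⟨1752, 160, 0, 192, 98, true, true, false, [(0, 2), (3, 12)], []⟩,
    ⟨1813, 160, 0, 192, 98, true, true, false, [(0, 3), (3, 11)], []⟩,
    ⟨1861, 160, 0, 192, 98, true, true, false, [(0, 3), (3, 11)], []⟩,
    ⟨1899, 160, 0, 192, 98, true, true, false, [(0, 4), (3, 10)], []⟩,
    ⟨1925, 160, 0, 192, 98, true, true, false, [(0, 6), (3, 8)], []⟩,
    ⟨1945, 160, 0, 192, 98, true, true, false, [(0, 9), (3, 5)], []⟩,
    ⟨1965, 160, 0, 192, 98, true, true, false, [(0, 14)], []⟩,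
    ⟨2008, 160, 0, 176, 88, true, true, false, [(0, 15)], []⟩,
    ⟨2135, 160, 0, 176, 88, true, true, false, [(0, 15)], []⟩]⟩,
  ⟨116, 132, 11028, 11765, 0, [], [⟨491, 160, 800, 52, 276, false, false, false, [(0, 1), (3, 24)], []⟩,
    ⟨834, 160, 800, 64, 232, false, false, false, [(0, 1), (3, 23)], []⟩,
    ⟨1074, 160, 640, 80, 202, false, false, false, [(0, 1), (3, 22)], []⟩,
    ⟨1221, 160, 640, 120, 156, false, false, false, [(0, 1), (3, 19)], []⟩,
    ⟨1323, 128, 640, 176, 90, false, true, false, [(0, 1), (3, 19)], []⟩,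
    ⟨1425, 96, 0, 208, 109, true, true, false, [(0, 1), (3, 22)], []⟩,
    ⟨1496, 160, 0, 208, 109, true, true, false, [(0, 1), (3, 13)], []⟩,
    ⟨1567, 160, 0, 208, 109, true, true, false, [(0, 2), (3, 12)], []⟩,
    ⟨1647, 160, 0, 192, 98, true, true, false, [(0, 2), (3, 13)], []⟩,
    ⟨1727, 160, 0, 192, 98, true, true, false, [(0, 2), (3, 13)], []⟩,
    ⟨1807, 160, 0, 192, 98, true, true, false, [(0, 2), (3, 13)], []⟩,
    ⟨1884, 160, 0, 192, 98, true, true, false, [(0, 3), (3, 12)], []⟩,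
    ⟨1944, 160, 0, 192, 98, true, true, false, [(0, 3), (3, 12)], []⟩,
    ⟨1986, 160, 0, 192, 98, true, true, false, [(0, 4), (3, 11)], []⟩,
    ⟨2023, 128, 0, 176, 88, true, true, false, [(0, 7), (3, 13)], []⟩,
    ⟨2055, 128, 0, 176, 88, true, true, false, [(0, 16), (3, 4)], []⟩,
    ⟨2287, 160, 0, 176, 88, true, true, false, [(0, 16)], []⟩]⟩,
  ⟨133, 159, 11809, 12913, 0, [], [⟨491, 160, 800, 56, 274, false, false, false, [(0, 1), (3, 26)], []⟩,
    ⟨921, 160, 800, 56, 237, false, false, false, [(0, 1), (3, 26)], []⟩,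
    ⟨1222, 160, 640, 96, 178, false, false, false, [(0, 1), (3, 23)], []⟩,
    ⟨1425, 160, 640, 120, 145, false, false, false, [(0, 1), (3, 21)], []⟩,
    ⟨1585, 160, 0, 208, 109, true, true, false, [(0, 1), (3, 14)], []⟩,
    ⟨1739, 160, 0, 208, 109, true, true, false, [(0, 2), (3, 13)], []⟩,
    ⟨1893, 128, 0, 192, 98, true, true, false, [(0, 2), (3, 19)], []⟩,
    ⟨2028, 128, 0, 176, 88, true, true, false, [(0, 3), (3, 19)], []⟩,
    ⟨2134, 128, 0, 176, 88, true, true, false, [(0, 4), (3, 18)], []⟩,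
    ⟨2240, 128, 0, 176, 88, true, true, false, [(0, 10), (3, 12)], []⟩,
    ⟨2510, 160, 0, 160, 78, true, true, false, [(0, 19)], []⟩]⟩,
  ⟨160, 208, 12952, 14769, 0, [], [⟨546, 160, 800, 72, 256, false, false, false, [(0, 1), (3, 29)], []⟩,
    ⟨1092, 160, 800, 72, 221, false, false, false, [(0, 1), (3, 29)], []⟩,
    ⟨1522, 160, 640, 88, 171, false, false, false, [(0, 1), (3, 27)], []⟩,
    ⟨1785, 160, 0, 192, 98, true, true, false, [(0, 1), (3, 18)], []⟩,
    ⟨2048, 160, 0, 192, 98, true, true, false, [(0, 2), (3, 17)], []⟩,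
    ⟨2232, 160, 0, 176, 88, true, true, false, [(0, 2), (3, 19)], []⟩,
    ⟨2377, 128, 0, 160, 78, true, true, false, [(0, 4), (3, 23)], []⟩,
    ⟨2871, 128, 0, 160, 78, true, true, false, [(0, 19), (3, 8)], []⟩]⟩,
  ⟨209, 249, 14803, 16159, 0, [], [⟨656, 160, 800, 56, 269, false, false, false, [(0, 1), (3, 33)], []⟩,
    ⟨1476, 160, 800, 64, 212, false, false, false, [(0, 1), (3, 32)], []⟩,
    ⟨2122, 160, 640, 104, 135, false, false, false, [(0, 1), (3, 28)], []⟩,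
    ⟨2687, 160, 0, 160, 78, true, true, false, [(0, 2), (3, 22)], []⟩,
    ⟨3141, 160, 0, 144, 69, true, true, false, [(0, 11), (3, 15)], []⟩]⟩] = true := by
  decide +kernel

theorem lp_382 : rowsOK false 382 398 1024 1024 512 2048 0 [] 250 100 [
  ⟨100, 109, 10240, 10691, 512, [], [⟨1937, 48, 0, 192, 98, true, true, false, [(0, 45)], []⟩,
    ⟨1967, 128, 0, 192, 98, true, true, false, [(0, 17)], []⟩,
    ⟨2013, 128, 0, 192, 98, true, true, false, [(0, 17)], []⟩,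
    ⟨2119, 160, 0, 176, 88, true, true, false, [(0, 15)], []⟩,
    ⟨2420, 160, 0, 160, 78, true, true, false, [(0, 16)], []⟩,
    ⟨3440, 160, 0, 96, 44, true, true, false, [(0, 20)], []⟩,
    ⟨8311, 160, 0, 0, 0, true, false, false, [(0, 26)], []⟩]⟩,
  ⟨110, 125, 10739, 11449, 512, [], [⟨2020, 128, 0, 192, 98, true, true, false, [(0, 18)], []⟩,
    ⟨2090, 96, 0, 176, 88, true, true, false, [(0, 26)], []⟩,
    ⟨2236, 128, 0, 160, 78, true, true, false, [(0, 21)], []⟩,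
    ⟨2691, 160, 0, 144, 69, true, true, false, [(0, 18)], []⟩,
    ⟨4616, 160, 0, 44, 19, true, true, false, [(0, 25)], []⟩,
    ⟨8900, 160, 0, 0, 0, true, false, false, [(0, 28)], []⟩]⟩,
  ⟨126, 143, 11494, 12246, 512, [], [⟨2287, 160, 0, 176, 88, true, true, false, [(0, 17)], []⟩,
    ⟨2777, 160, 0, 144, 69, true, true, false, [(0, 19)], []⟩,
    ⟨4643, 160, 0, 52, 23, true, true, false, [(0, 26)], []⟩,
    ⟨9520, 160, 0, 0, 0, true, false, false, [(0, 30)], []⟩]⟩,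
  ⟨144, 187, 12288, 14003, 512, [], [⟨2393, 160, 0, 176, 88, true, true, false, [(0, 19)], []⟩,
    ⟨2622, 160, 0, 144, 69, true, true, false, [(0, 22)], []⟩,
    ⟨3334, 160, 0, 120, 56, true, true, false, [(0, 24)], []⟩,
    ⟨6824, 160, 0, 0, 0, true, false, false, [(0, 35)], []⟩,
    ⟨10886, 160, 0, 0, 0, true, false, false, [(0, 35)], []⟩]⟩,
  ⟨188, 249, 14040, 16159, 512, [], [⟨3054, 128, 0, 144, 69, true, true, false, [(0, 32)], []⟩,
    ⟨4407, 160, 0, 80, 36, true, true, false, [(0, 32)], []⟩,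
    ⟨9608, 160, 0, 0, 0, true, false, false, [(0, 40)], []⟩,
    ⟨12562, 160, 0, 0, 0, true, false, false, [(0, 40)], []⟩]⟩] = true := by
  decide +kernel

theorem lo_398 : rowsOK false 398 400 1024 1024 0 512 0 [] 250 100 [
  ⟨100, 113, 10240, 10886, 0, [], [⟨436, 160, 800, 40, 296, false, true, false, [(0, 1), (3, 23)], []⟩,
    ⟨779, 160, 800, 72, 241, false, false, false, [(0, 1), (3, 21)], []⟩,
    ⟨1019, 160, 640, 88, 209, false, false, false, [(0, 1), (3, 20)], []⟩,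
    ⟨1187, 128, 512, 208, 109, false, true, false, [(0, 1), (3, 15)], []⟩,
    ⟨1319, 128, 0, 224, 120, true, true, false, [(0, 1), (3, 14)], []⟩,
    ⟨1467, 128, 0, 208, 109, true, true, false, [(0, 1), (3, 15)], []⟩,
    ⟨1633, 128, 0, 208, 109, true, true, false, [(0, 2), (3, 14)], []⟩,
    ⟨1793, 128, 0, 208, 109, true, true, false, [(0, 2), (3, 14)], []⟩,
    ⟨1905, 160, 0, 192, 98, true, true, false, [(0, 3), (3, 11)], []⟩,
    ⟨2127, 160, 0, 192, 98, true, true, false, [(0, 7), (3, 7)], []⟩]⟩,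
  ⟨114, 136, 10933, 11942, 0, [], [⟨491, 160, 800, 44, 296, false, true, false, [(0, 1), (3, 25)], []⟩,
    ⟨877, 160, 800, 72, 236, false, false, false, [(0, 1), (3, 23)], []⟩,
    ⟨1147, 160, 640, 112, 178, false, false, false, [(0, 1), (3, 20)], []⟩,
    ⟨1359, 128, 640, 192, 98, false, true, false, [(0, 1), (3, 18)], []⟩,
    ⟨1544, 160, 0, 208, 109, true, true, false, [(0, 1), (3, 13)], []⟩,
    ⟨1752, 160, 0, 208, 109, true, true, false, [(0, 2), (3, 12)], []⟩,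
    ⟨1916, 160, 0, 208, 109, true, true, false, [(0, 2), (3, 12)], []⟩,
    ⟨2080, 128, 0, 192, 98, true, true, false, [(0, 3), (3, 16)], []⟩,
    ⟨2333, 160, 0, 192, 98, true, true, false, [(0, 12), (3, 4)], []⟩]⟩,
  ⟨137, 198, 11985, 14409, 0, [], [⟨546, 160, 800, 72, 270, false, false, false, [(0, 1), (3, 28)], []⟩,
    ⟨1024, 160, 800, 72, 229, false, false, false, [(0, 1), (3, 28)], []⟩,
    ⟨1358, 160, 640, 96, 184, false, false, false, [(0, 1), (3, 26)], []⟩,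
    ⟨1591, 160, 640, 128, 140, false, false, false, [(0, 1), (3, 23)], []⟩,
    ⟨1795, 160, 0, 208, 109, true, true, false, [(0, 1), (3, 16)], []⟩,
    ⟨2024, 128, 0, 192, 98, true, true, false, [(0, 2), (3, 21)], []⟩,
    ⟨2184, 128, 0, 192, 98, true, true, false, [(0, 3), (3, 20)], []⟩,
    ⟨2272, 160, 0, 176, 88, true, true, false, [(0, 4), (3, 16)], []⟩,
    ⟨2815, 160, 0, 176, 88, true, true, false, [(0, 12), (3, 8)], []⟩]⟩,
  ⟨199, 249, 14445, 16159, 0, [], [⟨656, 160, 800, 48, 292, false, false, false, [(0, 1), (3, 34)], []⟩,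
    ⟨1476, 160, 800, 56, 233, false, false, false, [(0, 1), (3, 33)], []⟩,
    ⟨2194, 160, 640, 128, 118, false, true, false, [(0, 1), (3, 26)], []⟩,
    ⟨3157, 160, 0, 160, 78, true, true, false, [(0, 2), (3, 22)], []⟩]⟩] = true := by
  decide +kernel

theorem lp_398 : rowsOK false 398 400 1024 1024 512 2048 0 [] 250 100 [
  ⟨100, 120, 10240, 11218, 512, [], [⟨2068, 128, 0, 192, 98, true, true, false, [(0, 18)], []⟩,
    ⟨2268, 96, 0, 176, 88, true, true, false, [(0, 26)], []⟩,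
    ⟨2777, 160, 0, 128, 60, true, true, false, [(0, 19)], []⟩,
    ⟨5361, 160, 0, 24, 11, true, true, false, [(0, 26)], []⟩,
    ⟨8765, 160, 0, 0, 0, true, false, false, [(0, 28)], []⟩]⟩,
  ⟨121, 157, 11264, 12831, 512, [], [⟨2382, 128, 0, 176, 88, true, true, false, [(0, 22)], []⟩,
    ⟨2782, 160, 0, 144, 69, true, true, false, [(0, 21)], []⟩,
    ⟨4306, 160, 0, 56, 25, true, true, false, [(0, 27)], []⟩,
    ⟨10025, 160, 0, 0, 0, true, false, false, [(0, 32)], []⟩]⟩,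
  ⟨158, 229, 12871, 15496, 512, [], [⟨2828, 160, 0, 160, 78, true, true, false, [(0, 23)], []⟩,
    ⟨3843, 160, 0, 104, 48, true, true, false, [(0, 28)], []⟩,
    ⟨8174, 160, 0, 0, 0, true, false, false, [(0, 38)], []⟩,
    ⟨12107, 160, 0, 0, 0, true, false, false, [(0, 38)], []⟩]⟩,
  ⟨230, 249, 15529, 16159, 512, [], [⟨5051, 160, 0, 88, 40, true, true, false, [(0, 31)], []⟩,
    ⟨12297, 160, 0, 0, 0, true, false, false, [(0, 40)], []⟩,
    ⟨12625, 160, 0, 0, 0, true, false, true, [(0, 24)], [(0, 16)]⟩]⟩] = true := by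
  decide +kernel

end Pool.Agent.Lib.MP_af3a4a_an.P1.CHK.H58.G
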