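import Pool.Agent.Lib.MP_af3a4a_an.P1.CHK.H58.GX

/-!
# Rows for small R, part 4 (generated, helper58)
-/

set_option autoImplicit false

namespace Pool.Agent.Lib.MP_af3a4a_an.P1.CHK.H58.G

theorem lo_400 : rowsOK false 400 424 1024 1024 0 512 0 [] 250 100 [
  ⟨100, 102, 10240, 10342, 0, [], [⟨436, 160, 800, 28, 296, false, true, false, [(0, 1), (3, 24)], []⟩,
    ⟨779, 160, 800, 60, 255, false, false, false, [(0, 1), (3, 22)], []⟩,
    ⟨1010, 160, 640, 96, 204, false, false, false, [(0, 1), (3, 20)], []⟩,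
    ⟨1137, 160, 640, 96, 191, false, false, false, [(0, 1), (3, 20)], []⟩,
    ⟨1223, 160, 640, 112, 166, false, false, false, [(0, 1), (3, 19)], []⟩,
    ⟨1270, 160, 640, 112, 169, false, false, false, [(0, 1), (3, 19)], []⟩,
    ⟨1315, 128, 0, 224, 120, true, true, false, [(0, 1), (3, 15)], []⟩,
    ⟨1360, 160, 0, 224, 120, true, true, false, [(0, 1), (3, 12)], []⟩,
    ⟨1416, 128, 0, 224, 120, true, true, false, [(0, 1), (3, 15)], []⟩,
    ⟨1465, 160, 0, 224, 120, true, true, false, [(0, 2), (3, 11)], []⟩,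
    ⟨1512, 160, 0, 224, 120, true, true, false, [(0, 2), (3, 11)], []⟩,
    ⟨1592, 96, 0, 208, 109, true, true, false, [(0, 2), (3, 21)], []⟩,
    ⟨1641, 160, 0, 208, 109, true, true, false, [(0, 2), (3, 12)], []⟩,
    ⟨1690, 160, 0, 208, 109, true, true, false, [(0, 2), (3, 12)], []⟩,
    ⟨1733, 160, 0, 208, 109, true, true, false, [(0, 2), (3, 12)], []⟩,
    ⟨1771, 160, 0, 208, 109, true, true, false, [(0, 2), (3, 12)], []⟩,
    ⟨1801, 160, 0, 208, 109, true, true, false, [(0, 3), (3, 11)], []⟩,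
    ⟨1824, 160, 0, 208, 109, true, true, false, [(0, 3), (3, 11)], []⟩,
    ⟨1842, 160, 0, 192, 98, true, true, false, [(0, 3), (3, 12)], []⟩,
    ⟨1877, 96, 0, 208, 109, true, true, false, [(0, 4), (3, 19)], []⟩,
    ⟨1921, 64, 0, 192, 98, true, true, false, [(0, 4), (3, 33)], []⟩,
    ⟨1965, 48, 0, 192, 98, true, true, false, [(0, 7), (3, 42)], []⟩,
    ⟨1999, 48, 0, 192, 98, true, true, false, [(0, 33), (3, 16)], []⟩,
    ⟨2057, 64, 0, 192, 98, true, true, false, [(0, 37)], []⟩,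
    ⟨2142, 160, 0, 176, 88, true, true, false, [(0, 16)], []⟩]⟩,
  ⟨103, 108, 10392, 10642, 0, [], [⟨436, 160, 800, 40, 296, false, true, false, [(0, 1), (3, 24)], []⟩,
    ⟨779, 160, 800, 40, 276, false, false, false, [(0, 1), (3, 24)], []⟩,
    ⟨1019, 160, 640, 72, 228, false, false, false, [(0, 1), (3, 22)], []⟩,
    ⟨1151, 160, 640, 88, 199, false, false, false, [(0, 1), (3, 21)], []⟩,
    ⟨1240, 160, 640, 104, 174, false, false, false, [(0, 1), (3, 20)], []⟩,
    ⟨1302, 160, 0, 224, 120, true, true, false, [(0, 1), (3, 12)], []⟩,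
    ⟨1372, 160, 0, 224, 120, true, true, false, [(0, 1), (3, 12)], []⟩,
    ⟨1442, 160, 0, 224, 120, true, true, false, [(0, 1), (3, 12)], []⟩,
    ⟨1512, 160, 0, 224, 120, true, true, false, [(0, 2), (3, 11)], []⟩,
    ⟨1573, 160, 0, 224, 120, true, true, false, [(0, 2), (3, 11)], []⟩,
    ⟨1615, 160, 0, 224, 120, true, true, false, [(0, 2), (3, 11)], []⟩,
    ⟨1673, 128, 0, 208, 109, true, true, false, [(0, 2), (3, 16)], []⟩,
    ⟨1724, 128, 0, 208, 109, true, true, false, [(0, 2), (3, 16)], []⟩,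
    ⟨1775, 128, 0, 192, 98, true, true, false, [(0, 2), (3, 17)], []⟩,
    ⟨1826, 128, 0, 192, 98, true, true, false, [(0, 3), (3, 16)], []⟩,
    ⟨1875, 128, 0, 192, 98, true, true, false, [(0, 3), (3, 16)], []⟩,
    ⟨1913, 128, 0, 192, 98, true, true, false, [(0, 4), (3, 15)], []⟩,
    ⟨1946, 128, 0, 192, 98, true, true, false, [(0, 4), (3, 15)], []⟩,
    ⟨1969, 128, 0, 192, 98, true, true, false, [(0, 6), (3, 13)], []⟩,
    ⟨1987, 128, 0, 192, 98, true, true, false, [(0, 7), (3, 12)], []⟩,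
    ⟨2001, 128, 0, 192, 98, true, true, false, [(0, 10), (3, 9)], []⟩,
    ⟨2013, 128, 0, 192, 98, true, true, false, [(0, 14), (3, 5)], []⟩,
    ⟨2029, 128, 0, 192, 98, true, true, false, [(0, 19)], []⟩,
    ⟨2067, 128, 0, 192, 98, true, true, false, [(0, 19)], []⟩,
    ⟨2204, 96, 0, 176, 88, true, true, false, [(0, 27)], []⟩]⟩,
  ⟨109, 118, 10690, 11124, 0, [], [⟨491, 160, 800, 44, 296, false, true, false, [(0, 1), (3, 25)], []⟩,
    ⟨834, 160, 800, 56, 256, false, false, false, [(0, 1), (3, 24)], []⟩,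
    ⟨1074, 160, 640, 88, 209, false, false, false, [(0, 1), (3, 22)], []⟩,
    ⟨1236, 160, 640, 104, 177, false, false, false, [(0, 1), (3, 21)], []⟩,
    ⟨1325, 160, 640, 104, 169, false, false, false, [(0, 1), (3, 21)], []⟩,
    ⟨1411, 128, 0, 224, 120, true, true, false, [(0, 1), (3, 16)], []⟩,
    ⟨1497, 128, 0, 224, 120, true, true, false, [(0, 1), (3, 16)], []⟩,
    ⟨1572, 128, 0, 224, 120, true, true, false, [(0, 2), (3, 15)], []⟩,
    ⟨1631, 160, 0, 208, 109, true, true, false, [(0, 2), (3, 13)], []⟩,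
    ⟨1690, 160, 0, 208, 109, true, true, false, [(0, 2), (3, 13)], []⟩,
    ⟨1749, 160, 0, 208, 109, true, true, false, [(0, 2), (3, 13)], []⟩,
    ⟨1801, 160, 0, 192, 98, true, true, false, [(0, 2), (3, 14)], []⟩,
    ⟨1853, 160, 0, 192, 98, true, true, false, [(0, 2), (3, 14)], []⟩,
    ⟨1905, 160, 0, 192, 98, true, true, false, [(0, 3), (3, 13)], []⟩,
    ⟨1946, 160, 0, 192, 98, true, true, false, [(0, 3), (3, 13)], []⟩,
    ⟨1978, 160, 0, 192, 98, true, true, false, [(0, 4), (3, 12)], []⟩,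
    ⟨2006, 128, 0, 192, 98, true, true, false, [(0, 5), (3, 15)], []⟩,
    ⟨2028, 128, 0, 192, 98, true, true, false, [(0, 6), (3, 14)], []⟩,
    ⟨2043, 128, 0, 192, 98, true, true, false, [(0, 8), (3, 12)], []⟩,
    ⟨2054, 128, 0, 192, 98, true, true, false, [(0, 10), (3, 10)], []⟩,
    ⟨2076, 48, 0, 192, 98, true, true, false, [(0, 30), (3, 23)], []⟩,
    ⟨2123, 32, 0, 192, 98, true, true, false, [(0, 79)], []⟩,
    ⟨2304, 160, 0, 176, 88, true, true, false, [(0, 17)], []⟩]⟩,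
  ⟨119, 135, 11170, 11898, 0, [], [⟨491, 160, 800, 56, 291, false, false, false, [(0, 1), (3, 26)], []⟩,
    ⟨921, 160, 800, 56, 251, false, false, false, [(0, 1), (3, 26)], []⟩,
    ⟨1211, 160, 640, 80, 208, false, false, false, [(0, 1), (3, 24)], []⟩,
    ⟨1389, 128, 640, 128, 152, false, false, false, [(0, 1), (3, 26)], []⟩,
    ⟨1498, 128, 640, 128, 142, false, false, false, [(0, 1), (3, 26)], []⟩,
    ⟨1603, 160, 0, 208, 109, true, true, false, [(0, 1), (3, 15)], []⟩,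
    ⟨1708, 160, 0, 208, 109, true, true, false, [(0, 2), (3, 14)], []⟩,
    ⟨1813, 160, 0, 192, 98, true, true, false, [(0, 2), (3, 15)], []⟩,
    ⟨1918, 160, 0, 192, 98, true, true, false, [(0, 2), (3, 15)], []⟩,
    ⟨2010, 160, 0, 192, 98, true, true, false, [(0, 3), (3, 14)], []⟩,
    ⟨2074, 160, 0, 192, 98, true, true, false, [(0, 4), (3, 13)], []⟩,
    ⟨2118, 160, 0, 192, 98, true, true, false, [(0, 5), (3, 12)], []⟩,
    ⟨2145, 160, 0, 192, 98, true, true, false, [(0, 8), (3, 9)], []⟩,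
    ⟨2163, 160, 0, 192, 98, true, true, false, [(0, 12), (3, 5)], []⟩,
    ⟨2181, 160, 0, 192, 98, true, true, false, [(0, 17)], []⟩,
    ⟨2209, 160, 0, 192, 98, true, true, false, [(0, 17)], []⟩,
    ⟨2464, 64, 0, 176, 88, true, true, false, [(0, 46)], []⟩]⟩,
  ⟨136, 163, 11941, 13074, 0, [], [⟨546, 160, 800, 64, 280, false, false, false, [(0, 1), (3, 28)], []⟩,
    ⟨1024, 160, 800, 64, 239, false, false, false, [(0, 1), (3, 28)], []⟩,
    ⟨1358, 160, 640, 88, 194, false, false, false, [(0, 1), (3, 26)], []⟩,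
    ⟨1591, 160, 640, 112, 158, false, false, false, [(0, 1), (3, 24)], []⟩,
    ⟨1754, 160, 0, 192, 98, true, true, false, [(0, 2), (3, 17)], []⟩,
    ⟨1937, 160, 0, 192, 98, true, true, false, [(0, 2), (3, 17)], []⟩,
    ⟨2097, 160, 0, 192, 98, true, true, false, [(0, 2), (3, 17)], []⟩,
    ⟨2209, 160, 0, 176, 88, true, true, false, [(0, 3), (3, 17)], []⟩,
    ⟨2287, 160, 0, 176, 88, true, true, false, [(0, 5), (3, 15)], []⟩,
    ⟨2385, 160, 0, 176, 88, true, true, false, [(0, 14), (3, 6)], []⟩,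
    ⟨2707, 160, 0, 176, 88, true, true, false, [(0, 20)], []⟩]⟩,
  ⟨164, 213, 13113, 14945, 0, [], [⟨601, 160, 800, 80, 263, false, false, false, [(0, 1), (3, 31)], []⟩,
    ⟨1202, 160, 800, 80, 223, false, false, false, [(0, 1), (3, 31)], []⟩,
    ⟨1675, 160, 640, 96, 170, false, false, false, [(0, 1), (3, 29)], []⟩,
    ⟨1994, 160, 0, 192, 98, true, true, false, [(0, 1), (3, 21)], []⟩,
    ⟨2273, 160, 0, 176, 88, true, true, false, [(0, 2), (3, 21)], []⟩,
    ⟨2492, 160, 0, 176, 88, true, true, false, [(0, 3), (3, 20)], []⟩,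
    ⟨2664, 160, 0, 176, 88, true, true, false, [(0, 12), (3, 11)], []⟩,
    ⟨3095, 160, 0, 144, 69, true, true, false, [(0, 26)], []⟩]⟩,
  ⟨214, 249, 14979, 16159, 0, [], [⟨656, 160, 800, 60, 283, false, false, false, [(0, 1), (3, 35)], []⟩,
    ⟨1558, 160, 800, 60, 229, false, false, false, [(0, 1), (3, 35)], []⟩,
    ⟨2347, 160, 640, 120, 123, false, false, false, [(0, 1), (3, 29)], []⟩,
    ⟨3346, 160, 0, 160, 78, true, true, false, [(0, 3), (3, 24)], []⟩]⟩] = true := by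
  decide +kernel

theorem lo_424 : rowsOK false 424 456 1024 1024 0 512 0 [] 250 100 [
  ⟨100, 102, 10240, 10342, 0, [], [⟨491, 160, 800, 48, 296, false, true, false, [(0, 1), (3, 25)], []⟩,
    ⟨877, 160, 800, 60, 269, false, false, false, [(0, 1), (3, 24)], []⟩,
    ⟨1113, 160, 640, 96, 217, false, false, false, [(0, 1), (3, 22)], []⟩,
    ⟨1278, 160, 640, 112, 185, false, false, false, [(0, 1), (3, 21)], []⟩,
    ⟨1389, 128, 640, 128, 165, false, false, false, [(0, 1), (3, 25)], []⟩,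
    ⟨1450, 96, 0, 240, 132, true, true, false, [(0, 1), (3, 22)], []⟩,
    ⟨1492, 160, 0, 224, 120, true, true, false, [(0, 2), (3, 13)], []⟩,
    ⟨1539, 160, 0, 224, 120, true, true, false, [(0, 2), (3, 13)], []⟩,
    ⟨1586, 160, 0, 224, 120, true, true, false, [(0, 2), (3, 13)], []⟩,
    ⟨1633, 160, 0, 224, 120, true, true, false, [(0, 2), (3, 13)], []⟩,
    ⟨1680, 160, 0, 224, 120, true, true, false, [(0, 2), (3, 13)], []⟩,
    ⟨1727, 160, 0, 208, 109, true, true, false, [(0, 2), (3, 14)], []⟩,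
    ⟨1780, 160, 0, 208, 109, true, true, false, [(0, 2), (3, 14)], []⟩,
    ⟨1831, 160, 0, 208, 109, true, true, false, [(0, 2), (3, 14)], []⟩,
    ⟨1876, 160, 0, 208, 109, true, true, false, [(0, 3), (3, 13)], []⟩,
    ⟨1915, 160, 0, 208, 109, true, true, false, [(0, 3), (3, 13)], []⟩,
    ⟨1954, 128, 0, 208, 109, true, true, false, [(0, 3), (3, 17)], []⟩,
    ⟨1984, 128, 0, 192, 98, true, true, false, [(0, 4), (3, 17)], []⟩,
    ⟨2010, 128, 0, 192, 98, true, true, false, [(0, 4), (3, 17)], []⟩,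
    ⟨2036, 96, 0, 192, 98, true, true, false, [(0, 5), (3, 23)], []⟩,
    ⟨2056, 96, 0, 192, 98, true, true, false, [(0, 6), (3, 22)], []⟩,
    ⟨2072, 96, 0, 192, 98, true, true, false, [(0, 8), (3, 20)], []⟩,
    ⟨2084, 96, 0, 192, 98, true, true, false, [(0, 11), (3, 17)], []⟩,
    ⟨2094, 96, 0, 192, 98, true, true, false, [(0, 15), (3, 13)], []⟩,
    ⟨2103, 96, 0, 192, 98, true, true, false, [(0, 20), (3, 8)], []⟩,
    ⟨2113, 96, 0, 192, 98, true, true, false, [(0, 27), (3, 1)], []⟩,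
    ⟨2141, 128, 0, 192, 98, true, true, false, [(0, 21)], []⟩,
    ⟨2223, 128, 0, 192, 98, true, true, false, [(0, 21)], []⟩,
    ⟨2303, 160, 0, 176, 88, true, true, false, [(0, 18)], []⟩]⟩,
  ⟨103, 108, 10392, 10642, 0, [], [⟨491, 160, 800, 56, 296, false, true, false, [(0, 1), (3, 25)], []⟩,
    ⟨877, 160, 800, 56, 274, false, false, false, [(0, 1), (3, 25)], []⟩,
    ⟨1147, 160, 640, 88, 223, false, false, false, [(0, 1), (3, 23)], []⟩,
    ⟨1312, 160, 640, 104, 191, false, false, false, [(0, 1), (3, 22)], []⟩,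
    ⟨1413, 160, 640, 120, 165, false, false, false, [(0, 1), (3, 21)], []⟩,
    ⟨1475, 160, 640, 120, 159, false, false, false, [(0, 2), (3, 20)], []⟩,
    ⟨1545, 128, 0, 224, 120, true, true, false, [(0, 2), (3, 17)], []⟩,
    ⟨1615, 128, 0, 224, 120, true, true, false, [(0, 2), (3, 17)], []⟩,
    ⟨1685, 128, 0, 224, 120, true, true, false, [(0, 2), (3, 17)], []⟩,
    ⟨1773, 96, 0, 208, 109, true, true, false, [(0, 2), (3, 25)], []⟩,
    ⟨1861, 96, 0, 208, 109, true, true, false, [(0, 2), (3, 25)], []⟩,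
    ⟨1938, 96, 0, 208, 109, true, true, false, [(0, 3), (3, 24)], []⟩,
    ⟨1998, 96, 0, 208, 109, true, true, false, [(0, 3), (3, 24)], []⟩,
    ⟨2035, 96, 0, 208, 109, true, true, false, [(0, 4), (3, 23)], []⟩,
    ⟨2072, 64, 0, 192, 98, true, true, false, [(0, 5), (3, 38)], []⟩,
    ⟨2101, 64, 0, 192, 98, true, true, false, [(0, 8), (3, 35)], []⟩,
    ⟨2121, 64, 0, 192, 98, true, true, false, [(0, 14), (3, 29)], []⟩,
    ⟨2139, 64, 0, 192, 98, true, true, false, [(0, 29), (3, 14)], []⟩,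
    ⟨2170, 64, 0, 192, 98, true, true, false, [(0, 43)], []⟩,
    ⟨2251, 64, 0, 192, 98, true, true, false, [(0, 43)], []⟩,
    ⟨2370, 160, 0, 176, 88, true, true, false, [(0, 19)], []⟩]⟩,
  ⟨109, 118, 10690, 11124, 0, [], [⟨491, 160, 800, 60, 296, false, true, false, [(0, 1), (3, 26)], []⟩,
    ⟨921, 160, 800, 60, 268, false, false, false, [(0, 1), (3, 26)], []⟩,
    ⟨1222, 160, 640, 88, 219, false, false, false, [(0, 1), (3, 24)], []⟩,
    ⟨1406, 160, 640, 104, 185, false, false, false, [(0, 1), (3, 23)], []⟩,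
    ⟨1507, 160, 640, 120, 167, false, false, false, [(0, 1), (3, 22)], []⟩,
    ⟨1595, 160, 0, 224, 120, true, true, false, [(0, 2), (3, 14)], []⟩,
    ⟨1683, 160, 0, 208, 109, true, true, false, [(0, 2), (3, 15)], []⟩,
    ⟨1782, 160, 0, 208, 109, true, true, false, [(0, 2), (3, 15)], []⟩,
    ⟨1881, 160, 0, 208, 109, true, true, false, [(0, 2), (3, 15)], []⟩,
    ⟨1968, 160, 0, 208, 109, true, true, false, [(0, 3), (3, 14)], []⟩,
    ⟨2028, 160, 0, 192, 98, true, true, false, [(0, 3), (3, 15)], []⟩,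
    ⟨2081, 160, 0, 192, 98, true, true, false, [(0, 4), (3, 14)], []⟩,
    ⟨2122, 160, 0, 192, 98, true, true, false, [(0, 5), (3, 13)], []⟩,
    ⟨2150, 160, 0, 192, 98, true, true, false, [(0, 6), (3, 12)], []⟩,
    ⟨2172, 160, 0, 192, 98, true, true, false, [(0, 8), (3, 10)], []⟩,
    ⟨2189, 160, 0, 192, 98, true, true, false, [(0, 11), (3, 7)], []⟩,
    ⟨2206, 160, 0, 192, 98, true, true, false, [(0, 17), (3, 1)], []⟩,
    ⟨2252, 160, 0, 192, 98, true, true, false, [(0, 18)], []⟩,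
    ⟨2349, 160, 0, 192, 98, true, true, false, [(0, 18)], []⟩,
    ⟨2477, 160, 0, 176, 88, true, true, false, [(0, 20)], []⟩]⟩,
  ⟨119, 135, 11170, 11898, 0, [], [⟨491, 160, 800, 72, 296, false, true, false, [(0, 1), (3, 27)], []⟩,
    ⟨964, 160, 800, 72, 255, false, false, false, [(0, 1), (3, 27)], []⟩,
    ⟨1295, 160, 640, 112, 192, false, false, false, [(0, 1), (3, 24)], []⟩,
    ⟨1526, 160, 640, 112, 171, false, false, false, [(0, 1), (3, 24)], []⟩,
    ⟨1667, 160, 640, 128, 150, false, false, false, [(0, 2), (3, 22)], []⟩,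
    ⟨1790, 160, 0, 224, 120, true, true, false, [(0, 2), (3, 15)], []⟩,
    ⟨1928, 128, 0, 192, 98, true, true, false, [(0, 2), (3, 22)], []⟩,
    ⟨2066, 128, 0, 192, 98, true, true, false, [(0, 2), (3, 22)], []⟩,
    ⟨2174, 128, 0, 192, 98, true, true, false, [(0, 3), (3, 21)], []⟩,
    ⟨2249, 128, 0, 192, 98, true, true, false, [(0, 5), (3, 19)], []⟩,
    ⟨2301, 128, 0, 192, 98, true, true, false, [(0, 12), (3, 12)], []⟩,
    ⟨2373, 128, 0, 192, 98, true, true, false, [(0, 24)], []⟩,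
    ⟨2650, 160, 0, 176, 88, true, true, false, [(0, 21)], []⟩]⟩,
  ⟨136, 163, 11941, 13074, 0, [], [⟨546, 160, 800, 88, 280, false, false, false, [(0, 1), (3, 29)], []⟩,
    ⟨1092, 160, 800, 88, 233, false, false, false, [(0, 1), (3, 29)], []⟩,
    ⟨1522, 160, 640, 120, 172, false, false, false, [(0, 1), (3, 26)], []⟩,
    ⟨1785, 160, 640, 120, 157, false, false, false, [(0, 2), (3, 25)], []⟩,
    ⟨2038, 160, 0, 208, 109, true, true, false, [(0, 2), (3, 18)], []⟩,
    ⟨2215, 160, 0, 208, 109, true, true, false, [(0, 2), (3, 18)], []⟩,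
    ⟨2335, 160, 0, 192, 98, true, true, false, [(0, 3), (3, 19)], []⟩,
    ⟨2440, 128, 0, 176, 88, true, true, false, [(0, 6), (3, 22)], []⟩,
    ⟨2618, 128, 0, 176, 88, true, true, false, [(0, 24), (3, 4)], []⟩,
    ⟨2912, 160, 0, 160, 78, true, true, false, [(0, 24)], []⟩]⟩,
  ⟨164, 237, 13113, 15765, 0, [], [⟨601, 160, 800, 120, 247, false, false, false, [(0, 1), (3, 32)], []⟩,
    ⟨1277, 160, 800, 120, 201, false, false, false, [(0, 1), (3, 32)], []⟩,
    ⟨1809, 160, 640, 128, 160, false, false, false, [(0, 1), (3, 31)], []⟩,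
    ⟨2181, 160, 0, 208, 109, true, true, false, [(0, 2), (3, 22)], []⟩,
    ⟨2441, 160, 0, 192, 98, true, true, false, [(0, 2), (3, 24)], []⟩,
    ⟨2584, 160, 0, 176, 88, true, true, false, [(0, 3), (3, 24)], []⟩,
    ⟨2663, 160, 0, 176, 88, true, true, false, [(0, 6), (3, 21)], []⟩,
    ⟨2701, 160, 0, 176, 88, true, true, false, [(0, 16), (3, 11)], []⟩,
    ⟨2781, 160, 0, 176, 88, true, true, false, [(0, 27)], []⟩,
    ⟨3511, 160, 0, 176, 88, true, true, false, [(0, 27)], []⟩]⟩,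
  ⟨238, 249, 15797, 16159, 0, [], [⟨738, 160, 800, 52, 296, false, true, false, [(0, 1), (3, 39)], []⟩,
    ⟨1846, 160, 800, 72, 228, false, false, false, [(0, 1), (3, 37)], []⟩,
    ⟨2954, 160, 0, 176, 88, true, true, false, [(0, 2), (3, 26)], []⟩,
    ⟨3598, 160, 0, 112, 87, true, true, false, [(0, 4), (3, 30)], []⟩]⟩] = true := by
  decide +kernel

theorem lo_456 : rowsOK false 456 496 1024 1024 0 512 0 [] 250 100 [
  ⟨100, 105, 10240, 10493, 0, [], [⟨491, 160, 800, 60, 340, false, false, false, [(0, 1), (3, 27)], []⟩,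
    ⟨921, 160, 800, 60, 296, false, true, false, [(0, 1), (3, 27)], []⟩,
    ⟨1222, 160, 640, 96, 230, false, false, false, [(0, 1), (3, 25)], []⟩,
    ⟨1432, 160, 640, 112, 201, false, false, false, [(0, 1), (3, 24)], []⟩,
    ⟨1561, 160, 640, 128, 172, false, false, false, [(0, 2), (3, 22)], []⟩,
    ⟨1662, 128, 0, 224, 120, true, true, false, [(0, 2), (3, 20)], []⟩,
    ⟨1775, 128, 0, 224, 120, true, true, false, [(0, 2), (3, 20)], []⟩,
    ⟨1888, 128, 0, 224, 120, true, true, false, [(0, 2), (3, 20)], []⟩,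
    ⟨1977, 128, 0, 224, 120, true, true, false, [(0, 2), (3, 20)], []⟩,
    ⟨2066, 96, 0, 208, 109, true, true, false, [(0, 3), (3, 28)], []⟩,
    ⟨2136, 96, 0, 208, 109, true, true, false, [(0, 4), (3, 27)], []⟩,
    ⟨2185, 96, 0, 208, 109, true, true, false, [(0, 5), (3, 26)], []⟩,
    ⟨2218, 96, 0, 208, 109, true, true, false, [(0, 7), (3, 24)], []⟩,
    ⟨2238, 96, 0, 208, 109, true, true, false, [(0, 11), (3, 20)], []⟩,
    ⟨2250, 96, 0, 208, 109, true, true, false, [(0, 16), (3, 15)], []⟩,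
    ⟨2264, 48, 0, 192, 98, true, true, false, [(0, 43), (3, 22)], []⟩,
    ⟨2289, 48, 0, 192, 98, true, true, false, [(0, 65)], []⟩,
    ⟨2389, 48, 0, 192, 98, true, true, false, [(0, 65)], []⟩,
    ⟨2542, 160, 0, 176, 88, true, true, false, [(0, 21)], []⟩]⟩,
  ⟨106, 115, 10542, 10982, 0, [], [⟨491, 160, 800, 64, 337, false, false, false, [(0, 1), (3, 28)], []⟩,
    ⟨964, 160, 800, 64, 291, false, false, false, [(0, 1), (3, 28)], []⟩,
    ⟨1336, 160, 640, 96, 230, false, false, false, [(0, 1), (3, 26)], []⟩,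
    ⟨1564, 160, 640, 128, 176, false, false, false, [(0, 1), (3, 24)], []⟩,
    ⟨1689, 160, 640, 128, 164, false, false, false, [(0, 2), (3, 23)], []⟩,
    ⟨1829, 128, 0, 224, 120, true, true, false, [(0, 2), (3, 21)], []⟩,
    ⟨1969, 128, 0, 224, 120, true, true, false, [(0, 2), (3, 21)], []⟩,
    ⟨2067, 128, 0, 224, 120, true, true, false, [(0, 3), (3, 20)], []⟩,
    ⟨2127, 160, 0, 208, 109, true, true, false, [(0, 3), (3, 17)], []⟩,
    ⟨2202, 96, 0, 192, 98, true, true, false, [(0, 4), (3, 30)], []⟩,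
    ⟨2261, 96, 0, 192, 98, true, true, false, [(0, 5), (3, 29)], []⟩,
    ⟨2307, 96, 0, 192, 98, true, true, false, [(0, 9), (3, 25)], []⟩,
    ⟨2339, 96, 0, 192, 98, true, true, false, [(0, 23), (3, 11)], []⟩,
    ⟨2432, 96, 0, 192, 98, true, true, false, [(0, 34)], []⟩,
    ⟨2660, 160, 0, 176, 88, true, true, false, [(0, 22)], []⟩]⟩,
  ⟨116, 132, 11028, 11765, 0, [], [⟨491, 160, 800, 80, 296, false, true, false, [(0, 1), (3, 29)], []⟩,
    ⟨982, 160, 800, 80, 276, false, false, false, [(0, 1), (3, 29)], []⟩,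
    ⟨1412, 160, 640, 96, 228, false, false, false, [(0, 1), (3, 28)], []⟩,
    ⟨1713, 160, 640, 120, 176, false, false, false, [(0, 2), (3, 25)], []⟩,
    ⟨1897, 160, 0, 224, 120, true, true, false, [(0, 2), (3, 18)], []⟩,
    ⟨2081, 160, 0, 208, 109, true, true, false, [(0, 2), (3, 19)], []⟩,
    ⟨2258, 128, 0, 208, 109, true, true, false, [(0, 3), (3, 23)], []⟩,
    ⟨2355, 160, 0, 192, 98, true, true, false, [(0, 4), (3, 18)], []⟩,
    ⟨2421, 160, 0, 192, 98, true, true, false, [(0, 8), (3, 14)], []⟩,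
    ⟨2495, 160, 0, 192, 98, true, true, false, [(0, 19), (3, 3)], []⟩,
    ⟨2850, 160, 0, 176, 88, true, true, false, [(0, 23)], []⟩]⟩,
  ⟨133, 172, 11809, 13430, 0, [], [⟨546, 160, 800, 112, 287, false, false, false, [(0, 1), (3, 31)], []⟩,
    ⟨1092, 160, 800, 112, 240, false, false, false, [(0, 1), (3, 31)], []⟩,
    ⟨1618, 160, 640, 120, 194, false, false, false, [(0, 1), (3, 30)], []⟩,
    ⟨1940, 160, 640, 144, 150, false, false, false, [(0, 2), (3, 27)], []⟩,
    ⟨2193, 160, 0, 208, 109, true, true, false, [(0, 2), (3, 22)], []⟩,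
    ⟨2392, 160, 0, 208, 109, true, true, false, [(0, 3), (3, 21)], []⟩,
    ⟨2514, 160, 0, 192, 98, true, true, false, [(0, 4), (3, 21)], []⟩,
    ⟨2589, 160, 0, 192, 98, true, true, false, [(0, 7), (3, 18)], []⟩,
    ⟨2635, 160, 0, 192, 98, true, true, false, [(0, 21), (3, 4)], []⟩,
    ⟨2741, 160, 0, 192, 98, true, true, false, [(0, 25)], []⟩,
    ⟨3253, 160, 0, 176, 88, true, true, false, [(0, 27)], []⟩]⟩,
  ⟨173, 249, 13468, 16159, 0, [], [⟨656, 160, 800, 128, 267, false, false, false, [(0, 1), (3, 36)], []⟩,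
    ⟨1476, 160, 800, 128, 213, false, false, false, [(0, 1), (3, 36)], []⟩,
    ⟨2194, 160, 640, 144, 150, false, false, false, [(0, 1), (3, 34)], []⟩,
    ⟨2696, 160, 0, 192, 98, true, true, false, [(0, 2), (3, 28)], []⟩,
    ⟨2972, 160, 0, 192, 98, true, true, false, [(0, 4), (3, 26)], []⟩,
    ⟨3090, 160, 0, 192, 98, true, true, false, [(0, 29), (3, 1)], []⟩,
    ⟨3914, 160, 0, 176, 88, true, true, false, [(0, 32)], []⟩]⟩] = true := by
  decide +kernel

theorem lo_496 : rowsOK false 496 536 1024 1024 0 512 0 [] 250 100 [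
  ⟨100, 113, 10240, 10886, 0, [], [⟨491, 160, 800, 72, 368, false, false, false, [(0, 1), (3, 30)], []⟩,
    ⟨982, 160, 800, 72, 296, false, true, false, [(0, 1), (3, 30)], []⟩,
    ⟨1412, 160, 640, 104, 243, false, false, false, [(0, 1), (3, 28)], []⟩,
    ⟨1713, 160, 640, 160, 165, false, false, false, [(0, 2), (3, 23)], []⟩,
    ⟨1897, 160, 0, 240, 132, true, true, false, [(0, 2), (3, 18)], []⟩,
    ⟨2081, 160, 0, 224, 120, true, true, false, [(0, 2), (3, 19)], []⟩,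
    ⟨2242, 160, 0, 224, 120, true, true, false, [(0, 3), (3, 18)], []⟩,
    ⟨2354, 160, 0, 208, 109, true, true, false, [(0, 4), (3, 18)], []⟩,
    ⟨2432, 160, 0, 208, 109, true, true, false, [(0, 7), (3, 15)], []⟩,
    ⟨2493, 160, 0, 208, 109, true, true, false, [(0, 17), (3, 5)], []⟩,
    ⟨2650, 160, 0, 192, 98, true, true, false, [(0, 23)], []⟩,
    ⟨2850, 160, 0, 176, 88, true, true, false, [(0, 24)], []⟩]⟩,
  ⟨114, 136, 10933, 11942, 0, [], [⟨546, 160, 800, 88, 349, false, false, false, [(0, 1), (3, 32)], []⟩,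
    ⟨1160, 160, 800, 88, 291, false, false, false, [(0, 1), (3, 32)], []⟩,
    ⟨1643, 160, 640, 112, 229, false, false, false, [(0, 1), (3, 30)], []⟩,
    ⟨1981, 160, 640, 144, 173, false, false, false, [(0, 2), (3, 27)], []⟩,
    ⟨2307, 160, 0, 224, 120, true, true, false, [(0, 2), (3, 21)], []⟩,
    ⟨2535, 160, 0, 208, 109, true, true, false, [(0, 3), (3, 21)], []⟩,
    ⟨2694, 160, 0, 208, 109, true, true, false, [(0, 10), (3, 14)], []⟩,
    ⟨3126, 160, 0, 192, 98, true, true, false, [(0, 26)], []⟩]⟩,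
  ⟨137, 178, 11985, 13662, 0, [], [⟨601, 160, 800, 112, 296, false, true, false, [(0, 1), (3, 35)], []⟩,
    ⟨1352, 160, 800, 112, 259, false, false, false, [(0, 1), (3, 35)], []⟩,
    ⟨2009, 160, 640, 144, 178, false, false, false, [(0, 1), (3, 32)], []⟩,
    ⟨2468, 160, 0, 208, 109, true, true, false, [(0, 2), (3, 26)], []⟩,
    ⟨2789, 160, 0, 208, 109, true, true, false, [(0, 3), (3, 25)], []⟩,
    ⟨3576, 128, 0, 192, 98, true, true, false, [(0, 12), (3, 24)], []⟩]⟩,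
  ⟨179, 249, 13700, 16159, 0, [], [⟨656, 160, 800, 128, 296, false, true, false, [(0, 1), (3, 40)], []⟩,
    ⟨1641, 160, 800, 128, 234, false, false, false, [(0, 1), (3, 40)], []⟩,
    ⟨2626, 160, 640, 144, 160, false, false, false, [(0, 2), (3, 37)], []⟩,
    ⟨3229, 160, 0, 192, 98, true, true, false, [(0, 3), (3, 31)], []⟩,
    ⟨4230, 160, 0, 176, 88, true, true, false, [(0, 18), (3, 18)], []⟩]⟩] = true := by
  decide +kernel

theorem lo_536 : rowsOK false 536 576 1024 1024 0 512 0 [] 250 100 [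
  ⟨100, 130, 10240, 11676, 0, [], [⟨491, 160, 800, 120, 360, false, false, false, [(0, 1), (3, 32)], []⟩,
    ⟨1043, 160, 800, 120, 296, false, true, false, [(0, 1), (3, 32)], []⟩,
    ⟨1575, 160, 640, 128, 243, false, false, false, [(0, 1), (3, 31)], []⟩,
    ⟨1934, 160, 640, 160, 182, false, false, false, [(0, 2), (3, 28)], []⟩,
    ⟨2216, 160, 0, 240, 132, true, true, false, [(0, 2), (3, 22)], []⟩,
    ⟨2413, 160, 0, 240, 132, true, true, false, [(0, 3), (3, 21)], []⟩,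
    ⟨2509, 160, 0, 240, 132, true, true, false, [(0, 4), (3, 20)], []⟩,
    ⟨2605, 96, 0, 224, 120, true, true, false, [(0, 6), (3, 36)], []⟩,
    ⟨2658, 96, 0, 224, 120, true, true, false, [(0, 19), (3, 23)], []⟩,
    ⟨2695, 96, 0, 224, 120, true, true, false, [(0, 42)], []⟩,
    ⟨2791, 128, 0, 208, 109, true, true, false, [(0, 33)], []⟩,
    ⟨3284, 160, 0, 208, 109, true, true, false, [(0, 27)], []⟩]⟩,
  ⟨131, 170, 11720, 13352, 0, [], [⟨601, 160, 800, 112, 362, false, false, false, [(0, 1), (3, 37)], []⟩,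
    ⟨1428, 160, 800, 112, 290, false, false, false, [(0, 1), (3, 37)], []⟩,
    ⟨2255, 160, 640, 160, 177, false, false, false, [(0, 2), (3, 32)], []⟩,
    ⟨2833, 160, 0, 224, 120, true, true, false, [(0, 2), (3, 27)], []⟩,
    ⟨3756, 160, 0, 208, 109, true, true, false, [(0, 6), (3, 24)], []⟩]⟩,
  ⟨171, 249, 13390, 16159, 0, [], [⟨656, 160, 800, 144, 331, false, false, false, [(0, 1), (3, 42)], []⟩,
    ⟨1641, 160, 800, 144, 255, false, false, false, [(0, 1), (3, 42)], []⟩,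
    ⟨2749, 160, 0, 192, 138, true, true, true, [(0, 1), (3, 27)], [(3, 10)]⟩,
    ⟨3428, 160, 0, 208, 109, true, true, false, [(0, 3), (3, 34)], []⟩,
    ⟨4545, 160, 0, 192, 98, true, true, false, [(0, 24), (3, 14)], []⟩]⟩] = true := by
  decide +kernel

theorem lo_576 : rowsOK false 576 616 1024 1024 0 512 0 [] 250 100 [
  ⟨100, 130, 10240, 11676, 0, [], [⟨491, 160, 800, 112, 399, false, false, true, [(0, 1), (3, 28)], [(3, 7)]⟩,
    ⟨1105, 160, 800, 112, 346, false, false, false, [(0, 1), (3, 35)], []⟩,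
    ⟨1719, 160, 640, 128, 268, false, false, false, [(0, 1), (3, 34)], []⟩,
    ⟨2202, 160, 0, 224, 139, true, true, true, [(0, 2), (3, 20)], [(3, 6)]⟩,
    ⟨2582, 160, 0, 240, 132, true, true, false, [(0, 3), (3, 24)], []⟩,
    ⟨2815, 160, 0, 224, 120, true, true, false, [(0, 5), (3, 23)], []⟩,
    ⟨3048, 160, 0, 224, 120, true, true, false, [(0, 20), (3, 8)], []⟩,
    ⟨3512, 160, 0, 192, 98, true, true, false, [(0, 31)], []⟩]⟩,
  ⟨131, 189, 11720, 14078, 0, [], [⟨601, 160, 800, 144, 370, false, false, false, [(0, 1), (3, 40)], []⟩,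
    ⟨1428, 160, 800, 144, 296, false, true, false, [(0, 1), (3, 40)], []⟩,
    ⟨2358, 160, 640, 176, 192, false, false, false, [(0, 2), (3, 36)], []⟩,
    ⟨3009, 160, 0, 224, 120, true, true, false, [(0, 2), (3, 32)], []⟩,
    ⟨3448, 160, 0, 224, 120, true, true, false, [(0, 6), (3, 28)], []⟩,
    ⟨4235, 160, 0, 192, 98, true, true, false, [(0, 37)], []⟩]⟩,
  ⟨190, 249, 14114, 16159, 0, [], [⟨738, 160, 800, 120, 391, false, false, false, [(0, 1), (3, 48)], []⟩,
    ⟨2123, 160, 800, 120, 290, false, false, false, [(0, 1), (3, 48)], []⟩,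
    ⟨3681, 160, 0, 224, 120, true, true, false, [(0, 2), (3, 37)], []⟩,
    ⟨4861, 160, 0, 176, 95, true, true, false, [(0, 7), (3, 37)], []⟩]⟩] = true := by
  decide +kernel

theorem lo_616 : rowsOK false 616 656 1024 1024 0 512 0 [] 250 100 [
  ⟨100, 130, 10240, 11676, 0, [], [⟨546, 160, 800, 128, 399, false, false, true, [(0, 1), (3, 29)], [(3, 8)]⟩,
    ⟨1229, 160, 800, 128, 358, false, false, false, [(0, 1), (3, 37)], []⟩,
    ⟨1997, 160, 640, 144, 264, false, false, false, [(0, 1), (3, 36)], []⟩,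
    ⟨2669, 160, 0, 224, 132, true, true, true, [(0, 2), (3, 22)], [(3, 7)]⟩,
    ⟨3039, 160, 0, 240, 132, true, true, false, [(0, 4), (3, 26)], []⟩,
    ⟨3740, 160, 0, 224, 120, true, true, false, [(0, 27), (3, 4)], []⟩]⟩,
  ⟨131, 209, 11720, 14804, 0, [], [⟨601, 160, 800, 176, 378, false, false, false, [(0, 1), (3, 43)], []⟩,
    ⟨1503, 160, 800, 176, 296, false, true, false, [(0, 1), (3, 43)], []⟩,
    ⟨2631, 160, 640, 192, 192, false, false, false, [(0, 2), (3, 40)], []⟩,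
    ⟨3322, 160, 0, 256, 145, true, true, false, [(0, 3), (3, 34)], []⟩,
    ⟨3648, 128, 0, 240, 132, true, true, false, [(0, 10), (3, 37)], []⟩,
    ⟨4742, 160, 0, 224, 120, true, true, false, [(0, 40)], []⟩]⟩,
  ⟨210, 249, 14839, 16159, 0, [], [⟨820, 160, 800, 104, 399, false, false, true, [(0, 1), (3, 45)], [(3, 9)]⟩,
    ⟨2513, 160, 800, 104, 296, false, true, false, [(0, 1), (3, 54)], []⟩,
    ⟨5176, 160, 0, 208, 109, true, true, false, [(0, 2), (3, 43)], []⟩]⟩] = true := by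
  decide +kernel

theorem lo_656 : rowsOK false 656 696 1024 1024 0 512 0 [] 250 100 [
  ⟨100, 145, 10240, 12331, 0, [], [⟨546, 160, 800, 160, 399, false, false, true, [(0, 1), (3, 30)], [(3, 10)]⟩,
    ⟨1297, 160, 800, 160, 359, false, false, false, [(0, 1), (3, 40)], []⟩,
    ⟨2236, 160, 640, 192, 232, false, false, false, [(0, 2), (3, 36)], []⟩,
    ⟨2893, 160, 0, 240, 132, true, true, true, [(0, 2), (3, 24)], [(3, 9)]⟩,
    ⟨3214, 160, 0, 256, 145, true, true, false, [(0, 5), (3, 29)], []⟩,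
    ⟨4191, 128, 0, 240, 132, true, true, false, [(0, 32), (3, 11)], []⟩]⟩,
  ⟨146, 233, 12373, 15631, 0, [], [⟨656, 160, 800, 192, 399, false, false, false, [(0, 1), (3, 48)], []⟩,
    ⟨1764, 160, 800, 192, 296, false, true, false, [(0, 1), (3, 48)], []⟩,
    ⟨3288, 160, 0, 240, 149, true, true, true, [(0, 2), (3, 29)], [(3, 13)]⟩,
    ⟨4034, 160, 0, 256, 145, true, true, false, [(0, 4), (3, 38)], []⟩,
    ⟨5313, 160, 0, 224, 120, true, true, false, [(0, 46)], []⟩]⟩,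
  ⟨234, 249, 15664, 16159, 0, [], [⟨902, 160, 800, 72, 399, false, false, true, [(0, 1), (3, 54)], [(3, 7)]⟩,
    ⟨3188, 160, 800, 120, 296, false, true, false, [(0, 1), (3, 56)], []⟩,
    ⟨5492, 160, 0, 160, 150, true, true, false, [(0, 1), (3, 52)], []⟩]⟩] = true := by
  decide +kernel

theorem lo_696 : rowsOK false 696 736 1024 1024 0 512 0 [] 250 100 [
  ⟨100, 145, 10240, 12331, 0, [], [⟨546, 160, 800, 176, 399, false, false, true, [(0, 1), (3, 31)], [(3, 11)]⟩,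
    ⟨1297, 160, 800, 176, 383, false, false, false, [(0, 1), (3, 42)], []⟩,
    ⟨2330, 160, 640, 192, 262, false, false, false, [(0, 2), (3, 39)], []⟩,
    ⟨3143, 160, 0, 240, 148, true, true, true, [(0, 2), (3, 26)], [(3, 10)]⟩,
    ⟨4432, 96, 0, 256, 145, true, true, false, [(0, 6), (3, 55)], []⟩]⟩,
  ⟨146, 233, 12373, 15631, 0, [], [⟨656, 160, 800, 192, 399, false, false, true, [(0, 1), (3, 37)], [(3, 14)]⟩,
    ⟨1887, 160, 800, 192, 337, false, false, false, [(0, 1), (3, 51)], []⟩,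
    ⟨3734, 160, 0, 256, 145, true, true, true, [(0, 2), (3, 31)], [(3, 13)]⟩,
    ⟨5618, 160, 0, 256, 145, true, true, false, [(0, 5), (3, 41)], []⟩]⟩,
  ⟨234, 249, 15664, 16159, 0, [], [⟨902, 160, 800, 72, 399, false, false, true, [(0, 1), (3, 55)], [(3, 10)]⟩,
    ⟨3188, 160, 800, 120, 355, false, false, true, [(0, 1), (3, 54)], [(3, 6)]⟩,
    ⟨5808, 160, 0, 160, 170, true, false, false, [(0, 1), (3, 56)], []⟩]⟩] = true := by
  decide +kernel

theorem lo_736 : rowsOK false 736 776 1024 1024 0 512 0 [] 250 100 [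
  ⟨100, 120, 10240, 11218, 0, [], [⟨601, 160, 800, 120, 399, false, false, true, [(2, 36)], [(2, 9)]⟩,
    ⟨1503, 160, 640, 120, 399, false, false, true, [(2, 38)], [(2, 7)]⟩,
    ⟨2405, 160, 640, 240, 247, false, false, false, [(0, 1), (2, 36)], []⟩,
    ⟨2957, 160, 0, 256, 183, true, true, true, [(0, 13), (2, 14)], [(2, 9)]⟩,
    ⟨3295, 160, 0, 256, 157, true, true, true, [(0, 27), (2, 3)], [(2, 6)]⟩,
    ⟨3760, 160, 0, 256, 145, true, true, false, [(0, 36)], []⟩,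
    ⟨4251, 160, 0, 192, 162, true, true, false, [(0, 40)], []⟩]⟩,
  ⟨121, 157, 11264, 12831, 0, [], [⟨738, 160, 800, 144, 399, false, false, true, [(2, 40)], [(2, 10)]⟩,
    ⟨1984, 160, 640, 144, 399, false, false, true, [(2, 40)], [(2, 10)]⟩,
    ⟨3074, 160, 0, 240, 214, true, true, true, [(0, 2), (2, 24)], [(2, 16)]⟩,
    ⟨3675, 160, 0, 256, 151, true, true, true, [(0, 27), (2, 6)], [(2, 8)]⟩,
    ⟨4862, 160, 0, 256, 145, true, true, false, [(0, 41)], []⟩]⟩,
  ⟨158, 229, 12871, 15496, 0, [], [⟨985, 160, 800, 176, 399, false, false, true, [(2, 43)], [(2, 14)]⟩,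
    ⟨2833, 160, 640, 176, 296, false, true, false, [(2, 57)], []⟩,
    ⟨4126, 160, 0, 256, 156, true, true, true, [(0, 16), (2, 21)], [(2, 13)]⟩,
    ⟨4425, 160, 0, 256, 145, true, true, true, [(0, 37)], [(0, 9), (2, 4)]⟩,
    ⟨5872, 160, 0, 240, 132, true, true, false, [(0, 51)], []⟩]⟩,
  ⟨230, 249, 15529, 16159, 0, [], [⟨1355, 160, 800, 160, 399, false, false, true, [(2, 54)], [(2, 7)]⟩,
    ⟨4406, 160, 640, 240, 200, false, true, false, [(2, 53)], []⟩,
    ⟨6123, 160, 0, 224, 126, true, true, false, [(0, 47), (2, 8)], []⟩]⟩] = true := by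
  decide +kernel

theorem lo_776 : rowsOK false 776 816 1024 1024 0 512 0 [] 250 100 [
  ⟨100, 130, 10240, 11676, 0, [], [⟨656, 160, 800, 144, 399, false, false, true, [(2, 37)], [(2, 11)]⟩,
    ⟨1641, 160, 640, 144, 399, false, false, true, [(2, 39)], [(2, 9)]⟩,
    ⟨2626, 160, 640, 256, 249, false, true, false, [(0, 1), (2, 39)], []⟩,
    ⟨3229, 160, 0, 256, 196, true, true, true, [(0, 17), (2, 13)], [(2, 10)]⟩,
    ⟨3488, 160, 0, 256, 169, true, true, true, [(0, 31), (2, 1)], [(2, 8)]⟩,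
    ⟨3692, 160, 0, 256, 157, true, true, true, [(0, 32)], [(0, 7), (2, 1)]⟩,
    ⟨4653, 160, 0, 256, 145, true, true, false, [(0, 40)], []⟩]⟩,
  ⟨131, 189, 11720, 14078, 0, [], [⟨902, 160, 800, 176, 399, false, false, true, [(2, 42)], [(2, 13)]⟩,
    ⟨2425, 160, 640, 176, 378, false, false, true, [(2, 42)], [(2, 13)]⟩,
    ⟨3758, 160, 0, 256, 188, true, true, true, [(0, 9), (2, 23)], [(2, 17)]⟩,
    ⟨4078, 160, 0, 256, 168, true, true, true, [(0, 37)], [(0, 1), (2, 11)]⟩,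
    ⟨4215, 160, 0, 256, 156, true, true, true, [(0, 37)], [(0, 9), (2, 3)]⟩,
    ⟨5610, 160, 0, 256, 145, true, true, true, [(0, 37)], [(0, 12)]⟩]⟩,
  ⟨190, 249, 14114, 16159, 0, [], [⟨1231, 160, 800, 160, 399, false, false, true, [(2, 51)], [(2, 14)]⟩,
    ⟨3772, 160, 640, 160, 296, false, true, true, [(2, 53)], [(2, 12)]⟩,
    ⟨5172, 160, 0, 256, 145, true, true, true, [(0, 34), (2, 10)], [(2, 12)]⟩,
    ⟨6439, 160, 0, 208, 163, true, true, false, [(0, 60)], []⟩]⟩] = true := by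
  decide +kernel

theorem lo_816 : rowsOK false 816 820 1024 1024 0 512 0 [] 250 100 [
  ⟨100, 145, 10240, 12331, 0, [], [⟨656, 160, 800, 144, 399, false, false, true, [(2, 37)], [(2, 14)]⟩,
    ⟨1764, 160, 640, 176, 399, false, false, true, [(2, 39)], [(2, 10)]⟩,
    ⟨2872, 160, 640, 224, 296, false, false, true, [(0, 1), (2, 36)], [(2, 8)]⟩,
    ⟨3551, 160, 0, 256, 203, true, true, true, [(0, 23), (2, 9)], [(2, 11)]⟩,
    ⟨3783, 160, 0, 256, 180, true, true, true, [(0, 35)], [(0, 3), (2, 5)]⟩,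
    ⟨4938, 160, 0, 256, 156, true, true, true, [(0, 35)], [(0, 8)]⟩]⟩,
  ⟨146, 233, 12373, 15631, 0, [], [⟨985, 160, 800, 192, 399, false, false, true, [(2, 46)], [(2, 14)]⟩,
    ⟨3018, 160, 640, 192, 363, false, false, true, [(2, 47)], [(2, 13)]⟩,
    ⟨4441, 160, 0, 256, 188, true, true, true, [(0, 20), (2, 22)], [(2, 12)]⟩,
    ⟨4782, 160, 0, 256, 168, true, true, true, [(0, 42)], [(0, 9), (2, 3)]⟩,
    ⟨6259, 160, 0, 256, 154, true, true, false, [(0, 54)], []⟩]⟩,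
  ⟨234, 249, 15664, 16159, 0, [], [⟨1478, 160, 800, 272, 399, false, false, true, [(2, 52)], [(2, 3)]⟩,
    ⟨4806, 160, 0, 256, 232, true, true, true, [(2, 29)], [(2, 27)]⟩,
    ⟨6470, 160, 0, 208, 192, true, true, false, [(0, 51), (2, 10)], []⟩]⟩] = true := by
  decide +kernel

end Pool.Agent.Lib.MP_af3a4a_an.P1.CHK.H58.G
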