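import Pool.Agent.Lib.MP_af3a4a_an.P1.CHK.H58.GN
import Pool.Agent.Lib.MP_af3a4a_an.P1.H74.V3b
import Pool.Agent.Lib.MP_af3a4a_an.P1.H81.Vt2

/-!
# The profiles W and P (helper58)
-/

set_option autoImplicit false

namespace Pool.Agent.Lib.MP_af3a4a_an.P1.CHK.H58.G

open Finset MeasureTheory ComplexConjugate
open Pool.Agent.Lib.MP_af3a4a_an.SV (uu av)
open Pool.Agent.Lib.MP_af3a4a_an.P1.H80
open Pool.Agent.Lib.MP_af3a4a_an.P1.H74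
open Pool.Agent.Lib.MP_af3a4a_an.P1.H81
open Pool.Agent.Lib.MP_af3a4a_an.P1.CHK.Arith

theorem profW {N : ℕ} (hN : 1 ≤ N) {w : Fin N → ℂ} {R : ℝ} (hR : 0 < R) (hR1 : R ≤ 3 / 4)
    (hw : ∀ k, 1 ≤ ‖w k‖) (ht : ∑ k, ‖w k - (R : ℂ)‖ ≤ N) : ProfW N w R := by
  intro x hx v hv
  obtain ⟨l, hl⟩ : ∃ l, l = x / R := ⟨_, rfl⟩
  have hx' : x = l * R := by rw [hl, div_mul_cancel₀ _ hR.ne']
  have hl0 : 0 ≤ l := by rw [hl]; exact div_nonneg hx.1 hR.le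
  have hl1 : l ≤ 1 := by rw [hl, div_le_one hR]; exact hx.2
  have h := (dual_V3 hR hR1 hl0 hl1 hv.1 hv.2).qq_le hN hw ht
  rw [hx']
  refine h.trans (Real.exp_le_exp.2 (neg_le_neg (mul_le_mul_of_nonneg_left (le_of_eq ?_)
    (Nat.cast_nonneg N))))
  have e1 : (l * R) ^ 2 * |R - 4 * (l * R) / 3| = R ^ 3 * A3 l := by
    unfold A3
    have : l ^ 2 - 4 / 3 * l ^ 3 = l ^ 2 * (1 - 4 / 3 * l) := by ring
    rw [this, abs_mul, abs_of_nonneg (sq_nonneg l)]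
    have h2 : R - 4 * (l * R) / 3 = R * (1 - 4 / 3 * l) := by ring
    rw [h2, abs_mul, abs_of_pos hR]
    ring
  rw [e1]
  unfold hV3 gV3
  have hR' := hR.ne'
  field_simp

theorem profP {N : ℕ} (hN : 1 ≤ N) {w : Fin N → ℂ} {R : ℝ} (hw : ∀ k, 1 ≤ ‖w k‖)
    (ht : ∑ k, ‖w k - (R : ℂ)‖ ≤ N) (hR : 4 / 5 ≤ R) (hR2 : R ≤ 21 / 10) {pc : ℕ}
    (hpc : pc ≤ 3 ∨ (pc ≤ 4 ∧ 21 / 20 ≤ R)) :
    ∀ x ∈ Set.Icc (0 : ℝ) ((pc : ℝ) / 10), ‖qq (uu w) x‖ ≤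
      Real.exp (-(N * ((x ^ 2 / 2 - x ^ 3 / 5) / max 1 R))) := by
  intro x hx
  rcases le_or_gt (21 / 20) R with h1 | h1
  · rw [max_eq_right (by linarith : (1 : ℝ) ≤ R)]
    refine qq_hi hN hw ht h1 hR2 hx.1 ?_
    have : (pc : ℝ) ≤ 4 := by
      rcases hpc with h | h
      · have : (pc : ℝ) ≤ 3 := by exact_mod_cast h
        linarith
      · exact_mod_cast h.1
    linarith [hx.2]
  · have hp3 : (pc : ℝ) ≤ 3 := by
      rcases hpc with h | h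
      · exact_mod_cast h
      · linarith [h.2]
    have hx3 : x ≤ 3 / 10 := by linarith [hx.2]
    rcases le_or_gt 1 R with h2 | h2
    · rw [max_eq_right h2]
      have hKb : (1 + 2 * x ^ 2 / 15) * (1 + x) ^ 2 ≤ 1 + R := by
        have h3 : 1 + 2 * x ^ 2 / 15 ≤ 253 / 250 := by nlinarith [hx.1]
        have h4 : (1 + x) ^ 2 ≤ 169 / 100 := by nlinarith [hx.1]
        have h5 : (1 + 2 * x ^ 2 / 15) * (1 + x) ^ 2 ≤ 253 / 250 * (169 / 100) :=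
          mul_le_mul h3 h4 (by positivity) (by norm_num)
        linarith
      obtain ⟨α, hD⟩ := dual_hi h2 hR2 hx.1 (by linarith) hKb
      have h := hD.qq_le hN hw ht
      simpa using h
    · rw [max_eq_left h2.le]
      obtain ⟨α, hD⟩ := dual_lo hR h2.le hx.1 hx3
      have h := hD.qq_le hN hw ht
      simpa using h

theorem profP0 {N : ℕ} {w : Fin N → ℂ} {R : ℝ} :
    ∀ x ∈ Set.Icc (0 : ℝ) (((0 : ℕ) : ℝ) / 10), ‖qq (uu w) x‖ ≤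
      Real.exp (-(N * ((x ^ 2 / 2 - x ^ 3 / 5) / max 1 R))) := by
  intro x hx
  have hx0 : x = 0 := by
    have h1 := hx.1
    have h2 := hx.2
    norm_num at h2
    linarith
  rw [hx0]
  unfold qq
  simp

end Pool.Agent.Lib.MP_af3a4a_an.P1.CHK.H58.G
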