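import Pool.Agent.Lib.MP_af3a4a_an.P1.CHK.H58.SL2

/-!
# Boxes for `m₁ ≥ R / 2` (generated, helper58)
-/

set_option autoImplicit false

namespace Pool.Agent.Lib.MP_af3a4a_an.P1.CHK.H58.S

/-- `R` in `[0.75000, 0.80000]` -/
def dH1_0 : List (ℕ × List En) := [
  (524288, [⟨36805017, 5136, 32, 0, 10, 0, 593113224310, 2, 196608, 0⟩,
    ⟨0, 20550, 27, 0, 0, 4, 1019135904931, 2, 147456, 0⟩]),
  (555781, [⟨25944422, 5136, 28, 0, 14, 0, 668799470256, 2, 196608, 0⟩,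
    ⟨0, 5136, 36, 0, 6, 0, 663651678223, 2, 196608, 0⟩]),
  (605858, [⟨0, 21785, 23, 0, 7, 0, 750853227957, 2, 180224, 0⟩]),
  (629145, [⟨0, 23748, 27, 0, 0, 3, 912661838149, 2, 147456, 0⟩]),
  (756691, [⟨0, 24660, 27, 0, 3, 1, 864620102963, 1, 163840, 0⟩]),
  (986796, [⟨0, 29065, 27, 0, 0, 4, 1079010320853, 1, 49152, 0⟩]),
  (1436913, [⟨0, 37905, 28, 0, 0, 1, 1095539159086, 1, 0, 0⟩])]

/-- `R` in `[0.80000, 0.83000]` -/
def dH1_1 : List (ℕ × List En) := [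
  (524288, [⟨0, 20550, 25, 0, 4, 2, 854507303516, 2, 229376, 0⟩]),
  (580276, [⟨33185348, 20550, 13, 0, 17, 1, 833820336091, 2, 212992, 0⟩,
    ⟨0, 20550, 27, 0, 0, 4, 963010615289, 2, 147456, 0⟩]),
  (629145, [⟨0, 22745, 27, 0, 0, 3, 950183310558, 2, 147456, 0⟩]),
  (780311, [⟨0, 24660, 27, 0, 0, 4, 1031761733961, 2, 98304, 0⟩]),
  (1061541, [⟨0, 29973, 27, 0, 3, 1, 1086353020586, 1, 0, 0⟩]),
  (1592312, [⟨0, 40776, 28, 0, 0, 0, 1097476791805, 1, 0, 0⟩])]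

/-- `R` in `[0.83000, 0.86000]` -/
def dH1_2 : List (ℕ × List En) := [
  (524288, [⟨0, 20550, 26, 0, 1, 4, 942586248729, 2, 212992, 0⟩]),
  (598938, [⟨0, 20550, 24, 0, 6, 1, 839227268695, 2, 196608, 0⟩]),
  (629145, [⟨0, 23476, 27, 0, 0, 3, 1023104737827, 2, 131072, 0⟩]),
  (830699, [⟨0, 24660, 27, 0, 0, 4, 1052148907435, 1, 131072, 0⟩]),
  (1229885, [⟨0, 31908, 28, 0, 0, 2, 1092605011274, 1, 0, 0⟩]),
  (1844828, [⟨0, 47244, 27, 0, 0, 0, 1098216503962, 1, 0, 0⟩])]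

/-- `R` in `[0.86000, 0.88000]` -/
def dH1_3 : List (ℕ × List En) := [
  (524288, [⟨0, 20550, 27, 0, 0, 4, 902370057325, 2, 147456, 0⟩]),
  (629145, [⟨0, 20550, 25, 0, 5, 1, 890881169332, 2, 163840, 0⟩]),
  (865075, [⟨0, 24660, 27, 0, 0, 5, 1066001709605, 1, 114688, 0⟩]),
  (1297613, [⟨0, 33229, 28, 0, 0, 2, 1095756035121, 1, 0, 0⟩])]

/-- `R` in `[0.88000, 0.90000]` -/
def dH1_4 : List (ℕ × List En) := [
  (524288, [⟨0, 20550, 27, 0, 0, 4, 942209784894, 2, 147456, 0⟩]),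
  (629145, [⟨0, 20550, 26, 0, 3, 2, 964216865588, 2, 147456, 0⟩]),
  (865075, [⟨0, 24660, 27, 0, 0, 5, 1072531154448, 1, 81920, 0⟩]),
  (1297613, [⟨0, 33229, 28, 0, 0, 2, 1096234985513, 1, 0, 0⟩])]

def dH1 : List (ℕ × List (ℕ × List En)) := [
  (838861, dH1_0),
  (870318, dH1_1),
  (901776, dH1_2),
  (922747, dH1_3),
  (943719, dH1_4)]

theorem dH1_ok : goR2 0 [] 40 false false 524287 943719 786432 dH1 = true := by
  decide +kernel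

end Pool.Agent.Lib.MP_af3a4a_an.P1.CHK.H58.S
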