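import Pool.Agent.Lib.MP_af3a4a_an.P1.CHK.H58.GX
import Pool.Agent.Lib.MP_af3a4a_an.P1.CHK.H58.GP
import Pool.Agent.Lib.MP_af3a4a_an.P1.CHK.H58.GH
import Pool.Agent.Lib.MP_af3a4a_an.P1.CHK.H58.GL1
import Pool.Agent.Lib.MP_af3a4a_an.P1.CHK.H58.GL2
import Pool.Agent.Lib.MP_af3a4a_an.P1.CHK.H58.GL3
import Pool.Agent.Lib.MP_af3a4a_an.P1.CHK.H58.GL4
import Pool.Agent.Lib.MP_af3a4a_an.P1.CHK.H58.SH1
import Pool.Agent.Lib.MP_af3a4a_an.P1.CHK.H58.SH2
import Pool.Agent.Lib.MP_af3a4a_an.P1.CHK.H58.SH3
import Pool.Agent.Lib.MP_af3a4a_an.P1.CHK.H58.SZ2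
import Pool.Agent.Lib.MP_af3a4a_an.P1.H74.Near

/-!
# No configuration with `100 ≤ N < 250`, `R ≤ 21/10` (helper58)
-/

set_option autoImplicit false

namespace Pool.Agent.Lib.MP_af3a4a_an.P1.CHK.H58.G

open Finset MeasureTheory ComplexConjugate
open Pool.Agent.Lib.MP_af3a4a_an.SV (uu av)
open Pool.Agent.Lib.MP_af3a4a_an.P1.H80
open Pool.Agent.Lib.MP_af3a4a_an.P1.H74
open Pool.Agent.Lib.MP_af3a4a_an.P1.H81
open Pool.Agent.Lib.MP_af3a4a_an.P1.CHK.Arith
open Pool.Agent.Lib.MP_af3a4a_an.P1.CHK.H58.S (goR2_sound rcL_le dH1 dH1_ok dH2 dH2_ok dH3 dH3_ok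
  big_f2)
open Pool.Agent.Lib.MP_af3a4a_an.P1.CHK.H39.Tab

section

variable {N : ℕ} {z w : Fin N → ℂ} {R : ℝ} {σ : Fin N → ℂ}

theorem m1_nonneg (hC : Cfg2 N z w R σ) : 0 ≤ (av (uu w)).re := by
  have hR := hC.hR
  have h1 := first_moment (by have := hC.hN; omega) hC.cfg.far hC.dist.le hR
  have : 0 ≤ R * ‖av (uu w)‖ ^ 2 := by positivity
  linarith

/-- boxes, general `d = 0` -/
theorem boxes (hN : 40 ≤ N) (hC : Cfg2 N z w R σ) {Na : ℕ} (hNa : Na ≤ N) (hR21 : R ≤ 21 / 10)
    (hR12 : 1 / 4 ≤ R) (hf : 1 / 2 * R ≤ (av (uu w)).re)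
    {nr : Bool} (hnear : nr = true → 1 / 4 < ‖(R : ℂ) - conj (av (uu w))‖) {Re R0 : ℕ}
    (hRe : R < (Re : ℝ) / 2 ^ 20) (hR0 : (R0 : ℝ) / 2 ^ 20 ≤ R)
    (l : List (ℕ × List (ℕ × List S.En)))
    (hl : S.goR2 0 [] Na false nr 524287 Re R0 l = true) (hfr : (av (uu w)).re ≤ 2 * R) :
    False := by
  have hR := hC.hR
  obtain ⟨f, hfd⟩ : ∃ f, f = (av (uu w)).re / R := ⟨_, rfl⟩
  have hff : (av (uu w)).re = f * R := by rw [hfd, div_mul_cancel₀ _ hR.ne']
  have hf0 : 1 / 2 ≤ f := by rw [hfd, le_div_iff₀ hR]; exact hf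
  have hf2 : f ≤ 2 := by rw [hfd, div_le_iff₀ hR]; exact hfr
  have hflo : ((524287 : ℕ) : ℝ) / 2 ^ 20 < f := by
    refine lt_of_lt_of_le ?_ hf0
    norm_num
  exact goR2_sound hC hN hNa hR21 hff hf2
    (fun g hg => rcL_le (d := 0) (f := f) (S := (N : ℝ) * R ^ 2)
      (by rw [Nat.cast_zero, zero_div]; positivity) [] (by simp) g hg)
    (fun h => by simp at h) hnear hflo hRe l R0 hR0 hl

/-- **`N ≥ 40`, `3/4 ≤ R ≤ 21/10`, `m₁ ≥ R / 2`** -/
theorem hi_half (hN : 40 ≤ N) (hC : Cfg2 N z w R σ) (hR4 : 3 / 4 ≤ R) (hR21 : R ≤ 21 / 10)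
    (hf : 1 / 2 * R ≤ (av (uu w)).re) : False := by
  have hm : (av (uu w)).re ≤ 1 := (Complex.re_le_norm _).trans hC.av_le
  rcases lt_or_ge R (((943719 : ℕ) : ℝ) / 2 ^ 20) with h | h
  · refine boxes hN hC hN hR21 (by linarith) hf (fun h => by simp at h) h ?_ dH1 dH1_ok
      (by linarith)
    refine le_trans ?_ hR4
    norm_num
  · have h9 : 9 / 10 ≤ R := by
      refine le_trans ?_ h
      norm_num
    have hnear : true = true → 1 / 4 < ‖(R : ℂ) - conj (av (uu w))‖ := by
      intro _
      by_contra h
      refine Near.near_40 hN hC ?_ (not_lt.1 h)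
      norm_num
      linarith
    refine boxes hN hC hN hR21 (by linarith) hf hnear ?_ h dH2 dH2_ok (by linarith)
    refine lt_of_le_of_lt hR21 ?_
    norm_num

/-- **`N ≥ 100`, `400/1024 ≤ R ≤ 21/10`, `m₁ ≥ R / 2`** -/
theorem mid_half (hN : 100 ≤ N) (hC : Cfg2 N z w R σ) (hR4 : 400 / 1024 ≤ R) (hR21 : R ≤ 21 / 10)
    (hf : 1 / 2 * R ≤ (av (uu w)).re) : False := by
  rcases le_or_gt (3 / 4) R with h | h
  · exact hi_half (by omega) hC h hR21 hf
  · have hNr : (100 : ℝ) ≤ N := by exact_mod_cast hN
    rcases le_or_gt (av (uu w)).re (2 * R) with h2 | h2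
    · refine boxes (by omega) hC hN hR21 (by linarith) hf (fun h => by simp at h) ?_ ?_ dH3
        dH3_ok h2
      · norm_num
        linarith
      · refine le_trans ?_ hR4
        norm_num
    · refine big_f2 (by omega) hC h2.le ?_
      nlinarith

theorem hi_case (h100 : 100 ≤ N) (h250 : N < 250) (hC : Cfg2 N z w R σ)
    (hf : (av (uu w)).re ≤ 1 / 2 * R) {hi : Bool} {R0 R1 r0 r1 pc : ℕ} {tab : List (ℕ × ℕ)}
    {l : List Row} (hl : rowsOK hi R0 R1 r0 r1 0 512 pc tab 250 100 l = true)
    (hR0 : (R0 : ℝ) / 2 ^ 10 ≤ R) (hR1 : R ≤ (R1 : ℝ) / 2 ^ 10) (h82 : 820 < R1)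
    (hR4 : 4 / 5 ≤ R) (hR21 : R ≤ 21 / 10) (hpc : pc ≤ 3 ∨ (pc ≤ 4 ∧ 21 / 20 ≤ R))
    (hT : ProfT N w (max 1 R) tab) : False := by
  have h0 := m1_nonneg hC
  refine rows_sound hC h250 hR0 hR1 ?_ ?_
    (profP (by omega) hC.cfg.far hC.dist.le hR4 hR21 hpc) (fun h => by omega)
    (fun h => by omega) hT l 100 h100 hl
  · rw [Nat.cast_zero, zero_div, zero_mul]
    exact h0
  · refine hf.trans (le_of_eq ?_)
    norm_num

/-- **`100 ≤ N < 250`, `4/5 ≤ R ≤ 21/10`, `m₁ ≤ R / 2`** -/
theorem hi_low (h100 : 100 ≤ N) (h250 : N < 250) (hC : Cfg2 N z w R σ) (hR4 : 4 / 5 ≤ R)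
    (hR21 : R ≤ 21 / 10) (hf : (av (uu w)).re ≤ 1 / 2 * R) : False := by
  have hN1 : 1 ≤ N := by omega
  have hw := hC.cfg.far
  have ht := hC.dist.le
  rcases le_or_gt R (33 / 40) with g825 | g825
  · exact hi_case h100 h250 hC hf hi_800 (by norm_num; linarith) (by norm_num; linarith) (by norm_num) hR4 hR21
      (Or.inl le_rfl) (tab800_ok (by linarith) (by linarith) hN1 hw ht)
  rcases le_or_gt R (17 / 20) with g850 | g850
  · exact hi_case h100 h250 hC hf hi_825 (by norm_num; linarith) (by norm_num; linarith) (by norm_num) hR4 hR21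
      (Or.inl le_rfl) (tab825_ok (by linarith) (by linarith) hN1 hw ht)
  clear g825
  rcases le_or_gt R (7 / 8) with g875 | g875
  · exact hi_case h100 h250 hC hf hi_850 (by norm_num; linarith) (by norm_num; linarith) (by norm_num) hR4 hR21
      (Or.inl le_rfl) (tab850_ok (by linarith) (by linarith) hN1 hw ht)
  clear g850
  rcases le_or_gt R (9 / 10) with g900 | g900
  · exact hi_case h100 h250 hC hf hi_875 (by norm_num; linarith) (by norm_num; linarith) (by norm_num) hR4 hR21
      (Or.inl le_rfl) (tab875_ok (by linarith) (by linarith) hN1 hw ht)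
  clear g875
  rcases le_or_gt R (37 / 40) with g925 | g925
  · exact hi_case h100 h250 hC hf hi_900 (by norm_num; linarith) (by norm_num; linarith) (by norm_num) hR4 hR21
      (Or.inl le_rfl) (tab900_ok (by linarith) (by linarith) hN1 hw ht)
  clear g900
  rcases le_or_gt R (19 / 20) with g950 | g950
  · exact hi_case h100 h250 hC hf hi_925 (by norm_num; linarith) (by norm_num; linarith) (by norm_num) hR4 hR21
      (Or.inl le_rfl) (tab925_ok (by linarith) (by linarith) hN1 hw ht)
  clear g925
  rcases le_or_gt R (39 / 40) with g975 | g975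
  · exact hi_case h100 h250 hC hf hi_950 (by norm_num; linarith) (by norm_num; linarith) (by norm_num) hR4 hR21
      (Or.inl le_rfl) (tab950_ok (by linarith) (by linarith) hN1 hw ht)
  clear g950
  rcases le_or_gt R (1 / 1) with g1000 | g1000
  · exact hi_case h100 h250 hC hf hi_975 (by norm_num; linarith) (by norm_num; linarith) (by norm_num) hR4 hR21
      (Or.inl le_rfl) (tab975_ok (by linarith) (by linarith) hN1 hw ht)
  clear g975
  rcases le_or_gt R (41 / 40) with g1025 | g1025
  · exact hi_case h100 h250 hC hf hi_1000 (by norm_num; linarith) (by norm_num; linarith) (by norm_num) hR4 hR21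
      (Or.inl le_rfl) (tab1000_ok (by linarith) (by linarith) hN1 hw ht)
  clear g1000
  rcases le_or_gt R (21 / 20) with g1050 | g1050
  · exact hi_case h100 h250 hC hf hi_1025 (by norm_num; linarith) (by norm_num; linarith) (by norm_num) hR4 hR21
      (Or.inl le_rfl) (tab1025_ok (by linarith) (by linarith) hN1 hw ht)
  clear g1025
  rcases le_or_gt R (43 / 40) with g1075 | g1075
  · exact hi_case h100 h250 hC hf hi_1050 (by norm_num; linarith) (by norm_num; linarith) (by norm_num) hR4 hR21
      (Or.inr ⟨le_rfl, by linarith⟩) (tab1050_ok (by linarith) (by linarith) hN1 hw ht)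
  clear g1050
  rcases le_or_gt R (11 / 10) with g1100 | g1100
  · exact hi_case h100 h250 hC hf hi_1075 (by norm_num; linarith) (by norm_num; linarith) (by norm_num) hR4 hR21
      (Or.inr ⟨le_rfl, by linarith⟩) (tab1075_ok (by linarith) (by linarith) hN1 hw ht)
  clear g1075
  rcases le_or_gt R (9 / 8) with g1125 | g1125
  · exact hi_case h100 h250 hC hf hi_1100 (by norm_num; linarith) (by norm_num; linarith) (by norm_num) hR4 hR21
      (Or.inr ⟨le_rfl, by linarith⟩) (tab1100_ok (by linarith) (by linarith) hN1 hw ht)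
  clear g1100
  rcases le_or_gt R (23 / 20) with g1150 | g1150
  · exact hi_case h100 h250 hC hf hi_1125 (by norm_num; linarith) (by norm_num; linarith) (by norm_num) hR4 hR21
      (Or.inr ⟨le_rfl, by linarith⟩) (tab1125_ok (by linarith) (by linarith) hN1 hw ht)
  clear g1125
  rcases le_or_gt R (47 / 40) with g1175 | g1175
  · exact hi_case h100 h250 hC hf hi_1150 (by norm_num; linarith) (by norm_num; linarith) (by norm_num) hR4 hR21
      (Or.inr ⟨le_rfl, by linarith⟩) (tab1150_ok (by linarith) (by linarith) hN1 hw ht)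
  clear g1150
  rcases le_or_gt R (6 / 5) with g1200 | g1200
  · exact hi_case h100 h250 hC hf hi_1175 (by norm_num; linarith) (by norm_num; linarith) (by norm_num) hR4 hR21
      (Or.inr ⟨le_rfl, by linarith⟩) (tab1175_ok (by linarith) (by linarith) hN1 hw ht)
  clear g1175
  rcases le_or_gt R (5 / 4) with g1250 | g1250
  · exact hi_case h100 h250 hC hf hi_1200 (by norm_num; linarith) (by norm_num; linarith) (by norm_num) hR4 hR21
      (Or.inr ⟨le_rfl, by linarith⟩) (tab1200_ok (by linarith) (by linarith) hN1 hw ht)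
  clear g1200
  rcases le_or_gt R (13 / 10) with g1300 | g1300
  · exact hi_case h100 h250 hC hf hi_1250 (by norm_num; linarith) (by norm_num; linarith) (by norm_num) hR4 hR21
      (Or.inr ⟨le_rfl, by linarith⟩) (tab1250_ok (by linarith) (by linarith) hN1 hw ht)
  clear g1250
  rcases le_or_gt R (27 / 20) with g1350 | g1350
  · exact hi_case h100 h250 hC hf hi_1300 (by norm_num; linarith) (by norm_num; linarith) (by norm_num) hR4 hR21
      (Or.inr ⟨le_rfl, by linarith⟩) (tab1300_ok (by linarith) (by linarith) hN1 hw ht)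
  clear g1300
  rcases le_or_gt R (7 / 5) with g1400 | g1400
  · exact hi_case h100 h250 hC hf hi_1350 (by norm_num; linarith) (by norm_num; linarith) (by norm_num) hR4 hR21
      (Or.inr ⟨le_rfl, by linarith⟩) (tab1350_ok (by linarith) (by linarith) hN1 hw ht)
  clear g1350
  rcases le_or_gt R (29 / 20) with g1450 | g1450
  · exact hi_case h100 h250 hC hf hi_1400 (by norm_num; linarith) (by norm_num; linarith) (by norm_num) hR4 hR21
      (Or.inr ⟨le_rfl, by linarith⟩) (tab1400_ok (by linarith) (by linarith) hN1 hw ht)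
  clear g1400
  rcases le_or_gt R (3 / 2) with g1500 | g1500
  · exact hi_case h100 h250 hC hf hi_1450 (by norm_num; linarith) (by norm_num; linarith) (by norm_num) hR4 hR21
      (Or.inr ⟨le_rfl, by linarith⟩) (tab1450_ok (by linarith) (by linarith) hN1 hw ht)
  clear g1450
  rcases le_or_gt R (31 / 20) with g1550 | g1550
  · exact hi_case h100 h250 hC hf hi_1500 (by norm_num; linarith) (by norm_num; linarith) (by norm_num) hR4 hR21
      (Or.inr ⟨le_rfl, by linarith⟩) (tab1500_ok (by linarith) (by linarith) hN1 hw ht)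
  clear g1500
  rcases le_or_gt R (8 / 5) with g1600 | g1600
  · exact hi_case h100 h250 hC hf hi_1550 (by norm_num; linarith) (by norm_num; linarith) (by norm_num) hR4 hR21
      (Or.inr ⟨le_rfl, by linarith⟩) (tab1550_ok (by linarith) (by linarith) hN1 hw ht)
  clear g1550
  rcases le_or_gt R (33 / 20) with g1650 | g1650
  · exact hi_case h100 h250 hC hf hi_1600 (by norm_num; linarith) (by norm_num; linarith) (by norm_num) hR4 hR21
      (Or.inr ⟨le_rfl, by linarith⟩) (tab1600_ok (by linarith) (by linarith) hN1 hw ht)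
  clear g1600
  rcases le_or_gt R (17 / 10) with g1700 | g1700
  · exact hi_case h100 h250 hC hf hi_1650 (by norm_num; linarith) (by norm_num; linarith) (by norm_num) hR4 hR21
      (Or.inr ⟨le_rfl, by linarith⟩) (tab1650_ok (by linarith) (by linarith) hN1 hw ht)
  clear g1650
  rcases le_or_gt R (7 / 4) with g1750 | g1750
  · exact hi_case h100 h250 hC hf hi_1700 (by norm_num; linarith) (by norm_num; linarith) (by norm_num) hR4 hR21
      (Or.inr ⟨le_rfl, by linarith⟩) (tab1700_ok (by linarith) (by linarith) hN1 hw ht)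
  clear g1700
  rcases le_or_gt R (9 / 5) with g1800 | g1800
  · exact hi_case h100 h250 hC hf hi_1750 (by norm_num; linarith) (by norm_num; linarith) (by norm_num) hR4 hR21
      (Or.inr ⟨le_rfl, by linarith⟩) (tab1750_ok (by linarith) (by linarith) hN1 hw ht)
  clear g1750
  rcases le_or_gt R (37 / 20) with g1850 | g1850
  · exact hi_case h100 h250 hC hf hi_1800 (by norm_num; linarith) (by norm_num; linarith) (by norm_num) hR4 hR21
      (Or.inr ⟨le_rfl, by linarith⟩) (tab1800_ok (by linarith) (by linarith) hN1 hw ht)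
  clear g1800
  rcases le_or_gt R (19 / 10) with g1900 | g1900
  · exact hi_case h100 h250 hC hf hi_1850 (by norm_num; linarith) (by norm_num; linarith) (by norm_num) hR4 hR21
      (Or.inr ⟨le_rfl, by linarith⟩) (tab1850_ok (by linarith) (by linarith) hN1 hw ht)
  clear g1850
  rcases le_or_gt R (39 / 20) with g1950 | g1950
  · exact hi_case h100 h250 hC hf hi_1900 (by norm_num; linarith) (by norm_num; linarith) (by norm_num) hR4 hR21
      (Or.inr ⟨le_rfl, by linarith⟩) (tab1900_ok (by linarith) (by linarith) hN1 hw ht)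
  clear g1900
  rcases le_or_gt R (2 / 1) with g2000 | g2000
  · exact hi_case h100 h250 hC hf hi_1950 (by norm_num; linarith) (by norm_num; linarith) (by norm_num) hR4 hR21
      (Or.inr ⟨le_rfl, by linarith⟩) (tab1950_ok (by linarith) (by linarith) hN1 hw ht)
  clear g1950
  rcases le_or_gt R (41 / 20) with g2050 | g2050
  · exact hi_case h100 h250 hC hf hi_2000 (by norm_num; linarith) (by norm_num; linarith) (by norm_num) hR4 hR21
      (Or.inr ⟨le_rfl, by linarith⟩) (tab2000_ok (by linarith) (by linarith) hN1 hw ht)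
  clear g2000
  exact hi_case h100 h250 hC hf hi_2050 (by norm_num; linarith) (by norm_num; linarith) (by norm_num) hR4 hR21
      (Or.inr ⟨le_rfl, by linarith⟩) (tab2050_ok (by linarith) (by linarith) hN1 hw ht)

theorem lo_case (h100 : 100 ≤ N) (h250 : N < 250) (hC : Cfg2 N z w R σ)
    (hf : (av (uu w)).re ≤ 1 / 2 * R) {R0 R1 : ℕ}
    {l : List Row} (hl : rowsOK false R0 R1 1024 1024 0 512 0 [] 250 100 l = true)
    (hR0 : (R0 : ℝ) / 2 ^ 10 ≤ R) (hR1 : R ≤ (R1 : ℝ) / 2 ^ 10)
    (hR4 : R ≤ 4 / 5) : False := by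
  have h0 := m1_nonneg hC
  refine rows_sound hC h250 hR0 hR1 ?_ ?_ profP0 (fun _ => hR4)
    (fun h => profW (by omega) hC.hR ?_ hC.cfg.far hC.dist.le) (fun p hp => by simp at hp)
    l 100 h100 hl
  · rw [Nat.cast_zero, zero_div, zero_mul]
    exact h0
  · refine hf.trans (le_of_eq ?_)
    norm_num
  · refine hR1.trans ?_
    have : (R1 : ℝ) ≤ 768 := by exact_mod_cast h
    rw [div_le_iff₀ (by positivity)]
    norm_num
    linarith

theorem lp_case (h100 : 100 ≤ N) (h250 : N < 250) (hC : Cfg2 N z w R σ)
    (hf : 1 / 2 * R ≤ (av (uu w)).re) {R0 R1 fx : ℕ} (hfx : (av (uu w)).re ≤ (fx : ℝ) / 1024 * R)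
    {l : List Row} (hl : rowsOK false R0 R1 1024 1024 512 fx 0 [] 250 100 l = true)
    (hR0 : (R0 : ℝ) / 2 ^ 10 ≤ R) (hR1 : R ≤ (R1 : ℝ) / 2 ^ 10)
    (hR4 : R ≤ 4 / 5) : False := by
  refine rows_sound hC h250 hR0 hR1 ?_ hfx profP0 (fun _ => hR4)
    (fun h => profW (by omega) hC.hR ?_ hC.cfg.far hC.dist.le) (fun p hp => by simp at hp)
    l 100 h100 hl
  · refine le_trans (le_of_eq ?_) hf
    norm_num
  · refine hR1.trans ?_
    have : (R1 : ℝ) ≤ 768 := by exact_mod_cast h
    rw [div_le_iff₀ (by positivity)]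
    norm_num
    linarith

/-- **`100 ≤ N < 250`, `190/1024 ≤ R ≤ 4/5`, `m₁ ≤ R / 2`** -/
theorem lo_low (h100 : 100 ≤ N) (h250 : N < 250) (hC : Cfg2 N z w R σ) (hR1 : 190 / 1024 ≤ R)
    (hR4 : R ≤ 4 / 5) (hf : (av (uu w)).re ≤ 1 / 2 * R) : False := by
  rcases le_or_gt R (202 / 1024) with g202 | g202
  · exact lo_case h100 h250 hC hf lo_190 (by norm_num; linarith) (by norm_num; linarith) hR4
  rcases le_or_gt R (214 / 1024) with g214 | g214
  · exact lo_case h100 h250 hC hf lo_202 (by norm_num; linarith) (by norm_num; linarith) hR4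
  clear g202
  rcases le_or_gt R (226 / 1024) with g226 | g226
  · exact lo_case h100 h250 hC hf lo_214 (by norm_num; linarith) (by norm_num; linarith) hR4
  clear g214
  rcases le_or_gt R (238 / 1024) with g238 | g238
  · exact lo_case h100 h250 hC hf lo_226 (by norm_num; linarith) (by norm_num; linarith) hR4
  clear g226
  rcases le_or_gt R (250 / 1024) with g250 | g250
  · exact lo_case h100 h250 hC hf lo_238 (by norm_num; linarith) (by norm_num; linarith) hR4
  clear g238
  rcases le_or_gt R (262 / 1024) with g262 | g262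
  · exact lo_case h100 h250 hC hf lo_250 (by norm_num; linarith) (by norm_num; linarith) hR4
  clear g250
  rcases le_or_gt R (274 / 1024) with g274 | g274
  · exact lo_case h100 h250 hC hf lo_262 (by norm_num; linarith) (by norm_num; linarith) hR4
  clear g262
  rcases le_or_gt R (286 / 1024) with g286 | g286
  · exact lo_case h100 h250 hC hf lo_274 (by norm_num; linarith) (by norm_num; linarith) hR4
  clear g274
  rcases le_or_gt R (290 / 1024) with g290 | g290
  · exact lo_case h100 h250 hC hf lo_286 (by norm_num; linarith) (by norm_num; linarith) hR4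
  clear g286
  rcases le_or_gt R (302 / 1024) with g302 | g302
  · exact lo_case h100 h250 hC hf lo_290 (by norm_num; linarith) (by norm_num; linarith) hR4
  clear g290
  rcases le_or_gt R (314 / 1024) with g314 | g314
  · exact lo_case h100 h250 hC hf lo_302 (by norm_num; linarith) (by norm_num; linarith) hR4
  clear g302
  rcases le_or_gt R (326 / 1024) with g326 | g326
  · exact lo_case h100 h250 hC hf lo_314 (by norm_num; linarith) (by norm_num; linarith) hR4
  clear g314
  rcases le_or_gt R (338 / 1024) with g338 | g338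
  · exact lo_case h100 h250 hC hf lo_326 (by norm_num; linarith) (by norm_num; linarith) hR4
  clear g326
  rcases le_or_gt R (350 / 1024) with g350 | g350
  · exact lo_case h100 h250 hC hf lo_338 (by norm_num; linarith) (by norm_num; linarith) hR4
  clear g338
  rcases le_or_gt R (366 / 1024) with g366 | g366
  · exact lo_case h100 h250 hC hf lo_350 (by norm_num; linarith) (by norm_num; linarith) hR4
  clear g350
  rcases le_or_gt R (382 / 1024) with g382 | g382
  · exact lo_case h100 h250 hC hf lo_366 (by norm_num; linarith) (by norm_num; linarith) hR4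
  clear g366
  rcases le_or_gt R (398 / 1024) with g398 | g398
  · exact lo_case h100 h250 hC hf lo_382 (by norm_num; linarith) (by norm_num; linarith) hR4
  clear g382
  rcases le_or_gt R (400 / 1024) with g400 | g400
  · exact lo_case h100 h250 hC hf lo_398 (by norm_num; linarith) (by norm_num; linarith) hR4
  clear g398
  rcases le_or_gt R (424 / 1024) with g424 | g424
  · exact lo_case h100 h250 hC hf lo_400 (by norm_num; linarith) (by norm_num; linarith) hR4
  clear g400
  rcases le_or_gt R (456 / 1024) with g456 | g456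
  · exact lo_case h100 h250 hC hf lo_424 (by norm_num; linarith) (by norm_num; linarith) hR4
  clear g424
  rcases le_or_gt R (496 / 1024) with g496 | g496
  · exact lo_case h100 h250 hC hf lo_456 (by norm_num; linarith) (by norm_num; linarith) hR4
  clear g456
  rcases le_or_gt R (536 / 1024) with g536 | g536
  · exact lo_case h100 h250 hC hf lo_496 (by norm_num; linarith) (by norm_num; linarith) hR4
  clear g496
  rcases le_or_gt R (576 / 1024) with g576 | g576
  · exact lo_case h100 h250 hC hf lo_536 (by norm_num; linarith) (by norm_num; linarith) hR4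
  clear g536
  rcases le_or_gt R (616 / 1024) with g616 | g616
  · exact lo_case h100 h250 hC hf lo_576 (by norm_num; linarith) (by norm_num; linarith) hR4
  clear g576
  rcases le_or_gt R (656 / 1024) with g656 | g656
  · exact lo_case h100 h250 hC hf lo_616 (by norm_num; linarith) (by norm_num; linarith) hR4
  clear g616
  rcases le_or_gt R (696 / 1024) with g696 | g696
  · exact lo_case h100 h250 hC hf lo_656 (by norm_num; linarith) (by norm_num; linarith) hR4
  clear g656
  rcases le_or_gt R (736 / 1024) with g736 | g736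
  · exact lo_case h100 h250 hC hf lo_696 (by norm_num; linarith) (by norm_num; linarith) hR4
  clear g696
  rcases le_or_gt R (776 / 1024) with g776 | g776
  · exact lo_case h100 h250 hC hf lo_736 (by norm_num; linarith) (by norm_num; linarith) hR4
  clear g736
  rcases le_or_gt R (816 / 1024) with g816 | g816
  · exact lo_case h100 h250 hC hf lo_776 (by norm_num; linarith) (by norm_num; linarith) hR4
  clear g776
  exact lo_case h100 h250 hC hf lo_816 (by norm_num; linarith) (by norm_num; linarith) hR4

/-- **`100 ≤ N < 250`, `190/1024 ≤ R ≤ 400/1024`, `m₁ ≥ R / 2`** -/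
theorem lo_high (h100 : 100 ≤ N) (h250 : N < 250) (hC : Cfg2 N z w R σ) (hR1 : 190 / 1024 ≤ R)
    (hR4 : R ≤ 400 / 1024) (hf : 1 / 2 * R ≤ (av (uu w)).re) : False := by
  have hm : (av (uu w)).re ≤ 1 := (Complex.re_le_norm _).trans hC.av_le
  have hNr : (100 : ℝ) ≤ N := by exact_mod_cast h100
  rcases le_or_gt R (202 / 1024) with g202 | g202
  · exact lp_case h100 h250 hC hf (fx := 5519) (by norm_num; linarith) lp_190 (by norm_num; linarith) (by norm_num; linarith)
      (by linarith)
  rcases le_or_gt R (214 / 1024) with g214 | g214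
  · exact lp_case h100 h250 hC hf (fx := 5191) (by norm_num; linarith) lp_202 (by norm_num; linarith) (by norm_num; linarith)
      (by linarith)
  clear g202
  rcases le_or_gt R (226 / 1024) with g226 | g226
  · exact lp_case h100 h250 hC hf (fx := 4900) (by norm_num; linarith) lp_214 (by norm_num; linarith) (by norm_num; linarith)
      (by linarith)
  clear g214
  rcases le_or_gt R (238 / 1024) with g238 | g238
  · exact lp_case h100 h250 hC hf (fx := 4640) (by norm_num; linarith) lp_226 (by norm_num; linarith) (by norm_num; linarith)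
      (by linarith)
  clear g226
  rcases le_or_gt R (250 / 1024) with g250 | g250
  · exact lp_case h100 h250 hC hf (fx := 4406) (by norm_num; linarith) lp_238 (by norm_num; linarith) (by norm_num; linarith)
      (by linarith)
  clear g238
  rcases le_or_gt R (262 / 1024) with g262 | g262
  · exact lp_case h100 h250 hC hf (fx := 4195) (by norm_num; linarith) lp_250 (by norm_num; linarith) (by norm_num; linarith)
      (by linarith)
  clear g250
  rcases le_or_gt R (274 / 1024) with g274 | g274
  · exact lp_case h100 h250 hC hf (fx := 4003) (by norm_num; linarith) lp_262 (by norm_num; linarith) (by norm_num; linarith)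
      (by linarith)
  clear g262
  rcases le_or_gt R (286 / 1024) with g286 | g286
  · exact lp_case h100 h250 hC hf (fx := 3827) (by norm_num; linarith) lp_274 (by norm_num; linarith) (by norm_num; linarith)
      (by linarith)
  clear g274
  rcases le_or_gt R (290 / 1024) with g290 | g290
  · exact lp_case h100 h250 hC hf (fx := 3667) (by norm_num; linarith) lp_286 (by norm_num; linarith) (by norm_num; linarith)
      (by linarith)
  rcases le_or_gt (2 * R) (av (uu w)).re with h2 | h2
  · refine big_f2 (by omega) hC h2 ?_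
    nlinarith
  clear g286
  rcases le_or_gt R (302 / 1024) with g302 | g302
  · exact lp_case h100 h250 hC hf (fx := 2048) (by norm_num; linarith) lp_290 (by norm_num; linarith) (by norm_num; linarith)
      (by linarith)
  clear g290
  rcases le_or_gt R (314 / 1024) with g314 | g314
  · exact lp_case h100 h250 hC hf (fx := 2048) (by norm_num; linarith) lp_302 (by norm_num; linarith) (by norm_num; linarith)
      (by linarith)
  clear g302
  rcases le_or_gt R (326 / 1024) with g326 | g326
  · exact lp_case h100 h250 hC hf (fx := 2048) (by norm_num; linarith) lp_314 (by norm_num; linarith) (by norm_num; linarith)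
      (by linarith)
  clear g314
  rcases le_or_gt R (338 / 1024) with g338 | g338
  · exact lp_case h100 h250 hC hf (fx := 2048) (by norm_num; linarith) lp_326 (by norm_num; linarith) (by norm_num; linarith)
      (by linarith)
  clear g326
  rcases le_or_gt R (350 / 1024) with g350 | g350
  · exact lp_case h100 h250 hC hf (fx := 2048) (by norm_num; linarith) lp_338 (by norm_num; linarith) (by norm_num; linarith)
      (by linarith)
  clear g338
  rcases le_or_gt R (366 / 1024) with g366 | g366
  · exact lp_case h100 h250 hC hf (fx := 2048) (by norm_num; linarith) lp_350 (by norm_num; linarith) (by norm_num; linarith)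
      (by linarith)
  clear g350
  rcases le_or_gt R (382 / 1024) with g382 | g382
  · exact lp_case h100 h250 hC hf (fx := 2048) (by norm_num; linarith) lp_366 (by norm_num; linarith) (by norm_num; linarith)
      (by linarith)
  clear g366
  rcases le_or_gt R (398 / 1024) with g398 | g398
  · exact lp_case h100 h250 hC hf (fx := 2048) (by norm_num; linarith) lp_382 (by norm_num; linarith) (by norm_num; linarith)
      (by linarith)
  clear g382
  exact lp_case h100 h250 hC hf (fx := 2048) (by norm_num; linarith) lp_398 (by norm_num; linarith) (by norm_num; linarith)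
      (by linarith)

/-- **`100 ≤ N < 250`, `R ≤ 21/10`** -/
theorem below_250 (h100 : 100 ≤ N) (h250 : N < 250) (hC : Cfg2 N z w R σ) (hR : R ≤ 21 / 10) :
    False := by
  rcases le_or_gt R (190 / 1024) with h1 | h1
  · exact c0_sound (R1 := 190) (Na := 100) (Nb := 249) (m := 0) (a := 0) (l := 18672) (lr := 1766271)
      (L0 := 4839303) (L1 := 5789668) (by decide +kernel) hC h100 (by omega) (by norm_num; linarith)
      (Or.inl rfl)
  rcases le_total (av (uu w)).re (1 / 2 * R) with h2 | h2
  · rcases le_or_gt R (4 / 5) with h3 | h3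
    · exact lo_low h100 h250 hC h1.le h3 h2
    · exact hi_low h100 h250 hC h3.le hR h2
  · rcases le_or_gt R (400 / 1024) with h3 | h3
    · exact lo_high h100 h250 hC h1.le h3 h2
    · exact mid_half h100 hC h3.le hR h2

end

end Pool.Agent.Lib.MP_af3a4a_an.P1.CHK.H58.G
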