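import Pool.Agent.Lib.MP_af3a4a_an.P1.CHK.Arith

/-!
# Piece (I), the Bool checker of a box (helper58)

`t, R, f, α, S, μ` in units of `2^-20`; `w, E, φ, P, F` in units of `2^-40`.
-/

set_option autoImplicit false

namespace Pool.Agent.Lib.MP_af3a4a_an.P1.CHK.H58.S

open Pool.Agent.Lib.MP_af3a4a_an.P1.CHK.Arith

structure Bx where
  (R0 R1 f0 f1 Sa Sb ts na nv np nt F md al mu : ℕ)

/-- node value, type A -/
def nA (f0 t : ℕ) : ℕ := t * f0 - (t * t + 1) / 2

/-- node value, type V -/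
def nV (R1 f0 f1 t : ℕ) : ℕ :=
  ev (3 * (t * t) * 1099511627776 / (6597069766656 + 4 * (t * R1)) - (t * t / 512 + 1)) fun H =>
    ev (t * (1048576 - t) * 1208925819614629174706176 /
      ((1099511627776 + t * R1) * (1099511627776 + t * R1))) fun K =>
      Nat.min (((1048576 - 2 * f0) * H + f0 * K) / 1048576)
        (((1048576 - 2 * f1) * H + f1 * K) / 1048576)

/-- next grid point -/
def nx (t : ℕ) : ℕ := Nat.min (t + t / 8) 1048576

/-- upper bound of `exp (-S w)` -/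
def eS (Sa w : ℕ) : ℕ :=
  ev ((Sa * w) >>> 20) fun m => em (Nat.min m 70368744177664)

def step (R1 Sa t w E h P t' w' : ℕ) (k : ℕ → ℕ → ℕ → Bool) : Bool :=
  Nat.ble (t + 1) t' && (Nat.ble (w + 1) w' &&
    ev (1099511627776 - (((R1 * t') * (R1 * t')) >>> 40 + 1)) fun D =>
      Nat.ble 1 D && ev (t' * (t' - t) * 1208925819614629174706176 / (D * (w' - w)) + 1) fun φ =>
        ev (Nat.max h φ) fun h' => ev (P + mU (h' - h) E) fun P' =>
          ev (eS Sa w') fun E' => k E' h' P')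

def gA (R1 f0 Sa : ℕ) :
    ℕ → ℕ → ℕ → ℕ → ℕ → ℕ → (ℕ → ℕ → ℕ → ℕ → ℕ → Bool) → Bool
  | 0, t, w, E, h, P, k => k t w E h P
  | n + 1, t, w, E, h, P, k =>
    ev (nx t) fun t' => ev (nA f0 t') fun w' =>
      step R1 Sa t w E h P t' w' fun E' h' P' => gA R1 f0 Sa n t' w' E' h' P' k

def gV (R1 f0 f1 Sa : ℕ) :
    ℕ → ℕ → ℕ → ℕ → ℕ → ℕ → (ℕ → ℕ → ℕ → ℕ → ℕ → Bool) → Bool
  | 0, t, w, E, h, P, k => k t w E h P
  | n + 1, t, w, E, h, P, k =>
    ev (nx t) fun t' => ev (nV R1 f0 f1 t') fun w' =>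
      step R1 Sa t w E h P t' w' fun E' h' P' => gV R1 f0 f1 Sa n t' w' E' h' P' k

/-- tail of type A -/
def gT (R0 R1 f0 Sa : ℕ) : ℕ → ℕ → ℕ → (ℕ → ℕ → Bool) → Bool
  | 0, t, T, k => k t T
  | n + 1, t, T, k =>
    ev (nx t) fun t' => ev (Nat.min (nA f0 t) (nA f0 t')) fun w =>
      Nat.ble 1 R0 && (Nat.ble 1152921504606846976 (Sa * w) &&
        ev (T + mU ((Sa * 1048576 / R0 + 1 + R1) * (t' - t)) (eS Sa w)) fun T' =>
          gT R0 R1 f0 Sa n t' T' k)

/-- plateau of type A (the profile may decrease, `S w ≥ 1`) -/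
def gP (R1 f0 Sa : ℕ) : ℕ → ℕ → ℕ → (ℕ → ℕ → Bool) → Bool
  | 0, t, Φ, k => k t Φ
  | n + 1, t, Φ, k =>
    ev (nx t) fun t' => ev (Nat.min (nA f0 t) (nA f0 t')) fun w =>
      ev (1099511627776 - (((R1 * t') * (R1 * t')) >>> 40 + 1)) fun D =>
        Nat.ble 1 D && (Nat.ble 1152921504606846976 (Sa * w) &&
          ev (Φ + mU (Sa * (t' * (t' - t)) * 1048576 / D + 1) (eS Sa w)) fun Φ' =>
            gP R1 f0 Sa n t' Φ' k)

/-- upper bound of `|1 - y m|`, `y = t R` -/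
def p1U (R0 R1 f0 t : ℕ) : ℕ :=
  bif Nat.ble t (2 * f0) then
    (2199023255552 - ((R0 * R0) * (t * (2 * f0 - t))) >>> 40) / 2 + 1
  else (2199023255552 + (((R1 * R1) * (t * (t - 2 * f0))) >>> 40 + 1)) / 2 + 1

/-- `ys exp (p - m) ≤ G` -/
def core (ys p m G : ℕ) : Bool :=
  ev p fun p => ev (Nat.min m (p + 70368744177664)) fun m => Nat.ble (mU ys (es p m)) G

/-- the maximum point of `y exp (1 - y)` on `[y0, y1]` -/
def yst (y0 y1 : ℕ) : ℕ :=
  bif Nat.ble y1 1099511627776 then y1 else bif Nat.ble 1099511627776 y0 then y0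
    else 1099511627776

/-- the cost of `α` -/
def gn (f1 al x : ℕ) : ℕ :=
  bif Nat.beq al 0 then 0 else al * f1 + (al * al / 2 + 1) +
    (((al * al) * (x * x * 1099511627776 + x * x * (x * x))) >>> 82 + 1)

/-- tests 1 (on the ray) and 2 (certificate) -/
def endA (b : Bx) (l G : ℕ) : Bool :=
  ev (b.al * b.R1 / 1048576 + 1) fun x => ev (b.al * l) fun gp => ev (gn b.f1 b.al x) fun gn =>
    ev (l * b.R1) fun y1 => ev (yst (l * b.R0) y1) fun ys =>
      (bif Nat.beq b.Sb 0 then Nat.ble gn gp else true) && (Nat.ble 1 ys && (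
        bif Nat.beq b.md 1 then
          Nat.ble 1048576 (b.al + l) && (Nat.ble (b.al * b.R1) 428809534832 &&
          (Nat.ble b.al (2 * l) &&
          core ys (1099511627776 + ((x * (y1 - 1099511627776)) >>> 20 + 1) +
            ((b.Sb * (gn - gp)) >>> 20 + 1))
            (ys + (b.Sa * (gp - gn)) >>> 20 +
              ((b.al * b.R0) * (1099511627776 - b.f1 * b.R1)) >>> 40) G))
        else
          ev (1048576 - l) fun σ => ev (σ * b.R1 / 1048576 + 1) fun s1 =>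
          ev (1048576 + x) fun A1 =>
          Nat.ble 1 σ && (Nat.ble (b.al * b.R1) 318858372055 &&
          (Nat.ble (σ * b.R1) 274877906944 && (Nat.ble b.R1 2097152 &&
          (Nat.ble ((1208925819614629174706176 + (A1 * s1) * (A1 * s1)) *
            (A1 * A1 * A1 * (σ * σ))) ((b.al * b.al * 1048576 + 2 * A1 * b.al * σ) *
              1329227995784915872903807060280344576) &&
          core ys (1099511627776 + ((b.Sb * (gn - gp)) >>> 20 + 1))
            (ys + (b.Sa * (gp - gn)) >>> 20 +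
              ((b.al * b.R0) * (1099511627776 - b.f1 * b.R1)) >>> 40) G))))))

/-- test 3: `y = R`, direction `i` -/
def endB (b : Bx) (l G : ℕ) : Bool :=
  Nat.beq l 1048576 && (Nat.ble b.al 408944 && (Nat.ble b.al (2 * b.R0) &&
  ev (b.R1 * (1048576 - b.f0) / 1048576 + 1) fun d1 =>
  ev (b.R1 * (b.f1 - 1048576) / 1048576 + 1) fun d2 =>
  ev (Nat.max d1 d2) fun d =>
  Nat.ble (d * d + b.mu * b.mu) 68719476736 &&
  ev (b.al * b.al) fun a2 =>
  ev (a2 / 2 + (a2 * (a2 * 1099511627776 + a2 * a2)) >>> 82 + 2) fun c =>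
  ev (b.Sa * 1048576 / (b.R1 * b.R1)) fun Nl =>
  ev (yst (l * b.R0) (l * b.R1)) fun ys =>
  Nat.ble c (b.al * b.mu) && (Nat.ble 1 ys &&
  core ys (1099511627776 + ((b.al * (b.R1 - 1048576)) + 1))
    (ys + Nl * (b.al * b.mu - c)) G)))

/-- the final test -/
def fin (b : Bx) (t w E h P : ℕ) : Bool :=
  ev (P - (bif Nat.beq b.Sb 0 then 0 else mL h (emL ((b.Sb * w) >>> 20 + 1)))) fun Φ =>
    gP b.R1 b.f0 b.Sa b.np t Φ fun t Φ =>
    ev (bif Nat.beq b.np 0 then E else eS b.Sa (nA b.f0 t)) fun E =>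
    ev (mU (p1U b.R0 b.R1 b.f0 t) E) fun pT =>
      Nat.ble pT 1099511627776 && ev (1099511627776 - pT) fun A =>
        Nat.ble (b.F * b.F + Φ * Φ) (A * A) &&
          gT b.R0 b.R1 b.f0 b.Sa b.nt t 0 fun l T =>
            Nat.ble (T + 1) b.F && ev (b.F - T) fun G =>
              bif Nat.beq b.md 3 then endB b l G else endA b l G

/-- **the checker of a box** -/
def chk (b : Bx) : Bool :=
  Nat.ble 1 b.f0 && (Nat.ble b.f0 b.f1 && (Nat.ble b.ts 1048576 &&
    ev (nA b.f0 b.ts) fun w1 =>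
      step b.R1 b.Sa 0 0 1099511627776 0 0 b.ts w1 fun E h P =>
        gA b.R1 b.f0 b.Sa b.na b.ts w1 E h P fun t w E h P =>
          bif Nat.beq b.nv 0 then fin b t w E h P
          else Nat.ble b.f1 524288 && (
            ev (nx t) fun t' => ev (Nat.min (nA b.f0 t') (nV b.R1 b.f0 b.f1 t')) fun w' =>
              step b.R1 b.Sa t w E h P t' w' fun E' h' P' =>
                gV b.R1 b.f0 b.f1 b.Sa (b.nv - 1) t' w' E' h' P' fun t w E h P =>
                  fin b t w E h P)))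

end Pool.Agent.Lib.MP_af3a4a_an.P1.CHK.H58.S
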