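import Pool.Agent.Lib.MP_af3a4a_an.P1.CHK.H58.MD
import Pool.Agent.Lib.MP_af3a4a_an.P1.CHK.H58.SD

/-!
# The general checker for `m₁ ≤ (fx / 1024) R` (helper58)

`s, h, κ, β, θ, R, σ, α, f` in units of `2^-10`; `x, mx, S, K, ρ` in units of `2^-20`;
exponents, `E, U, V, T, W` in units of `2^-40`. `ρ = max 1 R`, `β² ρ = N`, `s = β x`,
`κ = m₁ ρ β`.
-/

set_option autoImplicit false

namespace Pool.Agent.Lib.MP_af3a4a_an.P1.CHK.H58.G

open Pool.Agent.Lib.MP_af3a4a_an.P1.CHK.Arith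
open Pool.Agent.Lib.MP_af3a4a_an.P1.CHK.H58.M (kapU inc)
open Pool.Agent.Lib.MP_af3a4a_an.P1.CHK.H58.S (core yst)

/-- a group: `R ∈ [R0, R1]`, `N ∈ [Na, Nb]`, `m₁ ∈ [f0 R, fx R]` -/
structure Gr where
  hi : Bool
  (R0 R1 r0 r1 Na Nb Ba Bb f0 fx pc : ℕ)
  tab : List (ℕ × ℕ)

/-- a cell in `κ`; `q`: the functional S0Q, `c`: end test with the certificate, `t`: with tail -/
structure En where
  (k1 h th sg al : ℕ)
  (q c t : Bool)
  (a b : List (ℕ × ℕ))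

def look : List (ℕ × ℕ) → ℕ → ℕ × ℕ
  | [], _ => (0, 0)
  | p :: _, 0 => p
  | _ :: l, n + 1 => look l n

/-! ### the kernels -/

def k2 (r1 mx xh : ℕ) : ℕ :=
  (r1 * 1024 + ((r1 * (mx * xh)) >>> 30 + 1)) * 1099511627776 / (1099511627776 - xh * xh) + 1

def kapM (hi : Bool) (R1 r1 mx gp gn Ba Bb s s' : ℕ) : ℕ :=
  ev (s' * 1048576 / Ba + 1) fun xh => ev (k2 r1 mx xh) fun K2 =>
    bif hi then Nat.min K2 (kapU (1048576 + 2 * mx) gp gn R1 (s * 1048576 / Bb) xh) else K2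

def kapQ (r1 mx rho2 Ba Bb s s' : ℕ) : ℕ :=
  ev (s' * 1048576 / Ba + 1) fun xh => ev (s * 1048576 / Bb) fun xl =>
  ev (Nat.min 1048576 ((1048576 + rho2 + ((xh * xh) >>> 20 + 1)) / 2 + 1)) fun qh =>
  ev (Nat.max (1099511627776 + xl * xl - 2 * (xh * mx)) ((1048576 - xh) * (1048576 - xh)))
    fun gl =>
  r1 * 512 * (1099511627776 + xh * qh) * (gl + 1099511627776) /
    (gl * (1099511627776 - xh * xh)) + 1

/-! ### the nodes -/

/-- type A -/
def eA (Sm k0 s : ℕ) : ℕ :=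
  ev (Sm * (s * s) / 2 + 1) fun p => es p (Nat.min (k0 * s * 1048576) (p + 70368744177664))

/-- type P -/
def eP (Ba h s : ℕ) : ℕ :=
  ev ((s * s * s) * 1048576 / (5 * Ba) + 1 + h * h * 131072) fun p =>
    es p (Nat.min (s * s * 524288) (p + 70368744177664))

/-- type V -/
def eV (R0 Ba fU k0 h s : ℕ) : ℕ :=
  ev ((1048576 - 2 * fU) * (3 * (s * s) * 1048576 * Ba / (6 * Ba + 4 * s)) / 1048576 +
    k0 * s * (Ba * R0 - 1024 * s) * Ba * 1048576 / (R0 * ((Ba + s) * (Ba + s)))) fun m =>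
    es (h * h * 131072) (Nat.min m (h * h * 131072 + 70368744177664))

/-- the parameter `v` and the constant of type W -/
def vW (fU : ℕ) : ℕ := Nat.max 209716 (1048576 - 2 * fU)

def cW (fU : ℕ) : ℕ :=
  ev (vW fU) fun v =>
    ((1048576 - v) * (1048576 - v) + 2 * fU * (2 * v - 1048576) - 2 * fU * (1048576 - 2 * v)) /
      1048576 + 1

/-- type W -/
def eW (R0 R1 Ba Bb fU cU k0 h s : ℕ) : ℕ :=
  ev (Nat.max (R1 * 1024 - 4 * (s * 1048576 / Bb) / 3)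
    (4 * (s * 1048576 / Ba + 1) / 3 + 1 - R0 * 1024)) fun De =>
  ev ((cU * (De * (s * s))) >>> 20 + 1 + (h * h * 131072 + h * h * (R1 * 1024))) fun p =>
    es p (Nat.min ((1048576 - 2 * fU) * (s * s) / 2 +
      k0 * s * (Ba * R0 - 1024 * s) * 1048576 / (Ba * R0)) (p + 70368744177664))

/-- type C -/
def eC (c h s : ℕ) : ℕ :=
  ev (h * h * c * 256 + 1) fun p => es p (Nat.min (s * s * c * 1024) (p + 70368744177664))

def ndf (g : Gr) (Sm fU cU k0 h ty c : ℕ) : ℕ → ℕ :=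
  bif Nat.beq ty 0 then eA Sm k0 else bif Nat.beq ty 1 then eP g.Ba h else
    bif Nat.beq ty 2 then eV g.R0 g.Ba fU k0 h else
      bif Nat.beq ty 3 then eW g.R0 g.R1 g.Ba g.Bb fU cU k0 h else eC c h

/-- the type `ty` is valid up to `s` -/
def vld (g : Gr) (fU cU ty X s : ℕ) : Bool :=
  bif Nat.beq ty 0 then true else bif Nat.beq ty 1 then Nat.ble (10 * s) (g.pc * g.Ba) else
    bif Nat.beq ty 2 then Nat.ble fU 524288 && (Nat.ble g.R1 820 &&
      Nat.ble (1024 * s) (g.Ba * g.R0)) else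
    bif Nat.beq ty 3 then Nat.ble fU 524288 && (Nat.ble cU 1048576 && (Nat.ble g.R1 768 &&
      Nat.ble (1024 * s) (g.Ba * g.R0))) else Nat.ble (s * 1024) (X * g.Ba)

/-! ### the segments -/

def seg (e : ℕ → ℕ) (Kf : ℕ → ℕ → ℕ) (h th sc : ℕ) :
    ℕ → ℕ → ℕ → ℕ → ℕ → ℕ → (ℕ → ℕ → ℕ → ℕ → Bool) → Bool
  | 0, s, _, T, U, V, k => k s T U V
  | n + 1, s, E, T, U, V, k =>
    ev (s + h) fun s' => ev (e s') fun E' => ev (Kf s s') fun K =>
      ev (bif Nat.ble s' sc then E' else Nat.max T (Nat.max E E')) fun T' =>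
      ev (U + inc K h (ad s th) E (ad s' th) E') fun U' =>
        ev (V + inc K h s E s' E') fun V' => seg e Kf h th sc n s' E' T' U' V' k

def run (g : Gr) (Kf : ℕ → ℕ → ℕ) (Sm fU cU k0 h th sc : ℕ) :
    List (ℕ × ℕ) → ℕ → ℕ → ℕ → ℕ → (ℕ → ℕ → ℕ → ℕ → Bool) → Bool
  | [], s, T, U, V, k => k s T U V
  | it :: l, s, T, U, V, k =>
    ev (look g.tab (it.1 - 4)).2 fun c =>
    seg (ndf g Sm fU cU k0 h it.1 c) Kf h th sc it.2 s (ndf g Sm fU cU k0 h it.1 c s) T U V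
      fun s T U V => vld g fU cU it.1 (look g.tab (it.1 - 4)).1 s &&
        run g Kf Sm fU cU k0 h th sc l s T U V k

def segT (e : ℕ → ℕ) (h : ℕ) : ℕ → ℕ → ℕ → ℕ → (ℕ → ℕ → Bool) → Bool
  | 0, s, _, Q, k => k s Q
  | n + 1, s, E, Q, k =>
    ev (s + h) fun s' => ev (e s') fun E' => ev (Q + h * (E + E')) fun Q' =>
      segT e h n s' E' Q' k

def runT (g : Gr) (Sm fU cU k0 h : ℕ) :
    List (ℕ × ℕ) → ℕ → ℕ → (ℕ → ℕ → Bool) → Bool
  | [], s, Q, k => k s Q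
  | it :: l, s, Q, k =>
    ev (look g.tab (it.1 - 4)).2 fun c =>
    segT (ndf g Sm fU cU k0 h it.1 c) h it.2 s (ndf g Sm fU cU k0 h it.1 c s) Q
      fun s Q => vld g fU cU it.1 (look g.tab (it.1 - 4)).1 s &&
        runT g Sm fU cU k0 h l s Q k

/-- the tail in `x` -/
def xt (g : Gr) (xe : ℕ) : List (ℕ × ℕ) → ℕ → ℕ → (ℕ → ℕ → Bool) → Bool
  | [], x, t, k => k x t
  | p :: l, x, t, k =>
    ev (Nat.min p.1 xe) fun X2 =>
      bif Nat.ble X2 x then xt g xe l x t k else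
        Nat.ble (g.r1 * 1048576) ((g.Na + 1) * (p.2 * (x * x))) &&
          ev (t + ((g.Na + 1) * (X2 - x) *
            em (Nat.min (g.Na * (p.2 * (x * x)) * 1048576 / g.r1) 70368744177664) / 1024 + 1))
            fun t' => xt g xe l X2 t' k

/-! ### the end -/

/-- lower bound of `(N + 1) |∫_0^y q|` -/
def gain (g : Gr) (q : Bool) (Sm rho th T U V : ℕ) : ℕ :=
  bif q then
    ev (1099511627776 - T - V) fun a => ev (a * 1048576 / rho + V * rho / 1048576) fun F =>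
      bif Nat.ble (2 * (V * rho)) (F * 1048576) then F else isqL (4 * (V * a))
  else
    ev (T + U + (th * V / g.Ba + 1)) fun L =>
      (1099511627776 - L) * 1048576 / (rho + (th * Sm * 1024 / (g.r0 * g.Ba) + 1))

def endt (g : Gr) (c : Bool) (sg al mx F : ℕ) : Bool :=
  ev (al * (g.R0 - sg) * 1048576) fun gp =>
  ev (al * mx * 1024 + (al * al * 524288 + (al * al * (al * al) / 4 + 1) +
    (al * al * (al * al) * (al * al) / 4194304 + 1))) fun gn =>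
  ev (yst ((g.R0 - sg) * 1073741824) ((g.R1 - sg) * 1073741824)) fun ys =>
  Nat.ble 1 ys && (Nat.ble 1 F && (
  bif c then
    ev (1024 + al) fun A =>
    Nat.ble 1 sg && (Nat.ble sg 256 && (Nat.ble al 296 && (Nat.ble g.R1 2048 && (
    Nat.ble ((1099511627776 + (A * sg) * (A * sg)) * (A * A * A * (sg * sg)))
      ((al * al * 1024 + 2 * A * al * sg) * 1152921504606846976) &&
    core ys (1099511627776 + g.Nb * (gn - gp))
      (ys + g.Na * (gp - gn) + al * (1048576 - mx) * 1024) F))))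
  else
    Nat.ble al 399 && (Nat.ble sg al && (Nat.ble (g.R1 - sg) 2150 &&
    (Nat.ble al (2 * (g.R0 - sg)) &&
    core ys (1099511627776 + g.Nb * (gn - gp) + al * (g.R1 - sg - 1024) * 1048576)
      (ys + g.Na * (gp - gn) + al * (1048576 - mx) * 1024) F)))))

def fin (g : Gr) (e : En) (mx Sm rho th tail T U V : ℕ) : Bool :=
  ev (gain g e.q Sm rho th T U V) fun G => Nat.ble (tail + 1) G &&
    ev (G - tail) fun F => endt g e.c e.sg e.al mx F

/-- the bound of `m₁` -/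
def mxU (g : Gr) (k1 : ℕ) : ℕ :=
  Nat.min 1048576 (Nat.min (k1 * 1073741824 / (g.r0 * g.Ba) + 1) (g.fx * g.R1))

/-- one cell in `κ` -/
def one (g : Gr) (k0 : ℕ) (e : En) : Bool :=
  ev (mxU g e.k1) fun mx => ev (Nat.min (1048576 + 2 * mx) (g.r1 * 1024)) fun Sm =>
  ev ((g.R0 - 1024) * 1048576 / g.R0) fun gp =>
  ev ((3 * g.R1 + (1048576 / g.R0 + 1) - 2048) * mx / 1024 + 1) fun gn =>
  ev (Nat.min 1048576 (isq (mx * 2147483648 / g.R0 + 1))) fun rho =>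
  ev (Nat.min 1048576 (mx * 2048 / g.R0 + 1)) fun rho2 =>
  ev (Nat.min (g.fx * 1024) (mx * 1024 / g.R0 + 1)) fun fU => ev (cW fU) fun cU =>
  ev e.h fun h => ev e.th fun th => ev ((g.R0 - e.sg) * g.Ba / 1024) fun sc =>
  Nat.ble 1 h && (Nat.ble (e.sg + 1) g.R0 &&
  run g (fun s s' => bif e.q then kapQ g.r1 mx rho2 g.Ba g.Bb s s'
      else kapM g.hi g.R1 g.r1 mx gp gn g.Ba g.Bb s s') Sm fU cU k0 h th sc e.a
    0 1099511627776 0 0 fun s T U V =>
  Nat.ble (1024 * s) (1000 * g.Ba) && (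
  bif e.t then
    Nat.ble s sc && runT g Sm fU cU k0 h e.b s 0 fun s2 Q =>
      xt g (g.R1 - e.sg) g.tab (s2 * 1024 / g.Bb)
        ((g.Na + 1) * g.r1 * g.Bb * Q / (g.Na * 2147483648) + 1) fun x tail =>
        Nat.ble (g.R1 - e.sg) x && fin g e mx Sm rho th tail T U V
  else Nat.ble g.R1 (s * 1024 / g.Bb + e.sg) && fin g e mx Sm rho th 0 T U V))

def goK (g : Gr) : ℕ → List En → Bool
  | k0, [] => Nat.ble (g.fx * g.R1 * g.r1 * g.Bb / 1073741824 + 1) k0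
  | k0, e :: l => one g k0 e && goK g e.k1 l

/-- **the checker of a group** -/
def chk (g : Gr) (l : List En) : Bool :=
  Nat.ble 1 g.R0 && (Nat.ble g.R0 g.R1 && (Nat.ble 1 g.Ba && (Nat.ble 1 g.Bb &&
    (Nat.ble 40 g.Na && (
    (bif g.hi then Nat.ble 1024 g.R0 && (Nat.beq g.r0 g.R0 && Nat.beq g.r1 g.R1) else
      Nat.ble g.R1 1024 && (Nat.beq g.r0 1024 && Nat.beq g.r1 1024)) && (
    Nat.ble (g.r1 * (g.Ba * g.Ba)) (g.Na * 1073741824) && (
    Nat.ble (g.Nb * 1073741824) (g.r0 * (g.Bb * g.Bb)) &&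
    ev (g.f0 * g.R0 * g.r0 * g.Ba / 1073741824) fun k0 => goK g k0 l)))))))

end Pool.Agent.Lib.MP_af3a4a_an.P1.CHK.H58.G
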