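import Pool.Agent.Lib.MP_af3a4a_an.P1.CHK.H58.GNa

/-!
# The general checker: the profiles, part GNc (helper58; split by helper88)
-/

set_option autoImplicit false

namespace Pool.Agent.Lib.MP_af3a4a_an.P1.CHK.H58.G

open Finset MeasureTheory ComplexConjugate
open Pool.Agent.Lib.MP_af3a4a_an.SV (uu av)
open Pool.Agent.Lib.MP_af3a4a_an.P1.H80
open Pool.Agent.Lib.MP_af3a4a_an.P1.H74
open Pool.Agent.Lib.MP_af3a4a_an.P1.H81
open Pool.Agent.Lib.MP_af3a4a_an.P1.CHK.Arith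
open Pool.Agent.Lib.MP_af3a4a_an.P1.CHK.H58 (wV qq_V pade chordV)
open Pool.Agent.Lib.MP_af3a4a_an.P1.CHK.H58.M (CellQ node_le exp_chord)

section

variable {N : ℕ} {w : Fin N → ℂ} {R β ρ : ℝ}

theorem cellV (hN1 : 1 ≤ N) (hw : ∀ k, 1 ≤ ‖w k‖) (ht : ∑ k, ‖w k - (R : ℂ)‖ ≤ N) (hR : 0 < R)
    (hR4 : R ≤ 4 / 5) (hN : β ^ 2 = N) {R0 Ba fU k0 : ℕ} (hBa : 1 ≤ Ba) (hR00 : 1 ≤ R0)
    (hβa : (Ba : ℝ) / 2 ^ 10 ≤ β) (hR0 : (R0 : ℝ) / 2 ^ 10 ≤ R)
    (hm0 : 0 ≤ (av (uu w)).re) (hk : (k0 : ℝ) / 2 ^ 10 ≤ (av (uu w)).re * β)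
    (hf : (av (uu w)).re ≤ (fU : ℝ) / 2 ^ 20 * R) (hfU : fU ≤ 524288)
    (h j : ℕ) (hh : 1 ≤ h) (hj : 1024 * (j + h) ≤ Ba * R0) :
    CellQ N (uu w) β (eV R0 Ba fU k0 h) h j := by
  intro τ hτ
  have hBar : (0 : ℝ) < Ba := by exact_mod_cast hBa
  have hR0r : (0 : ℝ) < R0 := by exact_mod_cast hR00
  have hβ : 0 < β := lt_of_lt_of_le (by positivity) hβa
  obtain ⟨B, hB⟩ : ∃ B, B = (Ba : ℝ) / 2 ^ 10 := ⟨_, rfl⟩
  obtain ⟨r, hr⟩ : ∃ r, r = (R0 : ℝ) / 2 ^ 10 := ⟨_, rfl⟩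
  rw [← hB] at hβa
  rw [← hr] at hR0
  have hB0 : 0 < B := by rw [hB]; positivity
  have hr0 : 0 < r := by rw [hr]; positivity
  obtain ⟨f, hfd⟩ : ∃ f, f = (av (uu w)).re / R := ⟨_, rfl⟩
  have hff : (av (uu w)).re = f * R := by rw [hfd, div_mul_cancel₀ _ hR.ne']
  have hf0 : 0 ≤ f := by rw [hfd]; positivity
  have hfF : f ≤ (fU : ℝ) / 2 ^ 20 := by rw [hfd, div_le_iff₀ hR]; exact hf
  have hfUr : (fU : ℝ) / 2 ^ 20 ≤ 1 / 2 := by
    have : (fU : ℝ) ≤ 524288 := by exact_mod_cast hfU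
    rw [div_le_iff₀ (by positivity)]
    linarith only [this]
  have hf1 : f ≤ 1 / 2 := hfF.trans hfUr
  obtain ⟨s0, hs0⟩ : ∃ s0, s0 = (j : ℝ) / 2 ^ 10 := ⟨_, rfl⟩
  obtain ⟨s1, hs1⟩ : ∃ s1, s1 = ((j + h : ℕ) : ℝ) / 2 ^ 10 := ⟨_, rfl⟩
  obtain ⟨H, hH⟩ : ∃ H, H = (h : ℝ) / 2 ^ 10 := ⟨_, rfl⟩
  obtain ⟨K, hK⟩ : ∃ K, K = (k0 : ℝ) / 2 ^ 10 := ⟨_, rfl⟩
  have h0 : 0 ≤ s0 := by rw [hs0]; positivity
  have hs10 : s1 - s0 = H := by rw [hs1, hs0, hH]; push_cast; ring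
  have hH0 : 0 < H := by
    have : (0 : ℝ) < h := by exact_mod_cast hh
    rw [hH]; positivity
  have hlt : s0 < s1 := by linarith only [hs10, hH0]
  have hs1B : s1 ≤ r * B := by
    rw [hs1, hB, hr]
    have : (1024 * (j + h : ℕ) : ℝ) ≤ Ba * R0 := by exact_mod_cast hj
    rw [div_le_iff₀ (by positivity)]
    have e : (R0 : ℝ) / 2 ^ 10 * ((Ba : ℝ) / 2 ^ 10) * 2 ^ 10 = Ba * R0 / 1024 := by ring
    rw [e, le_div_iff₀ (by norm_num)]
    linarith only [this]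
  have hβR : 0 < β * R := by positivity
  have hs1R : s1 ≤ β * R := by
    refine hs1B.trans ?_
    rw [mul_comm β R]
    exact mul_le_mul hR0 hβa hB0.le hR.le
  -- the node
  have hnode : ∀ i : ℕ, i ≤ j + h → Real.exp (-(N * R ^ 2 * (wV R f ((i : ℝ) / 2 ^ 10 / (β * R)) -
      (1 - 2 * f) * ((s1 / (β * R) - s0 / (β * R)) ^ 2 / 8)))) ≤ (eV R0 Ba fU k0 h i : ℝ) / 2 ^ 40 := by
    intro i hi
    unfold eV
    rw [ev_eq]
    apply node_le
    obtain ⟨σ, hσ⟩ : ∃ σ, σ = (i : ℝ) / 2 ^ 10 := ⟨_, rfl⟩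
    rw [← hσ]
    have hσ0 : 0 ≤ σ := by rw [hσ]; positivity
    have hi' : 1024 * i ≤ Ba * R0 := le_trans (Nat.mul_le_mul_left _ hi) hj
    have hσs : σ ≤ s1 := by
      rw [hσ, hs1]
      apply div_le_div_of_nonneg_right _ (by positivity)
      exact_mod_cast hi
    have e1 : (N : ℝ) * R ^ 2 * (wV R f (σ / (β * R)) -
        (1 - 2 * f) * ((s1 / (β * R) - s0 / (β * R)) ^ 2 / 8)) =
        (1 - 2 * f) * (N * hV (σ / β)) + (av (uu w)).re * β * σ * (1 - σ / β / R) /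
          (1 + σ / β) ^ 2 - (1 - 2 * f) * (H ^ 2 / 8) := by
      unfold wV
      have e2 : σ / (β * R) * R = σ / β := by field_simp
      rw [e2, ← hN, hff, ← hs10]
      have hp : 0 < 1 + σ / β := by positivity
      field_simp
    rw [e1]
    have h1f : 0 ≤ 1 - 2 * f := by linarith only [hfF, hfUr]
    have hx0 : 0 ≤ σ / β := by positivity
    have hxB : σ / β ≤ σ / B := div_le_div_of_nonneg_left hσ0 hB0 hβa
    -- part 1
    have p1 : (((1048576 - 2 * fU) * (3 * (i * i) * 1048576 * Ba / (6 * Ba + 4 * i)) / 1048576 :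
        ℕ) : ℝ) / 2 ^ 40 ≤ (1 - 2 * f) * (N * hV (σ / β)) := by
      have a1 := div_le_real ((1048576 - 2 * fU) * (3 * (i * i) * 1048576 * Ba / (6 * Ba + 4 * i)))
        1048576
      have a2 := div_le_real (3 * (i * i) * 1048576 * Ba) (6 * Ba + 4 * i)
      have a3 : ((3 * (i * i) * 1048576 * Ba : ℕ) : ℝ) / ((6 * Ba + 4 * i : ℕ) : ℝ) =
          3 * σ ^ 2 / (6 + 4 * (σ / B)) * 2 ^ 40 := by
        rw [hσ, hB]
        push_cast
        have : (0 : ℝ) < 6 * Ba + 4 * i := by positivity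
        field_simp
        norm_num
      have a4 : 3 * σ ^ 2 / (6 + 4 * (σ / B)) ≤ N * hV (σ / β) := by
        have b1 := pade hx0
        have b2 : (N : ℝ) * (3 * (σ / β) ^ 2 / (6 + 4 * (σ / β))) =
            3 * σ ^ 2 / (6 + 4 * (σ / β)) := by
          rw [← hN]
          have hp : 0 < 6 + 4 * (σ / β) := by positivity
          field_simp
        have b3 : 3 * σ ^ 2 / (6 + 4 * (σ / B)) ≤ 3 * σ ^ 2 / (6 + 4 * (σ / β)) := by
          apply div_le_div_of_nonneg_left (by positivity) (by positivity)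
          linarith only [hxB]
        have b4 := mul_le_mul_of_nonneg_left b1 (Nat.cast_nonneg (α := ℝ) N)
        linarith only [b2, b3, b4]
      have a5 : ((1048576 - 2 * fU : ℕ) : ℝ) / 2 ^ 20 ≤ 1 - 2 * f := by
        rw [Nat.cast_sub (by omega)]
        have : (((1048576 : ℕ) : ℝ) - ((2 * fU : ℕ) : ℝ)) / 2 ^ 20 = 1 - 2 * ((fU : ℝ) / 2 ^ 20) := by
          push_cast; ring
        rw [this]
        linarith only [hfF]
      have a6 : (0 : ℝ) ≤ ((1048576 - 2 * fU : ℕ) : ℝ) / 2 ^ 20 := by positivity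
      have hnn : (0 : ℝ) ≤ 3 * σ ^ 2 / (6 + 4 * (σ / B)) := by positivity
      rw [div_le_iff₀ (by positivity)]
      refine a1.trans ?_
      rw [Nat.cast_mul]
      calc ((1048576 - 2 * fU : ℕ) : ℝ) * ((3 * (i * i) * 1048576 * Ba / (6 * Ba + 4 * i) : ℕ) : ℝ) /
          ((1048576 : ℕ) : ℝ) = ((1048576 - 2 * fU : ℕ) : ℝ) / 2 ^ 20 *
            ((3 * (i * i) * 1048576 * Ba / (6 * Ba + 4 * i) : ℕ) : ℝ) := by
            norm_num
            ring
        _ ≤ ((1048576 - 2 * fU : ℕ) : ℝ) / 2 ^ 20 * (3 * σ ^ 2 / (6 + 4 * (σ / B)) * 2 ^ 40) := by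
            apply mul_le_mul_of_nonneg_left _ a6
            rw [← a3]
            exact a2
        _ ≤ (1 - 2 * f) * (3 * σ ^ 2 / (6 + 4 * (σ / B)) * 2 ^ 40) :=
            mul_le_mul_of_nonneg_right a5 (by positivity)
        _ ≤ (1 - 2 * f) * (N * hV (σ / β) * 2 ^ 40) := by
            apply mul_le_mul_of_nonneg_left _ h1f
            exact mul_le_mul_of_nonneg_right a4 (by positivity)
        _ = _ := by ring
    -- part 2
    have p2 : ((k0 * i * (Ba * R0 - 1024 * i) * Ba * 1048576 / (R0 * ((Ba + i) * (Ba + i))) : ℕ) :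
        ℝ) / 2 ^ 40 ≤ (av (uu w)).re * β * σ * (1 - σ / β / R) / (1 + σ / β) ^ 2 := by
      have a1 := div_le_real (k0 * i * (Ba * R0 - 1024 * i) * Ba * 1048576)
        (R0 * ((Ba + i) * (Ba + i)))
      have hc : ((Ba * R0 - 1024 * i : ℕ) : ℝ) = Ba * R0 - 1024 * i := by
        rw [Nat.cast_sub hi']
        push_cast
        ring
      have a2 : ((k0 * i * (Ba * R0 - 1024 * i) * Ba * 1048576 : ℕ) : ℝ) /
          ((R0 * ((Ba + i) * (Ba + i)) : ℕ) : ℝ) =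
          K * σ * (1 - σ / B / r) / (1 + σ / B) ^ 2 * 2 ^ 40 := by
        rw [Nat.cast_mul, Nat.cast_mul, Nat.cast_mul, hc, hσ, hK, hB, hr]
        push_cast
        have : (0 : ℝ) < Ba + i := by positivity
        field_simp
        ring
      have a3 : K * σ * (1 - σ / B / r) / (1 + σ / B) ^ 2 ≤
          (av (uu w)).re * β * σ * (1 - σ / β / R) / (1 + σ / β) ^ 2 := by
        have b1 : σ / β / R ≤ σ / B / r := by
          have := div_le_div_of_nonneg_right hxB hr0.le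
          exact (div_le_div_of_nonneg_left hx0 hr0 hR0).trans this
        have b0 : σ / B / r ≤ 1 := by
          rw [div_div, div_le_one (by positivity)]
          linarith only [hs1B, hσs]
        have b2 : K * σ ≤ (av (uu w)).re * β * σ := by
          rw [← hK] at hk
          exact mul_le_mul_of_nonneg_right hk hσ0
        have b3 : (1 + σ / β) ^ 2 ≤ (1 + σ / B) ^ 2 :=
          pow_le_pow_left₀ (by positivity) (by linarith only [hxB]) 2
        apply div_le_div₀ _ _ (by positivity) b3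
        · apply mul_nonneg (by positivity)
          linarith only [b1, b0]
        · apply mul_le_mul b2 (by linarith only [b1]) (by linarith only [b0]) (by positivity)
      rw [div_le_iff₀ (by positivity)]
      refine a1.trans ?_
      rw [a2]
      exact mul_le_mul_of_nonneg_right a3 (by positivity)
    have p3 : ((h * h * 131072 : ℕ) : ℝ) / 2 ^ 40 = H ^ 2 / 8 := by
      rw [hH]; push_cast; ring
    have p4 : (1 - 2 * f) * (H ^ 2 / 8) ≤ H ^ 2 / 8 :=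
      mul_le_of_le_one_left (by positivity) (by linarith only [hf0])
    rw [Nat.cast_add, add_div, p3]
    linarith only [p1, p2, p4]
  rw [← hs0, ← hs1]
  obtain ⟨s, hs⟩ : ∃ s, s = s0 + τ * (s1 - s0) := ⟨_, rfl⟩
  have hsc : s = (1 - τ) * s0 + τ * s1 := by rw [hs]; ring
  have hτ1 := sub_nonneg.2 hτ.2
  have hτ0 := hτ.1
  have hs_0 : s0 ≤ s := by
    rw [hs]
    have : 0 ≤ τ * (s1 - s0) := mul_nonneg hτ0 (by linarith only [hs10, hH0])
    linarith only [this]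
  have hs_1 : s ≤ s1 := by
    have : 0 ≤ (1 - τ) * (s1 - s0) := mul_nonneg hτ1 (by linarith only [hs10, hH0])
    rw [hs]
    linarith only [this]
  have ht0 : 0 ≤ s / (β * R) := div_nonneg (h0.trans hs_0) hβR.le
  have ht1 : s / (β * R) ≤ 1 := by rw [div_le_one hβR]; linarith only [hs1R, hs_1]
  have hq := qq_V hN1 hw ht hR hR4 ht0 ht1 hff
  have e2 : s / (β * R) * R = s / β := by field_simp
  rw [e2] at hq
  have hch := chordV (R := R) (f := f) (t0 := s0 / (β * R)) (t1 := s1 / (β * R)) (t := s / (β * R))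
    (w0 := wV R f (s0 / (β * R)) - (1 - 2 * f) * ((s1 / (β * R) - s0 / (β * R)) ^ 2 / 8))
    (w1 := wV R f (s1 / (β * R)) - (1 - 2 * f) * ((s1 / (β * R) - s0 / (β * R)) ^ 2 / 8))
    hR (by linarith only [hR, hR4]) hf0 hf1 (div_nonneg h0 hβR.le) (div_lt_div_of_pos_right hlt hβR)
    (by rw [div_le_one hβR]; exact hs1R) le_rfl le_rfl
    (div_le_div_of_nonneg_right hs_0 hβR.le) (div_le_div_of_nonneg_right hs_1 hβR.le)
  have e3 : (s / (β * R) - s0 / (β * R)) / (s1 / (β * R) - s0 / (β * R)) = τ := by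
    rw [← sub_div, ← sub_div, div_div_div_cancel_right₀ hβR.ne', hs]
    have : s1 - s0 ≠ 0 := by linarith only [hs10, hH0]
    field_simp
    ring
  rw [e3] at hch
  have hNR : (0 : ℝ) ≤ N * R ^ 2 := by positivity
  refine exp_chord
    (f0 := N * R ^ 2 * (wV R f (s0 / (β * R)) - (1 - 2 * f) *
      ((s1 / (β * R) - s0 / (β * R)) ^ 2 / 8)))
    (f1 := N * R ^ 2 * (wV R f (s1 / (β * R)) - (1 - 2 * f) *
      ((s1 / (β * R) - s0 / (β * R)) ^ 2 / 8))) hτ.1 hτ.2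
    (by rw [← hs]; exact hq) ?_ ?_ ?_
  · have := mul_le_mul_of_nonneg_left hch hNR
    linarith only [this]
  · have := hnode j (by omega)
    rw [← hs0] at this
    exact this
  · have := hnode (j + h) le_rfl
    rw [← hs1] at this
    exact this

end

end Pool.Agent.Lib.MP_af3a4a_an.P1.CHK.H58.G
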