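import Pool.Agent.Lib.MP_af3a4a_an.P1.CHK.H58.GNd

/-!
# The general checker: the profiles, part GNe (helper58; split by helper88)
-/

set_option autoImplicit false

namespace Pool.Agent.Lib.MP_af3a4a_an.P1.CHK.H58.G

open Finset MeasureTheory ComplexConjugate
open Pool.Agent.Lib.MP_af3a4a_an.SV (uu av)
open Pool.Agent.Lib.MP_af3a4a_an.P1.H80
open Pool.Agent.Lib.MP_af3a4a_an.P1.H74
open Pool.Agent.Lib.MP_af3a4a_an.P1.H81
open Pool.Agent.Lib.MP_af3a4a_an.P1.CHK.Arith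
open Pool.Agent.Lib.MP_af3a4a_an.P1.CHK.H58 (wV qq_V pade chordV)
open Pool.Agent.Lib.MP_af3a4a_an.P1.CHK.H58.M (CellQ node_le exp_chord)

section

variable {N : ℕ} {w : Fin N → ℂ} {R β ρ : ℝ}

theorem cellW (hR : 0 < R) (hR4 : R ≤ 3 / 4) (hN : β ^ 2 = N) {R0 R1 Ba Bb fU cU k0 : ℕ}
    (hBa : 1 ≤ Ba) (hBb : 1 ≤ Bb) (hR00 : 1 ≤ R0)
    (hβa : (Ba : ℝ) / 2 ^ 10 ≤ β) (hβb : β ≤ (Bb : ℝ) / 2 ^ 10) (hR0 : (R0 : ℝ) / 2 ^ 10 ≤ R)
    (hR1 : R ≤ (R1 : ℝ) / 2 ^ 10) (hW : ProfW N w R)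
    (hm0 : 0 ≤ (av (uu w)).re) (hk : (k0 : ℝ) / 2 ^ 10 ≤ (av (uu w)).re * β)
    (hf : (av (uu w)).re ≤ (fU : ℝ) / 2 ^ 20 * R) (hfU : fU ≤ 524288) (hcU : cU = cW fU)
    (hcU1 : cU ≤ 1048576) (h j : ℕ) (hj : 1024 * (j + h) ≤ Ba * R0) :
    CellQ N (uu w) β (eW R0 R1 Ba Bb fU cU k0 h) h j := by
  intro τ hτ
  obtain ⟨⟨hv0, hv1⟩, hc⟩ := cW_spec hfU
  rw [← hcU] at hc
  obtain ⟨v, hv⟩ : ∃ v, v = ((vW fU : ℕ) : ℝ) / 2 ^ 20 := ⟨_, rfl⟩
  obtain ⟨F, hF⟩ : ∃ F, F = (fU : ℝ) / 2 ^ 20 := ⟨_, rfl⟩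
  obtain ⟨C, hC⟩ : ∃ C, C = (cU : ℝ) / 2 ^ 20 := ⟨_, rfl⟩
  rw [← hv] at hv0 hv1 hc
  rw [← hF] at hf hc
  rw [← hC] at hc
  have hC0 : 0 ≤ C := by rw [hC]; positivity
  have hC1 : C ≤ 1 := by
    have : (cU : ℝ) ≤ 1048576 := by exact_mod_cast hcU1
    rw [hC, div_le_one (by positivity)]
    norm_num
    linarith only [hcU1]
  have hBar : (0 : ℝ) < Ba := by exact_mod_cast hBa
  have hBbr : (0 : ℝ) < Bb := by exact_mod_cast hBb
  have hR0r : (0 : ℝ) < R0 := by exact_mod_cast hR00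
  have hβ : 0 < β := lt_of_lt_of_le (by positivity) hβa
  obtain ⟨B, hB⟩ : ∃ B, B = (Ba : ℝ) / 2 ^ 10 := ⟨_, rfl⟩
  obtain ⟨r, hr⟩ : ∃ r, r = (R0 : ℝ) / 2 ^ 10 := ⟨_, rfl⟩
  obtain ⟨r1, hr1⟩ : ∃ r1, r1 = (R1 : ℝ) / 2 ^ 10 := ⟨_, rfl⟩
  have hβa' := hβa
  have hR0' := hR0
  rw [← hB] at hβa
  rw [← hr] at hR0
  rw [← hr1] at hR1
  have hB0 : 0 < B := by rw [hB]; positivity
  have hr0 : 0 < r := by rw [hr]; positivity
  obtain ⟨m1, hm1⟩ : ∃ m1, m1 = (av (uu w)).re := ⟨_, rfl⟩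
  unfold ProfW at hW
  rw [← hm1] at hW hm0 hk hf
  obtain ⟨f, hfd⟩ : ∃ f, f = m1 / R := ⟨_, rfl⟩
  have hff : m1 = f * R := by rw [hfd, div_mul_cancel₀ _ hR.ne']
  have hf0 : 0 ≤ f := by rw [hfd]; positivity
  have hfF : f ≤ F := by rw [hfd, div_le_iff₀ hR]; exact hf
  have hF1 : F ≤ 1 / 2 := by
    have : (fU : ℝ) ≤ 524288 := by exact_mod_cast hfU
    rw [hF, div_le_iff₀ (by positivity)]
    linarith only [this]
  obtain ⟨s0, hs0⟩ : ∃ s0, s0 = (j : ℝ) / 2 ^ 10 := ⟨_, rfl⟩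
  obtain ⟨s1, hs1⟩ : ∃ s1, s1 = ((j + h : ℕ) : ℝ) / 2 ^ 10 := ⟨_, rfl⟩
  obtain ⟨H, hH⟩ : ∃ H, H = (h : ℝ) / 2 ^ 10 := ⟨_, rfl⟩
  obtain ⟨K, hK⟩ : ∃ K, K = (k0 : ℝ) / 2 ^ 10 := ⟨_, rfl⟩
  rw [← hK] at hk
  have hK0 : 0 ≤ K := by rw [hK]; positivity
  have h0 : 0 ≤ s0 := by rw [hs0]; positivity
  have hs10 : s1 - s0 = H := by rw [hs1, hs0, hH]; push_cast; ring
  have hH0 : 0 ≤ H := by rw [hH]; positivity
  have hle : s0 ≤ s1 := by linarith only [hs10, hH0]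
  have hs1B : s1 ≤ r * B := by
    rw [hs1, hB, hr]
    have : (1024 * (j + h : ℕ) : ℝ) ≤ Ba * R0 := by exact_mod_cast hj
    rw [div_le_iff₀ (by positivity)]
    have e : (R0 : ℝ) / 2 ^ 10 * ((Ba : ℝ) / 2 ^ 10) * 2 ^ 10 = Ba * R0 / 1024 := by ring
    rw [e, le_div_iff₀ (by norm_num)]
    linarith only [this]
  have hs1R : s1 ≤ R * β := hs1B.trans (mul_le_mul hR0 hβa hB0.le hR.le)
  obtain ⟨c, hcd⟩ : ∃ c, c = 4 / (3 * β) := ⟨_, rfl⟩
  have hc0 : 0 ≤ c := by rw [hcd]; positivity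
  -- the function `G`
  obtain ⟨G, hG⟩ : ∃ G : ℝ → ℝ, G = fun σ => (1 - 2 * F) * σ ^ 2 / 2 + K * σ * (1 - σ / B / r) -
    C * (σ ^ 2 * |R - c * σ|) := ⟨_, rfl⟩
  -- the node
  have hnode : ∀ i : ℕ, i ≤ j + h → Real.exp (-(G ((i : ℝ) / 2 ^ 10) - (H ^ 2 / 8 + r1 * H ^ 2))) ≤
      (eW R0 R1 Ba Bb fU cU k0 h i : ℝ) / 2 ^ 40 := by
    intro i hi
    unfold eW
    simp only [ev_eq]
    apply node_le
    obtain ⟨De, hDe⟩ : ∃ De, De = Nat.max (R1 * 1024 - 4 * (i * 1048576 / Bb) / 3)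
      (4 * (i * 1048576 / Ba + 1) / 3 + 1 - R0 * 1024) := ⟨_, rfl⟩
    rw [← hDe]
    obtain ⟨σ, hσ⟩ : ∃ σ, σ = (i : ℝ) / 2 ^ 10 := ⟨_, rfl⟩
    rw [← hσ]
    have hσ0 : 0 ≤ σ := by rw [hσ]; positivity
    have hi' : 1024 * i ≤ Ba * R0 := le_trans (Nat.mul_le_mul_left _ hi) hj
    have hDer : |R - c * σ| ≤ (De : ℝ) / 2 ^ 20 := by
      have hxl := xl_sound' hβ hBb hβb (s := i)
      have hxh := xh_sound' hBa hβa' (s := i)
      rw [← hσ] at hxl hxh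
      have e : c * σ = 4 * (σ / β) / 3 := by rw [hcd]; field_simp
      rw [e, abs_le]
      constructor
      · have a1 := real_le_div (4 * (i * 1048576 / Ba + 1)) 3 (by norm_num)
        have a2 := sub_le_cast (4 * (i * 1048576 / Ba + 1) / 3 + 1) (R0 * 1024)
        have a3 : ((4 * (i * 1048576 / Ba + 1) / 3 + 1 - R0 * 1024 : ℕ) : ℝ) ≤ De := by
          rw [hDe]; exact_mod_cast Nat.le_max_right _ _
        have a4 : 4 * (σ / β) / 3 - r ≤ (De : ℝ) / 2 ^ 20 := by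
          rw [le_div_iff₀ (by positivity)]
          have a5 : (σ / β) * 2 ^ 20 ≤ ((i * 1048576 / Ba + 1 : ℕ) : ℝ) := by
            rwa [le_div_iff₀ (by positivity)] at hxh
          have a6 : r * 2 ^ 20 = ((R0 * 1024 : ℕ) : ℝ) := by rw [hr]; push_cast; ring
          have a7 : ((4 * (i * 1048576 / Ba + 1) : ℕ) : ℝ) =
            4 * ((i * 1048576 / Ba + 1 : ℕ) : ℝ) := by push_cast; ring
          rw [a7] at a1
          push_cast at a1
          push_cast at a5 a6 a2 a3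
          linarith only [hr, a3, a1, a5, a2]
        linarith only [hR0, a4]
      · have a1 := div_le_real (4 * (i * 1048576 / Bb)) 3
        have a2 := sub_le_cast (R1 * 1024) (4 * (i * 1048576 / Bb) / 3)
        have a3 : ((R1 * 1024 - 4 * (i * 1048576 / Bb) / 3 : ℕ) : ℝ) ≤ De := by
          rw [hDe]; exact_mod_cast Nat.le_max_left _ _
        have a4 : r1 - 4 * (σ / β) / 3 ≤ (De : ℝ) / 2 ^ 20 := by
          rw [le_div_iff₀ (by positivity)]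
          have a5 : ((i * 1048576 / Bb : ℕ) : ℝ) ≤ (σ / β) * 2 ^ 20 := by
            rwa [div_le_iff₀ (by positivity)] at hxl
          have a6 : r1 * 2 ^ 20 = ((R1 * 1024 : ℕ) : ℝ) := by rw [hr1]; push_cast; ring
          have a7 : ((4 * (i * 1048576 / Bb) : ℕ) : ℝ) =
            4 * ((i * 1048576 / Bb : ℕ) : ℝ) := by push_cast; ring
          rw [a7] at a1
          push_cast at a1
          push_cast at a5 a6 a2 a3
          linarith only [hr1, hxl, a1, a3, a2]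
        linarith only [hR1, a4]
    -- `p`
    obtain ⟨Ls, hLs⟩ : ∃ Ls : ℝ, Ls = H ^ 2 / 8 + r1 * H ^ 2 := ⟨_, rfl⟩
    rw [← hLs]
    have hp : C * (σ ^ 2 * |R - c * σ|) + Ls ≤
        (((cU * (De * (i * i))) >>> 20 + 1 + (h * h * 131072 + h * h * (R1 * 1024)) : ℕ) : ℝ) /
          2 ^ 40 := by
      have a1 := le_shr (cU * (De * (i * i))) 20
      have a2 : C * (σ ^ 2 * |R - c * σ|) ≤ C * (σ ^ 2 * ((De : ℝ) / 2 ^ 20)) :=
        mul_le_mul_of_nonneg_left (mul_le_mul_of_nonneg_left hDer (sq_nonneg _)) hC0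
      have a3 : C * (σ ^ 2 * ((De : ℝ) / 2 ^ 20)) =
          ((cU * (De * (i * i)) : ℕ) : ℝ) / 2 ^ 20 / 2 ^ 40 := by
        rw [hC, hσ]; push_cast; ring
      have a4 : Ls = ((h * h * 131072 + h * h * (R1 * 1024) : ℕ) : ℝ) / 2 ^ 40 := by
        rw [hLs, hH, hr1]; push_cast; ring
      have a5 := div_le_div_of_nonneg_right a1 (by positivity : (0 : ℝ) ≤ 2 ^ 40)
      rw [a4, Nat.cast_add ((cU * (De * (i * i))) >>> 20 + 1)
        (h * h * 131072 + h * h * (R1 * 1024)), add_div]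
      linarith only [a1, a2, a3]
    -- `m`
    have hm : (((1048576 - 2 * fU) * (i * i) / 2 + k0 * i * (Ba * R0 - 1024 * i) * 1048576 /
        (Ba * R0) : ℕ) : ℝ) / 2 ^ 40 ≤ (1 - 2 * F) * σ ^ 2 / 2 + K * σ * (1 - σ / B / r) := by
      have a1 := div_le_real ((1048576 - 2 * fU) * (i * i)) 2
      have a2 := div_le_real (k0 * i * (Ba * R0 - 1024 * i) * 1048576) (Ba * R0)
      have hc : ((Ba * R0 - 1024 * i : ℕ) : ℝ) = Ba * R0 - 1024 * i := by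
        rw [Nat.cast_sub hi']
        push_cast
        ring
      have hc2 : ((1048576 - 2 * fU : ℕ) : ℝ) = 1048576 - 2 * fU := by
        rw [Nat.cast_sub (by omega)]
        push_cast
        ring
      have a3 : (((1048576 - 2 * fU) * (i * i) : ℕ) : ℝ) / (2 : ℕ) / 2 ^ 40 =
          (1 - 2 * F) * σ ^ 2 / 2 := by
        rw [Nat.cast_mul, hc2, hF, hσ]; push_cast; ring
      have a4 : ((k0 * i * (Ba * R0 - 1024 * i) * 1048576 : ℕ) : ℝ) / ((Ba * R0 : ℕ) : ℝ) /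
          2 ^ 40 = K * σ * (1 - σ / B / r) := by
        rw [Nat.cast_mul, Nat.cast_mul, hc, hK, hσ, hB, hr]
        push_cast
        field_simp
        ring
      rw [Nat.cast_add, add_div, ← a3, ← a4]
      exact add_le_add (div_le_div_of_nonneg_right a1 (by positivity))
        (div_le_div_of_nonneg_right a2 (by positivity))
    rw [hG]
    simp only
    linarith only [hp, hm]
  rw [← hs0, ← hs1]
  obtain ⟨s, hs⟩ : ∃ s, s = s0 + τ * (s1 - s0) := ⟨_, rfl⟩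
  have hsc : s = (1 - τ) * s0 + τ * s1 := by rw [hs]; ring
  have hτ1 := sub_nonneg.2 hτ.2
  have hτ0 := hτ.1
  have hs_0 : 0 ≤ s := by
    rw [hsc]
    have : 0 ≤ s1 := h0.trans hle
    positivity
  have hs_1 : s ≤ s1 := by
    have : 0 ≤ (1 - τ) * (s1 - s0) := mul_nonneg hτ1 (by linarith only [hs10, hH0])
    rw [hs]
    linarith only [this]
  have hx0 : 0 ≤ s / β := div_nonneg hs_0 hβ.le
  have hxR : s / β ≤ R := by
    rw [div_le_iff₀ hβ]
    linarith only [hs1R, hs_1]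
  have hq := hW (s / β) ⟨hx0, hxR⟩ v ⟨by linarith only [hR, hR4, hv0], hv1⟩
  obtain ⟨a, ha⟩ : ∃ a, a = |R - c * s| := ⟨_, rfl⟩
  have ha' : |R - 4 * (s / β) / 3| = a := by
    rw [ha, hcd]
    congr 1
    field_simp
  rw [ha'] at hq
  have ha0 : 0 ≤ a := by rw [ha]; exact abs_nonneg _
  have haR : a ≤ R := by
    rw [← ha', abs_le]
    constructor <;> linarith
  refine exp_chord (f0 := G s0 - (H ^ 2 / 8 + r1 * H ^ 2)) (f1 := G s1 - (H ^ 2 / 8 + r1 * H ^ 2))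
    hτ.1 hτ.2 (by rw [← hs]; exact hq) ?_ (by rw [hs0]; exact hnode j (by omega))
    (by rw [hs1]; exact hnode (j + h) le_rfl)
  -- the exponent
  have e1 : (N : ℝ) * ((s / β) ^ 2 / 2 - (s / β) ^ 2 * a * (1 - v) ^ 2 +
      m1 * (s / β - 2 * (s / β) ^ 2 / R + 2 * ((s / β) ^ 2 * a) * (1 - 2 * v) / R)) =
      (1 - 2 * f) * s ^ 2 / 2 + m1 * β * s * (1 - s / β / R) -
        s ^ 2 * a * ((1 - v) ^ 2 - 2 * f * (1 - 2 * v)) := by
    rw [← hN, hff]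
    field_simp
    ring
  rw [e1]
  -- `G s ≤` the exponent
  have h2 : G s ≤ (1 - 2 * f) * s ^ 2 / 2 + m1 * β * s * (1 - s / β / R) -
        s ^ 2 * a * ((1 - v) ^ 2 - 2 * f * (1 - 2 * v)) := by
    rw [hG]
    simp only
    rw [← ha]
    have b1 : s / β / R ≤ s / B / r := by
      have := div_le_div_of_nonneg_right (div_le_div_of_nonneg_left hs_0 hB0 hβa) hr0.le
      exact (div_le_div_of_nonneg_left hx0 hr0 hR0).trans this
    have b0 : s / B / r ≤ 1 := by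
      rw [div_div, div_le_one (by positivity)]
      linarith only [hs1B, hs_1]
    have b2 : K * s * (1 - s / B / r) ≤ m1 * β * s * (1 - s / β / R) := by
      apply mul_le_mul (mul_le_mul_of_nonneg_right hk hs_0) (by linarith only [b1]) (by linarith only [b0])
      positivity
    have b3 : 0 ≤ (F - f) * (s ^ 2 * (1 - 2 * a * (1 - 2 * v))) := by
      apply mul_nonneg (by linarith only [hfF])
      apply mul_nonneg (sq_nonneg _)
      have : a * (1 - 2 * v) ≤ 3 / 4 * (3 / 5) := by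
        rcases le_total 0 (1 - 2 * v) with h | h
        · exact mul_le_mul (by linarith only [hR4, haR]) (by linarith only [hv0]) h (by norm_num)
        · have := mul_nonpos_of_nonneg_of_nonpos ha0 h
          linarith only [hR, hR4, this]
      linarith only [hR, hR4, this]
    have b4 : s ^ 2 * a * ((1 - v) ^ 2 - 2 * F * (1 - 2 * v)) ≤ s ^ 2 * a * C :=
      mul_le_mul_of_nonneg_left hc (by positivity)
    linarith only [b2, b3, b4]
  -- the chord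
  have h3 := psi_chord hR.le hc0 h0 hle (by
    rw [hcd]
    have : 3 * (4 / (3 * β) * s1) = 4 * (s1 / β) := by field_simp
    rw [this]
    have h4 : s1 / β ≤ R := by rw [div_le_iff₀ hβ]; exact hs1R
    linarith only [h4]) hτ0 hτ.2 hs hs10
  have h4 := sq_conv hs hs10
  have h5 : (1 - τ) * G s0 + τ * G s1 - (H ^ 2 / 8 + r1 * H ^ 2) ≤ G s := by
    rw [hG]
    simp only
    have c1 : C * (s ^ 2 * |R - c * s|) ≤ (1 - τ) * (C * (s0 ^ 2 * |R - c * s0|)) +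
        τ * (C * (s1 ^ 2 * |R - c * s1|)) + r1 * H ^ 2 := by
      have d1 := mul_le_mul_of_nonneg_left h3 hC0
      have d2 : C * (R * H ^ 2) ≤ 1 * (r1 * H ^ 2) := by
        apply mul_le_mul hC1 _ (by positivity) (by norm_num)
        exact mul_le_mul_of_nonneg_right hR1 (sq_nonneg _)
      linarith only [d1, d2]
    have c2 : (1 - 2 * F) * s ^ 2 / 2 ≥ (1 - τ) * ((1 - 2 * F) * s0 ^ 2 / 2) +
        τ * ((1 - 2 * F) * s1 ^ 2 / 2) - H ^ 2 / 8 := by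
      have d1 : τ * (1 - τ) * H ^ 2 ≤ 1 / 4 * H ^ 2 :=
        mul_le_mul_of_nonneg_right (tau_le (τ := τ)) (sq_nonneg H)
      have hF0 : 0 ≤ F := hf0.trans hfF
      have d2 : (1 - 2 * F) * (τ * (1 - τ) * H ^ 2) ≤ 1 * (1 / 4 * H ^ 2) := by
        apply mul_le_mul (by linarith only [hf0, hfF]) d1 _ (by norm_num)
        positivity
      rw [h4]
      linarith only [d2]
    have c3 : K * s * (1 - s / B / r) ≥ (1 - τ) * (K * s0 * (1 - s0 / B / r)) +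
        τ * (K * s1 * (1 - s1 / B / r)) := by
      have d1 : K * s * (1 - s / B / r) = (1 - τ) * (K * s0 * (1 - s0 / B / r)) +
        τ * (K * s1 * (1 - s1 / B / r)) + K / B / r * (τ * (1 - τ) * (s1 - s0) ^ 2) := by
        rw [hs]
        field_simp
        ring
      have d2 : 0 ≤ K / B / r * (τ * (1 - τ) * (s1 - s0) ^ 2) := by
        have := mul_nonneg hτ0 hτ1
        positivity
      rw [d1]
      linarith only [d2]
    linarith only [c1, c2, c3]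
  linarith only [h2, h5]

end

end Pool.Agent.Lib.MP_af3a4a_an.P1.CHK.H58.G
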