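import Pool.Agent.Lib.MP_af3a4a_an.P1.CHK.H58.GNa

/-!
# The general checker: the profiles, part GNf (helper58; split by helper88)
-/

set_option autoImplicit false

namespace Pool.Agent.Lib.MP_af3a4a_an.P1.CHK.H58.G

open Finset MeasureTheory ComplexConjugate
open Pool.Agent.Lib.MP_af3a4a_an.SV (uu av)
open Pool.Agent.Lib.MP_af3a4a_an.P1.H80
open Pool.Agent.Lib.MP_af3a4a_an.P1.H74
open Pool.Agent.Lib.MP_af3a4a_an.P1.H81
open Pool.Agent.Lib.MP_af3a4a_an.P1.CHK.Arith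
open Pool.Agent.Lib.MP_af3a4a_an.P1.CHK.H58 (wV qq_V pade chordV)
open Pool.Agent.Lib.MP_af3a4a_an.P1.CHK.H58.M (CellQ node_le exp_chord)

section

variable {N : ℕ} {w : Fin N → ℂ} {R β ρ : ℝ}

theorem cellP (hρ : 0 < ρ) (hN : β ^ 2 * ρ = N) {Ba pc : ℕ} (hBa : 1 ≤ Ba)
    (hβa : (Ba : ℝ) / 2 ^ 10 ≤ β)
    (hP : ∀ x ∈ Set.Icc (0 : ℝ) ((pc : ℝ) / 10), ‖qq (uu w) x‖ ≤
      Real.exp (-(N * ((x ^ 2 / 2 - x ^ 3 / 5) / ρ))))
    (h j : ℕ) (hj : 10 * (j + h) ≤ pc * Ba) :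
    CellQ N (uu w) β (eP Ba h) h j := by
  intro τ hτ
  have hBar : (0 : ℝ) < Ba := by exact_mod_cast hBa
  have hβ : 0 < β := lt_of_lt_of_le (by positivity) hβa
  obtain ⟨B, hB⟩ : ∃ B, B = (Ba : ℝ) / 2 ^ 10 := ⟨_, rfl⟩
  rw [← hB] at hβa
  have hB0 : 0 < B := by rw [hB]; positivity
  obtain ⟨s0, hs0⟩ : ∃ s0, s0 = (j : ℝ) / 2 ^ 10 := ⟨_, rfl⟩
  obtain ⟨s1, hs1⟩ : ∃ s1, s1 = ((j + h : ℕ) : ℝ) / 2 ^ 10 := ⟨_, rfl⟩
  obtain ⟨H, hH⟩ : ∃ H, H = (h : ℝ) / 2 ^ 10 := ⟨_, rfl⟩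
  have h0 : 0 ≤ s0 := by rw [hs0]; positivity
  have h1 : 0 ≤ s1 := by rw [hs1]; positivity
  have hs10 : s1 - s0 = H := by rw [hs1, hs0, hH]; push_cast; ring
  have hH0 : 0 ≤ H := by rw [hH]; positivity
  have hs1B : s1 ≤ pc / 10 * B := by
    rw [hs1, hB]
    have : (10 * (j + h : ℕ) : ℝ) ≤ pc * Ba := by exact_mod_cast hj
    rw [div_le_iff₀ (by positivity)]
    have e : (pc : ℝ) / 10 * ((Ba : ℝ) / 2 ^ 10) * 2 ^ 10 = pc * Ba / 10 := by ring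
    rw [e, le_div_iff₀ (by norm_num)]
    linarith only [this]
  have hnode : ∀ i : ℕ, Real.exp (-(((i : ℝ) / 2 ^ 10) ^ 2 / 2 -
      ((i : ℝ) / 2 ^ 10) ^ 3 / 5 / B - H ^ 2 / 8)) ≤ (eP Ba h i : ℝ) / 2 ^ 40 := by
    intro i
    unfold eP
    rw [ev_eq]
    apply node_le
    have h2 := real_le_div ((i * i * i) * 1048576) (5 * Ba) (by omega)
    have h3 : ((i * i * 524288 : ℕ) : ℝ) / 2 ^ 40 = ((i : ℝ) / 2 ^ 10) ^ 2 / 2 := by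
      push_cast; ring
    have h4 : ((i : ℝ) / 2 ^ 10) ^ 3 / 5 / B =
        (((i * i * i) * 1048576 : ℕ) : ℝ) / ((5 * Ba : ℕ) : ℝ) / 2 ^ 40 := by
      rw [hB]
      push_cast
      field_simp
      ring
    have h5 : H ^ 2 / 8 = ((h * h * 131072 : ℕ) : ℝ) / 2 ^ 40 := by
      rw [hH]; push_cast; ring
    rw [h3, h4, h5]
    have h6 := div_le_div_of_nonneg_right h2 (by positivity : (0 : ℝ) ≤ 2 ^ 40)
    rw [Nat.cast_add (i * i * i * 1048576 / (5 * Ba) + 1) (h * h * 131072), add_div]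
    linarith only [h2]
  rw [← hs0, ← hs1]
  obtain ⟨s, hs⟩ : ∃ s, s = s0 + τ * (s1 - s0) := ⟨_, rfl⟩
  have hsc : s = (1 - τ) * s0 + τ * s1 := by rw [hs]; ring
  have hτ1 := sub_nonneg.2 hτ.2
  have hτ0 := hτ.1
  have hs_0 : 0 ≤ s := by
    rw [hsc]
    positivity
  have hs_1 : s ≤ s1 := by
    have : 0 ≤ (1 - τ) * (s1 - s0) := by
      rw [hs10]; positivity
    rw [hs]
    linarith only [this]
  have hx : s / β ≤ pc / 10 := by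
    rw [div_le_iff₀ hβ]
    have : (pc : ℝ) / 10 * B ≤ pc / 10 * β := mul_le_mul_of_nonneg_left hβa (by positivity)
    linarith only [hs1B, hs_1, this]
  have hq := hP (s / β) ⟨div_nonneg hs_0 hβ.le, hx⟩
  refine exp_chord (f0 := s0 ^ 2 / 2 - s0 ^ 3 / 5 / B - H ^ 2 / 8)
    (f1 := s1 ^ 2 / 2 - s1 ^ 3 / 5 / B - H ^ 2 / 8) hτ.1 hτ.2
    (by rw [← hs]; exact hq) ?_ (by rw [hs0]; exact hnode j) (by rw [hs1]; exact hnode (j + h))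
  have e1 : (N : ℝ) * (((s / β) ^ 2 / 2 - (s / β) ^ 3 / 5) / ρ) =
      s ^ 2 / 2 - s ^ 3 / 5 / β := by
    rw [← hN]
    field_simp
  rw [e1]
  have h6 : s ^ 3 / 5 / β ≤ s ^ 3 / 5 / B :=
    div_le_div_of_nonneg_left (by positivity) hB0 hβa
  have h7 : s ^ 3 ≤ (1 - τ) * s0 ^ 3 + τ * s1 ^ 3 := by
    have := (convexOn_pow 3).2 (Set.mem_Ici.2 h0) (Set.mem_Ici.2 h1) hτ1 hτ0 (by ring)
    simp only [smul_eq_mul] at this
    rw [hsc]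
    exact this
  have h8 : s ^ 3 / 5 / B ≤ (1 - τ) * (s0 ^ 3 / 5 / B) + τ * (s1 ^ 3 / 5 / B) := by
    have e : (1 - τ) * (s0 ^ 3 / 5 / B) + τ * (s1 ^ 3 / 5 / B) =
        ((1 - τ) * s0 ^ 3 + τ * s1 ^ 3) / 5 / B := by ring
    rw [e]
    apply div_le_div_of_nonneg_right _ hB0.le
    linarith only [h7]
  have h9 := sq_conv hs hs10
  have h10 : τ * (1 - τ) * H ^ 2 / 2 ≤ H ^ 2 / 8 := by
    have := mul_le_mul_of_nonneg_right (tau_le (τ := τ)) (sq_nonneg H)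
    linarith only [this]
  linarith only [h6, h8, h9, h10]

end

end Pool.Agent.Lib.MP_af3a4a_an.P1.CHK.H58.G
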