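import Pool.Agent.Lib.MP_af3a4a_an.P1.CHK.H58.GNa

/-!
# The general checker: the profiles, part GNg (helper58; split by helper88)
-/

set_option autoImplicit false

namespace Pool.Agent.Lib.MP_af3a4a_an.P1.CHK.H58.G

open Finset MeasureTheory ComplexConjugate
open Pool.Agent.Lib.MP_af3a4a_an.SV (uu av)
open Pool.Agent.Lib.MP_af3a4a_an.P1.H80
open Pool.Agent.Lib.MP_af3a4a_an.P1.H74
open Pool.Agent.Lib.MP_af3a4a_an.P1.H81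
open Pool.Agent.Lib.MP_af3a4a_an.P1.CHK.Arith
open Pool.Agent.Lib.MP_af3a4a_an.P1.CHK.H58 (wV qq_V pade chordV)
open Pool.Agent.Lib.MP_af3a4a_an.P1.CHK.H58.M (CellQ node_le exp_chord)

section

variable {N : ℕ} {w : Fin N → ℂ} {R β ρ : ℝ}

theorem cellC (hρ : 0 < ρ) (hβ : 0 < β) (hN : β ^ 2 * ρ = N) {c : ℕ} {Y : ℝ}
    (hC : ∀ x ∈ Set.Icc (0 : ℝ) Y, ‖qq (uu w) x‖ ≤
      Real.exp (-(N * ((c : ℝ) / 1024 * x ^ 2 / ρ))))
    (h j : ℕ) (hj : ((j + h : ℕ) : ℝ) / 2 ^ 10 / β ≤ Y) : CellQ N (uu w) β (eC c h) h j := by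
  intro τ hτ
  obtain ⟨s0, hs0⟩ : ∃ s0, s0 = (j : ℝ) / 2 ^ 10 := ⟨_, rfl⟩
  obtain ⟨s1, hs1⟩ : ∃ s1, s1 = ((j + h : ℕ) : ℝ) / 2 ^ 10 := ⟨_, rfl⟩
  obtain ⟨H, hH⟩ : ∃ H, H = (h : ℝ) / 2 ^ 10 := ⟨_, rfl⟩
  obtain ⟨C, hCd⟩ : ∃ C, C = (c : ℝ) / 1024 := ⟨_, rfl⟩
  rw [← hCd] at hC
  have hC0 : 0 ≤ C := by rw [hCd]; positivity
  have h0 : 0 ≤ s0 := by rw [hs0]; positivity
  have h1 : 0 ≤ s1 := by rw [hs1]; positivity
  have hs10 : s1 - s0 = H := by rw [hs1, hs0, hH]; push_cast; ring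
  have hH0 : 0 ≤ H := by rw [hH]; positivity
  have hnode : ∀ i : ℕ, Real.exp (-(C * ((i : ℝ) / 2 ^ 10) ^ 2 - C * H ^ 2 / 4)) ≤
      (eC c h i : ℝ) / 2 ^ 40 := by
    intro i
    unfold eC
    rw [ev_eq]
    apply node_le
    have h4 : C * H ^ 2 / 4 = ((h * h * c * 256 : ℕ) : ℝ) / 2 ^ 40 := by
      rw [hH, hCd]; push_cast; ring
    have h5 : C * ((i : ℝ) / 2 ^ 10) ^ 2 = ((i * i * c * 1024 : ℕ) : ℝ) / 2 ^ 40 := by
      rw [hCd]; push_cast; ring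
    rw [h4, h5, Nat.cast_add (h * h * c * 256) 1, add_div]
    have : (0 : ℝ) ≤ ((1 : ℕ) : ℝ) / 2 ^ 40 := by positivity
    linarith only []
  rw [← hs0, ← hs1]
  rw [← hs1] at hj
  obtain ⟨s, hs⟩ : ∃ s, s = s0 + τ * (s1 - s0) := ⟨_, rfl⟩
  have hsc : s = (1 - τ) * s0 + τ * s1 := by rw [hs]; ring
  have hτ1 := sub_nonneg.2 hτ.2
  have hτ0 := hτ.1
  have hs_0 : 0 ≤ s := by
    rw [hsc]
    positivity
  have hs_1 : s ≤ s1 := by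
    have : 0 ≤ (1 - τ) * (s1 - s0) := by
      rw [hs10]; positivity
    rw [hs]
    linarith only [this]
  have hx : s / β ≤ Y := (div_le_div_of_nonneg_right hs_1 hβ.le).trans hj
  refine exp_chord (f0 := C * s0 ^ 2 - C * H ^ 2 / 4) (f1 := C * s1 ^ 2 - C * H ^ 2 / 4)
    hτ.1 hτ.2 (by rw [← hs]; exact hC _ ⟨div_nonneg hs_0 hβ.le, hx⟩) ?_
    (by rw [hs0]; exact hnode j) (by rw [hs1]; exact hnode (j + h))
  have e1 : (N : ℝ) * (C * (s / β) ^ 2 / ρ) = C * s ^ 2 := by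
    rw [← hN]
    field_simp
  rw [e1]
  have h9 := sq_conv hs hs10
  have h10 : C * (τ * (1 - τ) * H ^ 2) ≤ C * H ^ 2 / 4 := by
    have := mul_le_mul_of_nonneg_left
      (mul_le_mul_of_nonneg_right (tau_le (τ := τ)) (sq_nonneg H)) hC0
    linarith only [this]
  rw [h9]
  linarith only [h10]

end

end Pool.Agent.Lib.MP_af3a4a_an.P1.CHK.H58.G
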