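import Pool.Agent.Lib.MP_af3a4a_an.P1.CHK.H58.GNb
import Pool.Agent.Lib.MP_af3a4a_an.P1.CHK.H58.GNc
import Pool.Agent.Lib.MP_af3a4a_an.P1.CHK.H58.GNe
import Pool.Agent.Lib.MP_af3a4a_an.P1.CHK.H58.GNf
import Pool.Agent.Lib.MP_af3a4a_an.P1.CHK.H58.GNg

/-!
# The general checker: the profiles (helper58)

The proofs are in the files `GNa` to `GNg`, which this file gathers.
-/
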