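import Pool.Agent.Lib.MP_af3a4a_an.P1.CHK.H58.MU
import Pool.Agent.Lib.MP_af3a4a_an.P1.H81.ZoneA

/-!
# `R ∈ [21/10, 29/12]`: soundness of the checker, second part (helper58)
-/

set_option autoImplicit false

namespace Pool.Agent.Lib.MP_af3a4a_an.P1.CHK.H58.M

open Finset MeasureTheory ComplexConjugate
open Pool.Agent.Lib.MP_af3a4a_an.SV (uu av)
open Pool.Agent.Lib.MP_af3a4a_an.P1.H80
open Pool.Agent.Lib.MP_af3a4a_an.P1.H74
open Pool.Agent.Lib.MP_af3a4a_an.P1.H81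
open Pool.Agent.Lib.MP_af3a4a_an.P1.CHK.Arith

section

variable {N : ℕ} {w : Fin N → ℂ} {R β : ℝ} {g : Gr}

theorem le_of_sq_le_sq' {a b : ℝ} (h : a ^ 2 ≤ b ^ 2) (hb : 0 ≤ b) : a ≤ b :=
  abs_le_of_sq_le_sq' h hb |>.2

theorem Cf.m_nonneg (c : Cf N w R β g) : 0 ≤ (av (uu w)).re := by
  have hR : 0 < R := by linarith [c.hR2]
  have h1 := first_moment (by have := c.hN; omega) c.hw c.ht hR
  have : 0 ≤ R * ‖av (uu w)‖ ^ 2 := by positivity
  linarith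

theorem mxU_sound (c : Cf N w R β g) {k1 : ℕ}
    (hk : k1 ≠ 0 → (av (uu w)).re * R * β ≤ (k1 : ℝ) / 2 ^ 10) :
    (av (uu w)).re ≤ (mxU g k1 : ℝ) / 2 ^ 20 := by
  have hR : 0 < R := by linarith [c.hR2]
  have hβ := c.hβ
  have hR0n : 0 < g.R0 := by
    have := c.hg0
    omega
  have hR0p : (0 : ℝ) < g.R0 := by exact_mod_cast hR0n
  have hBar : (0 : ℝ) < g.Ba := by exact_mod_cast c.hBa
  obtain ⟨m1, hm1⟩ : ∃ m1, m1 = (av (uu w)).re := ⟨_, rfl⟩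
  have hm0 := c.m_nonneg
  rw [← hm1] at hk hm0 ⊢
  unfold mxU
  by_cases h : k1 = 0
  · subst h
    have e0 : Nat.beq 0 0 = true := rfl
    rw [e0, cond_true]
    have h1 := first_moment (by have := c.hN; omega) c.hw c.ht hR
    rw [← hm1] at h1
    have h2 : m1 ≤ ‖av (uu w)‖ := by
      rw [hm1]
      exact Complex.re_le_norm _
    have h3 : R * m1 ^ 2 ≤ 2 * m1 := by
      refine le_trans ?_ h1
      apply mul_le_mul_of_nonneg_left _ hR.le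
      exact pow_le_pow_left₀ hm0 h2 2
    have h4 : m1 ≤ 2 / R := by
      rw [le_div_iff₀ hR]
      rcases hm0.eq_or_lt with h | h
      · rw [← h]; norm_num
      · have h5 : (R * m1) * m1 ≤ 2 * m1 := by nlinarith
        have := le_of_mul_le_mul_right h5 h
        linarith
    have h5 : 2 / R ≤ 2 / ((g.R0 : ℝ) / 2 ^ 10) :=
      div_le_div_of_nonneg_left (by norm_num) (by positivity) c.hR0
    have h6 := real_le_div 2147483648 g.R0 hR0n
    rw [le_div_iff₀ (by positivity)]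
    refine le_trans ?_ h6
    have e : 2 / ((g.R0 : ℝ) / 2 ^ 10) * 2 ^ 20 = ((2147483648 : ℕ) : ℝ) / g.R0 := by
      push_cast
      field_simp
      norm_num
    rw [← e]
    exact mul_le_mul_of_nonneg_right (h4.trans h5) (by positivity)
  · have hb' : Nat.beq k1 0 = false := by
      rw [Bool.eq_false_iff]
      intro hc
      exact h (Nat.eq_of_beq_eq_true hc)
    rw [hb', cond_false]
    have h1 := hk h
    have h2 : m1 * (((g.R0 : ℝ) / 2 ^ 10) * ((g.Ba : ℝ) / 2 ^ 10)) ≤ (k1 : ℝ) / 2 ^ 10 := by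
      refine le_trans ?_ h1
      rw [mul_assoc]
      apply mul_le_mul_of_nonneg_left _ hm0
      exact mul_le_mul c.hR0 c.hβa (by positivity) hR.le
    have h3 := real_le_div (k1 * 1073741824) (g.R0 * g.Ba) (Nat.mul_pos hR0n c.hBa)
    rw [le_div_iff₀ (by positivity)]
    refine le_trans ?_ h3
    push_cast
    rw [le_div_iff₀ (by positivity)]
    rw [le_div_iff₀ (by positivity)] at h2
    nlinarith

theorem Cf.mb (c : Cf N w R β g) {mx : ℕ} (hm : (av (uu w)).re ≤ (mx : ℝ) / 2 ^ 20) :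
    Mb w R (1048576 + 2 * mx) ((g.R0 - 1024) * 1048576 / g.R0)
      ((3 * g.R1 + (1048576 / g.R0 + 1) - 2048) * mx / 1024 + 1)
      (isq (mx * 2147483648 / g.R0 + 1)) := by
  have hR : 0 < R := by linarith [c.hR2]
  have hR0n : 0 < g.R0 := by
    have := c.hg0
    omega
  have hR0p : (0 : ℝ) < g.R0 := by exact_mod_cast hR0n
  have hm0 := c.m_nonneg
  have h1 := first_moment (by have := c.hN; omega) c.hw c.ht hR
  obtain ⟨m1, hm1⟩ : ∃ m1, m1 = (av (uu w)).re := ⟨_, rfl⟩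
  rw [← hm1] at hm hm0 h1
  refine ⟨?_, ?_, ?_, isq_pos _, by rw [← hm1]; exact hm0⟩
  · rw [← hm1]
    push_cast
    have : (1048576 + 2 * (mx : ℝ)) / 2 ^ 20 = 1 + 2 * (mx / 2 ^ 20) := by ring
    rw [this]
    linarith
  · rw [← hm1]
    -- `gp`
    have hgp : (((g.R0 - 1024) * 1048576 / g.R0 : ℕ) : ℝ) / 2 ^ 20 ≤ (R - 1) / R := by
      have h2 := div_le_real ((g.R0 - 1024) * 1048576) g.R0
      have hc : ((g.R0 - 1024 : ℕ) : ℝ) = g.R0 - 1024 := by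
        rw [Nat.cast_sub (show 1024 ≤ g.R0 by have := c.hg0; omega)]
        norm_num
      rw [Nat.cast_mul, hc] at h2
      have h3 : ((g.R0 : ℝ) - 1024) / g.R0 ≤ (R - 1) / R := by
        rw [div_le_div_iff₀ hR0p hR]
        have h4 := c.hR0
        rw [div_le_iff₀ (by positivity)] at h4
        norm_num at h4
        linarith
      rw [div_le_iff₀ (by positivity)]
      refine h2.trans ?_
      have e : ((g.R0 : ℝ) - 1024) * ((1048576 : ℕ) : ℝ) / g.R0 =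
          ((g.R0 : ℝ) - 1024) / g.R0 * 2 ^ 20 := by
        push_cast
        ring
      rw [e]
      exact mul_le_mul_of_nonneg_right h3 (by positivity)
    -- `gn`
    have hgn : (3 * R ^ 2 - 2 * R + 1) / R * m1 ≤
        (((3 * g.R1 + (1048576 / g.R0 + 1) - 2048) * mx / 1024 + 1 : ℕ) : ℝ) / 2 ^ 20 := by
      obtain ⟨A, hA⟩ : ∃ A, A = 3 * g.R1 + (1048576 / g.R0 + 1) - 2048 := ⟨_, rfl⟩
      rw [← hA]
      have h2 := real_le_div (A * mx) 1024 (by norm_num)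
      have h3 := sub_le_cast (3 * g.R1 + (1048576 / g.R0 + 1)) 2048
      rw [← hA] at h3
      have h4 := real_le_div 1048576 g.R0 hR0n
      have h5 : (3 * R ^ 2 - 2 * R + 1) / R ≤ (A : ℝ) / 2 ^ 10 := by
        have e : (3 * R ^ 2 - 2 * R + 1) / R = 3 * R + 1 / R - 2 := by
          field_simp
          ring
        rw [e]
        have h6 : 1 / R ≤ 1 / ((g.R0 : ℝ) / 2 ^ 10) :=
          div_le_div_of_nonneg_left (by norm_num) (by positivity) c.hR0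
        have h7 : 1 / ((g.R0 : ℝ) / 2 ^ 10) = ((1048576 : ℕ) : ℝ) / g.R0 / 2 ^ 10 := by
          push_cast
          field_simp
          norm_num
        rw [h7] at h6
        have h8 := div_le_div_of_nonneg_right h4 (by positivity : (0 : ℝ) ≤ 2 ^ 10)
        have h9 := div_le_div_of_nonneg_right h3 (by positivity : (0 : ℝ) ≤ 2 ^ 10)
        have h10 := c.hR1
        refine le_trans ?_ h9
        obtain ⟨q, hq⟩ : ∃ q, q = 1048576 / g.R0 + 1 := ⟨_, rfl⟩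
        rw [← hq] at h8 ⊢
        have e3 : (((3 * g.R1 + q : ℕ) : ℝ) - ((2048 : ℕ) : ℝ)) / 2 ^ 10 =
            3 * ((g.R1 : ℝ) / 2 ^ 10) + (q : ℝ) / 2 ^ 10 - 2 := by
          push_cast
          ring
        rw [e3]
        linarith
      have h6 : (3 * R ^ 2 - 2 * R + 1) / R * m1 ≤ (A : ℝ) / 2 ^ 10 * ((mx : ℝ) / 2 ^ 20) :=
        mul_le_mul h5 hm hm0 (div_nonneg (Nat.cast_nonneg A) (by norm_num))
      refine h6.trans ?_
      rw [le_div_iff₀ (by positivity)]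
      refine le_trans (le_of_eq ?_) h2
      push_cast
      ring
    linarith
  · have h2 : ‖av (uu w)‖ ^ 2 ≤ 2 * m1 / R := by
      rw [le_div_iff₀ hR, mul_comm]
      exact h1
    have h3 : 2 * m1 / R ≤ 2 * ((mx : ℝ) / 2 ^ 20) / ((g.R0 : ℝ) / 2 ^ 10) :=
      div_le_div₀ (by positivity) (by linarith) (by positivity) c.hR0
    have h4 := real_le_div (mx * 2147483648) g.R0 hR0n
    obtain ⟨a, ha⟩ : ∃ a, a = mx * 2147483648 / g.R0 + 1 := ⟨_, rfl⟩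
    rw [← ha] at h4 ⊢
    have h5 := sqrt_le_isq a
    have h6 : ‖av (uu w)‖ ^ 2 ≤ (a : ℝ) / 2 ^ 40 := by
      refine (h2.trans h3).trans ?_
      rw [le_div_iff₀ (by positivity)]
      refine le_trans (le_of_eq ?_) h4
      push_cast
      field_simp
      ring
    have h7 : ‖av (uu w)‖ ≤ Real.sqrt ((a : ℝ) / 2 ^ 40) := Real.le_sqrt_of_sq_le h6
    refine h7.trans ?_
    rw [Real.sqrt_div (Nat.cast_nonneg a)]
    have e : Real.sqrt (2 ^ 40) = 2 ^ 20 := by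
      rw [show (2 : ℝ) ^ 40 = (2 ^ 20) ^ 2 by norm_num, Real.sqrt_sq (by positivity)]
    rw [e]
    exact div_le_div_of_nonneg_right h5 (by positivity)

theorem one_sound (c : Cf N w R β g) {T tail k0 : ℕ} {e : En} (tt : Tt β R g T tail)
    (hk0 : (k0 : ℝ) / 2 ^ 10 ≤ (av (uu w)).re * R * β)
    (hk1 : e.k1 ≠ 0 → (av (uu w)).re * R * β ≤ (e.k1 : ℝ) / 2 ^ 10)
    (h : one g T tail k0 e = true) :
    1 / 16384 ≤ ((N : ℝ) + 1) * ‖∫ x in (0 : ℝ)..(R - 19 / 50), qq (uu w) x‖ := by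
  have hmx := mxU_sound c hk1
  unfold one at h
  simp only [ev_eq, Bool.and_eq_true, Nat.ble_eq] at h
  obtain ⟨hh, hth, h⟩ := h
  obtain ⟨mx, hmx'⟩ : ∃ mx, mx = mxU g e.k1 := ⟨_, rfl⟩
  rw [← hmx'] at hmx h
  have mb := c.mb hmx
  have hR : 0 < R := by linarith [c.hR2]
  have hβ := c.hβ
  have hN1 : 1 ≤ N := by have := c.hN; omega
  have hBar : (0 : ℝ) < g.Ba := by exact_mod_cast c.hBa
  obtain ⟨y, hy⟩ : ∃ y, y = (g.y : ℝ) / 2 ^ 10 := ⟨_, rfl⟩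
  have hy1 : y < 1 := by
    rw [hy, div_lt_one (by positivity)]
    have h1 : (g.y : ℝ) ≤ 1000 := by exact_mod_cast c.hy1
    have h2 : (2 : ℝ) ^ 10 = 1024 := by norm_num
    rw [h2]
    linarith
  have hkc : ContinuousOn (kapK R (av (uu w)).re) (Set.Icc 0 y) := kap_cont hy1
  have hY : ∀ s : ℕ, s * 1024 ≤ g.y * g.Ba → (s : ℝ) / 2 ^ 10 / β ≤ y := by
    intro s hs
    have h1 : (s : ℝ) / 2 ^ 10 / β ≤ (s : ℝ) / 2 ^ 10 / ((g.Ba : ℝ) / 2 ^ 10) :=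
      div_le_div_of_nonneg_left (by positivity) (by positivity) c.hβa
    refine h1.trans ?_
    have h2 : (s : ℝ) * 1024 ≤ g.y * g.Ba := by exact_mod_cast hs
    rw [hy, div_le_iff₀ (by positivity)]
    have e : (g.y : ℝ) / 2 ^ 10 * ((g.Ba : ℝ) / 2 ^ 10) = (g.y * g.Ba) / 2 ^ 20 := by ring
    rw [e, div_le_div_iff₀ (by positivity) (by positivity)]
    nlinarith
  obtain ⟨Sm, hSm⟩ : ∃ Sm, Sm = 1048576 + 2 * mx := ⟨_, rfl⟩
  obtain ⟨gp, hgp⟩ : ∃ gp, gp = (g.R0 - 1024) * 1048576 / g.R0 := ⟨_, rfl⟩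
  obtain ⟨gn, hgn⟩ : ∃ gn, gn = (3 * g.R1 + (1048576 / g.R0 + 1) - 2048) * mx / 1024 + 1 :=
    ⟨_, rfl⟩
  obtain ⟨rho, hrho⟩ : ∃ rho, rho = isq (mx * 2147483648 / g.R0 + 1) := ⟨_, rfl⟩
  rw [← hSm, ← hgp, ← hgn, ← hrho] at mb h
  clear hSm hgp hgn hrho hmx'
  have hK : ∀ s : ℕ, (s + e.h) * 1024 ≤ g.y * g.Ba →
      ∀ x ∈ Set.Icc ((s : ℝ) / 2 ^ 10 / β) (((s + e.h : ℕ) : ℝ) / 2 ^ 10 / β),
        R * kapK R (av (uu w)).re x ≤ (kapC Sm gp gn g.R1 g.Ba g.Bb s (s + e.h) : ℝ) / 2 ^ 20 := by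
    intro s hs x hx
    exact kapC_sound hR c.hR1 mb.hS mb.hg c.hBa c.hβa c.hβb c.hy1 hs hx.1 hx.2
  -- the three segments
  have hI0 : Inv N (uu w) β (kapK R (av (uu w)).re) e.th 0 0 0 := by
    constructor <;> simp
  obtain ⟨U1, V1, hl1, h1, hI1⟩ :=
    seg_sound (u := uu w) (e := eA Sm k0) hR hβ c.hβN hkc hh hY hK e.nA 0 0 0 h
  have hI1 := hI1 hI0 fun j _ _ => cellA hN1 c.hw c.ht hR hβ c.hβN mb.hS hk0 e.h j
  clear h
  obtain ⟨s1, hs1⟩ : ∃ s1, s1 = 0 + e.nA * e.h := ⟨_, rfl⟩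
  rw [← hs1] at h1 hI1 hl1
  have hl1 := hl1 (by rw [Nat.zero_mul]; exact Nat.zero_le _)
  obtain ⟨U2, V2, hl2, h2, hI2⟩ :=
    seg_sound (u := uu w) (e := eP g.Ba e.h) hR hβ c.hβN hkc hh hY hK e.nP s1 U1 V1 h1
  clear h1
  obtain ⟨s2, hs2⟩ : ∃ s2, s2 = s1 + e.nP * e.h := ⟨_, rfl⟩
  rw [← hs2] at h2 hI2 hl2
  have hl2 := hl2 hl1
  simp only [Bool.and_eq_true, Nat.ble_eq] at h2
  obtain ⟨h25, h2⟩ := h2
  have hI2 := hI2 hI1 fun j _ hj => cellP hN1 c.hw c.ht c.hR2 c.hR3 c.hβN c.hBa c.hβa e.h j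
    (by omega)
  obtain ⟨U3, V3, hl3, h3, hI3⟩ :=
    seg_sound (u := uu w) (e := eC e.h) hR hβ c.hβN hkc hh hY hK e.nC s2 U2 V2 h2
  clear h2
  obtain ⟨s3, hs3⟩ : ∃ s3, s3 = s2 + e.nC * e.h := ⟨_, rfl⟩
  rw [← hs3] at h3 hI3 hl3
  have hl3 := hl3 hl2
  have hI3 := hI3 hI2 fun j _ hj => cellC hR hβ c.hβN c.hC e.h j
    ((hY (j + e.h) ((Nat.mul_le_mul_right 1024 (hs3 ▸ hj)).trans hl3)).trans hy1.le)
  exact fin_sound c mb tt hl3 hI3 h3

theorem goK_sound (c : Cf N w R β g) {T tail : ℕ} (tt : Tt β R g T tail) (l : List En) :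
    ∀ k0 : ℕ, (k0 : ℝ) / 2 ^ 10 ≤ (av (uu w)).re * R * β → goK g T tail k0 l = true →
    1 / 16384 ≤ ((N : ℝ) + 1) * ‖∫ x in (0 : ℝ)..(R - 19 / 50), qq (uu w) x‖ := by
  induction l with
  | nil => intro k0 _ h; simp [goK] at h
  | cons e l ih =>
    intro k0 hk h
    unfold goK at h
    rw [Bool.and_eq_true] at h
    obtain ⟨h1, h2⟩ := h
    by_cases he : e.k1 = 0
    · exact one_sound c tt hk (fun h => absurd he h) h1
    · have hb' : Nat.beq e.k1 0 = false := by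
        rw [Bool.eq_false_iff]
        intro hc
        exact he (Nat.eq_of_beq_eq_true hc)
      rw [hb', cond_false] at h2
      rcases le_total ((av (uu w)).re * R * β) ((e.k1 : ℝ) / 2 ^ 10) with h3 | h3
      · exact one_sound c tt hk (fun _ => h3) h1
      · exact ih _ h3 h2

end

/-- **the checker is sound** -/
theorem chk_sound {N : ℕ} {w : Fin N → ℂ} {R : ℝ} {g : Gr} {l : List En} (h : chk g l = true)
    (hN : 100 ≤ N) (hw : ∀ k, 1 ≤ ‖w k‖) (ht : ∑ k, ‖w k - (R : ℂ)‖ ≤ N) (hR3 : R ≤ 29 / 12)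
    (hR0 : (g.R0 : ℝ) / 2 ^ 10 ≤ R) (hR1 : R ≤ (g.R1 : ℝ) / 2 ^ 10)
    (hNa : (g.R1 : ℝ) * g.Ba ^ 2 ≤ N * 2 ^ 30)
    (hNb : g.Bb ≠ 0 → (N : ℝ) * 2 ^ 30 ≤ (g.R0 : ℝ) * g.Bb ^ 2)
    (hC : ∀ x ∈ Set.Icc (0 : ℝ) 1, ‖qq (uu w) x‖ ≤ Real.exp (-(N * (2 / 5 * x ^ 2 / R))))
    (hC2 : ∀ x ∈ Set.Icc (1 : ℝ) (R - 19 / 50), ‖qq (uu w) x‖ ≤
      Real.exp (-(N * (x ^ 2 / (4 * R))))) :
    1 / 16384 ≤ ((N : ℝ) + 1) * ‖∫ x in (0 : ℝ)..(R - 19 / 50), qq (uu w) x‖ := by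
  unfold chk at h
  simp only [ev_eq, Bool.and_eq_true, Nat.ble_eq] at h
  obtain ⟨hg0, _, hBa, hy0, hy1, hgo⟩ := h
  have hg0r : (2048 : ℝ) ≤ g.R0 := by exact_mod_cast hg0
  have hR2 : 2 ≤ R := by
    refine le_trans ?_ hR0
    rw [le_div_iff₀ (by positivity)]
    refine le_trans (le_of_eq ?_) hg0r
    norm_num
  have hR : 0 < R := by linarith
  have hR1p : (0 : ℝ) < g.R1 := by
    rw [le_div_iff₀ (by positivity)] at hR1
    have : 0 < R * 2 ^ 10 := by positivity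
    linarith
  obtain ⟨β, hβ⟩ : ∃ β, β = Real.sqrt (N / R) := ⟨_, rfl⟩
  have hNr : (100 : ℝ) ≤ N := by exact_mod_cast hN
  have hβ2 : β ^ 2 = N / R := by
    rw [hβ, Real.sq_sqrt (by positivity)]
  have hβ0 : 0 ≤ β := by rw [hβ]; exact Real.sqrt_nonneg _
  have c : Cf N w R β g := by
    refine ⟨hN, hw, ht, hR2, hR3, hR0, hR1, hg0, hBa, ?_, ?_, hy0, hy1, ?_, hC, hC2⟩
    · apply le_of_sq_le_sq' _ hβ0
      rw [hβ2, le_div_iff₀ hR]
      have h1 : ((g.Ba : ℝ) / 2 ^ 10) ^ 2 * R ≤ ((g.Ba : ℝ) / 2 ^ 10) ^ 2 * ((g.R1 : ℝ) / 2 ^ 10) :=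
        mul_le_mul_of_nonneg_left hR1 (by positivity)
      have e : ((g.Ba : ℝ) / 2 ^ 10) ^ 2 * ((g.R1 : ℝ) / 2 ^ 10) = g.R1 * g.Ba ^ 2 / 2 ^ 30 := by
        ring
      rw [e] at h1
      refine h1.trans ?_
      rw [div_le_iff₀ (by positivity)]
      exact hNa
    · intro hb
      have hb' := hNb hb
      apply le_of_sq_le_sq' _ (by positivity)
      rw [hβ2, div_le_iff₀ hR]
      have h1 : ((g.Bb : ℝ) / 2 ^ 10) ^ 2 * ((g.R0 : ℝ) / 2 ^ 10) ≤ ((g.Bb : ℝ) / 2 ^ 10) ^ 2 * R :=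
        mul_le_mul_of_nonneg_left hR0 (by positivity)
      have e : ((g.Bb : ℝ) / 2 ^ 10) ^ 2 * ((g.R0 : ℝ) / 2 ^ 10) = g.R0 * g.Bb ^ 2 / 2 ^ 30 := by
        ring
      rw [e] at h1
      refine le_trans ?_ h1
      rw [le_div_iff₀ (by positivity)]
      exact hb'
    · rw [hβ2]
      field_simp
  have hBar : (0 : ℝ) < g.Ba := by exact_mod_cast hBa
  have hyr : (0 : ℝ) < g.y := by exact_mod_cast hy0
  obtain ⟨T, hT⟩ : ∃ T, T = Arith.em (Nat.min (2 * (g.y * g.Ba * (g.y * g.Ba)) / 5) 70368744177664) :=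
    ⟨_, rfl⟩
  rw [← hT] at hgo
  refine goK_sound c (T := T) ⟨?_, ?_⟩ l 0 ?_ hgo
  · rw [hT]
    refine le_trans (Real.exp_le_exp.2 (neg_le_neg ?_)) (em_spec _)
    have h1 : ((Nat.min (2 * (g.y * g.Ba * (g.y * g.Ba)) / 5) 70368744177664 : ℕ) : ℝ) ≤
        ((2 * (g.y * g.Ba * (g.y * g.Ba)) / 5 : ℕ) : ℝ) := by
      exact_mod_cast Nat.min_le_left _ _
    have h2 := div_le_real (2 * (g.y * g.Ba * (g.y * g.Ba))) 5
    refine (div_le_div_of_nonneg_right (h1.trans h2) (by positivity)).trans ?_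
    have h3 : ((g.Ba : ℝ) / 2 ^ 10) ^ 2 ≤ β ^ 2 := pow_le_pow_left₀ (by positivity) c.hβa 2
    have h4 : 2 / 5 * ((g.Ba : ℝ) / 2 ^ 10) ^ 2 * ((g.y : ℝ) / 2 ^ 10) ^ 2 ≤
        2 / 5 * β ^ 2 * ((g.y : ℝ) / 2 ^ 10) ^ 2 :=
      mul_le_mul_of_nonneg_right (mul_le_mul_of_nonneg_left h3 (by norm_num)) (sq_nonneg _)
    refine le_trans (le_of_eq ?_) h4
    push_cast
    ring
  · have h1 := real_le_div (g.R1 * T * 101) (80 * g.y) (by omega)
    obtain ⟨T2, hT2⟩ : ∃ T2, T2 = Arith.em (Nat.min (g.Ba * g.Ba * 262144) 70368744177664) :=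
      ⟨_, rfl⟩
    rw [← hT2]
    have h2 := real_le_div (g.R1 * T2 * 101) 51200 (by norm_num)
    have hE : Real.exp (-(β ^ 2 / 4)) ≤ (T2 : ℝ) / 2 ^ 40 := by
      rw [hT2]
      refine le_trans (Real.exp_le_exp.2 (neg_le_neg ?_)) (em_spec _)
      have h3 : ((Nat.min (g.Ba * g.Ba * 262144) 70368744177664 : ℕ) : ℝ) ≤
          ((g.Ba * g.Ba * 262144 : ℕ) : ℝ) := by
        exact_mod_cast Nat.min_le_left _ _
      refine (div_le_div_of_nonneg_right h3 (by positivity)).trans ?_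
      have h4 : ((g.Ba : ℝ) / 2 ^ 10) ^ 2 ≤ β ^ 2 := pow_le_pow_left₀ (by positivity) c.hβa 2
      refine le_trans (le_of_eq ?_) (div_le_div_of_nonneg_right h4 (by norm_num : (0 : ℝ) ≤ 4))
      push_cast
      ring
    have h5 : 101 / 50 * R * Real.exp (-(β ^ 2 / 4)) ≤
        101 / 50 * ((g.R1 : ℝ) / 2 ^ 10) * ((T2 : ℝ) / 2 ^ 40) := by
      apply mul_le_mul _ hE (Real.exp_pos _).le (by positivity)
      exact mul_le_mul_of_nonneg_left hR1 (by norm_num)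
    rw [Nat.cast_add (g.R1 * T * 101 / (80 * g.y) + 1) (g.R1 * T2 * 101 / 51200 + 1), add_div]
    apply add_le_add
    · refine le_trans (le_of_eq ?_) (div_le_div_of_nonneg_right h1 (by positivity))
      push_cast
      ring
    · refine (h5.trans (le_of_eq ?_)).trans (div_le_div_of_nonneg_right h2 (by positivity))
      push_cast
      ring
  · rw [Nat.cast_zero, zero_div]
    have := c.m_nonneg
    have := c.hβ
    positivity

end Pool.Agent.Lib.MP_af3a4a_an.P1.CHK.H58.M
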