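import Pool.Agent.Lib.MP_af3a4a_an.P1.CHK.H58.GD
import Pool.Agent.Lib.MP_af3a4a_an.P1.CHK.H58.MV

/-!
# The general checker: the profiles, part GNa (helper58; split by helper88)
-/

set_option autoImplicit false

namespace Pool.Agent.Lib.MP_af3a4a_an.P1.CHK.H58.G

open Finset MeasureTheory ComplexConjugate
open Pool.Agent.Lib.MP_af3a4a_an.SV (uu av)
open Pool.Agent.Lib.MP_af3a4a_an.P1.H80
open Pool.Agent.Lib.MP_af3a4a_an.P1.H74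
open Pool.Agent.Lib.MP_af3a4a_an.P1.H81
open Pool.Agent.Lib.MP_af3a4a_an.P1.CHK.Arith
open Pool.Agent.Lib.MP_af3a4a_an.P1.CHK.H58 (wV qq_V pade chordV)
open Pool.Agent.Lib.MP_af3a4a_an.P1.CHK.H58.M (CellQ node_le exp_chord)

section

variable {N : ℕ} {w : Fin N → ℂ} {R β ρ : ℝ}

theorem xl_sound' {β : ℝ} (hβ : 0 < β) {Bb s : ℕ} (hBb : 1 ≤ Bb) (hβb : β ≤ (Bb : ℝ) / 2 ^ 10) :
    ((s * 1048576 / Bb : ℕ) : ℝ) / 2 ^ 20 ≤ (s : ℝ) / 2 ^ 10 / β := by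
  have hBr : (0 : ℝ) < Bb := by exact_mod_cast hBb
  have h2 := div_le_real (s * 1048576) Bb
  rw [div_le_iff₀ (by positivity)]
  refine h2.trans ?_
  push_cast
  have h3 : (s : ℝ) / 2 ^ 10 / ((Bb : ℝ) / 2 ^ 10) ≤ (s : ℝ) / 2 ^ 10 / β :=
    div_le_div_of_nonneg_left (by positivity) hβ hβb
  have e : (s : ℝ) * 1048576 / Bb = (s : ℝ) / 2 ^ 10 / ((Bb : ℝ) / 2 ^ 10) * 2 ^ 20 := by
    field_simp
    norm_num
  rw [e]
  exact mul_le_mul_of_nonneg_right h3 (by positivity)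

theorem xh_sound' {β : ℝ} {Ba s : ℕ} (hBa : 1 ≤ Ba) (hβa : (Ba : ℝ) / 2 ^ 10 ≤ β) :
    (s : ℝ) / 2 ^ 10 / β ≤ ((s * 1048576 / Ba + 1 : ℕ) : ℝ) / 2 ^ 20 := by
  have hBar : (0 : ℝ) < Ba := by exact_mod_cast hBa
  have h1 := real_le_div (s * 1048576) Ba hBa
  rw [le_div_iff₀ (by positivity)]
  refine le_trans ?_ h1
  push_cast
  have h2 : (s : ℝ) / 2 ^ 10 / β ≤ (s : ℝ) / 2 ^ 10 / ((Ba : ℝ) / 2 ^ 10) :=
    div_le_div_of_nonneg_left (by positivity) (by positivity) hβa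
  have e : (s : ℝ) * 1048576 / Ba = (s : ℝ) / 2 ^ 10 / ((Ba : ℝ) / 2 ^ 10) * 2 ^ 20 := by
    field_simp
    norm_num
  rw [e]
  exact mul_le_mul_of_nonneg_right h2 (by positivity)


theorem sq_conv {s0 s1 H τ s : ℝ} (hs : s = s0 + τ * (s1 - s0)) (hH : s1 - s0 = H) :
    s ^ 2 = (1 - τ) * s0 ^ 2 + τ * s1 ^ 2 - τ * (1 - τ) * H ^ 2 := by
  rw [hs, ← hH]; ring

theorem tau_le {τ : ℝ} : τ * (1 - τ) ≤ 1 / 4 := by nlinarith [sq_nonneg (τ - 1 / 2)]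

end

end Pool.Agent.Lib.MP_af3a4a_an.P1.CHK.H58.G
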