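import Pool.Agent.Lib.MP_af3a4a_an.P1.CHK.H58.GNa

/-!
# The general checker: the profiles, part GNb (helper58; split by helper88)
-/

set_option autoImplicit false

namespace Pool.Agent.Lib.MP_af3a4a_an.P1.CHK.H58.G

open Finset MeasureTheory ComplexConjugate
open Pool.Agent.Lib.MP_af3a4a_an.SV (uu av)
open Pool.Agent.Lib.MP_af3a4a_an.P1.H80
open Pool.Agent.Lib.MP_af3a4a_an.P1.H74
open Pool.Agent.Lib.MP_af3a4a_an.P1.H81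
open Pool.Agent.Lib.MP_af3a4a_an.P1.CHK.Arith
open Pool.Agent.Lib.MP_af3a4a_an.P1.CHK.H58 (wV qq_V pade chordV)
open Pool.Agent.Lib.MP_af3a4a_an.P1.CHK.H58.M (CellQ node_le exp_chord)

section

variable {N : ℕ} {w : Fin N → ℂ} {R β ρ : ℝ}

theorem cellA (hN1 : 1 ≤ N) (hβ : 0 < β) (hρ : 0 < ρ) (hN : β ^ 2 * ρ = N) {Sm k0 : ℕ}
    (hS : ρ * SV.sq (uu w) ≤ (Sm : ℝ) / 2 ^ 20)
    (hk : (k0 : ℝ) / 2 ^ 10 ≤ (av (uu w)).re * ρ * β) (h j : ℕ) :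
    CellQ N (uu w) β (eA Sm k0) h j := by
  intro τ hτ
  obtain ⟨m1, hm1⟩ : ∃ m1, m1 = (av (uu w)).re := ⟨_, rfl⟩
  rw [← hm1] at hk
  obtain ⟨S, hS'⟩ : ∃ S, S = (Sm : ℝ) / 2 ^ 20 := ⟨_, rfl⟩
  rw [← hS'] at hS
  have hsq' : SV.sq (uu w) ≤ S / ρ := by
    rw [le_div_iff₀ hρ, mul_comm]
    exact hS
  have hq := fun x => qq_am2 hN1 (x := x) hsq'
  rw [← hm1] at hq
  obtain ⟨s0, hs0⟩ : ∃ s0, s0 = (j : ℝ) / 2 ^ 10 := ⟨_, rfl⟩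
  obtain ⟨s1, hs1⟩ : ∃ s1, s1 = ((j + h : ℕ) : ℝ) / 2 ^ 10 := ⟨_, rfl⟩
  have h0 : 0 ≤ s0 := by rw [hs0]; positivity
  have h1 : 0 ≤ s1 := by rw [hs1]; positivity
  obtain ⟨K, hK⟩ : ∃ K, K = (k0 : ℝ) / 2 ^ 10 := ⟨_, rfl⟩
  rw [← hK] at hk
  have hS0 : 0 ≤ S := by rw [hS']; positivity
  have hnode : ∀ i : ℕ, Real.exp (-(K * ((i : ℝ) / 2 ^ 10) - S * ((i : ℝ) / 2 ^ 10) ^ 2 / 2)) ≤
      (eA Sm k0 i : ℝ) / 2 ^ 40 := by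
    intro i
    unfold eA
    rw [ev_eq]
    apply node_le
    have h2 := real_le_div (Sm * (i * i)) 2 (by norm_num)
    have h3 : ((k0 * i * 1048576 : ℕ) : ℝ) / 2 ^ 40 = K * ((i : ℝ) / 2 ^ 10) := by
      rw [hK]; push_cast; ring
    have h4 : S * ((i : ℝ) / 2 ^ 10) ^ 2 / 2 = ((Sm * (i * i) : ℕ) : ℝ) / (2 : ℕ) / 2 ^ 40 := by
      rw [hS']; push_cast; ring
    rw [h3, h4]
    have h5 := div_le_div_of_nonneg_right h2 (by positivity : (0 : ℝ) ≤ 2 ^ 40)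
    linarith only [h2]
  rw [← hs0, ← hs1]
  refine exp_chord (f0 := K * s0 - S * s0 ^ 2 / 2) (f1 := K * s1 - S * s1 ^ 2 / 2) hτ.1 hτ.2
    (hq _) ?_ (by rw [hs0]; exact hnode j) (by rw [hs1]; exact hnode (j + h))
  obtain ⟨s, hs⟩ : ∃ s, s = s0 + τ * (s1 - s0) := ⟨_, rfl⟩
  rw [← hs]
  have hs_0 : 0 ≤ s := by
    have : s = (1 - τ) * s0 + τ * s1 := by rw [hs]; ring
    rw [this]
    have := sub_nonneg.2 hτ.2
    have := hτ.1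
    positivity
  have e1 : (N : ℝ) * (s / β * m1 - (s / β) ^ 2 * (S / ρ) / 2) =
      m1 * ρ * β * s - S * s ^ 2 / 2 := by
    rw [← hN]
    field_simp
  rw [e1]
  have e2 : K * s - S * s ^ 2 / 2 = (1 - τ) * (K * s0 - S * s0 ^ 2 / 2) +
      τ * (K * s1 - S * s1 ^ 2 / 2) + S * (τ * (1 - τ)) * (s1 - s0) ^ 2 / 2 := by
    rw [hs]; ring
  have h6 : 0 ≤ S * (τ * (1 - τ)) * (s1 - s0) ^ 2 / 2 := by
    have := mul_nonneg hτ.1 (sub_nonneg.2 hτ.2)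
    positivity
  have h7 := mul_le_mul_of_nonneg_right hk hs_0
  linarith only [e2, h6, h7]

end

end Pool.Agent.Lib.MP_af3a4a_an.P1.CHK.H58.G
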