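import Pool.Agent.Lib.MP_af3a4a_an.P1.CHK.H58.GNa

/-!
# The general checker: the profiles, part GNd (helper58; split by helper88)
-/

set_option autoImplicit false

namespace Pool.Agent.Lib.MP_af3a4a_an.P1.CHK.H58.G

open Finset MeasureTheory ComplexConjugate
open Pool.Agent.Lib.MP_af3a4a_an.SV (uu av)
open Pool.Agent.Lib.MP_af3a4a_an.P1.H80
open Pool.Agent.Lib.MP_af3a4a_an.P1.H74
open Pool.Agent.Lib.MP_af3a4a_an.P1.H81
open Pool.Agent.Lib.MP_af3a4a_an.P1.CHK.Arith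
open Pool.Agent.Lib.MP_af3a4a_an.P1.CHK.H58 (wV qq_V pade chordV)
open Pool.Agent.Lib.MP_af3a4a_an.P1.CHK.H58.M (CellQ node_le exp_chord)

section

variable {N : ℕ} {w : Fin N → ℂ} {R β ρ : ℝ}

theorem psi_chord {R c s0 s1 s τ H : ℝ} (hR : 0 ≤ R) (hc : 0 ≤ c) (h0 : 0 ≤ s0) (h01 : s0 ≤ s1)
    (hc1 : 3 * (c * s1) ≤ 4 * R) (hτ0 : 0 ≤ τ) (hτ1 : τ ≤ 1) (hs : s = s0 + τ * (s1 - s0))
    (hH : s1 - s0 = H) :
    s ^ 2 * |R - c * s| ≤ (1 - τ) * (s0 ^ 2 * |R - c * s0|) + τ * (s1 ^ 2 * |R - c * s1|) +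
      R * H ^ 2 := by
  have hH0 : 0 ≤ H := by rw [← hH]; linarith only [h01]
  have hs1 : s ≤ s1 := by
    have : 0 ≤ (1 - τ) * (s1 - s0) := mul_nonneg (by linarith only [hτ1]) (by linarith only [h01])
    rw [hs]; linarith only [this]
  have hτ := tau_le (τ := τ)
  have hτ' : 0 ≤ τ * (1 - τ) := mul_nonneg hτ0 (by linarith only [hτ1])
  have key : s ^ 2 * (R - c * s) = (1 - τ) * (s0 ^ 2 * (R - c * s0)) +
      τ * (s1 ^ 2 * (R - c * s1)) - τ * (1 - τ) * H ^ 2 * (R - c * (s + s0 + s1)) := by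
    rw [hs, ← hH]; ring
  have a0 : s0 ^ 2 * (R - c * s0) ≤ s0 ^ 2 * |R - c * s0| :=
    mul_le_mul_of_nonneg_left (le_abs_self _) (sq_nonneg _)
  have a1 : s1 ^ 2 * (R - c * s1) ≤ s1 ^ 2 * |R - c * s1| :=
    mul_le_mul_of_nonneg_left (le_abs_self _) (sq_nonneg _)
  have b0 : -(s0 ^ 2 * |R - c * s0|) ≤ s0 ^ 2 * (R - c * s0) := by
    have := mul_le_mul_of_nonneg_left (neg_abs_le (R - c * s0)) (sq_nonneg s0)
    linarith only [this]
  have b1 : -(s1 ^ 2 * |R - c * s1|) ≤ s1 ^ 2 * (R - c * s1) := by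
    have := mul_le_mul_of_nonneg_left (neg_abs_le (R - c * s1)) (sq_nonneg s1)
    linarith only [this]
  have hcs : 0 ≤ c * (s + s0 + s1) := by
    apply mul_nonneg hc
    have : 0 ≤ s := by
      rw [hs]
      have := mul_nonneg hτ0 (by linarith only [h01] : 0 ≤ s1 - s0)
      linarith only [h0, this]
    linarith only [h0, h01, this]
  have hcs1 : c * (s + s0 + s1) ≤ 4 * R := by
    have := mul_le_mul_of_nonneg_left (by linarith only [h01, hs1] : s + s0 + s1 ≤ 3 * s1) hc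
    linarith only [hc1, this]
  have hq : 0 ≤ τ * (1 - τ) * H ^ 2 := by positivity
  have hq1 : τ * (1 - τ) * H ^ 2 ≤ 1 / 4 * H ^ 2 := mul_le_mul_of_nonneg_right hτ (sq_nonneg H)
  have t0 := sub_nonneg.2 hτ1
  have m0 := mul_le_mul_of_nonneg_left a0 t0
  have m1 := mul_le_mul_of_nonneg_left a1 hτ0
  have m2 := mul_le_mul_of_nonneg_left b0 t0
  have m3 := mul_le_mul_of_nonneg_left b1 hτ0
  rcases abs_cases (R - c * s) with ⟨e, _⟩ | ⟨e, _⟩
  · rw [e, key]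
    have h1 : -(τ * (1 - τ) * H ^ 2 * (R - c * (s + s0 + s1))) ≤ R * H ^ 2 := by
      have h2 : c * (s + s0 + s1) - R ≤ 3 * R := by linarith only [hcs1]
      have h3 := mul_le_mul_of_nonneg_left h2 hq
      have h4 := mul_le_mul_of_nonneg_right hq1 (by linarith only [hR] : 0 ≤ 3 * R)
      linarith only [hR, h3, h4, mul_nonneg hR (sq_nonneg H)]
    linarith only [m0, m1, h1]
  · have e' : s ^ 2 * |R - c * s| = -(s ^ 2 * (R - c * s)) := by rw [e]; ring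
    rw [e', key]
    have h1 : τ * (1 - τ) * H ^ 2 * (R - c * (s + s0 + s1)) ≤ R * H ^ 2 := by
      have h2 : R - c * (s + s0 + s1) ≤ R := by linarith only [hcs]
      have h3 := mul_le_mul_of_nonneg_left h2 hq
      have h4 := mul_le_mul_of_nonneg_right hq1 hR
      linarith only [hR, h3, h4, mul_nonneg hR (sq_nonneg H)]
    linarith only [m2, m3, h1]

/-- the profile V3 -/
def ProfW (N : ℕ) (w : Fin N → ℂ) (R : ℝ) : Prop :=
  ∀ x ∈ Set.Icc (0 : ℝ) R, ∀ v ∈ Set.Icc (0 : ℝ) 1, ‖qq (uu w) x‖ ≤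
    Real.exp (-(N * (x ^ 2 / 2 - x ^ 2 * |R - 4 * x / 3| * (1 - v) ^ 2 +
      (av (uu w)).re * (x - 2 * x ^ 2 / R + 2 * (x ^ 2 * |R - 4 * x / 3|) * (1 - 2 * v) / R))))

theorem cW_spec {fU : ℕ} (hfU : fU ≤ 524288) : ((vW fU : ℕ) : ℝ) / 2 ^ 20 ∈ Set.Icc (1 / 5 : ℝ) 1 ∧
    (1 - ((vW fU : ℕ) : ℝ) / 2 ^ 20) ^ 2 - 2 * ((fU : ℝ) / 2 ^ 20) *
      (1 - 2 * (((vW fU : ℕ) : ℝ) / 2 ^ 20)) ≤ (cW fU : ℝ) / 2 ^ 20 := by
  unfold cW
  rw [ev_eq]
  have h1 : 209716 ≤ vW fU := Nat.le_max_left _ _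
  have h2 : vW fU ≤ 1048576 := by
    unfold vW
    exact Nat.max_le.2 ⟨by norm_num, Nat.sub_le _ _⟩
  obtain ⟨v, hv⟩ : ∃ v, v = vW fU := ⟨_, rfl⟩
  rw [← hv] at h1 h2 ⊢
  have h1r : (209716 : ℝ) ≤ v := by exact_mod_cast h1
  have h2r : (v : ℝ) ≤ 1048576 := by exact_mod_cast h2
  refine ⟨⟨?_, ?_⟩, ?_⟩
  · rw [le_div_iff₀ (by positivity)]
    norm_num
    linarith only [h1r]
  · rw [div_le_one (by positivity)]
    norm_num
    linarith only [h2]
  · have h3 := real_le_div ((1048576 - v) * (1048576 - v) + 2 * fU * (2 * v - 1048576) -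
      2 * fU * (1048576 - 2 * v)) 1048576 (by norm_num)
    have h4 := sub_le_cast ((1048576 - v) * (1048576 - v) + 2 * fU * (2 * v - 1048576))
      (2 * fU * (1048576 - 2 * v))
    have h5 : ((((1048576 - v) * (1048576 - v) + 2 * fU * (2 * v - 1048576) : ℕ) : ℝ)) -
        ((2 * fU * (1048576 - 2 * v) : ℕ) : ℝ) =
        (1048576 - v) ^ 2 + 2 * fU * (2 * v - 1048576) := by
      rw [Nat.cast_add, Nat.cast_mul, Nat.cast_sub h2]
      rcases le_total 1048576 (2 * v) with h | h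
      · rw [show 1048576 - 2 * v = 0 by omega, mul_zero, Nat.cast_mul, Nat.cast_sub h]
        push_cast
        ring
      · rw [show 2 * v - 1048576 = 0 by omega, mul_zero, Nat.cast_mul, Nat.cast_sub h]
        push_cast
        ring
    rw [h5] at h4
    rw [le_div_iff₀ (by positivity)]
    refine le_trans ?_ h3
    have h6 := div_le_div_of_nonneg_right h4 (by positivity : (0 : ℝ) ≤ ((1048576 : ℕ) : ℝ))
    refine le_trans (le_of_eq ?_) h6
    push_cast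
    field_simp
    ring

end

end Pool.Agent.Lib.MP_af3a4a_an.P1.CHK.H58.G
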