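import Pool.Agent.Lib.MP_af3a4a_an.P1.H81.MassK

/-!
# MASS with the exact mean kernel (helper58, after helper81's `massK`)
-/

set_option autoImplicit false

namespace Pool.Agent.Lib.MP_af3a4a_an.P1.CHK.H58.M

open Finset MeasureTheory ComplexConjugate
open Pool.Agent.Lib.MP_af3a4a_an.SV (uu av)
open Pool.Agent.Lib.MP_af3a4a_an.P1.H80
open Pool.Agent.Lib.MP_af3a4a_an.P1.H74
open Pool.Agent.Lib.MP_af3a4a_an.P1.H81

/-- mean of `|u|² / |1 - x u|` -/
noncomputable def kM {N : ℕ} (u : Fin N → ℂ) (x : ℝ) : ℝ :=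
  1 / (N : ℝ) * ∑ k, ‖u k‖ ^ 2 / ‖1 - (x : ℂ) * u k‖

theorem kM_nonneg {N : ℕ} (u : Fin N → ℂ) (x : ℝ) : 0 ≤ kM u x := by
  unfold kM
  positivity

theorem kM_cont {N : ℕ} {u : Fin N → ℂ} (hu : ∀ k, ‖u k‖ ≤ 1) {y : ℝ} (hy1 : y < 1) :
    ContinuousOn (kM u) (Set.Icc 0 y) := by
  unfold kM
  apply ContinuousOn.mul continuousOn_const
  apply continuousOn_finset_sum
  intro k _
  apply ContinuousOn.div continuousOn_const (by fun_prop)
  intro x hx
  exact norm_ne_zero_iff.2 (one_sub_ne' (hu k) hx.1 (lt_of_le_of_lt hx.2 hy1))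

/-- `|u|² / |1 - x u| ≤ (1 + x Re u) / (1 - x²)` -/
theorem chord2 {u : ℂ} (hu : ‖u‖ ≤ 1) {x : ℝ} (h0 : 0 ≤ x) (h1 : x < 1) :
    ‖u‖ ^ 2 / ‖1 - (x : ℂ) * u‖ ≤ (1 + x * u.re) / (1 - x ^ 2) := by
  obtain ⟨τ, hτ⟩ : ∃ τ, τ = ‖1 - (x : ℂ) * u‖ := ⟨_, rfl⟩
  obtain ⟨ρ, hρ⟩ : ∃ ρ, ρ = ‖u‖ := ⟨_, rfl⟩
  have hρ0 : 0 ≤ ρ := by rw [hρ]; exact norm_nonneg _
  have hρ1 : ρ ≤ 1 := by rw [hρ]; exact hu
  have hsq : τ ^ 2 = 1 - 2 * x * u.re + x ^ 2 * ρ ^ 2 := by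
    rw [hτ, hρ, norm_sq_re_im, norm_sq_re_im]
    simp only [Complex.sub_re, Complex.sub_im, Complex.one_re, Complex.one_im, Complex.mul_re,
      Complex.mul_im, Complex.ofReal_re, Complex.ofReal_im]
    ring
  have hlow : 1 - x ≤ τ := by
    have h2 := norm_sub_norm_le (1 : ℂ) ((x : ℂ) * u)
    rw [norm_one, norm_mul, Complex.norm_real, Real.norm_of_nonneg h0] at h2
    have h3 : x * ‖u‖ ≤ x := mul_le_of_le_one_right h0 hu
    rw [hτ]
    linarith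
  have hc := Complex.abs_re_le_norm u
  rw [← hρ] at hc
  obtain ⟨z, hz⟩ : ∃ z, z = x * u.re := ⟨_, rfl⟩
  obtain ⟨b, hb⟩ : ∃ b, b = x * ρ := ⟨_, rfl⟩
  have hb0 : 0 ≤ b := by rw [hb]; positivity
  have hb1 : b < 1 := by
    rw [hb]
    exact lt_of_le_of_lt (mul_le_of_le_one_right h0 hρ1) h1
  have hzb : |z| ≤ b := by
    rw [hz, hb, abs_mul, abs_of_nonneg h0]
    exact mul_le_mul_of_nonneg_left hc h0
  have hz1 := (abs_le.1 hzb).1
  have hz2 := (abs_le.1 hzb).2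
  have hsq' : τ ^ 2 = 1 - 2 * z + b ^ 2 := by
    rw [hsq, hz, hb]; ring
  rw [← hτ, ← hρ, ← hz]
  have hτ0 : 0 < τ := by linarith
  have hx : 0 < 1 - x ^ 2 := by nlinarith
  rw [div_le_div_iff₀ hτ0 hx]
  -- `1 - b² ≤ (1 + z) τ`
  have hz0 : 0 < 1 + z := by linarith
  have h4 : 1 - b ^ 2 ≤ (1 + z) * τ := by
    apply le_of_sq_le_sq _ (by positivity)
    rw [mul_pow, hsq']
    have e : (1 + z) ^ 2 * (1 - 2 * z + b ^ 2) - (1 - b ^ 2) ^ 2 =
        (b ^ 2 - z ^ 2) * (3 + 2 * z - b ^ 2) := by ring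
    have h5 : 0 ≤ b ^ 2 - z ^ 2 := by nlinarith
    have h6 : 0 ≤ 3 + 2 * z - b ^ 2 := by nlinarith
    have := mul_nonneg h5 h6
    linarith
  have h5 : ρ ^ 2 * (1 - x ^ 2) ≤ 1 - b ^ 2 := by
    rw [hb]
    have : ρ ^ 2 ≤ 1 := pow_le_one₀ hρ0 hρ1
    nlinarith
  linarith

theorem kM_le_one {N : ℕ} (hN : 1 ≤ N) {u : Fin N → ℂ} (hu : ∀ k, ‖u k‖ ≤ 1) {x : ℝ} (h0 : 0 ≤ x)
    (h1 : x < 1) : kM u x ≤ (1 + x * (av u).re) / (1 - x ^ 2) := by
  have hNpos : (0 : ℝ) < N := by exact_mod_cast (show 0 < N by omega)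
  unfold kM
  have h2 : ∑ k, ‖u k‖ ^ 2 / ‖1 - (x : ℂ) * u k‖ ≤ ∑ k, (1 + x * (u k).re) / (1 - x ^ 2) :=
    Finset.sum_le_sum fun k _ => chord2 (hu k) h0 h1
  rw [← Finset.sum_div, Finset.sum_add_distrib, ← Finset.mul_sum] at h2
  simp only [Finset.sum_const, Finset.card_univ, Fintype.card_fin, nsmul_eq_mul, mul_one] at h2
  rw [av_re hN] at h2
  have h3 := mul_le_mul_of_nonneg_left h2 (by positivity : 0 ≤ 1 / (N : ℝ))
  refine h3.trans (le_of_eq ?_)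
  field_simp

theorem kM_le_kapK {N : ℕ} (hN : 1 ≤ N) {w : Fin N → ℂ} {R : ℝ} (hw : ∀ k, 1 ≤ ‖w k‖)
    (ht : ∑ k, ‖w k - (R : ℂ)‖ ≤ N) (hR : 1 ≤ R) {x : ℝ} (h0 : 0 ≤ x) (h1 : x < 1) :
    kM (uu w) x ≤ kapK R (av (uu w)).re x := kap_bound hN hw ht hR h0 h1

/-- the remainder of `λ` -/
theorem lam_M {N : ℕ} {u : Fin N → ℂ} (hu : ∀ k, ‖u k‖ ≤ 1) {x t : ℝ} (ht0 : 0 ≤ t) (h0 : 0 ≤ x)
    (h1 : x < 1) :
    ‖lam u x - (av u + t * av (fun k => u k ^ 2))‖ ≤ |x - t| * kM u x + t * (x * kM u x) := by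
  have e1 : lam u x - (av u + t * av (fun k => u k ^ 2)) =
      ((x - t : ℝ) : ℂ) * av (fun k => u k ^ 2 / (1 - (x : ℂ) * u k)) +
      (t : ℂ) * ((x : ℂ) * av (fun k => u k ^ 3 / (1 - (x : ℂ) * u k))) := by
    unfold lam
    rw [← av_smul', ← av_smul', ← av_smul', ← av_smul']
    unfold av
    rw [← mul_add, ← mul_add, ← mul_sub, ← Finset.sum_add_distrib, ← Finset.sum_add_distrib,
      ← Finset.sum_sub_distrib]
    congr 1
    apply Finset.sum_congr rfl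
    intro k _
    have hne := one_sub_ne' (hu k) h0 h1
    obtain ⟨D, hD⟩ : ∃ D, D = 1 - (x : ℂ) * u k := ⟨_, rfl⟩
    rw [← hD] at hne ⊢
    push_cast
    have e2 : u k / D - (u k + t * u k ^ 2) =
        (u k - (u k + t * u k ^ 2) * D) / D := by
      field_simp
    have e3 : (x - t : ℂ) * (u k ^ 2 / D) + t * (x * (u k ^ 3 / D)) =
        ((x - t) * u k ^ 2 + t * (x * u k ^ 3)) / D := by
      field_simp
    rw [e2, e3]
    congr 1
    rw [hD]
    ring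
  rw [e1]
  refine (norm_add_le _ _).trans ?_
  rw [norm_mul, norm_mul, norm_mul, Complex.norm_real, Complex.norm_real, Complex.norm_real,
    Real.norm_of_nonneg h0, Real.norm_of_nonneg ht0, Real.norm_eq_abs]
  have h2 : ‖av (fun k => u k ^ 2 / (1 - (x : ℂ) * u k))‖ ≤ kM u x := by
    refine (av_le _ (fun k => ‖u k‖ ^ 2 / ‖1 - (x : ℂ) * u k‖) fun k => ?_)
    rw [norm_div, norm_pow]
  have h3 : ‖av (fun k => u k ^ 3 / (1 - (x : ℂ) * u k))‖ ≤ kM u x := by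
    refine (av_le _ (fun k => ‖u k‖ ^ 2 / ‖1 - (x : ℂ) * u k‖) fun k => ?_)
    rw [norm_div, norm_pow]
    apply div_le_div_of_nonneg_right _ (norm_nonneg _)
    exact pow_le_pow_of_le_one (norm_nonneg _) (hu k) (by norm_num)
  have h4 := mul_le_mul_of_nonneg_left h2 (abs_nonneg (x - t))
  have h5 := mul_le_mul_of_nonneg_left (mul_le_mul_of_nonneg_left h3 h0) ht0
  linarith

/-- **MASS''** -/
theorem massM {N : ℕ} (hN : 1 ≤ N) {u : Fin N → ℂ} (hu : ∀ k, ‖u k‖ ≤ 1) {y t T S : ℝ}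
    (ht0 : 0 ≤ t) (hy0 : 0 ≤ y) (hy1 : y < 1) {e : ℝ → ℝ} (he : ContinuousOn e (Set.Icc 0 y))
    (hqe : ∀ x ∈ Set.Icc 0 y, ‖qq u x‖ ≤ e x) (hT : ‖qq u y‖ ≤ T) (hS : SV.sq u ≤ S) :
    1 - T - N * ((∫ x in (0 : ℝ)..y, |x - t| * kM u x * e x) +
        t * ∫ x in (0 : ℝ)..y, x * kM u x * e x) ≤
      N * (‖∫ x in (0 : ℝ)..y, qq u x‖ * (‖av u‖ + t * S)) := by
  have hNpos : (0 : ℝ) < N := by exact_mod_cast (show 0 < N by omega)
  have hq := qq_cont u
  have hd := one_sub_q hN hu hy0 hy1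
  have hlc := lam_contOn hu hy1
  obtain ⟨c, hc⟩ : ∃ c, c = av u + t * av (fun k => u k ^ 2) := ⟨_, rfl⟩
  have hkc : ContinuousOn (kM u) (Set.Icc 0 y) := kM_cont hu hy1
  have hI1 : IntervalIntegrable (fun x => c * qq u x) volume 0 y :=
    (continuous_const.mul hq).intervalIntegrable _ _
  have hI2 : IntervalIntegrable (fun x => (lam u x - c) * qq u x) volume 0 y := by
    apply ContinuousOn.intervalIntegrable
    rw [Set.uIcc_of_le hy0]
    exact (hlc.sub continuousOn_const).mul hq.continuousOn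
  have hsplit : ∫ x in (0 : ℝ)..y, lam u x * qq u x =
      c * (∫ x in (0 : ℝ)..y, qq u x) + ∫ x in (0 : ℝ)..y, (lam u x - c) * qq u x := by
    rw [← intervalIntegral.integral_const_mul, ← intervalIntegral.integral_add hI1 hI2]
    congr 1
    funext x
    ring
  have hb : ‖∫ x in (0 : ℝ)..y, (lam u x - c) * qq u x‖ ≤
      ∫ x in (0 : ℝ)..y, (|x - t| * kM u x * e x + t * (x * kM u x * e x)) := by
    refine (intervalIntegral.norm_integral_le_integral_norm hy0).trans ?_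
    apply intervalIntegral.integral_mono_on hy0 hI2.norm
    · apply ContinuousOn.intervalIntegrable
      rw [Set.uIcc_of_le hy0]
      exact ((((continuous_id.sub continuous_const).abs).continuousOn.mul hkc).mul he).add
        (continuousOn_const.mul ((continuousOn_id.mul hkc).mul he))
    · intro x hx
      rw [norm_mul]
      have h1 := lam_M hu ht0 hx.1 (lt_of_le_of_lt hx.2 hy1)
      rw [← hc] at h1
      have h2 := hqe x hx
      have h3 := mul_le_mul h1 h2 (norm_nonneg _) ((norm_nonneg _).trans h1)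
      linarith
  have hJ1 : IntervalIntegrable (fun x => |x - t| * kM u x * e x) volume 0 y := by
    apply ContinuousOn.intervalIntegrable
    rw [Set.uIcc_of_le hy0]
    exact (((continuous_id.sub continuous_const).abs).continuousOn.mul hkc).mul he
  have hJ2 : IntervalIntegrable (fun x => t * (x * kM u x * e x)) volume 0 y := by
    apply ContinuousOn.intervalIntegrable
    rw [Set.uIcc_of_le hy0]
    exact continuousOn_const.mul ((continuousOn_id.mul hkc).mul he)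
  rw [intervalIntegral.integral_add hJ1 hJ2, intervalIntegral.integral_const_mul] at hb
  have hcn : ‖c‖ ≤ ‖av u‖ + t * S := by
    rw [hc]
    refine (norm_add_le _ _).trans ?_
    rw [norm_mul, Complex.norm_real, Real.norm_of_nonneg ht0]
    have h1 := av_sq_le (u := u) hN
    have h4 := mul_le_mul_of_nonneg_left (h1.trans hS) ht0
    linarith
  have h1 : 1 - T ≤ ‖1 - qq u y‖ := by
    have := norm_sub_norm_le (1 : ℂ) (qq u y)
    rw [norm_one] at this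
    linarith
  rw [hd, hsplit, norm_mul, Complex.norm_natCast] at h1
  have h2 := norm_add_le (c * (∫ x in (0 : ℝ)..y, qq u x))
    (∫ x in (0 : ℝ)..y, (lam u x - c) * qq u x)
  rw [norm_mul] at h2
  have h3 := mul_le_mul_of_nonneg_right hcn (norm_nonneg (∫ x in (0 : ℝ)..y, qq u x))
  have h4 := mul_le_mul_of_nonneg_left (h2.trans (add_le_add h3 hb)) hNpos.le
  linarith

end Pool.Agent.Lib.MP_af3a4a_an.P1.CHK.H58.M
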