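import Pool.Agent.Lib.MP_af3a4a_an.P1.CHK.H58.GD
import Pool.Agent.Lib.MP_af3a4a_an.P1.CHK.H58.MM
import Pool.Agent.Lib.MP_af3a4a_an.P1.CHK.H58.MV

/-!
# The general checker: the kernels (helper58)
-/

set_option autoImplicit false

namespace Pool.Agent.Lib.MP_af3a4a_an.P1.CHK.H58.G

open Finset MeasureTheory ComplexConjugate
open Pool.Agent.Lib.MP_af3a4a_an.SV (uu av)
open Pool.Agent.Lib.MP_af3a4a_an.P1.H80
open Pool.Agent.Lib.MP_af3a4a_an.P1.H74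
open Pool.Agent.Lib.MP_af3a4a_an.P1.H81
open Pool.Agent.Lib.MP_af3a4a_an.P1.CHK.Arith
open Pool.Agent.Lib.MP_af3a4a_an.P1.CHK.H58.M (kapU inc kapU_sound inc_sound kM kM_nonneg kM_cont
  kM_le_one kM_le_kapK massM conv_abs step_int quad_int exp_chord cell_le)

theorem le_sub_cast (a b : ℕ) (h : b ≤ a) : ((a - b : ℕ) : ℝ) = (a : ℝ) - b := Nat.cast_sub h

theorem xh_sound {Ba s' : ℕ} {β x : ℝ} (hBa : 1 ≤ Ba) (hβa : (Ba : ℝ) / 2 ^ 10 ≤ β)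
    (hx1 : x ≤ (s' : ℝ) / 2 ^ 10 / β) : x ≤ ((s' * 1048576 / Ba + 1 : ℕ) : ℝ) / 2 ^ 20 := by
  have hBar : (0 : ℝ) < Ba := by exact_mod_cast hBa
  have h1 := real_le_div (s' * 1048576) Ba hBa
  rw [le_div_iff₀ (by positivity)]
  refine le_trans ?_ h1
  push_cast
  have h2 : x ≤ (s' : ℝ) / 2 ^ 10 / ((Ba : ℝ) / 2 ^ 10) :=
    hx1.trans (div_le_div_of_nonneg_left (by positivity) (by positivity) hβa)
  have e : (s' : ℝ) * 1048576 / Ba = (s' : ℝ) / 2 ^ 10 / ((Ba : ℝ) / 2 ^ 10) * 2 ^ 20 := by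
    field_simp
    norm_num
  rw [e]
  exact mul_le_mul_of_nonneg_right h2 (by positivity)

theorem xl_sound {Bb s : ℕ} {β x : ℝ} (hβ : 0 < β) (hBb : 1 ≤ Bb) (hβb : β ≤ (Bb : ℝ) / 2 ^ 10)
    (hx0 : (s : ℝ) / 2 ^ 10 / β ≤ x) : ((s * 1048576 / Bb : ℕ) : ℝ) / 2 ^ 20 ≤ x := by
  have hBr : (0 : ℝ) < Bb := by exact_mod_cast hBb
  have h2 := div_le_real (s * 1048576) Bb
  rw [div_le_iff₀ (by positivity)]
  refine h2.trans ?_
  push_cast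
  have h3 : (s : ℝ) / 2 ^ 10 / ((Bb : ℝ) / 2 ^ 10) ≤ x :=
    le_trans (div_le_div_of_nonneg_left (by positivity) hβ hβb) hx0
  have e : (s : ℝ) * 1048576 / Bb = (s : ℝ) / 2 ^ 10 / ((Bb : ℝ) / 2 ^ 10) * 2 ^ 20 := by
    field_simp
    norm_num
  rw [e]
  exact mul_le_mul_of_nonneg_right h3 (by positivity)

theorem xh_lt {Ba s' : ℕ} (hBa : 1 ≤ Ba) (h : 1024 * s' ≤ 1000 * Ba) :
    s' * 1048576 / Ba + 1 < 1048576 := by
  have h1 : s' * 1048576 / Ba ≤ 1000 * 1024 := by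
    apply Nat.div_le_of_le_mul
    linarith
  omega

theorem k2_sound {r1 mx xh : ℕ} {ρ m1 x : ℝ} (hρ : 0 ≤ ρ) (hr : ρ ≤ (r1 : ℝ) / 2 ^ 10)
    (hm0 : 0 ≤ m1) (hm : m1 ≤ (mx : ℝ) / 2 ^ 20) (h0 : 0 ≤ x) (hh : x ≤ (xh : ℝ) / 2 ^ 20)
    (hD : xh < 1048576) : ρ * ((1 + x * m1) / (1 - x ^ 2)) ≤ (k2 r1 mx xh : ℝ) / 2 ^ 20 := by
  unfold k2
  obtain ⟨X, hX⟩ : ∃ X, X = (xh : ℝ) / 2 ^ 20 := ⟨_, rfl⟩
  rw [← hX] at hh
  have hX0 : 0 ≤ X := h0.trans hh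
  have hX1 : X < 1 := by
    rw [hX, div_lt_one (by positivity)]
    exact_mod_cast hD
  have hXX : 0 < 1 - X ^ 2 := by nlinarith
  have hlt : xh * xh < 1099511627776 := by nlinarith
  obtain ⟨C, hC⟩ : ∃ C, C = r1 * 1024 + ((r1 * (mx * xh)) >>> 30 + 1) := ⟨_, rfl⟩
  rw [← hC]
  have hCr : (r1 : ℝ) / 2 ^ 10 * (1 + X * ((mx : ℝ) / 2 ^ 20)) ≤ (C : ℝ) / 2 ^ 20 := by
    have h1 := le_shr (r1 * (mx * xh)) 30
    have e : (C : ℝ) = r1 * 1024 + (((r1 * (mx * xh)) >>> 30 + 1 : ℕ) : ℝ) := by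
      rw [hC]; push_cast; ring
    rw [le_div_iff₀ (by positivity), e]
    have e2 : (r1 : ℝ) / 2 ^ 10 * (1 + X * ((mx : ℝ) / 2 ^ 20)) * 2 ^ 20 =
        r1 * 1024 + ((r1 * (mx * xh) : ℕ) : ℝ) / 2 ^ 30 := by
      rw [hX]; push_cast; ring
    rw [e2]
    linarith
  have h3 := real_le_div (C * 1099511627776) (1099511627776 - xh * xh) (by omega)
  rw [Nat.cast_sub hlt.le] at h3
  have h4 : ((1099511627776 : ℕ) : ℝ) - ((xh * xh : ℕ) : ℝ) = (1 - X ^ 2) * 1099511627776 := by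
    rw [hX]; push_cast; ring
  rw [h4] at h3
  have h5 : ρ * ((1 + x * m1) / (1 - x ^ 2)) ≤ (C : ℝ) / 2 ^ 20 / (1 - X ^ 2) := by
    have a1 : 1 + x * m1 ≤ 1 + X * ((mx : ℝ) / 2 ^ 20) := by
      have := mul_le_mul hh hm hm0 hX0
      linarith
    have a2 : 1 - X ^ 2 ≤ 1 - x ^ 2 := by
      have : x ^ 2 ≤ X ^ 2 := pow_le_pow_left₀ h0 hh 2
      linarith
    have a3 : (1 + x * m1) / (1 - x ^ 2) ≤ (1 + X * ((mx : ℝ) / 2 ^ 20)) / (1 - X ^ 2) :=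
      div_le_div₀ (by positivity) a1 hXX a2
    have a4 : 0 ≤ (1 + x * m1) / (1 - x ^ 2) := by
      apply div_nonneg (by positivity)
      linarith
    refine (mul_le_mul hr a3 a4 (by positivity)).trans ?_
    rw [← mul_div_assoc]
    exact div_le_div_of_nonneg_right hCr hXX.le
  refine h5.trans ?_
  refine le_trans (le_of_eq ?_) (div_le_div_of_nonneg_right h3 (by positivity))
  push_cast
  field_simp

section

variable {N : ℕ} {w : Fin N → ℂ} {R β ρ : ℝ}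

theorem kapM_sound (hN : 1 ≤ N) (hw : ∀ k, 1 ≤ ‖w k‖) (ht : ∑ k, ‖w k - (R : ℂ)‖ ≤ N)
    {hi : Bool} {R1 r1 mx gp gn Ba Bb s s' : ℕ} {x : ℝ} (hR : 0 < R)
    (hR1 : R ≤ (R1 : ℝ) / 2 ^ 10) (hρ : 0 ≤ ρ) (hr : ρ ≤ (r1 : ℝ) / 2 ^ 10)
    (hhi : hi = true → ρ = R ∧ 1 ≤ R)
    (hm0 : 0 ≤ (av (uu w)).re) (hm : (av (uu w)).re ≤ (mx : ℝ) / 2 ^ 20)
    (hg : hi = true → (gp : ℝ) / 2 ^ 20 - (gn : ℝ) / 2 ^ 20 ≤
      (R - 1) / R - (3 * R ^ 2 - 2 * R + 1) / R * (av (uu w)).re)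
    (hBa : 1 ≤ Ba) (hβa : (Ba : ℝ) / 2 ^ 10 ≤ β) (hBb : 1 ≤ Bb) (hβb : β ≤ (Bb : ℝ) / 2 ^ 10)
    (hs : 1024 * s' ≤ 1000 * Ba) (hx0 : (s : ℝ) / 2 ^ 10 / β ≤ x)
    (hx1 : x ≤ (s' : ℝ) / 2 ^ 10 / β) :
    ρ * kM (uu w) x ≤ (kapM hi R1 r1 mx gp gn Ba Bb s s' : ℝ) / 2 ^ 20 := by
  have hBar : (0 : ℝ) < Ba := by exact_mod_cast hBa
  have hβ : 0 < β := lt_of_lt_of_le (by positivity) hβa
  have h0 : 0 ≤ x := le_trans (by positivity) hx0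
  have hh := xh_sound hBa hβa hx1
  have hl := xl_sound hβ hBb hβb hx0
  have hD := xh_lt hBa hs
  have hu : ∀ k, ‖uu w k‖ ≤ 1 := by
    intro k
    unfold uu
    rw [norm_inv]
    exact inv_le_one_of_one_le₀ (hw k)
  unfold kapM
  simp only [ev_eq]
  obtain ⟨xh, hxh⟩ : ∃ xh, xh = s' * 1048576 / Ba + 1 := ⟨_, rfl⟩
  obtain ⟨xl, hxl⟩ : ∃ xl, xl = s * 1048576 / Bb := ⟨_, rfl⟩
  rw [← hxh] at hh hD ⊢
  rw [← hxl] at hl ⊢
  have hx1' : x < 1 := by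
    refine lt_of_le_of_lt hh ?_
    rw [div_lt_one (by positivity)]
    exact_mod_cast hD
  have h2 := (mul_le_mul_of_nonneg_left (kM_le_one hN hu h0 hx1') hρ).trans
    (k2_sound hρ hr hm0 hm h0 hh hD)
  cases hi with
  | false => rw [cond_false]; exact h2
  | true =>
    rw [cond_true]
    obtain ⟨hρR, hR1'⟩ := hhi rfl
    have h3 := kM_le_kapK hN hw ht hR1' h0 hx1'
    have h4 := kapU_sound (Sm := 1048576 + 2 * mx) (gp := gp) (gn := gn) (xl := xl) hR hR1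
      (m1 := (av (uu w)).re) (x := x) (by push_cast; linarith) (hg rfl) h0 hl hh hD
    have h5 := (mul_le_mul_of_nonneg_left h3 hR.le).trans h4
    rw [← hρR] at h5
    rcases Nat.le_total (k2 r1 mx xh) (kapU (1048576 + 2 * mx) gp gn R1 xl xh) with h6 | h6
    · rw [show Nat.min (k2 r1 mx xh) (kapU (1048576 + 2 * mx) gp gn R1 xl xh) = k2 r1 mx xh
        from Nat.min_eq_left h6]
      exact h2
    · rw [show Nat.min (k2 r1 mx xh) (kapU (1048576 + 2 * mx) gp gn R1 xl xh) =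
        kapU (1048576 + 2 * mx) gp gn R1 xl xh from Nat.min_eq_right h6]
      exact h5

/-- the bound of `1 / dn` -/
theorem inv_dn {m : ℂ} (hm : ‖m‖ ≤ 1) (hm0 : 0 ≤ m.re) {x q gl X : ℝ} (h0 : 0 ≤ x) (h1 : x ≤ X)
    (hX : X < 1) (hq1 : 1 ≤ q ∨ (1 + ‖m‖ ^ 2 + X ^ 2) / 2 ≤ q) (hgl : 0 < gl)
    (hg : gl ≤ 1 - 2 * x * m.re + x ^ 2) :
    1 / dn m x ≤ (1 + X * q) * (1 / 2 + 1 / (2 * gl)) / (1 - X ^ 2) := by
  have hx1 : x < 1 := lt_of_le_of_lt h1 hX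
  have hX0 : 0 ≤ X := h0.trans h1
  have hd := dn_pos hm h0 hx1
  have hmul := dn_mul m x
  have hP := nrm_pos hm h0 hx1
  have hQ := norm_nonneg ((x : ℂ) - m)
  have hr : ‖m‖ ^ 2 = m.re ^ 2 + m.im ^ 2 := norm_sq_re_im m
  have hr0 := norm_nonneg m
  obtain ⟨g, hgd⟩ : ∃ g, g = 1 - 2 * x * m.re + x ^ 2 := ⟨_, rfl⟩
  have hP2 : ‖1 - (x : ℂ) * m‖ ^ 2 = g - x ^ 2 * (1 - ‖m‖ ^ 2) := by
    rw [hgd, hr, norm_sq_re_im]
    simp only [Complex.sub_re, Complex.sub_im, Complex.mul_re, Complex.mul_im, Complex.one_re,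
      Complex.one_im, Complex.ofReal_re, Complex.ofReal_im]
    ring
  have hQ2 : ‖(x : ℂ) - m‖ ^ 2 = g - (1 - ‖m‖ ^ 2) := by
    rw [hgd, hr, norm_sq_re_im]
    simp only [Complex.sub_re, Complex.sub_im, Complex.ofReal_re, Complex.ofReal_im]
    ring
  rw [← hgd] at hmul hg
  have hg0 : 0 < g := lt_of_lt_of_le hgl hg
  obtain ⟨r, hrd⟩ : ∃ r, r = ‖m‖ := ⟨_, rfl⟩
  rw [← hrd] at hP2 hQ2 hq1 hm hr0
  obtain ⟨P, hPd⟩ : ∃ P, P = ‖1 - (x : ℂ) * m‖ := ⟨_, rfl⟩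
  obtain ⟨Q, hQd⟩ : ∃ Q, Q = ‖(x : ℂ) - m‖ := ⟨_, rfl⟩
  obtain ⟨d, hdd⟩ : ∃ d, d = dn m x := ⟨_, rfl⟩
  rw [← hPd, ← hQd, ← hdd] at hmul
  rw [← hPd] at hP2 hP
  rw [← hQd] at hQ2 hQ
  rw [← hdd] at hd ⊢
  obtain ⟨γ, hγ⟩ : ∃ γ, γ = Real.sqrt g := ⟨_, rfl⟩
  have hγ0 : 0 < γ := by rw [hγ]; exact Real.sqrt_pos.2 hg0
  have hγ2 : γ ^ 2 = g := by rw [hγ]; exact Real.sq_sqrt hg0.le
  have hr2 : r ^ 2 ≤ 1 := pow_le_one₀ hr0 hm
  have hPγ : P ≤ γ := by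
    apply le_of_sq_le_sq _ hγ0.le
    rw [hγ2, hP2]
    have := mul_nonneg (sq_nonneg x) (sub_nonneg.2 hr2)
    linarith
  have hQγ1 : Q ≤ γ := by
    apply le_of_sq_le_sq _ hγ0.le
    rw [hγ2, hQ2]
    linarith
  have hq0 : 0 ≤ q := by
    rcases hq1 with h | h
    · linarith
    · refine le_trans ?_ h
      positivity
  have hQγ : Q ≤ γ * q := by
    rcases hq1 with h | h
    · exact hQγ1.trans (le_mul_of_one_le_right hγ0.le h)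
    · obtain ⟨q', hq'⟩ : ∃ q', q' = (1 + r ^ 2 + x ^ 2) / 2 := ⟨_, rfl⟩
      have hqq : q' ≤ q := by
        rw [hq']
        have : x ^ 2 ≤ X ^ 2 := pow_le_pow_left₀ h0 h1 2
        linarith
      have hq'0 : 0 < q' := by rw [hq']; positivity
      refine le_trans ?_ (mul_le_mul_of_nonneg_left hqq hγ0.le)
      apply le_of_sq_le_sq _ (by positivity)
      rw [mul_pow, hγ2, hQ2]
      -- `g - (1 - r²) ≤ g q'²`
      have hgx : g ≤ 1 + x ^ 2 := by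
        rw [hgd]
        have := mul_nonneg h0 hm0
        linarith
      rcases le_or_gt 1 (q' ^ 2) with h2 | h2
      · have := mul_le_mul_of_nonneg_left h2 hg0.le
        linarith
      · have h3 : g * (1 - q' ^ 2) ≤ (1 + x ^ 2) * (1 - q' ^ 2) :=
          mul_le_mul_of_nonneg_right hgx (by linarith)
        have h4 : (1 + x ^ 2) * (1 - q' ^ 2) ≤ 1 - r ^ 2 := by
          rw [hq']
          obtain ⟨a, ha⟩ : ∃ a, a = x ^ 2 := ⟨_, rfl⟩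
          obtain ⟨b, hb⟩ : ∃ b, b = r ^ 2 := ⟨_, rfl⟩
          rw [← ha, ← hb]
          have ha0 : 0 ≤ a := by rw [ha]; positivity
          have hb0 : 0 ≤ b := by rw [hb]; positivity
          have e : (1 - b) - (1 + a) * (1 - ((1 + b + a) / 2) ^ 2) =
            (((1 + b + a) / 2) ^ 2 * (1 + a) - (a + b)) := by ring
          have h5 : a + b ≤ ((1 + b + a) / 2) ^ 2 := by linarith [sq_nonneg (1 - (a + b))]
          have h6 : 0 ≤ ((1 + b + a) / 2) ^ 2 * a := by positivity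
          linarith
        linarith
  have hx2 : 0 < 1 - x ^ 2 := by nlinarith
  have hX2 : 0 < 1 - X ^ 2 := by nlinarith
  have hPQ : 0 < P + x * Q := by positivity
  have h5 : P + x * Q ≤ γ * (1 + X * q) := by
    have : x * Q ≤ X * (γ * q) := mul_le_mul h1 hQγ hQ hX0
    linarith
  have h6 : 1 / d = (P + x * Q) / ((1 - x ^ 2) * g) := by
    rw [← hmul]
    field_simp
  rw [h6]
  have h7 : (P + x * Q) / ((1 - x ^ 2) * g) ≤ γ * (1 + X * q) / ((1 - X ^ 2) * g) := by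
    apply div_le_div₀ (by positivity) h5 (by positivity)
    apply mul_le_mul_of_nonneg_right _ hg0.le
    have : x ^ 2 ≤ X ^ 2 := pow_le_pow_left₀ h0 h1 2
    linarith
  refine h7.trans ?_
  have h8 : γ / g ≤ 1 / 2 + 1 / (2 * gl) := by
    have h9 : γ / g ≤ 1 / 2 + 1 / (2 * g) := by
      rw [div_add_div _ _ (by norm_num) (by positivity), div_le_div_iff₀ hg0 (by positivity)]
      have : 0 ≤ (γ - 1) ^ 2 := sq_nonneg _
      have e : (γ - 1) ^ 2 = g - 2 * γ + 1 := by rw [← hγ2]; ring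
      rw [e] at this
      nlinarith
    have h10 : 1 / (2 * g) ≤ 1 / (2 * gl) :=
      one_div_le_one_div_of_le (by positivity) (by linarith)
    linarith
  have h9 : γ * (1 + X * q) / ((1 - X ^ 2) * g) = (γ / g) * ((1 + X * q) / (1 - X ^ 2)) := by
    field_simp
  rw [h9]
  have h10 : 0 ≤ (1 + X * q) / (1 - X ^ 2) := by positivity
  refine (mul_le_mul_of_nonneg_right h8 h10).trans (le_of_eq ?_)
  ring

theorem kapQ_sound {m : ℂ} (hm : ‖m‖ ≤ 1) {r1 mx rho2 Ba Bb s s' : ℕ} {x : ℝ}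
    (hρ : 0 ≤ ρ) (hr : ρ ≤ (r1 : ℝ) / 2 ^ 10)
    (hm0 : 0 ≤ m.re) (hmx : m.re ≤ (mx : ℝ) / 2 ^ 20) (hr2 : ‖m‖ ^ 2 ≤ (rho2 : ℝ) / 2 ^ 20)
    (hBa : 1 ≤ Ba) (hβa : (Ba : ℝ) / 2 ^ 10 ≤ β) (hBb : 1 ≤ Bb) (hβb : β ≤ (Bb : ℝ) / 2 ^ 10)
    (hs : 1024 * s' ≤ 1000 * Ba) (hx0 : (s : ℝ) / 2 ^ 10 / β ≤ x)
    (hx1 : x ≤ (s' : ℝ) / 2 ^ 10 / β) :
    ρ * (1 / dn m x) ≤ (kapQ r1 mx rho2 Ba Bb s s' : ℝ) / 2 ^ 20 := by
  have hBar : (0 : ℝ) < Ba := by exact_mod_cast hBa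
  have hβ : 0 < β := lt_of_lt_of_le (by positivity) hβa
  have h0 : 0 ≤ x := le_trans (by positivity) hx0
  have hh := xh_sound hBa hβa hx1
  have hl := xl_sound hβ hBb hβb hx0
  have hD := xh_lt hBa hs
  unfold kapQ
  simp only [ev_eq]
  obtain ⟨xh, hxh⟩ : ∃ xh, xh = s' * 1048576 / Ba + 1 := ⟨_, rfl⟩
  obtain ⟨xl, hxl⟩ : ∃ xl, xl = s * 1048576 / Bb := ⟨_, rfl⟩
  rw [← hxh] at hh hD ⊢
  rw [← hxl] at hl ⊢
  obtain ⟨qh, hqh⟩ : ∃ qh, qh = Nat.min 1048576 ((1048576 + rho2 + ((xh * xh) >>> 20 + 1)) / 2 + 1) :=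
    ⟨_, rfl⟩
  rw [← hqh]
  obtain ⟨gl, hgl⟩ : ∃ gl, gl = Nat.max (1099511627776 + xl * xl - 2 * (xh * mx))
    ((1048576 - xh) * (1048576 - xh)) := ⟨_, rfl⟩
  rw [← hgl]
  obtain ⟨X, hX⟩ : ∃ X, X = (xh : ℝ) / 2 ^ 20 := ⟨_, rfl⟩
  rw [← hX] at hh
  have hX0 : 0 ≤ X := h0.trans hh
  have hX1 : X < 1 := by
    rw [hX, div_lt_one (by positivity)]
    exact_mod_cast hD
  have hx1' : x < 1 := lt_of_le_of_lt hh hX1
  have hmr : m.re ≤ 1 := (Complex.re_le_norm m).trans hm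
  have hlt : xh * xh < 1099511627776 := by nlinarith
  have hXX : 0 < 1 - X ^ 2 := by nlinarith
  -- `gl`
  have hgpos : 1 ≤ gl := by
    rw [hgl]
    refine le_trans ?_ (Nat.le_max_right _ _)
    have : 1 ≤ 1048576 - xh := by omega
    nlinarith
  have hgr : (gl : ℝ) / 2 ^ 40 ≤ 1 - 2 * x * m.re + x ^ 2 := by
    rw [div_le_iff₀ (by positivity)]
    have hpos : 0 ≤ (1 - 2 * x * m.re + x ^ 2) * 2 ^ 40 := by
      have := dn_aux hm h0 hx1'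
      positivity
    have h1 : ((1099511627776 + xl * xl - 2 * (xh * mx) : ℕ) : ℝ) ≤
        (1 - 2 * x * m.re + x ^ 2) * 2 ^ 40 := by
      apply cast_sub_le _ _ hpos
      have a1 : x * m.re ≤ X * ((mx : ℝ) / 2 ^ 20) := mul_le_mul hh hmx hm0 hX0
      have a2 : ((xl : ℝ) / 2 ^ 20) ^ 2 ≤ x ^ 2 := pow_le_pow_left₀ (by positivity) hl 2
      have e1 : X * ((mx : ℝ) / 2 ^ 20) = (xh * mx) / 2 ^ 40 := by rw [hX]; ring
      have e2 : ((xl : ℝ) / 2 ^ 20) ^ 2 = xl * xl / 2 ^ 40 := by ring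
      rw [e1] at a1
      rw [e2] at a2
      push_cast
      rw [le_div_iff₀ (by positivity)] at a1
      rw [div_le_iff₀ (by positivity)] at a2
      linarith
    have h2 : (((1048576 - xh) * (1048576 - xh) : ℕ) : ℝ) ≤
        (1 - 2 * x * m.re + x ^ 2) * 2 ^ 40 := by
      rw [Nat.cast_mul, Nat.cast_sub hD.le]
      have a1 : (1 - X) ^ 2 ≤ 1 - 2 * x * m.re + x ^ 2 := by
        have b1 : (1 - X) ^ 2 ≤ (1 - x) ^ 2 := pow_le_pow_left₀ (by linarith) (by linarith) 2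
        have b2 : x * m.re ≤ x * 1 := mul_le_mul_of_nonneg_left hmr h0
        linarith
      have e : (((1048576 : ℕ) : ℝ) - xh) * (((1048576 : ℕ) : ℝ) - xh) =
          (1 - X) ^ 2 * 2 ^ 40 := by
        rw [hX]; push_cast; ring
      rw [e]
      exact mul_le_mul_of_nonneg_right a1 (by positivity)
    have e3 : (gl : ℝ) = max (((1099511627776 + xl * xl - 2 * (xh * mx) : ℕ) : ℝ))
        (((1048576 - xh) * (1048576 - xh) : ℕ) : ℝ) := by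
      rw [hgl]; exact Nat.cast_max _ _
    rw [e3]
    exact max_le h1 h2
  have hglr : (0 : ℝ) < (gl : ℝ) / 2 ^ 40 := by
    have : (0 : ℝ) < gl := by exact_mod_cast hgpos
    positivity
  -- `qh`
  have hq : 1 ≤ (qh : ℝ) / 2 ^ 20 ∨ (1 + ‖m‖ ^ 2 + X ^ 2) / 2 ≤ (qh : ℝ) / 2 ^ 20 := by
    rcases Nat.le_total 1048576 ((1048576 + rho2 + ((xh * xh) >>> 20 + 1)) / 2 + 1) with h | h
    · left
      have : qh = 1048576 := by rw [hqh]; exact Nat.min_eq_left h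
      rw [this]
      norm_num
    · right
      have e : qh = (1048576 + rho2 + ((xh * xh) >>> 20 + 1)) / 2 + 1 := by
        rw [hqh]; exact Nat.min_eq_right h
      have h3 := real_le_div (1048576 + rho2 + ((xh * xh) >>> 20 + 1)) 2 (by norm_num)
      rw [← e] at h3
      have h4 := le_shr (xh * xh) 20
      rw [le_div_iff₀ (by positivity)]
      refine le_trans ?_ h3
      have e4 : (((1048576 + rho2 + ((xh * xh) >>> 20 + 1) : ℕ) : ℝ)) =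
          1048576 + rho2 + (((xh * xh) >>> 20 + 1 : ℕ) : ℝ) := by push_cast; ring
      rw [e4]
      have e5 : X ^ 2 * 2 ^ 20 = ((xh * xh : ℕ) : ℝ) / 2 ^ 20 := by rw [hX]; push_cast; ring
      rw [le_div_iff₀ (by positivity)] at hr2
      push_cast
      push_cast at h4 e5
      linarith
  have h1 := inv_dn hm hm0 h0 hh hX1 hq hglr hgr
  have h2 : ρ * (1 / dn m x) ≤ (r1 : ℝ) / 2 ^ 10 *
      ((1 + X * ((qh : ℝ) / 2 ^ 20)) * (1 / 2 + 1 / (2 * ((gl : ℝ) / 2 ^ 40))) / (1 - X ^ 2)) := by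
    apply mul_le_mul hr h1 _ (by positivity)
    have := dn_pos hm h0 hx1'
    positivity
  refine h2.trans ?_
  have h3 := real_le_div (r1 * 512 * (1099511627776 + xh * qh) * (gl + 1099511627776))
    (gl * (1099511627776 - xh * xh)) (Nat.mul_pos hgpos (by omega))
  refine le_trans (le_of_eq ?_) (div_le_div_of_nonneg_right h3 (by positivity))
  have hgl0 : (gl : ℝ) ≠ 0 := by
    have : (0 : ℝ) < gl := by exact_mod_cast hgpos
    exact this.ne'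
  have h4 : ((gl * (1099511627776 - xh * xh) : ℕ) : ℝ) = gl * ((1 - X ^ 2) * 1099511627776) := by
    rw [Nat.cast_mul, Nat.cast_sub hlt.le, hX]; push_cast; ring
  rw [h4]
  have e5 : (xh : ℝ) = X * 2 ^ 20 := by rw [hX]; field_simp
  push_cast
  rw [e5]
  field_simp
  ring

end

end Pool.Agent.Lib.MP_af3a4a_an.P1.CHK.H58.G
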