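import Pool.Agent.Lib.MP_af3a4a_an.P1.CHK.H58.GS

/-!
# The general checker: the segments and the tail (helper58)
-/

set_option autoImplicit false

namespace Pool.Agent.Lib.MP_af3a4a_an.P1.CHK.H58.G

open Finset MeasureTheory ComplexConjugate
open Pool.Agent.Lib.MP_af3a4a_an.SV (uu av)
open Pool.Agent.Lib.MP_af3a4a_an.P1.H80
open Pool.Agent.Lib.MP_af3a4a_an.P1.H74
open Pool.Agent.Lib.MP_af3a4a_an.P1.H81
open Pool.Agent.Lib.MP_af3a4a_an.P1.CHK.Arith
open Pool.Agent.Lib.MP_af3a4a_an.P1.CHK.H58.M (inc inc_sound CellQ conv_abs step_int cell_le)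

/-! ### the invariant -/

structure Inv (N : ℕ) (u : Fin N → ℂ) (β : ℝ) (kp : ℝ → ℝ) (th sc s T U V : ℕ) : Prop where
  hT : ∀ y : ℝ, (sc : ℝ) / 2 ^ 10 ≤ β * y ∨ (s : ℝ) / 2 ^ 10 ≤ β * y → β * y ≤ (s : ℝ) / 2 ^ 10 →
    ‖qq u y‖ ≤ (T : ℝ) / 2 ^ 40
  hU : (N : ℝ) * ∫ x in (0 : ℝ)..((s : ℝ) / 2 ^ 10 / β),
    |x - (th : ℝ) / 2 ^ 10 / β| * kp x * ‖qq u x‖ ≤ (U : ℝ) / 2 ^ 40
  hV : (N : ℝ) * ∫ x in (0 : ℝ)..((s : ℝ) / 2 ^ 10 / β), x * kp x * ‖qq u x‖ ≤ (V : ℝ) / 2 ^ 40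

theorem cell_at {N : ℕ} {u : Fin N → ℂ} {β : ℝ} (hβ : 0 < β) {e : ℕ → ℕ} {h s : ℕ} (hh : 1 ≤ h)
    (hc : CellQ N u β e h s) {y : ℝ} (h0 : (s : ℝ) / 2 ^ 10 ≤ β * y)
    (h1 : β * y ≤ ((s + h : ℕ) : ℝ) / 2 ^ 10) :
    ∃ τ ∈ Set.Icc (0 : ℝ) 1, β * y = (s : ℝ) / 2 ^ 10 + τ * ((h : ℝ) / 2 ^ 10) ∧
      ‖qq u y‖ ≤ (e s : ℝ) / 2 ^ 40 + ((e (s + h) : ℝ) / 2 ^ 40 - (e s : ℝ) / 2 ^ 40) * τ := by
  have hhr : (0 : ℝ) < (h : ℝ) / 2 ^ 10 := by
    have : (0 : ℝ) < h := by exact_mod_cast hh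
    positivity
  have e1 : ((s + h : ℕ) : ℝ) / 2 ^ 10 = (s : ℝ) / 2 ^ 10 + (h : ℝ) / 2 ^ 10 := by
    push_cast; ring
  obtain ⟨τ, hτ⟩ : ∃ τ, τ = (β * y - (s : ℝ) / 2 ^ 10) / ((h : ℝ) / 2 ^ 10) := ⟨_, rfl⟩
  have hτy : β * y = (s : ℝ) / 2 ^ 10 + τ * ((h : ℝ) / 2 ^ 10) := by
    rw [hτ, div_mul_cancel₀ _ hhr.ne']; ring
  have hτI : τ ∈ Set.Icc (0 : ℝ) 1 := by
    constructor
    · rw [hτ]; exact div_nonneg (by linarith) hhr.le
    · rw [hτ, div_le_one hhr]; linarith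
  refine ⟨τ, hτI, hτy, ?_⟩
  have h2 := hc τ hτI
  have e2 : ((s : ℝ) / 2 ^ 10 + τ * (((s + h : ℕ) : ℝ) / 2 ^ 10 - (s : ℝ) / 2 ^ 10)) / β = y := by
    rw [e1, div_eq_iff hβ.ne', mul_comm y β, hτy]
    ring
  rwa [e2] at h2

theorem seg_sound {N : ℕ} {u : Fin N → ℂ} {ρ β Y : ℝ} {kp : ℝ → ℝ} (hρ : 0 < ρ) (hβ : 0 < β)
    (hN : β ^ 2 * ρ = N) (hkp : ContinuousOn kp (Set.Icc 0 Y)) {e : ℕ → ℕ} {Kf : ℕ → ℕ → ℕ}
    {Ba h th sc : ℕ} (hh : 1 ≤ h) (hY : ∀ s : ℕ, 1024 * s ≤ 1000 * Ba → (s : ℝ) / 2 ^ 10 / β ≤ Y)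
    (hK : ∀ s : ℕ, 1024 * (s + h) ≤ 1000 * Ba →
      ∀ x ∈ Set.Icc ((s : ℝ) / 2 ^ 10 / β) (((s + h : ℕ) : ℝ) / 2 ^ 10 / β),
        ρ * kp x ≤ (Kf s (s + h) : ℝ) / 2 ^ 20)
    {k : ℕ → ℕ → ℕ → ℕ → Bool} (n : ℕ) :
    ∀ s T U V : ℕ, seg e Kf h th sc n s (e s) T U V k = true →
      ∃ T' U' V', k (s + n * h) T' U' V' = true ∧
        (1024 * (s + n * h) ≤ 1000 * Ba → Inv N u β kp th sc s T U V →
        (∀ j, s ≤ j → j + h ≤ s + n * h → CellQ N u β e h j) →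
        Inv N u β kp th sc (s + n * h) T' U' V') := by
  induction n with
  | zero =>
    intro s T U V hc
    refine ⟨T, U, V, ?_, fun _ hI _ => ?_⟩
    · simpa [seg] using hc
    · simpa using hI
  | succ n ih =>
    intro s T U V hc
    unfold seg at hc
    simp only [ev_eq] at hc
    obtain ⟨T', U', V', hk, hI'⟩ := ih _ _ _ _ hc
    have e1 : s + h + n * h = s + (n + 1) * h := by ring
    rw [e1] at hk hI'
    refine ⟨T', U', V', hk, fun hdom hI hcell => hI' hdom ?_ fun j h1 h2 =>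
      hcell j (by omega) h2⟩
    clear hI' hk hc ih
    have hnh : h ≤ (n + 1) * h := Nat.le_mul_of_pos_left h (Nat.succ_pos n)
    have hq := hcell s le_rfl (by omega)
    have hs : 1024 * (s + h) ≤ 1000 * Ba := by omega
    have hx0 : (0 : ℝ) ≤ (s : ℝ) / 2 ^ 10 / β := by positivity
    have hlt : (s : ℝ) / 2 ^ 10 < ((s + h : ℕ) : ℝ) / 2 ^ 10 := by
      apply div_lt_div_of_pos_right _ (by positivity)
      exact_mod_cast (by omega : s < s + h)
    have hle : (s : ℝ) / 2 ^ 10 / β ≤ ((s + h : ℕ) : ℝ) / 2 ^ 10 / β :=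
      div_le_div_of_nonneg_right hlt.le hβ.le
    have hbY := hY _ hs
    have hkc : ContinuousOn kp (Set.Icc ((s : ℝ) / 2 ^ 10 / β) (((s + h : ℕ) : ℝ) / 2 ^ 10 / β)) :=
      hkp.mono fun x hx => ⟨hx0.trans hx.1, hx.2.trans hbY⟩
    have ehh : ((s + h : ℕ) : ℝ) / 2 ^ 10 - (s : ℝ) / 2 ^ 10 = (h : ℝ) / 2 ^ 10 := by
      push_cast
      ring
    constructor
    · intro y hy0 hy1
      obtain ⟨T'', hT''⟩ : ∃ T'', T'' = bif Nat.ble (s + h) sc then e (s + h) else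
        Nat.max T (Nat.max (e s) (e (s + h))) := ⟨_, rfl⟩
      rw [← hT'']
      by_cases hsc : s + h ≤ sc
      · rw [Nat.ble_eq_true_of_le hsc, cond_true] at hT''
        have hy2 : ((s + h : ℕ) : ℝ) / 2 ^ 10 ≤ β * y := by
          rcases hy0 with h0 | h0
          · refine le_trans ?_ h0
            apply div_le_div_of_nonneg_right _ (by positivity)
            exact_mod_cast hsc
          · exact h0
        obtain ⟨τ, hτI, hτy, hb⟩ := cell_at hβ hh hq (hlt.le.trans hy2) hy1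
        have hτ1 : τ = 1 := by
          have h3 : β * y = ((s + h : ℕ) : ℝ) / 2 ^ 10 := le_antisymm hy1 hy2
          have hhr : (0 : ℝ) < (h : ℝ) / 2 ^ 10 := by
            have : (0 : ℝ) < h := by exact_mod_cast hh
            positivity
          have h4 : τ * ((h : ℝ) / 2 ^ 10) = 1 * ((h : ℝ) / 2 ^ 10) := by
            have h5 : (s : ℝ) / 2 ^ 10 + τ * ((h : ℝ) / 2 ^ 10) = ((s + h : ℕ) : ℝ) / 2 ^ 10 := by
              rw [← hτy, h3]
            linarith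
          exact mul_right_cancel₀ hhr.ne' h4
        rw [hτ1] at hb
        rw [hT'']
        linarith
      · have hb' : Nat.ble (s + h) sc = false := by
          rw [Bool.eq_false_iff, ne_eq, Nat.ble_eq]
          exact hsc
        rw [hb', cond_false] at hT''
        have hscr : (sc : ℝ) / 2 ^ 10 ≤ ((s + h : ℕ) : ℝ) / 2 ^ 10 := by
          apply div_le_div_of_nonneg_right _ (by positivity)
          exact_mod_cast (not_le.1 hsc).le
        have hy2 : (sc : ℝ) / 2 ^ 10 ≤ β * y := by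
          rcases hy0 with h0 | h0
          · exact h0
          · exact hscr.trans h0
        have m1 : (T : ℝ) / 2 ^ 40 ≤ (T'' : ℝ) / 2 ^ 40 := by
          apply div_le_div_of_nonneg_right _ (by positivity)
          rw [hT'']
          exact_mod_cast Nat.le_max_left _ _
        have m2 : (e s : ℝ) / 2 ^ 40 ≤ (T'' : ℝ) / 2 ^ 40 := by
          apply div_le_div_of_nonneg_right _ (by positivity)
          rw [hT'']
          exact_mod_cast (Nat.le_max_left _ _).trans (Nat.le_max_right _ _)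
        have m3 : (e (s + h) : ℝ) / 2 ^ 40 ≤ (T'' : ℝ) / 2 ^ 40 := by
          apply div_le_div_of_nonneg_right _ (by positivity)
          rw [hT'']
          exact_mod_cast (Nat.le_max_right _ _).trans (Nat.le_max_right _ _)
        rcases le_total (β * y) ((s : ℝ) / 2 ^ 10) with h3 | h3
        · exact (hI.hT y (Or.inl hy2) h3).trans m1
        · obtain ⟨τ, hτI, hτy, hb⟩ := cell_at hβ hh hq h3 hy1
          refine hb.trans ?_
          have := hτI.1
          have := hτI.2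
          nlinarith
    · have hcl := cell_le (N := N) (u := u) (R := ρ) (ω := fun x => |x - (th : ℝ) / 2 ^ 10 / β|)
        (a0 := (ad s th : ℝ) / 2 ^ 10) (a1 := (ad (s + h) th : ℝ) / 2 ^ 10)
        (K := (Kf s (s + h) : ℝ) / 2 ^ 20) hρ hβ hN hlt (by positivity) (by fun_prop)
        (fun x _ => abs_nonneg _) hkc (hK s hs) (by
          intro τ hτ
          have h1 := conv_abs (s0 := (s : ℝ) / 2 ^ 10) (s1 := ((s + h : ℕ) : ℝ) / 2 ^ 10)
            (θ := (th : ℝ) / 2 ^ 10) hτ.1 hτ.2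
          have e2 : ∀ j : ℕ, |(j : ℝ) / 2 ^ 10 - (th : ℝ) / 2 ^ 10| = (ad j th : ℝ) / 2 ^ 10 := by
            intro j
            rw [ad_cast, ← sub_div, abs_div, abs_of_pos (by positivity : (0 : ℝ) < 2 ^ 10)]
          rw [e2, e2] at h1
          refine le_trans (le_of_eq ?_) h1
          rw [← sub_div, abs_div, abs_of_pos hβ, mul_div_cancel₀ _ hβ.ne']) hq
      rw [ehh] at hcl
      have h3 := inc_sound (Kf s (s + h)) h (ad s th) (e s) (ad (s + h) th) (e (s + h))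
      have h4 := step_int (β := β) hkp (by fun_prop) hx0 hle hbY hI.hU (hcl.trans h3)
      rw [← add_div] at h4
      exact_mod_cast h4
    · have hcl := cell_le (N := N) (u := u) (R := ρ) (ω := fun x => x)
        (a0 := (s : ℝ) / 2 ^ 10) (a1 := ((s + h : ℕ) : ℝ) / 2 ^ 10)
        (K := (Kf s (s + h) : ℝ) / 2 ^ 20) hρ hβ hN hlt (by positivity) (by fun_prop)
        (fun x hx => hx0.trans hx.1) hkc (hK s hs) (by
          intro τ hτ
          rw [mul_div_cancel₀ _ hβ.ne']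
          apply le_of_eq
          ring) hq
      rw [ehh] at hcl
      have h3 := inc_sound (Kf s (s + h)) h s (e s) (s + h) (e (s + h))
      have h4 := step_int (β := β) hkp (by fun_prop) hx0 hle hbY hI.hV (hcl.trans h3)
      rw [← add_div] at h4
      exact_mod_cast h4

/-- the cells of all types -/
def Cells (N : ℕ) (u : Fin N → ℂ) (β : ℝ) (g : Gr) (Sm fU cU k0 h : ℕ) : Prop :=
  ∀ ty s : ℕ, vld g fU cU ty (look g.tab (ty - 4)).1 s = true → ∀ j, j + h ≤ s →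
    CellQ N u β (ndf g Sm fU cU k0 h ty (look g.tab (ty - 4)).2) h j

theorem run_sound {N : ℕ} {u : Fin N → ℂ} {ρ β Y : ℝ} {kp : ℝ → ℝ} (hρ : 0 < ρ) (hβ : 0 < β)
    (hN : β ^ 2 * ρ = N) (hkp : ContinuousOn kp (Set.Icc 0 Y)) {g : Gr} {Kf : ℕ → ℕ → ℕ}
    {Sm fU cU k0 h th sc : ℕ} (hh : 1 ≤ h)
    (hY : ∀ s : ℕ, 1024 * s ≤ 1000 * g.Ba → (s : ℝ) / 2 ^ 10 / β ≤ Y)
    (hK : ∀ s : ℕ, 1024 * (s + h) ≤ 1000 * g.Ba →
      ∀ x ∈ Set.Icc ((s : ℝ) / 2 ^ 10 / β) (((s + h : ℕ) : ℝ) / 2 ^ 10 / β),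
        ρ * kp x ≤ (Kf s (s + h) : ℝ) / 2 ^ 20)
    (hC : Cells N u β g Sm fU cU k0 h)
    {k : ℕ → ℕ → ℕ → ℕ → Bool} (l : List (ℕ × ℕ)) :
    ∀ s T U V : ℕ, run g Kf Sm fU cU k0 h th sc l s T U V k = true →
      ∃ s' T' U' V', s ≤ s' ∧ k s' T' U' V' = true ∧
        (1024 * s' ≤ 1000 * g.Ba → Inv N u β kp th sc s T U V →
        Inv N u β kp th sc s' T' U' V') := by
  induction l with
  | nil =>
    intro s T U V hc
    exact ⟨s, T, U, V, le_rfl, hc, fun _ hI => hI⟩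
  | cons it l ih =>
    intro s T U V hc
    unfold run at hc
    simp only [ev_eq] at hc
    obtain ⟨T1, U1, V1, hk, hI1⟩ := seg_sound hρ hβ hN hkp hh hY hK it.2 s T U V hc
    rw [Bool.and_eq_true] at hk
    obtain ⟨hv, hk⟩ := hk
    obtain ⟨s', T', U', V', hs', hk', hI'⟩ := ih _ _ _ _ hk
    refine ⟨s', T', U', V', le_trans (Nat.le_add_right _ _) hs', hk', fun hd hI => hI' hd ?_⟩
    apply hI1 (le_trans (Nat.mul_le_mul_left _ hs') hd) hI
    intro j _ hj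
    exact hC it.1 _ hv j hj

/-! ### the tail -/

theorem segT_sound {N : ℕ} {u : Fin N → ℂ} {β a : ℝ} (hβ : 0 < β) {e : ℕ → ℕ} {h : ℕ}
    (hh : 1 ≤ h) {k : ℕ → ℕ → Bool} (n : ℕ) :
    ∀ s Q : ℕ, segT e h n s (e s) Q k = true →
      ∃ Q', k (s + n * h) Q' = true ∧
        (β * (∫ x in a..((s : ℝ) / 2 ^ 10 / β), ‖qq u x‖) ≤ (Q : ℝ) / 2 ^ 51 →
        (∀ j, s ≤ j → j + h ≤ s + n * h → CellQ N u β e h j) →
        β * (∫ x in a..(((s + n * h : ℕ) : ℝ) / 2 ^ 10 / β), ‖qq u x‖) ≤ (Q' : ℝ) / 2 ^ 51) := by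
  induction n with
  | zero =>
    intro s Q hc
    refine ⟨Q, ?_, fun hI _ => ?_⟩
    · simpa [segT] using hc
    · simpa using hI
  | succ n ih =>
    intro s Q hc
    unfold segT at hc
    simp only [ev_eq] at hc
    obtain ⟨Q', hk, hI'⟩ := ih _ _ hc
    have e1 : s + h + n * h = s + (n + 1) * h := by ring
    rw [e1] at hk hI'
    refine ⟨Q', hk, fun hI hcell => hI' ?_ fun j h1 h2 => hcell j (by omega) h2⟩
    clear hI' hk hc ih
    have hnh : h ≤ (n + 1) * h := Nat.le_mul_of_pos_left h (Nat.succ_pos n)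
    have hq := hcell s le_rfl (by omega)
    have hlt : (s : ℝ) / 2 ^ 10 < ((s + h : ℕ) : ℝ) / 2 ^ 10 := by
      apply div_lt_div_of_pos_right _ (by positivity)
      exact_mod_cast (by omega : s < s + h)
    have hle : (s : ℝ) / 2 ^ 10 / β < ((s + h : ℕ) : ℝ) / 2 ^ 10 / β :=
      div_lt_div_of_pos_right hlt hβ
    obtain ⟨x0, hx0⟩ : ∃ x0, x0 = (s : ℝ) / 2 ^ 10 / β := ⟨_, rfl⟩
    obtain ⟨x1, hx1⟩ : ∃ x1, x1 = ((s + h : ℕ) : ℝ) / 2 ^ 10 / β := ⟨_, rfl⟩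
    have hcell1 : ∫ x in x0..x1, ‖qq u x‖ ≤ ∫ x in x0..x1, ((1 + (1 - 1) * ((x - x0) / (x1 - x0))) *
        ((e s : ℝ) / 2 ^ 40 + ((e (s + h) : ℝ) / 2 ^ 40 - (e s : ℝ) / 2 ^ 40) *
          ((x - x0) / (x1 - x0)))) := by
      rw [← hx0, ← hx1] at hle
      apply intervalIntegral.integral_mono_on hle.le
      · exact (qq_cont u).norm.intervalIntegrable _ _
      · apply Continuous.intervalIntegrable
        fun_prop
      · intro x hx
        have hd' : 0 < x1 - x0 := sub_pos.2 hle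
        have hτ0 : 0 ≤ (x - x0) / (x1 - x0) := div_nonneg (by linarith [hx.1]) hd'.le
        have hτ1 : (x - x0) / (x1 - x0) ≤ 1 := by rw [div_le_one hd']; linarith [hx.2]
        have h2 := hq _ ⟨hτ0, hτ1⟩
        have h3 : ((s : ℝ) / 2 ^ 10 + (x - x0) / (x1 - x0) *
            (((s + h : ℕ) : ℝ) / 2 ^ 10 - (s : ℝ) / 2 ^ 10)) / β = x := by
          have e3 : (s : ℝ) / 2 ^ 10 = x0 * β := by rw [hx0]; field_simp
          have e4 : ((s + h : ℕ) : ℝ) / 2 ^ 10 = x1 * β := by rw [hx1]; field_simp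
          rw [e3, e4]
          field_simp
          ring
        rw [h3] at h2
        linarith
    rw [← hx0, ← hx1] at hle
    rw [M.quad_int hle] at hcell1
    have hadd : (∫ x in a..x1, ‖qq u x‖) = (∫ x in a..x0, ‖qq u x‖) + ∫ x in x0..x1, ‖qq u x‖ :=
      (intervalIntegral.integral_add_adjacent_intervals
        ((qq_cont u).norm.intervalIntegrable _ _) ((qq_cont u).norm.intervalIntegrable _ _)).symm
    rw [← hx0] at hI
    rw [← hx1, hadd, mul_add]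
    have h5 := mul_le_mul_of_nonneg_left hcell1 hβ.le
    have e5 : β * ((x1 - x0) * (2 * (1 * ((e s : ℝ) / 2 ^ 40) + 1 * ((e (s + h) : ℝ) / 2 ^ 40)) +
        (1 * ((e (s + h) : ℝ) / 2 ^ 40) + 1 * ((e s : ℝ) / 2 ^ 40))) / 6) =
        ((h * (e s + e (s + h)) : ℕ) : ℝ) / 2 ^ 51 := by
      have e6 : β * (x1 - x0) = (h : ℝ) / 2 ^ 10 := by
        rw [hx1, hx0]
        push_cast
        field_simp
        ring
      calc β * ((x1 - x0) * (2 * (1 * ((e s : ℝ) / 2 ^ 40) + 1 * ((e (s + h) : ℝ) / 2 ^ 40)) +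
        (1 * ((e (s + h) : ℝ) / 2 ^ 40) + 1 * ((e s : ℝ) / 2 ^ 40))) / 6) =
          β * (x1 - x0) * (((e s : ℝ) + e (s + h)) / 2 ^ 41) := by ring
        _ = _ := by rw [e6]; push_cast; ring
    rw [e5] at h5
    rw [Nat.cast_add, add_div]
    linarith

theorem runT_sound {N : ℕ} {u : Fin N → ℂ} {β a : ℝ} (hβ : 0 < β) {g : Gr}
    {Sm fU cU k0 h : ℕ} (hh : 1 ≤ h) (hC : Cells N u β g Sm fU cU k0 h)
    {k : ℕ → ℕ → Bool} (l : List (ℕ × ℕ)) :
    ∀ s Q : ℕ, runT g Sm fU cU k0 h l s Q k = true →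
      ∃ s' Q', s ≤ s' ∧ k s' Q' = true ∧
        (β * (∫ x in a..((s : ℝ) / 2 ^ 10 / β), ‖qq u x‖) ≤ (Q : ℝ) / 2 ^ 51 →
        β * (∫ x in a..((s' : ℝ) / 2 ^ 10 / β), ‖qq u x‖) ≤ (Q' : ℝ) / 2 ^ 51) := by
  induction l with
  | nil =>
    intro s Q hc
    exact ⟨s, Q, le_rfl, hc, fun hI => hI⟩
  | cons it l ih =>
    intro s Q hc
    unfold runT at hc
    simp only [ev_eq] at hc
    obtain ⟨Q1, hk, hI1⟩ := segT_sound (u := u) (a := a) hβ hh it.2 s Q hc
    rw [Bool.and_eq_true] at hk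
    obtain ⟨hv, hk⟩ := hk
    obtain ⟨s', Q', hs', hk', hI'⟩ := ih _ _ hk
    refine ⟨s', Q', le_trans (Nat.le_add_right _ _) hs', hk', fun hI => hI' ?_⟩
    apply hI1 hI
    intro j _ hj
    exact hC it.1 _ hv j hj

theorem exp_N {N Na : ℕ} (hN : Na ≤ N) {v : ℝ} (hv : 1 ≤ ((Na : ℝ) + 1) * v) :
    ((N : ℝ) + 1) * Real.exp (-(N * v)) ≤ ((Na : ℝ) + 1) * Real.exp (-(Na * v)) := by
  have hNr : (Na : ℝ) ≤ N := by exact_mod_cast hN
  have hp : (0 : ℝ) < (Na : ℝ) + 1 := by positivity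
  have h1 : ((N : ℝ) + 1) ≤ (Na + 1) * Real.exp ((N - Na) * v) := by
    have h2 := Real.add_one_le_exp (((N : ℝ) - Na) * v)
    have h3 : (N : ℝ) + 1 ≤ (Na + 1) * (((N : ℝ) - Na) * v + 1) := by
      have h4 : ((N : ℝ) - Na) * 1 ≤ (N - Na) * ((Na + 1) * v) :=
        mul_le_mul_of_nonneg_left hv (by linarith)
      nlinarith
    exact h3.trans (mul_le_mul_of_nonneg_left h2 hp.le)
  have h5 := mul_le_mul_of_nonneg_right h1 (Real.exp_pos (-(N * v))).le
  refine h5.trans (le_of_eq ?_)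
  rw [mul_assoc, ← Real.exp_add]
  congr 2
  ring

/-- the profile of the table -/
def ProfT (N : ℕ) (w : Fin N → ℂ) (ρ : ℝ) (l : List (ℕ × ℕ)) : Prop :=
  ∀ p ∈ l, ∀ x ∈ Set.Icc (0 : ℝ) ((p.1 : ℝ) / 1024),
    ‖qq (uu w) x‖ ≤ Real.exp (-(N * ((p.2 : ℝ) / 1024 * x ^ 2 / ρ)))

theorem xt_sound {N : ℕ} {w : Fin N → ℂ} {ρ a b : ℝ} (hρ : 0 < ρ) {g : Gr}
    (hr1 : ρ ≤ (g.r1 : ℝ) / 2 ^ 10) (hNa : g.Na ≤ N) {xe : ℕ} {k : ℕ → ℕ → Bool}
    (l : List (ℕ × ℕ)) (hT : ProfT N w ρ l) :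
    ∀ x t : ℕ, xt g xe l x t k = true →
      ∃ x' t', k x' t' = true ∧
        (((N : ℝ) + 1) * (∫ z in a..(max b ((x : ℝ) / 1024)), ‖qq (uu w) z‖) ≤ (t : ℝ) / 2 ^ 40 →
        ((N : ℝ) + 1) * (∫ z in a..(max b ((x' : ℝ) / 1024)), ‖qq (uu w) z‖) ≤
          (t' : ℝ) / 2 ^ 40) := by
  induction l with
  | nil =>
    intro x t hc
    exact ⟨x, t, hc, fun hI => hI⟩
  | cons p l ih =>
    intro x t hc
    have ih := ih (fun q hq => hT q (List.mem_cons_of_mem _ hq))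
    unfold xt at hc
    simp only [ev_eq] at hc
    obtain ⟨X2, hX2⟩ : ∃ X2, X2 = Nat.min p.1 xe := ⟨_, rfl⟩
    rw [← hX2] at hc
    by_cases hle : X2 ≤ x
    · rw [Nat.ble_eq_true_of_le hle, cond_true] at hc
      exact ih _ _ hc
    · have hb' : Nat.ble X2 x = false := by
        rw [Bool.eq_false_iff, ne_eq, Nat.ble_eq]
        exact hle
      rw [hb', cond_false] at hc
      simp only [Bool.and_eq_true, Nat.ble_eq] at hc
      obtain ⟨hv, hc⟩ := hc
      obtain ⟨x', t', hk, hI'⟩ := ih _ _ hc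
      refine ⟨x', t', hk, fun hI => hI' ?_⟩
      clear hI' hk hc ih
      have hxX : x < X2 := not_le.1 hle
      have hxXr : (x : ℝ) / 1024 ≤ (X2 : ℝ) / 1024 := by
        apply div_le_div_of_nonneg_right _ (by norm_num)
        exact_mod_cast hxX.le
      have hX2p : X2 ≤ p.1 := by rw [hX2]; exact Nat.min_le_left _ _
      have hr1p : 0 < g.r1 := by
        by_contra h
        have h0 : g.r1 = 0 := by omega
        rw [h0] at hr1
        norm_num at hr1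
        linarith
      have hr1r : (0 : ℝ) < g.r1 := by exact_mod_cast hr1p
      obtain ⟨v, hvd⟩ : ∃ v, v = (p.2 : ℝ) * (x * x) / (2 ^ 20 * g.r1) := ⟨_, rfl⟩
      have hv0 : 0 ≤ v := by rw [hvd]; positivity
      have hv1 : 1 ≤ ((g.Na : ℝ) + 1) * v := by
        have h1 : (g.r1 : ℝ) * 1048576 ≤ (g.Na + 1) * (p.2 * (x * x)) := by exact_mod_cast hv
        rw [hvd, ← mul_div_assoc, le_div_iff₀ (by positivity)]
        norm_num at h1 ⊢
        linarith
      -- the bound on the cell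
      have hbd : ∀ z ∈ Set.Icc (max b ((x : ℝ) / 1024)) (max b ((X2 : ℝ) / 1024)),
          z ≤ (X2 : ℝ) / 1024 → ‖qq (uu w) z‖ ≤ Real.exp (-(N * v)) := by
        intro z hz hzX
        have hz0 : (x : ℝ) / 1024 ≤ z := (le_max_right _ _).trans hz.1
        have hz00 : 0 ≤ z := le_trans (by positivity) hz0
        have hzp : z ≤ (p.1 : ℝ) / 1024 := by
          refine hzX.trans ?_
          apply div_le_div_of_nonneg_right _ (by norm_num)
          exact_mod_cast hX2p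
        refine (hT p (by simp) z ⟨hz00, hzp⟩).trans (Real.exp_le_exp.2 (neg_le_neg ?_))
        apply mul_le_mul_of_nonneg_left _ (Nat.cast_nonneg N)
        have h1 : ((x : ℝ) / 1024) ^ 2 ≤ z ^ 2 := pow_le_pow_left₀ (by positivity) hz0 2
        have h2 : (p.2 : ℝ) / 1024 * ((x : ℝ) / 1024) ^ 2 / ((g.r1 : ℝ) / 2 ^ 10) ≤
            (p.2 : ℝ) / 1024 * z ^ 2 / ρ :=
          div_le_div₀ (by positivity) (mul_le_mul_of_nonneg_left h1 (by positivity)) hρ hr1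
        refine le_trans (le_of_eq ?_) h2
        rw [hvd]
        field_simp
        norm_num
      have hmm : max b ((x : ℝ) / 1024) ≤ max b ((X2 : ℝ) / 1024) := max_le_max le_rfl hxXr
      have hint : (∫ z in (max b ((x : ℝ) / 1024))..(max b ((X2 : ℝ) / 1024)), ‖qq (uu w) z‖) ≤
          ((X2 : ℝ) / 1024 - (x : ℝ) / 1024) * Real.exp (-(N * v)) := by
        rcases le_total b ((X2 : ℝ) / 1024) with hb | hb
        · have h1 : (∫ z in (max b ((x : ℝ) / 1024))..(max b ((X2 : ℝ) / 1024)), ‖qq (uu w) z‖) ≤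
              ∫ z in (max b ((x : ℝ) / 1024))..(max b ((X2 : ℝ) / 1024)), Real.exp (-(N * v)) := by
            apply intervalIntegral.integral_mono_on hmm
            · exact (qq_cont _).norm.intervalIntegrable _ _
            · exact continuous_const.intervalIntegrable _ _
            · intro z hz
              exact hbd z hz (hz.2.trans (max_le hb le_rfl))
          rw [intervalIntegral.integral_const, smul_eq_mul] at h1
          refine h1.trans (mul_le_mul_of_nonneg_right ?_ (Real.exp_pos _).le)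
          rw [max_eq_right hb]
          have := le_max_right b ((x : ℝ) / 1024)
          linarith
        · rw [max_eq_left hb, max_eq_left (hxXr.trans hb), intervalIntegral.integral_same]
          apply mul_nonneg (by linarith) (Real.exp_pos _).le
      have hadd : (∫ z in a..(max b ((X2 : ℝ) / 1024)), ‖qq (uu w) z‖) =
          (∫ z in a..(max b ((x : ℝ) / 1024)), ‖qq (uu w) z‖) +
          ∫ z in (max b ((x : ℝ) / 1024))..(max b ((X2 : ℝ) / 1024)), ‖qq (uu w) z‖ :=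
        (intervalIntegral.integral_add_adjacent_intervals
          ((qq_cont _).norm.intervalIntegrable _ _) ((qq_cont _).norm.intervalIntegrable _ _)).symm
      rw [hadd, mul_add]
      obtain ⟨E, hE⟩ : ∃ E, E = Arith.em (Nat.min (g.Na * (p.2 * (x * x)) * 1048576 / g.r1)
        70368744177664) := ⟨_, rfl⟩
      rw [← hE]
      have hEr : Real.exp (-(g.Na * v)) ≤ (E : ℝ) / 2 ^ 40 := by
        rw [hE]
        refine le_trans (Real.exp_le_exp.2 (neg_le_neg ?_)) (em_spec _)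
        have h1 : ((Nat.min (g.Na * (p.2 * (x * x)) * 1048576 / g.r1) 70368744177664 : ℕ) : ℝ) ≤
            ((g.Na * (p.2 * (x * x)) * 1048576 / g.r1 : ℕ) : ℝ) := by
          exact_mod_cast Nat.min_le_left _ _
        have h2 := div_le_real (g.Na * (p.2 * (x * x)) * 1048576) g.r1
        have e : (g.Na : ℝ) * v = ((g.Na * (p.2 * (x * x)) * 1048576 : ℕ) : ℝ) / g.r1 / 2 ^ 40 := by
          rw [hvd]
          push_cast
          field_simp
          norm_num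
        rw [e]
        exact div_le_div_of_nonneg_right (h1.trans h2) (by positivity)
      have h6 : ((N : ℝ) + 1) * (((X2 : ℝ) / 1024 - (x : ℝ) / 1024) * Real.exp (-(N * v))) ≤
          (((g.Na + 1) * (X2 - x) * E / 1024 + 1 : ℕ) : ℝ) / 2 ^ 40 := by
        have h7 := exp_N hNa hv1
        have h8 : 0 ≤ (X2 : ℝ) / 1024 - (x : ℝ) / 1024 := by linarith
        have h9 : ((N : ℝ) + 1) * (((X2 : ℝ) / 1024 - (x : ℝ) / 1024) * Real.exp (-(N * v))) ≤
            ((g.Na : ℝ) + 1) * (((X2 : ℝ) / 1024 - (x : ℝ) / 1024) * ((E : ℝ) / 2 ^ 40)) := by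
          have a1 := mul_le_mul_of_nonneg_left h7 h8
          have a2 := mul_le_mul_of_nonneg_left hEr
            (mul_nonneg (by positivity : (0 : ℝ) ≤ (g.Na : ℝ) + 1) h8)
          nlinarith
        refine h9.trans ?_
        have h10 := real_le_div ((g.Na + 1) * (X2 - x) * E) 1024 (by norm_num)
        refine le_trans (le_of_eq ?_) (div_le_div_of_nonneg_right h10 (by positivity))
        rw [Nat.cast_mul, Nat.cast_mul, Nat.cast_sub hxX.le]
        push_cast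
        ring
      have h7 := mul_le_mul_of_nonneg_left hint (by positivity : (0 : ℝ) ≤ (N : ℝ) + 1)
      rw [Nat.cast_add t, add_div]
      linarith

end Pool.Agent.Lib.MP_af3a4a_an.P1.CHK.H58.G
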