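import Pool.Agent.Lib.MP_af3a4a_an.P1.CHK.H58.SG

/-!
# Piece (I), soundness of the end tests of the checker (helper58)
-/

set_option autoImplicit false

namespace Pool.Agent.Lib.MP_af3a4a_an.P1.CHK.H58.S

open Finset MeasureTheory ComplexConjugate
open Pool.Agent.Lib.MP_af3a4a_an.SV (uu av)
open Pool.Agent.Lib.MP_af3a4a_an.P1.H80 Pool.Agent.Lib.MP_af3a4a_an.P1.H74
open Pool.Agent.Lib.MP_af3a4a_an.P1.CHK.Arith

theorem core_sound {ys p m G : ℕ} (hys : 1 ≤ ys) (hG : 1 ≤ G) (hc : core ys p m G = true) :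
    Real.log ((ys : ℝ) / 2 ^ 40) + ((p : ℝ) / 2 ^ 40 - (m : ℝ) / 2 ^ 40) ≤
      Real.log ((G : ℝ) / 2 ^ 40) := by
  unfold core at hc
  simp only [ev_eq, Nat.ble_eq] at hc
  obtain ⟨m', hm'⟩ : ∃ m', m' = Nat.min m (p + 70368744177664) := ⟨_, rfl⟩
  rw [← hm'] at hc
  have hmm : (m' : ℝ) ≤ m := by
    rw [hm']
    exact_mod_cast Nat.min_le_left _ _
  have h1 := es_spec p m'
  have h2 := le_mU ys (es p m')
  have h3 : ((mU ys (es p m') : ℕ) : ℝ) ≤ G := by exact_mod_cast hc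
  have hysr : (0 : ℝ) < (ys : ℝ) / 2 ^ 40 := by
    have : (0 : ℝ) < ys := by exact_mod_cast hys
    positivity
  have h4 : (ys : ℝ) / 2 ^ 40 * Real.exp ((p : ℝ) / 2 ^ 40 - (m' : ℝ) / 2 ^ 40) ≤
      (G : ℝ) / 2 ^ 40 := by
    refine (mul_le_mul_of_nonneg_left h1 hysr.le).trans (h2.trans ?_)
    exact div_le_div_of_nonneg_right h3 (by positivity)
  have h5 := Real.log_le_log (mul_pos hysr (Real.exp_pos _)) h4
  rw [Real.log_mul hysr.ne' (Real.exp_pos _).ne', Real.log_exp] at h5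
  have h6 : (m' : ℝ) / 2 ^ 40 ≤ (m : ℝ) / 2 ^ 40 := div_le_div_of_nonneg_right hmm (by positivity)
  linarith

theorem yst_sound {y0 y1 : ℕ} {y : ℝ} (h : 1 ≤ yst y0 y1) (hy : 0 < y)
    (h0 : (y0 : ℝ) / 2 ^ 40 ≤ y) (h1 : y ≤ (y1 : ℝ) / 2 ^ 40) :
    Real.log y - y ≤ Real.log (((yst y0 y1 : ℕ) : ℝ) / 2 ^ 40) - ((yst y0 y1 : ℕ) : ℝ) / 2 ^ 40 := by
  have key : ∀ z : ℝ, 0 < z → z * (z - y) ≤ z - y → Real.log y - y ≤ Real.log z - z := by
    intro z hz hzy
    have h2 := Real.log_le_sub_one_of_pos (div_pos hy hz)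
    rw [Real.log_div hy.ne' hz.ne'] at h2
    have h3 : y / z - 1 ≤ y - z := by
      rw [div_sub_one hz.ne', div_le_iff₀ hz]
      linarith
    linarith
  unfold yst at h ⊢
  by_cases c1 : y1 ≤ 1099511627776
  · rw [Nat.ble_eq_true_of_le c1, cond_true] at h ⊢
    have hz : (0 : ℝ) < (y1 : ℝ) / 2 ^ 40 := hy.trans_le h1
    apply key _ hz
    have hz1 : (y1 : ℝ) / 2 ^ 40 ≤ 1 := by
      rw [div_le_one (by positivity)]
      have : (y1 : ℝ) ≤ 1099511627776 := by exact_mod_cast c1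
      linarith
    nlinarith
  · have hb' : Nat.ble y1 1099511627776 = false := by
      rw [Bool.eq_false_iff, ne_eq, Nat.ble_eq]
      exact c1
    rw [hb', cond_false]
    by_cases c2 : 1099511627776 ≤ y0
    · rw [Nat.ble_eq_true_of_le c2, cond_true]
      have hz1 : 1 ≤ (y0 : ℝ) / 2 ^ 40 := by
        rw [one_le_div (by positivity)]
        have : (1099511627776 : ℝ) ≤ y0 := by exact_mod_cast c2
        linarith
      apply key _ (by linarith)
      nlinarith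
    · have hb2 : Nat.ble 1099511627776 y0 = false := by
        rw [Bool.eq_false_iff, ne_eq, Nat.ble_eq]
        exact c2
      rw [hb2, cond_false]
      have e : (((1099511627776 : ℕ) : ℝ) / 2 ^ 40) = 1 := by norm_num
      rw [e]
      exact key 1 one_pos (by linarith)

section

variable {N : ℕ} {z w : Fin N → ℂ} {R : ℝ} {σ : Fin N → ℂ} {f : ℝ} {b : Bx}

theorem gain_le {u : Fin N → ℂ} {R0 R1 f0 f1 Sa al : ℕ} (H : Hyp N u R f R0 R1 f0 f1 Sa)
    (hm : (av u).re ≤ 1) :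
    ((((al * R0) * (1099511627776 - f1 * R1)) >>> 40 : ℕ) : ℝ) / 2 ^ 40 ≤
      (al : ℝ) / 2 ^ 20 * R * (1 - (av u).re) := by
  have h1 := shr_le ((al * R0) * (1099511627776 - f1 * R1)) 40
  rw [Nat.cast_mul, Nat.cast_mul] at h1
  have hf0 : 0 ≤ f := le_trans (by positivity) H.hf0
  have h2 : ((1099511627776 - f1 * R1 : ℕ) : ℝ) ≤ (1 - (av u).re) * 2 ^ 40 := by
    apply cast_sub_le
    · apply mul_nonneg _ (by positivity)
      linarith
    · rw [H.hf]
      have h3 : f * R ≤ (f1 : ℝ) / 2 ^ 20 * (R1 / 2 ^ 20) :=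
        mul_le_mul H.hf1 H.hR1 H.hR.le (by positivity)
      have e : (f1 : ℝ) / 2 ^ 20 * (R1 / 2 ^ 20) = (f1 : ℝ) * R1 / 2 ^ 40 := by ring
      rw [e, le_div_iff₀ (by positivity)] at h3
      push_cast
      linarith
  have h4 : (al : ℝ) * R0 ≤ (al : ℝ) / 2 ^ 20 * R * 2 ^ 40 := by
    have h5 : (R0 : ℝ) ≤ R * 2 ^ 20 := by
      have := H.hR0
      rwa [div_le_iff₀ (by positivity)] at this
    have := mul_le_mul_of_nonneg_left h5 (Nat.cast_nonneg al : (0 : ℝ) ≤ al)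
    linarith
  have h6 : (al : ℝ) * R0 * ((1099511627776 - f1 * R1 : ℕ) : ℝ) ≤
      (al : ℝ) / 2 ^ 20 * R * 2 ^ 40 * ((1 - (av u).re) * 2 ^ 40) := by
    apply mul_le_mul h4 h2 (Nat.cast_nonneg _)
    have := H.hR.le
    positivity
  rw [div_le_iff₀ (by positivity)]
  refine h1.trans ?_
  rw [div_le_iff₀ (by positivity)]
  linarith

theorem gam_le {u : Fin N → ℂ} {R0 R1 f0 f1 Sa Sb al l x : ℕ}
    (H : Hyp N u R f R0 R1 f0 f1 Sa) (hSb : Sb = 0 ∨ N * R ^ 2 ≤ (Sb : ℝ) / 2 ^ 20)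
    (hx : (al : ℝ) / 2 ^ 20 * R ≤ (x : ℝ) / 2 ^ 20)
    (hb : (bif Nat.beq Sb 0 then Nat.ble (gn f1 al x) (al * l) else true) = true) :
    (((Sa * (al * l - gn f1 al x)) >>> 20 : ℕ) : ℝ) / 2 ^ 40 -
      ((((Sb * (gn f1 al x - al * l)) >>> 20 + 1 : ℕ) : ℝ) / 2 ^ 40) ≤
      N * ((al : ℝ) / 2 ^ 20 * R * ((l : ℝ) / 2 ^ 20 * R - (av u).re) -
        (((al : ℝ) / 2 ^ 20 * R) ^ 2 / 2 + ((al : ℝ) / 2 ^ 20 * R) ^ 4 / 4 +
          ((al : ℝ) / 2 ^ 20 * R) ^ 6 / 4)) := by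
  obtain ⟨g, hg⟩ : ∃ g, g = gn f1 al x := ⟨_, rfl⟩
  rw [← hg] at hb ⊢
  obtain ⟨α, hα⟩ : ∃ α, α = (al : ℝ) / 2 ^ 20 := ⟨_, rfl⟩
  obtain ⟨lm, hl⟩ : ∃ lm, lm = (l : ℝ) / 2 ^ 20 := ⟨_, rfl⟩
  obtain ⟨S, hS⟩ : ∃ S, S = (N : ℝ) * R ^ 2 := ⟨_, rfl⟩
  have hα0 : 0 ≤ α := by rw [hα]; positivity
  rw [← hα] at hx
  rw [← hα, ← hl, H.hf]
  rw [← hS] at hSb
  have hSa : (Sa : ℝ) / 2 ^ 20 ≤ S := by rw [hS]; exact H.hS
  have hR0 := H.hR.le
  have hS0 : 0 ≤ S := by rw [hS]; positivity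
  -- the cost
  have hgr : α * f + α ^ 2 / 2 + α ^ 4 * R ^ 2 / 4 + α ^ 6 * R ^ 4 / 4 ≤ (g : ℝ) / 2 ^ 40 := by
    rw [hg]
    rcases Nat.eq_zero_or_pos al with hal | hal
    · have h0 : α = 0 := by rw [hα, hal]; simp
      rw [h0, hal]
      have : gn f1 0 x = 0 := rfl
      rw [this]
      simp
    unfold gn
    have hbq : Nat.beq al 0 = false := by
      rw [Bool.eq_false_iff, ne_eq, Nat.beq_eq]
      omega
    rw [hbq, cond_false]
    have h1 := le_shr ((al * al) * (x * x * 1099511627776 + x * x * (x * x))) 82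
    have h2 := real_le_div (al * al) 2 (by norm_num)
    have h3 : α * f ≤ (al : ℝ) * f1 / 2 ^ 40 := by
      have := mul_le_mul_of_nonneg_left H.hf1 hα0
      refine this.trans (le_of_eq ?_)
      rw [hα]
      ring
    have hx2 : (α * R) ^ 2 ≤ ((x : ℝ) / 2 ^ 20) ^ 2 := pow_le_pow_left₀ (by positivity) hx 2
    have hx4 : (α * R) ^ 4 ≤ ((x : ℝ) / 2 ^ 20) ^ 4 := pow_le_pow_left₀ (by positivity) hx 4
    have h4 : α ^ 4 * R ^ 2 / 4 + α ^ 6 * R ^ 4 / 4 ≤
        α ^ 2 * (((x : ℝ) / 2 ^ 20) ^ 2 + ((x : ℝ) / 2 ^ 20) ^ 4) / 4 := by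
      have e : α ^ 4 * R ^ 2 / 4 + α ^ 6 * R ^ 4 / 4 =
        α ^ 2 * ((α * R) ^ 2 + (α * R) ^ 4) / 4 := by ring
      rw [e]
      apply div_le_div_of_nonneg_right _ (by norm_num)
      exact mul_le_mul_of_nonneg_left (add_le_add hx2 hx4) (by positivity)
    have h5 : α ^ 2 * (((x : ℝ) / 2 ^ 20) ^ 2 + ((x : ℝ) / 2 ^ 20) ^ 4) / 4 =
        (((al * al) * (x * x * 1099511627776 + x * x * (x * x)) : ℕ) : ℝ) / 2 ^ 82 / 2 ^ 40 := by
      rw [hα]
      push_cast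
      ring
    have h6 : α ^ 2 / 2 = ((al * al : ℕ) : ℝ) / ((2 : ℕ) : ℝ) / 2 ^ 40 := by
      rw [hα]
      push_cast
      ring
    have h7 := div_le_div_of_nonneg_right h1 (by positivity : (0 : ℝ) ≤ 2 ^ 40)
    have h8 := div_le_div_of_nonneg_right h2 (by positivity : (0 : ℝ) ≤ 2 ^ 40)
    rw [← h5] at h7
    rw [← h6] at h8
    push_cast at h7 h8 ⊢
    rw [add_div, add_div]
    linarith
  have hmain : N * (α * R * (lm * R - f * R) - ((α * R) ^ 2 / 2 + (α * R) ^ 4 / 4 +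
      (α * R) ^ 6 / 4)) = S * (α * lm - (α * f + α ^ 2 / 2 + α ^ 4 * R ^ 2 / 4 +
        α ^ 6 * R ^ 4 / 4)) := by
    rw [hS]
    ring
  rw [hmain]
  have hgp : α * lm = ((al * l : ℕ) : ℝ) / 2 ^ 40 := by
    rw [hα, hl]
    push_cast
    ring
  rw [hgp]
  have h9 : S * (((al * l : ℕ) : ℝ) / 2 ^ 40 - (g : ℝ) / 2 ^ 40) ≤
      S * (((al * l : ℕ) : ℝ) / 2 ^ 40 - (α * f + α ^ 2 / 2 + α ^ 4 * R ^ 2 / 4 +
        α ^ 6 * R ^ 4 / 4)) := by
    apply mul_le_mul_of_nonneg_left _ hS0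
    linarith
  refine le_trans ?_ h9
  rcases le_total g (al * l) with hle | hle
  · have h1 := shr_le (Sa * (al * l - g)) 20
    rw [Nat.cast_mul, Nat.cast_sub hle] at h1
    have h2 : (0 : ℝ) ≤ ((((Sb * (g - al * l)) >>> 20 + 1 : ℕ) : ℝ) / 2 ^ 40) := by positivity
    have h3 : (Sa : ℝ) / 2 ^ 20 * (((al * l : ℕ) : ℝ) / 2 ^ 40 - (g : ℝ) / 2 ^ 40) ≤
        S * (((al * l : ℕ) : ℝ) / 2 ^ 40 - (g : ℝ) / 2 ^ 40) := by
      apply mul_le_mul_of_nonneg_right hSa
      rw [sub_nonneg]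
      apply div_le_div_of_nonneg_right _ (by positivity)
      exact_mod_cast hle
    have h4 := div_le_div_of_nonneg_right h1 (by positivity : (0 : ℝ) ≤ 2 ^ 40)
    have e : (Sa : ℝ) / 2 ^ 20 * (((al * l : ℕ) : ℝ) / 2 ^ 40 - (g : ℝ) / 2 ^ 40) =
      (Sa : ℝ) * (((al * l : ℕ) : ℝ) - g) / 2 ^ 20 / 2 ^ 40 := by ring
    rw [e] at h3
    linarith
  · have e0 : al * l - g = 0 := Nat.sub_eq_zero_of_le hle
    rw [e0, mul_zero]
    have hz : ((0 : ℕ) >>> 20) = 0 := by norm_num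
    rw [hz, Nat.cast_zero, zero_div, zero_sub]
    have hSS : S * ((g : ℝ) / 2 ^ 40 - ((al * l : ℕ) : ℝ) / 2 ^ 40) ≤
        ((((Sb * (g - al * l)) >>> 20 + 1 : ℕ) : ℝ) / 2 ^ 40) := by
      rcases hSb with h0 | h0
      · rw [h0] at hb
        have hb' : g ≤ al * l := by
          have : (Nat.beq 0 0) = true := rfl
          rw [this, cond_true, Nat.ble_eq] at hb
          exact hb
        have : g = al * l := le_antisymm hb' hle
        rw [this, sub_self, mul_zero]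
        positivity
      · have h1 := le_shr (Sb * (g - al * l)) 20
        rw [Nat.cast_mul, Nat.cast_sub hle] at h1
        have h4 := div_le_div_of_nonneg_right h1 (by positivity : (0 : ℝ) ≤ 2 ^ 40)
        have h3 : S * ((g : ℝ) / 2 ^ 40 - ((al * l : ℕ) : ℝ) / 2 ^ 40) ≤
            (Sb : ℝ) / 2 ^ 20 * ((g : ℝ) / 2 ^ 40 - ((al * l : ℕ) : ℝ) / 2 ^ 40) := by
          apply mul_le_mul_of_nonneg_right h0
          rw [sub_nonneg]
          apply div_le_div_of_nonneg_right _ (by positivity)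
          exact_mod_cast hle
        have e : (Sb : ℝ) / 2 ^ 20 * ((g : ℝ) / 2 ^ 40 - ((al * l : ℕ) : ℝ) / 2 ^ 40) =
          (Sb : ℝ) * ((g : ℝ) - ((al * l : ℕ) : ℝ)) / 2 ^ 20 / 2 ^ 40 := by ring
        rw [e] at h3
        linarith
    linarith

theorem endA_sound (hC : Cfg2 N z w R σ) (hN : 40 ≤ N) (hR21 : R ≤ 21 / 10)
    (H : Hyp N (uu w) R f b.R0 b.R1 b.f0 b.f1 b.Sa)
    (hSb : b.Sb = 0 ∨ N * R ^ 2 ≤ (b.Sb : ℝ) / 2 ^ 20) {l G : ℕ} (hl : l ≤ 1048576)
    (hG : 1 ≤ G)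
    (hFq : (G : ℝ) / 2 ^ 40 ≤
      ((N : ℝ) + 1) * ‖∫ x in (0 : ℝ)..((l : ℝ) / 2 ^ 20 * R), qq (uu w) x‖)
    (hc : endA b l G = true) : False := by
  unfold endA at hc
  simp only [ev_eq, Bool.and_eq_true] at hc
  obtain ⟨x, hx⟩ : ∃ x, x = b.al * b.R1 / 1048576 + 1 := ⟨_, rfl⟩
  rw [← hx] at hc
  obtain ⟨ys, hys⟩ : ∃ ys, ys = yst (l * b.R0) (l * b.R1) := ⟨_, rfl⟩
  rw [← hys] at hc
  obtain ⟨hb, hys1, hc⟩ := hc
  rw [Nat.ble_eq] at hys1
  have hR := H.hR
  have hm1 : (av (uu w)).re ≤ 1 := by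
    have h1 := av_norm_le H.hN H.hu
    exact (Complex.re_le_norm _).trans h1
  obtain ⟨α, hα⟩ : ∃ α, α = (b.al : ℝ) / 2 ^ 20 := ⟨_, rfl⟩
  obtain ⟨lm, hl'⟩ : ∃ lm, lm = (l : ℝ) / 2 ^ 20 := ⟨_, rfl⟩
  have hα0 : 0 ≤ α := by rw [hα]; positivity
  have hl0 : 0 ≤ lm := by rw [hl']; positivity
  have hl1 : lm ≤ 1 := by
    rw [hl', div_le_one (by positivity)]
    have : (l : ℝ) ≤ 1048576 := by exact_mod_cast hl
    linarith
  have hR1 := H.hR1
  have hR0 := H.hR0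
  have hxr : α * R ≤ (x : ℝ) / 2 ^ 20 := by
    rw [hx]
    have h1 := real_le_div (b.al * b.R1) 1048576 (by norm_num)
    have h2 : α * R ≤ α * (b.R1 / 2 ^ 20) := mul_le_mul_of_nonneg_left hR1 hα0
    refine h2.trans ?_
    rw [le_div_iff₀ (by positivity)]
    refine le_trans (le_of_eq ?_) h1
    rw [hα]
    push_cast
    ring
  have hgam := gam_le (al := b.al) (l := l) (x := x) H hSb (by rw [← hα]; exact hxr) hb
  have hgain := gain_le (al := b.al) H hm1
  rw [← hα, ← hl'] at hgam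
  rw [← hα] at hgain
  obtain ⟨y, hy⟩ : ∃ y, y = lm * R := ⟨_, rfl⟩
  have hy1 : y ≤ ((l * b.R1 : ℕ) : ℝ) / 2 ^ 40 := by
    rw [hy]
    refine (mul_le_mul_of_nonneg_left hR1 hl0).trans (le_of_eq ?_)
    rw [hl']
    push_cast
    ring
  have hy0 : ((l * b.R0 : ℕ) : ℝ) / 2 ^ 40 ≤ y := by
    rw [hy]
    refine le_trans (le_of_eq ?_) (mul_le_mul_of_nonneg_left hR0 hl0)
    rw [hl']
    push_cast
    ring
  have hG0 : (0 : ℝ) < (G : ℝ) / 2 ^ 40 := by
    have : (0 : ℝ) < G := by exact_mod_cast hG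
    positivity
  rw [← hl', ← hy] at hFq
  -- y is positive, otherwise the integral vanishes
  have hypos : 0 < y := by
    rcases eq_or_lt_of_le (mul_nonneg hl0 hR.le) with h0 | h0
    · rw [hy, ← h0, intervalIntegral.integral_same, norm_zero, mul_zero] at hFq
      linarith
    · rw [hy]
      exact h0
  have hyR : y ≤ R := by
    rw [hy]
    nlinarith
  have hyst := yst_sound (y0 := l * b.R0) (y1 := l * b.R1) (by rw [← hys]; exact hys1) hypos hy0 hy1
  rw [← hys] at hyst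
  have hlogFy : Real.log ((G : ℝ) / 2 ^ 40 / y) = Real.log ((G : ℝ) / 2 ^ 40) - Real.log y :=
    Real.log_div hG0.ne' hypos.ne'
  have ha0 : 0 ≤ α * R := mul_nonneg hα0 hR.le
  by_cases hmd : b.md = 1
  · have hbq : Nat.beq b.md 1 = true := by rw [hmd]; rfl
    rw [hbq, cond_true] at hc
    simp only [Bool.and_eq_true, Nat.ble_eq] at hc
    obtain ⟨c1, c2, c3, hcore⟩ := hc
    have hcs := core_sound hys1 hG hcore
    rw [hy] at hFq hypos hyR hy1 hy0 hyst hlogFy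
    refine end_ray hC hN (a := α * R) (y := lm * R) (F := (G : ℝ) / 2 ^ 40) ha0 ?_ hypos hyR
      hR21 ?_ ?_ hG0 hFq ?_
    · have h1 : α * R ≤ α * (b.R1 / 2 ^ 20) := mul_le_mul_of_nonneg_left hR1 hα0
      refine h1.trans ?_
      rw [hα]
      have h2 : ((b.al * b.R1 : ℕ) : ℝ) ≤ 428809534832 := by exact_mod_cast c2
      push_cast at h2
      have e : (b.al : ℝ) / 2 ^ 20 * (b.R1 / 2 ^ 20) = (b.al : ℝ) * b.R1 / 2 ^ 40 := by ring
      rw [e, div_le_iff₀ (by positivity)]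
      norm_num
      linarith
    · have h1 : 1 ≤ α + lm := by
        rw [hα, hl', ← add_div, le_div_iff₀ (by positivity)]
        have : ((1048576 : ℕ) : ℝ) ≤ ((b.al + l : ℕ) : ℝ) := by exact_mod_cast c1
        push_cast at this
        linarith
      have := mul_le_mul_of_nonneg_right h1 hR.le
      linarith
    · have h1 : α ≤ 2 * lm := by
        rw [hα, hl', mul_div_assoc', div_le_div_iff_of_pos_right (by positivity)]
        exact_mod_cast c3
      have := mul_le_mul_of_nonneg_right h1 hR.le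
      linarith
    · have hpay : α * R * max 0 (lm * R - 1) ≤
          ((((x * (l * b.R1 - 1099511627776)) >>> 20 + 1 : ℕ) : ℝ) / 2 ^ 40) := by
        have h3 := sub_le_cast (l * b.R1) 1099511627776
        obtain ⟨v, hv⟩ : ∃ v, v = l * b.R1 - 1099511627776 := ⟨_, rfl⟩
        rw [← hv] at h3 ⊢
        have h1 := le_shr (x * v) 20
        rw [Nat.cast_mul] at h1
        have h2 : max 0 (lm * R - 1) ≤ (v : ℝ) / 2 ^ 40 := by
          apply max_le (div_nonneg (Nat.cast_nonneg _) (by norm_num))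
          rw [le_div_iff₀ (by positivity)]
          refine le_trans ?_ h3
          rw [le_div_iff₀ (by positivity)] at hy1
          push_cast at hy1 ⊢
          linarith
        have h4 : α * R * max 0 (lm * R - 1) ≤ (x : ℝ) / 2 ^ 20 * ((v : ℝ) / 2 ^ 40) :=
          mul_le_mul hxr h2 (le_max_left _ _) (div_nonneg (Nat.cast_nonneg _) (by norm_num))
        refine h4.trans ?_
        rw [le_div_iff₀ (by positivity)]
        refine le_trans (le_of_eq ?_) h1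
        field_simp
      rw [hlogFy]
      push_cast at hcs hgam hgain hpay
      rw [add_div, add_div, add_div, add_div] at hcs
      norm_num at hcs hgam hgain hpay ⊢
      linarith
  · have hbq : Nat.beq b.md 1 = false := by
      rw [Bool.eq_false_iff, ne_eq, Nat.beq_eq]
      exact hmd
    rw [hbq, cond_false] at hc
    simp only [Bool.and_eq_true, Nat.ble_eq] at hc
    obtain ⟨c1, c2, c3, c4, c5, hcore⟩ := hc
    have hcs := core_sound hys1 hG hcore
    have hlt : l < 1048576 := by omega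
    have hlr : ((1048576 - l : ℕ) : ℝ) / 2 ^ 20 = 1 - lm := by
      rw [Nat.cast_sub hl, hl']
      norm_num
      ring
    obtain ⟨sg, hsg⟩ : ∃ sg, sg = 1048576 - l := ⟨_, rfl⟩
    rw [← hsg] at c1 c3 c5 hlr
    have hsr : R - y = (sg : ℝ) / 2 ^ 20 * R := by
      rw [hlr, hy]
      ring
    have hsg0 : (0 : ℝ) < (sg : ℝ) / 2 ^ 20 := by
      have : (0 : ℝ) < sg := by exact_mod_cast c1
      positivity
    have hs0 : 0 < R - y := by
      rw [hsr]
      exact mul_pos hsg0 hR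
    refine end_cert hC hN (a := α * R) (y := y) (F := (G : ℝ) / 2 ^ 40) ha0 ?_ hypos
      (by linarith) ?_ ?_ ?_ hG0 hFq ?_
    · have h1 : α * R ≤ α * (b.R1 / 2 ^ 20) := mul_le_mul_of_nonneg_left hR1 hα0
      refine h1.trans ?_
      rw [hα]
      have h2 : ((b.al * b.R1 : ℕ) : ℝ) ≤ 318858372055 := by exact_mod_cast c2
      push_cast at h2
      have e : (b.al : ℝ) / 2 ^ 20 * (b.R1 / 2 ^ 20) = (b.al : ℝ) * b.R1 / 2 ^ 40 := by ring
      rw [e, div_le_iff₀ (by positivity)]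
      norm_num
      linarith
    · refine hR1.trans ?_
      rw [div_le_iff₀ (by positivity)]
      have : (b.R1 : ℝ) ≤ 2097152 := by exact_mod_cast c4
      linarith
    · rw [hsr]
      have h1 : (sg : ℝ) / 2 ^ 20 * R ≤ (sg : ℝ) / 2 ^ 20 * (b.R1 / 2 ^ 20) :=
        mul_le_mul_of_nonneg_left hR1 hsg0.le
      refine h1.trans ?_
      have h2 : ((sg * b.R1 : ℕ) : ℝ) ≤ 274877906944 := by exact_mod_cast c3
      push_cast at h2
      have e : (sg : ℝ) / 2 ^ 20 * (b.R1 / 2 ^ 20) = (sg : ℝ) * b.R1 / 2 ^ 40 := by ring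
      rw [e, div_le_iff₀ (by positivity)]
      norm_num
      linarith
    · obtain ⟨s1, hs1⟩ : ∃ s1, s1 = sg * b.R1 / 1048576 + 1 := ⟨_, rfl⟩
      obtain ⟨A1, hA1⟩ : ∃ A1, A1 = 1048576 + x := ⟨_, rfl⟩
      rw [← hs1, ← hA1] at c5
      obtain ⟨s, hs⟩ : ∃ s, s = R - y := ⟨_, rfl⟩
      rw [← hs] at hsr hs0 ⊢
      obtain ⟨A, hA⟩ : ∃ A, A = (A1 : ℝ) / 2 ^ 20 := ⟨_, rfl⟩
      obtain ⟨q, hq⟩ : ∃ q, q = (s1 : ℝ) / 2 ^ 20 := ⟨_, rfl⟩
      obtain ⟨τ, hτ⟩ : ∃ τ, τ = (sg : ℝ) / 2 ^ 20 := ⟨_, rfl⟩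
      obtain ⟨a, ha⟩ : ∃ a, a = α * R := ⟨_, rfl⟩
      rw [← ha] at hxr ha0 ⊢
      rw [← hτ] at hsr hsg0
      have hAa : 1 + a ≤ A := by
        rw [hA, hA1]
        push_cast
        rw [add_div]
        norm_num
        norm_num at hxr
        linarith
      have hqs : s ≤ q := by
        rw [hq, hs1, hsr]
        have h1 := real_le_div (sg * b.R1) 1048576 (by norm_num)
        have h2 : τ * R ≤ τ * (b.R1 / 2 ^ 20) := mul_le_mul_of_nonneg_left hR1 hsg0.le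
        refine h2.trans ?_
        rw [le_div_iff₀ (by positivity)]
        refine le_trans (le_of_eq ?_) h1
        rw [hτ]
        push_cast
        ring
      have hA0 : 0 < A := by linarith
      have hq0 : 0 ≤ q := hs0.le.trans hqs
      have h5 : (1 + (A * q) ^ 2) * (A ^ 3 * τ ^ 2) ≤ α ^ 2 + 2 * A * α * τ := by
        have h6 : (((1208925819614629174706176 + (A1 * s1) * (A1 * s1)) *
            (A1 * A1 * A1 * (sg * sg)) : ℕ) : ℝ) ≤
            (((b.al * b.al * 1048576 + 2 * A1 * b.al * sg) *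
              1329227995784915872903807060280344576 : ℕ) : ℝ) := by exact_mod_cast c5
        push_cast at h6
        have e1 : (1 + (A * q) ^ 2) * (A ^ 3 * τ ^ 2) =
            (1208925819614629174706176 + (A1 * s1 : ℝ) * (A1 * s1)) *
            ((A1 : ℝ) * A1 * A1 * (sg * sg)) / 2 ^ 180 := by
          rw [hA, hq, hτ]
          norm_num
          ring
        have e2 : α ^ 2 + 2 * A * α * τ =
            ((b.al : ℝ) * b.al * 1048576 + 2 * A1 * b.al * sg) *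
              1329227995784915872903807060280344576 / 2 ^ 180 := by
          rw [hA, hα, hτ]
          norm_num
          ring
        rw [e1, e2]
        exact div_le_div_of_nonneg_right h6 (by positivity)
      have h7 : (1 + (A * q) ^ 2) * (A ^ 3 * s ^ 2) ≤ a ^ 2 + 2 * A * a * s := by
        have := mul_le_mul_of_nonneg_right h5 (sq_nonneg R)
        rw [hsr, ha]
        linarith
      have h1a : 0 < 1 + a := by linarith
      have h8 : (1 + a) ^ 2 * s ^ 2 ≤ (A * q) ^ 2 := by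
        rw [← mul_pow]
        exact pow_le_pow_left₀ (by positivity) (mul_le_mul hAa hqs hs0.le hA0.le) 2
      have h9 : (1 / 2 + (1 + a) ^ 2 * s ^ 2 / 2) * (1 + a) ^ 2 * s ^ 2 ≤
          (1 + (A * q) ^ 2) * (A ^ 2 * s ^ 2) / 2 := by
        have h10 : (1 + a) ^ 2 ≤ A ^ 2 := pow_le_pow_left₀ h1a.le hAa 2
        have h11 : (1 + a) ^ 2 * s ^ 2 ≤ A ^ 2 * s ^ 2 :=
          mul_le_mul_of_nonneg_right h10 (sq_nonneg s)
        have h12 : (1 / 2 + (1 + a) ^ 2 * s ^ 2 / 2) * ((1 + a) ^ 2 * s ^ 2) ≤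
            ((1 + (A * q) ^ 2) / 2) * (A ^ 2 * s ^ 2) := by
          apply mul_le_mul _ h11 (by positivity) (by positivity)
          linarith
        linarith
      refine h9.trans ?_
      have h13 : (1 + (A * q) ^ 2) * (A ^ 2 * s ^ 2) / 2 ≤ a ^ 2 / (2 * A) + a * s := by
        have e : (1 + (A * q) ^ 2) * (A ^ 3 * s ^ 2) =
            A * ((1 + (A * q) ^ 2) * (A ^ 2 * s ^ 2)) := by ring
        rw [e] at h7
        have e2 : a ^ 2 / (2 * A) + a * s = (a ^ 2 + 2 * A * a * s) / (2 * A) := by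
          field_simp
        rw [e2, le_div_iff₀ (by positivity)]
        linarith
      refine h13.trans ?_
      have h14 : a ^ 2 / (2 * A) ≤ a ^ 2 / (2 * (1 + a)) := by
        apply div_le_div_of_nonneg_left (by positivity) (by positivity)
        linarith
      linarith
    · rw [hlogFy]
      rw [← hy] at hgam
      push_cast at hcs hgam hgain
      rw [add_div, add_div, add_div] at hcs
      norm_num at hcs hgam hgain ⊢
      linarith

theorem endB_sound (hC : Cfg2 N z w R σ) (hN : 40 ≤ N) (hR21 : R ≤ 21 / 10)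
    (H : Hyp N (uu w) R f b.R0 b.R1 b.f0 b.f1 b.Sa)
    (hnear : 1 / 4 < ‖(R : ℂ) - conj (av (uu w))‖) {l G : ℕ} (hG : 1 ≤ G)
    (hFq : (G : ℝ) / 2 ^ 40 ≤
      ((N : ℝ) + 1) * ‖∫ x in (0 : ℝ)..((l : ℝ) / 2 ^ 20 * R), qq (uu w) x‖)
    (hc : endB b l G = true) : False := by
  unfold endB at hc
  simp only [ev_eq, Bool.and_eq_true, Nat.ble_eq, Nat.beq_eq] at hc
  obtain ⟨hl, c1, c2, c3, c4, hys1, hcore⟩ := hc
  subst hl
  obtain ⟨c, hcd⟩ : ∃ c, c = b.al * b.al / 2 + (b.al * b.al * (b.al * b.al * 1099511627776 +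
    b.al * b.al * (b.al * b.al))) >>> 82 + 2 := ⟨_, rfl⟩
  rw [← hcd] at c4 hcore
  obtain ⟨Nl, hNl⟩ : ∃ Nl, Nl = b.Sa * 1048576 / (b.R1 * b.R1) := ⟨_, rfl⟩
  rw [← hNl] at hcore
  obtain ⟨ys, hys⟩ : ∃ ys, ys = yst (1048576 * b.R0) (1048576 * b.R1) := ⟨_, rfl⟩
  rw [← hys] at hcore hys1
  have hcs := core_sound hys1 hG hcore
  have hR := H.hR
  have hR1 := H.hR1
  have hR0 := H.hR0
  obtain ⟨a, ha⟩ : ∃ a, a = (b.al : ℝ) / 2 ^ 20 := ⟨_, rfl⟩
  obtain ⟨μ, hμ⟩ : ∃ μ, μ = (b.mu : ℝ) / 2 ^ 20 := ⟨_, rfl⟩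
  have ha0 : 0 ≤ a := by rw [ha]; positivity
  have hμ0 : 0 ≤ μ := by rw [hμ]; positivity
  have e20 : (((1048576 : ℕ) : ℝ) / 2 ^ 20) = 1 := by norm_num
  rw [e20, one_mul] at hFq
  have hG0 : (0 : ℝ) < (G : ℝ) / 2 ^ 40 := by
    have : (0 : ℝ) < G := by exact_mod_cast hG
    positivity
  have hy1 : R ≤ ((1048576 * b.R1 : ℕ) : ℝ) / 2 ^ 40 := by
    refine hR1.trans (le_of_eq ?_)
    push_cast
    ring
  have hy0 : ((1048576 * b.R0 : ℕ) : ℝ) / 2 ^ 40 ≤ R := by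
    refine le_trans (le_of_eq ?_) hR0
    push_cast
    ring
  have hyst := yst_sound (by rw [← hys]; exact hys1) hR hy0 hy1
  rw [← hys] at hyst
  -- μ
  have hmu : μ ≤ (av (uu w)).im := by
    obtain ⟨d, hd⟩ : ∃ d, d = Nat.max (b.R1 * (1048576 - b.f0) / 1048576 + 1)
      (b.R1 * (b.f1 - 1048576) / 1048576 + 1) := ⟨_, rfl⟩
    rw [← hd] at c3
    have hdr : |R - (av (uu w)).re| ≤ (d : ℝ) / 2 ^ 20 := by
      rw [H.hf, abs_le]
      have k1 : ((b.R1 * (1048576 - b.f0) / 1048576 + 1 : ℕ) : ℝ) ≤ d := by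
        rw [hd]
        exact_mod_cast Nat.le_max_left _ _
      have k2 : ((b.R1 * (b.f1 - 1048576) / 1048576 + 1 : ℕ) : ℝ) ≤ d := by
        rw [hd]
        exact_mod_cast Nat.le_max_right _ _
      have k3 := real_le_div (b.R1 * (1048576 - b.f0)) 1048576 (by norm_num)
      have k4 := real_le_div (b.R1 * (b.f1 - 1048576)) 1048576 (by norm_num)
      have k5 := sub_le_cast 1048576 b.f0
      have k6 := sub_le_cast b.f1 1048576
      have hf0 := H.hf0
      have hf1 := H.hf1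
      rw [div_le_iff₀ (by positivity)] at hf0
      rw [le_div_iff₀ (by positivity)] at hf1
      constructor
      · have g1 : (f - 1) * 2 ^ 20 ≤ ((b.f1 - 1048576 : ℕ) : ℝ) := by
          push_cast at k6
          linarith
        have g2 : R * ((f - 1) * 2 ^ 20) ≤ (b.R1 : ℝ) / 2 ^ 20 * ((b.f1 - 1048576 : ℕ) : ℝ) := by
          refine (mul_le_mul_of_nonneg_left g1 hR.le).trans ?_
          exact mul_le_mul_of_nonneg_right hR1 (Nat.cast_nonneg _)
        have g3 : (b.R1 : ℝ) / 2 ^ 20 * ((b.f1 - 1048576 : ℕ) : ℝ) ≤ d := by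
          refine le_trans ?_ (k4.trans k2)
          rw [Nat.cast_mul]
          refine le_of_eq ?_
          push_cast
          ring
        rw [neg_le, le_div_iff₀ (by positivity)]
        linarith
      · have g1 : (1 - f) * 2 ^ 20 ≤ ((1048576 - b.f0 : ℕ) : ℝ) := by
          push_cast at k5
          linarith
        have g2 : R * ((1 - f) * 2 ^ 20) ≤ (b.R1 : ℝ) / 2 ^ 20 * ((1048576 - b.f0 : ℕ) : ℝ) := by
          refine (mul_le_mul_of_nonneg_left g1 hR.le).trans ?_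
          exact mul_le_mul_of_nonneg_right hR1 (Nat.cast_nonneg _)
        have g3 : (b.R1 : ℝ) / 2 ^ 20 * ((1048576 - b.f0 : ℕ) : ℝ) ≤ d := by
          refine le_trans ?_ (k3.trans k1)
          rw [Nat.cast_mul]
          refine le_of_eq ?_
          push_cast
          ring
        rw [le_div_iff₀ (by positivity)]
        linarith
    have hsum : ((d : ℝ) / 2 ^ 20) ^ 2 + μ ^ 2 ≤ 1 / 16 := by
      have : (((d * d + b.mu * b.mu : ℕ)) : ℝ) ≤ 68719476736 := by exact_mod_cast c3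
      push_cast at this
      have e : ((d : ℝ) / 2 ^ 20) ^ 2 + μ ^ 2 = ((d : ℝ) * d + b.mu * b.mu) / 2 ^ 40 := by
        rw [hμ]
        ring
      rw [e, div_le_iff₀ (by positivity)]
      norm_num
      linarith
    have hsq : (R - (av (uu w)).re) ^ 2 ≤ ((d : ℝ) / 2 ^ 20) ^ 2 := by
      rw [← sq_abs]
      exact pow_le_pow_left₀ (abs_nonneg _) hdr 2
    have hnn : ‖(R : ℂ) - conj (av (uu w))‖ ^ 2 = (R - (av (uu w)).re) ^ 2 +
        (av (uu w)).im ^ 2 := by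
      rw [norm_sq_re_im]
      simp only [Complex.sub_re, Complex.sub_im, Complex.ofReal_re, Complex.ofReal_im,
        Complex.conj_re, Complex.conj_im]
      ring
    have hn2 : (1 / 4 : ℝ) ^ 2 < ‖(R : ℂ) - conj (av (uu w))‖ ^ 2 :=
      pow_lt_pow_left₀ hnear (by norm_num) two_ne_zero
    rw [hnn] at hn2
    have him := hC.him
    have : μ ^ 2 ≤ (av (uu w)).im ^ 2 := by linarith
    exact (abs_le_of_sq_le_sq' this him).2
  refine end_tilt hC hN (a := a) (μ := μ) (F := (G : ℝ) / 2 ^ 40) ha0 ?_ hR21 ?_ hmu hG0 hFq ?_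
  · rw [ha, div_le_iff₀ (by positivity)]
    have : (b.al : ℝ) ≤ 408944 := by exact_mod_cast c1
    norm_num
    linarith
  · have h1 : a ≤ 2 * ((b.R0 : ℝ) / 2 ^ 20) := by
      rw [ha, mul_div_assoc', div_le_div_iff_of_pos_right (by positivity)]
      exact_mod_cast c2
    linarith
  · have hlogFy : Real.log ((G : ℝ) / 2 ^ 40 / R) = Real.log ((G : ℝ) / 2 ^ 40) - Real.log R :=
      Real.log_div hG0.ne' hR.ne'
    rw [hlogFy]
    have hcr : a ^ 2 / 2 + a ^ 4 / 4 + a ^ 6 / 4 ≤ (c : ℝ) / 2 ^ 40 := by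
      have h1 := le_shr (b.al * b.al * (b.al * b.al * 1099511627776 +
        b.al * b.al * (b.al * b.al))) 82
      have h2 := real_le_div (b.al * b.al) 2 (by norm_num)
      rw [hcd]
      rw [le_div_iff₀ (by positivity)]
      have e1 : (a ^ 2 / 2 + a ^ 4 / 4 + a ^ 6 / 4) * 2 ^ 40 =
          ((b.al * b.al : ℕ) : ℝ) / ((2 : ℕ) : ℝ) + ((b.al * b.al * (b.al * b.al * 1099511627776 +
        b.al * b.al * (b.al * b.al)) : ℕ) : ℝ) / 2 ^ 82 := by
        rw [ha]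
        push_cast
        ring
      rw [e1]
      refine (add_le_add h2 h1).trans (le_of_eq ?_)
      push_cast
      ring
    have hgr : 0 ≤ a * μ - (c : ℝ) / 2 ^ 40 := by
      have : (c : ℝ) ≤ ((b.al * b.mu : ℕ) : ℝ) := by exact_mod_cast c4
      rw [sub_nonneg, div_le_iff₀ (by positivity)]
      refine this.trans (le_of_eq ?_)
      rw [ha, hμ]
      push_cast
      ring
    have hNN : (Nl : ℝ) ≤ N := by
      rcases Nat.eq_zero_or_pos b.R1 with h0 | h0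
      · rw [hNl, h0, mul_zero, Nat.div_zero, Nat.cast_zero]
        exact Nat.cast_nonneg N
      · have h1 := div_le_real (b.Sa * 1048576) (b.R1 * b.R1)
        rw [← hNl] at h1
        refine h1.trans ?_
        have hr : (0 : ℝ) < b.R1 := by exact_mod_cast h0
        have h2 := H.hS
        rw [Nat.cast_mul b.R1 b.R1, div_le_iff₀ (by positivity)]
        have h3 : N * R ^ 2 ≤ N * ((b.R1 : ℝ) / 2 ^ 20) ^ 2 := by
          apply mul_le_mul_of_nonneg_left _ (Nat.cast_nonneg N)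
          exact pow_le_pow_left₀ hR.le hR1 2
        have h4 := h2.trans h3
        rw [div_le_iff₀ (by positivity)] at h4
        push_cast
        have e : (N : ℝ) * ((b.R1 : ℝ) / 2 ^ 20) ^ 2 * 2 ^ 20 * 1048576 = N * (b.R1 * b.R1) := by
          norm_num
          ring
        linarith
    have hgg : (Nl : ℝ) * (a * μ - (c : ℝ) / 2 ^ 40) ≤
        N * (a * μ - (a ^ 2 / 2 + a ^ 4 / 4 + a ^ 6 / 4)) := by
      refine (mul_le_mul_of_nonneg_right hNN hgr).trans ?_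
      apply mul_le_mul_of_nonneg_left _ (Nat.cast_nonneg N)
      linarith
    have hpay : a * max 0 (R - 1) ≤ (((b.al * (b.R1 - 1048576)) + 1 : ℕ) : ℝ) / 2 ^ 40 := by
      have h3 := sub_le_cast b.R1 1048576
      obtain ⟨v, hv⟩ : ∃ v, v = b.R1 - 1048576 := ⟨_, rfl⟩
      rw [← hv] at h3 ⊢
      have h1 : max 0 (R - 1) ≤ (v : ℝ) / 2 ^ 20 := by
        apply max_le (div_nonneg (Nat.cast_nonneg _) (by norm_num))
        rw [le_div_iff₀ (by positivity)]
        refine le_trans ?_ h3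
        rw [le_div_iff₀ (by positivity)] at hR1
        push_cast
        linarith
      have h2 := mul_le_mul_of_nonneg_left h1 ha0
      refine h2.trans ?_
      rw [ha, Nat.cast_add, Nat.cast_mul]
      rw [div_mul_div_comm, ← pow_add]
      apply div_le_div_of_nonneg_right _ (by positivity)
      push_cast
      linarith
    have hcast : (((ys + Nl * (b.al * b.mu - c) : ℕ)) : ℝ) / 2 ^ 40 =
        (ys : ℝ) / 2 ^ 40 + Nl * (a * μ - (c : ℝ) / 2 ^ 40) := by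
      rw [Nat.cast_add, Nat.cast_mul, Nat.cast_sub c4, ha, hμ]
      push_cast
      ring
    rw [hcast] at hcs
    rw [Nat.cast_add, add_div] at hcs
    have e1 : (((1099511627776 : ℕ) : ℝ) / 2 ^ 40) = 1 := by norm_num
    rw [e1] at hcs
    linarith

end

end Pool.Agent.Lib.MP_af3a4a_an.P1.CHK.H58.S
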