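import Pool.Agent.Lib.MP_af3a4a_an.P1.CHK.H58.GT
import Pool.Agent.Lib.MP_af3a4a_an.P1.CHK.H58.SH

/-!
# The general checker: the two functionals and the end tests (helper58)
-/

set_option autoImplicit false

namespace Pool.Agent.Lib.MP_af3a4a_an.P1.CHK.H58.G

open Finset MeasureTheory ComplexConjugate
open Pool.Agent.Lib.MP_af3a4a_an.SV (uu av)
open Pool.Agent.Lib.MP_af3a4a_an.P1.H80
open Pool.Agent.Lib.MP_af3a4a_an.P1.H74
open Pool.Agent.Lib.MP_af3a4a_an.P1.H81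
open Pool.Agent.Lib.MP_af3a4a_an.P1.CHK.Arith
open Pool.Agent.Lib.MP_af3a4a_an.P1.CHK.H58 (end_cert)
open Pool.Agent.Lib.MP_af3a4a_an.P1.CHK.H58.M (kM kM_nonneg kM_cont massM)
open Pool.Agent.Lib.MP_af3a4a_an.P1.CHK.H58.S (core yst core_sound yst_sound)

theorem int_mono {N : ℕ} {u : Fin N → ℂ} {kp ω : ℝ → ℝ} {Y y b : ℝ}
    (hkp : ContinuousOn kp (Set.Icc 0 Y)) (hω : Continuous ω)
    (hnn : ∀ x ∈ Set.Icc (0 : ℝ) Y, 0 ≤ ω x * kp x) (hy0 : 0 ≤ y) (hyb : y ≤ b) (hbY : b ≤ Y) :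
    ∫ x in (0 : ℝ)..y, ω x * kp x * ‖qq u x‖ ≤ ∫ x in (0 : ℝ)..b, ω x * kp x * ‖qq u x‖ := by
  have hc : ∀ c d : ℝ, 0 ≤ c → c ≤ d → d ≤ Y →
      IntervalIntegrable (fun x => ω x * kp x * ‖qq u x‖) volume c d := by
    intro c d hc0 hcd hdY
    apply ContinuousOn.intervalIntegrable
    rw [Set.uIcc_of_le hcd]
    exact ((hω.continuousOn.mul (hkp.mono fun x hx => ⟨hc0.trans hx.1, hx.2.trans hdY⟩)).mul
      (qq_cont u).norm.continuousOn)
  rw [← intervalIntegral.integral_add_adjacent_intervals (hc 0 y le_rfl hy0 (hyb.trans hbY))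
    (hc y b hy0 hyb hbY)]
  have : 0 ≤ ∫ x in y..b, ω x * kp x * ‖qq u x‖ := by
    apply intervalIntegral.integral_nonneg hyb
    intro x hx
    exact mul_nonneg (hnn x ⟨hy0.trans hx.1, hx.2.trans hbY⟩) (norm_nonneg _)
  linarith

/-- the value of the functional MASS (kept separate: a cheap kernel check) -/
theorem gain_false (g : Gr) (Sm rho th T U V : ℕ) : gain g false Sm rho th T U V =
    (1099511627776 - (T + U + (th * V / g.Ba + 1))) * 1048576 /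
      (rho + (th * Sm * 1024 / (g.r0 * g.Ba) + 1)) := by
  unfold gain
  rw [cond_false, ev_eq]

/-- the value of the functional S0Q (kept separate: a cheap kernel check) -/
theorem gain_true (g : Gr) (Sm rho th T U V : ℕ) : gain g true Sm rho th T U V =
    bif Nat.ble (2 * (V * rho)) (((1099511627776 - T - V) * 1048576 / rho +
      V * rho / 1048576) * 1048576) then
      (1099511627776 - T - V) * 1048576 / rho + V * rho / 1048576
    else isqL (4 * (V * (1099511627776 - T - V))) := by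
  unfold gain
  rw [cond_true, ev_eq, ev_eq]

section

variable {N : ℕ} {u : Fin N → ℂ} {β ρ : ℝ}
/-- the functional MASS -/
theorem gain_M {g : Gr} (hN : 1 ≤ N) (hu : ∀ k, ‖u k‖ ≤ 1) (hβa : (g.Ba : ℝ) / 2 ^ 10 ≤ β)
    (hBa : 1 ≤ g.Ba) (hr00 : 1 ≤ g.r0) (hr0 : (g.r0 : ℝ) / 2 ^ 10 ≤ ρ)
    {Y y : ℝ} (hY : Y < 1) {th sc s T T' U V Sm rho : ℕ}
    (hS : ρ * SV.sq u ≤ (Sm : ℝ) / 2 ^ 20) (hr : ‖av u‖ ≤ (rho : ℝ) / 2 ^ 20) (hr1 : 1 ≤ rho)
    (hI : Inv N u β (kM u) th sc s T' U V) (hy0 : 0 ≤ y) (hys : y ≤ (s : ℝ) / 2 ^ 10 / β)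
    (hsY : (s : ℝ) / 2 ^ 10 / β ≤ Y) (hqy : ‖qq u y‖ ≤ (T : ℝ) / 2 ^ 40) :
    (gain g false Sm rho th T U V : ℝ) / 2 ^ 40 ≤
      ((N : ℝ) + 1) * ‖∫ x in (0 : ℝ)..y, qq u x‖ := by
  have hNpos : (0 : ℝ) < N := by exact_mod_cast (show 0 < N by omega)
  have hBar : (0 : ℝ) < g.Ba := by exact_mod_cast hBa
  have hr0r : (0 : ℝ) < g.r0 := by exact_mod_cast hr00
  have hβ : 0 < β := lt_of_lt_of_le (by positivity) hβa
  have hρ : 0 < ρ := lt_of_lt_of_le (by positivity) hr0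
  have hkc : ContinuousOn (kM u) (Set.Icc 0 Y) := kM_cont hu hY
  obtain ⟨t, htd⟩ : ∃ t, t = (th : ℝ) / 2 ^ 10 / β := ⟨_, rfl⟩
  have ht0 : 0 ≤ t := by rw [htd]; positivity
  have hU : (N : ℝ) * ∫ x in (0 : ℝ)..y, |x - t| * kM u x * ‖qq u x‖ ≤ (U : ℝ) / 2 ^ 40 := by
    have h1 := int_mono (u := u) (ω := fun x => |x - t|) hkc (by fun_prop)
      (fun x _ => mul_nonneg (abs_nonneg _) (kM_nonneg u x)) hy0 hys hsY
    have h2 := hI.hU
    rw [← htd] at h2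
    exact (mul_le_mul_of_nonneg_left h1 hNpos.le).trans h2
  have hV : (N : ℝ) * ∫ x in (0 : ℝ)..y, x * kM u x * ‖qq u x‖ ≤ (V : ℝ) / 2 ^ 40 := by
    have h1 := int_mono (u := u) (ω := fun x => x) hkc (by fun_prop)
      (fun x hx => mul_nonneg hx.1 (kM_nonneg u x)) hy0 hys hsY
    exact (mul_le_mul_of_nonneg_left h1 hNpos.le).trans hI.hV
  have hy1 : y < 1 := lt_of_le_of_lt (hys.trans hsY) hY
  have hsq : SV.sq u ≤ (Sm : ℝ) / 2 ^ 20 / ρ := by
    rw [le_div_iff₀ hρ, mul_comm]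
    exact hS
  have hmass := massM hN hu ht0 hy0 hy1 ((qq_cont u).norm.continuousOn) (fun x _ => le_rfl) hqy hsq
  obtain ⟨I1, hI1⟩ : ∃ I1, I1 = ∫ x in (0 : ℝ)..y, |x - t| * kM u x * ‖qq u x‖ := ⟨_, rfl⟩
  obtain ⟨I2, hI2⟩ : ∃ I2, I2 = ∫ x in (0 : ℝ)..y, x * kM u x * ‖qq u x‖ := ⟨_, rfl⟩
  obtain ⟨J, hJ⟩ : ∃ J, J = ‖∫ x in (0 : ℝ)..y, qq u x‖ := ⟨_, rfl⟩
  rw [← hI1] at hU
  rw [← hI2] at hV
  rw [← hI1, ← hI2, ← hJ] at hmass
  rw [← hJ]
  have hJ0 : 0 ≤ J := by rw [hJ]; exact norm_nonneg _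
  have hI20 : 0 ≤ I2 := by
    rw [hI2]
    apply intervalIntegral.integral_nonneg hy0
    intro x hx
    exact mul_nonneg (mul_nonneg hx.1 (kM_nonneg u x)) (norm_nonneg _)
  have htB : t ≤ (th : ℝ) / g.Ba := by
    rw [htd]
    refine (div_le_div_of_nonneg_left (by positivity) (by positivity) hβa).trans (le_of_eq ?_)
    field_simp
  rw [gain_false]
  obtain ⟨X, hX⟩ : ∃ X, X = th * V / g.Ba + 1 := ⟨_, rfl⟩
  obtain ⟨D, hD⟩ : ∃ D, D = rho + (th * Sm * 1024 / (g.r0 * g.Ba) + 1) := ⟨_, rfl⟩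
  obtain ⟨L, hL⟩ : ∃ L, L = T + U + X := ⟨_, rfl⟩
  rw [← hX, ← hD, ← hL]
  have hXb : t * (N * I2) ≤ (X : ℝ) / 2 ^ 40 := by
    have h1 : t * (N * I2) ≤ (th : ℝ) / g.Ba * ((V : ℝ) / 2 ^ 40) :=
      mul_le_mul htB hV (by positivity) (by positivity)
    refine h1.trans ?_
    have h2 := real_le_div (th * V) g.Ba hBa
    rw [← hX] at h2
    refine le_trans (le_of_eq ?_) (div_le_div_of_nonneg_right h2 (by positivity))
    push_cast
    ring
  rcases le_total 1099511627776 L with h | h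
  · rw [Nat.sub_eq_zero_of_le h, zero_mul, Nat.zero_div, Nat.cast_zero, zero_div]
    positivity
  obtain ⟨W, hW⟩ : ∃ W, W = 1099511627776 - L := ⟨_, rfl⟩
  rw [← hW]
  have hWr : (W : ℝ) / 2 ^ 40 ≤ N * (J * (‖av u‖ + t * ((Sm : ℝ) / 2 ^ 20 / ρ))) := by
    refine le_trans ?_ hmass
    have e1 : (W : ℝ) = 1099511627776 - L := by
      rw [hW, Nat.cast_sub h]
      norm_num
    have e2 : (L : ℝ) = T + U + X := by
      rw [hL]
      push_cast
      ring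
    have e3 : (W : ℝ) / 2 ^ 40 = 1 - (T : ℝ) / 2 ^ 40 - (U : ℝ) / 2 ^ 40 -
        (X : ℝ) / 2 ^ 40 := by
      rw [e1, e2]
      ring
    rw [e3]
    have e4 : (N : ℝ) * (I1 + t * I2) = N * I1 + t * (N * I2) := by ring
    rw [e4]
    linarith
  have hDr : ‖av u‖ + t * ((Sm : ℝ) / 2 ^ 20 / ρ) ≤ (D : ℝ) / 2 ^ 20 := by
    have h3 : t * ((Sm : ℝ) / 2 ^ 20 / ρ) ≤ (th : ℝ) / g.Ba * ((Sm : ℝ) / 2 ^ 20 /
        ((g.r0 : ℝ) / 2 ^ 10)) := by
      apply mul_le_mul htB _ (by positivity) (by positivity)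
      exact div_le_div_of_nonneg_left (by positivity) (by positivity) hr0
    have h4 := real_le_div (th * Sm * 1024) (g.r0 * g.Ba) (Nat.mul_pos hr00 hBa)
    have h5 : (th : ℝ) / g.Ba * ((Sm : ℝ) / 2 ^ 20 / ((g.r0 : ℝ) / 2 ^ 10)) ≤
        ((th * Sm * 1024 / (g.r0 * g.Ba) + 1 : ℕ) : ℝ) / 2 ^ 20 := by
      rw [le_div_iff₀ (by positivity)]
      refine le_trans (le_of_eq ?_) h4
      push_cast
      field_simp
      norm_num
    have e1 : (D : ℝ) = rho + ((th * Sm * 1024 / (g.r0 * g.Ba) + 1 : ℕ) : ℝ) := by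
      rw [hD]
      exact Nat.cast_add _ _
    rw [e1, add_div (rho : ℝ)]
    linarith
  have hDpos : 0 < D := by
    rw [hD]
    exact Nat.lt_of_lt_of_le hr1 (Nat.le_add_right _ _)
  have hDr0 : (0 : ℝ) < D := by exact_mod_cast hDpos
  have h6 := div_le_real (W * 1048576) D
  have h7 : ((W * 1048576 / D : ℕ) : ℝ) / 2 ^ 40 * ((D : ℝ) / 2 ^ 20) ≤ (W : ℝ) / 2 ^ 40 := by
    have h8 : ((W * 1048576 / D : ℕ) : ℝ) * D ≤ W * 1048576 := by
      rw [le_div_iff₀ hDr0] at h6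
      exact_mod_cast h6
    have h9 := div_le_div_of_nonneg_right h8 (by positivity : (0 : ℝ) ≤ 2 ^ 60)
    have e1 : ((W * 1048576 / D : ℕ) : ℝ) / 2 ^ 40 * ((D : ℝ) / 2 ^ 20) =
        ((W * 1048576 / D : ℕ) : ℝ) * D / 2 ^ 60 := by ring
    have e2 : (W : ℝ) * 1048576 / 2 ^ 60 = (W : ℝ) / 2 ^ 40 := by ring
    rw [e1, ← e2]
    exact h9
  have h9 : N * (J * (‖av u‖ + t * ((Sm : ℝ) / 2 ^ 20 / ρ))) ≤ (N * J) * ((D : ℝ) / 2 ^ 20) := by
    rw [← mul_assoc]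
    exact mul_le_mul_of_nonneg_left hDr (by positivity)
  have h10 : ((W * 1048576 / D : ℕ) : ℝ) / 2 ^ 40 ≤ N * J := by
    have hp : (0 : ℝ) < (D : ℝ) / 2 ^ 20 := by positivity
    exact le_of_mul_le_mul_right (h7.trans (hWr.trans h9)) hp
  have h11 : N * J ≤ ((N : ℝ) + 1) * J := mul_le_mul_of_nonneg_right (by linarith) hJ0
  linarith
/-- the functional S0Q -/
theorem gain_Q {g : Gr} (hN : 1 ≤ N) (hu : ∀ k, ‖u k‖ ≤ 1) {Y y : ℝ} (hY : Y < 1)
    {th sc s T T' U V Sm rho : ℕ}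
    (hr : ‖av u‖ ≤ (rho : ℝ) / 2 ^ 20) (hr1 : 1 ≤ rho)
    (hI : Inv N u β (fun x => 1 / dn (av u) x) th sc s T' U V) (hy0 : 0 ≤ y)
    (hys : y ≤ (s : ℝ) / 2 ^ 10 / β)
    (hsY : (s : ℝ) / 2 ^ 10 / β ≤ Y) (hqy : ‖qq u y‖ ≤ (T : ℝ) / 2 ^ 40)
    (hym : ‖1 - (y : ℂ) * av u‖ ≤ 1) :
    (gain g true Sm rho th T U V : ℝ) / 2 ^ 40 ≤
      ((N : ℝ) + 1) * ‖∫ x in (0 : ℝ)..y, qq u x‖ := by
  have hNpos : (0 : ℝ) < N := by exact_mod_cast (show 0 < N by omega)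
  have hm := av_norm_le hN hu
  have hkc : ContinuousOn (fun x => 1 / dn (av u) x) (Set.Icc 0 Y) := by
    apply ContinuousOn.div continuousOn_const
    · unfold dn
      fun_prop
    · intro x hx
      exact (dn_pos hm hx.1 (lt_of_le_of_lt hx.2 hY)).ne'
  have hy1 : y < 1 := lt_of_le_of_lt (hys.trans hsY) hY
  have hV : (N : ℝ) * ∫ x in (0 : ℝ)..y, x * (1 / dn (av u) x) * ‖qq u x‖ ≤ (V : ℝ) / 2 ^ 40 := by
    have h1 := int_mono (u := u) (ω := fun x => x) hkc (by fun_prop)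
      (fun x hx => mul_nonneg hx.1 (one_div_nonneg.2
        (dn_pos hm hx.1 (lt_of_le_of_lt hx.2 hY)).le)) hy0 hys hsY
    exact (mul_le_mul_of_nonneg_left h1 hNpos.le).trans hI.hV
  have hS0 := formula_S0 hN hu hy0 hy1
  have e0 : ∫ x in (0 : ℝ)..y, x / dn (av u) x * ‖qq u x‖ =
      ∫ x in (0 : ℝ)..y, x * (1 / dn (av u) x) * ‖qq u x‖ := by
    congr 1
    funext x
    ring
  rw [e0] at hS0
  obtain ⟨I, hId⟩ : ∃ I, I = ∫ x in (0 : ℝ)..y, x * (1 / dn (av u) x) * ‖qq u x‖ := ⟨_, rfl⟩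
  obtain ⟨J, hJ⟩ : ∃ J, J = ‖∫ x in (0 : ℝ)..y, qq u x‖ := ⟨_, rfl⟩
  obtain ⟨r, hrd⟩ : ∃ r, r = ‖av u‖ := ⟨_, rfl⟩
  rw [← hId] at hV
  rw [← hId, ← hJ, ← hrd] at hS0
  rw [← hJ]
  rw [← hrd] at hr hm
  have hr0 : 0 ≤ r := by rw [hrd]; exact norm_nonneg _
  have hJ0 : 0 ≤ J := by rw [hJ]; exact norm_nonneg _
  rw [gain_true]
  obtain ⟨a, ha⟩ : ∃ a, a = 1099511627776 - T - V := ⟨_, rfl⟩
  obtain ⟨F, hF⟩ : ∃ F, F = a * 1048576 / rho + V * rho / 1048576 := ⟨_, rfl⟩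
  rw [← ha, ← hF]
  obtain ⟨rm, hrm⟩ : ∃ rm, rm = (rho : ℝ) / 2 ^ 20 := ⟨_, rfl⟩
  rw [← hrm] at hr
  have hrho : (0 : ℝ) < rho := by exact_mod_cast hr1
  have hrm0 : 0 < rm := by rw [hrm]; positivity
  obtain ⟨V', hV'⟩ : ∃ V', V' = (V : ℝ) / 2 ^ 40 := ⟨_, rfl⟩
  rw [← hV'] at hV
  have hV0 : 0 ≤ V' := by rw [hV']; positivity
  -- `a = 0` is trivial
  have htriv : a = 0 → ((bif Nat.ble (2 * (V * rho)) (F * 1048576) then F else
      isqL (4 * (V * a)) : ℕ) : ℝ) / 2 ^ 40 ≤ ((N : ℝ) + 1) * J := by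
    intro h0
    have h1 : (bif Nat.ble (2 * (V * rho)) (F * 1048576) then F else isqL (4 * (V * a))) = 0 := by
      by_cases h2 : 2 * (V * rho) ≤ F * 1048576
      · rw [Nat.ble_eq_true_of_le h2, cond_true]
        rw [h0, zero_mul, Nat.zero_div, zero_add] at hF
        have h3 : F * 1048576 ≤ V * rho := by rw [hF]; exact Nat.div_mul_le_self _ _
        have h4 : V * rho = 0 := by omega
        rw [hF, h4, Nat.zero_div]
      · have hb' : Nat.ble (2 * (V * rho)) (F * 1048576) = false := by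
          rw [Bool.eq_false_iff, ne_eq, Nat.ble_eq]
          exact h2
        rw [hb', cond_false, h0, mul_zero, mul_zero]
        unfold isqL
        exact Nat.zero_div _
    rw [h1, Nat.cast_zero, zero_div]
    positivity
  rcases Nat.eq_zero_or_pos a with h0 | hapos
  · exact htriv h0
  obtain ⟨a', ha'⟩ : ∃ a', a' = (a : ℝ) / 2 ^ 40 := ⟨_, rfl⟩
  have ha'0 : 0 < a' := by
    have : (0 : ℝ) < a := by exact_mod_cast hapos
    rw [ha']; positivity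
  have hae : a' = 1 - (T : ℝ) / 2 ^ 40 - V' := by
    have h1 : (a : ℝ) = 1099511627776 - T - V := by
      rw [ha, Nat.cast_sub (by omega), Nat.cast_sub (by omega)]
      norm_num
    rw [ha', h1, hV']
    ring
  have hmain : a' + V' * r ^ 2 ≤ ((N : ℝ) + 1) * r * J := by
    refine le_trans ?_ hS0
    have h1 : ‖1 - (y : ℂ) * av u‖ * ‖qq u y‖ ≤ 1 * ((T : ℝ) / 2 ^ 40) :=
      mul_le_mul hym hqy (norm_nonneg _) (by norm_num)
    have h2 : (N : ℝ) * (1 - r ^ 2) * I ≤ (1 - r ^ 2) * V' := by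
      have h3 : 0 ≤ 1 - r ^ 2 := by
        have := pow_le_one₀ (n := 2) hr0 hm
        linarith
      have := mul_le_mul_of_nonneg_left hV h3
      linarith
    rw [hae]
    linarith
  have hrpos : 0 < r := by
    rcases hr0.eq_or_lt with h | h
    · rw [← h] at hmain
      nlinarith
    · exact h
  suffices h : ∀ F' : ℝ, F' * r ≤ a' + V' * r ^ 2 → F' ≤ ((N : ℝ) + 1) * J by
    apply h
    by_cases h2 : 2 * (V * rho) ≤ F * 1048576
    · rw [Nat.ble_eq_true_of_le h2, cond_true]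
      obtain ⟨F', hF'⟩ : ∃ F', F' = (F : ℝ) / 2 ^ 40 := ⟨_, rfl⟩
      rw [← hF']
      have h3 : F' ≤ a' / rm + V' * rm := by
        have b1 := div_le_real (a * 1048576) rho
        have b2 := div_le_real (V * rho) 1048576
        rw [hF', hF, Nat.cast_add, add_div]
        have e1 : a' / rm = ((a * 1048576 : ℕ) : ℝ) / rho / 2 ^ 40 := by
          rw [ha', hrm]; push_cast; field_simp; norm_num
        have e2 : V' * rm = ((V * rho : ℕ) : ℝ) / ((1048576 : ℕ) : ℝ) / 2 ^ 40 := by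
          rw [hV', hrm]; push_cast; ring
        rw [e1, e2]
        exact add_le_add (div_le_div_of_nonneg_right b1 (by positivity))
          (div_le_div_of_nonneg_right b2 (by positivity))
      have h4 : 2 * (V' * rm) ≤ F' := by
        have b1 : (2 * (V * rho) : ℝ) ≤ F * 1048576 := by exact_mod_cast h2
        rw [hV', hrm, hF']
        have e1 : 2 * ((V : ℝ) / 2 ^ 40 * (rho / 2 ^ 20)) = 2 * (V * rho) / 2 ^ 60 := by ring
        have e2 : (F : ℝ) / 2 ^ 40 = F * 1048576 / 2 ^ 60 := by ring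
        rw [e1, e2]
        exact div_le_div_of_nonneg_right b1 (by positivity)
      have h5 : F' * rm ≤ a' + V' * rm ^ 2 := by
        have := mul_le_mul_of_nonneg_right h3 hrm0.le
        refine this.trans (le_of_eq ?_)
        field_simp
      have h6 : 0 ≤ (rm - r) * (F' - V' * (rm + r)) := by
        apply mul_nonneg (by linarith)
        have : V' * (rm + r) ≤ V' * (rm + rm) := mul_le_mul_of_nonneg_left (by linarith) hV0
        linarith
      nlinarith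
    · have hb' : Nat.ble (2 * (V * rho)) (F * 1048576) = false := by
        rw [Bool.eq_false_iff, ne_eq, Nat.ble_eq]
        exact h2
      rw [hb', cond_false]
      have h3 := isqL_le_sqrt (4 * (V * a))
      obtain ⟨F2, hF2⟩ : ∃ F2, F2 = isqL (4 * (V * a)) := ⟨_, rfl⟩
      rw [← hF2] at h3 ⊢
      have h4 : ((F2 : ℝ) / 2 ^ 40) ^ 2 ≤ 4 * (V' * a') := by
        have b1 : (F2 : ℝ) ^ 2 ≤ ((4 * (V * a) : ℕ) : ℝ) := by
          have := pow_le_pow_left₀ (Nat.cast_nonneg F2) h3 2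
          rwa [Real.sq_sqrt (Nat.cast_nonneg _)] at this
        rw [hV', ha']
        push_cast at b1
        have e1 : 4 * ((V : ℝ) / 2 ^ 40 * (a / 2 ^ 40)) = 4 * (V * a) / 2 ^ 80 := by ring
        rw [e1, div_pow]
        have e2 : ((2 : ℝ) ^ 40) ^ 2 = 2 ^ 80 := by norm_num
        rw [e2]
        exact div_le_div_of_nonneg_right b1 (by positivity)
      apply le_of_sq_le_sq _ (by positivity)
      rw [mul_pow]
      have h5 := mul_le_mul_of_nonneg_right h4 (sq_nonneg r)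
      nlinarith [sq_nonneg (a' - V' * r ^ 2)]
  intro F' hF'
  have h7 : F' * r ≤ ((N : ℝ) + 1) * J * r := by
    have : ((N : ℝ) + 1) * r * J = ((N : ℝ) + 1) * J * r := by ring
    linarith
  exact le_of_mul_le_mul_right h7 hrpos

end

end Pool.Agent.Lib.MP_af3a4a_an.P1.CHK.H58.G
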