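import Pool.Agent.Lib.MP_af3a4a_an.P1.CHK.H58.GU
import Pool.Agent.Lib.MP_af3a4a_an.P1.CHK.H58.GN
import Pool.Agent.Lib.MP_af3a4a_an.P1.CHK.H58.MW

/-!
# The general checker is sound (helper58)
-/

set_option autoImplicit false

namespace Pool.Agent.Lib.MP_af3a4a_an.P1.CHK.H58.G

open Finset MeasureTheory ComplexConjugate
open Pool.Agent.Lib.MP_af3a4a_an.SV (uu av)
open Pool.Agent.Lib.MP_af3a4a_an.P1.H80
open Pool.Agent.Lib.MP_af3a4a_an.P1.H74
open Pool.Agent.Lib.MP_af3a4a_an.P1.H81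
open Pool.Agent.Lib.MP_af3a4a_an.P1.CHK.Arith
open Pool.Agent.Lib.MP_af3a4a_an.P1.CHK.H58 (end_cert)
open Pool.Agent.Lib.MP_af3a4a_an.P1.CHK.H58.M (kM kM_nonneg kM_cont massM end_ray24 CellQ)
open Pool.Agent.Lib.MP_af3a4a_an.P1.CHK.H58.S (core yst core_sound yst_sound)

/-! ### the end tests -/

theorem N_diff {N Na Nb gp gn : ℕ} (hNa : Na ≤ N) (hNb : N ≤ Nb) :
    ((Na * (gp - gn) : ℕ) : ℝ) - ((Nb * (gn - gp) : ℕ) : ℝ) ≤ N * ((gp : ℝ) - gn) := by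
  rw [Nat.cast_mul, Nat.cast_mul]
  have hNar : (Na : ℝ) ≤ N := by exact_mod_cast hNa
  have hNbr : (N : ℝ) ≤ Nb := by exact_mod_cast hNb
  rcases le_total gn gp with h | h
  · rw [Nat.sub_eq_zero_of_le h, Nat.cast_zero, mul_zero, sub_zero, Nat.cast_sub h]
    apply mul_le_mul_of_nonneg_right hNar
    rw [sub_nonneg]
    exact_mod_cast h
  · rw [Nat.sub_eq_zero_of_le h, Nat.cast_zero, mul_zero, zero_sub, Nat.cast_sub h]
    have h1 : (N : ℝ) * ((gn : ℝ) - gp) ≤ Nb * (gn - gp) := by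
      apply mul_le_mul_of_nonneg_right hNbr
      rw [sub_nonneg]
      exact_mod_cast h
    linarith

theorem endt_sound {N : ℕ} {z w : Fin N → ℂ} {R : ℝ} {σ : Fin N → ℂ} (hC : Cfg2 N z w R σ)
    (hN : 40 ≤ N) {g : Gr} (hNa : g.Na ≤ N) (hNb : N ≤ g.Nb) (hR0 : (g.R0 : ℝ) / 2 ^ 10 ≤ R)
    (hR1 : R ≤ (g.R1 : ℝ) / 2 ^ 10) (hR01 : g.R0 ≤ g.R1) {c : Bool} {sg al mx F : ℕ}
    (hsg : sg < g.R0) (hmx : (av (uu w)).re ≤ (mx : ℝ) / 2 ^ 20) (hmx1 : mx ≤ 1048576)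
    (hFq : (F : ℝ) / 2 ^ 40 ≤
      ((N : ℝ) + 1) * ‖∫ x in (0 : ℝ)..(R - (sg : ℝ) / 2 ^ 10), qq (uu w) x‖)
    (h : endt g c sg al mx F = true) : False := by
  obtain ⟨m1, hm1⟩ : ∃ m1, m1 = (av (uu w)).re := ⟨_, rfl⟩
  rw [← hm1] at hmx
  unfold endt at h
  simp only [ev_eq] at h
  obtain ⟨gp, hgp⟩ : ∃ gp, gp = al * (g.R0 - sg) * 1048576 := ⟨_, rfl⟩
  obtain ⟨gn, hgn⟩ : ∃ gn, gn = al * mx * 1024 + (al * al * 524288 + (al * al * (al * al) / 4 + 1) +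
    (al * al * (al * al) * (al * al) / 4194304 + 1)) := ⟨_, rfl⟩
  obtain ⟨ys, hys⟩ : ∃ ys, ys = yst ((g.R0 - sg) * 1073741824) ((g.R1 - sg) * 1073741824) :=
    ⟨_, rfl⟩
  rw [← hgp, ← hgn, ← hys] at h
  obtain ⟨y, hy⟩ : ∃ y, y = R - (sg : ℝ) / 2 ^ 10 := ⟨_, rfl⟩
  obtain ⟨a, ha⟩ : ∃ a, a = (al : ℝ) / 2 ^ 10 := ⟨_, rfl⟩
  rw [← hy] at hFq
  have ha0 : 0 ≤ a := by rw [ha]; positivity
  have hsr0 : ((g.R0 - sg : ℕ) : ℝ) = g.R0 - sg := Nat.cast_sub hsg.le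
  have hsr1 : ((g.R1 - sg : ℕ) : ℝ) = g.R1 - sg := Nat.cast_sub (hsg.le.trans hR01)
  have hy0 : ((g.R0 - sg : ℕ) : ℝ) / 2 ^ 10 ≤ y := by
    rw [hsr0, sub_div, hy]; linarith
  have hy1 : y ≤ ((g.R1 - sg : ℕ) : ℝ) / 2 ^ 10 := by
    rw [hsr1, sub_div, hy]; linarith
  have hypos : 0 < y := by
    refine lt_of_lt_of_le ?_ hy0
    have : (0 : ℝ) < ((g.R0 - sg : ℕ) : ℝ) := by exact_mod_cast Nat.sub_pos_of_lt hsg
    positivity
  have hyR : y ≤ R := by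
    rw [hy]
    have : (0 : ℝ) ≤ (sg : ℝ) / 2 ^ 10 := by positivity
    linarith
  have hRy : R - y = (sg : ℝ) / 2 ^ 10 := by rw [hy]; ring
  rw [Bool.and_eq_true, Nat.ble_eq, Bool.and_eq_true, Nat.ble_eq] at h
  obtain ⟨hys1, hF1, h⟩ := h
  have hyst := yst_sound (y0 := (g.R0 - sg) * 1073741824) (y1 := (g.R1 - sg) * 1073741824)
    (y := y) (by rw [← hys]; exact hys1) hypos
    (by
      refine le_trans (le_of_eq ?_) hy0
      push_cast
      ring)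
    (by
      refine hy1.trans (le_of_eq ?_)
      push_cast
      ring)
  rw [← hys] at hyst
  have hFr : (0 : ℝ) < (F : ℝ) / 2 ^ 40 := by
    have : (0 : ℝ) < F := by exact_mod_cast hF1
    positivity
  -- the gain
  have hgain : ((g.Na * (gp - gn) : ℕ) : ℝ) / 2 ^ 40 - ((g.Nb * (gn - gp) : ℕ) : ℝ) / 2 ^ 40 ≤
      N * (a * (y - m1) - (a ^ 2 / 2 + a ^ 4 / 4 + a ^ 6 / 4)) := by
    have h1 := N_diff (gp := gp) (gn := gn) hNa hNb
    have h2 : (gp : ℝ) / 2 ^ 40 ≤ a * y := by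
      have e : (gp : ℝ) / 2 ^ 40 = a * (((g.R0 - sg : ℕ) : ℝ) / 2 ^ 10) := by
        rw [hgp, ha]; push_cast; ring
      rw [e]
      exact mul_le_mul_of_nonneg_left hy0 ha0
    have h3 : a * m1 + (a ^ 2 / 2 + a ^ 4 / 4 + a ^ 6 / 4) ≤ (gn : ℝ) / 2 ^ 40 := by
      have b1 := real_le_div (al * al * (al * al)) 4 (by norm_num)
      have b2 := real_le_div (al * al * (al * al) * (al * al)) 4194304 (by norm_num)
      have b3 : a * m1 ≤ a * ((mx : ℝ) / 2 ^ 20) := mul_le_mul_of_nonneg_left hmx ha0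
      have e1 : a * ((mx : ℝ) / 2 ^ 20) = ((al * mx * 1024 : ℕ) : ℝ) / 2 ^ 40 := by
        rw [ha]; push_cast; ring
      have e2 : a ^ 2 / 2 = ((al * al * 524288 : ℕ) : ℝ) / 2 ^ 40 := by
        rw [ha]; push_cast; ring
      have e3 : a ^ 4 / 4 = ((al * al * (al * al) : ℕ) : ℝ) / ((4 : ℕ) : ℝ) / 2 ^ 40 := by
        rw [ha]; push_cast; ring
      have e4 : a ^ 6 / 4 = ((al * al * (al * al) * (al * al) : ℕ) : ℝ) / ((4194304 : ℕ) : ℝ) /
          2 ^ 40 := by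
        rw [ha]; push_cast; ring
      have b4 := div_le_div_of_nonneg_right b1 (by positivity : (0 : ℝ) ≤ 2 ^ 40)
      have b5 := div_le_div_of_nonneg_right b2 (by positivity : (0 : ℝ) ≤ 2 ^ 40)
      rw [← e3] at b4
      rw [← e4] at b5
      rw [e1] at b3
      rw [hgn, Nat.cast_add (al * mx * 1024), Nat.cast_add (al * al * 524288 +
        (al * al * (al * al) / 4 + 1)), Nat.cast_add (al * al * 524288), add_div, add_div, add_div,
        ← e2]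
      linarith
    have h4 : (gp : ℝ) / 2 ^ 40 - (gn : ℝ) / 2 ^ 40 ≤
        a * (y - m1) - (a ^ 2 / 2 + a ^ 4 / 4 + a ^ 6 / 4) := by
      have : a * (y - m1) = a * y - a * m1 := by ring
      rw [this]
      linarith
    have h5 := mul_le_mul_of_nonneg_left h4 (Nat.cast_nonneg (α := ℝ) N)
    have h6 := div_le_div_of_nonneg_right h1 (by positivity : (0 : ℝ) ≤ 2 ^ 40)
    refine le_trans ?_ h5
    rw [← sub_div]
    refine h6.trans (le_of_eq ?_)
    ring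
  have hone : ((al * (1048576 - mx) * 1024 : ℕ) : ℝ) / 2 ^ 40 ≤ a * (1 - m1) := by
    have e : ((al * (1048576 - mx) * 1024 : ℕ) : ℝ) / 2 ^ 40 = a * (1 - (mx : ℝ) / 2 ^ 20) := by
      rw [ha, Nat.cast_mul, Nat.cast_mul, Nat.cast_sub hmx1]; push_cast; ring
    rw [e]
    apply mul_le_mul_of_nonneg_left _ ha0
    linarith
  have hlog : Real.log ((F : ℝ) / 2 ^ 40 / y) = Real.log ((F : ℝ) / 2 ^ 40) - Real.log y :=
    Real.log_div hFr.ne' hypos.ne'
  cases c with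
  | true =>
    rw [cond_true] at h
    simp only [Bool.and_eq_true, Nat.ble_eq] at h
    obtain ⟨hsg1, hsg2, hal, hR1', hA, hcore⟩ := h
    have hc := core_sound hys1 hF1 hcore
    have hσ0 : (0 : ℝ) < (sg : ℝ) / 2 ^ 10 := by
      have : (0 : ℝ) < sg := by exact_mod_cast hsg1
      positivity
    refine end_cert hC hN (a := a) (y := y) (F := (F : ℝ) / 2 ^ 40) ha0 ?_ hypos ?_ ?_ ?_ ?_ hFr
      hFq ?_
    · have : (al : ℝ) ≤ 296 := by exact_mod_cast hal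
      rw [ha, div_le_iff₀ (by positivity)]
      norm_num
      linarith
    · rw [hy]; linarith
    · refine hR1.trans ?_
      have : (g.R1 : ℝ) ≤ 2048 := by exact_mod_cast hR1'
      exact (div_le_div_of_nonneg_right this (by positivity)).trans (by norm_num)
    · rw [hRy]
      have : (sg : ℝ) ≤ 256 := by exact_mod_cast hsg2
      exact (div_le_div_of_nonneg_right this (by positivity)).trans (by norm_num)
    · rw [hRy]
      have h1a : 0 < 1 + a := by linarith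
      obtain ⟨s, hs⟩ : ∃ s, s = (sg : ℝ) / 2 ^ 10 := ⟨_, rfl⟩
      rw [← hs]
      have h2 : (1 + (1 + a) ^ 2 * s ^ 2) * ((1 + a) ^ 3 * s ^ 2) ≤
          a ^ 2 + 2 * (1 + a) * a * s := by
        have h3 : ((((1099511627776 + ((1024 + al) * sg) * ((1024 + al) * sg)) *
            ((1024 + al) * (1024 + al) * (1024 + al) * (sg * sg)) : ℕ)) : ℝ) ≤
            (((al * al * 1024 + 2 * (1024 + al) * al * sg) * 1152921504606846976 : ℕ) : ℝ) := by
          exact_mod_cast hA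
        have h4 := div_le_div_of_nonneg_right h3 (by positivity : (0 : ℝ) ≤ 2 ^ 90)
        have e1 : ((((1099511627776 + ((1024 + al) * sg) * ((1024 + al) * sg)) *
            ((1024 + al) * (1024 + al) * (1024 + al) * (sg * sg)) : ℕ)) : ℝ) / 2 ^ 90 =
            (1 + (1 + a) ^ 2 * s ^ 2) * ((1 + a) ^ 3 * s ^ 2) := by
          rw [ha, hs]; push_cast; ring
        have e2 : (((al * al * 1024 + 2 * (1024 + al) * al * sg) * 1152921504606846976 : ℕ) : ℝ) /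
            2 ^ 90 = a ^ 2 + 2 * (1 + a) * a * s := by
          rw [ha, hs]; push_cast; ring
        rw [e1, e2] at h4
        exact h4
      have e3 : (1 / 2 + (1 + a) ^ 2 * s ^ 2 / 2) * (1 + a) ^ 2 * s ^ 2 =
          (1 + (1 + a) ^ 2 * s ^ 2) * ((1 + a) ^ 3 * s ^ 2) / (2 * (1 + a)) := by
        field_simp
      have e4 : a ^ 2 / (2 * (1 + a)) + a * s = (a ^ 2 + 2 * (1 + a) * a * s) / (2 * (1 + a)) := by
        field_simp
      rw [e3, e4]
      exact div_le_div_of_nonneg_right h2 (by positivity)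
    · rw [← hm1, hlog]
      rw [Nat.cast_add 1099511627776, Nat.cast_add (ys + g.Na * (gp - gn)), Nat.cast_add ys,
        add_div, add_div, add_div] at hc
      have e1 : (((1099511627776 : ℕ) : ℝ) / 2 ^ 40) = 1 := by norm_num
      rw [e1] at hc
      linarith
  | false =>
    rw [cond_false] at h
    simp only [Bool.and_eq_true, Nat.ble_eq] at h
    obtain ⟨hal, hsgal, hR1', hal2, hcore⟩ := h
    have hc := core_sound hys1 hF1 hcore
    refine end_ray24 hC hN (a := a) (y := y) (F := (F : ℝ) / 2 ^ 40) ha0 ?_ hypos hyR ?_ ?_ ?_ hFr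
      hFq ?_
    · have : (al : ℝ) ≤ 399 := by exact_mod_cast hal
      rw [ha, div_le_iff₀ (by positivity)]
      norm_num
      linarith
    · refine hy1.trans ?_
      have : ((g.R1 - sg : ℕ) : ℝ) ≤ 2150 := by exact_mod_cast hR1'
      rw [div_le_iff₀ (by positivity)]
      norm_num
      linarith
    · rw [hRy, ha]
      apply div_le_div_of_nonneg_right _ (by positivity)
      exact_mod_cast hsgal
    · have h1 : (al : ℝ) ≤ 2 * ((g.R0 - sg : ℕ) : ℝ) := by exact_mod_cast hal2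
      have h2 : a ≤ 2 * (((g.R0 - sg : ℕ) : ℝ) / 2 ^ 10) := by
        rw [ha, ← mul_div_assoc]
        exact div_le_div_of_nonneg_right h1 (by positivity)
      linarith
    · rw [← hm1, hlog]
      have hmax : a * max 0 (y - 1) ≤ ((al * (g.R1 - sg - 1024) * 1048576 : ℕ) : ℝ) / 2 ^ 40 := by
        have e : ((al * (g.R1 - sg - 1024) * 1048576 : ℕ) : ℝ) / 2 ^ 40 =
            a * (((g.R1 - sg - 1024 : ℕ) : ℝ) / 2 ^ 10) := by
          rw [ha]; push_cast; ring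
        rw [e]
        apply mul_le_mul_of_nonneg_left _ ha0
        apply max_le (div_nonneg (Nat.cast_nonneg _) (by norm_num))
        have h1 := sub_le_cast (g.R1 - sg) 1024
        have h2 := div_le_div_of_nonneg_right h1 (by positivity : (0 : ℝ) ≤ 2 ^ 10)
        rw [sub_div] at h2
        have e5 : ((1024 : ℕ) : ℝ) / 2 ^ 10 = 1 := by norm_num
        rw [e5] at h2
        linarith
      rw [Nat.cast_add (1099511627776 + g.Nb * (gn - gp)), Nat.cast_add 1099511627776,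
        Nat.cast_add (ys + g.Na * (gp - gn)), Nat.cast_add ys,
        add_div, add_div, add_div, add_div] at hc
      have e1 : (((1099511627776 : ℕ) : ℝ) / 2 ^ 40) = 1 := by norm_num
      rw [e1] at hc
      linarith

/-! ### a configuration in the group -/

structure Cf (N : ℕ) (w : Fin N → ℂ) (R β ρ : ℝ) (g : Gr) : Prop where
  hN : 40 ≤ N
  hNa : g.Na ≤ N
  hNa1 : 40 ≤ g.Na
  hNb : N ≤ g.Nb
  hw : ∀ k, 1 ≤ ‖w k‖
  ht : ∑ k, ‖w k - (R : ℂ)‖ ≤ N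
  hR : 0 < R
  hR0 : (g.R0 : ℝ) / 2 ^ 10 ≤ R
  hR1 : R ≤ (g.R1 : ℝ) / 2 ^ 10
  hg0 : 1 ≤ g.R0
  hg01 : g.R0 ≤ g.R1
  hρ : 1 ≤ ρ
  hr0 : (g.r0 : ℝ) / 2 ^ 10 ≤ ρ
  hr1 : ρ ≤ (g.r1 : ℝ) / 2 ^ 10
  hr00 : 1 ≤ g.r0
  hhi : g.hi = true → ρ = R ∧ 1 ≤ R ∧ 1024 ≤ g.R0
  hlo : g.R1 ≤ 820 → ρ = 1
  hSq : ρ * SV.sq (uu w) ≤ 1 + 2 * (av (uu w)).re
  hBa : 1 ≤ g.Ba
  hBb : 1 ≤ g.Bb
  hβa : (g.Ba : ℝ) / 2 ^ 10 ≤ β
  hβb : β ≤ (g.Bb : ℝ) / 2 ^ 10
  hβN : β ^ 2 * ρ = N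
  hfx : (av (uu w)).re ≤ (g.fx : ℝ) / 1024 * R
  hP : ∀ x ∈ Set.Icc (0 : ℝ) ((g.pc : ℝ) / 10), ‖qq (uu w) x‖ ≤
      Real.exp (-(N * ((x ^ 2 / 2 - x ^ 3 / 5) / ρ)))
  hV : g.R1 ≤ 820 → R ≤ 4 / 5
  hW : g.R1 ≤ 768 → ProfW N w R
  hT : ProfT N w ρ g.tab

section

variable {N : ℕ} {w : Fin N → ℂ} {R β ρ : ℝ} {g : Gr}

theorem Cf.hβ (c : Cf N w R β ρ g) : 0 < β := by
  have : (0 : ℝ) < g.Ba := by exact_mod_cast c.hBa
  exact lt_of_lt_of_le (by positivity) c.hβa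

theorem Cf.u_le (c : Cf N w R β ρ g) : ∀ k, ‖uu w k‖ ≤ 1 := by
  intro k
  unfold uu
  rw [norm_inv]
  exact inv_le_one_of_one_le₀ (c.hw k)

theorem Cf.fm (c : Cf N w R β ρ g) : R * ‖av (uu w)‖ ^ 2 ≤ 2 * (av (uu w)).re :=
  first_moment (by have := c.hN; omega) c.hw c.ht c.hR

theorem Cf.m_nonneg (c : Cf N w R β ρ g) : 0 ≤ (av (uu w)).re := by
  have h1 := c.fm
  have := c.hR
  have : 0 ≤ R * ‖av (uu w)‖ ^ 2 := by positivity
  linarith

theorem Cf.av_le (c : Cf N w R β ρ g) : ‖av (uu w)‖ ≤ 1 :=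
  av_norm_le (by have := c.hN; omega) c.u_le

theorem Cf.one_sub (c : Cf N w R β ρ g) {y : ℝ} (hy0 : 0 ≤ y) (hyR : y ≤ R) :
    ‖1 - (y : ℂ) * av (uu w)‖ ≤ 1 := by
  have h1 := c.fm
  have hR := c.hR
  have h3 : ‖1 - (y : ℂ) * av (uu w)‖ ^ 2 = 1 - 2 * y * (av (uu w)).re +
      y ^ 2 * ‖av (uu w)‖ ^ 2 := by
    rw [norm_sq_re_im, norm_sq_re_im]
    simp only [Complex.sub_re, Complex.sub_im, Complex.mul_re, Complex.mul_im,
      Complex.one_re, Complex.one_im, Complex.ofReal_re, Complex.ofReal_im]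
    ring
  have h4 : y * ‖av (uu w)‖ ^ 2 ≤ 2 * (av (uu w)).re :=
    (mul_le_mul_of_nonneg_right hyR (sq_nonneg _)).trans h1
  have h5 : ‖1 - (y : ℂ) * av (uu w)‖ ^ 2 ≤ 1 ^ 2 := by
    rw [h3]
    have := mul_le_mul_of_nonneg_left h4 hy0
    nlinarith
  exact le_of_sq_le_sq h5 (by norm_num)

theorem look_mem (l : List (ℕ × ℕ)) (i : ℕ) : look l i ∈ l ∨ look l i = (0, 0) := by
  induction l generalizing i with
  | nil => right; rfl
  | cons p l ih =>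
    cases i with
    | zero => left; simp [look]
    | succ i =>
      rcases ih i with h | h
      · left; simp only [look]; exact List.mem_cons_of_mem _ h
      · right; simp only [look]; exact h

theorem Cf.cells (c : Cf N w R β ρ g) {Sm fU cU k0 h : ℕ} (hh : 1 ≤ h)
    (hS : ρ * SV.sq (uu w) ≤ (Sm : ℝ) / 2 ^ 20)
    (hk : (k0 : ℝ) / 2 ^ 10 ≤ (av (uu w)).re * ρ * β)
    (hf : (av (uu w)).re ≤ (fU : ℝ) / 2 ^ 20 * R) (hcU : cU = cW fU) :
    Cells N (uu w) β g Sm fU cU k0 h := by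
  have hN1 : 1 ≤ N := by have := c.hN; omega
  have hρ : 0 < ρ := by linarith [c.hρ]
  have hβ := c.hβ
  intro ty s hv j hj
  unfold vld at hv
  unfold ndf
  by_cases h0 : ty = 0
  · subst h0
    rw [show Nat.beq 0 0 = true from rfl, cond_true]
    exact cellA hN1 hβ hρ c.hβN hS hk h j
  have hb0 : Nat.beq ty 0 = false := by
    rw [Bool.eq_false_iff]
    intro hc
    exact h0 (Nat.eq_of_beq_eq_true hc)
  rw [hb0, cond_false] at hv ⊢
  by_cases h1 : ty = 1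
  · subst h1
    rw [show Nat.beq 1 1 = true from rfl, cond_true] at hv ⊢
    rw [Nat.ble_eq] at hv
    exact cellP hρ c.hβN c.hBa c.hβa c.hP h j (le_trans (Nat.mul_le_mul_left _ hj) hv)
  have hb1 : Nat.beq ty 1 = false := by
    rw [Bool.eq_false_iff]
    intro hc
    exact h1 (Nat.eq_of_beq_eq_true hc)
  rw [hb1, cond_false] at hv ⊢
  by_cases h2 : ty = 2
  · subst h2
    rw [show Nat.beq 2 2 = true from rfl, cond_true] at hv ⊢
    simp only [Bool.and_eq_true, Nat.ble_eq] at hv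
    obtain ⟨hfU, hR820, hs⟩ := hv
    have hρ1 := c.hlo hR820
    have hR4 : R ≤ 4 / 5 := c.hV hR820
    rw [hρ1, mul_one] at hk
    have hβN := c.hβN
    rw [hρ1, mul_one] at hβN
    exact cellV hN1 c.hw c.ht c.hR hR4 hβN c.hBa c.hg0 c.hβa c.hR0 c.m_nonneg hk hf hfU h j hh
      (le_trans (Nat.mul_le_mul_left _ hj) hs)
  have hb2 : Nat.beq ty 2 = false := by
    rw [Bool.eq_false_iff]
    intro hc
    exact h2 (Nat.eq_of_beq_eq_true hc)
  rw [hb2, cond_false] at hv ⊢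
  by_cases h3 : ty = 3
  · subst h3
    rw [show Nat.beq 3 3 = true from rfl, cond_true] at hv ⊢
    simp only [Bool.and_eq_true, Nat.ble_eq] at hv
    obtain ⟨hfU, hcU1, hR768, hs⟩ := hv
    have hρ1 := c.hlo (by omega)
    have hR4 : R ≤ 3 / 4 := by
      refine c.hR1.trans ?_
      have : (g.R1 : ℝ) ≤ 768 := by exact_mod_cast hR768
      exact (div_le_div_of_nonneg_right this (by positivity)).trans (by norm_num)
    rw [hρ1, mul_one] at hk
    have hβN := c.hβN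
    rw [hρ1, mul_one] at hβN
    exact cellW c.hR hR4 hβN c.hBa c.hBb c.hg0 c.hβa c.hβb c.hR0 c.hR1 (c.hW hR768) c.m_nonneg hk
      hf hfU hcU hcU1 h j (le_trans (Nat.mul_le_mul_left _ hj) hs)
  have hb3 : Nat.beq ty 3 = false := by
    rw [Bool.eq_false_iff]
    intro hc
    exact h3 (Nat.eq_of_beq_eq_true hc)
  rw [hb3, cond_false] at hv ⊢
  rw [Nat.ble_eq] at hv
  rcases look_mem g.tab (ty - 4) with hm | hm
  · apply cellC hρ hβ c.hβN (Y := ((look g.tab (ty - 4)).1 : ℝ) / 1024) (c.hT _ hm) h j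
    have hBar : (0 : ℝ) < g.Ba := by exact_mod_cast c.hBa
    have h4 : (j + h) * 1024 ≤ (look g.tab (ty - 4)).1 * g.Ba :=
      le_trans (Nat.mul_le_mul_right _ hj) hv
    have h5 : ((j + h : ℕ) : ℝ) * 1024 ≤ (look g.tab (ty - 4)).1 * g.Ba := by exact_mod_cast h4
    have h6 : ((j + h : ℕ) : ℝ) / 2 ^ 10 / β ≤ ((j + h : ℕ) : ℝ) / 2 ^ 10 / ((g.Ba : ℝ) / 2 ^ 10) :=
      div_le_div_of_nonneg_left (by positivity) (by positivity) c.hβa
    refine h6.trans ?_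
    rw [div_le_iff₀ (by positivity)]
    have e : ((look g.tab (ty - 4)).1 : ℝ) / 1024 * ((g.Ba : ℝ) / 2 ^ 10) =
      ((look g.tab (ty - 4)).1 : ℝ) * g.Ba / 1024 / 2 ^ 10 := by ring
    rw [e]
    apply div_le_div_of_nonneg_right _ (by positivity)
    rw [le_div_iff₀ (by norm_num)]
    exact h5
  · rw [hm] at hv
    simp only [zero_mul] at hv
    omega

theorem Cf.mx_sound (c : Cf N w R β ρ g) {k1 : ℕ}
    (hk : (av (uu w)).re * ρ * β ≤ (k1 : ℝ) / 2 ^ 10) :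
    (av (uu w)).re ≤ (mxU g k1 : ℝ) / 2 ^ 20 ∧ mxU g k1 ≤ 1048576 := by
  have hBar : (0 : ℝ) < g.Ba := by exact_mod_cast c.hBa
  have hr0r : (0 : ℝ) < g.r0 := by exact_mod_cast c.hr00
  have hm0 := c.m_nonneg
  have hm1 := (Complex.re_le_norm _).trans c.av_le
  obtain ⟨m1, hm⟩ : ∃ m1, m1 = (av (uu w)).re := ⟨_, rfl⟩
  have hfx := c.hfx
  rw [← hm] at hk hm0 hm1 hfx ⊢
  refine ⟨?_, Nat.min_le_left _ _⟩
  unfold mxU
  have h1 : m1 ≤ ((1048576 : ℕ) : ℝ) / 2 ^ 20 := by norm_num; exact hm1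
  have h2 : m1 ≤ ((k1 * 1073741824 / (g.r0 * g.Ba) + 1 : ℕ) : ℝ) / 2 ^ 20 := by
    have a1 : m1 * (((g.r0 : ℝ) / 2 ^ 10) * ((g.Ba : ℝ) / 2 ^ 10)) ≤ (k1 : ℝ) / 2 ^ 10 := by
      refine le_trans ?_ hk
      rw [mul_assoc]
      apply mul_le_mul_of_nonneg_left _ hm0
      exact mul_le_mul c.hr0 c.hβa (by positivity) (by linarith [c.hρ])
    have a3 := real_le_div (k1 * 1073741824) (g.r0 * g.Ba) (Nat.mul_pos c.hr00 c.hBa)
    rw [le_div_iff₀ (by positivity)]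
    refine le_trans ?_ a3
    push_cast
    rw [le_div_iff₀ (by positivity)]
    rw [le_div_iff₀ (by positivity)] at a1
    nlinarith
  have h3 : m1 ≤ ((g.fx * g.R1 : ℕ) : ℝ) / 2 ^ 20 := by
    refine hfx.trans ?_
    have := mul_le_mul_of_nonneg_left c.hR1 (by positivity : (0 : ℝ) ≤ (g.fx : ℝ) / 1024)
    refine this.trans (le_of_eq ?_)
    push_cast
    ring
  rcases Nat.le_total 1048576 (Nat.min (k1 * 1073741824 / (g.r0 * g.Ba) + 1) (g.fx * g.R1)) with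
    h | h
  · rw [show Nat.min 1048576 (Nat.min (k1 * 1073741824 / (g.r0 * g.Ba) + 1) (g.fx * g.R1)) =
      1048576 from Nat.min_eq_left h]
    exact h1
  · rw [show Nat.min 1048576 (Nat.min (k1 * 1073741824 / (g.r0 * g.Ba) + 1) (g.fx * g.R1)) =
      Nat.min (k1 * 1073741824 / (g.r0 * g.Ba) + 1) (g.fx * g.R1) from Nat.min_eq_right h]
    rcases Nat.le_total (k1 * 1073741824 / (g.r0 * g.Ba) + 1) (g.fx * g.R1) with h' | h'
    · rw [show Nat.min (k1 * 1073741824 / (g.r0 * g.Ba) + 1) (g.fx * g.R1) =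
        k1 * 1073741824 / (g.r0 * g.Ba) + 1 from Nat.min_eq_left h']
      exact h2
    · rw [show Nat.min (k1 * 1073741824 / (g.r0 * g.Ba) + 1) (g.fx * g.R1) =
        g.fx * g.R1 from Nat.min_eq_right h']
      exact h3

theorem Cf.gp_gn (c : Cf N w R β ρ g) {mx : ℕ} (hm : (av (uu w)).re ≤ (mx : ℝ) / 2 ^ 20)
    (hhi : g.hi = true) :
    (((g.R0 - 1024) * 1048576 / g.R0 : ℕ) : ℝ) / 2 ^ 20 -
      (((3 * g.R1 + (1048576 / g.R0 + 1) - 2048) * mx / 1024 + 1 : ℕ) : ℝ) / 2 ^ 20 ≤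
      (R - 1) / R - (3 * R ^ 2 - 2 * R + 1) / R * (av (uu w)).re := by
  have hR := c.hR
  have hR0n : 0 < g.R0 := c.hg0
  have hR0p : (0 : ℝ) < g.R0 := by exact_mod_cast hR0n
  have hm0 := c.m_nonneg
  obtain ⟨_, _, hR1024⟩ := c.hhi hhi
  obtain ⟨m1, hm1⟩ : ∃ m1, m1 = (av (uu w)).re := ⟨_, rfl⟩
  rw [← hm1] at hm hm0 ⊢
  -- `gp`
  have hgp : (((g.R0 - 1024) * 1048576 / g.R0 : ℕ) : ℝ) / 2 ^ 20 ≤ (R - 1) / R := by
    have h2 := div_le_real ((g.R0 - 1024) * 1048576) g.R0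
    have hc : ((g.R0 - 1024 : ℕ) : ℝ) = g.R0 - 1024 := by
      rw [Nat.cast_sub hR1024]
      norm_num
    rw [Nat.cast_mul, hc] at h2
    have h3 : ((g.R0 : ℝ) - 1024) / g.R0 ≤ (R - 1) / R := by
      rw [div_le_div_iff₀ hR0p hR]
      have h4 := c.hR0
      rw [div_le_iff₀ (by positivity)] at h4
      norm_num at h4
      linarith
    rw [div_le_iff₀ (by positivity)]
    refine h2.trans ?_
    have e : ((g.R0 : ℝ) - 1024) * ((1048576 : ℕ) : ℝ) / g.R0 =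
        ((g.R0 : ℝ) - 1024) / g.R0 * 2 ^ 20 := by
      push_cast
      ring
    rw [e]
    exact mul_le_mul_of_nonneg_right h3 (by positivity)
  -- `gn`
  have hgn : (3 * R ^ 2 - 2 * R + 1) / R * m1 ≤
      (((3 * g.R1 + (1048576 / g.R0 + 1) - 2048) * mx / 1024 + 1 : ℕ) : ℝ) / 2 ^ 20 := by
    obtain ⟨A, hA⟩ : ∃ A, A = 3 * g.R1 + (1048576 / g.R0 + 1) - 2048 := ⟨_, rfl⟩
    rw [← hA]
    have h2 := real_le_div (A * mx) 1024 (by norm_num)
    have h3 := sub_le_cast (3 * g.R1 + (1048576 / g.R0 + 1)) 2048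
    rw [← hA] at h3
    have h4 := real_le_div 1048576 g.R0 hR0n
    have h5 : (3 * R ^ 2 - 2 * R + 1) / R ≤ (A : ℝ) / 2 ^ 10 := by
      have e : (3 * R ^ 2 - 2 * R + 1) / R = 3 * R + 1 / R - 2 := by
        field_simp
        ring
      rw [e]
      have h6 : 1 / R ≤ 1 / ((g.R0 : ℝ) / 2 ^ 10) :=
        div_le_div_of_nonneg_left (by norm_num) (by positivity) c.hR0
      have h7 : 1 / ((g.R0 : ℝ) / 2 ^ 10) = ((1048576 : ℕ) : ℝ) / g.R0 / 2 ^ 10 := by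
        push_cast
        field_simp
        norm_num
      rw [h7] at h6
      have h8 := div_le_div_of_nonneg_right h4 (by positivity : (0 : ℝ) ≤ 2 ^ 10)
      have h9 := div_le_div_of_nonneg_right h3 (by positivity : (0 : ℝ) ≤ 2 ^ 10)
      have h10 := c.hR1
      refine le_trans ?_ h9
      obtain ⟨q, hq⟩ : ∃ q, q = 1048576 / g.R0 + 1 := ⟨_, rfl⟩
      rw [← hq] at h8 ⊢
      have e3 : (((3 * g.R1 + q : ℕ) : ℝ) - ((2048 : ℕ) : ℝ)) / 2 ^ 10 =
          3 * ((g.R1 : ℝ) / 2 ^ 10) + (q : ℝ) / 2 ^ 10 - 2 := by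
        push_cast
        ring
      rw [e3]
      linarith
    have h6 : (3 * R ^ 2 - 2 * R + 1) / R * m1 ≤ (A : ℝ) / 2 ^ 10 * ((mx : ℝ) / 2 ^ 20) :=
      mul_le_mul h5 hm hm0 (div_nonneg (Nat.cast_nonneg A) (by norm_num))
    refine h6.trans ?_
    rw [le_div_iff₀ (by positivity)]
    refine le_trans (le_of_eq ?_) h2
    push_cast
    ring
  linarith

theorem Cf.rho_sound (c : Cf N w R β ρ g) {mx : ℕ} (hm : (av (uu w)).re ≤ (mx : ℝ) / 2 ^ 20) :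
    ‖av (uu w)‖ ≤ ((Nat.min 1048576 (isq (mx * 2147483648 / g.R0 + 1)) : ℕ) : ℝ) / 2 ^ 20 ∧
    ‖av (uu w)‖ ^ 2 ≤ ((Nat.min 1048576 (mx * 2048 / g.R0 + 1) : ℕ) : ℝ) / 2 ^ 20 := by
  have hR := c.hR
  have hR0n : 0 < g.R0 := c.hg0
  have hR0p : (0 : ℝ) < g.R0 := by exact_mod_cast hR0n
  have h1 := c.fm
  have hav := c.av_le
  obtain ⟨m1, hm1⟩ : ∃ m1, m1 = (av (uu w)).re := ⟨_, rfl⟩
  obtain ⟨r, hr⟩ : ∃ r, r = ‖av (uu w)‖ := ⟨_, rfl⟩
  have hr0 : 0 ≤ r := by rw [hr]; exact norm_nonneg _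
  rw [← hm1] at hm h1
  rw [← hr] at h1 hav ⊢
  have h2 : r ^ 2 ≤ 2 * m1 / R := by
    rw [le_div_iff₀ hR, mul_comm]
    exact h1
  have h3 : 2 * m1 / R ≤ 2 * ((mx : ℝ) / 2 ^ 20) / ((g.R0 : ℝ) / 2 ^ 10) :=
    div_le_div₀ (by positivity) (by linarith) (by positivity) c.hR0
  constructor
  · rcases Nat.le_total 1048576 (isq (mx * 2147483648 / g.R0 + 1)) with h | h
    · rw [show Nat.min 1048576 (isq (mx * 2147483648 / g.R0 + 1)) = 1048576
        from Nat.min_eq_left h]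
      norm_num
      exact hav
    · rw [show Nat.min 1048576 (isq (mx * 2147483648 / g.R0 + 1)) =
        isq (mx * 2147483648 / g.R0 + 1) from Nat.min_eq_right h]
      have h4 := real_le_div (mx * 2147483648) g.R0 hR0n
      obtain ⟨a, ha⟩ : ∃ a, a = mx * 2147483648 / g.R0 + 1 := ⟨_, rfl⟩
      rw [← ha] at h4 ⊢
      have h5 := sqrt_le_isq a
      have h6 : r ^ 2 ≤ (a : ℝ) / 2 ^ 40 := by
        refine (h2.trans h3).trans ?_
        rw [le_div_iff₀ (by positivity)]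
        refine le_trans (le_of_eq ?_) h4
        push_cast
        field_simp
        ring
      have h7 : r ≤ Real.sqrt ((a : ℝ) / 2 ^ 40) := Real.le_sqrt_of_sq_le h6
      refine h7.trans ?_
      rw [Real.sqrt_div (Nat.cast_nonneg a)]
      have e : Real.sqrt (2 ^ 40) = 2 ^ 20 := by
        rw [show (2 : ℝ) ^ 40 = (2 ^ 20) ^ 2 by norm_num, Real.sqrt_sq (by positivity)]
      rw [e]
      exact div_le_div_of_nonneg_right h5 (by positivity)
  · rcases Nat.le_total 1048576 (mx * 2048 / g.R0 + 1) with h | h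
    · rw [show Nat.min 1048576 (mx * 2048 / g.R0 + 1) = 1048576 from Nat.min_eq_left h,
        show ((1048576 : ℕ) : ℝ) / 2 ^ 20 = 1 by norm_num]
      exact pow_le_one₀ hr0 hav
    · rw [show Nat.min 1048576 (mx * 2048 / g.R0 + 1) = mx * 2048 / g.R0 + 1
        from Nat.min_eq_right h]
      have h4 := real_le_div (mx * 2048) g.R0 hR0n
      refine (h2.trans h3).trans ?_
      rw [le_div_iff₀ (by positivity)]
      refine le_trans (le_of_eq ?_) h4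
      push_cast
      field_simp
      ring

theorem Cf.fU_sound (c : Cf N w R β ρ g) {mx : ℕ} (hm : (av (uu w)).re ≤ (mx : ℝ) / 2 ^ 20) :
    (av (uu w)).re ≤ ((Nat.min (g.fx * 1024) (mx * 1024 / g.R0 + 1) : ℕ) : ℝ) / 2 ^ 20 * R := by
  have hR := c.hR
  have hR0n : 0 < g.R0 := c.hg0
  have hR0p : (0 : ℝ) < g.R0 := by exact_mod_cast hR0n
  rcases Nat.le_total (g.fx * 1024) (mx * 1024 / g.R0 + 1) with h | h
  · rw [show Nat.min (g.fx * 1024) (mx * 1024 / g.R0 + 1) = g.fx * 1024 from Nat.min_eq_left h]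
    refine c.hfx.trans (le_of_eq ?_)
    push_cast
    ring
  · rw [show Nat.min (g.fx * 1024) (mx * 1024 / g.R0 + 1) = mx * 1024 / g.R0 + 1
      from Nat.min_eq_right h]
    have h4 := real_le_div (mx * 1024) g.R0 hR0n
    have h5 := mul_le_mul h4 c.hR0 (by positivity) (Nat.cast_nonneg _)
    refine hm.trans ?_
    rw [div_mul_eq_mul_div, le_div_iff₀ (by positivity)]
    refine le_trans (le_of_eq ?_) h5
    push_cast
    field_simp
    norm_num

end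

end Pool.Agent.Lib.MP_af3a4a_an.P1.CHK.H58.G
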