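import Pool.Agent.Lib.MP_af3a4a_an.P1.CHK.H58.GV

/-!
# The general checker is sound, second part (helper58)
-/

set_option autoImplicit false

namespace Pool.Agent.Lib.MP_af3a4a_an.P1.CHK.H58.G

open Finset MeasureTheory ComplexConjugate
open Pool.Agent.Lib.MP_af3a4a_an.SV (uu av)
open Pool.Agent.Lib.MP_af3a4a_an.P1.H80
open Pool.Agent.Lib.MP_af3a4a_an.P1.H74
open Pool.Agent.Lib.MP_af3a4a_an.P1.H81
open Pool.Agent.Lib.MP_af3a4a_an.P1.CHK.Arith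
open Pool.Agent.Lib.MP_af3a4a_an.P1.CHK.H58.M (kM kM_nonneg kM_cont le_of_sq_le_sq')

section

variable {N : ℕ} {z w : Fin N → ℂ} {R β ρ : ℝ} {σ : Fin N → ℂ} {g : Gr}

/-- both functionals -/
theorem gain_sound (c : Cf N w R β ρ g) {q : Bool} {kp : ℝ → ℝ} {Y y : ℝ} (hY : Y < 1)
    (hkp : kp = if q then (fun x => 1 / dn (av (uu w)) x) else kM (uu w))
    {th sc s T T' U V Sm rho : ℕ} (hS : ρ * SV.sq (uu w) ≤ (Sm : ℝ) / 2 ^ 20)
    (hr : ‖av (uu w)‖ ≤ (rho : ℝ) / 2 ^ 20) (hr1 : 1 ≤ rho)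
    (hI : Inv N (uu w) β kp th sc s T' U V) (hy0 : 0 ≤ y) (hyR : y ≤ R)
    (hys : y ≤ (s : ℝ) / 2 ^ 10 / β)
    (hsY : (s : ℝ) / 2 ^ 10 / β ≤ Y) (hqy : ‖qq (uu w) y‖ ≤ (T : ℝ) / 2 ^ 40) :
    (gain g q Sm rho th T U V : ℝ) / 2 ^ 40 ≤
      ((N : ℝ) + 1) * ‖∫ x in (0 : ℝ)..y, qq (uu w) x‖ := by
  have hN1 : 1 ≤ N := by have := c.hN; omega
  cases q with
  | true =>
    rw [if_pos rfl] at hkp
    rw [hkp] at hI
    exact gain_Q hN1 c.u_le hY hr hr1 hI hy0 hys hsY hqy (c.one_sub hy0 hyR)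
  | false =>
    rw [if_neg (by simp)] at hkp
    rw [hkp] at hI
    exact gain_M hN1 c.u_le c.hβa c.hBa c.hr00 c.hr0 hY hS hr hr1 hI hy0 hys hsY hqy

theorem Cf.tail_sound (c : Cf N w R β ρ g) {h : ℕ} {Sm fU cU k0 s : ℕ} (hh : 1 ≤ h)
    (hC : Cells N (uu w) β g Sm fU cU k0 h) {b : List (ℕ × ℕ)} {xe : ℕ} {kk : ℕ → Bool}
    (hrun : runT g Sm fU cU k0 h b s 0 (fun s2 Q =>
      xt g xe g.tab (s2 * 1024 / g.Bb)
        ((g.Na + 1) * g.r1 * g.Bb * Q / (g.Na * 2147483648) + 1) fun x tail =>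
        Nat.ble xe x && kk tail) = true) :
    ∃ tail, kk tail = true ∧ ∀ Y : ℝ, (s : ℝ) / 2 ^ 10 / β ≤ Y → Y ≤ (xe : ℝ) / 1024 →
      ((N : ℝ) + 1) * ∫ x in ((s : ℝ) / 2 ^ 10 / β)..Y, ‖qq (uu w) x‖ ≤ (tail : ℝ) / 2 ^ 40 := by
  have hβ := c.hβ
  have hρ : 0 < ρ := by linarith [c.hρ]
  obtain ⟨a, ha⟩ : ∃ a, a = (s : ℝ) / 2 ^ 10 / β := ⟨_, rfl⟩
  obtain ⟨s2, Q, hs2, hk, hI⟩ := runT_sound (u := uu w) (a := a) hβ hh hC b s 0 hrun
  have hI := hI (by rw [← ha, intervalIntegral.integral_same]; norm_num)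
  obtain ⟨bb, hb⟩ : ∃ bb, bb = (s2 : ℝ) / 2 ^ 10 / β := ⟨_, rfl⟩
  rw [← hb] at hI
  obtain ⟨t0, ht0⟩ : ∃ t0, t0 = (g.Na + 1) * g.r1 * g.Bb * Q / (g.Na * 2147483648) + 1 := ⟨_, rfl⟩
  rw [← ht0] at hk
  obtain ⟨x', t', hk', hI'⟩ := xt_sound (a := a) (b := bb) hρ c.hr1 c.hNa g.tab c.hT _ _ hk
  rw [Bool.and_eq_true, Nat.ble_eq] at hk'
  obtain ⟨hxe, hkk⟩ := hk'
  refine ⟨t', hkk, fun Y hY0 hY1 => ?_⟩
  rw [← ha] at hY0 ⊢
  have hNr : (40 : ℝ) ≤ N := by exact_mod_cast c.hN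
  have hNar : (40 : ℝ) ≤ g.Na := by exact_mod_cast c.hNa1
  have hNaN : (g.Na : ℝ) ≤ N := by exact_mod_cast c.hNa
  have hBbr : (0 : ℝ) < g.Bb := by exact_mod_cast c.hBb
  have hxb : ((s2 * 1024 / g.Bb : ℕ) : ℝ) / 1024 ≤ bb := by
    have h1 := div_le_real (s2 * 1024) g.Bb
    have h2 : (s2 : ℝ) / 2 ^ 10 / ((g.Bb : ℝ) / 2 ^ 10) ≤ bb := by
      rw [hb]
      exact div_le_div_of_nonneg_left (by positivity) hβ c.hβb
    refine le_trans ?_ h2
    rw [div_le_iff₀ (by norm_num)]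
    refine h1.trans (le_of_eq ?_)
    push_cast
    field_simp
  have hstart : ((N : ℝ) + 1) * (∫ z in a..(max bb (((s2 * 1024 / g.Bb : ℕ) : ℝ) / 1024)),
      ‖qq (uu w) z‖) ≤ (t0 : ℝ) / 2 ^ 40 := by
    rw [max_eq_left hxb]
    obtain ⟨I, hId⟩ : ∃ I, I = ∫ x in a..bb, ‖qq (uu w) x‖ := ⟨_, rfl⟩
    rw [← hId] at hI ⊢
    have h1 : ((N : ℝ) + 1) * I ≤ (((g.Na : ℝ) + 1) / g.Na * ((g.r1 : ℝ) / 2 ^ 10 *
        ((g.Bb : ℝ) / 2 ^ 10))) * (β * I) := by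
      have hI0 : 0 ≤ I := by
        rw [hId]
        apply intervalIntegral.integral_nonneg _ (fun x _ => norm_nonneg _)
        rw [ha, hb]
        apply div_le_div_of_nonneg_right _ hβ.le
        apply div_le_div_of_nonneg_right _ (by positivity)
        exact_mod_cast hs2
      have h2 : ((N : ℝ) + 1) / N ≤ ((g.Na : ℝ) + 1) / g.Na := by
        rw [div_le_div_iff₀ (by linarith) (by linarith)]
        linarith
      have h3 : β * ρ ≤ (g.r1 : ℝ) / 2 ^ 10 * ((g.Bb : ℝ) / 2 ^ 10) := by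
        rw [mul_comm β]
        exact mul_le_mul c.hr1 c.hβb hβ.le (by positivity)
      have h4 : ((N : ℝ) + 1) * I = (((N : ℝ) + 1) / N * (β * ρ)) * (β * I) := by
        have e : (N : ℝ) = β ^ 2 * ρ := c.hβN.symm
        have hNN : (N : ℝ) ≠ 0 := by linarith
        have e2 : (β * ρ) * β = (N : ℝ) := by rw [e]; ring
        calc ((N : ℝ) + 1) * I = (((N : ℝ) + 1) / N) * N * I := by field_simp
          _ = (((N : ℝ) + 1) / N) * ((β * ρ) * β) * I := by rw [e2]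
          _ = _ := by ring
      rw [h4]
      apply mul_le_mul_of_nonneg_right _ (by positivity)
      exact mul_le_mul h2 h3 (by positivity) (by positivity)
    refine h1.trans ?_
    have h5 := mul_le_mul_of_nonneg_left hI (by positivity : (0 : ℝ) ≤ ((g.Na : ℝ) + 1) / g.Na *
      ((g.r1 : ℝ) / 2 ^ 10 * ((g.Bb : ℝ) / 2 ^ 10)))
    refine h5.trans ?_
    have h6 := real_le_div ((g.Na + 1) * g.r1 * g.Bb * Q) (g.Na * 2147483648) (by
      have := c.hNa1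
      omega)
    rw [← ht0] at h6
    refine le_trans (le_of_eq ?_) (div_le_div_of_nonneg_right h6 (by positivity))
    have : (g.Na : ℝ) ≠ 0 := by linarith
    push_cast
    field_simp
    norm_num
    ring
  have hfin := hI' hstart
  have hYm : Y ≤ max bb ((x' : ℝ) / 1024) := by
    refine le_trans ?_ (le_max_right _ _)
    refine hY1.trans ?_
    apply div_le_div_of_nonneg_right _ (by norm_num)
    exact_mod_cast hxe
  refine le_trans ?_ hfin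
  apply mul_le_mul_of_nonneg_left _ (by linarith)
  have hadd : (∫ x in a..(max bb ((x' : ℝ) / 1024)), ‖qq (uu w) x‖) =
      (∫ x in a..Y, ‖qq (uu w) x‖) + ∫ x in Y..(max bb ((x' : ℝ) / 1024)), ‖qq (uu w) x‖ :=
    (intervalIntegral.integral_add_adjacent_intervals
      ((qq_cont (uu w)).norm.intervalIntegrable _ _)
      ((qq_cont (uu w)).norm.intervalIntegrable _ _)).symm
  rw [hadd]
  have := intervalIntegral.integral_nonneg (μ := volume) (f := fun x => ‖qq (uu w) x‖) hYm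
    (fun x _ => norm_nonneg _)
  linarith

theorem one_sound (hC2 : Cfg2 N z w R σ) (c : Cf N w R β ρ g) {k0 : ℕ} {e : En}
    (hk0 : (k0 : ℝ) / 2 ^ 10 ≤ (av (uu w)).re * ρ * β)
    (hk1 : (av (uu w)).re * ρ * β ≤ (e.k1 : ℝ) / 2 ^ 10)
    (h : one g k0 e = true) : False := by
  obtain ⟨hmx, hmx1⟩ := c.mx_sound hk1
  have hN1 : 1 ≤ N := by have := c.hN; omega
  have hρ : 0 < ρ := by linarith [c.hρ]
  have hβ := c.hβ
  have hR := c.hR
  have hBar : (0 : ℝ) < g.Ba := by exact_mod_cast c.hBa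
  unfold one at h
  simp only [ev_eq, Bool.and_eq_true, Nat.ble_eq] at h
  obtain ⟨hh, hsg, h⟩ := h
  obtain ⟨mx, hmx'⟩ : ∃ mx, mx = mxU g e.k1 := ⟨_, rfl⟩
  rw [← hmx'] at hmx hmx1 h
  have hgpgn := c.gp_gn hmx
  obtain ⟨hrho, hrho2⟩ := c.rho_sound hmx
  have hfU := c.fU_sound hmx
  obtain ⟨Sm, hSm⟩ : ∃ Sm, Sm = Nat.min (1048576 + 2 * mx) (g.r1 * 1024) := ⟨_, rfl⟩
  obtain ⟨gp, hgp⟩ : ∃ gp, gp = (g.R0 - 1024) * 1048576 / g.R0 := ⟨_, rfl⟩
  obtain ⟨gn, hgn⟩ : ∃ gn, gn = (3 * g.R1 + (1048576 / g.R0 + 1) - 2048) * mx / 1024 + 1 :=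
    ⟨_, rfl⟩
  obtain ⟨rho, hrh⟩ : ∃ rho, rho = Nat.min 1048576 (isq (mx * 2147483648 / g.R0 + 1)) := ⟨_, rfl⟩
  obtain ⟨rho2, hrh2⟩ : ∃ rho2, rho2 = Nat.min 1048576 (mx * 2048 / g.R0 + 1) := ⟨_, rfl⟩
  obtain ⟨fU, hfUd⟩ : ∃ fU, fU = Nat.min (g.fx * 1024) (mx * 1024 / g.R0 + 1) := ⟨_, rfl⟩
  obtain ⟨cU, hcU⟩ : ∃ cU, cU = cW fU := ⟨_, rfl⟩
  obtain ⟨sc, hsc⟩ : ∃ sc, sc = (g.R0 - e.sg) * g.Ba / 1024 := ⟨_, rfl⟩
  have hrho1 : 1 ≤ rho := by
    rw [hrh]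
    exact Nat.le_min.2 ⟨by norm_num, isq_pos _⟩
  rw [← hrh] at hrho
  rw [← hrh2] at hrho2
  rw [← hfUd] at hfU
  rw [← hgp, ← hgn] at hgpgn
  rw [← hSm, ← hgp, ← hgn, ← hrh, ← hrh2, ← hfUd, ← hcU, ← hsc] at h
  clear hgp hgn hrh hrh2 hfUd hmx'
  have hS : ρ * SV.sq (uu w) ≤ (Sm : ℝ) / 2 ^ 20 := by
    have hsq1 : SV.sq (uu w) ≤ 1 := by
      have hNpos : (0 : ℝ) < N := by exact_mod_cast (show 0 < N by omega)
      unfold SV.sq
      have : ∑ k, ‖uu w k‖ ^ 2 ≤ ∑ _k : Fin N, (1 : ℝ) :=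
        Finset.sum_le_sum fun k _ => pow_le_one₀ (norm_nonneg _) (c.u_le k)
      simp only [Finset.sum_const, Finset.card_univ, Fintype.card_fin, nsmul_eq_mul, mul_one] at this
      rw [div_mul_eq_mul_div, one_mul, div_le_one hNpos]
      exact this
    have h1 : ρ * SV.sq (uu w) ≤ (g.r1 : ℝ) / 2 ^ 10 := by
      have := mul_le_mul_of_nonneg_left hsq1 hρ.le
      linarith [c.hr1]
    have h2 := c.hSq
    rw [hSm]
    rcases Nat.le_total (1048576 + 2 * mx) (g.r1 * 1024) with h3 | h3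
    · rw [show Nat.min (1048576 + 2 * mx) (g.r1 * 1024) = 1048576 + 2 * mx from Nat.min_eq_left h3]
      push_cast
      have e : (1048576 + 2 * (mx : ℝ)) / 2 ^ 20 = 1 + 2 * (mx / 2 ^ 20) := by ring
      rw [e]
      linarith
    · rw [show Nat.min (1048576 + 2 * mx) (g.r1 * 1024) = g.r1 * 1024 from Nat.min_eq_right h3]
      push_cast
      have e : (g.r1 : ℝ) * 1024 / 2 ^ 20 = g.r1 / 2 ^ 10 := by ring
      rw [e]
      exact h1
  clear hSm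
  obtain ⟨Y, hYd⟩ : ∃ Y : ℝ, Y = 1000 / 1024 := ⟨_, rfl⟩
  have hY1 : Y < 1 := by rw [hYd]; norm_num
  have hY : ∀ s : ℕ, 1024 * s ≤ 1000 * g.Ba → (s : ℝ) / 2 ^ 10 / β ≤ Y := by
    intro s hs
    have h1 : (s : ℝ) / 2 ^ 10 / β ≤ (s : ℝ) / 2 ^ 10 / ((g.Ba : ℝ) / 2 ^ 10) :=
      div_le_div_of_nonneg_left (by positivity) (by positivity) c.hβa
    refine h1.trans ?_
    have h2 : (1024 : ℝ) * s ≤ 1000 * g.Ba := by exact_mod_cast hs
    rw [hYd, div_le_iff₀ (by positivity)]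
    have e : (1000 : ℝ) / 1024 * ((g.Ba : ℝ) / 2 ^ 10) = 1000 * g.Ba / 2 ^ 20 := by ring
    rw [e, div_le_div_iff₀ (by positivity) (by positivity)]
    nlinarith
  obtain ⟨kp, hkp⟩ : ∃ kp : ℝ → ℝ, kp = if e.q then (fun x => 1 / dn (av (uu w)) x) else
    kM (uu w) := ⟨_, rfl⟩
  have hkpc : ContinuousOn kp (Set.Icc 0 Y) := by
    rw [hkp]
    by_cases hq : e.q = true
    · rw [if_pos hq]
      apply ContinuousOn.div continuousOn_const
      · unfold dn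
        fun_prop
      · intro x hx
        exact (dn_pos c.av_le hx.1 (lt_of_le_of_lt hx.2 hY1)).ne'
    · rw [if_neg hq]
      exact kM_cont c.u_le hY1
  have hK : ∀ s : ℕ, 1024 * (s + e.h) ≤ 1000 * g.Ba →
      ∀ x ∈ Set.Icc ((s : ℝ) / 2 ^ 10 / β) (((s + e.h : ℕ) : ℝ) / 2 ^ 10 / β),
        ρ * kp x ≤ ((bif e.q then kapQ g.r1 mx rho2 g.Ba g.Bb s (s + e.h)
          else kapM g.hi g.R1 g.r1 mx gp gn g.Ba g.Bb s (s + e.h) : ℕ) : ℝ) / 2 ^ 20 := by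
    intro s hs x hx
    by_cases hq : e.q = true
    · rw [hkp, if_pos hq, hq, cond_true]
      exact kapQ_sound c.av_le hρ.le c.hr1 c.m_nonneg hmx hrho2 c.hBa c.hβa c.hBb c.hβb hs hx.1 hx.2
    · have hq' : e.q = false := by simpa using hq
      rw [hkp, if_neg hq, hq', cond_false]
      exact kapM_sound hN1 c.hw c.ht hR c.hR1 hρ.le c.hr1 (fun h => ⟨(c.hhi h).1, (c.hhi h).2.1⟩)
        c.m_nonneg hmx hgpgn c.hBa c.hβa c.hBb c.hβb hs hx.1 hx.2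
  have hcells := c.cells (h := e.h) hh hS hk0 hfU hcU
  obtain ⟨s, T, U, V, _, hk, hI⟩ := run_sound (u := uu w) hρ hβ c.hβN hkpc hh hY hK hcells e.a
    0 _ 0 0 h
  simp only [Bool.and_eq_true, Nat.ble_eq] at hk
  obtain ⟨hdom, hk⟩ := hk
  have hI := hI hdom (by
    constructor
    · intro y _ hy1
      have hy2 : β * y ≤ 0 := by simpa using hy1
      have hy3 : 0 ≤ β * y := by
        rename_i hh0
        rcases hh0 with h0 | h0
        · exact le_trans (by positivity) h0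
        · exact le_trans (by positivity) h0
      have hy : y = 0 := by
        have : β * y = 0 := le_antisymm hy2 hy3
        rcases mul_eq_zero.1 this with h0 | h0
        · exact absurd h0 hβ.ne'
        · exact h0
      rw [hy, qq_zero, norm_one]
      norm_num
    · simp
    · simp)
  -- the end
  obtain ⟨y, hy⟩ : ∃ y, y = R - (e.sg : ℝ) / 2 ^ 10 := ⟨_, rfl⟩
  have hsg' : e.sg < g.R0 := by omega
  have hsr0 : ((g.R0 - e.sg : ℕ) : ℝ) = g.R0 - e.sg := Nat.cast_sub hsg'.le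
  have hsr1 : ((g.R1 - e.sg : ℕ) : ℝ) = g.R1 - e.sg := Nat.cast_sub (hsg'.le.trans c.hg01)
  have hy0 : ((g.R0 - e.sg : ℕ) : ℝ) / 2 ^ 10 ≤ y := by
    have := c.hR0
    rw [hsr0, sub_div, hy]; linarith
  have hy1 : y ≤ ((g.R1 - e.sg : ℕ) : ℝ) / 2 ^ 10 := by
    have := c.hR1
    rw [hsr1, sub_div, hy]; linarith
  have hypos : 0 ≤ y := le_trans (by positivity) hy0
  have hyR : y ≤ R := by
    rw [hy]
    have : (0 : ℝ) ≤ (e.sg : ℝ) / 2 ^ 10 := by positivity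
    linarith
  have hscy : (sc : ℝ) / 2 ^ 10 ≤ β * y := by
    have h1 := div_le_real ((g.R0 - e.sg) * g.Ba) 1024
    rw [← hsc] at h1
    have h2 := mul_le_mul c.hβa hy0 (by positivity) hβ.le
    refine le_trans ?_ h2
    rw [div_le_iff₀ (by positivity)]
    refine h1.trans (le_of_eq ?_)
    push_cast
    ring
  have hfin : ∀ tail : ℕ, fin g e mx Sm rho e.th tail T U V = true →
      (∃ y0 : ℝ, 0 ≤ y0 ∧ y0 ≤ y ∧ y0 ≤ (s : ℝ) / 2 ^ 10 / β ∧ ‖qq (uu w) y0‖ ≤ (T : ℝ) / 2 ^ 40 ∧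
        ((N : ℝ) + 1) * (∫ x in y0..y, ‖qq (uu w) x‖) ≤ (tail : ℝ) / 2 ^ 40) → False := by
    intro tail hf ⟨y0, hy00, hy0y, hy0s, hqy, htail⟩
    unfold fin at hf
    simp only [ev_eq, Bool.and_eq_true, Nat.ble_eq] at hf
    obtain ⟨hG, hend⟩ := hf
    have hg := gain_sound c hY1 hkp hS hrho hrho1 hI hy00 (hy0y.trans hyR) hy0s (hY s hdom) hqy
    obtain ⟨G, hGd⟩ : ∃ G, G = gain g e.q Sm rho e.th T U V := ⟨_, rfl⟩
    rw [← hGd] at hg hG hend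
    refine endt_sound hC2 c.hN c.hNa c.hNb c.hR0 c.hR1 c.hg01 hsg' hmx hmx1 ?_ hend
    rw [← hy, Nat.cast_sub (by omega), sub_div]
    have h1 : (∫ x in (0 : ℝ)..y0, qq (uu w) x) = (∫ x in (0 : ℝ)..y, qq (uu w) x) -
        ∫ x in y0..y, qq (uu w) x := by
      rw [eq_sub_iff_add_eq]
      exact intervalIntegral.integral_add_adjacent_intervals
        ((qq_cont (uu w)).intervalIntegrable _ _) ((qq_cont (uu w)).intervalIntegrable _ _)
    have h2 : ‖∫ x in (0 : ℝ)..y0, qq (uu w) x‖ ≤ ‖∫ x in (0 : ℝ)..y, qq (uu w) x‖ +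
        ∫ x in y0..y, ‖qq (uu w) x‖ := by
      rw [h1]
      refine (norm_sub_le _ _).trans ?_
      have := intervalIntegral.norm_integral_le_integral_norm (μ := volume)
        (f := fun x => qq (uu w) x) hy0y
      linarith
    have h3 := mul_le_mul_of_nonneg_left h2 (by positivity : (0 : ℝ) ≤ (N : ℝ) + 1)
    rw [mul_add] at h3
    linarith
  by_cases ht : e.t = true
  · rw [ht, cond_true] at hk
    rw [Bool.and_eq_true, Nat.ble_eq] at hk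
    obtain ⟨hssc, hk⟩ := hk
    obtain ⟨tail, hft, htl⟩ := c.tail_sound (kk := fun tail => fin g e mx Sm rho e.th tail T U V)
      hh hcells hk
    have hsy : (s : ℝ) / 2 ^ 10 / β ≤ y := by
      rw [div_le_iff₀ hβ, mul_comm]
      refine le_trans ?_ hscy
      apply div_le_div_of_nonneg_right _ (by positivity)
      exact_mod_cast hssc
    refine hfin tail hft ⟨(s : ℝ) / 2 ^ 10 / β, by positivity, hsy, le_rfl, ?_, ?_⟩
    · have e1 : β * ((s : ℝ) / 2 ^ 10 / β) = (s : ℝ) / 2 ^ 10 := by field_simp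
      exact hI.hT _ (Or.inr (le_of_eq e1.symm)) (le_of_eq e1)
    · apply htl y hsy
      refine hy1.trans (le_of_eq ?_)
      norm_num
  · have ht' : e.t = false := by simpa using ht
    rw [ht', cond_false, Bool.and_eq_true, Nat.ble_eq] at hk
    obtain ⟨hE, hk⟩ := hk
    have hys : y ≤ (s : ℝ) / 2 ^ 10 / β := by
      have h1 := div_le_real (s * 1024) g.Bb
      have hBbr : (0 : ℝ) < g.Bb := by exact_mod_cast c.hBb
      have h2 : ((g.R1 : ℝ) - e.sg) ≤ ((s * 1024 / g.Bb : ℕ) : ℝ) := by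
        have : (g.R1 : ℝ) ≤ ((s * 1024 / g.Bb : ℕ) : ℝ) + e.sg := by exact_mod_cast hE
        linarith
      have h3 : ((g.R1 : ℝ) - e.sg) / 2 ^ 10 ≤ (s : ℝ) / 2 ^ 10 / ((g.Bb : ℝ) / 2 ^ 10) := by
        have h4 := div_le_div_of_nonneg_right (h2.trans h1) (by positivity : (0 : ℝ) ≤ 2 ^ 10)
        refine h4.trans (le_of_eq ?_)
        push_cast
        field_simp
        norm_num
      rw [← hsr1] at h3
      refine hy1.trans (h3.trans ?_)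
      exact div_le_div_of_nonneg_left (by positivity) hβ c.hβb
    refine hfin 0 hk ⟨y, hypos, le_rfl, hys, ?_, ?_⟩
    · apply hI.hT y (Or.inl hscy)
      have := mul_le_mul_of_nonneg_left hys hβ.le
      refine this.trans (le_of_eq ?_)
      field_simp
    · rw [intervalIntegral.integral_same]
      norm_num

theorem goK_sound (hC2 : Cfg2 N z w R σ) (c : Cf N w R β ρ g) (l : List En) :
    ∀ k0 : ℕ, (k0 : ℝ) / 2 ^ 10 ≤ (av (uu w)).re * ρ * β → goK g k0 l = true → False := by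
  induction l with
  | nil =>
    intro k0 hk h
    unfold goK at h
    rw [Nat.ble_eq] at h
    have h1 := real_lt_div (g.fx * g.R1 * g.r1 * g.Bb) 1073741824 (by norm_num)
    have h2 : (av (uu w)).re * ρ * β ≤ (g.fx : ℝ) / 1024 * (g.R1 / 2 ^ 10) * (g.r1 / 2 ^ 10) *
        (g.Bb / 2 ^ 10) := by
      have hρ : 0 ≤ ρ := by linarith [c.hρ]
      have hm : (av (uu w)).re ≤ (g.fx : ℝ) / 1024 * (g.R1 / 2 ^ 10) :=
        c.hfx.trans (mul_le_mul_of_nonneg_left c.hR1 (by positivity))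
      have h3 := mul_le_mul hm c.hr1 hρ (by positivity)
      exact mul_le_mul h3 c.hβb c.hβ.le (by positivity)
    have h3 : ((g.fx * g.R1 * g.r1 * g.Bb / 1073741824 + 1 : ℕ) : ℝ) ≤ k0 := by exact_mod_cast h
    have h4 : (g.fx : ℝ) / 1024 * (g.R1 / 2 ^ 10) * (g.r1 / 2 ^ 10) * (g.Bb / 2 ^ 10) =
        ((g.fx * g.R1 * g.r1 * g.Bb : ℕ) : ℝ) / ((1073741824 : ℕ) : ℝ) / 2 ^ 10 := by
      push_cast
      ring
    rw [h4] at h2
    have h5 := div_lt_div_of_pos_right (h1.trans_le h3) (by positivity : (0 : ℝ) < 2 ^ 10)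
    linarith
  | cons e l ih =>
    intro k0 hk h
    unfold goK at h
    rw [Bool.and_eq_true] at h
    obtain ⟨h1, h2⟩ := h
    rcases le_total ((av (uu w)).re * ρ * β) ((e.k1 : ℝ) / 2 ^ 10) with h3 | h3
    · exact one_sound hC2 c hk h3 h1
    · exact ih _ h3 h2

end

/-- **the checker is sound** -/
theorem chk_sound {N : ℕ} {z w : Fin N → ℂ} {R : ℝ} {σ : Fin N → ℂ} {g : Gr} {l : List En}
    (h : chk g l = true) (hC2 : Cfg2 N z w R σ) (hNa : g.Na ≤ N) (hNb : N ≤ g.Nb)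
    (hR0 : (g.R0 : ℝ) / 2 ^ 10 ≤ R) (hR1 : R ≤ (g.R1 : ℝ) / 2 ^ 10)
    (hf0 : (g.f0 : ℝ) / 1024 * R ≤ (av (uu w)).re)
    (hfx : (av (uu w)).re ≤ (g.fx : ℝ) / 1024 * R)
    (hP : ∀ x ∈ Set.Icc (0 : ℝ) ((g.pc : ℝ) / 10), ‖qq (uu w) x‖ ≤
      Real.exp (-(N * ((x ^ 2 / 2 - x ^ 3 / 5) / max 1 R))))
    (hV : g.R1 ≤ 820 → R ≤ 4 / 5)
    (hW : g.R1 ≤ 768 → ProfW N w R) (hT : ProfT N w (max 1 R) g.tab) : False := by
  unfold chk at h
  simp only [ev_eq, Bool.and_eq_true, Nat.ble_eq] at h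
  obtain ⟨hg0, hg01, hBa, hBb, hNa40, hr, hBaN, hBbN, hgo⟩ := h
  have hR := hC2.hR
  have hw : ∀ k, 1 ≤ ‖w k‖ := hC2.cfg.far
  have ht : ∑ k, ‖w k - (R : ℂ)‖ ≤ N := hC2.dist.le
  have hN40 : 40 ≤ N := by omega
  have hN1 : 1 ≤ N := by omega
  have hNr : (40 : ℝ) ≤ N := by exact_mod_cast hN40
  have hNar : (g.Na : ℝ) ≤ N := by exact_mod_cast hNa
  have hNbr : (N : ℝ) ≤ g.Nb := by exact_mod_cast hNb
  obtain ⟨ρ, hρd⟩ : ∃ ρ, ρ = max 1 R := ⟨_, rfl⟩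
  rw [← hρd] at hP hT
  have hρ1 : 1 ≤ ρ := by rw [hρd]; exact le_max_left _ _
  have hρ0 : 0 < ρ := by linarith
  -- the two cases
  have hcase : (g.hi = true ∧ 1024 ≤ g.R0 ∧ g.r0 = g.R0 ∧ g.r1 = g.R1 ∧ ρ = R ∧ 1 ≤ R) ∨
      (g.hi = false ∧ g.R1 ≤ 1024 ∧ g.r0 = 1024 ∧ g.r1 = 1024 ∧ ρ = 1 ∧ R ≤ 1) := by
    cases hh : g.hi with
    | true =>
      left
      rw [hh, cond_true] at hr
      simp only [Bool.and_eq_true, Nat.ble_eq] at hr
      obtain ⟨h1, h2, h3⟩ := hr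
      have h4 : 1 ≤ R := by
        refine le_trans ?_ hR0
        rw [le_div_iff₀ (by positivity)]
        have : (1024 : ℝ) ≤ g.R0 := by exact_mod_cast h1
        linarith
      exact ⟨rfl, h1, Nat.eq_of_beq_eq_true h2, Nat.eq_of_beq_eq_true h3,
        by rw [hρd]; exact max_eq_right h4, h4⟩
    | false =>
      right
      rw [hh, cond_false] at hr
      simp only [Bool.and_eq_true, Nat.ble_eq] at hr
      obtain ⟨h1, h2, h3⟩ := hr
      have h4 : R ≤ 1 := by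
        refine hR1.trans ?_
        rw [div_le_iff₀ (by positivity)]
        have : (g.R1 : ℝ) ≤ 1024 := by exact_mod_cast h1
        linarith
      exact ⟨rfl, h1, Nat.eq_of_beq_eq_true h2, Nat.eq_of_beq_eq_true h3,
        by rw [hρd]; exact max_eq_left h4, h4⟩
  have hr0 : (g.r0 : ℝ) / 2 ^ 10 ≤ ρ := by
    rcases hcase with ⟨_, _, h2, _, h4, _⟩ | ⟨_, _, h2, _, h4, _⟩
    · rw [h2, h4]; exact hR0
    · rw [h2, h4]; norm_num
  have hr1 : ρ ≤ (g.r1 : ℝ) / 2 ^ 10 := by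
    rcases hcase with ⟨_, _, _, h3, h4, _⟩ | ⟨_, _, _, h3, h4, _⟩
    · rw [h3, h4]; exact hR1
    · rw [h3, h4]; norm_num
  have hr00 : 1 ≤ g.r0 := by
    rcases hcase with ⟨_, h1, h2, _⟩ | ⟨_, _, h2, _⟩
    · omega
    · omega
  have hm0 : 0 ≤ (av (uu w)).re := by
    have h1 := first_moment hN1 hw ht hR
    have : 0 ≤ R * ‖av (uu w)‖ ^ 2 := by positivity
    linarith
  have hSq : ρ * SV.sq (uu w) ≤ 1 + 2 * (av (uu w)).re := by
    rcases hcase with ⟨_, _, _, _, h4, _⟩ | ⟨_, _, _, _, h4, _⟩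
    · rw [h4]
      exact sq_bound hN1 hw ht hR
    · rw [h4, one_mul]
      have hsq1 : SV.sq (uu w) ≤ 1 := by
        have hNpos : (0 : ℝ) < N := by linarith
        have hu : ∀ k, ‖uu w k‖ ≤ 1 := by
          intro k
          unfold uu
          rw [norm_inv]
          exact inv_le_one_of_one_le₀ (hw k)
        unfold SV.sq
        have : ∑ k, ‖uu w k‖ ^ 2 ≤ ∑ _k : Fin N, (1 : ℝ) :=
          Finset.sum_le_sum fun k _ => pow_le_one₀ (norm_nonneg _) (hu k)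
        simp only [Finset.sum_const, Finset.card_univ, Fintype.card_fin, nsmul_eq_mul,
          mul_one] at this
        rw [div_mul_eq_mul_div, one_mul, div_le_one hNpos]
        exact this
      linarith
  obtain ⟨β, hβ⟩ : ∃ β, β = Real.sqrt (N / ρ) := ⟨_, rfl⟩
  have hβ2 : β ^ 2 = N / ρ := by
    rw [hβ, Real.sq_sqrt (by positivity)]
  have hβ0 : 0 ≤ β := by rw [hβ]; exact Real.sqrt_nonneg _
  have hβa : (g.Ba : ℝ) / 2 ^ 10 ≤ β := by
    apply le_of_sq_le_sq' _ hβ0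
    rw [hβ2, le_div_iff₀ hρ0]
    have h1 : ((g.Ba : ℝ) / 2 ^ 10) ^ 2 * ρ ≤ ((g.Ba : ℝ) / 2 ^ 10) ^ 2 * ((g.r1 : ℝ) / 2 ^ 10) :=
      mul_le_mul_of_nonneg_left hr1 (by positivity)
    have e : ((g.Ba : ℝ) / 2 ^ 10) ^ 2 * ((g.r1 : ℝ) / 2 ^ 10) = g.r1 * (g.Ba * g.Ba) / 2 ^ 30 := by
      ring
    rw [e] at h1
    refine h1.trans ?_
    rw [div_le_iff₀ (by positivity)]
    have h2 : (g.r1 : ℝ) * (g.Ba * g.Ba) ≤ g.Na * 1073741824 := by exact_mod_cast hBaN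
    refine h2.trans ?_
    norm_num
    exact hNa
  have hβb : β ≤ (g.Bb : ℝ) / 2 ^ 10 := by
    apply le_of_sq_le_sq' _ (by positivity)
    rw [hβ2, div_le_iff₀ hρ0]
    have h1 : ((g.Bb : ℝ) / 2 ^ 10) ^ 2 * ((g.r0 : ℝ) / 2 ^ 10) ≤ ((g.Bb : ℝ) / 2 ^ 10) ^ 2 * ρ :=
      mul_le_mul_of_nonneg_left hr0 (by positivity)
    have e : ((g.Bb : ℝ) / 2 ^ 10) ^ 2 * ((g.r0 : ℝ) / 2 ^ 10) = g.r0 * (g.Bb * g.Bb) / 2 ^ 30 := by
      ring
    rw [e] at h1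
    refine le_trans ?_ h1
    rw [le_div_iff₀ (by positivity)]
    have h2 : (g.Nb : ℝ) * 1073741824 ≤ g.r0 * (g.Bb * g.Bb) := by exact_mod_cast hBbN
    refine le_trans ?_ h2
    norm_num
    exact hNb
  have hβN : β ^ 2 * ρ = N := by
    rw [hβ2]
    field_simp
  have c : Cf N w R β ρ g := by
    refine ⟨hN40, hNa, hNa40, hNb, hw, ht, hR, hR0, hR1, hg0, hg01, hρ1, hr0, hr1, hr00, ?_, ?_,
      hSq, hBa, hBb, hβa, hβb, hβN, hfx, hP, hV, hW, hT⟩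
    · intro hh
      rcases hcase with ⟨_, h1, _, _, h4, h5⟩ | ⟨h0, _⟩
      · exact ⟨h4, h5, h1⟩
      · rw [h0] at hh
        exact absurd hh (by simp)
    · intro h820
      rcases hcase with ⟨_, h1, _⟩ | ⟨_, _, _, _, h4, _⟩
      · omega
      · exact h4
  refine goK_sound hC2 c l _ ?_ hgo
  have h1 := div_le_real (g.f0 * g.R0 * g.r0 * g.Ba) 1073741824
  have h2 : (g.f0 : ℝ) / 1024 * (g.R0 / 2 ^ 10) * (g.r0 / 2 ^ 10) * (g.Ba / 2 ^ 10) ≤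
      (av (uu w)).re * ρ * β := by
    have hm : (g.f0 : ℝ) / 1024 * (g.R0 / 2 ^ 10) ≤ (av (uu w)).re :=
      (mul_le_mul_of_nonneg_left hR0 (by positivity)).trans hf0
    have h3 := mul_le_mul hm hr0 (by positivity) hm0
    exact mul_le_mul h3 hβa (by positivity) (by positivity)
  refine le_trans ?_ h2
  have h3 := div_le_div_of_nonneg_right h1 (by positivity : (0 : ℝ) ≤ 2 ^ 10)
  refine h3.trans (le_of_eq ?_)
  push_cast
  ring

end Pool.Agent.Lib.MP_af3a4a_an.P1.CHK.H58.G
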