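import Pool.Agent.Lib.MP_af3a4a_an.P1.CHK.H58.GW
import Pool.Agent.Lib.MP_af3a4a_an.P1.H74.C0c

/-!
# Rows of groups (helper58)

A row: an interval of `N`, with the certificate at `y = 0` (which gives `m₁ > f0 R1`).
-/

set_option autoImplicit false

namespace Pool.Agent.Lib.MP_af3a4a_an.P1.CHK.H58.G

open Finset MeasureTheory ComplexConjugate
open Pool.Agent.Lib.MP_af3a4a_an.SV (uu av)
open Pool.Agent.Lib.MP_af3a4a_an.P1.H80
open Pool.Agent.Lib.MP_af3a4a_an.P1.H74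
open Pool.Agent.Lib.MP_af3a4a_an.P1.H81
open Pool.Agent.Lib.MP_af3a4a_an.P1.CHK.Arith

/-- the conditions of `c0_box`; `a, R1` in `2^-10`, the others in `2^-20` -/
def c0ok (R1 Na Nb m a l lr L0 L1 : ℕ) : Bool :=
  ev ((1024 + a) * R1 * ((1024 + a) * R1)) fun q =>
  ev (a * a * 1048576 / (2 * (1048576 - a * a)) + 1 + l) fun wl =>
  Nat.ble a 296 && (Nat.ble 40 Na && (Nat.ble 1 R1 && (Nat.ble R1 512 && (
  Nat.ble (q * (1099511627776 + q) / 2305843009213693952 + 1)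
    (a * a * 512 / (1024 + a) + a * R1 + l) && (
  Nat.ble (R1 * Arith.ep (lr * 1048576)) 1125899906842624 && (
  Nat.ble (3 * a * 1024 + (a * 1048576 / (1024 - a) + 1)) (4096 * R1) && (
  Nat.ble (2097152 + 2048 * R1) (2 * lr + 2048 * a + 2 * a * R1 + a * a + 2 * l) && (
  Nat.ble (Arith.ep (L0 * 1048576)) ((Na + 1) * 1099511627776) && (
  Nat.ble (Arith.ep (L1 * 1048576)) ((Nb + 1) * 1099511627776) && (
  Nat.ble (Na * wl + (a * (Na + 1) * m / 1024 + 1) + 1048576) (L0 + a * 1024) &&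
  Nat.ble (Nb * wl + (a * (Nb + 1) * m / 1024 + 1) + 1048576) (L1 + a * 1024)))))))))))

structure Row where
  (Na Nb Ba Bb f0 : ℕ)
  c : List (ℕ × ℕ × ℕ × ℕ × ℕ)
  l : List En

def rowOK (hi : Bool) (R0 R1 r0 r1 F fx pc : ℕ) (tab : List (ℕ × ℕ)) (Na Nb Ba Bb f0 : ℕ)
    (l : List En) : List (ℕ × ℕ × ℕ × ℕ × ℕ) → Bool
  | [] => Nat.beq f0 F && chk ⟨hi, R0, R1, r0, r1, Na, Nb, Ba, Bb, f0, fx, pc, tab⟩ l
  | c :: _ => c0ok R1 Na Nb (f0 * R1) c.1 c.2.1 c.2.2.1 c.2.2.2.1 c.2.2.2.2 && (Nat.beq c.1 0 ||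
      (Nat.ble fx f0 || chk ⟨hi, R0, R1, r0, r1, Na, Nb, Ba, Bb, f0, fx, pc, tab⟩ l))

/-- the rows cover `N < Ne` -/
def rowsOK (hi : Bool) (R0 R1 r0 r1 F fx pc : ℕ) (tab : List (ℕ × ℕ)) (Ne : ℕ) :
    ℕ → List Row → Bool
  | N0, [] => Nat.ble Ne N0
  | N0, r :: rs => Nat.beq r.Na N0 &&
      (ev r.Nb fun Nb => ev r.Ba fun Ba => ev r.Bb fun Bb => ev r.f0 fun f0 =>
        rowOK hi R0 R1 r0 r1 F fx pc tab N0 Nb Ba Bb f0 r.l r.c &&
          rowsOK hi R0 R1 r0 r1 F fx pc tab Ne (Nb + 1) rs)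

theorem c0_sound {N : ℕ} {z w : Fin N → ℂ} {R : ℝ} {σ : Fin N → ℂ} {R1 Na Nb m a l lr L0 L1 : ℕ}
    (h : c0ok R1 Na Nb m a l lr L0 L1 = true) (hC : Cfg2 N z w R σ) (hNa : Na ≤ N) (hNb : N ≤ Nb)
    (hR1 : R ≤ (R1 : ℝ) / 2 ^ 10) (hM : a = 0 ∨ (av (uu w)).re ≤ (m : ℝ) / 2 ^ 20) : False := by
  unfold c0ok at h
  simp only [ev_eq, Bool.and_eq_true, Nat.ble_eq] at h
  obtain ⟨ha, hN40, hR1a, hR1b, hA, hlr, hk, hB, hL0, hL1, hf0, hf1⟩ := h
  have haR : (a : ℝ) ≤ 296 := by exact_mod_cast ha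
  have ha0 : (0 : ℝ) ≤ a := Nat.cast_nonneg a
  have hR1R : (1 : ℝ) ≤ R1 := by exact_mod_cast hR1a
  have hR1S : (R1 : ℝ) ≤ 512 := by exact_mod_cast hR1b
  have hN40R : (40 : ℝ) ≤ Na := by exact_mod_cast hN40
  have hNaR : (Na : ℝ) ≤ N := by exact_mod_cast hNa
  have hNbR : (N : ℝ) ≤ Nb := by exact_mod_cast hNb
  have hl0 : (0 : ℝ) ≤ l := Nat.cast_nonneg l
  have hlr0 : (0 : ℝ) ≤ lr := Nat.cast_nonneg lr
  have hm0 : (0 : ℝ) ≤ m := Nat.cast_nonneg m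
  obtain ⟨A, hAd⟩ : ∃ A, A = (a : ℝ) / 2 ^ 10 := ⟨_, rfl⟩
  obtain ⟨r, hrd⟩ : ∃ r, r = (R1 : ℝ) / 2 ^ 10 := ⟨_, rfl⟩
  have hA0 : 0 ≤ A := by rw [hAd]; positivity
  have hA1 : A ≤ 29 / 100 := by
    rw [hAd, div_le_iff₀ (by positivity)]
    norm_num
    linarith
  have hr0 : 0 < r := by rw [hrd]; positivity
  have hr1 : r ≤ 1 / 2 := by
    rw [hrd, div_le_iff₀ (by positivity)]
    have : (1 / 2 : ℝ) * 2 ^ 10 = 512 := by norm_num
    rw [this]
    exact hR1S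
  have ea : (a : ℝ) = 1024 * A := by rw [hAd]; ring
  have er : (R1 : ℝ) = 1024 * r := by rw [hrd]; ring
  -- hA
  have cA : (1 / 2 + (1 + A) ^ 2 * r ^ 2 / 2) * (1 + A) ^ 2 * r ^ 2 ≤
      A ^ 2 / (2 * (1 + A)) + A * r + (l : ℝ) / 2 ^ 20 := by
    have h1 := real_le_div ((1024 + a) * R1 * ((1024 + a) * R1) *
      (1099511627776 + (1024 + a) * R1 * ((1024 + a) * R1))) 2305843009213693952 (by norm_num)
    have h2 := div_le_real (a * a * 512) (1024 + a)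
    have h3 : ((((1024 + a) * R1 * ((1024 + a) * R1) *
      (1099511627776 + (1024 + a) * R1 * ((1024 + a) * R1))) / 2305843009213693952 + 1 : ℕ) : ℝ) ≤
        ((a * a * 512 / (1024 + a) + a * R1 + l : ℕ) : ℝ) := by exact_mod_cast hA
    have h4 := h1.trans h3
    push_cast at h4 h2
    rw [ea, er] at h4
    rw [ea] at h2
    have h5 : 1024 * A * (1024 * A) * 512 / (1024 + 1024 * A) = 2 ^ 20 * (A ^ 2 / (2 * (1 + A))) := by
      field_simp
      ring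
    rw [h5] at h2
    have h6 : (1 / 2 + (1 + A) ^ 2 * r ^ 2 / 2) * (1 + A) ^ 2 * r ^ 2 =
        ((1024 + 1024 * A) * (1024 * r) * ((1024 + 1024 * A) * (1024 * r)) *
          (1099511627776 + (1024 + 1024 * A) * (1024 * r) * ((1024 + 1024 * A) * (1024 * r))) /
          2305843009213693952) / 2 ^ 20 := by ring
    rw [h6, div_le_iff₀ (by positivity)]
    refine h4.trans ?_
    have h7 : (A ^ 2 / (2 * (1 + A)) + A * r + (l : ℝ) / 2 ^ 20) * 2 ^ 20 =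
        2 ^ 20 * (A ^ 2 / (2 * (1 + A))) + 1024 * A * (1024 * r) + l := by ring
    rw [h7]
    linarith
  have cr : Real.log r ≤ -((lr : ℝ) / 2 ^ 20) := by
    have h1 := Arith.ep_spec (lr * 1048576)
    have h2 : (R1 : ℝ) * (Arith.ep (lr * 1048576) : ℝ) ≤ 1125899906842624 := by exact_mod_cast hlr
    have h3 : r * Real.exp ((lr : ℝ) / 2 ^ 20) ≤ 1 := by
      have e1 : (((lr * 1048576 : ℕ) : ℝ)) / 2 ^ 40 = (lr : ℝ) / 2 ^ 20 := by
        push_cast
        norm_num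
        ring
      rw [e1] at h1
      calc r * Real.exp ((lr : ℝ) / 2 ^ 20) ≤ r * ((Arith.ep (lr * 1048576) : ℝ) / 2 ^ 40) :=
            mul_le_mul_of_nonneg_left h1 hr0.le
        _ = (R1 : ℝ) * (Arith.ep (lr * 1048576) : ℝ) / 1125899906842624 := by rw [hrd]; ring
        _ ≤ 1 := by
            rw [div_le_one (by norm_num)]
            exact h2
    rw [Real.log_le_iff_le_exp hr0, Real.exp_neg]
    rw [le_inv_comm₀ hr0 (Real.exp_pos _)]
    rw [← one_div, le_div_iff₀ hr0, mul_comm]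
    exact h3
  have ck : (A + A / (1 - A)) / 2 + A ≤ 2 * r := by
    have h0 : 0 < 1024 - a := by omega
    have h1 := real_le_div (a * 1048576) (1024 - a) h0
    have h2 : ((3 * a * 1024 + (a * 1048576 / (1024 - a) + 1) : ℕ) : ℝ) ≤
        ((4096 * R1 : ℕ) : ℝ) := by exact_mod_cast hk
    have h3 : (((1024 - a : ℕ)) : ℝ) = 1024 - a := by
      rw [Nat.cast_sub (by omega)]
      norm_num
    rw [h3] at h1
    have h4 : ((a * 1048576 : ℕ) : ℝ) / (1024 - a) = 2 ^ 20 * (A / (1 - A)) := by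
      push_cast
      rw [ea]
      have : (1 - A) ≠ 0 := by
        have : 0 < 1 - A := by linarith
        exact this.ne'
      have h5 : (1024 - 1024 * A) ≠ 0 := by
        have : 0 < 1024 - 1024 * A := by linarith
        exact this.ne'
      rw [div_eq_iff h5]
      field_simp
      ring
    rw [h4] at h1
    rw [Nat.cast_add] at h2
    push_cast at h2 h1
    rw [ea, er] at h2
    have h6 : (2 : ℝ) ^ 20 = 1048576 := by norm_num
    rw [h6] at h1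
    have h7 : 3 * (1024 * A) * 1024 + 1048576 * (A / (1 - A)) ≤ 4096 * (1024 * r) := by
      linarith
    linarith
  have cB : 1 + -((lr : ℝ) / 2 ^ 20) + (r - A) - A * r - A ^ 2 / 2 ≤ (l : ℝ) / 2 ^ 20 := by
    have h2 : ((2097152 + 2048 * R1 : ℕ) : ℝ) ≤
        ((2 * lr + 2048 * a + 2 * a * R1 + a * a + 2 * l : ℕ) : ℝ) := by exact_mod_cast hB
    push_cast at h2
    rw [ea, er] at h2
    have h6 : (2 : ℝ) ^ 20 = 1048576 := by norm_num
    rw [h6]
    linarith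
  have cL : ∀ n L : ℕ, Arith.ep (L * 1048576) ≤ (n + 1) * 1099511627776 →
      (L : ℝ) / 2 ^ 20 ≤ Real.log ((n : ℝ) + 1) := by
    intro n L h
    have h1 := Arith.ep_spec (L * 1048576)
    have h2 : (Arith.ep (L * 1048576) : ℝ) ≤ (((n + 1) * 1099511627776 : ℕ) : ℝ) := by exact_mod_cast h
    have e1 : (((L * 1048576 : ℕ) : ℝ)) / 2 ^ 40 = (L : ℝ) / 2 ^ 20 := by
      push_cast
      norm_num
      ring
    rw [e1] at h1
    rw [Real.le_log_iff_exp_le (by positivity)]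
    refine h1.trans ?_
    rw [div_le_iff₀ (by positivity)]
    refine h2.trans (le_of_eq ?_)
    push_cast
    norm_num
  have cf : ∀ n L : ℕ, n * (a * a * 1048576 / (2 * (1048576 - a * a)) + 1 + l) +
      (a * (n + 1) * m / 1024 + 1) + 1048576 ≤ L + a * 1024 →
      (n : ℝ) * (A ^ 2 / (2 * (1 - A ^ 2)) + (l : ℝ) / 2 ^ 20) + A * ((n : ℝ) + 1) *
        ((m : ℝ) / 2 ^ 20) + 1 - A ≤ (L : ℝ) / 2 ^ 20 := by
    intro n L h
    have h0 : a * a ≤ 87616 := Nat.mul_le_mul ha ha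
    have h1 := real_le_div (a * a * 1048576) (2 * (1048576 - a * a)) (by omega)
    have h2 := real_le_div (a * (n + 1) * m) 1024 (by norm_num)
    have h3 : ((n * (a * a * 1048576 / (2 * (1048576 - a * a)) + 1 + l) +
      (a * (n + 1) * m / 1024 + 1) + 1048576 : ℕ) : ℝ) ≤ ((L + a * 1024 : ℕ) : ℝ) := by
      exact_mod_cast h
    have h4 : ((2 * (1048576 - a * a) : ℕ) : ℝ) = 2 * (1048576 - (a : ℝ) * a) := by
      rw [Nat.cast_mul, Nat.cast_sub (by omega)]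
      push_cast
      ring
    rw [h4] at h1
    have hA2 : A ^ 2 ≤ 1 / 4 := by nlinarith
    have h5 : ((a * a * 1048576 : ℕ) : ℝ) / (2 * (1048576 - (a : ℝ) * a)) =
        2 ^ 20 * (A ^ 2 / (2 * (1 - A ^ 2))) := by
      push_cast
      rw [ea]
      have e1 : 2 * (1048576 - 1024 * A * (1024 * A)) ≠ 0 := by
        have : 0 < 2 * (1048576 - 1024 * A * (1024 * A)) := by nlinarith
        exact this.ne'
      have e2 : 1 - A ^ 2 ≠ 0 := by
        have : 0 < 1 - A ^ 2 := by linarith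
        exact this.ne'
      rw [div_eq_iff e1]
      field_simp
      ring
    rw [h5] at h1
    obtain ⟨d1, hd1⟩ : ∃ d, d = a * a * 1048576 / (2 * (1048576 - a * a)) + 1 := ⟨_, rfl⟩
    obtain ⟨d2, hd2⟩ : ∃ d, d = a * (n + 1) * m / 1024 + 1 := ⟨_, rfl⟩
    rw [← hd1] at h1 h3
    rw [← hd2] at h2 h3
    push_cast at h2 h3
    rw [ea] at h2 h3
    have hn0 : (0 : ℝ) ≤ n := Nat.cast_nonneg n
    have h6 := mul_le_mul_of_nonneg_left h1 hn0
    have h7 : (2 : ℝ) ^ 20 = 1048576 := by norm_num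
    rw [h7] at h6 ⊢
    have h8 : A * ((n : ℝ) + 1) * ((m : ℝ) / 1048576) * 1048576 =
        1024 * A * ((n : ℝ) + 1) * m / 1024 := by ring
    rw [le_div_iff₀ (by norm_num)]
    have h9 : ((n : ℝ) * (A ^ 2 / (2 * (1 - A ^ 2)) + (l : ℝ) / 1048576) + A * ((n : ℝ) + 1) *
        ((m : ℝ) / 1048576) + 1 - A) * 1048576 =
        (n : ℝ) * (1048576 * (A ^ 2 / (2 * (1 - A ^ 2)))) + n * l +
          A * ((n : ℝ) + 1) * ((m : ℝ) / 1048576) * 1048576 + 1048576 - 1048576 * A := by ring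
    rw [h9, h8]
    have h10 : (n : ℝ) * ((d1 : ℝ) + l) = n * d1 + n * l := by ring
    linarith
  refine C0.c0_box hC hA0 hA1 hN40R hNaR hNbR (R1 := r) (by rw [hrd]; exact hR1) hr1
    (l := (l : ℝ) / 2 ^ 20) (by positivity) cA cr ck cB (M := (m : ℝ) / 2 ^ 20) ?_
    (cL Na L0 hL0) (cL Nb L1 hL1) (cf Na L0 hf0) (cf Nb L1 hf1)
  rcases hM with h | h
  · left
    rw [hAd, h]
    norm_num
  · exact Or.inr h

theorem rows_sound {N : ℕ} {z w : Fin N → ℂ} {R : ℝ} {σ : Fin N → ℂ} (hC : Cfg2 N z w R σ)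
    {hi : Bool} {R0 R1 r0 r1 F fx pc : ℕ} {tab : List (ℕ × ℕ)} {Ne : ℕ} (hNe : N < Ne)
    (hR0 : (R0 : ℝ) / 2 ^ 10 ≤ R) (hR1 : R ≤ (R1 : ℝ) / 2 ^ 10)
    (hf0 : (F : ℝ) / 1024 * R ≤ (av (uu w)).re)
    (hfx : (av (uu w)).re ≤ (fx : ℝ) / 1024 * R)
    (hP : ∀ x ∈ Set.Icc (0 : ℝ) ((pc : ℝ) / 10), ‖qq (uu w) x‖ ≤
      Real.exp (-(N * ((x ^ 2 / 2 - x ^ 3 / 5) / max 1 R))))
    (hV : R1 ≤ 820 → R ≤ 4 / 5)
    (hW : R1 ≤ 768 → ProfW N w R) (hT : ProfT N w (max 1 R) tab) (l : List Row) :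
    ∀ N0 : ℕ, N0 ≤ N → rowsOK hi R0 R1 r0 r1 F fx pc tab Ne N0 l = true → False := by
  induction l with
  | nil =>
    intro N0 hN0 h
    simp only [rowsOK, Nat.ble_eq] at h
    omega
  | cons r rs ih =>
    intro N0 hN0 h
    simp only [rowsOK, ev_eq, Bool.and_eq_true] at h
    obtain ⟨h1, h2, h3⟩ := h
    rcases Nat.lt_or_ge r.Nb N with h4 | h4
    · exact ih (r.Nb + 1) (by omega) h3
    · cases hc : r.c with
      | nil =>
        rw [hc] at h2
        simp only [rowOK, Bool.and_eq_true] at h2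
        obtain ⟨h5, h6⟩ := h2
        have h7 : r.f0 = F := Nat.eq_of_beq_eq_true h5
        refine chk_sound h6 hC hN0 h4 hR0 hR1 ?_ hfx hP hV hW hT
        rw [h7]
        exact hf0
      | cons c cs =>
        rw [hc] at h2
        simp only [rowOK, Bool.and_eq_true, Bool.or_eq_true] at h2
        obtain ⟨h5, h6⟩ := h2
        rcases h6 with h6 | h6 | h6
        · exact c0_sound h5 hC hN0 h4 hR1 (Or.inl (Nat.eq_of_beq_eq_true h6))
        · refine c0_sound h5 hC hN0 h4 hR1 (Or.inr (hfx.trans ?_))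
          rw [Nat.ble_eq] at h6
          have h7 : (fx : ℝ) ≤ r.f0 := by exact_mod_cast h6
          calc ((fx : ℝ)) / 1024 * R ≤ (r.f0 : ℝ) / 1024 * ((R1 : ℝ) / 2 ^ 10) := by
                apply mul_le_mul _ hR1 hC.hR.le (by positivity)
                apply div_le_div_of_nonneg_right h7 (by norm_num)
            _ = ((r.f0 * R1 : ℕ) : ℝ) / 2 ^ 20 := by
                push_cast
                ring
        · rcases le_or_gt (av (uu w)).re (((r.f0 * R1 : ℕ) : ℝ) / 2 ^ 20) with h7 | h7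
          · exact c0_sound h5 hC hN0 h4 hR1 (Or.inr h7)
          · refine chk_sound h6 hC hN0 h4 hR0 hR1 ?_ hfx hP hV hW hT
            refine le_trans ?_ h7.le
            calc ((r.f0 : ℝ)) / 1024 * R ≤ (r.f0 : ℝ) / 1024 * ((R1 : ℝ) / 2 ^ 10) :=
                  mul_le_mul_of_nonneg_left hR1 (by positivity)
              _ = ((r.f0 * R1 : ℕ) : ℝ) / 2 ^ 20 := by
                  push_cast
                  ring

end Pool.Agent.Lib.MP_af3a4a_an.P1.CHK.H58.G
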