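import Pool.Agent.Lib.MP_af3a4a_an.P1.CHK.Arith

/-!
# `R ∈ [21/10, 29/12]`, the Bool checker (helper58)

`s, h, κ, β, θ, R, y` in units of `2^-10`; `x, mx, S, K, ρ` in units of `2^-20`;
exponents, `E, U, V, T, W` in units of `2^-40`.
-/

set_option autoImplicit false

namespace Pool.Agent.Lib.MP_af3a4a_an.P1.CHK.H58.M

open Pool.Agent.Lib.MP_af3a4a_an.P1.CHK.Arith

/-- upper bound of `R kap(x)` for `xl ≤ x ≤ xh` -/
def kapU (Sm gp gn R1 xl xh : ℕ) : ℕ :=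
  (Sm + (((R1 * (xh * xh)) >>> 33 + 1) + (((gn - gp) * xh) >>> 20 + 1)) -
    ((gp - gn) * xl) >>> 20) * 1099511627776 / (1099511627776 - xh * xh) + 1

/-- lower end of `x = s / β` -/
def xlo (Bb s : ℕ) : ℕ := bif Nat.beq Bb 0 then 0 else s * 1048576 / Bb

def kapC (Sm gp gn R1 Ba Bb s s' : ℕ) : ℕ :=
  kapU Sm gp gn R1 (xlo Bb s) (s' * 1048576 / Ba + 1)

/-- the integral over one cell -/
def inc (K h a0 E0 a1 E1 : ℕ) : ℕ :=
  (K * (h * (2 * (a0 * E0 + a1 * E1) + (a0 * E1 + a1 * E0)))) / 6597069766656 + 1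

def seg (e : ℕ → ℕ) (Kf : ℕ → ℕ → ℕ) (yB h th : ℕ) :
    ℕ → ℕ → ℕ → ℕ → ℕ → (ℕ → ℕ → ℕ → Bool) → Bool
  | 0, s, _, U, V, k => k s U V
  | n + 1, s, E, U, V, k =>
    ev (s + h) fun s' => Nat.ble (s' * 1024) yB && ev (e s') fun E' => ev (Kf s s') fun K =>
      ev (U + inc K h (ad s th) E (ad s' th) E') fun U' =>
        ev (V + inc K h s E s' E') fun V' => seg e Kf yB h th n s' E' U' V' k

/-- node value, type A -/
def eA (Sm k0 s : ℕ) : ℕ :=
  ev (Sm * (s * s) / 2 + 1) fun p => es p (Nat.min (k0 * s * 1048576) (p + 70368744177664))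

/-- node value, type P -/
def eP (Ba h s : ℕ) : ℕ :=
  ev ((s * s * s) * 22020096 / (100 * Ba) + 1 + h * h * 131072) fun p =>
    es p (Nat.min (s * s * 524288) (p + 70368744177664))

/-- node value, type C -/
def eC (h s : ℕ) : ℕ :=
  ev (h * h * 1048576 / 10 + 1) fun p =>
    es p (Nat.min (s * s * 2097152 / 5) (p + 70368744177664))

structure En where
  (k1 h th nA nP nC : ℕ)

structure Gr where
  (R0 R1 Ba Bb y : ℕ)

/-- the final test -/
def fin (g : Gr) (Sm gp gn rho th T tail : ℕ) (s U V : ℕ) : Bool :=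
  ev (kapU Sm gp gn g.R1 (xlo g.Bb s) (g.y * 1024)) fun km =>
  ev (em (Nat.min (s * s * 2097152 / 5) 70368744177664)) fun EC =>
  ev (km * EC * 5 / 4194304 + 1) fun rem =>
  ev (T + (U + rem) + (th * (V + rem) / g.Ba + 1)) fun L =>
  Nat.ble th s && (Nat.ble L 1099511627776 &&
  Nat.ble ((rho + (th * Sm * 1024 / (g.R0 * g.Ba) + 1)) * (tail + 67108864))
    ((1099511627776 - L) * 1048576))

/-- the bound of `m₁` -/
def mxU (g : Gr) (k1 : ℕ) : ℕ :=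
  bif Nat.beq k1 0 then 2147483648 / g.R0 + 1 else k1 * 1073741824 / (g.R0 * g.Ba) + 1

/-- one cell in `κ` -/
def one (g : Gr) (T tail k0 : ℕ) (e : En) : Bool :=
  ev (mxU g e.k1) fun mx => ev (1048576 + 2 * mx) fun Sm =>
  ev ((g.R0 - 1024) * 1048576 / g.R0) fun gp =>
  ev ((3 * g.R1 + (1048576 / g.R0 + 1) - 2048) * mx / 1024 + 1) fun gn =>
  ev (isq (mx * 2147483648 / g.R0 + 1)) fun rho =>
  ev (g.y * g.Ba) fun yB =>
  Nat.ble 1 e.h && (Nat.ble (e.th * 1024) yB &&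
  seg (eA Sm k0) (kapC Sm gp gn g.R1 g.Ba g.Bb) yB e.h e.th e.nA 0 (eA Sm k0 0) 0 0
    fun s U V =>
  seg (eP g.Ba e.h) (kapC Sm gp gn g.R1 g.Ba g.Bb) yB e.h e.th e.nP s (eP g.Ba e.h s) U V
    fun s U V => Nat.ble (5 * s) (2 * g.Ba) &&
  seg (eC e.h) (kapC Sm gp gn g.R1 g.Ba g.Bb) yB e.h e.th e.nC s (eC e.h s) U V
    fun s U V => fin g Sm gp gn rho e.th T tail s U V)

def goK (g : Gr) (T tail : ℕ) : ℕ → List En → Bool
  | _, [] => false
  | k0, e :: l => one g T tail k0 e && bif Nat.beq e.k1 0 then true else goK g T tail e.k1 l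

/-- **the checker of a group** -/
def chk (g : Gr) (l : List En) : Bool :=
  Nat.ble 2048 g.R0 && (Nat.ble g.R0 g.R1 && (Nat.ble 1 g.Ba && (Nat.ble 1 g.y &&
    (Nat.ble g.y 1000 &&
    ev (g.y * g.Ba) fun yB =>
    ev (em (Nat.min (2 * (yB * yB) / 5) 70368744177664)) fun T =>
    ev (em (Nat.min (g.Ba * g.Ba * 262144) 70368744177664)) fun T2 =>
    ev ((g.R1 * T * 101 / (80 * g.y) + 1) + (g.R1 * T2 * 101 / 51200 + 1)) fun tail =>
      goK g T tail 0 l))))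

end Pool.Agent.Lib.MP_af3a4a_an.P1.CHK.H58.M
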