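import Pool.Agent.Lib.MP_af3a4a_an.P1.H81.Vt2
import Pool.Agent.Lib.MP_af3a4a_an.P1.CHK.H58.SW

/-!
# `R ∈ [21/10, 29/12]`: the pure profile for `x ≤ 2/5` (helper58, after helper81's `dual_hi`)
-/

set_option autoImplicit false

namespace Pool.Agent.Lib.MP_af3a4a_an.P1.CHK.H58.M

open Finset MeasureTheory ComplexConjugate
open Pool.Agent.Lib.MP_af3a4a_an.SV (uu av)
open Pool.Agent.Lib.MP_af3a4a_an.P1.H80
open Pool.Agent.Lib.MP_af3a4a_an.P1.H74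
open Pool.Agent.Lib.MP_af3a4a_an.P1.H81

/-- polynomial inequality -/
theorem poly24 {R x b : ℝ} (hR : 2 ≤ R) (hR2 : R ≤ 29 / 12) (hx0 : 0 ≤ x) (hx : x ≤ 2 / 5)
    (hb0 : 0 ≤ b) (hb : b ≤ R) :
    (R + b - x / 2) * ((R * (1 - x / 2 + x ^ 2 / 3) + (x / 2 - 21 / 100 * x ^ 2)) * (1 - b)
      + (x / 2 - 21 / 100 * x ^ 2) * R) ≤ R ^ 2 := by
  obtain ⟨L, hL⟩ : ∃ L, L = 1 - x / 2 + x ^ 2 / 3 := ⟨_, rfl⟩
  obtain ⟨k, hk⟩ : ∃ k, k = x / 2 - 21 / 100 * x ^ 2 := ⟨_, rfl⟩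
  rw [← hL, ← hk]
  have hL0 : 4 / 5 ≤ L := by rw [hL]; nlinarith
  have hL1 : 1 - x / 2 ≤ L := by rw [hL]; nlinarith
  have hk0 : 0 ≤ k := by rw [hk]; nlinarith
  have hk1 : k ≤ 1 / 5 := by rw [hk]; nlinarith
  have hN : 0 < R * L + k := by nlinarith
  rcases le_or_gt 1 b with hb1 | hb1
  · have h1 : (R * L + k) * (1 - b) ≤ 0 := mul_nonpos_of_nonneg_of_nonpos hN.le (by linarith)
    have h2 : 0 ≤ R + b - x / 2 := by linarith
    have h3 : (R + b - x / 2) * ((R * L + k) * (1 - b) + k * R) ≤ (R + b - x / 2) * (k * R) :=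
      mul_le_mul_of_nonneg_left (by linarith) h2
    have h4 : (R + b - x / 2) * (k * R) ≤ (2 * R) * (1 / 5 * R) := by
      apply mul_le_mul (by linarith) _ (by positivity) (by linarith)
      exact mul_le_mul_of_nonneg_right hk1 (by linarith)
    nlinarith
  · -- the quadratic in `b`
    have e1 : R ^ 2 - (R + b - x / 2) * ((R * L + k) * (1 - b) + k * R) =
        (x ^ 2 * (21 / 100 * R + 1 / 4 - 37 / 300 * R ^ 2) + x ^ 3 * (R * (1 / 6 - 21 / 200)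
          - 21 / 200)) +
        b * (R * L * (R - 1 - x / 2) - k * (1 + x / 2)) + b ^ 2 * (R * L + k) := by
      rw [hL, hk]; ring
    have hg : 0 ≤ (21 / 100 * R + 1 / 4 - 37 / 300 * R ^ 2) +
        x * (R * (1 / 6 - 21 / 200) - 21 / 200) := by nlinarith
    have hg' : 0 ≤ x ^ 2 * (21 / 100 * R + 1 / 4 - 37 / 300 * R ^ 2) +
        x ^ 3 * (R * (1 / 6 - 21 / 200) - 21 / 200) := by
      have := mul_nonneg (sq_nonneg x) hg
      linarith
    have h1 : k * (1 + x / 2) ≤ 7 / 5 * (1 - x / 2) * (2 / 5 - x / 2) := by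
      rw [hk]
      nlinarith
    have h2 : 7 / 5 * (1 - x / 2) * (2 / 5 - x / 2) ≤ R * L * (R - 1 - x / 2) := by
      have h3 : 7 / 5 * (1 - x / 2) ≤ R * L :=
        mul_le_mul (by linarith) hL1 (by linarith) (by linarith)
      exact mul_le_mul h3 (by linarith) (by linarith) (by positivity)
    have h4 : 0 ≤ b * (R * L * (R - 1 - x / 2) - k * (1 + x / 2)) :=
      mul_nonneg hb0 (by linarith)
    have h5 : 0 ≤ b ^ 2 * (R * L + k) := by positivity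
    linarith

theorem dual24 {R x : ℝ} (hR : 2 ≤ R) (hR2 : R ≤ 29 / 12) (hx0 : 0 ≤ x) (hx : x ≤ 2 / 5) :
    ∃ α, Dual R x α 0 ((x ^ 2 / 2 - 21 / 100 * x ^ 3) / R) := by
  have hR0 : 0 < R := by linarith
  have hKb : (1 + 37 / 300 * x ^ 2) * (1 + x) ^ 2 ≤ 1 + R := by
    have h1 : 1 + 37 / 300 * x ^ 2 ≤ 383 / 375 := by nlinarith
    have h2 : (1 + x) ^ 2 ≤ 49 / 25 := by nlinarith
    have h3 : (1 + 37 / 300 * x ^ 2) * (1 + x) ^ 2 ≤ 383 / 375 * (49 / 25) :=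
      mul_le_mul h1 h2 (by positivity) (by norm_num)
    linarith
  obtain ⟨k, hk⟩ : ∃ k, k = x / 2 - 21 / 100 * x ^ 2 := ⟨_, rfl⟩
  have hk0 : 0 ≤ k := by rw [hk]; nlinarith
  obtain ⟨L, hL⟩ : ∃ L, L = 1 - x / 2 + x ^ 2 / 3 := ⟨_, rfl⟩
  have hL0 : 4 / 5 ≤ L := by rw [hL]; nlinarith
  have hh : (x ^ 2 / 2 - 21 / 100 * x ^ 3) / R = x * k / R := by rw [hk]; ring
  refine ⟨x / R * (L + k / R), dual_of hR0 hx0 (by linarith) (by positivity) ?_ ?_ ?_ ?_⟩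
  · have := Real.sqrt_nonneg (R ^ 2 - R * x)
    linarith
  · have e1 : x / R * (L + k / R) * R - (x ^ 2 / 2 - 21 / 100 * x ^ 3) / R =
        x - x ^ 2 / 2 + x ^ 3 / 3 := by
      rw [hh, hL]
      field_simp
      ring
    rw [e1]
    exact log_one_add_le3 hx0
  · have h1 : k / R ≤ k := div_le_self hk0 (by linarith)
    have h2 : L + k / R ≤ 1 + 37 / 300 * x ^ 2 := by
      have : L + k = 1 + 37 / 300 * x ^ 2 := by rw [hL, hk]; ring
      linarith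
    have h3 : (L + k / R) * (1 + x) ^ 2 ≤ 1 + R :=
      (mul_le_mul_of_nonneg_right h2 (by positivity)).trans hKb
    calc x / R * (L + k / R) * (1 + x) ^ 2 = x / R * ((L + k / R) * (1 + x) ^ 2) := by ring
      _ ≤ x / R * (1 + R) := mul_le_mul_of_nonneg_left h3 (by positivity)
  · intro s hs1 _ hs2
    have hsx : 0 < s - x / 2 := by linarith
    rw [le_div_iff₀ hsx, hh]
    have h1 := poly24 (b := s - R) hR hR2 hx0 hx (by linarith) (by linarith)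
    rw [← hL, ← hk] at h1
    have e1 : (x / R * (L + k / R) * (R + 1 - s) + x * k / R) * (s - x / 2) =
        x * (((R + (s - R) - x / 2) * ((R * L + k) * (1 - (s - R)) + k * R)) / R ^ 2) := by
      field_simp
      ring
    rw [e1]
    have h2 : ((R + (s - R) - x / 2) * ((R * L + k) * (1 - (s - R)) + k * R)) / R ^ 2 ≤ 1 := by
      rw [div_le_one (by positivity)]
      exact h1
    exact mul_le_of_le_one_right hx0 h2

/-- type P -/
theorem qq_P {N : ℕ} (hN : 1 ≤ N) {w : Fin N → ℂ} {R x : ℝ} (hw : ∀ k, 1 ≤ ‖w k‖)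
    (ht : ∑ k, ‖w k - (R : ℂ)‖ ≤ N) (hR : 2 ≤ R) (hR2 : R ≤ 29 / 12) (hx0 : 0 ≤ x)
    (hx : x ≤ 2 / 5) :
    ‖qq (uu w) x‖ ≤ Real.exp (-(N * ((x ^ 2 / 2 - 21 / 100 * x ^ 3) / R))) := by
  obtain ⟨α, hD⟩ := dual24 hR hR2 hx0 hx
  have h := hD.qq_le hN hw ht
  simpa using h

end Pool.Agent.Lib.MP_af3a4a_an.P1.CHK.H58.M
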