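import Pool.Agent.Lib.MP_af3a4a_an.P1.H81.MassK
import Pool.Agent.Lib.MP_af3a4a_an.P1.CHK.H58.MP

/-!
# `R ∈ [21/10, 29/12]`: real analysis (helper58)
-/

set_option autoImplicit false

namespace Pool.Agent.Lib.MP_af3a4a_an.P1.CHK.H58.M

open Finset MeasureTheory ComplexConjugate
open Pool.Agent.Lib.MP_af3a4a_an.SV (uu av)
open Pool.Agent.Lib.MP_af3a4a_an.P1.H80
open Pool.Agent.Lib.MP_af3a4a_an.P1.H74
open Pool.Agent.Lib.MP_af3a4a_an.P1.H81

theorem quad_int {a b p0 p1 q0 q1 : ℝ} (hab : a < b) :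
    ∫ x in a..b, (p0 + (p1 - p0) * ((x - a) / (b - a))) * (q0 + (q1 - q0) * ((x - a) / (b - a))) =
      (b - a) * (2 * (p0 * q0 + p1 * q1) + (p0 * q1 + p1 * q0)) / 6 := by
  have hd : b - a ≠ 0 := (sub_pos.2 hab).ne'
  have hF : ∀ x : ℝ, HasDerivAt (fun x : ℝ => (b - a) * (p0 * q0 * ((x - a) / (b - a)) +
      (p0 * (q1 - q0) + (p1 - p0) * q0) * ((x - a) / (b - a)) ^ 2 / 2 +
      (p1 - p0) * (q1 - q0) * ((x - a) / (b - a)) ^ 3 / 3))
      ((p0 + (p1 - p0) * ((x - a) / (b - a))) * (q0 + (q1 - q0) * ((x - a) / (b - a)))) x := by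
    intro x
    have h1 : HasDerivAt (fun x : ℝ => (x - a) / (b - a)) (1 / (b - a)) x :=
      ((hasDerivAt_id x).sub_const a).div_const (b - a)
    have h2 := h1.pow 2
    have h3 := h1.pow 3
    have h4 := (((h1.const_mul (p0 * q0)).add
      ((h2.const_mul (p0 * (q1 - q0) + (p1 - p0) * q0)).div_const 2)).add
      ((h3.const_mul ((p1 - p0) * (q1 - q0))).div_const 3)).const_mul (b - a)
    refine h4.congr_deriv ?_
    push_cast
    field_simp
    ring
  rw [intervalIntegral.integral_eq_sub_of_hasDerivAt (fun x _ => hF x)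
    (by apply Continuous.intervalIntegrable; fun_prop)]
  rw [sub_self, zero_div, div_self hd]
  ring

/-- one cell: `ω` weight, `kp` kernel -/
theorem cell_le {N : ℕ} {u : Fin N → ℂ} {R β s0 s1 K a0 a1 E0 E1 : ℝ} {ω kp : ℝ → ℝ} (hR : 0 < R)
    (hβ : 0 < β) (hN : β ^ 2 * R = N) (hs : s0 < s1) (hK0 : 0 ≤ K)
    (hω : Continuous ω) (hω0 : ∀ x ∈ Set.Icc (s0 / β) (s1 / β), 0 ≤ ω x)
    (hk : ContinuousOn kp (Set.Icc (s0 / β) (s1 / β)))
    (hK : ∀ x ∈ Set.Icc (s0 / β) (s1 / β), R * kp x ≤ K)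
    (ha : ∀ τ ∈ Set.Icc (0 : ℝ) 1, β * ω ((s0 + τ * (s1 - s0)) / β) ≤ a0 + (a1 - a0) * τ)
    (hq : ∀ τ ∈ Set.Icc (0 : ℝ) 1, ‖qq u ((s0 + τ * (s1 - s0)) / β)‖ ≤ E0 + (E1 - E0) * τ) :
    (N : ℝ) * ∫ x in (s0 / β)..(s1 / β), ω x * kp x * ‖qq u x‖ ≤
      K * ((s1 - s0) * (2 * (a0 * E0 + a1 * E1) + (a0 * E1 + a1 * E0))) / 6 := by
  have hlt : s0 / β < s1 / β := div_lt_div_of_pos_right hs hβ
  have hd : 0 < s1 - s0 := sub_pos.2 hs
  have hNn : (0 : ℝ) ≤ N := Nat.cast_nonneg N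
  have hmono : ∫ x in (s0 / β)..(s1 / β), ω x * kp x * ‖qq u x‖ ≤
      ∫ x in (s0 / β)..(s1 / β), (K / (R * β)) *
        ((a0 + (a1 - a0) * ((x - s0 / β) / (s1 / β - s0 / β))) *
        (E0 + (E1 - E0) * ((x - s0 / β) / (s1 / β - s0 / β)))) := by
    apply intervalIntegral.integral_mono_on hlt.le
    · apply ContinuousOn.intervalIntegrable
      rw [Set.uIcc_of_le hlt.le]
      exact (hω.continuousOn.mul hk).mul (qq_cont u).norm.continuousOn
    · apply Continuous.intervalIntegrable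
      fun_prop
    · intro x hx
      obtain ⟨τ, hτ⟩ : ∃ τ, τ = (x - s0 / β) / (s1 / β - s0 / β) := ⟨_, rfl⟩
      have hd' : 0 < s1 / β - s0 / β := sub_pos.2 hlt
      have hτ0 : 0 ≤ τ := by rw [hτ]; exact div_nonneg (by linarith [hx.1]) hd'.le
      have hτ1 : τ ≤ 1 := by rw [hτ, div_le_one hd']; linarith [hx.2]
      have hxτ : x = (s0 + τ * (s1 - s0)) / β := by
        have h1 : x = s0 / β + τ * (s1 / β - s0 / β) := by
          rw [hτ, div_mul_cancel₀ _ hd'.ne']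
          ring
        rw [h1]
        field_simp
      rw [← hτ]
      have h1 := ha τ ⟨hτ0, hτ1⟩
      have h2 := hq τ ⟨hτ0, hτ1⟩
      rw [← hxτ] at h1 h2
      have h3 := hK x hx
      have h4 := hω0 x hx
      have h5 : 0 ≤ β * ω x := mul_nonneg hβ.le h4
      have e1 : ω x * kp x * ‖qq u x‖ = (R * kp x) * ((β * ω x) * ‖qq u x‖) / (R * β) := by
        field_simp
      rw [e1, div_mul_eq_mul_div]
      apply div_le_div_of_nonneg_right _ (by positivity)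
      have h6 : (β * ω x) * ‖qq u x‖ ≤ (a0 + (a1 - a0) * τ) * (E0 + (E1 - E0) * τ) :=
        mul_le_mul h1 h2 (norm_nonneg _) (h5.trans h1)
      have h7 : 0 ≤ (β * ω x) * ‖qq u x‖ := mul_nonneg h5 (norm_nonneg _)
      exact (mul_le_mul_of_nonneg_right h3 h7).trans (mul_le_mul_of_nonneg_left h6 hK0)
  rw [intervalIntegral.integral_const_mul, quad_int hlt] at hmono
  refine (mul_le_mul_of_nonneg_left hmono hNn).trans (le_of_eq ?_)
  rw [← hN]
  field_simp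

/-- exponential interpolation -/
theorem exp_chord {q f f0 f1 E0 E1 τ : ℝ} (h0 : 0 ≤ τ) (h1 : τ ≤ 1) (hq : q ≤ Real.exp (-f))
    (hf : (1 - τ) * f0 + τ * f1 ≤ f) (hE0 : Real.exp (-f0) ≤ E0) (hE1 : Real.exp (-f1) ≤ E1) :
    q ≤ E0 + (E1 - E0) * τ := by
  have h2 : Real.exp (-f) ≤ Real.exp ((1 - τ) * (-f0) + τ * (-f1)) :=
    Real.exp_le_exp.2 (by linarith)
  have h3 := convexOn_exp.2 (Set.mem_univ (-f0)) (Set.mem_univ (-f1)) (sub_nonneg.2 h1) h0
    (by ring)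
  simp only [smul_eq_mul] at h3
  have h4 := mul_le_mul_of_nonneg_left hE0 (sub_nonneg.2 h1)
  have h5 := mul_le_mul_of_nonneg_left hE1 h0
  linarith

/-- the Gaussian remainder -/
theorem gauss_rem {c a b : ℝ} (hc : 0 < c) :
    ∫ x in a..b, x * Real.exp (-(c * x ^ 2)) =
      (Real.exp (-(c * a ^ 2)) - Real.exp (-(c * b ^ 2))) / (2 * c) := by
  have hF : ∀ x : ℝ, HasDerivAt (fun x : ℝ => -(Real.exp (-(c * x ^ 2)) / (2 * c)))
      (x * Real.exp (-(c * x ^ 2))) x := by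
    intro x
    have h1 : HasDerivAt (fun x : ℝ => -(c * x ^ 2)) (-(c * (2 * x))) x := by
      have := ((hasDerivAt_pow 2 x).const_mul c).neg
      refine this.congr_deriv ?_
      norm_num
    have h2 := (h1.exp.div_const (2 * c)).neg
    refine h2.congr_deriv ?_
    field_simp
  rw [intervalIntegral.integral_eq_sub_of_hasDerivAt (fun x _ => hF x)
    (by apply Continuous.intervalIntegrable; fun_prop)]
  ring

theorem gauss_rem_le {c a b : ℝ} (hc : 0 < c) :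
    ∫ x in a..b, x * Real.exp (-(c * x ^ 2)) ≤ Real.exp (-(c * a ^ 2)) / (2 * c) := by
  rw [gauss_rem hc]
  apply div_le_div_of_nonneg_right _ (by positivity)
  have := Real.exp_pos (-(c * b ^ 2))
  linarith

theorem kap_cont {R m1 y : ℝ} (hy : y < 1) : ContinuousOn (kapK R m1) (Set.Icc 0 y) := by
  unfold kapK
  apply ContinuousOn.div (by fun_prop) (by fun_prop)
  intro x hx
  have h1 : x < 1 := lt_of_le_of_lt hx.2 hy
  have := hx.1
  nlinarith

end Pool.Agent.Lib.MP_af3a4a_an.P1.CHK.H58.M
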