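import Pool.Agent.Lib.MP_af3a4a_an.P1.CHK.H58.MR
import Pool.Agent.Lib.MP_af3a4a_an.P1.CHK.H58.MD

/-!
# `R ∈ [21/10, 29/12]`: soundness of the segments (helper58)
-/

set_option autoImplicit false

namespace Pool.Agent.Lib.MP_af3a4a_an.P1.CHK.H58.M

open Finset MeasureTheory ComplexConjugate
open Pool.Agent.Lib.MP_af3a4a_an.SV (uu av)
open Pool.Agent.Lib.MP_af3a4a_an.P1.H80
open Pool.Agent.Lib.MP_af3a4a_an.P1.H74
open Pool.Agent.Lib.MP_af3a4a_an.P1.H81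
open Pool.Agent.Lib.MP_af3a4a_an.P1.CHK.Arith

/-! ### the kernel -/

theorem kapU_sound {Sm gp gn R1 xl xh : ℕ} {R m1 x : ℝ} (hR : 0 < R) (hR1 : R ≤ (R1 : ℝ) / 2 ^ 10)
    (hS : 1 + 2 * m1 ≤ (Sm : ℝ) / 2 ^ 20)
    (hg : (gp : ℝ) / 2 ^ 20 - (gn : ℝ) / 2 ^ 20 ≤
      (R - 1) / R - (3 * R ^ 2 - 2 * R + 1) / R * m1)
    (h0 : 0 ≤ x) (hl : (xl : ℝ) / 2 ^ 20 ≤ x) (hh : x ≤ (xh : ℝ) / 2 ^ 20) (hD : xh < 1048576) :
    R * kapK R m1 x ≤ (kapU Sm gp gn R1 xl xh : ℝ) / 2 ^ 20 := by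
  unfold kapU kapK
  obtain ⟨A, hA⟩ : ∃ A, A = Sm + (((R1 * (xh * xh)) >>> 33 + 1) +
    (((gn - gp) * xh) >>> 20 + 1)) := ⟨_, rfl⟩
  obtain ⟨B, hB⟩ : ∃ B, B = ((gp - gn) * xl) >>> 20 := ⟨_, rfl⟩
  rw [← hA, ← hB]
  obtain ⟨X, hX⟩ : ∃ X, X = (xh : ℝ) / 2 ^ 20 := ⟨_, rfl⟩
  rw [← hX] at hh
  have hX0 : 0 ≤ X := h0.trans hh
  have hX1 : X < 1 := by
    rw [hX, div_lt_one (by positivity)]
    exact_mod_cast hD
  have hx1 : x < 1 := lt_of_le_of_lt hh hX1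
  have hxx : 0 < 1 - x ^ 2 := by nlinarith
  have hXX : 0 < 1 - X ^ 2 := by nlinarith
  -- the numerator
  obtain ⟨G, hG⟩ : ∃ G, G = (gp : ℝ) / 2 ^ 20 - (gn : ℝ) / 2 ^ 20 := ⟨_, rfl⟩
  rw [← hG] at hg
  have hnum : (1 + 2 * m1) - G * x + R * x ^ 2 / 8 ≤ ((A - B : ℕ) : ℝ) / 2 ^ 20 := by
    have h1 := sub_le_cast A B
    have h2 : -(G * x) ≤ ((gn - gp : ℕ) : ℝ) / 2 ^ 20 * X - ((gp - gn : ℕ) : ℝ) / 2 ^ 20 *
        ((xl : ℝ) / 2 ^ 20) := by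
      rcases le_total gp gn with h | h
      · rw [Nat.sub_eq_zero_of_le h, Nat.cast_zero, zero_div, zero_mul, sub_zero, Nat.cast_sub h]
        have e : -(G * x) = ((gn : ℝ) - gp) / 2 ^ 20 * x := by rw [hG]; ring
        rw [e]
        apply mul_le_mul_of_nonneg_left hh
        apply div_nonneg _ (by positivity)
        rw [sub_nonneg]
        exact_mod_cast h
      · rw [Nat.sub_eq_zero_of_le h, Nat.cast_zero, zero_div, zero_mul, zero_sub, Nat.cast_sub h]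
        have e : -(G * x) = -(((gp : ℝ) - gn) / 2 ^ 20 * x) := by rw [hG]; ring
        rw [e, neg_le_neg_iff]
        apply mul_le_mul_of_nonneg_left hl
        apply div_nonneg _ (by positivity)
        rw [sub_nonneg]
        exact_mod_cast h
    have h3 := le_shr (R1 * (xh * xh)) 33
    have h4 := le_shr ((gn - gp) * xh) 20
    have h5 := shr_le ((gp - gn) * xl) 20
    rw [← hB] at h5
    have h6 : R * x ^ 2 / 8 ≤ (R1 : ℝ) / 2 ^ 10 * X ^ 2 / 8 := by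
      have : x ^ 2 ≤ X ^ 2 := pow_le_pow_left₀ h0 hh 2
      apply div_le_div_of_nonneg_right _ (by norm_num)
      exact mul_le_mul hR1 this (by positivity) (by positivity)
    have hAr : (A : ℝ) = Sm + ((((R1 * (xh * xh)) >>> 33 + 1 : ℕ) : ℝ) +
      ((((gn - gp) * xh) >>> 20 + 1 : ℕ) : ℝ)) := by
      rw [hA]
      push_cast
      ring
    rw [le_div_iff₀ (by positivity)]
    refine le_trans ?_ h1
    rw [hAr]
    have h7 : (R1 : ℝ) / 2 ^ 10 * X ^ 2 / 8 * 2 ^ 20 = ((R1 * (xh * xh) : ℕ) : ℝ) / 2 ^ 33 := by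
      rw [hX]
      push_cast
      ring
    have h8 : ((gn - gp : ℕ) : ℝ) / 2 ^ 20 * X * 2 ^ 20 = (((gn - gp) * xh : ℕ) : ℝ) / 2 ^ 20 := by
      rw [hX]
      push_cast
      ring
    have h9 : ((gp - gn : ℕ) : ℝ) / 2 ^ 20 * ((xl : ℝ) / 2 ^ 20) * 2 ^ 20 =
        (((gp - gn) * xl : ℕ) : ℝ) / 2 ^ 20 := by
      push_cast
      ring
    have hS' : (1 + 2 * m1) * 2 ^ 20 ≤ Sm := by
      rwa [le_div_iff₀ (by positivity)] at hS
    have h10 := mul_le_mul_of_nonneg_right h2 (by positivity : (0 : ℝ) ≤ 2 ^ 20)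
    have h11 := mul_le_mul_of_nonneg_right h6 (by positivity : (0 : ℝ) ≤ 2 ^ 20)
    rw [sub_mul, h8, h9] at h10
    rw [h7] at h11
    linarith
  obtain ⟨C, hC⟩ : ∃ C, C = A - B := ⟨_, rfl⟩
  rw [← hC] at hnum ⊢
  have e1 : R * (((1 + 2 * m1) / R + x * (-((R - 1) / R ^ 2) + (3 * R ^ 2 - 2 * R + 1) / R ^ 2 * m1)
      + x ^ 2 / 8) / (1 - x ^ 2)) = ((1 + 2 * m1) - ((R - 1) / R - (3 * R ^ 2 - 2 * R + 1) / R * m1)
      * x + R * x ^ 2 / 8) / (1 - x ^ 2) := by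
    field_simp
    ring
  rw [e1]
  have h1 : ((1 + 2 * m1) - ((R - 1) / R - (3 * R ^ 2 - 2 * R + 1) / R * m1) * x
      + R * x ^ 2 / 8) ≤ (C : ℝ) / 2 ^ 20 := by
    have := mul_le_mul_of_nonneg_right hg h0
    linarith
  have h2 : ((1 + 2 * m1) - ((R - 1) / R - (3 * R ^ 2 - 2 * R + 1) / R * m1) * x
      + R * x ^ 2 / 8) / (1 - x ^ 2) ≤ (C : ℝ) / 2 ^ 20 / (1 - X ^ 2) := by
    refine (div_le_div_of_nonneg_right h1 hxx.le).trans ?_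
    apply div_le_div_of_nonneg_left (by positivity) hXX
    have : x ^ 2 ≤ X ^ 2 := pow_le_pow_left₀ h0 hh 2
    linarith
  refine h2.trans ?_
  have hlt : xh * xh < 1099511627776 := by nlinarith
  have h3 := real_le_div (C * 1099511627776) (1099511627776 - xh * xh) (by omega)
  rw [Nat.cast_sub hlt.le] at h3
  push_cast at h3 ⊢
  refine le_trans (le_of_eq ?_) (div_le_div_of_nonneg_right h3 (by positivity))
  have h4 : (1099511627776 - (xh : ℝ) * xh) = (1 - X ^ 2) * 1099511627776 := by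
    rw [hX]
    ring
  rw [h4]
  field_simp

theorem xlo_sound {Bb s : ℕ} {β x : ℝ} (hβ : 0 < β) (hb : Bb ≠ 0 → β ≤ (Bb : ℝ) / 2 ^ 10)
    (hx : (s : ℝ) / 2 ^ 10 / β ≤ x) : (xlo Bb s : ℝ) / 2 ^ 20 ≤ x := by
  have h0 : 0 ≤ (s : ℝ) / 2 ^ 10 / β := by positivity
  unfold xlo
  by_cases h : Bb = 0
  · subst h
    have e0 : Nat.beq 0 0 = true := rfl
    rw [e0, cond_true, Nat.cast_zero, zero_div]
    linarith
  · have hb' : Nat.beq Bb 0 = false := by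
      rw [Bool.eq_false_iff]
      intro hc
      exact h (Nat.eq_of_beq_eq_true hc)
    rw [hb', cond_false]
    have h1 := hb h
    have h2 := div_le_real (s * 1048576) Bb
    have hBb : (0 : ℝ) < Bb := by exact_mod_cast Nat.pos_of_ne_zero h
    rw [div_le_iff₀ (by positivity)]
    refine h2.trans ?_
    push_cast
    have h3 : (s : ℝ) / 2 ^ 10 / ((Bb : ℝ) / 2 ^ 10) ≤ x := by
      refine le_trans ?_ hx
      exact div_le_div_of_nonneg_left (by positivity) hβ h1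
    have e : (s : ℝ) * 1048576 / Bb = (s : ℝ) / 2 ^ 10 / ((Bb : ℝ) / 2 ^ 10) * 2 ^ 20 := by
      field_simp
      norm_num
    rw [e]
    exact mul_le_mul_of_nonneg_right h3 (by positivity)

theorem kapC_sound {Sm gp gn R1 Ba Bb y s s' : ℕ} {R m1 x β : ℝ} (hR : 0 < R)
    (hR1 : R ≤ (R1 : ℝ) / 2 ^ 10) (hS : 1 + 2 * m1 ≤ (Sm : ℝ) / 2 ^ 20)
    (hg : (gp : ℝ) / 2 ^ 20 - (gn : ℝ) / 2 ^ 20 ≤
      (R - 1) / R - (3 * R ^ 2 - 2 * R + 1) / R * m1)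
    (hBa : 1 ≤ Ba) (hβa : (Ba : ℝ) / 2 ^ 10 ≤ β) (hb : Bb ≠ 0 → β ≤ (Bb : ℝ) / 2 ^ 10)
    (hy : y ≤ 1000) (hs : s' * 1024 ≤ y * Ba)
    (hx0 : (s : ℝ) / 2 ^ 10 / β ≤ x) (hx1 : x ≤ (s' : ℝ) / 2 ^ 10 / β) :
    R * kapK R m1 x ≤ (kapC Sm gp gn R1 Ba Bb s s' : ℝ) / 2 ^ 20 := by
  have hBar : (0 : ℝ) < Ba := by exact_mod_cast hBa
  have hβ : 0 < β := lt_of_lt_of_le (by positivity) hβa
  have h0 : 0 ≤ x := le_trans (by positivity) hx0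
  unfold kapC
  apply kapU_sound hR hR1 hS hg h0 (xlo_sound hβ hb hx0)
  · have h1 := real_le_div (s' * 1048576) Ba hBa
    rw [le_div_iff₀ (by positivity)]
    refine le_trans ?_ h1
    push_cast
    have h2 : x ≤ (s' : ℝ) / 2 ^ 10 / ((Ba : ℝ) / 2 ^ 10) :=
      hx1.trans (div_le_div_of_nonneg_left (by positivity) (by positivity) hβa)
    have e : (s' : ℝ) * 1048576 / Ba = (s' : ℝ) / 2 ^ 10 / ((Ba : ℝ) / 2 ^ 10) * 2 ^ 20 := by
      field_simp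
      norm_num
    rw [e]
    exact mul_le_mul_of_nonneg_right h2 (by positivity)
  · have h1 : s' * 1048576 / Ba ≤ 1000 * 1024 := by
      apply Nat.div_le_of_le_mul
      nlinarith
    omega

/-! ### the increments -/

theorem inc_sound (K h a0 E0 a1 E1 : ℕ) :
    (K : ℝ) / 2 ^ 20 * ((h : ℝ) / 2 ^ 10 * (2 * ((a0 : ℝ) / 2 ^ 10 * ((E0 : ℝ) / 2 ^ 40) +
      (a1 : ℝ) / 2 ^ 10 * ((E1 : ℝ) / 2 ^ 40)) + ((a0 : ℝ) / 2 ^ 10 * ((E1 : ℝ) / 2 ^ 40) +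
      (a1 : ℝ) / 2 ^ 10 * ((E0 : ℝ) / 2 ^ 40)))) / 6 ≤ (inc K h a0 E0 a1 E1 : ℝ) / 2 ^ 40 := by
  unfold inc
  have h1 := real_le_div (K * (h * (2 * (a0 * E0 + a1 * E1) + (a0 * E1 + a1 * E0))))
    6597069766656 (by norm_num)
  rw [le_div_iff₀ (by positivity)]
  refine le_trans (le_of_eq ?_) h1
  push_cast
  ring

theorem conv_abs {s0 s1 θ τ : ℝ} (h0 : 0 ≤ τ) (h1 : τ ≤ 1) :
    |s0 + τ * (s1 - s0) - θ| ≤ |s0 - θ| + (|s1 - θ| - |s0 - θ|) * τ := by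
  have e : s0 + τ * (s1 - s0) - θ = (1 - τ) * (s0 - θ) + τ * (s1 - θ) := by ring
  rw [e]
  refine (abs_add_le _ _).trans ?_
  rw [abs_mul, abs_mul, abs_of_nonneg (sub_nonneg.2 h1), abs_of_nonneg h0]
  apply le_of_eq
  ring

/-! ### the invariant -/

structure Inv (N : ℕ) (u : Fin N → ℂ) (β : ℝ) (kp : ℝ → ℝ) (th s U V : ℕ) : Prop where
  hU : (N : ℝ) * ∫ x in (0 : ℝ)..((s : ℝ) / 2 ^ 10 / β),
    |x - (th : ℝ) / 2 ^ 10 / β| * kp x * ‖qq u x‖ ≤ (U : ℝ) / 2 ^ 40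
  hV : (N : ℝ) * ∫ x in (0 : ℝ)..((s : ℝ) / 2 ^ 10 / β), x * kp x * ‖qq u x‖ ≤ (V : ℝ) / 2 ^ 40

/-- the profile on one cell -/
def CellQ (N : ℕ) (u : Fin N → ℂ) (β : ℝ) (e : ℕ → ℕ) (h j : ℕ) : Prop :=
  ∀ τ ∈ Set.Icc (0 : ℝ) 1,
    ‖qq u (((j : ℝ) / 2 ^ 10 + τ * (((j + h : ℕ) : ℝ) / 2 ^ 10 - (j : ℝ) / 2 ^ 10)) / β)‖ ≤
      (e j : ℝ) / 2 ^ 40 + ((e (j + h) : ℝ) / 2 ^ 40 - (e j : ℝ) / 2 ^ 40) * τ

theorem step_int {N : ℕ} {u : Fin N → ℂ} {β Y a b : ℝ} {ω kp : ℝ → ℝ} {P Q : ℝ}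
    (hkp : ContinuousOn kp (Set.Icc 0 Y)) (hω : Continuous ω) (ha : 0 ≤ a) (hab : a ≤ b)
    (hbY : b ≤ Y) (h1 : (N : ℝ) * ∫ x in (0 : ℝ)..a, ω x * kp x * ‖qq u x‖ ≤ P)
    (h2 : (N : ℝ) * ∫ x in a..b, ω x * kp x * ‖qq u x‖ ≤ Q) :
    (N : ℝ) * ∫ x in (0 : ℝ)..b, ω x * kp x * ‖qq u x‖ ≤ P + Q := by
  have hc : ∀ c d : ℝ, 0 ≤ c → c ≤ d → d ≤ Y →
      IntervalIntegrable (fun x => ω x * kp x * ‖qq u x‖) volume c d := by
    intro c d hc0 hcd hdY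
    apply ContinuousOn.intervalIntegrable
    rw [Set.uIcc_of_le hcd]
    exact ((hω.continuousOn.mul (hkp.mono fun x hx => ⟨hc0.trans hx.1, hx.2.trans hdY⟩)).mul
      (qq_cont u).norm.continuousOn)
  rw [← intervalIntegral.integral_add_adjacent_intervals (hc 0 a le_rfl ha (hab.trans hbY))
    (hc a b ha hab hbY), mul_add]
  exact add_le_add h1 h2

theorem seg_sound {N : ℕ} {u : Fin N → ℂ} {R β Y : ℝ} {kp : ℝ → ℝ} (hR : 0 < R) (hβ : 0 < β)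
    (hN : β ^ 2 * R = N) (hkp : ContinuousOn kp (Set.Icc 0 Y)) {e : ℕ → ℕ} {Kf : ℕ → ℕ → ℕ}
    {yB h th : ℕ} (hh : 1 ≤ h) (hY : ∀ s : ℕ, s * 1024 ≤ yB → (s : ℝ) / 2 ^ 10 / β ≤ Y)
    (hK : ∀ s : ℕ, (s + h) * 1024 ≤ yB →
      ∀ x ∈ Set.Icc ((s : ℝ) / 2 ^ 10 / β) (((s + h : ℕ) : ℝ) / 2 ^ 10 / β),
        R * kp x ≤ (Kf s (s + h) : ℝ) / 2 ^ 20)
    {k : ℕ → ℕ → ℕ → Bool} (n : ℕ) :
    ∀ s U V : ℕ, seg e Kf yB h th n s (e s) U V k = true →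
      ∃ U' V', (s * 1024 ≤ yB → (s + n * h) * 1024 ≤ yB) ∧ k (s + n * h) U' V' = true ∧
        (Inv N u β kp th s U V →
        (∀ j, s ≤ j → j + h ≤ s + n * h → CellQ N u β e h j) →
        Inv N u β kp th (s + n * h) U' V') := by
  induction n with
  | zero =>
    intro s U V hc
    refine ⟨U, V, fun h => by simpa using h, ?_, fun hI _ => ?_⟩
    · simpa [seg] using hc
    · simpa using hI
  | succ n ih =>
    intro s U V hc
    unfold seg at hc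
    simp only [ev_eq, Bool.and_eq_true, Nat.ble_eq] at hc
    obtain ⟨hs, hc⟩ := hc
    obtain ⟨U', V', hle0, hk, hI'⟩ := ih _ _ _ hc
    have e1 : s + h + n * h = s + (n + 1) * h := by ring
    rw [e1] at hk hI' hle0
    refine ⟨U', V', fun _ => hle0 hs, hk, fun hI hcell => hI' ?_ fun j h1 h2 =>
      hcell j (by omega) h2⟩
    clear hI' hk hc ih hle0
    have hq := hcell s le_rfl (by
      have : h ≤ (n + 1) * h := Nat.le_mul_of_pos_left h (Nat.succ_pos n)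
      omega)
    have hx0 : (0 : ℝ) ≤ (s : ℝ) / 2 ^ 10 / β := by positivity
    have hlt : (s : ℝ) / 2 ^ 10 < ((s + h : ℕ) : ℝ) / 2 ^ 10 := by
      apply div_lt_div_of_pos_right _ (by positivity)
      exact_mod_cast (by omega : s < s + h)
    have hle : (s : ℝ) / 2 ^ 10 / β ≤ ((s + h : ℕ) : ℝ) / 2 ^ 10 / β :=
      div_le_div_of_nonneg_right hlt.le hβ.le
    have hbY := hY _ hs
    have hkc : ContinuousOn kp (Set.Icc ((s : ℝ) / 2 ^ 10 / β) (((s + h : ℕ) : ℝ) / 2 ^ 10 / β)) :=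
      hkp.mono fun x hx => ⟨hx0.trans hx.1, hx.2.trans hbY⟩
    have ehh : ((s + h : ℕ) : ℝ) / 2 ^ 10 - (s : ℝ) / 2 ^ 10 = (h : ℝ) / 2 ^ 10 := by
      push_cast
      ring
    constructor
    · have hcl := cell_le (N := N) (u := u) (ω := fun x => |x - (th : ℝ) / 2 ^ 10 / β|)
        (a0 := (ad s th : ℝ) / 2 ^ 10) (a1 := (ad (s + h) th : ℝ) / 2 ^ 10)
        (K := (Kf s (s + h) : ℝ) / 2 ^ 20) hR hβ hN hlt (by positivity) (by fun_prop)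
        (fun x _ => abs_nonneg _) hkc (hK s hs) (by
          intro τ hτ
          have h1 := conv_abs (s0 := (s : ℝ) / 2 ^ 10) (s1 := ((s + h : ℕ) : ℝ) / 2 ^ 10)
            (θ := (th : ℝ) / 2 ^ 10) hτ.1 hτ.2
          have e2 : ∀ j : ℕ, |(j : ℝ) / 2 ^ 10 - (th : ℝ) / 2 ^ 10| = (ad j th : ℝ) / 2 ^ 10 := by
            intro j
            rw [ad_cast, ← sub_div, abs_div, abs_of_pos (by positivity : (0 : ℝ) < 2 ^ 10)]
          rw [e2, e2] at h1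
          refine le_trans (le_of_eq ?_) h1
          rw [← sub_div, abs_div, abs_of_pos hβ, mul_div_cancel₀ _ hβ.ne']) hq
      rw [ehh] at hcl
      have h3 := inc_sound (Kf s (s + h)) h (ad s th) (e s) (ad (s + h) th) (e (s + h))
      have h4 := step_int (β := β) hkp (by fun_prop) hx0 hle hbY hI.hU (hcl.trans h3)
      rw [← add_div] at h4
      exact_mod_cast h4
    · have hcl := cell_le (N := N) (u := u) (ω := fun x => x)
        (a0 := (s : ℝ) / 2 ^ 10) (a1 := ((s + h : ℕ) : ℝ) / 2 ^ 10)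
        (K := (Kf s (s + h) : ℝ) / 2 ^ 20) hR hβ hN hlt (by positivity) (by fun_prop)
        (fun x hx => hx0.trans hx.1) hkc (hK s hs) (by
          intro τ hτ
          rw [mul_div_cancel₀ _ hβ.ne']
          apply le_of_eq
          ring) hq
      rw [ehh] at hcl
      have h3 := inc_sound (Kf s (s + h)) h s (e s) (s + h) (e (s + h))
      have h4 := step_int (β := β) hkp (by fun_prop) hx0 hle hbY hI.hV (hcl.trans h3)
      rw [← add_div] at h4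
      exact_mod_cast h4

end Pool.Agent.Lib.MP_af3a4a_an.P1.CHK.H58.M
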