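import Pool.Agent.Lib.MP_af3a4a_an.P1.CHK.H58.MS

/-!
# `R ∈ [21/10, 29/12]`: the three profiles (helper58)
-/

set_option autoImplicit false

namespace Pool.Agent.Lib.MP_af3a4a_an.P1.CHK.H58.M

open Finset MeasureTheory ComplexConjugate
open Pool.Agent.Lib.MP_af3a4a_an.SV (uu av)
open Pool.Agent.Lib.MP_af3a4a_an.P1.H80
open Pool.Agent.Lib.MP_af3a4a_an.P1.H74
open Pool.Agent.Lib.MP_af3a4a_an.P1.H81
open Pool.Agent.Lib.MP_af3a4a_an.P1.CHK.Arith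

theorem node_le {f : ℝ} {p m c : ℕ} (h : (m : ℝ) / 2 ^ 40 - (p : ℝ) / 2 ^ 40 ≤ f) :
    Real.exp (-f) ≤ (es p (Nat.min m (p + c)) : ℝ) / 2 ^ 40 := by
  refine le_trans (Real.exp_le_exp.2 ?_) (es_spec p (Nat.min m (p + c)))
  have h1 : Nat.min m (p + c) ≤ m := Nat.min_le_left m (p + c)
  have h2 : ((Nat.min m (p + c) : ℕ) : ℝ) / 2 ^ 40 ≤ (m : ℝ) / 2 ^ 40 := by
    apply div_le_div_of_nonneg_right _ (by positivity)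
    exact_mod_cast h1
  linarith

section

variable {N : ℕ} {w : Fin N → ℂ} {R β : ℝ}

theorem cellA (hN1 : 1 ≤ N) (hw : ∀ k, 1 ≤ ‖w k‖) (ht : ∑ k, ‖w k - (R : ℂ)‖ ≤ N) (hR : 0 < R)
    (hβ : 0 < β) (hN : β ^ 2 * R = N) {Sm k0 : ℕ}
    (hS : 1 + 2 * (av (uu w)).re ≤ (Sm : ℝ) / 2 ^ 20)
    (hk : (k0 : ℝ) / 2 ^ 10 ≤ (av (uu w)).re * R * β) (h j : ℕ) :
    CellQ N (uu w) β (eA Sm k0) h j := by
  intro τ hτ
  have hsq := sq_bound hN1 hw ht hR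
  obtain ⟨m1, hm1⟩ : ∃ m1, m1 = (av (uu w)).re := ⟨_, rfl⟩
  rw [← hm1] at hS hk hsq
  have hsq' : SV.sq (uu w) ≤ (1 + 2 * m1) / R := by
    rw [le_div_iff₀ hR, mul_comm]
    exact hsq
  have hq := fun x => qq_am2 hN1 (x := x) hsq'
  rw [← hm1] at hq
  obtain ⟨s0, hs0⟩ : ∃ s0, s0 = (j : ℝ) / 2 ^ 10 := ⟨_, rfl⟩
  obtain ⟨s1, hs1⟩ : ∃ s1, s1 = ((j + h : ℕ) : ℝ) / 2 ^ 10 := ⟨_, rfl⟩
  have h0 : 0 ≤ s0 := by rw [hs0]; positivity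
  have h1 : 0 ≤ s1 := by rw [hs1]; positivity
  obtain ⟨K, hK⟩ : ∃ K, K = (k0 : ℝ) / 2 ^ 10 := ⟨_, rfl⟩
  obtain ⟨S, hS'⟩ : ∃ S, S = (Sm : ℝ) / 2 ^ 20 := ⟨_, rfl⟩
  rw [← hS'] at hS
  rw [← hK] at hk
  have hS0 : 0 ≤ S := by rw [hS']; positivity
  have hnode : ∀ i : ℕ, Real.exp (-(K * ((i : ℝ) / 2 ^ 10) - S * ((i : ℝ) / 2 ^ 10) ^ 2 / 2)) ≤
      (eA Sm k0 i : ℝ) / 2 ^ 40 := by
    intro i
    unfold eA
    rw [ev_eq]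
    apply node_le
    have h2 := real_le_div (Sm * (i * i)) 2 (by norm_num)
    have h3 : ((k0 * i * 1048576 : ℕ) : ℝ) / 2 ^ 40 = K * ((i : ℝ) / 2 ^ 10) := by
      rw [hK]; push_cast; ring
    have h4 : S * ((i : ℝ) / 2 ^ 10) ^ 2 / 2 = ((Sm * (i * i) : ℕ) : ℝ) / (2 : ℕ) / 2 ^ 40 := by
      rw [hS']; push_cast; ring
    rw [h3, h4]
    have h5 := div_le_div_of_nonneg_right h2 (by positivity : (0 : ℝ) ≤ 2 ^ 40)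
    linarith
  rw [← hs0, ← hs1]
  refine exp_chord (f0 := K * s0 - S * s0 ^ 2 / 2) (f1 := K * s1 - S * s1 ^ 2 / 2) hτ.1 hτ.2
    (hq _) ?_ (by rw [hs0]; exact hnode j) (by rw [hs1]; exact hnode (j + h))
  obtain ⟨s, hs⟩ : ∃ s, s = s0 + τ * (s1 - s0) := ⟨_, rfl⟩
  rw [← hs]
  have hs_0 : 0 ≤ s := by
    have : s = (1 - τ) * s0 + τ * s1 := by rw [hs]; ring
    rw [this]
    have := sub_nonneg.2 hτ.2
    have := hτ.1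
    positivity
  have e1 : (N : ℝ) * (s / β * m1 - (s / β) ^ 2 * ((1 + 2 * m1) / R) / 2) =
      m1 * R * β * s - (1 + 2 * m1) * s ^ 2 / 2 := by
    rw [← hN]
    field_simp
  rw [e1]
  have e2 : K * s - S * s ^ 2 / 2 = (1 - τ) * (K * s0 - S * s0 ^ 2 / 2) +
      τ * (K * s1 - S * s1 ^ 2 / 2) + S * (τ * (1 - τ)) * (s1 - s0) ^ 2 / 2 := by
    rw [hs]; ring
  have h6 : 0 ≤ S * (τ * (1 - τ)) * (s1 - s0) ^ 2 / 2 := by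
    have := mul_nonneg hτ.1 (sub_nonneg.2 hτ.2)
    positivity
  have h7 := mul_le_mul_of_nonneg_right hk hs_0
  have h8 := mul_le_mul_of_nonneg_right hS (sq_nonneg s)
  linarith

theorem cellP (hN1 : 1 ≤ N) (hw : ∀ k, 1 ≤ ‖w k‖) (ht : ∑ k, ‖w k - (R : ℂ)‖ ≤ N) (hR : 2 ≤ R)
    (hR2 : R ≤ 29 / 12) (hN : β ^ 2 * R = N) {Ba : ℕ} (hBa : 1 ≤ Ba)
    (hβa : (Ba : ℝ) / 2 ^ 10 ≤ β) (h j : ℕ) (hj : 5 * (j + h) ≤ 2 * Ba) :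
    CellQ N (uu w) β (eP Ba h) h j := by
  intro τ hτ
  have hBar : (0 : ℝ) < Ba := by exact_mod_cast hBa
  have hβ : 0 < β := lt_of_lt_of_le (by positivity) hβa
  obtain ⟨B, hB⟩ : ∃ B, B = (Ba : ℝ) / 2 ^ 10 := ⟨_, rfl⟩
  rw [← hB] at hβa
  have hB0 : 0 < B := by rw [hB]; positivity
  obtain ⟨s0, hs0⟩ : ∃ s0, s0 = (j : ℝ) / 2 ^ 10 := ⟨_, rfl⟩
  obtain ⟨s1, hs1⟩ : ∃ s1, s1 = ((j + h : ℕ) : ℝ) / 2 ^ 10 := ⟨_, rfl⟩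
  obtain ⟨H, hH⟩ : ∃ H, H = (h : ℝ) / 2 ^ 10 := ⟨_, rfl⟩
  have h0 : 0 ≤ s0 := by rw [hs0]; positivity
  have h1 : 0 ≤ s1 := by rw [hs1]; positivity
  have hs10 : s1 - s0 = H := by rw [hs1, hs0, hH]; push_cast; ring
  have hH0 : 0 ≤ H := by rw [hH]; positivity
  have hs1B : s1 ≤ 2 / 5 * B := by
    rw [hs1, hB]
    have : (5 * (j + h : ℕ) : ℝ) ≤ 2 * Ba := by exact_mod_cast hj
    rw [div_le_iff₀ (by positivity)]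
    have e : 2 / 5 * ((Ba : ℝ) / 2 ^ 10) * 2 ^ 10 = 2 * Ba / 5 := by ring
    rw [e, le_div_iff₀ (by norm_num)]
    linarith
  have hnode : ∀ i : ℕ, Real.exp (-(((i : ℝ) / 2 ^ 10) ^ 2 / 2 -
      21 / 100 * ((i : ℝ) / 2 ^ 10) ^ 3 / B - H ^ 2 / 8)) ≤ (eP Ba h i : ℝ) / 2 ^ 40 := by
    intro i
    unfold eP
    rw [ev_eq]
    apply node_le
    have h2 := real_le_div ((i * i * i) * 22020096) (100 * Ba) (by omega)
    have h3 : ((i * i * 524288 : ℕ) : ℝ) / 2 ^ 40 = ((i : ℝ) / 2 ^ 10) ^ 2 / 2 := by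
      push_cast; ring
    have h4 : 21 / 100 * ((i : ℝ) / 2 ^ 10) ^ 3 / B =
        (((i * i * i) * 22020096 : ℕ) : ℝ) / ((100 * Ba : ℕ) : ℝ) / 2 ^ 40 := by
      rw [hB]
      push_cast
      field_simp
      ring
    have h5 : H ^ 2 / 8 = ((h * h * 131072 : ℕ) : ℝ) / 2 ^ 40 := by
      rw [hH]; push_cast; ring
    rw [h3, h4, h5]
    have h6 := div_le_div_of_nonneg_right h2 (by positivity : (0 : ℝ) ≤ 2 ^ 40)
    rw [Nat.cast_add (i * i * i * 22020096 / (100 * Ba) + 1) (h * h * 131072), add_div]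
    linarith
  rw [← hs0, ← hs1]
  obtain ⟨s, hs⟩ : ∃ s, s = s0 + τ * (s1 - s0) := ⟨_, rfl⟩
  have hsc : s = (1 - τ) * s0 + τ * s1 := by rw [hs]; ring
  have hτ1 := sub_nonneg.2 hτ.2
  have hτ0 := hτ.1
  have hs_0 : 0 ≤ s := by
    rw [hsc]
    positivity
  have hs_1 : s ≤ s1 := by
    have : 0 ≤ (1 - τ) * (s1 - s0) := by
      rw [hs10]; positivity
    rw [hs]
    linarith
  have hx : s / β ≤ 2 / 5 := by
    rw [div_le_iff₀ hβ]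
    have : 2 / 5 * B ≤ 2 / 5 * β := by linarith
    linarith
  have hq := qq_P hN1 hw ht hR hR2 (div_nonneg hs_0 hβ.le) hx
  refine exp_chord (f0 := s0 ^ 2 / 2 - 21 / 100 * s0 ^ 3 / B - H ^ 2 / 8)
    (f1 := s1 ^ 2 / 2 - 21 / 100 * s1 ^ 3 / B - H ^ 2 / 8) hτ.1 hτ.2
    (by rw [← hs]; exact hq) ?_ (by rw [hs0]; exact hnode j) (by rw [hs1]; exact hnode (j + h))
  have hR0 : 0 < R := by linarith
  have e1 : (N : ℝ) * (((s / β) ^ 2 / 2 - 21 / 100 * (s / β) ^ 3) / R) =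
      s ^ 2 / 2 - 21 / 100 * s ^ 3 / β := by
    rw [← hN]
    field_simp
  rw [e1]
  have h6 : 21 / 100 * s ^ 3 / β ≤ 21 / 100 * s ^ 3 / B :=
    div_le_div_of_nonneg_left (by positivity) hB0 hβa
  have h7 : s ^ 3 ≤ (1 - τ) * s0 ^ 3 + τ * s1 ^ 3 := by
    have := (convexOn_pow 3).2 (Set.mem_Ici.2 h0) (Set.mem_Ici.2 h1) hτ1 hτ0 (by ring)
    simp only [smul_eq_mul] at this
    rw [hsc]
    exact this
  have h8 : 21 / 100 * s ^ 3 / B ≤ (1 - τ) * (21 / 100 * s0 ^ 3 / B) +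
      τ * (21 / 100 * s1 ^ 3 / B) := by
    have e : (1 - τ) * (21 / 100 * s0 ^ 3 / B) + τ * (21 / 100 * s1 ^ 3 / B) =
        21 / 100 * ((1 - τ) * s0 ^ 3 + τ * s1 ^ 3) / B := by ring
    rw [e]
    apply div_le_div_of_nonneg_right _ hB0.le
    linarith
  have h9 : s ^ 2 / 2 = (1 - τ) * (s0 ^ 2 / 2) + τ * (s1 ^ 2 / 2) - τ * (1 - τ) * H ^ 2 / 2 := by
    rw [hs, ← hs10]; ring
  have h10 : τ * (1 - τ) * H ^ 2 / 2 ≤ H ^ 2 / 8 := by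
    have : τ * (1 - τ) ≤ 1 / 4 := by nlinarith [sq_nonneg (τ - 1 / 2)]
    have := mul_le_mul_of_nonneg_right this (sq_nonneg H)
    linarith
  linarith

theorem cellC (hR : 0 < R) (hβ : 0 < β) (hN : β ^ 2 * R = N) {Y : ℝ}
    (hC : ∀ x ∈ Set.Icc (0 : ℝ) Y, ‖qq (uu w) x‖ ≤ Real.exp (-(N * (2 / 5 * x ^ 2 / R))))
    (h j : ℕ) (hj : ((j + h : ℕ) : ℝ) / 2 ^ 10 / β ≤ Y) : CellQ N (uu w) β (eC h) h j := by
  intro τ hτ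
  obtain ⟨s0, hs0⟩ : ∃ s0, s0 = (j : ℝ) / 2 ^ 10 := ⟨_, rfl⟩
  obtain ⟨s1, hs1⟩ : ∃ s1, s1 = ((j + h : ℕ) : ℝ) / 2 ^ 10 := ⟨_, rfl⟩
  obtain ⟨H, hH⟩ : ∃ H, H = (h : ℝ) / 2 ^ 10 := ⟨_, rfl⟩
  have h0 : 0 ≤ s0 := by rw [hs0]; positivity
  have h1 : 0 ≤ s1 := by rw [hs1]; positivity
  have hs10 : s1 - s0 = H := by rw [hs1, hs0, hH]; push_cast; ring
  have hH0 : 0 ≤ H := by rw [hH]; positivity
  have hnode : ∀ i : ℕ, Real.exp (-(2 / 5 * ((i : ℝ) / 2 ^ 10) ^ 2 - H ^ 2 / 10)) ≤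
      (eC h i : ℝ) / 2 ^ 40 := by
    intro i
    unfold eC
    rw [ev_eq]
    apply node_le
    have h2 := real_le_div (h * h * 1048576) 10 (by norm_num)
    have h3 := div_le_real (i * i * 2097152) 5
    have h4 : H ^ 2 / 10 = ((h * h * 1048576 : ℕ) : ℝ) / (10 : ℕ) / 2 ^ 40 := by
      rw [hH]; push_cast; ring
    have h5 : 2 / 5 * ((i : ℝ) / 2 ^ 10) ^ 2 = ((i * i * 2097152 : ℕ) : ℝ) / (5 : ℕ) / 2 ^ 40 := by
      push_cast; ring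
    rw [h4, h5]
    have h6 := div_le_div_of_nonneg_right h2 (by positivity : (0 : ℝ) ≤ 2 ^ 40)
    have h7 := div_le_div_of_nonneg_right h3 (by positivity : (0 : ℝ) ≤ 2 ^ 40)
    linarith
  rw [← hs0, ← hs1]
  rw [← hs1] at hj
  obtain ⟨s, hs⟩ : ∃ s, s = s0 + τ * (s1 - s0) := ⟨_, rfl⟩
  have hsc : s = (1 - τ) * s0 + τ * s1 := by rw [hs]; ring
  have hτ1 := sub_nonneg.2 hτ.2
  have hτ0 := hτ.1
  have hs_0 : 0 ≤ s := by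
    rw [hsc]
    positivity
  have hs_1 : s ≤ s1 := by
    have : 0 ≤ (1 - τ) * (s1 - s0) := by
      rw [hs10]; positivity
    rw [hs]
    linarith
  have hx : s / β ≤ Y := (div_le_div_of_nonneg_right hs_1 hβ.le).trans hj
  refine exp_chord (f0 := 2 / 5 * s0 ^ 2 - H ^ 2 / 10) (f1 := 2 / 5 * s1 ^ 2 - H ^ 2 / 10)
    hτ.1 hτ.2 (by rw [← hs]; exact hC _ ⟨div_nonneg hs_0 hβ.le, hx⟩) ?_
    (by rw [hs0]; exact hnode j) (by rw [hs1]; exact hnode (j + h))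
  have e1 : (N : ℝ) * (2 / 5 * (s / β) ^ 2 / R) = 2 / 5 * s ^ 2 := by
    rw [← hN]
    field_simp
  rw [e1]
  have h9 : s ^ 2 = (1 - τ) * s0 ^ 2 + τ * s1 ^ 2 - τ * (1 - τ) * H ^ 2 := by
    rw [hs, ← hs10]; ring
  have h10 : τ * (1 - τ) * H ^ 2 ≤ H ^ 2 / 4 := by
    have : τ * (1 - τ) ≤ 1 / 4 := by nlinarith [sq_nonneg (τ - 1 / 2)]
    have := mul_le_mul_of_nonneg_right this (sq_nonneg H)
    linarith
  linarith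

end

end Pool.Agent.Lib.MP_af3a4a_an.P1.CHK.H58.M
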