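import Pool.Agent.Lib.MP_af3a4a_an.P1.CHK.H58.MT

/-!
# `R ∈ [21/10, 29/12]`: soundness of the checker (helper58)
-/

set_option autoImplicit false

namespace Pool.Agent.Lib.MP_af3a4a_an.P1.CHK.H58.M

open Finset MeasureTheory ComplexConjugate
open Pool.Agent.Lib.MP_af3a4a_an.SV (uu av)
open Pool.Agent.Lib.MP_af3a4a_an.P1.H80
open Pool.Agent.Lib.MP_af3a4a_an.P1.H74
open Pool.Agent.Lib.MP_af3a4a_an.P1.H81
open Pool.Agent.Lib.MP_af3a4a_an.P1.CHK.Arith

/-- the Gaussian tail -/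
theorem gauss_tail {c a b : ℝ} (hc : 0 < c) (ha : 0 < a) (hab : a ≤ b) :
    ∫ x in a..b, Real.exp (-(c * x ^ 2)) ≤ Real.exp (-(c * a ^ 2)) / (2 * c * a) := by
  have h1 : ∫ x in a..b, Real.exp (-(c * x ^ 2)) ≤
      ∫ x in a..b, (1 / a) * (x * Real.exp (-(c * x ^ 2))) := by
    apply intervalIntegral.integral_mono_on hab
    · apply Continuous.intervalIntegrable
      fun_prop
    · apply Continuous.intervalIntegrable
      fun_prop
    · intro x hx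
      have h2 : 1 ≤ 1 / a * x := by
        rw [one_div, inv_mul_eq_div, le_div_iff₀ ha, one_mul]
        exact hx.1
      rw [← mul_assoc]
      exact le_mul_of_one_le_left (Real.exp_pos _).le h2
  rw [intervalIntegral.integral_const_mul] at h1
  refine h1.trans ?_
  have h3 := mul_le_mul_of_nonneg_left (gauss_rem_le (a := a) (b := b) hc)
    (by positivity : 0 ≤ 1 / a)
  refine h3.trans (le_of_eq ?_)
  field_simp

/-- the data of a configuration in the group `g` -/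
structure Cf (N : ℕ) (w : Fin N → ℂ) (R β : ℝ) (g : Gr) : Prop where
  hN : 100 ≤ N
  hw : ∀ k, 1 ≤ ‖w k‖
  ht : ∑ k, ‖w k - (R : ℂ)‖ ≤ N
  hR2 : 2 ≤ R
  hR3 : R ≤ 29 / 12
  hR0 : (g.R0 : ℝ) / 2 ^ 10 ≤ R
  hR1 : R ≤ (g.R1 : ℝ) / 2 ^ 10
  hg0 : 2048 ≤ g.R0
  hBa : 1 ≤ g.Ba
  hβa : (g.Ba : ℝ) / 2 ^ 10 ≤ β
  hβb : g.Bb ≠ 0 → β ≤ (g.Bb : ℝ) / 2 ^ 10
  hy0 : 1 ≤ g.y
  hy1 : g.y ≤ 1000
  hβN : β ^ 2 * R = N
  hC : ∀ x ∈ Set.Icc (0 : ℝ) 1, ‖qq (uu w) x‖ ≤ Real.exp (-(N * (2 / 5 * x ^ 2 / R)))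
  hC2 : ∀ x ∈ Set.Icc (1 : ℝ) (R - 19 / 50), ‖qq (uu w) x‖ ≤ Real.exp (-(N * (x ^ 2 / (4 * R))))

section

variable {N : ℕ} {w : Fin N → ℂ} {R β : ℝ} {g : Gr}

theorem Cf.hβ (c : Cf N w R β g) : 0 < β := by
  have : (0 : ℝ) < g.Ba := by exact_mod_cast c.hBa
  exact lt_of_lt_of_le (by positivity) c.hβa

/-- the bounds which depend on `m₁` -/
structure Mb (w : Fin N → ℂ) (R : ℝ) (Sm gp gn rho : ℕ) : Prop where
  hS : 1 + 2 * (av (uu w)).re ≤ (Sm : ℝ) / 2 ^ 20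
  hg : (gp : ℝ) / 2 ^ 20 - (gn : ℝ) / 2 ^ 20 ≤
    (R - 1) / R - (3 * R ^ 2 - 2 * R + 1) / R * (av (uu w)).re
  hr : ‖av (uu w)‖ ≤ (rho : ℝ) / 2 ^ 20
  hr1 : 1 ≤ rho
  hm : 0 ≤ (av (uu w)).re

/-- `T` and `tail` -/
structure Tt (β R : ℝ) (g : Gr) (T tail : ℕ) : Prop where
  hT : Real.exp (-(2 / 5 * β ^ 2 * ((g.y : ℝ) / 2 ^ 10) ^ 2)) ≤ (T : ℝ) / 2 ^ 40
  hA : (g.R1 : ℝ) * T * 101 / (80 * g.y) / 2 ^ 40 +
    101 / 50 * R * Real.exp (-(β ^ 2 / 4)) ≤ (tail : ℝ) / 2 ^ 40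

theorem fin_sound (c : Cf N w R β g) {Sm gp gn rho th T tail s U V : ℕ} (mb : Mb w R Sm gp gn rho)
    (tt : Tt β R g T tail) (hs : s * 1024 ≤ g.y * g.Ba)
    (hI : Inv N (uu w) β (kapK R (av (uu w)).re) th s U V)
    (h : fin g Sm gp gn rho th T tail s U V = true) :
    1 / 16384 ≤ ((N : ℝ) + 1) * ‖∫ x in (0 : ℝ)..(R - 19 / 50), qq (uu w) x‖ := by
  unfold fin at h
  simp only [ev_eq, Bool.and_eq_true, Nat.ble_eq] at h
  obtain ⟨hths, hL, hf⟩ := h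
  obtain ⟨km, hkm⟩ : ∃ km, km = kapU Sm gp gn g.R1 (xlo g.Bb s) (g.y * 1024) := ⟨_, rfl⟩
  obtain ⟨EC, hEC⟩ : ∃ EC, EC = em (Nat.min (s * s * 2097152 / 5) 70368744177664) := ⟨_, rfl⟩
  rw [← hkm, ← hEC] at hL hf
  obtain ⟨rem, hrem⟩ : ∃ rem, rem = km * EC * 5 / 4194304 + 1 := ⟨_, rfl⟩
  rw [← hrem] at hL hf
  obtain ⟨X, hX⟩ : ∃ X, X = th * (V + rem) / g.Ba + 1 := ⟨_, rfl⟩
  rw [← hX] at hL hf
  obtain ⟨L, hLdef⟩ : ∃ L, L = T + (U + rem) + X := ⟨_, rfl⟩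
  rw [← hLdef] at hL hf
  obtain ⟨m1, hm1⟩ : ∃ m1, m1 = (av (uu w)).re := ⟨_, rfl⟩
  have hβ := c.hβ
  have hR : 0 < R := by linarith [c.hR2]
  have hNr : (100 : ℝ) ≤ N := by exact_mod_cast c.hN
  have hNpos : (0 : ℝ) < N := by linarith
  have hBar : (0 : ℝ) < g.Ba := by exact_mod_cast c.hBa
  have hyr : (0 : ℝ) < g.y := by exact_mod_cast c.hy0
  obtain ⟨y, hy⟩ : ∃ y, y = (g.y : ℝ) / 2 ^ 10 := ⟨_, rfl⟩
  have hy0 : 0 < y := by rw [hy]; positivity
  have hy1 : y < 1 := by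
    rw [hy, div_lt_one (by positivity)]
    have h1 : (g.y : ℝ) ≤ 1000 := by exact_mod_cast c.hy1
    have h2 : (2 : ℝ) ^ 10 = 1024 := by norm_num
    rw [h2]
    linarith
  have hRY : 1 ≤ R - 19 / 50 := by linarith [c.hR2]
  obtain ⟨xs, hxs⟩ : ∃ xs, xs = (s : ℝ) / 2 ^ 10 / β := ⟨_, rfl⟩
  obtain ⟨t, htd⟩ : ∃ t, t = (th : ℝ) / 2 ^ 10 / β := ⟨_, rfl⟩
  have ht0 : 0 ≤ t := by rw [htd]; positivity
  have htxs : t ≤ xs := by
    rw [htd, hxs]
    apply div_le_div_of_nonneg_right _ hβ.le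
    apply div_le_div_of_nonneg_right _ (by positivity)
    exact_mod_cast hths
  have hxs0 : 0 ≤ xs := ht0.trans htxs
  have hxsy : xs ≤ y := by
    rw [hxs, hy]
    have h1 : (s : ℝ) / 2 ^ 10 / β ≤ (s : ℝ) / 2 ^ 10 / ((g.Ba : ℝ) / 2 ^ 10) :=
      div_le_div_of_nonneg_left (by positivity) (by positivity) c.hβa
    refine h1.trans ?_
    have h2 : (s : ℝ) * 1024 ≤ g.y * g.Ba := by exact_mod_cast hs
    rw [div_le_iff₀ (by positivity)]
    have e : (g.y : ℝ) / 2 ^ 10 * ((g.Ba : ℝ) / 2 ^ 10) = (g.y * g.Ba) / 2 ^ 20 := by ring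
    rw [e, div_le_div_iff₀ (by positivity) (by positivity)]
    linarith
  -- the kernel
  have hkc : ContinuousOn (kapK R m1) (Set.Icc 0 y) := kap_cont hy1
  have hker : ∀ x ∈ Set.Icc xs y, R * kapK R m1 x ≤ (km : ℝ) / 2 ^ 20 := by
    intro x hx
    rw [hkm, hm1]
    apply kapU_sound hR c.hR1 mb.hS mb.hg (hxs0.trans hx.1)
      (xlo_sound hβ c.hβb (by rw [← hxs]; exact hx.1))
    · refine hx.2.trans (le_of_eq ?_)
      rw [hy]
      push_cast
      ring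
    · have := c.hy1
      omega
  have hcc : (0 : ℝ) < 2 / 5 * β ^ 2 := by positivity
  have hqC : ∀ x ∈ Set.Icc (0 : ℝ) 1, ‖qq (uu w) x‖ ≤
      Real.exp (-(2 / 5 * β ^ 2 * x ^ 2)) := by
    intro x hx
    refine (c.hC x hx).trans (le_of_eq ?_)
    congr 1
    rw [← c.hβN]
    field_simp
  -- the remainder
  have hECb : Real.exp (-(2 / 5 * β ^ 2 * xs ^ 2)) ≤ (EC : ℝ) / 2 ^ 40 := by
    rw [hEC]
    refine le_trans (Real.exp_le_exp.2 (neg_le_neg ?_)) (em_spec _)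
    have h1 : ((Nat.min (s * s * 2097152 / 5) 70368744177664 : ℕ) : ℝ) ≤
        ((s * s * 2097152 / 5 : ℕ) : ℝ) := by exact_mod_cast Nat.min_le_left _ _
    have h2 := div_le_real (s * s * 2097152) 5
    have e : 2 / 5 * β ^ 2 * xs ^ 2 = ((s * s * 2097152 : ℕ) : ℝ) / (5 : ℕ) / 2 ^ 40 := by
      rw [hxs]
      push_cast
      field_simp
      ring
    rw [e]
    exact div_le_div_of_nonneg_right (h1.trans h2) (by positivity)
  have hremb : ∀ ω : ℝ → ℝ, Continuous ω → (∀ x ∈ Set.Icc xs y, 0 ≤ ω x ∧ ω x ≤ x) →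
      (N : ℝ) * ∫ x in xs..y, ω x * kapK R m1 x * ‖qq (uu w) x‖ ≤ (rem : ℝ) / 2 ^ 40 := by
    intro ω hω hω'
    have h1 : ∫ x in xs..y, ω x * kapK R m1 x * ‖qq (uu w) x‖ ≤
        ∫ x in xs..y, ((km : ℝ) / 2 ^ 20 / R) * (x * Real.exp (-(2 / 5 * β ^ 2 * x ^ 2))) := by
      apply intervalIntegral.integral_mono_on hxsy
      · apply ContinuousOn.intervalIntegrable
        rw [Set.uIcc_of_le hxsy]
        exact (hω.continuousOn.mul (hkc.mono fun x hx => ⟨hxs0.trans hx.1, hx.2⟩)).mul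
          (qq_cont (uu w)).norm.continuousOn
      · apply Continuous.intervalIntegrable
        fun_prop
      · intro x hx
        have h2 := hker x hx
        have h3 := hω' x hx
        have h4 := hqC x ⟨hxs0.trans hx.1, hx.2.trans hy1.le⟩
        have h5 : kapK R m1 x ≤ (km : ℝ) / 2 ^ 20 / R := by
          rw [le_div_iff₀ hR, mul_comm]
          exact h2
        have h6 : ω x * ‖qq (uu w) x‖ ≤ x * Real.exp (-(2 / 5 * β ^ 2 * x ^ 2)) :=
          mul_le_mul h3.2 h4 (norm_nonneg _) (h3.1.trans h3.2)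
        have h7 : 0 ≤ ω x * ‖qq (uu w) x‖ := mul_nonneg h3.1 (norm_nonneg _)
        have h8 : (0 : ℝ) ≤ (km : ℝ) / 2 ^ 20 / R := by positivity
        calc ω x * kapK R m1 x * ‖qq (uu w) x‖ = kapK R m1 x * (ω x * ‖qq (uu w) x‖) := by ring
          _ ≤ ((km : ℝ) / 2 ^ 20 / R) * (ω x * ‖qq (uu w) x‖) := mul_le_mul_of_nonneg_right h5 h7
          _ ≤ _ := mul_le_mul_of_nonneg_left h6 h8
    rw [intervalIntegral.integral_const_mul] at h1
    have h2 := gauss_rem_le (a := xs) (b := y) hcc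
    have h3 : (N : ℝ) * ∫ x in xs..y, ω x * kapK R m1 x * ‖qq (uu w) x‖ ≤
        N * (((km : ℝ) / 2 ^ 20 / R) * (Real.exp (-(2 / 5 * β ^ 2 * xs ^ 2)) /
          (2 * (2 / 5 * β ^ 2)))) := by
      apply mul_le_mul_of_nonneg_left _ hNpos.le
      exact h1.trans (mul_le_mul_of_nonneg_left h2 (by positivity))
    refine h3.trans ?_
    have e1 : (N : ℝ) * (((km : ℝ) / 2 ^ 20 / R) * (Real.exp (-(2 / 5 * β ^ 2 * xs ^ 2)) /
          (2 * (2 / 5 * β ^ 2)))) = (km : ℝ) / 2 ^ 20 * (5 / 4) *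
            Real.exp (-(2 / 5 * β ^ 2 * xs ^ 2)) := by
      rw [← c.hβN]
      field_simp
      norm_num
    rw [e1]
    have h4 : (km : ℝ) / 2 ^ 20 * (5 / 4) * Real.exp (-(2 / 5 * β ^ 2 * xs ^ 2)) ≤
        (km : ℝ) / 2 ^ 20 * (5 / 4) * ((EC : ℝ) / 2 ^ 40) :=
      mul_le_mul_of_nonneg_left hECb (by positivity)
    refine h4.trans ?_
    have h5 := real_le_div (km * EC * 5) 4194304 (by norm_num)
    rw [← hrem] at h5
    rw [le_div_iff₀ (by positivity)]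
    refine le_trans (le_of_eq ?_) h5
    push_cast
    ring
  -- the two integrals
  have hU := step_int (β := β) (ω := fun x => |x - (th : ℝ) / 2 ^ 10 / β|) hkc (by fun_prop) hxs0
    hxsy le_rfl (P := (U : ℝ) / 2 ^ 40) (Q := (rem : ℝ) / 2 ^ 40)
    (by have := hI.hU; rw [← hm1, ← hxs] at this; exact this)
    (hremb _ (by fun_prop) fun x hx => ⟨abs_nonneg _, by
      rw [← htd, abs_of_nonneg (by linarith [hx.1])]
      linarith⟩)
  have hV := step_int (β := β) (ω := fun x => x) hkc (by fun_prop) hxs0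
    hxsy le_rfl (P := (V : ℝ) / 2 ^ 40) (Q := (rem : ℝ) / 2 ^ 40)
    (by have := hI.hV; rw [← hm1, ← hxs] at this; exact this)
    (hremb _ (by fun_prop) fun x hx => ⟨hxs0.trans hx.1, le_rfl⟩)
  rw [← htd] at hU
  -- `massK`
  have hqy : ‖qq (uu w) y‖ ≤ (T : ℝ) / 2 ^ 40 := by
    refine (hqC y ⟨hy0.le, hy1.le⟩).trans ?_
    rw [hy]
    exact tt.hT
  have hmass := massK (by have := c.hN; omega) c.hw c.ht (by linarith [c.hR2]) ht0
    (htxs.trans hxsy) hy1 ((qq_cont (uu w)).norm.continuousOn) (fun x _ => le_rfl) hqy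
  rw [← hm1] at hmass
  obtain ⟨I1, hI1⟩ : ∃ I1, I1 = ∫ x in (0 : ℝ)..y, |x - t| * kapK R m1 x * ‖qq (uu w) x‖ :=
    ⟨_, rfl⟩
  obtain ⟨I2, hI2⟩ : ∃ I2, I2 = ∫ x in (0 : ℝ)..y, x * kapK R m1 x * ‖qq (uu w) x‖ := ⟨_, rfl⟩
  obtain ⟨J, hJ⟩ : ∃ J, J = ‖∫ x in (0 : ℝ)..y, qq (uu w) x‖ := ⟨_, rfl⟩
  rw [← hI1] at hU
  rw [← hI2] at hV
  rw [← hI1, ← hI2, ← hJ] at hmass
  have hJ0 : 0 ≤ J := by rw [hJ]; exact norm_nonneg _
  have htB : t ≤ (th : ℝ) / g.Ba := by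
    rw [htd]
    refine (div_le_div_of_nonneg_left (by positivity) (by positivity) c.hβa).trans (le_of_eq ?_)
    field_simp
  -- the left side
  have hXb : t * (N * I2) ≤ (X : ℝ) / 2 ^ 40 := by
    have h1 : t * (N * I2) ≤ (th : ℝ) / g.Ba * (((V : ℝ) + rem) / 2 ^ 40) := by
      apply mul_le_mul htB (by rw [add_div]; exact hV) _ (by positivity)
      apply mul_nonneg hNpos.le
      rw [hI2]
      apply intervalIntegral.integral_nonneg hy0.le
      intro x hx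
      apply mul_nonneg _ (norm_nonneg _)
      apply mul_nonneg hx.1
      -- kernel nonnegative
      unfold kapK
      have hx1 : x < 1 := lt_of_le_of_lt hx.2 hy1
      have hxx : 0 < 1 - x ^ 2 := by
        have := pow_lt_one₀ hx.1 hx1 (two_ne_zero)
        linarith
      apply div_nonneg _ hxx.le
      have hm := mb.hm
      rw [← hm1] at hm
      have e : (1 + 2 * m1) / R + x * (-((R - 1) / R ^ 2) + (3 * R ^ 2 - 2 * R + 1) / R ^ 2 * m1) +
          x ^ 2 / 8 = (R * (1 + 2 * m1) - x * (R - 1) + x * (3 * R ^ 2 - 2 * R + 1) * m1) / R ^ 2 +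
          x ^ 2 / 8 := by
        field_simp
        ring
      rw [e]
      have h3 : 0 ≤ x * (3 * R ^ 2 - 2 * R + 1) * m1 := by
        apply mul_nonneg (mul_nonneg hx.1 _) hm
        have h31 : 0 ≤ 2 * R ^ 2 + (R - 1) ^ 2 := by positivity
        linarith
      have h4 : x * (R - 1) ≤ 1 * (R - 1) :=
        mul_le_mul_of_nonneg_right hx1.le (by linarith [c.hR2])
      have h5 : 0 ≤ R * (2 * m1) := by positivity
      have h6 : 0 ≤ R * (1 + 2 * m1) - x * (R - 1) + x * (3 * R ^ 2 - 2 * R + 1) * m1 := by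
        linarith
      positivity
    refine h1.trans ?_
    have h2 := real_le_div (th * (V + rem)) g.Ba c.hBa
    rw [← hX] at h2
    rw [le_div_iff₀ (by positivity)]
    refine le_trans (le_of_eq ?_) h2
    push_cast
    field_simp
  obtain ⟨W, hW⟩ : ∃ W, W = 1099511627776 - L := ⟨_, rfl⟩
  rw [← hW] at hf
  have hWr : (W : ℝ) / 2 ^ 40 ≤ N * (J * (‖av (uu w)‖ + t * ((1 + 2 * m1) / R))) := by
    refine le_trans ?_ hmass
    have e1 : (W : ℝ) = 1099511627776 - L := by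
      rw [hW, Nat.cast_sub hL]
      norm_num
    have e2 : (L : ℝ) = T + (U + rem) + X := by
      rw [hLdef]
      push_cast
      ring
    have e3 : (W : ℝ) / 2 ^ 40 = 1 - (T : ℝ) / 2 ^ 40 - ((U : ℝ) / 2 ^ 40 + (rem : ℝ) / 2 ^ 40) -
        (X : ℝ) / 2 ^ 40 := by
      rw [e1, e2]
      ring
    rw [e3]
    have e4 : (N : ℝ) * (I1 + t * I2) = N * I1 + t * (N * I2) := by ring
    rw [e4]
    linarith
  -- the denominator
  obtain ⟨D, hD⟩ : ∃ D, D = rho + (th * Sm * 1024 / (g.R0 * g.Ba) + 1) := ⟨_, rfl⟩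
  rw [← hD] at hf
  have hR0p : (0 : ℝ) < g.R0 := by
    have := c.hg0
    exact_mod_cast (by omega : 0 < g.R0)
  have hDr : ‖av (uu w)‖ + t * ((1 + 2 * m1) / R) ≤ (D : ℝ) / 2 ^ 20 := by
    have h1 := mb.hr
    have h2 := mb.hS
    rw [← hm1] at h2
    have hm := mb.hm
    rw [← hm1] at hm
    have h3 : t * ((1 + 2 * m1) / R) ≤ (th : ℝ) / g.Ba * ((Sm : ℝ) / 2 ^ 20 /
        ((g.R0 : ℝ) / 2 ^ 10)) := by
      apply mul_le_mul htB _ (by positivity) (by positivity)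
      exact div_le_div₀ (by positivity) h2 (by positivity) c.hR0
    have h4 := real_le_div (th * Sm * 1024) (g.R0 * g.Ba) (by
      have := c.hg0
      have := c.hBa
      positivity)
    have h5 : (th : ℝ) / g.Ba * ((Sm : ℝ) / 2 ^ 20 / ((g.R0 : ℝ) / 2 ^ 10)) ≤
        ((th * Sm * 1024 / (g.R0 * g.Ba) + 1 : ℕ) : ℝ) / 2 ^ 20 := by
      rw [le_div_iff₀ (by positivity)]
      refine le_trans (le_of_eq ?_) h4
      push_cast
      field_simp
      norm_num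
    have e1 : (D : ℝ) = rho + ((th * Sm * 1024 / (g.R0 * g.Ba) + 1 : ℕ) : ℝ) := by
      rw [hD]
      exact Nat.cast_add _ _
    rw [e1, add_div (rho : ℝ)]
    linarith
  have hDpos : (0 : ℝ) < (D : ℝ) / 2 ^ 20 := by
    have h1 : 1 ≤ D := by
      rw [hD]
      exact le_trans mb.hr1 (Nat.le_add_right _ _)
    have : (0 : ℝ) < D := by exact_mod_cast h1
    positivity
  -- `N J ≥ tail + 1/16384`
  have hNJ : (tail : ℝ) / 2 ^ 40 + 1 / 16384 ≤ N * J := by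
    have h1 : (D : ℝ) / 2 ^ 20 * ((tail : ℝ) / 2 ^ 40 + 1 / 16384) ≤ (W : ℝ) / 2 ^ 40 := by
      have h2 : (D : ℝ) * (tail + 67108864) ≤ W * 1048576 := by exact_mod_cast hf
      have h3 : (tail : ℝ) / 2 ^ 40 + 1 / 16384 ≤ (tail + 67108864) / 2 ^ 40 := by
        rw [add_div]
        norm_num
      have hD0 : (0 : ℝ) ≤ D := Nat.cast_nonneg D
      calc (D : ℝ) / 2 ^ 20 * ((tail : ℝ) / 2 ^ 40 + 1 / 16384) ≤
          (D : ℝ) / 2 ^ 20 * ((tail + 67108864) / 2 ^ 40) :=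
            mul_le_mul_of_nonneg_left h3 (by positivity)
        _ = (D : ℝ) * (tail + 67108864) / 2 ^ 60 := by ring
        _ ≤ (W : ℝ) * 1048576 / 2 ^ 60 := div_le_div_of_nonneg_right h2 (by positivity)
        _ = (W : ℝ) / 2 ^ 40 := by ring
    have h2 : N * (J * (‖av (uu w)‖ + t * ((1 + 2 * m1) / R))) ≤ N * (J * ((D : ℝ) / 2 ^ 20)) := by
      apply mul_le_mul_of_nonneg_left _ hNpos.le
      exact mul_le_mul_of_nonneg_left hDr hJ0
    have h3 : (D : ℝ) / 2 ^ 20 * ((tail : ℝ) / 2 ^ 40 + 1 / 16384) ≤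
        (D : ℝ) / 2 ^ 20 * (N * J) := by
      have e : N * (J * ((D : ℝ) / 2 ^ 20)) = (D : ℝ) / 2 ^ 20 * (N * J) := by ring
      rw [← e]
      linarith
    exact le_of_mul_le_mul_left h3 hDpos
  -- the tail
  have htail1 : ((N : ℝ) + 1) * ‖∫ x in y..1, qq (uu w) x‖ ≤
      (g.R1 : ℝ) * T * 101 / (80 * g.y) / 2 ^ 40 := by
    have h1 : ‖∫ x in y..1, qq (uu w) x‖ ≤
        ∫ x in y..1, Real.exp (-(2 / 5 * β ^ 2 * x ^ 2)) := by
      refine (intervalIntegral.norm_integral_le_integral_norm hy1.le).trans ?_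
      apply intervalIntegral.integral_mono_on hy1.le
      · exact (qq_cont (uu w)).norm.intervalIntegrable _ _
      · apply Continuous.intervalIntegrable
        fun_prop
      · intro x hx
        exact hqC x ⟨hy0.le.trans hx.1, hx.2⟩
    have h2 := gauss_tail (b := 1) hcc hy0 hy1.le
    have h3 : ((N : ℝ) + 1) * ‖∫ x in y..1, qq (uu w) x‖ ≤
        (101 / 100 * N) * ((T : ℝ) / 2 ^ 40 / (2 * (2 / 5 * β ^ 2) * y)) := by
      apply mul_le_mul (by linarith) _ (norm_nonneg _) (by positivity)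
      refine (h1.trans h2).trans ?_
      apply div_le_div_of_nonneg_right _ (by positivity)
      rw [hy]
      exact tt.hT
    have h4 : (101 / 100 * (N : ℝ)) * ((T : ℝ) / 2 ^ 40 / (2 * (2 / 5 * β ^ 2) * y)) =
        101 / 100 * R * (T / 2 ^ 40) * (5 / 4) / y := by
      rw [← c.hβN]
      field_simp
      norm_num
    rw [h4] at h3
    refine h3.trans ?_
    have h5 : 101 / 100 * R * ((T : ℝ) / 2 ^ 40) * (5 / 4) / y ≤
        101 / 100 * ((g.R1 : ℝ) / 2 ^ 10) * (T / 2 ^ 40) * (5 / 4) / y := by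
      apply div_le_div_of_nonneg_right _ hy0.le
      apply mul_le_mul_of_nonneg_right _ (by norm_num)
      apply mul_le_mul_of_nonneg_right _ (by positivity)
      exact mul_le_mul_of_nonneg_left c.hR1 (by norm_num)
    refine h5.trans (le_of_eq ?_)
    rw [hy]
    field_simp
    ring
  have htail2 : ((N : ℝ) + 1) * ‖∫ x in (1 : ℝ)..(R - 19 / 50), qq (uu w) x‖ ≤
      101 / 50 * R * Real.exp (-(β ^ 2 / 4)) := by
    have h1 : ‖∫ x in (1 : ℝ)..(R - 19 / 50), qq (uu w) x‖ ≤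
        ∫ x in (1 : ℝ)..(R - 19 / 50), Real.exp (-(β ^ 2 / 4 * x ^ 2)) := by
      refine (intervalIntegral.norm_integral_le_integral_norm hRY).trans ?_
      apply intervalIntegral.integral_mono_on hRY
      · exact (qq_cont (uu w)).norm.intervalIntegrable _ _
      · apply Continuous.intervalIntegrable
        fun_prop
      · intro x hx
        refine (c.hC2 x hx).trans (le_of_eq ?_)
        congr 1
        rw [← c.hβN]
        field_simp
    have h2 := gauss_tail (b := R - 19 / 50) (by positivity : (0 : ℝ) < β ^ 2 / 4) one_pos hRY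
    have h3 : ((N : ℝ) + 1) * ‖∫ x in (1 : ℝ)..(R - 19 / 50), qq (uu w) x‖ ≤
        (101 / 100 * N) * (Real.exp (-(β ^ 2 / 4 * 1 ^ 2)) / (2 * (β ^ 2 / 4) * 1)) := by
      apply mul_le_mul (by linarith) (h1.trans h2) (norm_nonneg _) (by positivity)
    refine h3.trans (le_of_eq ?_)
    rw [← c.hβN, one_pow, mul_one]
    field_simp
    norm_num
  have htail : ((N : ℝ) + 1) * ‖∫ x in y..(R - 19 / 50), qq (uu w) x‖ ≤ (tail : ℝ) / 2 ^ 40 := by
    have h1 : (∫ x in y..(R - 19 / 50), qq (uu w) x) = (∫ x in y..1, qq (uu w) x) +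
        ∫ x in (1 : ℝ)..(R - 19 / 50), qq (uu w) x :=
      (intervalIntegral.integral_add_adjacent_intervals
        ((qq_cont (uu w)).intervalIntegrable _ _) ((qq_cont (uu w)).intervalIntegrable _ _)).symm
    have h2 : ‖∫ x in y..(R - 19 / 50), qq (uu w) x‖ ≤ ‖∫ x in y..1, qq (uu w) x‖ +
        ‖∫ x in (1 : ℝ)..(R - 19 / 50), qq (uu w) x‖ := by
      rw [h1]
      exact norm_add_le _ _
    have h3 := mul_le_mul_of_nonneg_left h2 (by linarith : (0 : ℝ) ≤ (N : ℝ) + 1)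
    rw [mul_add] at h3
    have h4 := tt.hA
    linarith
  -- together
  have hadd : (∫ x in (0 : ℝ)..y, qq (uu w) x) = (∫ x in (0 : ℝ)..(R - 19 / 50), qq (uu w) x) -
      ∫ x in y..(R - 19 / 50), qq (uu w) x := by
    rw [eq_sub_iff_add_eq]
    exact intervalIntegral.integral_add_adjacent_intervals
      ((qq_cont (uu w)).intervalIntegrable _ _) ((qq_cont (uu w)).intervalIntegrable _ _)
  have hJle : J ≤ ‖∫ x in (0 : ℝ)..(R - 19 / 50), qq (uu w) x‖ +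
      ‖∫ x in y..(R - 19 / 50), qq (uu w) x‖ := by
    rw [hJ, hadd]
    exact norm_sub_le _ _
  have h1 := mul_le_mul_of_nonneg_left hJle (by linarith : (0 : ℝ) ≤ (N : ℝ) + 1)
  rw [mul_add] at h1
  have h2 : N * J ≤ ((N : ℝ) + 1) * J := mul_le_mul_of_nonneg_right (by linarith) hJ0
  linarith

end

end Pool.Agent.Lib.MP_af3a4a_an.P1.CHK.H58.M
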