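import Pool.Agent.Lib.MP_af3a4a_an.P1.CHK.H58.Sound

/-!
# DUAL (helper58): `chk M D l r0 r1 a gp gn hp hn c = true` implies the pointwise dual inequality
with `l / D`, `α = a / S`, `γ = (gp - gn) / S`, `h = (hp - hn) / S` for `r0 / M ≤ R ≤ r1 / M`
-/

set_option autoImplicit false

namespace Pool.Agent.Lib.MP_af3a4a_an.P1.CHK.H58

open Real

theorem S_cast : (S : ℝ) = 1048576 := by
  unfold S
  norm_num

section

variable {M D l r0 r1 a gp gn hp hn : ℕ}

theorem tail_sound {b : ℕ} (h : tail M D l r1 a gp gn hp hn b = true) (hM : 0 < M) (hD : 0 < D)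
    {R : ℝ} {w : ℂ} (hR0 : 0 ≤ R) (hR : R * M ≤ r1) (hw : 1 ≤ ‖w‖)
    (hB : (b : ℝ) ≤ ‖w - (R : ℂ)‖ * M) :
    ‖1 - (((l : ℝ) / D * R : ℝ) : ℂ) * w⁻¹‖ ≤ Real.exp ((a : ℝ) / S * (‖w - (R : ℂ)‖ - 1) -
      ((gp : ℝ) - gn) / S * (R * (w⁻¹).re) - ((hp : ℝ) - hn) / S) := by
  unfold tail at h
  rw [Bool.and_eq_true] at h
  obtain ⟨h1, h2⟩ := h
  have h1 : r1 < b := Nat.blt_eq.mp h1
  have h2 := Nat.le_of_ble_eq_true h2
  have hMR : (0 : ℝ) < M := by exact_mod_cast hM
  have hDR : (0 : ℝ) < D := by exact_mod_cast hD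
  have hS : (0 : ℝ) < S := by rw [S_cast]; norm_num
  have h1R : (r1 : ℝ) < b := by exact_mod_cast h1
  have hsub : ((b - r1 : ℕ) : ℝ) = (b : ℝ) - r1 := Nat.cast_sub h1.le
  have h3 : (((l * S + (gp + gn) * D) * r1 * M + (a * M + hp * M) * (b - r1) * D : ℕ) : ℝ) ≤
      (((a * b + hn * M) * (b - r1) * D : ℕ) : ℝ) := by exact_mod_cast h2
  push_cast [hsub] at h3
  have hl0 : (0 : ℝ) ≤ l := Nat.cast_nonneg _
  have hr10 : (0 : ℝ) ≤ r1 := Nat.cast_nonneg _
  have hgp0 : (0 : ℝ) ≤ gp := Nat.cast_nonneg _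
  have hgn0 : (0 : ℝ) ≤ gn := Nat.cast_nonneg _
  have hRr : R ≤ r1 / M := by
    rw [le_div_iff₀ hMR]
    exact hR
  refine point_of_far (Bm := (b : ℝ) / M) hw (by positivity) (by positivity) hR0 ?_ ?_ ?_
  · rw [div_le_iff₀ hMR]
    exact hB
  · rw [lt_div_iff₀ hMR]
    linarith
  · have hE : 0 ≤ (a : ℝ) * b + hn * M - a * M - hp * M := by
      have h4 : 0 ≤ ((a : ℝ) * b + hn * M - a * M - hp * M) * (((b : ℝ) - r1) * D) := by
        have : 0 ≤ ((l : ℝ) * S + (gp + gn) * D) * r1 * M := by positivity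
        nlinarith
      exact nonneg_of_mul_nonneg_left h4 (mul_pos (by linarith) hDR)
    have e1 : (a : ℝ) / S * ((b : ℝ) / M - 1) - ((hp : ℝ) - hn) / S =
        ((a : ℝ) * b + hn * M - a * M - hp * M) / (S * M) := by
      field_simp
      ring
    rw [e1]
    have hg : |((gp : ℝ) - gn) / S| ≤ (gp + gn) / S := by
      rw [abs_div, abs_of_pos hS]
      apply div_le_div_of_nonneg_right _ hS.le
      rw [abs_le]
      constructor <;> linarith
    calc ((l : ℝ) / D + |((gp : ℝ) - gn) / S|) * R ≤ ((l : ℝ) / D + (gp + gn) / S) * (r1 / M) := by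
          apply mul_le_mul (by linarith) hRr hR0 (by positivity)
      _ = ((l * S + (gp + gn) * D) * r1 * M) / (S * M * M * D) := by
          field_simp
      _ ≤ (((a : ℝ) * b + hn * M - a * M - hp * M) * (((b : ℝ) - r1) * D)) / (S * M * M * D) := by
          apply div_le_div_of_nonneg_right _ (by positivity)
          linarith
      _ = ((a : ℝ) * b + hn * M - a * M - hp * M) / (S * M) * ((b : ℝ) / M - r1 / M) := by
          field_simp
      _ ≤ ((a : ℝ) * b + hn * M - a * M - hp * M) / (S * M) * ((b : ℝ) / M - R) := by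
          apply mul_le_mul_of_nonneg_left (by linarith)
          exact div_nonneg hE (by positivity)

theorem rng_iff (h : rng M D l r0 r1 a gp gn hp hn = true) :
    1 ≤ M ∧ 1 ≤ D ∧ D ≤ 1024 ∧ l ≤ D ∧ r0 ≤ r1 ∧ a ≤ 67108864 ∧ gp ≤ 67108864 ∧ gn ≤ 67108864 ∧
      hp ≤ 67108864 ∧ hn ≤ 67108864 := by
  unfold rng at h
  rw [Bool.and_eq_true, Bool.and_eq_true, Bool.and_eq_true, Bool.and_eq_true, Bool.and_eq_true,
    Bool.and_eq_true, Bool.and_eq_true, Bool.and_eq_true, Bool.and_eq_true] at h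
  obtain ⟨h1, h2, h3, h4, h5, h6, h7, h8, h9, h10⟩ := h
  exact ⟨Nat.le_of_ble_eq_true h1, Nat.le_of_ble_eq_true h2, Nat.le_of_ble_eq_true h3,
    Nat.le_of_ble_eq_true h4, Nat.le_of_ble_eq_true h5, Nat.le_of_ble_eq_true h6,
    Nat.le_of_ble_eq_true h7, Nat.le_of_ble_eq_true h8, Nat.le_of_ble_eq_true h9,
    Nat.le_of_ble_eq_true h10⟩

theorem kK_lt (i : ℕ) : kK i < 4294967296 := Nat.mod_lt _ (by norm_num)
theorem kL_lt (i : ℕ) : kL i < 4294967296 := Nat.mod_lt _ (by norm_num)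

/-- casts of the three coefficients -/
theorem coef (hr : rng M D l r0 r1 a gp gn hp hn = true) (i : ℕ) :
    (((ZZ + D * D * (17 * S + 2 * hn + gn)
      - (D * D * (kL i + 2 * a + 2 * hp + gp) + kK i * ((D - l) * D)) : ℕ)) : ℝ) =
      (ZZ : ℝ) + ((D : ℝ) * D * (17 * S + 2 * hn + gn - (kL i + 2 * a + 2 * hp + gp))
        - kK i * (((D : ℝ) - l) * D)) ∧
    (((ZZ + gp * (D * D) - (gn * (D * D) + l * D * kK i)) : ℕ) : ℝ) =
      (ZZ : ℝ) + ((gp : ℝ) * (D * D) - gn * (D * D) - l * D * kK i) ∧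
    (((ZZ + l * (D - l) * kK i + gn * (D * D) - gp * (D * D)) : ℕ) : ℝ) =
      (ZZ : ℝ) + ((l : ℝ) * ((D : ℝ) - l) * kK i + gn * (D * D) - gp * (D * D)) := by
  obtain ⟨hM, hD1, hD, hl, h5, ha, hgp, hgn, hhp, hhn⟩ := rng_iff hr
  have hK := kK_lt i
  have hLl := kL_lt i
  have hDD : D * D ≤ 1048576 := by
    calc D * D ≤ 1024 * 1024 := Nat.mul_le_mul hD hD
      _ = 1048576 := by norm_num
  have hsub : ((D - l : ℕ) : ℝ) = (D : ℝ) - l := Nat.cast_sub hl
  have hZ : ZZ = 1152921504606846976 := rfl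
  refine ⟨?_, ?_, ?_⟩
  · have hle : D * D * (kL i + 2 * a + 2 * hp + gp) + kK i * ((D - l) * D) ≤
        ZZ + D * D * (17 * S + 2 * hn + gn) := by
      have a1 : D * D * (kL i + 2 * a + 2 * hp + gp) ≤ 1048576 * 4831838208 :=
        Nat.mul_le_mul hDD (by omega)
      have a2 : kK i * ((D - l) * D) ≤ 4294967296 * 1048576 := by
        apply Nat.mul_le_mul hK.le
        exact (Nat.mul_le_mul_right D (Nat.sub_le D l)).trans hDD
      calc D * D * (kL i + 2 * a + 2 * hp + gp) + kK i * ((D - l) * D)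
          ≤ 1048576 * 4831838208 + 4294967296 * 1048576 := add_le_add a1 a2
        _ ≤ ZZ := by rw [hZ]; norm_num
        _ ≤ _ := Nat.le_add_right _ _
    rw [Nat.cast_sub hle]
    push_cast [hsub]
    ring
  · have hle : gn * (D * D) + l * D * kK i ≤ ZZ + gp * (D * D) := by
      have a1 : gn * (D * D) ≤ 67108864 * 1048576 := Nat.mul_le_mul hgn hDD
      have a2 : l * D * kK i ≤ 1048576 * 4294967296 := by
        apply Nat.mul_le_mul _ hK.le
        exact (Nat.mul_le_mul_right D hl).trans hDD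
      calc gn * (D * D) + l * D * kK i ≤ 67108864 * 1048576 + 1048576 * 4294967296 :=
            add_le_add a1 a2
        _ ≤ ZZ := by rw [hZ]; norm_num
        _ ≤ _ := Nat.le_add_right _ _
    rw [Nat.cast_sub hle]
    push_cast
    ring
  · have hle : gp * (D * D) ≤ ZZ + l * (D - l) * kK i + gn * (D * D) := by
      have a1 : gp * (D * D) ≤ 67108864 * 1048576 := Nat.mul_le_mul hgp hDD
      calc gp * (D * D) ≤ 67108864 * 1048576 := a1
        _ ≤ ZZ := by rw [hZ]; norm_num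
        _ ≤ _ := by
          rw [add_assoc]
          exact Nat.le_add_right _ _
    rw [Nat.cast_sub hle]
    push_cast [hsub]
    ring

theorem go_sound (hr : rng M D l r0 r1 a gp gn hp hn = true) :
    ∀ (f c p q : ℕ), go M D l r0 r1 a gp gn hp hn f c p q = true →
      (p ≤ q ∨ r0 + p = r1 + q) → ∀ (τ R : ℝ) (w : ℂ), 0 ≤ τ → τ ≤ 1 →
      R * M = r0 + τ * (r1 - r0) → 1 ≤ ‖w‖ → p + τ * (q - p) ≤ ‖w - (R : ℂ)‖ * M →
      ‖1 - (((l : ℝ) / D * R : ℝ) : ℂ) * w⁻¹‖ ≤ Real.exp ((a : ℝ) / S * (‖w - (R : ℂ)‖ - 1) -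
        ((gp : ℝ) - gn) / S * (R * (w⁻¹).re) - ((hp : ℝ) - hn) / S) := by
  obtain ⟨hM1, hD1, hD, hl, hr01, ha, hgp, hgn, hhp, hhn⟩ := rng_iff hr
  have hMR : (0 : ℝ) < M := by exact_mod_cast hM1
  have hDR : (0 : ℝ) < D := by exact_mod_cast hD1
  have hS : (0 : ℝ) < S := by rw [S_cast]; norm_num
  have hr01R : (r0 : ℝ) ≤ r1 := by exact_mod_cast hr01
  intro f
  induction f with
  | zero =>
    intro c p q h
    exact absurd h (by unfold go; simp)
  | succ f ih =>
    intro c p q h hL τ R w h0 h1 hR hw hB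
    have hRle : R * M ≤ r1 := by
      rw [hR]
      nlinarith
    have hR0 : 0 ≤ R := by
      have : 0 ≤ R * M := by
        rw [hR]
        have : (0 : ℝ) ≤ r0 := Nat.cast_nonneg _
        have := mul_nonneg h0 (sub_nonneg.2 hr01R)
        linarith
      exact nonneg_of_mul_nonneg_left this hMR
    unfold go at h
    rcases beq_cases c 0 with ⟨hb, he⟩ | ⟨hb, he⟩
    · rw [hb] at h
      simp only [cond_true] at h
      rw [Bool.and_eq_true] at h
      obtain ⟨ta, tb⟩ := h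
      rcases le_total (p : ℝ) q with hpq | hpq
      · refine tail_sound ta hM1 hD1 hR0 hRle hw ?_
        have := mul_nonneg h0 (sub_nonneg.2 hpq)
        linarith
      · refine tail_sound tb hM1 hD1 hR0 hRle hw ?_
        have := mul_nonneg (sub_nonneg.2 h1) (sub_nonneg.2 hpq)
        nlinarith
    · rw [hb] at h
      simp only [cond_false] at h
      rw [Bool.and_eq_true, Bool.and_eq_true] at h
      obtain ⟨hi, hc, hg⟩ := h
      have hi : c % 256 < 209 := Nat.blt_eq.mp hi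
      obtain ⟨hK0, hKL⟩ := tab_sound hi
      set i := c % 256 with hidef
      set p' := p + c / 256 % 4096 with hp'
      set q' := q + c / 1048576 % 4096 with hq'
      have hpp : p ≤ p' := Nat.le_add_right _ _
      have hqq : q ≤ q' := Nat.le_add_right _ _
      have hL' : p' ≤ q' ∨ r0 + p' = r1 + q' := by
        have hc' := hc
        unfold cell at hc'
        rw [Bool.and_eq_true] at hc'
        exact okL_iff hc'.1
      rcases le_total (‖w - (R : ℂ)‖ * M) ((p' : ℝ) + τ * (q' - p')) with hle | hge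
      · have hwn : ‖(R : ℂ)‖ = R := by rw [Complex.norm_real, Real.norm_of_nonneg hR0]
        have hB0 : 0 ≤ ‖w - (R : ℂ)‖ := norm_nonneg _
        have n1 : ‖w‖ ≤ R + ‖w - (R : ℂ)‖ := by
          calc ‖w‖ = ‖(R : ℂ) + (w - (R : ℂ))‖ := by ring_nf
            _ ≤ ‖(R : ℂ)‖ + ‖w - (R : ℂ)‖ := norm_add_le _ _
            _ = R + ‖w - (R : ℂ)‖ := by rw [hwn]
        have n2 : R ≤ ‖w‖ + ‖w - (R : ℂ)‖ := by
          calc R = ‖(R : ℂ)‖ := hwn.symm
            _ = ‖w - (w - (R : ℂ))‖ := by rw [sub_sub_cancel]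
            _ ≤ ‖w‖ + ‖w - (R : ℂ)‖ := norm_sub_le _ _
        have n3 : ‖w - (R : ℂ)‖ ≤ ‖w‖ + R := by
          calc ‖w - (R : ℂ)‖ ≤ ‖w‖ + ‖(R : ℂ)‖ := norm_sub_le _ _
            _ = ‖w‖ + R := by rw [hwn]
        have key := cell_sound hc hr01 hpp hqq hL (τ := τ) (b := ‖w - (R : ℂ)‖ * M)
          (s := ‖w‖ ^ 2 * (M : ℝ) ^ 2) h0 h1 hB hle ?_ ?_ ?_
        · refine point_of_Q (κ := (kK i : ℝ) / S) (L := (kL i : ℝ) / S - 16) hw ?_ hKL ?_
          · exact div_pos (by exact_mod_cast hK0) hS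
          · obtain ⟨c1, c2, c3⟩ := coef hr i
            rw [← hR] at key
            have d1 : ((((ZZ + D * D * (17 * S + 2 * hn + gn)
                - (D * D * (kL i + 2 * a + 2 * hp + gp) + kK i * ((D - l) * D))) * M : ℕ)) : ℝ) =
                ((ZZ : ℝ) + ((D : ℝ) * D * (17 * S + 2 * hn + gn - (kL i + 2 * a + 2 * hp + gp))
                  - kK i * (((D : ℝ) - l) * D))) * M := by
              rw [Nat.cast_mul, c1]
            have d2 : ((((ZZ + gp * (D * D) - (gn * (D * D) + l * D * kK i)) * M : ℕ)) : ℝ) =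
                ((ZZ : ℝ) + ((gp : ℝ) * (D * D) - gn * (D * D) - l * D * kK i)) * M := by
              rw [Nat.cast_mul, c2]
            have d3 : ((((ZZ + l * (D - l) * kK i + gn * (D * D) - gp * (D * D)) * M : ℕ)) : ℝ) =
                ((ZZ : ℝ) + ((l : ℝ) * ((D : ℝ) - l) * kK i + gn * (D * D) - gp * (D * D))) * M := by
              rw [Nat.cast_mul, c3]
            have d4 : ((ZZ * M : ℕ) : ℝ) = (ZZ : ℝ) * M := Nat.cast_mul _ _
            have d5 : ((2 * a * (D * D) : ℕ) : ℝ) = 2 * (a : ℝ) * ((D : ℝ) * D) := by push_cast; ring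
            rw [d1, d2, d3, d4, d5] at key
            generalize (ZZ : ℝ) = z0 at key
            have e : (0 : ℝ) ≤ QQ ((l : ℝ) / D) ((a : ℝ) / S) (((gp : ℝ) - gn) / S)
                (((hp : ℝ) - hn) / S) ((kK i : ℝ) / S) ((kL i : ℝ) / S - 16) (‖w‖ ^ 2)
                ‖w - (R : ℂ)‖ R * ((S : ℝ) * (D * D) * (M * M * M)) := by
              refine key.trans (le_of_eq ?_)
              unfold QQ
              field_simp
              ring
            exact nonneg_of_mul_nonneg_left e (by positivity)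
        · have : 1 ≤ ‖w‖ ^ 2 := by nlinarith
          calc (M : ℝ) ^ 2 = 1 * (M : ℝ) ^ 2 := (one_mul _).symm
            _ ≤ ‖w‖ ^ 2 * (M : ℝ) ^ 2 := mul_le_mul_of_nonneg_right this (sq_nonneg _)
        · rw [← hR]
          have : (R * M - ‖w - (R : ℂ)‖ * M) ^ 2 = (R - ‖w - (R : ℂ)‖) ^ 2 * (M : ℝ) ^ 2 := by ring
          rw [this]
          apply mul_le_mul_of_nonneg_right _ (sq_nonneg _)
          apply sq_le_sq'
          · linarith
          · linarith
        · rw [← hR]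
          have : (R * M + ‖w - (R : ℂ)‖ * M) ^ 2 = (R + ‖w - (R : ℂ)‖) ^ 2 * (M : ℝ) ^ 2 := by ring
          rw [this]
          apply mul_le_mul_of_nonneg_right _ (sq_nonneg _)
          exact pow_le_pow_left₀ (by linarith) n1 2
      · exact ih _ _ _ hg hL' τ R w h0 h1 hR hw hge

/-- **Soundness.** -/
theorem chk_sound {c : ℕ} (h : chk M D l r0 r1 a gp gn hp hn c = true) :
    Valid ((l : ℝ) / D) ((a : ℝ) / S) (((gp : ℝ) - gn) / S) (((hp : ℝ) - hn) / S)
      ((r0 : ℝ) / M) ((r1 : ℝ) / M) := by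
  unfold chk at h
  rw [Bool.and_eq_true] at h
  obtain ⟨hr, hg⟩ := h
  obtain ⟨hM1, hD1, hD, hl, hr01, ha, hgp, hgn, hhp, hhn⟩ := rng_iff hr
  have hMR : (0 : ℝ) < M := by exact_mod_cast hM1
  have hr01R : (r0 : ℝ) ≤ r1 := by exact_mod_cast hr01
  intro R hR0 hR1 w hw
  rw [div_le_iff₀ hMR] at hR0
  rw [le_div_iff₀ hMR] at hR1
  obtain ⟨τ, h0, h1, hτ⟩ : ∃ τ : ℝ, 0 ≤ τ ∧ τ ≤ 1 ∧ R * M = r0 + τ * (r1 - r0) := by
    rcases eq_or_lt_of_le hr01R with he | hlt
    · refine ⟨0, le_rfl, zero_le_one, ?_⟩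
      linarith
    · refine ⟨(R * M - r0) / (r1 - r0), ?_, ?_, ?_⟩
      · exact div_nonneg (by linarith) (by linarith)
      · rw [div_le_one (by linarith)]
        linarith
      · rw [div_mul_cancel₀ _ (by linarith)]
        ring
  have hRnn : 0 ≤ R := by
    have : 0 ≤ R * M := le_trans (Nat.cast_nonneg _) hR0
    exact nonneg_of_mul_nonneg_left this hMR
  rcases ble_cases r1 M with ⟨hb, hle⟩ | ⟨hb, hlt⟩
  · rw [hb] at hg
    simp only [cond_true] at hg
    have hL : (M - r0 ≤ M - r1) ∨ r0 + (M - r0) = r1 + (M - r1) := Or.inr (by omega)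
    refine go_sound hr 64 c _ _ hg hL τ R w h0 h1 hτ hw ?_
    have hle0 : r0 ≤ M := hr01.trans hle
    rw [Nat.cast_sub hle0, Nat.cast_sub hle]
    have hwn : ‖(R : ℂ)‖ = R := by rw [Complex.norm_real, Real.norm_of_nonneg hRnn]
    have n1 : ‖w‖ ≤ R + ‖w - (R : ℂ)‖ := by
      calc ‖w‖ = ‖(R : ℂ) + (w - (R : ℂ))‖ := by ring_nf
        _ ≤ ‖(R : ℂ)‖ + ‖w - (R : ℂ)‖ := norm_add_le _ _
        _ = R + ‖w - (R : ℂ)‖ := by rw [hwn]
    have n2 : (1 - R) * M ≤ ‖w - (R : ℂ)‖ * M := mul_le_mul_of_nonneg_right (by linarith) hMR.le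
    linarith
  · rw [hb] at hg
    simp only [cond_false] at hg
    refine go_sound hr 64 c 0 0 hg (Or.inl le_rfl) τ R w h0 h1 hτ hw ?_
    have : 0 ≤ ‖w - (R : ℂ)‖ * M := mul_nonneg (norm_nonneg _) hMR.le
    push_cast
    linarith

end

end Pool.Agent.Lib.MP_af3a4a_an.P1.CHK.H58
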