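import Pool.Agent.Lib.MP_af3a4a_an.P1.H74.V2
import Pool.Agent.Lib.MP_af3a4a_an.P1.CHK.H80.F5

/-!
# The r-free form of S0 (helper58, piece (I) of council 2; the trick is helper81's)

`(1 - r²) / dn ≤ √(1 - r²) / (1 - x²)`, so with `A = 1 - |1 - y m| |q(y)|`,
`Φ = N ∫ x |q| / (1 - x²)`: `√(A² - Φ²) ≤ (N + 1) |∫_0^y q|` for every `m ≠ 0`.
-/

set_option autoImplicit false

namespace Pool.Agent.Lib.MP_af3a4a_an.P1.CHK.H58

open Finset MeasureTheory
open Pool.Agent.Lib.MP_af3a4a_an.SV (uu av)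
open Pool.Agent.Lib.MP_af3a4a_an.P1.H80

theorem sqrt_dn {m : ℂ} (hm : ‖m‖ ≤ 1) {x : ℝ} (h0 : 0 ≤ x) (h1 : x < 1) :
    Real.sqrt (1 - ‖m‖ ^ 2) * (1 - x ^ 2) ≤ dn m x := by
  have hδ : 0 ≤ 1 - ‖m‖ ^ 2 := by
    have := norm_nonneg m
    nlinarith
  obtain ⟨s, hs⟩ : ∃ s, s = Real.sqrt (1 - ‖m‖ ^ 2) := ⟨_, rfl⟩
  have hs0 : 0 ≤ s := by rw [hs]; exact Real.sqrt_nonneg _
  have hs2 : s ^ 2 = 1 - ‖m‖ ^ 2 := by rw [hs]; exact Real.sq_sqrt hδ
  rw [← hs]
  have hP := nrm_pos hm h0 h1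
  have hQ := norm_nonneg ((x : ℂ) - m)
  have hg := dn_aux hm h0 h1
  have hmul := dn_mul m x
  have hr : ‖m‖ ^ 2 = m.re ^ 2 + m.im ^ 2 := norm_sq_re_im m
  have hP2 : ‖1 - (x : ℂ) * m‖ ^ 2 = (1 - 2 * x * m.re + x ^ 2) - x ^ 2 * s ^ 2 := by
    rw [hs2, hr, norm_sq_re_im]
    simp only [Complex.sub_re, Complex.sub_im, Complex.mul_re, Complex.mul_im, Complex.one_re,
      Complex.one_im, Complex.ofReal_re, Complex.ofReal_im]
    ring
  have hQ2 : ‖(x : ℂ) - m‖ ^ 2 = (1 - 2 * x * m.re + x ^ 2) - s ^ 2 := by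
    rw [hs2, hr, norm_sq_re_im]
    simp only [Complex.sub_re, Complex.sub_im, Complex.ofReal_re, Complex.ofReal_im]
    ring
  generalize ‖1 - (x : ℂ) * m‖ = P at *
  generalize ‖(x : ℂ) - m‖ = Q at *
  generalize 1 - 2 * x * m.re + x ^ 2 = g at *
  have key : s * (P + x * Q) ≤ g := by
    have h2 : (s * (P + x * Q)) ^ 2 ≤ g ^ 2 := by
      have e : g ^ 2 = (s ^ 2 + Q ^ 2) * (P ^ 2 + x ^ 2 * s ^ 2) := by
        rw [hP2, hQ2]; ring
      rw [e]
      nlinarith [sq_nonneg (s * (x * s) - Q * P)]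
    exact abs_le_of_sq_le_sq' h2 hg.le |>.2
  have hPQ : 0 < P + x * Q := by positivity
  have h3 : s * (1 - x ^ 2) * (P + x * Q) ≤ dn m x * (P + x * Q) := by
    rw [hmul]
    have hx : 0 ≤ 1 - x ^ 2 := by nlinarith
    calc s * (1 - x ^ 2) * (P + x * Q) = (1 - x ^ 2) * (s * (P + x * Q)) := by ring
      _ ≤ (1 - x ^ 2) * g := mul_le_mul_of_nonneg_left key hx
  exact le_of_mul_le_mul_right h3 hPQ

/-- **r-free S0** -/
theorem sfree {N : ℕ} (hN : 1 ≤ N) {u : Fin N → ℂ} (hu : ∀ k, ‖u k‖ ≤ 1) {y A Φ F : ℝ}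
    (h0 : 0 ≤ y) (h1 : y < 1) (hm : av u ≠ 0)
    (hA : ‖1 - (y : ℂ) * av u‖ * ‖qq u y‖ ≤ 1 - A)
    (hΦ : N * ∫ x in (0 : ℝ)..y, x / (1 - x ^ 2) * ‖qq u x‖ ≤ Φ)
    (hF : F ^ 2 + Φ ^ 2 ≤ A ^ 2) (hA0 : 0 ≤ A) :
    F ≤ ((N : ℝ) + 1) * ‖∫ x in (0 : ℝ)..y, qq u x‖ := by
  have hm1 := av_norm_le hN hu
  have hS := formula_S0 hN hu h0 h1
  obtain ⟨r, hr⟩ : ∃ r, r = ‖av u‖ := ⟨_, rfl⟩
  have hr0 : 0 < r := by rw [hr]; exact norm_pos_iff.2 hm
  obtain ⟨s, hs⟩ : ∃ s, s = Real.sqrt (1 - ‖av u‖ ^ 2) := ⟨_, rfl⟩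
  have hδ : 0 ≤ 1 - ‖av u‖ ^ 2 := by
    have := norm_nonneg (av u)
    nlinarith
  have hs0 : 0 ≤ s := by rw [hs]; exact Real.sqrt_nonneg _
  have hs2 : s ^ 2 = 1 - r ^ 2 := by rw [hs, hr]; exact Real.sq_sqrt hδ
  have hqc := qq_cont u
  have hI : (1 - ‖av u‖ ^ 2) * ∫ x in (0 : ℝ)..y, x / dn (av u) x * ‖qq u x‖ ≤
      s * ∫ x in (0 : ℝ)..y, x / (1 - x ^ 2) * ‖qq u x‖ := by
    rw [← intervalIntegral.integral_const_mul, ← intervalIntegral.integral_const_mul]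
    apply intervalIntegral.integral_mono_on h0
    · apply ContinuousOn.intervalIntegrable
      rw [Set.uIcc_of_le h0]
      apply ContinuousOn.mul continuousOn_const
      apply ContinuousOn.mul _ hqc.norm.continuousOn
      apply ContinuousOn.div continuousOn_id
      · unfold dn
        fun_prop
      · intro x hx
        exact (dn_pos hm1 hx.1 (lt_of_le_of_lt hx.2 h1)).ne'
    · apply ContinuousOn.intervalIntegrable
      rw [Set.uIcc_of_le h0]
      apply ContinuousOn.mul continuousOn_const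
      apply ContinuousOn.mul _ hqc.norm.continuousOn
      apply ContinuousOn.div continuousOn_id (by fun_prop)
      intro x hx
      have : x < 1 := lt_of_le_of_lt hx.2 h1
      have := hx.1
      nlinarith
    · intro x hx
      have hx1 : x < 1 := lt_of_le_of_lt hx.2 h1
      have hd := dn_pos hm1 hx.1 hx1
      have hk := sqrt_dn hm1 hx.1 hx1
      rw [← hs] at hk
      have hx2 : 0 < 1 - x ^ 2 := by
        have := hx.1
        nlinarith
      have hxx := hx.1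
      have h4 : (1 - ‖av u‖ ^ 2) * (x / dn (av u) x) ≤ s * (x / (1 - x ^ 2)) := by
        rw [← hr, ← hs2, mul_div_assoc', mul_div_assoc', div_le_div_iff₀ hd hx2]
        calc s ^ 2 * x * (1 - x ^ 2) = s * x * (s * (1 - x ^ 2)) := by ring
          _ ≤ s * x * dn (av u) x := mul_le_mul_of_nonneg_left hk (by positivity)
      calc (1 - ‖av u‖ ^ 2) * (x / dn (av u) x * ‖qq u x‖)
          = (1 - ‖av u‖ ^ 2) * (x / dn (av u) x) * ‖qq u x‖ := by ring
        _ ≤ s * (x / (1 - x ^ 2)) * ‖qq u x‖ := mul_le_mul_of_nonneg_right h4 (norm_nonneg _)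
        _ = _ := by ring
  have hNn : (0 : ℝ) ≤ N := Nat.cast_nonneg N
  have h5 : A - s * Φ ≤ ((N : ℝ) + 1) * r * ‖∫ x in (0 : ℝ)..y, qq u x‖ := by
    rw [hr]
    refine le_trans ?_ hS
    have h6 := mul_le_mul_of_nonneg_left hI hNn
    have h7 := mul_le_mul_of_nonneg_left hΦ hs0
    have e1 : (N : ℝ) * (s * ∫ x in (0 : ℝ)..y, x / (1 - x ^ 2) * ‖qq u x‖) =
      s * (N * ∫ x in (0 : ℝ)..y, x / (1 - x ^ 2) * ‖qq u x‖) := by ring
    have e2 : (N : ℝ) * (1 - ‖av u‖ ^ 2) * ∫ x in (0 : ℝ)..y, x / dn (av u) x * ‖qq u x‖ =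
      N * ((1 - ‖av u‖ ^ 2) * ∫ x in (0 : ℝ)..y, x / dn (av u) x * ‖qq u x‖) := by ring
    rw [e1] at h6
    rw [e2]
    linarith
  have h8 : F * r + s * Φ ≤ A := by
    have h9 : (F * r + s * Φ) ^ 2 ≤ A ^ 2 := by
      refine le_trans ?_ hF
      have e : F ^ 2 + Φ ^ 2 = (F ^ 2 + Φ ^ 2) * (r ^ 2 + s ^ 2) := by rw [hs2]; ring
      rw [e]
      nlinarith [sq_nonneg (F * s - Φ * r)]
    exact (abs_le_of_sq_le_sq' h9 hA0).2
  have h10 : F * r ≤ ((N : ℝ) + 1) * ‖∫ x in (0 : ℝ)..y, qq u x‖ * r := by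
    have : ((N : ℝ) + 1) * r * ‖∫ x in (0 : ℝ)..y, qq u x‖ =
      ((N : ℝ) + 1) * ‖∫ x in (0 : ℝ)..y, qq u x‖ * r := by ring
    linarith
  exact le_of_mul_le_mul_right h10 hr0

/-- **The cell integral**: `|q(tR)| ≤ exp(-S (w0 + σ (t - t0)))`, `S = N R²`, and
`t / (1 - R² t²) ≤ φ σ` on the cell. -/
theorem cell_int {N : ℕ} {u : Fin N → ℂ} {R t0 t1 w0 w1 φ : ℝ} (hR : 0 < R) (ht0 : 0 ≤ t0)
    (ht : t0 < t1) (h1 : t1 * R < 1) (hw : w0 < w1) (hφ0 : 0 ≤ φ)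
    (hq : ∀ t ∈ Set.Icc t0 t1, ‖qq u (t * R)‖ ≤
      Real.exp (-(N * R ^ 2 * (w0 + (w1 - w0) * ((t - t0) / (t1 - t0))))))
    (hφ : t1 * (t1 - t0) ≤ φ * (w1 - w0) * (1 - (R * t1) ^ 2)) :
    N * ∫ x in (t0 * R)..(t1 * R), x / (1 - x ^ 2) * ‖qq u x‖ ≤
      φ * (Real.exp (-(N * R ^ 2 * w0)) - Real.exp (-(N * R ^ 2 * w1))) := by
  have hdt : 0 < t1 - t0 := sub_pos.2 ht
  have hdw : 0 < w1 - w0 := sub_pos.2 hw
  have hle : t0 * R ≤ t1 * R := mul_le_mul_of_nonneg_right ht.le hR.le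
  have hqc := qq_cont u
  -- the antiderivative
  set G : ℝ → ℝ := fun x => -(φ * Real.exp (-(N * R ^ 2 * (w0 + (w1 - w0) *
    ((x / R - t0) / (t1 - t0)))))) with hG
  set g : ℝ → ℝ := fun x => φ * ((N * R ^ 2 * ((w1 - w0) * (1 / R / (t1 - t0)))) *
    Real.exp (-(N * R ^ 2 * (w0 + (w1 - w0) * ((x / R - t0) / (t1 - t0)))))) with hg
  have hder : ∀ x : ℝ, HasDerivAt G (g x) x := by
    intro x
    have h2 : HasDerivAt (fun x : ℝ => -(N * R ^ 2 * (w0 + (w1 - w0) *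
        ((x / R - t0) / (t1 - t0))))) (-(N * R ^ 2 * ((w1 - w0) * (1 / R / (t1 - t0))))) x := by
      apply HasDerivAt.neg
      apply HasDerivAt.const_mul
      apply HasDerivAt.const_add
      apply HasDerivAt.const_mul
      apply HasDerivAt.div_const
      apply HasDerivAt.sub_const
      exact (hasDerivAt_id x).div_const R
    have h3 := ((h2.exp).const_mul φ).neg
    refine h3.congr_deriv ?_
    rw [hg]
    ring
  have hgc : Continuous g := by
    rw [hg]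
    fun_prop
  have hint : ∫ x in (t0 * R)..(t1 * R), g x = G (t1 * R) - G (t0 * R) :=
    intervalIntegral.integral_eq_sub_of_hasDerivAt (fun x _ => hder x)
      (hgc.intervalIntegrable _ _)
  have hG1 : G (t1 * R) = -(φ * Real.exp (-(N * R ^ 2 * w1))) := by
    rw [hG]
    simp only
    rw [mul_div_cancel_right₀ _ hR.ne', div_self hdt.ne']
    congr 4
    ring
  have hG0 : G (t0 * R) = -(φ * Real.exp (-(N * R ^ 2 * w0))) := by
    rw [hG]
    simp only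
    rw [mul_div_cancel_right₀ _ hR.ne', sub_self, zero_div, mul_zero, add_zero]
  have hmain : ∫ x in (t0 * R)..(t1 * R), N * (x / (1 - x ^ 2) * ‖qq u x‖) ≤
      ∫ x in (t0 * R)..(t1 * R), g x := by
    apply intervalIntegral.integral_mono_on hle
    · apply ContinuousOn.intervalIntegrable
      rw [Set.uIcc_of_le hle]
      apply ContinuousOn.mul continuousOn_const
      apply ContinuousOn.mul _ hqc.norm.continuousOn
      apply ContinuousOn.div continuousOn_id (by fun_prop)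
      intro x hx
      have h4 : 0 ≤ x := le_trans (mul_nonneg ht0 hR.le) hx.1
      have h5 : x < 1 := lt_of_le_of_lt hx.2 h1
      nlinarith
    · exact hgc.intervalIntegrable _ _
    · intro x hx
      have h4 : 0 ≤ x := le_trans (mul_nonneg ht0 hR.le) hx.1
      have h5 : x < 1 := lt_of_le_of_lt hx.2 h1
      obtain ⟨t, htx⟩ : ∃ t, t = x / R := ⟨_, rfl⟩
      have hxt : x = t * R := by rw [htx, div_mul_cancel₀ _ hR.ne']
      have ht0' : t0 ≤ t := by rw [htx, le_div_iff₀ hR]; exact hx.1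
      have ht1' : t ≤ t1 := by rw [htx, div_le_iff₀ hR]; exact hx.2
      have hqt := hq t ⟨ht0', ht1'⟩
      rw [← hxt] at hqt
      have hx2 : 0 < 1 - x ^ 2 := by nlinarith
      have h1' : 0 < 1 - (R * t1) ^ 2 := by
        have : 0 ≤ R * t1 := mul_nonneg hR.le (ht0.trans ht.le)
        nlinarith
      have h6 : x / (1 - x ^ 2) ≤ R * (φ * ((w1 - w0) / (t1 - t0))) := by
        have h7 : x / (1 - x ^ 2) ≤ (R * t1) / (1 - (R * t1) ^ 2) := by
          have hxle : x ≤ R * t1 := by rw [mul_comm]; exact hx.2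
          apply div_le_div₀ (mul_nonneg hR.le (ht0.trans ht.le)) hxle h1'
          nlinarith
        refine h7.trans ?_
        rw [div_le_iff₀ h1', mul_assoc]
        apply mul_le_mul_of_nonneg_left _ hR.le
        rw [mul_div_assoc', div_mul_eq_mul_div, le_div_iff₀ hdt]
        linarith
      calc (N : ℝ) * (x / (1 - x ^ 2) * ‖qq u x‖)
          ≤ N * ((R * (φ * ((w1 - w0) / (t1 - t0)))) *
            Real.exp (-(N * R ^ 2 * (w0 + (w1 - w0) * ((t - t0) / (t1 - t0)))))) := by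
            apply mul_le_mul_of_nonneg_left _ (Nat.cast_nonneg N)
            apply mul_le_mul h6 hqt (norm_nonneg _)
            exact mul_nonneg hR.le (mul_nonneg hφ0 (div_nonneg hdw.le hdt.le))
        _ = g x := by
            rw [hg]
            simp only
            rw [htx]
            field_simp
  rw [intervalIntegral.integral_const_mul, hint, hG1, hG0] at hmain
  linarith

end Pool.Agent.Lib.MP_af3a4a_an.P1.CHK.H58
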