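import Pool.Agent.Lib.MP_af3a4a_an.P1.CHK.H58.SS

/-!
# Piece (I), soundness of the recursions (helper58)
-/

set_option autoImplicit false

namespace Pool.Agent.Lib.MP_af3a4a_an.P1.CHK.H58.S

open Finset MeasureTheory ComplexConjugate
open Pool.Agent.Lib.MP_af3a4a_an.SV (uu av)
open Pool.Agent.Lib.MP_af3a4a_an.P1.H80 Pool.Agent.Lib.MP_af3a4a_an.P1.H74
open Pool.Agent.Lib.MP_af3a4a_an.P1.CHK.Arith

/-- the hypotheses on `u` that the cells use -/
structure Hyp (N : ℕ) (u : Fin N → ℂ) (R f : ℝ) (R0 R1 f0 f1 Sa : ℕ) : Prop where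
  hN : 1 ≤ N
  hu : ∀ k, ‖u k‖ ≤ 1
  hR : 0 < R
  hR0 : (R0 : ℝ) / 2 ^ 20 ≤ R
  hR1 : R ≤ (R1 : ℝ) / 2 ^ 20
  hf : (av u).re = f * R
  hf0 : (f0 : ℝ) / 2 ^ 20 ≤ f
  hf1 : f ≤ (f1 : ℝ) / 2 ^ 20
  hS : (Sa : ℝ) / 2 ^ 20 ≤ N * R ^ 2

/-- the profile of type V is available -/
structure HypV (N : ℕ) (u : Fin N → ℂ) (R f : ℝ) (f0 f1 : ℕ) : Prop where
  hR4 : R ≤ 4 / 5
  hf1 : f1 ≤ 524288
  hf01 : f0 ≤ f1
  hq : ∀ t : ℝ, 0 ≤ t → t ≤ 1 → ‖qq u (t * R)‖ ≤ Real.exp (-(N * R ^ 2 * wV R f t))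

section

variable {Q : Prop} {N : ℕ} {u : Fin N → ℂ} {R f : ℝ} {R0 R1 f0 f1 Sa : ℕ}

/-- node `(t, w)` of type A -/
def okA (f : ℝ) (t w : ℕ) : Prop :=
  (w : ℝ) / 2 ^ 40 ≤ (t : ℝ) / 2 ^ 20 * f - ((t : ℝ) / 2 ^ 20) ^ 2 / 2

/-- node `(t, w)` of type V -/
def okV (R f : ℝ) (t w : ℕ) : Prop :=
  (w : ℝ) / 2 ^ 40 ≤ wV R f ((t : ℝ) / 2 ^ 20) - (1 - 2 * f) * (((t : ℝ) / 2 ^ 20) ^ 2 / 512)

/-- `S exp(-S ω) ≤ S_a exp(-S_a ω)` for `S ≥ S_a`, `S_a ω ≥ 1` -/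
theorem Sexp_le {S Sa' ω : ℝ} (hω0 : 0 < ω) (h1 : 1 ≤ Sa' * ω) (hS : Sa' ≤ S) :
    S * Real.exp (-(S * ω)) ≤ Sa' * Real.exp (-(Sa' * ω)) := by
  have hS0 : 0 < Sa' := by
    by_contra hcon
    have := mul_nonpos_of_nonpos_of_nonneg (not_lt.1 hcon) hω0.le
    linarith
  have e1 : Real.exp (-(S * ω)) = Real.exp (-(Sa' * ω)) * Real.exp (-((S - Sa') * ω)) := by
    rw [← Real.exp_add]
    congr 1
    ring
  have e2 : S ≤ Sa' * Real.exp ((S - Sa') * ω) := by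
    have h5 := Real.add_one_le_exp ((S - Sa') * ω)
    have h6 := mul_le_mul_of_nonneg_left h5 hS0.le
    have h7 : (S - Sa') * 1 ≤ (S - Sa') * (Sa' * ω) :=
      mul_le_mul_of_nonneg_left h1 (by linarith)
    nlinarith
  rw [e1]
  have h8 : Real.exp ((S - Sa') * ω) * Real.exp (-((S - Sa') * ω)) = 1 := by
    rw [← Real.exp_add, add_neg_cancel, Real.exp_zero]
  have h9 := mul_le_mul_of_nonneg_right e2 (Real.exp_pos (-((S - Sa') * ω))).le
  rw [mul_assoc, h8, mul_one] at h9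
  have h10 := mul_le_mul_of_nonneg_right h9 (Real.exp_pos (-(Sa' * ω))).le
  nlinarith

theorem eS_ge (Sa w : ℕ) :
    Real.exp (-((Sa : ℝ) / 2 ^ 20 * ((w : ℝ) / 2 ^ 40))) ≤ (eS Sa w : ℝ) / 2 ^ 40 := by
  unfold eS
  simp only [ev_eq]
  refine le_trans ?_ (em_spec _)
  apply Real.exp_le_exp.2
  rw [neg_le_neg_iff]
  have k1 : ((Nat.min ((Sa * w) >>> 20) 70368744177664 : ℕ) : ℝ) ≤
      (((Sa * w) >>> 20 : ℕ) : ℝ) := by
    exact_mod_cast Nat.min_le_left _ _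
  have k2 := shr_le (Sa * w) 20
  rw [Nat.cast_mul] at k2
  rw [div_mul_div_comm, div_le_div_iff₀ (by positivity) (by positivity)]
  rw [le_div_iff₀ (by positivity)] at k2
  nlinarith

/-- the pointwise bound on a cell of type A with constant `w` -/
theorem flat_qq (H : Hyp N u R f R0 R1 f0 f1 Sa) {t t' w : ℕ} (htx : t ≤ t')
    (hA : okA f t w) (hB : okA f t' w) :
    ∀ x ∈ Set.Icc ((t : ℝ) / 2 ^ 20 * R) ((t' : ℝ) / 2 ^ 20 * R),
      ‖qq u x‖ ≤ Real.exp (-(N * R ^ 2 * ((w : ℝ) / 2 ^ 40))) := by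
  intro x hx
  have hR := H.hR
  obtain ⟨s, hs⟩ : ∃ s, s = x / R := ⟨_, rfl⟩
  have hxs : x = s * R := by rw [hs, div_mul_cancel₀ _ hR.ne']
  have hs0 : (t : ℝ) / 2 ^ 20 ≤ s := by rw [hs, le_div_iff₀ hR]; exact hx.1
  have hs1 : s ≤ ((t' : ℕ) : ℝ) / 2 ^ 20 := by rw [hs, div_le_iff₀ hR]; exact hx.2
  rw [hxs]
  refine (qq_A' H.hN H.hu H.hf).trans ?_
  apply Real.exp_le_exp.2
  rw [neg_le_neg_iff]
  apply mul_le_mul_of_nonneg_left _ (by positivity)
  unfold okA at hA hB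
  rcases eq_or_lt_of_le (hs0.trans hs1) with he | hlt
  · have : s = (t : ℝ) / 2 ^ 20 := le_antisymm (by rw [he]; exact hs1) hs0
    rw [this]
    exact hA
  · have := chord (concA f _ _) hlt hA hB hs0 hs1
    rw [sub_self, zero_mul, add_zero] at this
    exact this

theorem minA {w : ℕ} (hf0 : (f0 : ℝ) / 2 ^ 20 ≤ f) {t t' : ℕ}
    (hw : w = Nat.min (nA f0 t) (nA f0 t')) (hw1 : 1 ≤ w) : okA f t w ∧ okA f t' w := by
  have hwA : w ≤ nA f0 t := by rw [hw]; exact Nat.min_le_left _ _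
  have hwB : w ≤ nA f0 t' := by rw [hw]; exact Nat.min_le_right _ _
  constructor
  · have := nA_le (f0 := f0) (t := t) (by omega) hf0
    unfold okA
    refine le_trans ?_ this
    apply div_le_div_of_nonneg_right _ (by positivity)
    exact_mod_cast hwA
  · have := nA_le (f0 := f0) (t := t') (by omega) hf0
    unfold okA
    refine le_trans ?_ this
    apply div_le_div_of_nonneg_right _ (by positivity)
    exact_mod_cast hwB

theorem chordA_qq (H : Hyp N u R f R0 R1 f0 f1 Sa) {t w t' w' : ℕ} (ht : t < t')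
    (hA : okA f t w) (hA' : okA f t' w') :
    ∀ s ∈ Set.Icc ((t : ℝ) / 2 ^ 20) ((t' : ℝ) / 2 ^ 20), ‖qq u (s * R)‖ ≤
      Real.exp (-(N * R ^ 2 * ((w : ℝ) / 2 ^ 40 + ((w' : ℝ) / 2 ^ 40 - (w : ℝ) / 2 ^ 40) *
        ((s - (t : ℝ) / 2 ^ 20) / ((t' : ℝ) / 2 ^ 20 - (t : ℝ) / 2 ^ 20))))) := by
  intro s hs
  have ha : (t : ℝ) / 2 ^ 20 < (t' : ℝ) / 2 ^ 20 := by
    apply div_lt_div_of_pos_right _ (by positivity)
    exact_mod_cast ht
  refine (qq_A' H.hN H.hu H.hf).trans ?_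
  apply Real.exp_le_exp.2
  rw [neg_le_neg_iff]
  apply mul_le_mul_of_nonneg_left _ (by positivity)
  exact chord (concA f _ _) ha hA hA' hs.1 hs.2

theorem chordV_qq (H : Hyp N u R f R0 R1 f0 f1 Sa) (HV : HypV N u R f f0 f1) {t w t' w' : ℕ}
    (ht : t < t') (ht1 : t' ≤ 1048576) (hg : (t' : ℝ) - t ≤ t / 8)
    (hA : okV R f t w) (hA' : okV R f t' w') :
    ∀ s ∈ Set.Icc ((t : ℝ) / 2 ^ 20) ((t' : ℝ) / 2 ^ 20), ‖qq u (s * R)‖ ≤
      Real.exp (-(N * R ^ 2 * ((w : ℝ) / 2 ^ 40 + ((w' : ℝ) / 2 ^ 40 - (w : ℝ) / 2 ^ 40) *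
        ((s - (t : ℝ) / 2 ^ 20) / ((t' : ℝ) / 2 ^ 20 - (t : ℝ) / 2 ^ 20))))) := by
  intro s hs
  unfold okV at hA hA'
  have hf0 : 0 ≤ f := le_trans (by positivity) H.hf0
  have hf2 : f ≤ 1 / 2 := by
    refine H.hf1.trans ?_
    have : (f1 : ℝ) ≤ 524288 := by exact_mod_cast HV.hf1
    rw [div_le_iff₀ (by positivity)]
    linarith
  obtain ⟨τ, hτ⟩ : ∃ τ, τ = (t : ℝ) / 2 ^ 20 := ⟨_, rfl⟩
  obtain ⟨τ', hτ'⟩ : ∃ τ', τ' = (t' : ℝ) / 2 ^ 20 := ⟨_, rfl⟩
  have ha : τ < τ' := by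
    rw [hτ, hτ']
    apply div_lt_div_of_pos_right _ (by positivity)
    exact_mod_cast ht
  have hτ0 : 0 ≤ τ := by rw [hτ]; positivity
  have hτ1 : τ' ≤ 1 := by
    rw [hτ', div_le_one (by positivity)]
    have : (t' : ℝ) ≤ 1048576 := by exact_mod_cast ht1
    linarith
  have hgap : τ' - τ ≤ τ / 8 := by
    rw [hτ, hτ', ← sub_div, div_le_iff₀ (by positivity)]
    have : (t : ℝ) / 2 ^ 20 / 8 * 2 ^ 20 = t / 8 := by ring
    linarith
  rw [← hτ, ← hτ'] at hs ⊢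
  rw [← hτ] at hA
  rw [← hτ'] at hA'
  have h1f : 0 ≤ 1 - 2 * f := by linarith
  have hd0 : 0 ≤ τ' - τ := by linarith
  have hd1 : (τ' - τ) ^ 2 / 8 ≤ τ ^ 2 / 512 := by
    have := pow_le_pow_left₀ hd0 hgap 2
    nlinarith
  have hd2 : τ ^ 2 / 512 ≤ τ' ^ 2 / 512 := by
    have := pow_le_pow_left₀ hτ0 ha.le 2
    linarith
  refine (HV.hq s (hτ0.trans hs.1) (hs.2.trans hτ1)).trans ?_
  apply Real.exp_le_exp.2
  rw [neg_le_neg_iff]
  apply mul_le_mul_of_nonneg_left _ (by positivity)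
  have m1 := mul_le_mul_of_nonneg_left hd1 h1f
  have m2 := mul_le_mul_of_nonneg_left hd2 h1f
  exact chordV H.hR (by linarith [HV.hR4]) hf0 hf2 hτ0 ha hτ1 (by linarith) (by linarith)
    hs.1 hs.2

theorem gA_sound (H : Hyp N u R f R0 R1 f0 f1 Sa) {k : ℕ → ℕ → ℕ → ℕ → ℕ → Bool} (n : ℕ)
    (hk : ∀ t w E h P, Inv N u R t w E h P → okA f t w → t ≤ 1048576 → k t w E h P = true → Q) :
    ∀ t w E h P, Inv N u R t w E h P → okA f t w → t ≤ 1048576 →
      gA R1 f0 Sa n t w E h P k = true → Q := by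
  induction n with
  | zero =>
    intro t w E h P hI hA ht hc
    exact hk t w E h P hI hA ht hc
  | succ n ih =>
    intro t w E h P hI hA ht hc
    simp only [gA, ev_eq] at hc
    have hnA : w < nA f0 (nx t) → okA f (nx t) (nA f0 (nx t)) := by
      intro hlt
      exact nA_le (by omega) H.hf0
    refine step_sound H.hR H.hR1 H.hS hI (fun ht hw => chordA_qq H ht hA (hnA hw)) hc ?_
    intro E' h' P' hI' _ hw hc'
    exact ih _ _ _ _ _ hI' (hnA hw) (nx_le _) hc'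

theorem gV_sound (H : Hyp N u R f R0 R1 f0 f1 Sa) (HV : HypV N u R f f0 f1)
    {k : ℕ → ℕ → ℕ → ℕ → ℕ → Bool} (n : ℕ)
    (hk : ∀ t w E h P, Inv N u R t w E h P → okV R f t w → t ≤ 1048576 → k t w E h P = true → Q) :
    ∀ t w E h P, Inv N u R t w E h P → okV R f t w → t ≤ 1048576 →
      gV R1 f0 f1 Sa n t w E h P k = true → Q := by
  induction n with
  | zero =>
    intro t w E h P hI hA ht hc
    exact hk t w E h P hI hA ht hc
  | succ n ih =>
    intro t w E h P hI hA ht hc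
    simp only [gV, ev_eq] at hc
    have hnV : okV R f (nx t) (nV R1 f0 f1 (nx t)) :=
      nV_le (nx_le t) HV.hf1 HV.hf01 H.hR HV.hR4 H.hR1 H.hf0 H.hf1
    refine step_sound H.hR H.hR1 H.hS hI
      (fun ht hw => chordV_qq H HV ht (nx_le _) (nx_gap _) hA hnV) hc ?_
    intro E' h' P' hI' _ hw hc'
    exact ih _ _ _ _ _ hI' hnV (nx_le _) hc'

/-- the tail -/
theorem gT_sound (H : Hyp N u R f R0 R1 f0 f1 Sa) {k : ℕ → ℕ → Bool} (n : ℕ) (t0 T0 : ℕ)
    (ht0 : t0 ≤ 1048576)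
    (hk : ∀ t T : ℕ, t0 ≤ t → t ≤ 1048576 →
      ((N : ℝ) + 1) * ‖∫ x in ((t0 : ℝ) / 2 ^ 20 * R)..((t : ℝ) / 2 ^ 20 * R), qq u x‖ ≤
        ((T : ℝ) - T0) / 2 ^ 40 → k t T = true → Q) :
    gT R0 R1 f0 Sa n t0 T0 k = true → Q := by
  have key : ∀ n t T : ℕ, t0 ≤ t → t ≤ 1048576 →
      ((N : ℝ) + 1) * ‖∫ x in ((t0 : ℝ) / 2 ^ 20 * R)..((t : ℝ) / 2 ^ 20 * R), qq u x‖ ≤
        ((T : ℝ) - T0) / 2 ^ 40 → gT R0 R1 f0 Sa n t T k = true → Q := by
    intro n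
    induction n with
    | zero =>
      intro t T h1 h2 h3 hc
      exact hk t T h1 h2 h3 hc
    | succ n ih =>
      intro t T h1 h2 h3 hc
      simp only [gT, ev_eq, Bool.and_eq_true, Nat.ble_eq] at hc
      obtain ⟨hR0, hS1, hc⟩ := hc
      have htx : t ≤ nx t := by
        unfold nx
        apply le_min _ h2
        omega
      refine ih (nx t) _ (h1.trans htx) (nx_le t) ?_ hc
      obtain ⟨w, hw⟩ : ∃ w, w = Nat.min (nA f0 t) (nA f0 (nx t)) := ⟨_, rfl⟩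
      rw [← hw] at hS1
      rw [← hw]
      have hw1 : 1 ≤ w := by
        rcases Nat.eq_zero_or_pos w with h0 | h0
        · rw [h0, mul_zero] at hS1
          omega
        · exact h0
      obtain ⟨hA, hB⟩ := minA H.hf0 hw hw1
      have hR := H.hR
      -- the pointwise bound
      obtain ⟨S, hS⟩ : ∃ S, S = (N : ℝ) * R ^ 2 := ⟨_, rfl⟩
      obtain ⟨ω, hω⟩ : ∃ ω, ω = (w : ℝ) / 2 ^ 40 := ⟨_, rfl⟩
      have hω0 : 0 < ω := by
        rw [hω]
        have : (0 : ℝ) < w := by exact_mod_cast hw1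
        positivity
      have hpt := flat_qq H htx hA hB
      rw [← hS, ← hω] at hpt
      have hle : (t : ℝ) / 2 ^ 20 * R ≤ ((nx t : ℕ) : ℝ) / 2 ^ 20 * R := by
        apply mul_le_mul_of_nonneg_right _ hR.le
        apply div_le_div_of_nonneg_right _ (by positivity)
        exact_mod_cast htx
      have hint : ‖∫ x in ((t : ℝ) / 2 ^ 20 * R)..(((nx t : ℕ) : ℝ) / 2 ^ 20 * R), qq u x‖ ≤
          Real.exp (-(S * ω)) * (((nx t : ℕ) : ℝ) / 2 ^ 20 * R - (t : ℝ) / 2 ^ 20 * R) := by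
        have := intervalIntegral.norm_integral_le_of_norm_le_const
          (a := (t : ℝ) / 2 ^ 20 * R) (b := ((nx t : ℕ) : ℝ) / 2 ^ 20 * R)
          (f := fun x => qq u x) (C := Real.exp (-(S * ω))) ?_
        · rwa [abs_of_nonneg (sub_nonneg.2 hle)] at this
        · intro x hx
          rw [Set.uIoc_of_le hle] at hx
          exact hpt x ⟨hx.1.le, hx.2⟩
      have hsplit : ∫ x in ((t0 : ℝ) / 2 ^ 20 * R)..(((nx t : ℕ) : ℝ) / 2 ^ 20 * R), qq u x =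
          (∫ x in ((t0 : ℝ) / 2 ^ 20 * R)..((t : ℝ) / 2 ^ 20 * R), qq u x) +
          ∫ x in ((t : ℝ) / 2 ^ 20 * R)..(((nx t : ℕ) : ℝ) / 2 ^ 20 * R), qq u x :=
        (intervalIntegral.integral_add_adjacent_intervals
          ((qq_cont u).intervalIntegrable _ _) ((qq_cont u).intervalIntegrable _ _)).symm
      -- the numeric bound of the cell
      have hSa : (Sa : ℝ) / 2 ^ 20 ≤ S := by rw [hS]; exact H.hS
      have hSaω : 1 ≤ (Sa : ℝ) / 2 ^ 20 * ω := by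
        rw [hω, div_mul_div_comm, le_div_iff₀ (by positivity)]
        have : ((1152921504606846976 : ℕ) : ℝ) ≤ ((Sa * w : ℕ) : ℝ) := by exact_mod_cast hS1
        push_cast at this
        norm_num
        linarith
      have hSexp := Sexp_le hω0 hSaω hSa
      have hEE := eS_ge Sa w
      rw [← hω] at hEE
      have hexp2 : Real.exp (-(S * ω)) ≤ Real.exp (-((Sa : ℝ) / 2 ^ 20 * ω)) := by
        apply Real.exp_le_exp.2
        rw [neg_le_neg_iff]
        exact mul_le_mul_of_nonneg_right hSa hω0.le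
      have hR0r : (0 : ℝ) < (R0 : ℝ) / 2 ^ 20 := by
        have : (0 : ℝ) < R0 := by exact_mod_cast hR0
        positivity
      have hNR : ((N : ℝ) + 1) * R * Real.exp (-(S * ω)) ≤
          ((Sa : ℝ) / 2 ^ 20 / (R0 / 2 ^ 20) + R1 / 2 ^ 20) * (eS Sa w / 2 ^ 40) := by
        have e1 : ((N : ℝ) + 1) * R = S / R + R := by
          rw [hS]
          field_simp
        have h5 : S / R * Real.exp (-(S * ω)) ≤ (Sa : ℝ) / 2 ^ 20 / (R0 / 2 ^ 20) *
            (eS Sa w / 2 ^ 40) := by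
          have h6 : S / R * Real.exp (-(S * ω)) = S * Real.exp (-(S * ω)) / R := by ring
          rw [h6, div_mul_eq_mul_div]
          apply div_le_div₀ (by positivity) _ hR0r H.hR0
          refine hSexp.trans ?_
          exact mul_le_mul_of_nonneg_left hEE (by positivity)
        have h7 : R * Real.exp (-(S * ω)) ≤ R1 / 2 ^ 20 * (eS Sa w / 2 ^ 40) :=
          mul_le_mul H.hR1 (hexp2.trans hEE) (Real.exp_pos _).le (by positivity)
        rw [e1]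
        nlinarith
      have hfl : (Sa : ℝ) / 2 ^ 20 / (R0 / 2 ^ 20) + R1 / 2 ^ 20 ≤
          ((Sa * 1048576 / R0 + 1 + R1 : ℕ) : ℝ) / 2 ^ 20 := by
        have h5 := real_le_div (Sa * 1048576) R0 hR0
        have h6 : (0 : ℝ) < R0 := by exact_mod_cast hR0
        rw [Nat.cast_add, add_div]
        apply add_le_add_left
        rw [div_div_div_cancel_right₀ (by positivity), le_div_iff₀ (by positivity)]
        refine le_trans (le_of_eq ?_) h5
        push_cast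
        ring
      have hmU := le_mU ((Sa * 1048576 / R0 + 1 + R1) * (nx t - t)) (eS Sa w)
      rw [Nat.cast_mul, Nat.cast_sub htx] at hmU
      have hd0 : (0 : ℝ) ≤ (nx t : ℝ) / 2 ^ 20 - t / 2 ^ 20 := by
        rw [sub_nonneg]
        apply div_le_div_of_nonneg_right _ (by positivity)
        exact_mod_cast htx
      have hfin : ((N : ℝ) + 1) * (Real.exp (-(S * ω)) *
          (((nx t : ℕ) : ℝ) / 2 ^ 20 * R - (t : ℝ) / 2 ^ 20 * R)) ≤
          ((mU ((Sa * 1048576 / R0 + 1 + R1) * (nx t - t)) (eS Sa w) : ℕ) : ℝ) / 2 ^ 40 := by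
        refine le_trans ?_ hmU
        calc ((N : ℝ) + 1) * (Real.exp (-(S * ω)) *
            (((nx t : ℕ) : ℝ) / 2 ^ 20 * R - (t : ℝ) / 2 ^ 20 * R))
            = (((N : ℝ) + 1) * R * Real.exp (-(S * ω))) * ((nx t : ℝ) / 2 ^ 20 - t / 2 ^ 20) := by
              ring
          _ ≤ (((Sa : ℝ) / 2 ^ 20 / (R0 / 2 ^ 20) + R1 / 2 ^ 20) * (eS Sa w / 2 ^ 40)) *
              ((nx t : ℝ) / 2 ^ 20 - t / 2 ^ 20) := mul_le_mul_of_nonneg_right hNR hd0
          _ ≤ ((((Sa * 1048576 / R0 + 1 + R1 : ℕ) : ℝ) / 2 ^ 20) * (eS Sa w / 2 ^ 40)) *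
              ((nx t : ℝ) / 2 ^ 20 - t / 2 ^ 20) := by
              apply mul_le_mul_of_nonneg_right _ hd0
              exact mul_le_mul_of_nonneg_right hfl (by positivity)
          _ = _ := by ring
      have hn : (0 : ℝ) < (N : ℝ) + 1 := by positivity
      rw [hsplit]
      calc ((N : ℝ) + 1) * ‖(∫ x in ((t0 : ℝ) / 2 ^ 20 * R)..((t : ℝ) / 2 ^ 20 * R), qq u x) +
          ∫ x in ((t : ℝ) / 2 ^ 20 * R)..(((nx t : ℕ) : ℝ) / 2 ^ 20 * R), qq u x‖
          ≤ ((N : ℝ) + 1) * (‖∫ x in ((t0 : ℝ) / 2 ^ 20 * R)..((t : ℝ) / 2 ^ 20 * R), qq u x‖ +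
            Real.exp (-(S * ω)) *
              (((nx t : ℕ) : ℝ) / 2 ^ 20 * R - (t : ℝ) / 2 ^ 20 * R)) := by
            apply mul_le_mul_of_nonneg_left _ hn.le
            refine (norm_add_le _ _).trans ?_
            linarith
        _ ≤ ((T : ℝ) - T0) / 2 ^ 40 +
            ((mU ((Sa * 1048576 / R0 + 1 + R1) * (nx t - t)) (eS Sa w) : ℕ) : ℝ) / 2 ^ 40 := by
            rw [mul_add]
            exact add_le_add h3 hfin
        _ = _ := by
            push_cast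
            ring
  intro hc
  refine key n t0 T0 le_rfl ht0 ?_ hc
  simp

/-- the plateau -/
theorem gP_sound (H : Hyp N u R f R0 R1 f0 f1 Sa) {k : ℕ → ℕ → Bool} (n : ℕ) (t Φ : ℕ)
    (ht : t ≤ 1048576) (hty : (t : ℝ) / 2 ^ 20 * R < 1)
    (hJ : (N : ℝ) * ∫ x in (0 : ℝ)..((t : ℝ) / 2 ^ 20 * R), x / (1 - x ^ 2) * ‖qq u x‖ ≤
      (Φ : ℝ) / 2 ^ 40)
    (hk : ∀ t' Φ' : ℕ, t' ≤ 1048576 → (t' : ℝ) / 2 ^ 20 * R < 1 →
      (N : ℝ) * ∫ x in (0 : ℝ)..((t' : ℝ) / 2 ^ 20 * R), x / (1 - x ^ 2) * ‖qq u x‖ ≤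
        (Φ' : ℝ) / 2 ^ 40 → (n = 0 → t' = t) → (n ≠ 0 → 1 ≤ nA f0 t') → k t' Φ' = true → Q) :
    gP R1 f0 Sa n t Φ k = true → Q := by
  induction n generalizing t Φ with
  | zero =>
    intro hc
    exact hk t Φ ht hty hJ (fun _ => rfl) (fun h => absurd rfl h) hc
  | succ n ih =>
    intro hc
    simp only [gP, ev_eq, Bool.and_eq_true, Nat.ble_eq] at hc
    obtain ⟨hD, hS1, hc⟩ := hc
    have htx : t ≤ nx t := by
      unfold nx
      apply le_min _ ht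
      omega
    obtain ⟨t', ht'⟩ : ∃ t', t' = nx t := ⟨_, rfl⟩
    rw [← ht'] at hD hS1 hc htx
    have ht1 : t' ≤ 1048576 := by rw [ht']; exact nx_le t
    obtain ⟨w, hw⟩ : ∃ w, w = Nat.min (nA f0 t) (nA f0 t') := ⟨_, rfl⟩
    rw [← hw] at hS1 hc
    have hw1 : 1 ≤ w := by
      rcases Nat.eq_zero_or_pos w with h0 | h0
      · rw [h0, mul_zero] at hS1
        omega
      · exact h0
    obtain ⟨hA, hB⟩ := minA H.hf0 hw hw1
    have hR := H.hR
    obtain ⟨D, hDd⟩ : ∃ D, D = 1099511627776 - (((R1 * t') * (R1 * t')) >>> 40 + 1) := ⟨_, rfl⟩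
    rw [← hDd] at hD hc
    obtain ⟨S, hS⟩ : ∃ S, S = (N : ℝ) * R ^ 2 := ⟨_, rfl⟩
    obtain ⟨ω, hω⟩ : ∃ ω, ω = (w : ℝ) / 2 ^ 40 := ⟨_, rfl⟩
    have hω0 : 0 < ω := by
      rw [hω]
      have : (0 : ℝ) < w := by exact_mod_cast hw1
      positivity
    have hpt := flat_qq H htx hA hB
    rw [← hS, ← hω] at hpt
    obtain ⟨τ, hτ⟩ : ∃ τ, τ = (t : ℝ) / 2 ^ 20 := ⟨_, rfl⟩
    obtain ⟨τ', hτ'⟩ : ∃ τ', τ' = (t' : ℝ) / 2 ^ 20 := ⟨_, rfl⟩
    have hτ0 : 0 ≤ τ := by rw [hτ]; positivity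
    have hττ : τ ≤ τ' := by
      rw [hτ, hτ']
      apply div_le_div_of_nonneg_right _ (by positivity)
      exact_mod_cast htx
    have hτ0' : 0 ≤ τ' := hτ0.trans hττ
    obtain ⟨ρ, hρ⟩ : ∃ ρ, ρ = (R1 : ℝ) / 2 ^ 20 := ⟨_, rfl⟩
    have hR1 := H.hR1
    rw [← hρ] at hR1
    have hρ0 : 0 ≤ ρ := hR.le.trans hR1
    have hDr : (D : ℝ) / 2 ^ 40 ≤ 1 - (ρ * τ') ^ 2 := by
      have h1 := le_shr ((R1 * t') * (R1 * t')) 40
      have h2 : ((R1 * t') * (R1 * t')) >>> 40 + 1 ≤ 1099511627776 := by omega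
      rw [hDd, Nat.cast_sub h2]
      have e : (ρ * τ') ^ 2 = (((R1 * t') * (R1 * t') : ℕ) : ℝ) / 2 ^ 40 / 2 ^ 40 := by
        rw [hρ, hτ']
        push_cast
        ring
      rw [e, div_le_iff₀ (by positivity), sub_mul, div_mul_cancel₀ _ (by positivity)]
      norm_num at h1 ⊢
      linarith
    have hD0 : 0 < (D : ℝ) / 2 ^ 40 := by
      have : (0 : ℝ) < D := by exact_mod_cast hD
      positivity
    have hρτ : ρ * τ' < 1 := by
      by_contra hcon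
      have h1 : 1 ≤ ρ * τ' := not_lt.1 hcon
      nlinarith
    have ht1R : τ' * R < 1 := by
      have : τ' * R ≤ τ' * ρ := mul_le_mul_of_nonneg_left hR1 hτ0'
      linarith
    have hDR : (D : ℝ) / 2 ^ 40 ≤ 1 - (τ' * R) ^ 2 := by
      have h1 : (τ' * R) ^ 2 ≤ (ρ * τ') ^ 2 := by
        rw [mul_comm ρ τ']
        exact pow_le_pow_left₀ (by positivity) (mul_le_mul_of_nonneg_left hR1 hτ0') 2
      linarith
    rw [← hτ] at hJ
    rw [← hτ, ← hτ'] at hpt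
    have hle : τ * R ≤ τ' * R := mul_le_mul_of_nonneg_right hττ hR.le
    have hii : IntervalIntegrable (fun x => x / (1 - x ^ 2) * ‖qq u x‖) volume (τ * R) (τ' * R) := by
      apply ContinuousOn.intervalIntegrable
      rw [Set.uIcc_of_le hle]
      apply ContinuousOn.mul _ (qq_cont u).norm.continuousOn
      apply ContinuousOn.div continuousOn_id (by fun_prop)
      intro x hx
      have h5 : x < 1 := by linarith [hx.2]
      have h6 : 0 ≤ x := le_trans (mul_nonneg hτ0 hR.le) hx.1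
      nlinarith
    have hsplit : (N : ℝ) * ∫ x in (0 : ℝ)..(τ' * R), x / (1 - x ^ 2) * ‖qq u x‖ =
        (N : ℝ) * (∫ x in (0 : ℝ)..(τ * R), x / (1 - x ^ 2) * ‖qq u x‖) +
        N * ∫ x in (τ * R)..(τ' * R), x / (1 - x ^ 2) * ‖qq u x‖ := by
      rw [← mul_add, intervalIntegral.integral_add_adjacent_intervals _ hii]
      apply ContinuousOn.intervalIntegrable
      rw [Set.uIcc_of_le (by positivity)]
      apply ContinuousOn.mul _ (qq_cont u).norm.continuousOn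
      apply ContinuousOn.div continuousOn_id (by fun_prop)
      intro x hx
      have h5 : x < 1 := by linarith [hx.2]
      have := hx.1
      nlinarith
    have hcell : ∫ x in (τ * R)..(τ' * R), x / (1 - x ^ 2) * ‖qq u x‖ ≤
        (τ' * R / (D / 2 ^ 40) * Real.exp (-(S * ω))) * (τ' * R - τ * R) := by
      have h1 : ∫ x in (τ * R)..(τ' * R), x / (1 - x ^ 2) * ‖qq u x‖ ≤
          ∫ _x in (τ * R)..(τ' * R), (τ' * R / (D / 2 ^ 40) * Real.exp (-(S * ω))) := by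
        apply intervalIntegral.integral_mono_on hle hii (by simp)
        intro x hx
        have h5 : x < 1 := by linarith [hx.2]
        have h6 : 0 ≤ x := le_trans (mul_nonneg hτ0 hR.le) hx.1
        apply mul_le_mul _ (hpt x hx) (norm_nonneg _) (by positivity)
        apply div_le_div₀ (by positivity) hx.2 hD0
        refine hDR.trans ?_
        have := pow_le_pow_left₀ h6 hx.2 2
        linarith
      refine h1.trans (le_of_eq ?_)
      rw [intervalIntegral.integral_const, smul_eq_mul, mul_comm]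
    have hSa : (Sa : ℝ) / 2 ^ 20 ≤ S := by rw [hS]; exact H.hS
    have hSaω : 1 ≤ (Sa : ℝ) / 2 ^ 20 * ω := by
      rw [hω, div_mul_div_comm, le_div_iff₀ (by positivity)]
      have : ((1152921504606846976 : ℕ) : ℝ) ≤ ((Sa * w : ℕ) : ℝ) := by exact_mod_cast hS1
      push_cast at this
      norm_num
      linarith
    have hSexp := Sexp_le hω0 hSaω hSa
    have hEE := eS_ge Sa w
    rw [← hω] at hEE
    have hnum : (N : ℝ) * ((τ' * R / (D / 2 ^ 40) * Real.exp (-(S * ω))) * (τ' * R - τ * R)) ≤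
        ((mU (Sa * (t' * (t' - t)) * 1048576 / D + 1) (eS Sa w) : ℕ) : ℝ) / 2 ^ 40 := by
      refine le_trans ?_ (le_mU _ _)
      have h1 := real_le_div (Sa * (t' * (t' - t)) * 1048576) D hD
      have e1 : (N : ℝ) * ((τ' * R / (D / 2 ^ 40) * Real.exp (-(S * ω))) * (τ' * R - τ * R)) =
          (τ' * (τ' - τ) / (D / 2 ^ 40)) * (S * Real.exp (-(S * ω))) := by
        rw [hS]
        ring
      have h0 : 0 ≤ τ' * (τ' - τ) / (D / 2 ^ 40) := by
        apply div_nonneg _ hD0.le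
        exact mul_nonneg hτ0' (by linarith)
      rw [e1]
      have h2 := mul_le_mul_of_nonneg_left hSexp h0
      refine h2.trans ?_
      have h3 : τ' * (τ' - τ) / (D / 2 ^ 40) * ((Sa : ℝ) / 2 ^ 20) ≤
          (((Sa * (t' * (t' - t)) * 1048576 / D + 1 : ℕ) : ℝ)) / 2 ^ 40 := by
        rw [le_div_iff₀ (by positivity)]
        refine le_trans (le_of_eq ?_) h1
        have hDp : (0 : ℝ) < D := by exact_mod_cast hD
        rw [Nat.cast_mul, Nat.cast_mul, Nat.cast_mul, Nat.cast_sub htx, hτ, hτ']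
        push_cast
        field_simp
        ring
      calc τ' * (τ' - τ) / (D / 2 ^ 40) * ((Sa : ℝ) / 2 ^ 20 *
            Real.exp (-((Sa : ℝ) / 2 ^ 20 * ω)))
          = (τ' * (τ' - τ) / (D / 2 ^ 40) * ((Sa : ℝ) / 2 ^ 20)) *
            Real.exp (-((Sa : ℝ) / 2 ^ 20 * ω)) := by ring
        _ ≤ _ := mul_le_mul h3 hEE (Real.exp_pos _).le (by positivity)
    refine ih t' _ ht1 (by rw [← hτ']; exact ht1R) ?_ ?_ hc
    · rw [← hτ', hsplit]
      have h4 := mul_le_mul_of_nonneg_left hcell (Nat.cast_nonneg N : (0 : ℝ) ≤ N)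
      rw [Nat.cast_add, add_div]
      linarith
    · intro t'' Φ'' g1 g2 g3 g4 g5 g6
      refine hk t'' Φ'' g1 g2 g3 (fun h => absurd h (Nat.succ_ne_zero n)) (fun _ => ?_) g6
      rcases Nat.eq_zero_or_pos n with h0 | h0
      · rw [g4 h0]
        have : w ≤ nA f0 t' := by rw [hw]; exact Nat.min_le_right _ _
        omega
      · exact g5 (by omega)

end

end Pool.Agent.Lib.MP_af3a4a_an.P1.CHK.H58.S
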