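import Pool.Agent.Lib.MP_af3a4a_an.P1.CHK.H58.SH

/-!
# Piece (I), soundness of the checker of a box (helper58)
-/

set_option autoImplicit false

namespace Pool.Agent.Lib.MP_af3a4a_an.P1.CHK.H58.S

open Finset MeasureTheory ComplexConjugate
open Pool.Agent.Lib.MP_af3a4a_an.SV (uu av)
open Pool.Agent.Lib.MP_af3a4a_an.P1.H80 Pool.Agent.Lib.MP_af3a4a_an.P1.H74
open Pool.Agent.Lib.MP_af3a4a_an.P1.CHK.Arith

theorem p1U_le {N : ℕ} {u : Fin N → ℂ} {R f : ℝ} {R0 R1 f0 f1 Sa t : ℕ}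
    (H : Hyp N u R f R0 R1 f0 f1 Sa) :
    ‖1 - (((t : ℝ) / 2 ^ 20 * R : ℝ) : ℂ) * av u‖ ≤ ((p1U R0 R1 f0 t : ℕ) : ℝ) / 2 ^ 40 := by
  obtain ⟨τ, hτ⟩ : ∃ τ, τ = (t : ℝ) / 2 ^ 20 := ⟨_, rfl⟩
  have hτ0 : 0 ≤ τ := by rw [hτ]; positivity
  rw [← hτ]
  have hm1 := av_norm_le H.hN H.hu
  have hR := H.hR
  have hf0 := H.hf0
  have hR0 := H.hR0
  have hR1 := H.hR1
  have hnn : ‖1 - ((τ * R : ℝ) : ℂ) * av u‖ ^ 2 ≤ 1 - R ^ 2 * (τ * (2 * f - τ)) := by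
    have h1 : ‖1 - ((τ * R : ℝ) : ℂ) * av u‖ ^ 2 = 1 - 2 * (τ * R) * (av u).re +
        (τ * R) ^ 2 * ‖av u‖ ^ 2 := by
      rw [norm_sq_re_im, norm_sq_re_im]
      simp only [Complex.sub_re, Complex.sub_im, Complex.mul_re, Complex.mul_im, Complex.one_re,
        Complex.one_im, Complex.ofReal_re, Complex.ofReal_im]
      ring
    have h2 : ‖av u‖ ^ 2 ≤ 1 := by
      have := norm_nonneg (av u)
      nlinarith
    have h3 : (τ * R) ^ 2 * ‖av u‖ ^ 2 ≤ (τ * R) ^ 2 * 1 :=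
      mul_le_mul_of_nonneg_left h2 (sq_nonneg _)
    rw [h1, H.hf]
    nlinarith
  have hag : ‖1 - ((τ * R : ℝ) : ℂ) * av u‖ ≤ (2 - R ^ 2 * (τ * (2 * f - τ))) / 2 := by
    have := sq_nonneg (‖1 - ((τ * R : ℝ) : ℂ) * av u‖ - 1)
    nlinarith
  refine hag.trans ?_
  have hmono : τ * (2 * ((f0 : ℝ) / 2 ^ 20) - τ) ≤ τ * (2 * f - τ) := by
    apply mul_le_mul_of_nonneg_left _ hτ0
    linarith
  have hmono2 : R ^ 2 * (τ * (2 * ((f0 : ℝ) / 2 ^ 20) - τ)) ≤ R ^ 2 * (τ * (2 * f - τ)) :=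
    mul_le_mul_of_nonneg_left hmono (sq_nonneg R)
  unfold p1U
  by_cases hc : t ≤ 2 * f0
  · rw [Nat.ble_eq_true_of_le hc, cond_true]
    obtain ⟨X, hX⟩ : ∃ X, X = (R0 * R0) * (t * (2 * f0 - t)) := ⟨_, rfl⟩
    have hXr : (X : ℝ) / 2 ^ 80 = ((R0 : ℝ) / 2 ^ 20) ^ 2 * (τ * (2 * ((f0 : ℝ) / 2 ^ 20) - τ)) := by
      rw [hX, Nat.cast_mul, Nat.cast_mul, Nat.cast_mul, Nat.cast_sub hc, hτ]
      push_cast
      ring
    have h0 : 0 ≤ τ * (2 * ((f0 : ℝ) / 2 ^ 20) - τ) := by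
      apply mul_nonneg hτ0
      rw [hτ, mul_div_assoc', ← sub_div]
      apply div_nonneg _ (by positivity)
      rw [sub_nonneg]
      exact_mod_cast hc
    have h1 : (X : ℝ) / 2 ^ 80 ≤ R ^ 2 * (τ * (2 * f - τ)) := by
      rw [hXr]
      refine le_trans ?_ hmono2
      apply mul_le_mul_of_nonneg_right _ h0
      exact pow_le_pow_left₀ (by positivity) hR0 2
    rw [← hX]
    have h2 := shr_le X 40
    have h3 := sub_le_cast 2199023255552 (X >>> 40)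
    obtain ⟨v, hv⟩ : ∃ v, v = 2199023255552 - X >>> 40 := ⟨_, rfl⟩
    rw [← hv] at h3 ⊢
    have h4 := real_le_div v 2 (by norm_num)
    rw [le_div_iff₀ (by norm_num)]
    refine le_trans ?_ h4
    push_cast at h3 ⊢
    have h5 : (X : ℝ) / 2 ^ 40 = (X : ℝ) / 2 ^ 80 * 2 ^ 40 := by ring
    rw [h5] at h2
    have h6 := mul_le_mul_of_nonneg_right h1 (by norm_num : (0 : ℝ) ≤ 2 ^ 40)
    norm_num at h2 h3 h6 ⊢
    linarith
  · have hb' : Nat.ble t (2 * f0) = false := by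
      rw [Bool.eq_false_iff, ne_eq, Nat.ble_eq]
      exact hc
    rw [hb', cond_false]
    have hlt : 2 * f0 ≤ t := by omega
    obtain ⟨X, hX⟩ : ∃ X, X = (R1 * R1) * (t * (t - 2 * f0)) := ⟨_, rfl⟩
    have hXr : (X : ℝ) / 2 ^ 80 =
        ((R1 : ℝ) / 2 ^ 20) ^ 2 * -(τ * (2 * ((f0 : ℝ) / 2 ^ 20) - τ)) := by
      rw [hX, Nat.cast_mul, Nat.cast_mul, Nat.cast_mul, Nat.cast_sub hlt, hτ]
      push_cast
      ring
    have h0 : 0 ≤ -(τ * (2 * ((f0 : ℝ) / 2 ^ 20) - τ)) := by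
      rw [← mul_neg]
      apply mul_nonneg hτ0
      rw [neg_sub, sub_nonneg, hτ, mul_div_assoc', div_le_div_iff_of_pos_right (by positivity)]
      exact_mod_cast hlt
    have h1 : -(X : ℝ) / 2 ^ 80 ≤ R ^ 2 * (τ * (2 * f - τ)) := by
      rw [neg_div, hXr]
      refine le_trans ?_ hmono2
      have : R ^ 2 * -(τ * (2 * ((f0 : ℝ) / 2 ^ 20) - τ)) ≤
          ((R1 : ℝ) / 2 ^ 20) ^ 2 * -(τ * (2 * ((f0 : ℝ) / 2 ^ 20) - τ)) := by
        apply mul_le_mul_of_nonneg_right _ h0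
        exact pow_le_pow_left₀ hR.le hR1 2
      linarith
    rw [← hX]
    have h2 := le_shr X 40
    obtain ⟨v, hv⟩ : ∃ v, v = X >>> 40 + 1 := ⟨_, rfl⟩
    rw [← hv] at h2 ⊢
    have h4 := real_le_div (2199023255552 + v) 2 (by norm_num)
    rw [le_div_iff₀ (by norm_num)]
    refine le_trans ?_ h4
    push_cast
    have h5 : (X : ℝ) / 2 ^ 40 = (X : ℝ) / 2 ^ 80 * 2 ^ 40 := by ring
    rw [h5] at h2
    have h6 := mul_le_mul_of_nonneg_right h1 (by norm_num : (0 : ℝ) ≤ 2 ^ 40)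
    norm_num at h2 h6 ⊢
    linarith

section

variable {N : ℕ} {z w : Fin N → ℂ} {R : ℝ} {σ : Fin N → ℂ} {f : ℝ} {b : Bx}

theorem fin_sound (hC : Cfg2 N z w R σ) (hN : 40 ≤ N) (hR21 : R ≤ 21 / 10)
    (H : Hyp N (uu w) R f b.R0 b.R1 b.f0 b.f1 b.Sa) (hf0 : 1 ≤ b.f0)
    (hSb : b.Sb = 0 ∨ N * R ^ 2 ≤ (b.Sb : ℝ) / 2 ^ 20)
    (hnear : b.md = 3 → 1 / 4 < ‖(R : ℂ) - conj (av (uu w))‖)
    (t ω E h P : ℕ) (hI : Inv N (uu w) R t ω E h P) (ht : t ≤ 1048576)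
    (hc : fin b t ω E h P = true) : False := by
  unfold fin at hc
  simp only [ev_eq, Bool.and_eq_true, Nat.ble_eq] at hc
  obtain ⟨Φ, hΦ⟩ : ∃ Φ, Φ = P - (bif Nat.beq b.Sb 0 then 0 else mL h (emL ((b.Sb * ω) >>> 20 + 1))) :=
    ⟨_, rfl⟩
  rw [← hΦ] at hc
  have hR := H.hR
  have hJ := hI.hJ
  have hE := hI.hE
  have hq := hI.hq
  have hty := hI.ht
  obtain ⟨y, hy⟩ : ∃ y, y = (t : ℝ) / 2 ^ 20 * R := ⟨_, rfl⟩
  rw [← hy] at hJ hq hty
  have hy0 : 0 ≤ y := by rw [hy]; positivity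
  -- Φ
  have hΦr : (N : ℝ) * ∫ x in (0 : ℝ)..y, x / (1 - x ^ 2) * ‖qq (uu w) x‖ ≤ (Φ : ℝ) / 2 ^ 40 := by
    refine hJ.trans ?_
    rw [hΦ]
    have hh0 : (0 : ℝ) ≤ (h : ℝ) / 2 ^ 40 := by positivity
    rcases Nat.eq_zero_or_pos b.Sb with h0 | h0
    · rw [h0]
      have : Nat.beq 0 0 = true := rfl
      rw [this, cond_true, Nat.sub_zero]
      have := mul_nonneg hh0 (Real.exp_pos (-(N * R ^ 2 * ((ω : ℝ) / 2 ^ 40)))).le
      linarith
    · have hbq : Nat.beq b.Sb 0 = false := by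
        rw [Bool.eq_false_iff, ne_eq, Nat.beq_eq]
        omega
      rw [hbq, cond_false]
      have hSb' : N * R ^ 2 ≤ (b.Sb : ℝ) / 2 ^ 20 := by
        rcases hSb with h1 | h1
        · omega
        · exact h1
      have h1 := emL_spec ((b.Sb * ω) >>> 20 + 1)
      have h2 : Real.exp (-((((b.Sb * ω) >>> 20 + 1 : ℕ) : ℝ) / 2 ^ 40)) ≤
          Real.exp (-(N * R ^ 2 * ((ω : ℝ) / 2 ^ 40))) := by
        apply Real.exp_le_exp.2
        rw [neg_le_neg_iff]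
        have h3 := le_shr (b.Sb * ω) 20
        rw [Nat.cast_mul] at h3
        have h4 := mul_le_mul_of_nonneg_right hSb' (by positivity : (0 : ℝ) ≤ (ω : ℝ) / 2 ^ 40)
        refine h4.trans ?_
        rw [le_div_iff₀ (by positivity)]
        refine le_trans (le_of_eq ?_) h3
        field_simp
      have h5 := mL_le h (emL ((b.Sb * ω) >>> 20 + 1))
      have h6 := mul_le_mul_of_nonneg_left (h1.trans h2) hh0
      have h7 := sub_le_cast P (mL h (emL ((b.Sb * ω) >>> 20 + 1)))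
      have h8 := div_le_div_of_nonneg_right h7 (by positivity : (0 : ℝ) ≤ 2 ^ 40)
      rw [sub_div] at h8
      linarith
  rw [hy] at hΦr
  refine gP_sound H b.np t Φ ht (by rw [← hy]; exact hty) hΦr ?_ hc
  clear hΦr hJ hΦ hc
  intro t' Φ' ht' hty' hΦr hn0 hn1 hc
  obtain ⟨E', hE'⟩ : ∃ E', E' = (bif Nat.beq b.np 0 then E else eS b.Sa (nA b.f0 t')) := ⟨_, rfl⟩
  rw [← hE'] at hc
  have hqE : ‖qq (uu w) ((t' : ℝ) / 2 ^ 20 * R)‖ ≤ (E' : ℝ) / 2 ^ 40 := by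
    rcases Nat.eq_zero_or_pos b.np with h0 | h0
    · have hbq : Nat.beq b.np 0 = true := by rw [h0]; rfl
      rw [hbq, cond_true] at hE'
      rw [hn0 h0, ← hy, hE']
      exact hq.trans hE
    · have hbq : Nat.beq b.np 0 = false := by
        rw [Bool.eq_false_iff, ne_eq, Nat.beq_eq]
        omega
      rw [hbq, cond_false] at hE'
      have h1 := nA_le (hn1 (by omega)) H.hf0
      refine (qq_A' H.hN H.hu H.hf).trans ?_
      rw [hE']
      refine le_trans ?_ (eS_le H.hS)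
      apply Real.exp_le_exp.2
      rw [neg_le_neg_iff]
      exact mul_le_mul_of_nonneg_left h1 (by positivity)
  clear hy hy0 hq hty hI hE hn0 hn1
  clear y
  obtain ⟨y, hy⟩ : ∃ y, y = (t' : ℝ) / 2 ^ 20 * R := ⟨_, rfl⟩
  rw [← hy] at hqE hΦr hty'
  have hy0 : 0 ≤ y := by rw [hy]; positivity
  simp only [Bool.and_eq_true, Nat.ble_eq] at hc
  obtain ⟨pT, hpT⟩ : ∃ pT, pT = mU (p1U b.R0 b.R1 b.f0 t') E' := ⟨_, rfl⟩
  rw [← hpT] at hc
  obtain ⟨c1, c2, hc⟩ := hc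
  -- A
  have hpTr : ‖1 - (y : ℂ) * av (uu w)‖ * ‖qq (uu w) y‖ ≤ (pT : ℝ) / 2 ^ 40 := by
    rw [hpT]
    refine le_trans ?_ (le_mU _ _)
    have := p1U_le (t := t') H
    rw [← hy] at this
    exact mul_le_mul this hqE (norm_nonneg _) (by positivity)
  obtain ⟨A, hA⟩ : ∃ A, A = 1099511627776 - pT := ⟨_, rfl⟩
  rw [← hA] at c2
  have hAr : (A : ℝ) / 2 ^ 40 = 1 - (pT : ℝ) / 2 ^ 40 := by
    rw [hA, Nat.cast_sub c1, sub_div]
    norm_num
  have hm : av (uu w) ≠ 0 := by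
    intro h0
    have h1 := H.hf
    rw [h0, Complex.zero_re] at h1
    have h2 : 0 < f := by
      refine lt_of_lt_of_le ?_ H.hf0
      have : (0 : ℝ) < b.f0 := by exact_mod_cast hf0
      positivity
    have := mul_pos h2 hR
    linarith
  have hS0 := sfree H.hN H.hu (y := y) (A := (A : ℝ) / 2 ^ 40) (Φ := (Φ' : ℝ) / 2 ^ 40)
    (F := (b.F : ℝ) / 2 ^ 40) hy0 hty' hm (by rw [hAr]; linarith) hΦr ?_ (by positivity)
  swap
  · have : ((b.F * b.F + Φ' * Φ' : ℕ) : ℝ) ≤ ((A * A : ℕ) : ℝ) := by exact_mod_cast c2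
    push_cast at this
    have e1 : ((b.F : ℝ) / 2 ^ 40) ^ 2 + ((Φ' : ℝ) / 2 ^ 40) ^ 2 =
        ((b.F : ℝ) * b.F + Φ' * Φ') / 2 ^ 80 := by ring
    have e2 : ((A : ℝ) / 2 ^ 40) ^ 2 = (A : ℝ) * A / 2 ^ 80 := by ring
    rw [e1, e2]
    exact div_le_div_of_nonneg_right this (by positivity)
  refine gT_sound H b.nt t' 0 ht' ?_ hc
  intro l T htl hl hT hc'
  simp only [Bool.and_eq_true, Nat.ble_eq] at hc'
  obtain ⟨d1, d2⟩ := hc'
  obtain ⟨G, hG⟩ : ∃ G, G = b.F - T := ⟨_, rfl⟩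
  rw [← hG] at d2
  have hG1 : 1 ≤ G := by omega
  have hGr : (G : ℝ) / 2 ^ 40 ≤
      ((N : ℝ) + 1) * ‖∫ x in (0 : ℝ)..((l : ℝ) / 2 ^ 20 * R), qq (uu w) x‖ := by
    rw [← hy] at hT
    rw [Nat.cast_zero, sub_zero] at hT
    have hsplit : ∫ x in (0 : ℝ)..y, qq (uu w) x =
        (∫ x in (0 : ℝ)..((l : ℝ) / 2 ^ 20 * R), qq (uu w) x) -
        ∫ x in y..((l : ℝ) / 2 ^ 20 * R), qq (uu w) x := by
      have := intervalIntegral.integral_add_adjacent_intervals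
          ((qq_cont (uu w)).intervalIntegrable 0 y)
          ((qq_cont (uu w)).intervalIntegrable y ((l : ℝ) / 2 ^ 20 * R)) (μ := volume)
      rw [← this]
      ring
    rw [hsplit] at hS0
    have hn : (0 : ℝ) < (N : ℝ) + 1 := by positivity
    have h1 := norm_sub_le (∫ x in (0 : ℝ)..((l : ℝ) / 2 ^ 20 * R), qq (uu w) x)
      (∫ x in y..((l : ℝ) / 2 ^ 20 * R), qq (uu w) x)
    have h2 := mul_le_mul_of_nonneg_left h1 hn.le
    rw [mul_add] at h2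
    have h3 : (G : ℝ) / 2 ^ 40 = (b.F : ℝ) / 2 ^ 40 - (T : ℝ) / 2 ^ 40 := by
      rw [hG, Nat.cast_sub (by omega), sub_div]
    rw [h3]
    linarith
  by_cases hmd : b.md = 3
  · have hbq : Nat.beq b.md 3 = true := by rw [hmd]; rfl
    rw [hbq, cond_true] at d2
    exact endB_sound hC hN hR21 H (hnear hmd) hG1 hGr d2
  · have hbq : Nat.beq b.md 3 = false := by
      rw [Bool.eq_false_iff, ne_eq, Nat.beq_eq]
      exact hmd
    rw [hbq, cond_false] at d2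
    exact endA_sound hC hN hR21 H hSb hl hG1 hGr d2

/-- **soundness of the checker of a box** -/
theorem chk_sound (hc : chk b = true) (hC : Cfg2 N z w R σ) (hN : 40 ≤ N) (hR21 : R ≤ 21 / 10)
    (hR0 : (b.R0 : ℝ) / 2 ^ 20 ≤ R) (hR1 : R ≤ (b.R1 : ℝ) / 2 ^ 20)
    (hf : (av (uu w)).re = f * R) (hf0 : (b.f0 : ℝ) / 2 ^ 20 ≤ f) (hf1 : f ≤ (b.f1 : ℝ) / 2 ^ 20)
    (hSa : (b.Sa : ℝ) / 2 ^ 20 ≤ N * R ^ 2)
    (hSb : b.Sb = 0 ∨ N * R ^ 2 ≤ (b.Sb : ℝ) / 2 ^ 20)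
    (hV : b.nv = 0 ∨ R ≤ 4 / 5)
    (hnear : b.md = 3 → 1 / 4 < ‖(R : ℂ) - conj (av (uu w))‖) : False := by
  have hN1 : 1 ≤ N := by omega
  have hR := hC.hR
  have hu : ∀ k, ‖uu w k‖ ≤ 1 := hC.u_le
  have H : Hyp N (uu w) R f b.R0 b.R1 b.f0 b.f1 b.Sa :=
    ⟨hN1, hu, hR, hR0, hR1, hf, hf0, hf1, hSa⟩
  unfold chk at hc
  simp only [ev_eq, Bool.and_eq_true, Nat.ble_eq] at hc
  obtain ⟨c1, c2, c3, hc⟩ := hc
  have hI0 : Inv N (uu w) R 0 0 1099511627776 0 0 := by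
    refine ⟨?_, ?_, ?_, ?_⟩
    · simp
      norm_num
    · simp
    · simp
    · simp [qq]
  have hA0 : okA f 0 0 := by
    unfold okA
    simp
  have hA1 : 0 < nA b.f0 b.ts → okA f b.ts (nA b.f0 b.ts) := fun h => nA_le h hf0
  refine step_sound hR hR1 hSa hI0 (fun ht hw => chordA_qq H ht hA0 (hA1 hw)) hc ?_
  intro E h P hI _ hw1 hc
  have hfin : ∀ t v E h P, Inv N (uu w) R t v E h P → t ≤ 1048576 → fin b t v E h P = true →
      False := fun t v E h P hI ht hc => fin_sound hC hN hR21 H c1 hSb hnear t v E h P hI ht hc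
  have HV0 : R ≤ 4 / 5 → b.f1 ≤ 524288 → HypV N (uu w) R f b.f0 b.f1 := by
    intro hR4 c4
    refine ⟨hR4, c4, c2, ?_⟩
    intro t h0 h1
    exact qq_V hN1 hC.cfg.far hC.dist.le hR hR4 h0 h1 hf
  refine gA_sound H b.na ?_ b.ts _ E h P hI (hA1 hw1) c3 hc
  intro t w E h P hI hA ht hc
  rcases Nat.eq_zero_or_pos b.nv with h0 | h0
  · have hbq : Nat.beq b.nv 0 = true := by rw [h0]; rfl
    rw [hbq, cond_true] at hc
    exact hfin t w E h P hI ht hc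
  · have hbq : Nat.beq b.nv 0 = false := by
      rw [Bool.eq_false_iff, ne_eq, Nat.beq_eq]
      omega
    rw [hbq, cond_false] at hc
    simp only [Bool.and_eq_true, Nat.ble_eq] at hc
    obtain ⟨c4, hc⟩ := hc
    have hR4 : R ≤ 4 / 5 := by
      rcases hV with h1 | h1
      · omega
      · exact h1
    have HV := HV0 hR4 c4
    obtain ⟨v, hv⟩ : ∃ v, v = Nat.min (nA b.f0 (nx t)) (nV b.R1 b.f0 b.f1 (nx t)) := ⟨_, rfl⟩
    rw [← hv] at hc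
    have hvA : w < v → okA f (nx t) v := by
      intro hlt
      have h1 : v ≤ nA b.f0 (nx t) := by rw [hv]; exact Nat.min_le_left _ _
      have h2 := nA_le (f0 := b.f0) (t := nx t) (by omega) hf0
      unfold okA
      refine le_trans ?_ h2
      apply div_le_div_of_nonneg_right _ (by positivity)
      exact_mod_cast h1
    have hvV : okV R f (nx t) v := by
      have h1 : v ≤ nV b.R1 b.f0 b.f1 (nx t) := by rw [hv]; exact Nat.min_le_right _ _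
      have h2 := nV_le (nx_le t) c4 c2 hR hR4 hR1 hf0 hf1
      unfold okV
      refine le_trans ?_ h2
      apply div_le_div_of_nonneg_right _ (by positivity)
      exact_mod_cast h1
    refine step_sound hR hR1 hSa hI (fun ht hw => chordA_qq H ht hA (hvA hw)) hc ?_
    intro E' h' P' hI' _ hw' hc'
    exact gV_sound H HV (b.nv - 1) (fun t w E h P hI _ ht hc => hfin t w E h P hI ht hc)
      _ _ _ _ _ hI' hvV (nx_le _) hc'

end

end Pool.Agent.Lib.MP_af3a4a_an.P1.CHK.H58.S
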