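import Pool.Agent.Lib.MP_af3a4a_an.P1.CHK.H58.SL

/-!
# Piece (I), covers by boxes with a general staircase (helper58)
-/

set_option autoImplicit false

namespace Pool.Agent.Lib.MP_af3a4a_an.P1.CHK.H58.S

open Finset MeasureTheory ComplexConjugate
open Pool.Agent.Lib.MP_af3a4a_an.SV (uu av)
open Pool.Agent.Lib.MP_af3a4a_an.P1.H80 Pool.Agent.Lib.MP_af3a4a_an.P1.H74
open Pool.Agent.Lib.MP_af3a4a_an.P1.CHK.Arith

/-- staircase: the first entry `(g, s)` with `f ≤ g` -/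
def rcL (d : ℕ) : List (ℕ × ℕ) → ℕ → ℕ
  | [], _ => d
  | p :: l, f1 => bif Nat.ble f1 p.1 then p.2 else rcL d l f1

/-- consecutive intervals of `f` -/
def goF2 (d : ℕ) (rc : List (ℕ × ℕ)) (Na : ℕ) (v nr : Bool) (R0 R1 : ℕ) :
    ℕ → List (ℕ × List En) → Bool
  | f0, [] => Nat.ble 2097152 f0 || Nat.ble 1099511627776 (f0 * R0)
  | f0, p :: l => ev (Nat.max (rcL d rc p.1) (Na * (R0 * R0) / 1048576)) (fun Sa =>
      goS v nr R0 R1 f0 p.1 Sa p.2) && goF2 d rc Na v nr R0 R1 p.1 l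

/-- consecutive intervals of `R` -/
def goR2 (d : ℕ) (rc : List (ℕ × ℕ)) (Na : ℕ) (v nr : Bool) (flo Re : ℕ) :
    ℕ → List (ℕ × List (ℕ × List En)) → Bool
  | R0, [] => Nat.ble Re R0
  | R0, p :: l => goF2 d rc Na v nr R0 p.1 flo p.2 && goR2 d rc Na v nr flo Re p.1 l

theorem rcL_le {d : ℕ} {f S : ℝ} (hd : (d : ℝ) / 2 ^ 20 ≤ S) (rc : List (ℕ × ℕ))
    (h : ∀ p ∈ rc, f ≤ (p.1 : ℝ) / 2 ^ 20 → (p.2 : ℝ) / 2 ^ 20 ≤ S) (g : ℕ)
    (hg : f ≤ (g : ℝ) / 2 ^ 20) : (rcL d rc g : ℝ) / 2 ^ 20 ≤ S := by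
  induction rc with
  | nil => exact hd
  | cons p l ih =>
    unfold rcL
    by_cases hc : g ≤ p.1
    · rw [Nat.ble_eq_true_of_le hc, cond_true]
      apply h p (by simp)
      refine hg.trans ?_
      apply div_le_div_of_nonneg_right _ (by positivity)
      exact_mod_cast hc
    · have hb' : Nat.ble g p.1 = false := by
        rw [Bool.eq_false_iff, ne_eq, Nat.ble_eq]
        exact hc
      rw [hb', cond_false]
      exact ih (fun q hq => h q (by simp [hq]))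

section

variable {N : ℕ} {z w : Fin N → ℂ} {R : ℝ} {σ : Fin N → ℂ} {f : ℝ} {v nr : Bool}

theorem goF2_sound (hC : Cfg2 N z w R σ) (hN : 40 ≤ N) {Na d : ℕ} {rc : List (ℕ × ℕ)} (hNa : Na ≤ N)
    (hR21 : R ≤ 21 / 10) {R0 R1 : ℕ}
    (hR0 : (R0 : ℝ) / 2 ^ 20 ≤ R) (hR1 : R ≤ (R1 : ℝ) / 2 ^ 20)
    (hf : (av (uu w)).re = f * R) (hf2 : f ≤ 2)
    (hrc : ∀ g : ℕ, f ≤ (g : ℝ) / 2 ^ 20 → (rcL d rc g : ℝ) / 2 ^ 20 ≤ N * R ^ 2)
    (hV : v = true → R ≤ 4 / 5)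
    (hnear : nr = true → 1 / 4 < ‖(R : ℂ) - conj (av (uu w))‖) (l : List (ℕ × List En)) :
    ∀ f0 : ℕ, (f0 : ℝ) / 2 ^ 20 < f → goF2 d rc Na v nr R0 R1 f0 l = true → False := by
  induction l with
  | nil =>
    intro f0 hf0 hc
    simp only [goF2, Bool.or_eq_true, Nat.ble_eq] at hc
    rcases hc with h | h
    · have : (2097152 : ℝ) ≤ f0 := by exact_mod_cast h
      rw [div_lt_iff₀ (by positivity)] at hf0
      norm_num at hf0
      linarith
    · have h1 : (1099511627776 : ℝ) ≤ (f0 : ℝ) * R0 := by exact_mod_cast h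
      have h2 : (f0 : ℝ) / 2 ^ 20 * ((R0 : ℝ) / 2 ^ 20) ≤ (f0 : ℝ) / 2 ^ 20 * R :=
        mul_le_mul_of_nonneg_left hR0 (by positivity)
      have h3 : (f0 : ℝ) / 2 ^ 20 * R < f * R := mul_lt_mul_of_pos_right hf0 hC.hR
      have h4 : (av (uu w)).re ≤ 1 := (Complex.re_le_norm _).trans hC.av_le
      rw [hf] at h4
      have e : (f0 : ℝ) / 2 ^ 20 * ((R0 : ℝ) / 2 ^ 20) = (f0 : ℝ) * R0 / 2 ^ 40 := by ring
      rw [e] at h2
      have h5 : 1 ≤ (f0 : ℝ) * R0 / 2 ^ 40 := by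
        rw [le_div_iff₀ (by positivity)]
        norm_num
        linarith
      linarith
  | cons p l ih =>
    intro f0 hf0 hc
    simp only [goF2, ev_eq, Bool.and_eq_true] at hc
    obtain ⟨c1, c2⟩ := hc
    rcases le_or_gt f ((p.1 : ℝ) / 2 ^ 20) with h | h
    · refine goS_sound hC hN hR21 hR0 hR1 hf hf0.le h hV hnear p.2 _ ?_ c1
      have h1 := hrc p.1 h
      have h2 : (((Na * (R0 * R0) / 1048576 : ℕ)) : ℝ) / 2 ^ 20 ≤ N * R ^ 2 := by
        have h3 := div_le_real (Na * (R0 * R0)) 1048576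
        have h4 : (Na : ℝ) * ((R0 : ℝ) / 2 ^ 20) ^ 2 ≤ N * R ^ 2 := by
          apply mul_le_mul _ (pow_le_pow_left₀ (by positivity) hR0 2) (by positivity)
            (Nat.cast_nonneg N)
          exact_mod_cast hNa
        refine le_trans ?_ h4
        have h5 := div_le_div_of_nonneg_right h3 (by positivity : (0 : ℝ) ≤ 2 ^ 20)
        refine h5.trans (le_of_eq ?_)
        push_cast
        norm_num
        ring
      rcases Nat.le_total (rcL d rc p.1) (Na * (R0 * R0) / 1048576) with h6 | h6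
      · have : Nat.max (rcL d rc p.1) (Na * (R0 * R0) / 1048576) = Na * (R0 * R0) / 1048576 :=
          Nat.max_eq_right h6
        rw [this]
        exact h2
      · have : Nat.max (rcL d rc p.1) (Na * (R0 * R0) / 1048576) = rcL d rc p.1 := Nat.max_eq_left h6
        rw [this]
        exact h1
    · exact ih p.1 h c2

theorem goR2_sound (hC : Cfg2 N z w R σ) (hN : 40 ≤ N) {Na d : ℕ} {rc : List (ℕ × ℕ)} (hNa : Na ≤ N)
    (hR21 : R ≤ 21 / 10) (hf : (av (uu w)).re = f * R) (hf2 : f ≤ 2)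
    (hrc : ∀ g : ℕ, f ≤ (g : ℝ) / 2 ^ 20 → (rcL d rc g : ℝ) / 2 ^ 20 ≤ N * R ^ 2)
    (hV : v = true → R ≤ 4 / 5)
    (hnear : nr = true → 1 / 4 < ‖(R : ℂ) - conj (av (uu w))‖) {flo Re : ℕ}
    (hflo : (flo : ℝ) / 2 ^ 20 < f) (hRe : R < (Re : ℝ) / 2 ^ 20)
    (l : List (ℕ × List (ℕ × List En))) :
    ∀ R0 : ℕ, (R0 : ℝ) / 2 ^ 20 ≤ R → goR2 d rc Na v nr flo Re R0 l = true → False := by
  induction l with
  | nil =>
    intro R0 hR0 hc
    simp only [goR2, Nat.ble_eq] at hc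
    have h1 : (Re : ℝ) / 2 ^ 20 ≤ (R0 : ℝ) / 2 ^ 20 := by
      apply div_le_div_of_nonneg_right _ (by positivity)
      exact_mod_cast hc
    linarith
  | cons p l ih =>
    intro R0 hR0 hc
    simp only [goR2, Bool.and_eq_true] at hc
    obtain ⟨c1, c2⟩ := hc
    rcases le_total R ((p.1 : ℝ) / 2 ^ 20) with h | h
    · exact goF2_sound hC hN hNa hR21 hR0 h hf hf2 hrc hV hnear p.2 flo hflo c1
    · exact ih p.1 h c2

end

end Pool.Agent.Lib.MP_af3a4a_an.P1.CHK.H58.S
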