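import Pool.Agent.Lib.MP_af3a4a_an.P1.CHK.H58.SL2

/-!
# The staircase of C0 for `N ≥ 250` (helper58)
-/

set_option autoImplicit false

namespace Pool.Agent.Lib.MP_af3a4a_an.P1.CHK.H58.S

def rc250 : List (ℕ × ℕ) := [(83886, 20300431), (125829, 18937282), (167772, 17626562),
  (209715, 16777216), (262144, 15539896), (346030, 13967032), (440401, 12478054),
  (524288, 11418992), (629145, 10401873)]

end Pool.Agent.Lib.MP_af3a4a_an.P1.CHK.H58.S
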