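import Pool.Agent.Lib.MP_af3a4a_an.P1.CHK.H58.SE
import Pool.Agent.Lib.MP_af3a4a_an.P1.CHK.H58.SD

/-!
# Piece (I), soundness of the box checker (helper58)
-/

set_option autoImplicit false

namespace Pool.Agent.Lib.MP_af3a4a_an.P1.CHK.H58.S

open Finset MeasureTheory ComplexConjugate
open Pool.Agent.Lib.MP_af3a4a_an.SV (uu av)
open Pool.Agent.Lib.MP_af3a4a_an.P1.H80 Pool.Agent.Lib.MP_af3a4a_an.P1.H74
open Pool.Agent.Lib.MP_af3a4a_an.P1.CHK.Arith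

/-! ### nodes -/

theorem nA_le {f0 t : ℕ} (h : 1 ≤ nA f0 t) {f : ℝ} (hf : (f0 : ℝ) / 2 ^ 20 ≤ f) :
    (nA f0 t : ℝ) / 2 ^ 40 ≤ (t : ℝ) / 2 ^ 20 * f - ((t : ℝ) / 2 ^ 20) ^ 2 / 2 := by
  unfold nA at h ⊢
  have h1 : (t * t + 1) / 2 ≤ t * f0 := by omega
  rw [Nat.cast_sub h1]
  have h2 : t * t ≤ 2 * ((t * t + 1) / 2) := by omega
  have h3 : (t : ℝ) * t ≤ 2 * (((t * t + 1) / 2 : ℕ) : ℝ) := by exact_mod_cast h2
  have h4 : (t : ℝ) / 2 ^ 20 * (f0 / 2 ^ 20) ≤ (t : ℝ) / 2 ^ 20 * f :=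
    mul_le_mul_of_nonneg_left hf (by positivity)
  rw [Nat.cast_mul]
  refine le_trans ?_ (sub_le_sub_right h4 _)
  rw [div_le_iff₀ (by positivity)]
  have e : ((t : ℝ) / 2 ^ 20 * (f0 / 2 ^ 20) - ((t : ℝ) / 2 ^ 20) ^ 2 / 2) * 2 ^ 40 =
      t * f0 - t * t / 2 := by
    ring
  rw [e]
  linarith

theorem nV_le {R1 f0 f1 t : ℕ} (ht : t ≤ 1048576) (hf1' : f1 ≤ 524288) (hf01 : f0 ≤ f1)
    {R f : ℝ} (hR : 0 < R) (hR4 : R ≤ 4 / 5) (hR1 : R ≤ (R1 : ℝ) / 2 ^ 20)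
    (hf0 : (f0 : ℝ) / 2 ^ 20 ≤ f) (hf1 : f ≤ (f1 : ℝ) / 2 ^ 20) :
    (nV R1 f0 f1 t : ℝ) / 2 ^ 40 ≤ wV R f ((t : ℝ) / 2 ^ 20) -
      (1 - 2 * f) * (((t : ℝ) / 2 ^ 20) ^ 2 / 512) := by
  unfold nV
  simp only [ev_eq]
  obtain ⟨τ, hτ⟩ : ∃ τ, τ = (t : ℝ) / 2 ^ 20 := ⟨_, rfl⟩
  have htc : (t : ℝ) ≤ 1048576 := by exact_mod_cast ht
  have hτ0 : 0 ≤ τ := by rw [hτ]; positivity
  have hτ1 : τ ≤ 1 := by
    rw [hτ, div_le_one (by positivity)]
    linarith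
  rw [← hτ]
  have htt : (t : ℝ) = τ * 2 ^ 20 := by rw [hτ]; field_simp
  obtain ⟨H, hH⟩ : ∃ H, H = 3 * (t * t) * 1099511627776 / (6597069766656 + 4 * (t * R1)) -
    (t * t / 512 + 1) := ⟨_, rfl⟩
  obtain ⟨K, hK⟩ : ∃ K, K = t * (1048576 - t) * 1208925819614629174706176 /
      ((1099511627776 + t * R1) * (1099511627776 + t * R1)) := ⟨_, rfl⟩
  rw [← hH, ← hK]
  have hf1r : f ≤ 1 / 2 := by
    refine hf1.trans ?_
    have : (f1 : ℝ) ≤ 524288 := by exact_mod_cast hf1'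
    rw [div_le_iff₀ (by positivity)]
    linarith
  have hf0r : 0 ≤ f := le_trans (by positivity) hf0
  have hHr : (H : ℝ) / 2 ^ 40 ≤ hV (τ * R) / R ^ 2 - τ ^ 2 / 512 := by
    rw [div_le_iff₀ (by positivity), hH]
    have h1 := hV_div hR hτ0 (le_refl R)
    have h2 := hV_div hR hτ0 hR1
    apply cast_sub_le
    · apply mul_nonneg _ (by positivity)
      have h3 : 3 * τ ^ 2 / 10 ≤ 3 * τ ^ 2 / (6 + 4 * (τ * R)) := by
        apply div_le_div_of_nonneg_left (by positivity) (by positivity)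
        nlinarith
      nlinarith [sq_nonneg τ]
    · have h3 := div_le_real (3 * (t * t) * 1099511627776) (6597069766656 + 4 * (t * R1))
      have h4 := real_le_div (t * t) 512 (by norm_num)
      have h5 : (((3 * (t * t) * 1099511627776 : ℕ) : ℝ)) /
          ((6597069766656 + 4 * (t * R1) : ℕ) : ℝ) = 3 * τ ^ 2 / (6 + 4 * (τ * (R1 / 2 ^ 20))) *
          2 ^ 40 := by
        have h6 : (((6597069766656 + 4 * (t * R1) : ℕ) : ℝ)) =
            (6 + 4 * (τ * (R1 / 2 ^ 20))) * 2 ^ 40 := by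
          push_cast
          rw [htt]
          ring
        have h7 : 0 < 6 + 4 * (τ * (R1 / 2 ^ 20)) := by positivity
        rw [h6]
        push_cast
        rw [htt]
        field_simp
        ring
      rw [h5] at h3
      push_cast at h4 ⊢
      have h8 : (t : ℝ) * t / 512 = τ ^ 2 / 512 * 2 ^ 40 := by rw [htt]; ring
      rw [h8] at h4
      push_cast at h3
      nlinarith
  have hKr : (K : ℝ) / 2 ^ 40 ≤ τ * (1 - τ) / (1 + τ * R) ^ 2 := by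
    have h3 := div_le_real (t * (1048576 - t) * 1208925819614629174706176)
      ((1099511627776 + t * R1) * (1099511627776 + t * R1))
    rw [← hK] at h3
    have h7 : 0 < 1 + τ * (R1 / 2 ^ 20) := by positivity
    have h5 : ((t * (1048576 - t) * 1208925819614629174706176 : ℕ) : ℝ) /
        (((1099511627776 + t * R1) * (1099511627776 + t * R1) : ℕ) : ℝ) =
        τ * (1 - τ) / (1 + τ * (R1 / 2 ^ 20)) ^ 2 * 2 ^ 40 := by
      have h6 : ((((1099511627776 + t * R1) * (1099511627776 + t * R1) : ℕ) : ℝ)) =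
          (1 + τ * (R1 / 2 ^ 20)) ^ 2 * 2 ^ 80 := by
        push_cast
        rw [htt]
        ring
      rw [h6, Nat.cast_mul, Nat.cast_mul, Nat.cast_sub ht]
      push_cast
      rw [htt]
      field_simp
      ring
    rw [h5] at h3
    rw [div_le_iff₀ (by positivity)]
    refine h3.trans ?_
    apply mul_le_mul_of_nonneg_right _ (by positivity)
    apply div_le_div_of_nonneg_left _ (by positivity)
    · apply pow_le_pow_left₀ (by positivity)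
      have := mul_le_mul_of_nonneg_left hR1 hτ0
      linarith
    · apply mul_nonneg hτ0
      linarith
  have hval : ∀ g : ℕ, g ≤ 524288 → ((((1048576 - 2 * g) * H + g * K) / 1048576 : ℕ) : ℝ) / 2 ^ 40 ≤
      (1 - 2 * ((g : ℝ) / 2 ^ 20)) * (H / 2 ^ 40) + g / 2 ^ 20 * (K / 2 ^ 40) := by
    intro g hg
    have h1 := div_le_real ((1048576 - 2 * g) * H + g * K) 1048576
    rw [Nat.cast_add, Nat.cast_mul, Nat.cast_sub (by omega)] at h1
    push_cast at h1 ⊢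
    rw [div_le_iff₀ (by positivity)]
    refine h1.trans (le_of_eq ?_)
    ring
  have hmin : ((Nat.min (((1048576 - 2 * f0) * H + f0 * K) / 1048576)
        (((1048576 - 2 * f1) * H + f1 * K) / 1048576) : ℕ) : ℝ) / 2 ^ 40 ≤
      (1 - 2 * f) * (H / 2 ^ 40) + f * (K / 2 ^ 40) := by
    have h0 := hval f0 (by omega)
    have h1 := hval f1 hf1'
    have m0 : ((Nat.min (((1048576 - 2 * f0) * H + f0 * K) / 1048576)
        (((1048576 - 2 * f1) * H + f1 * K) / 1048576) : ℕ) : ℝ) / 2 ^ 40 ≤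
        ((((1048576 - 2 * f0) * H + f0 * K) / 1048576 : ℕ) : ℝ) / 2 ^ 40 := by
      apply div_le_div_of_nonneg_right _ (by positivity)
      exact_mod_cast Nat.min_le_left _ _
    have m1 : ((Nat.min (((1048576 - 2 * f0) * H + f0 * K) / 1048576)
        (((1048576 - 2 * f1) * H + f1 * K) / 1048576) : ℕ) : ℝ) / 2 ^ 40 ≤
        ((((1048576 - 2 * f1) * H + f1 * K) / 1048576 : ℕ) : ℝ) / 2 ^ 40 := by
      apply div_le_div_of_nonneg_right _ (by positivity)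
      exact_mod_cast Nat.min_le_right _ _
    rcases le_total 0 ((K : ℝ) / 2 ^ 40 - 2 * (H / 2 ^ 40)) with hs | hs
    · refine (m0.trans h0).trans ?_
      have := mul_le_mul_of_nonneg_right hf0 hs
      linarith
    · refine (m1.trans h1).trans ?_
      have := mul_le_mul_of_nonpos_right hf1 hs
      linarith
  refine hmin.trans ?_
  unfold wV
  have a1 := mul_le_mul_of_nonneg_left hHr (by linarith : 0 ≤ 1 - 2 * f)
  have a2 := mul_le_mul_of_nonneg_left hKr hf0r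
  linarith

theorem nx_le (t : ℕ) : nx t ≤ 1048576 := Nat.min_le_right _ _

theorem nx_gap (t : ℕ) : ((nx t : ℕ) : ℝ) - t ≤ t / 8 := by
  have h1 : nx t ≤ t + t / 8 := Nat.min_le_left _ _
  have h2 : ((nx t : ℕ) : ℝ) ≤ t + ((t / 8 : ℕ) : ℝ) := by exact_mod_cast h1
  have h3 := div_le_real t 8
  push_cast at h3
  linarith

theorem eS_le {N : ℕ} {R : ℝ} {Sa w : ℕ} (hS : (Sa : ℝ) / 2 ^ 20 ≤ N * R ^ 2) :
    Real.exp (-(N * R ^ 2 * ((w : ℝ) / 2 ^ 40))) ≤ (eS Sa w : ℝ) / 2 ^ 40 := by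
  unfold eS
  simp only [ev_eq]
  refine le_trans ?_ (em_spec _)
  apply Real.exp_le_exp.2
  rw [neg_le_neg_iff]
  have h1 : ((Nat.min ((Sa * w) >>> 20) 70368744177664 : ℕ) : ℝ) ≤ (((Sa * w) >>> 20 : ℕ) : ℝ) := by
    exact_mod_cast Nat.min_le_left _ _
  have h2 := shr_le (Sa * w) 20
  have h3 : ((Sa : ℝ) / 2 ^ 20) * ((w : ℝ) / 2 ^ 40) ≤ N * R ^ 2 * ((w : ℝ) / 2 ^ 40) :=
    mul_le_mul_of_nonneg_right hS (by positivity)
  refine le_trans ?_ h3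
  rw [Nat.cast_mul] at h2
  rw [div_mul_div_comm, div_le_div_iff₀ (by positivity) (by positivity)]
  rw [le_div_iff₀ (by positivity)] at h2
  have := h1
  nlinarith

/-! ### the invariant -/

structure Inv (N : ℕ) (u : Fin N → ℂ) (R : ℝ) (t w E h P : ℕ) : Prop where
  hE : Real.exp (-(N * R ^ 2 * ((w : ℝ) / 2 ^ 40))) ≤ (E : ℝ) / 2 ^ 40
  hJ : (N : ℝ) * ∫ x in (0 : ℝ)..((t : ℝ) / 2 ^ 20 * R), x / (1 - x ^ 2) * ‖qq u x‖ ≤
    (P : ℝ) / 2 ^ 40 - (h : ℝ) / 2 ^ 40 * Real.exp (-(N * R ^ 2 * ((w : ℝ) / 2 ^ 40)))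
  ht : (t : ℝ) / 2 ^ 20 * R < 1
  hq : ‖qq u ((t : ℝ) / 2 ^ 20 * R)‖ ≤ Real.exp (-(N * R ^ 2 * ((w : ℝ) / 2 ^ 40)))

theorem step_sound {Q : Prop} {N : ℕ} {u : Fin N → ℂ} {R : ℝ} {R1 Sa t w E h P t' w' : ℕ}
    {k : ℕ → ℕ → ℕ → Bool} (hR : 0 < R) (hR1 : R ≤ (R1 : ℝ) / 2 ^ 20)
    (hS : (Sa : ℝ) / 2 ^ 20 ≤ N * R ^ 2) (hI : Inv N u R t w E h P)
    (hq : t < t' → w < w' → ∀ s ∈ Set.Icc ((t : ℝ) / 2 ^ 20) ((t' : ℝ) / 2 ^ 20), ‖qq u (s * R)‖ ≤
      Real.exp (-(N * R ^ 2 * ((w : ℝ) / 2 ^ 40 + ((w' : ℝ) / 2 ^ 40 - (w : ℝ) / 2 ^ 40) *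
        ((s - (t : ℝ) / 2 ^ 20) / ((t' : ℝ) / 2 ^ 20 - (t : ℝ) / 2 ^ 20))))))
    (hc : step R1 Sa t w E h P t' w' k = true)
    (hk : ∀ E' h' P', Inv N u R t' w' E' h' P' → t < t' → w < w' → k E' h' P' = true → Q) : Q := by
  unfold step at hc
  simp only [ev_eq, Bool.and_eq_true, Nat.ble_eq] at hc
  obtain ⟨htt, hww, hD, hc⟩ := hc
  have htt' : t < t' := htt
  have hww' : w < w' := hww
  obtain ⟨D, hDd⟩ : ∃ D, D = 1099511627776 - (((R1 * t') * (R1 * t')) >>> 40 + 1) := ⟨_, rfl⟩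
  rw [← hDd] at hc hD
  obtain ⟨φ, hφ⟩ : ∃ φ, φ = t' * (t' - t) * 1208925819614629174706176 / (D * (w' - w)) + 1 :=
    ⟨_, rfl⟩
  rw [← hφ] at hc
  obtain ⟨h', hh'⟩ : ∃ h', h' = Nat.max h φ := ⟨_, rfl⟩
  rw [← hh'] at hc
  have hq' := hq htt' hww'
  refine hk _ _ _ ?_ htt' hww' hc
  have ha : (t : ℝ) / 2 ^ 20 < (t' : ℝ) / 2 ^ 20 := by
    apply div_lt_div_of_pos_right _ (by positivity)
    exact_mod_cast htt'
  have hb : (w : ℝ) / 2 ^ 40 < (w' : ℝ) / 2 ^ 40 := by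
    apply div_lt_div_of_pos_right _ (by positivity)
    exact_mod_cast hww'
  obtain ⟨τ, hτ⟩ : ∃ τ, τ = (t : ℝ) / 2 ^ 20 := ⟨_, rfl⟩
  obtain ⟨τ', hτ'⟩ : ∃ τ', τ' = (t' : ℝ) / 2 ^ 20 := ⟨_, rfl⟩
  obtain ⟨ω, hω⟩ : ∃ ω, ω = (w : ℝ) / 2 ^ 40 := ⟨_, rfl⟩
  obtain ⟨ω', hω'⟩ : ∃ ω', ω' = (w' : ℝ) / 2 ^ 40 := ⟨_, rfl⟩
  obtain ⟨ρ, hρ⟩ : ∃ ρ, ρ = (R1 : ℝ) / 2 ^ 20 := ⟨_, rfl⟩
  have hJ := hI.hJ
  have hE := hI.hE
  rw [← hτ, ← hω] at hJ
  rw [← hω] at hE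
  rw [← hτ, ← hτ', ← hω, ← hω'] at hq'
  rw [← hτ, ← hτ'] at ha
  rw [← hω, ← hω'] at hb
  rw [← hρ] at hR1
  have hτ0 : 0 ≤ τ := by rw [hτ]; positivity
  have hτ0' : 0 ≤ τ' := by rw [hτ']; positivity
  have hρ0 : 0 ≤ ρ := by rw [hρ]; positivity
  -- the denominator
  have hDr : (D : ℝ) / 2 ^ 40 ≤ 1 - (ρ * τ') ^ 2 := by
    have h1 := le_shr ((R1 * t') * (R1 * t')) 40
    have h2 : ((R1 * t') * (R1 * t')) >>> 40 + 1 ≤ 1099511627776 := by omega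
    rw [hDd, Nat.cast_sub h2]
    have e : (ρ * τ') ^ 2 = (((R1 * t') * (R1 * t') : ℕ) : ℝ) / 2 ^ 40 / 2 ^ 40 := by
      rw [hρ, hτ']
      push_cast
      ring
    rw [e, div_le_iff₀ (by positivity), sub_mul, div_mul_cancel₀ _ (by positivity)]
    norm_num at h1 ⊢
    linarith
  have hD0 : 0 < (D : ℝ) / 2 ^ 40 := by
    have : (0 : ℝ) < D := by exact_mod_cast hD
    positivity
  have hρτ : ρ * τ' < 1 := by
    by_contra hcon
    have h1 : 1 ≤ ρ * τ' := not_lt.1 hcon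
    nlinarith
  have ht1 : τ' * R < 1 := by
    have : τ' * R ≤ τ' * ρ := mul_le_mul_of_nonneg_left hR1 hτ0'
    linarith
  have hDR : (D : ℝ) / 2 ^ 40 ≤ 1 - (R * τ') ^ 2 := by
    have h1 : (R * τ') ^ 2 ≤ (ρ * τ') ^ 2 :=
      pow_le_pow_left₀ (by positivity) (mul_le_mul_of_nonneg_right hR1 hτ0') 2
    linarith
  -- φ
  have hφr : τ' * (τ' - τ) ≤ (φ : ℝ) / 2 ^ 40 * (ω' - ω) * (1 - (R * τ') ^ 2) := by
    have hden : 0 < D * (w' - w) := Nat.mul_pos hD (Nat.sub_pos_of_lt hww')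
    have h1 := real_le_div (t' * (t' - t) * 1208925819614629174706176) (D * (w' - w)) hden
    rw [← hφ, Nat.cast_mul, Nat.cast_mul, Nat.cast_sub htt'.le, Nat.cast_mul,
      Nat.cast_sub hww'.le] at h1
    have hd1 : (0 : ℝ) < (D : ℝ) * ((w' : ℝ) - w) := by
      apply mul_pos
      · exact_mod_cast hD
      · rw [sub_pos]
        exact_mod_cast hww'
    rw [div_le_iff₀ hd1] at h1
    have h2 : τ' * (τ' - τ) ≤ (φ : ℝ) / 2 ^ 40 * (ω' - ω) * (D / 2 ^ 40) := by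
      have e1 : τ' * (τ' - τ) = (t' : ℝ) * (t' - t) * 1208925819614629174706176 / 2 ^ 120 := by
        rw [hτ, hτ']
        norm_num
        ring
      have e2 : (φ : ℝ) / 2 ^ 40 * (ω' - ω) * (D / 2 ^ 40) =
          φ * (D * ((w' : ℝ) - w)) / 2 ^ 120 := by
        rw [hω, hω']
        ring
      rw [e1, e2]
      apply div_le_div_of_nonneg_right _ (by positivity)
      exact_mod_cast h1
    refine h2.trans ?_
    apply mul_le_mul_of_nonneg_left hDR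
    apply mul_nonneg (by positivity)
    linarith
  have hcell := cell_int (N := N) (u := u) hR hτ0 ha ht1 hb
    (by positivity : (0 : ℝ) ≤ (φ : ℝ) / 2 ^ 40) hq' hφr
  have hφh : (φ : ℝ) ≤ h' := by
    rw [hh']
    exact_mod_cast Nat.le_max_right _ _
  have hhh : h ≤ h' := by
    rw [hh']
    exact Nat.le_max_left _ _
  refine ⟨eS_le hS, ?_, ?_, ?_⟩
  · rw [← hτ', ← hω']
    have hsplit : (N : ℝ) * ∫ x in (0 : ℝ)..(τ' * R), x / (1 - x ^ 2) * ‖qq u x‖ =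
        (N : ℝ) * (∫ x in (0 : ℝ)..(τ * R), x / (1 - x ^ 2) * ‖qq u x‖) +
        N * ∫ x in (τ * R)..(τ' * R), x / (1 - x ^ 2) * ‖qq u x‖ := by
      rw [← mul_add, intervalIntegral.integral_add_adjacent_intervals]
      · apply ContinuousOn.intervalIntegrable
        rw [Set.uIcc_of_le (by positivity)]
        apply ContinuousOn.mul _ (qq_cont u).norm.continuousOn
        apply ContinuousOn.div continuousOn_id (by fun_prop)
        intro x hx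
        have h5 : x < 1 := by
          have : τ * R ≤ τ' * R := mul_le_mul_of_nonneg_right ha.le hR.le
          linarith [hx.2]
        have := hx.1
        nlinarith
      · apply ContinuousOn.intervalIntegrable
        rw [Set.uIcc_of_le (mul_le_mul_of_nonneg_right ha.le hR.le)]
        apply ContinuousOn.mul _ (qq_cont u).norm.continuousOn
        apply ContinuousOn.div continuousOn_id (by fun_prop)
        intro x hx
        have h5 : x < 1 := by linarith [hx.2]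
        have h6 : 0 ≤ x := le_trans (mul_nonneg hτ0 hR.le) hx.1
        nlinarith
    rw [hsplit]
    have hdiff : Real.exp (-(N * R ^ 2 * ω')) ≤ Real.exp (-(N * R ^ 2 * ω)) := by
      apply Real.exp_le_exp.2
      rw [neg_le_neg_iff]
      exact mul_le_mul_of_nonneg_left hb.le (by positivity)
    generalize Real.exp (-(N * R ^ 2 * ω')) = e' at *
    generalize Real.exp (-(N * R ^ 2 * ω)) = e0 at *
    have h1 : (φ : ℝ) / 2 ^ 40 * (e0 - e') ≤ (h' : ℝ) / 2 ^ 40 * (e0 - e') := by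
      apply mul_le_mul_of_nonneg_right _ (by linarith)
      apply div_le_div_of_nonneg_right hφh (by positivity)
    have h2 := le_mU (h' - h) E
    rw [Nat.cast_sub hhh] at h2
    have h3 : ((h' : ℝ) - h) / 2 ^ 40 * e0 ≤ ((h' : ℝ) - h) / 2 ^ 40 * (E / 2 ^ 40) := by
      apply mul_le_mul_of_nonneg_left hE
      apply div_nonneg _ (by positivity)
      rw [sub_nonneg]
      exact_mod_cast hhh
    rw [Nat.cast_add]
    have e : (h' : ℝ) / 2 ^ 40 * e0 = (h : ℝ) / 2 ^ 40 * e0 + ((h' : ℝ) - h) / 2 ^ 40 * e0 := by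
      ring
    have e5 : ((P : ℝ) + (mU (h' - h) E : ℕ)) / 2 ^ 40 = (P : ℝ) / 2 ^ 40 +
      ((mU (h' - h) E : ℕ) : ℝ) / 2 ^ 40 := add_div _ _ _
    rw [e5]
    linarith
  · rw [← hτ']
    exact ht1
  · rw [← hτ', ← hω']
    have := hq' τ' ⟨ha.le, le_rfl⟩
    rw [div_self (sub_pos.2 ha).ne', mul_one] at this
    refine this.trans (le_of_eq ?_)
    congr 3
    ring

end Pool.Agent.Lib.MP_af3a4a_an.P1.CHK.H58.S
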