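import Pool.Agent.Lib.MP_af3a4a_an.P1.H74.C0
import Pool.Agent.Lib.MP_af3a4a_an.P1.H74.Near
import Pool.Agent.Lib.MP_af3a4a_an.P1.CHK.H58.SX1
import Pool.Agent.Lib.MP_af3a4a_an.P1.CHK.H58.SX2
import Pool.Agent.Lib.MP_af3a4a_an.P1.CHK.H58.SX3
import Pool.Agent.Lib.MP_af3a4a_an.P1.CHK.H58.SX4

/-!
# Piece (I): `N ≥ 400`, `R ≤ 4/5, m₁ ≥ R/25` and `4/5 ≤ R ≤ 21/10, m₁ ≥ 9R/20` (helper58)
-/

set_option autoImplicit false

namespace Pool.Agent.Lib.MP_af3a4a_an.P1.CHK.H58.S

open Finset MeasureTheory ComplexConjugate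
open Pool.Agent.Lib.MP_af3a4a_an.SV (uu av)
open Pool.Agent.Lib.MP_af3a4a_an.P1.H80 Pool.Agent.Lib.MP_af3a4a_an.P1.H74

theorem int_xexp {κ y : ℝ} (hκ : 0 < κ) (hy : 0 ≤ y) :
    ∫ x in (0 : ℝ)..y, x * Real.exp (-(κ * x)) ≤ 1 / κ ^ 2 := by
  have hd : ∀ x : ℝ, HasDerivAt (fun x => -((x / κ + 1 / κ ^ 2) * Real.exp (-(κ * x))))
      (x * Real.exp (-(κ * x))) x := by
    intro x
    have h1 : HasDerivAt (fun x : ℝ => -(κ * x)) (-κ) x := by
      exact (((hasDerivAt_id x).const_mul κ).neg).congr_deriv (by simp)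
    have h2 : HasDerivAt (fun x : ℝ => x / κ + 1 / κ ^ 2) (1 / κ) x := by
      have := ((hasDerivAt_id x).div_const κ).add_const (1 / κ ^ 2)
      simpa using this
    refine (h2.mul h1.exp).neg.congr_deriv ?_
    field_simp
    ring
  have hc : Continuous fun x : ℝ => x * Real.exp (-(κ * x)) := by fun_prop
  rw [intervalIntegral.integral_eq_sub_of_hasDerivAt (fun x _ => hd x)
    (hc.intervalIntegrable _ _)]
  have h3 : 0 ≤ (y / κ + 1 / κ ^ 2) * Real.exp (-(κ * y)) := by positivity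
  simp only [mul_zero, neg_zero, Real.exp_zero, zero_div, zero_add, mul_one]
  linarith

section

variable {N : ℕ} {z w : Fin N → ℂ} {R : ℝ} {σ : Fin N → ℂ}

/-- the closed form for `m₁ ≥ 2 R` -/
theorem big_f (hN : 400 ≤ N) (hC : Cfg2 N z w R σ) (hf : 2 * R ≤ (av (uu w)).re)
    (hS : 9 ≤ (N : ℝ) * R ^ 2) : False := by
  have hN' : (400 : ℝ) ≤ N := by exact_mod_cast hN
  have hN1 : 1 ≤ N := by omega
  have hR := hC.hR
  obtain ⟨m1, hm1⟩ : ∃ m1, m1 = (av (uu w)).re := ⟨_, rfl⟩
  have hm : m1 ≤ 1 := by rw [hm1]; exact (Complex.re_le_norm _).trans hC.av_le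
  rw [← hm1] at hf
  have hR2 : R ≤ 1 / 2 := by linarith
  obtain ⟨κ, hκ⟩ : ∃ κ, κ = N * (m1 - R / 2) := ⟨_, rfl⟩
  have hκ0 : 0 < κ := by
    rw [hκ]
    apply mul_pos (by linarith)
    linarith
  have hqx : ∀ x ∈ Set.Icc (0 : ℝ) R, ‖qq (uu w) x‖ ≤ Real.exp (-(κ * x)) := by
    intro x hx
    refine (qq_A hN1 hC.u_le x).trans ?_
    apply Real.exp_le_exp.2
    rw [neg_le_neg_iff, ← hm1, hκ]
    have h1 : x ^ 2 / 2 ≤ x * R / 2 := by
      have := mul_le_mul_of_nonneg_left hx.2 hx.1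
      linarith
    have h2 : x * (m1 - R / 2) ≤ x * m1 - x ^ 2 / 2 := by linarith
    have := mul_le_mul_of_nonneg_left h2 (by linarith : (0 : ℝ) ≤ N)
    linarith
  have hΦ : (N : ℝ) * ∫ x in (0 : ℝ)..R, x / (1 - x ^ 2) * ‖qq (uu w) x‖ ≤ 7 / 100 := by
    have h1 : ∫ x in (0 : ℝ)..R, x / (1 - x ^ 2) * ‖qq (uu w) x‖ ≤
        ∫ x in (0 : ℝ)..R, 4 / 3 * (x * Real.exp (-(κ * x))) := by
      apply intervalIntegral.integral_mono_on hR.le
      · apply ContinuousOn.intervalIntegrable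
        rw [Set.uIcc_of_le hR.le]
        apply ContinuousOn.mul _ (qq_cont _).norm.continuousOn
        apply ContinuousOn.div continuousOn_id (by fun_prop)
        intro x hx
        have h5 : x ≤ 1 / 2 := hx.2.trans hR2
        have := hx.1
        nlinarith
      · apply Continuous.intervalIntegrable
        fun_prop
      · intro x hx
        have h0 := hx.1
        have h5 : x ≤ 1 / 2 := hx.2.trans hR2
        have h6 : 0 < 1 - x ^ 2 := by nlinarith
        have h7 : x / (1 - x ^ 2) ≤ 4 / 3 * x := by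
          rw [div_le_iff₀ h6]
          have h8 : x ^ 2 ≤ 1 / 4 := by nlinarith
          nlinarith
        calc x / (1 - x ^ 2) * ‖qq (uu w) x‖ ≤ 4 / 3 * x * Real.exp (-(κ * x)) :=
              mul_le_mul h7 (hqx x hx) (norm_nonneg _) (by positivity)
          _ = _ := by ring
    rw [intervalIntegral.integral_const_mul] at h1
    have h2 := int_xexp hκ0 hR.le
    have h3 : N * (4 / 3 * (1 / κ ^ 2)) ≤ 7 / 100 := by
      have h4 : 81 / 4 ≤ N * (m1 - R / 2) ^ 2 := by
        have h5 : (3 / 2 * R) ^ 2 ≤ (m1 - R / 2) ^ 2 := by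
          apply pow_le_pow_left₀ (by positivity)
          linarith
        have h6 := mul_le_mul_of_nonneg_left h5 (by linarith : (0 : ℝ) ≤ N)
        nlinarith
      have h5 : 0 < (m1 - R / 2) ^ 2 := by
        apply pow_pos
        linarith
      have h7 : (N : ℝ) * (4 / 3 * (1 / κ ^ 2)) = 4 / 3 / (N * (m1 - R / 2) ^ 2) := by
        rw [hκ]
        have : m1 - R / 2 ≠ 0 := by
          intro h0
          rw [h0] at h5
          simp at h5
        have hN0 : (N : ℝ) ≠ 0 := by positivity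
        field_simp
      rw [h7, div_le_iff₀ (by linarith)]
      linarith
    have h4 := mul_le_mul_of_nonneg_left h1 (by linarith : (0 : ℝ) ≤ N)
    have h5 := mul_le_mul_of_nonneg_left h2 (by positivity : (0 : ℝ) ≤ (N : ℝ) * (4 / 3))
    linarith
  have hm0 : av (uu w) ≠ 0 := by
    intro h0
    rw [h0, Complex.zero_re] at hm1
    linarith
  have hq : ‖1 - (R : ℂ) * av (uu w)‖ * ‖qq (uu w) R‖ ≤ 1 - 99 / 100 := by
    have h1 : ‖1 - (R : ℂ) * av (uu w)‖ ≤ 1 := by
      have h2 : ‖1 - (R : ℂ) * av (uu w)‖ ^ 2 ≤ 1 := by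
        have h3 : ‖1 - (R : ℂ) * av (uu w)‖ ^ 2 = 1 - 2 * R * (av (uu w)).re +
            R ^ 2 * ‖av (uu w)‖ ^ 2 := by
          rw [norm_sq_re_im, norm_sq_re_im]
          simp only [Complex.sub_re, Complex.sub_im, Complex.mul_re, Complex.mul_im,
            Complex.one_re, Complex.one_im, Complex.ofReal_re, Complex.ofReal_im]
          ring
        have h4 : ‖av (uu w)‖ ^ 2 ≤ 1 := by
          have := norm_nonneg (av (uu w))
          have := hC.av_le
          nlinarith
        rw [h3, ← hm1]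
        have h5 : R ^ 2 * ‖av (uu w)‖ ^ 2 ≤ R ^ 2 * 1 := mul_le_mul_of_nonneg_left h4 (sq_nonneg R)
        have h6 := mul_le_mul_of_nonneg_left hf hR.le
        nlinarith
      nlinarith [norm_nonneg (1 - (R : ℂ) * av (uu w))]
    have h2 : ‖qq (uu w) R‖ ≤ 1 / 100 := by
      refine (hqx R ⟨hR.le, le_rfl⟩).trans ?_
      have h3 : 13 ≤ κ * R := by
        rw [hκ]
        have h4 : 3 / 2 * R ≤ m1 - R / 2 := by linarith
        have h5 := mul_le_mul_of_nonneg_left h4 (by positivity : (0 : ℝ) ≤ N * R)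
        nlinarith
      have h4 : Real.exp (-(κ * R)) ≤ Real.exp (-13) := Real.exp_le_exp.2 (by linarith)
      refine h4.trans ?_
      rw [Real.exp_neg, inv_eq_one_div]
      apply one_div_le_one_div_of_le (by norm_num)
      have h5 := Real.sum_le_exp_of_nonneg (by norm_num : (0 : ℝ) ≤ 13) 4
      simp only [Finset.sum_range_succ, Finset.sum_range_zero, Nat.factorial] at h5
      norm_num at h5
      linarith
    calc ‖1 - (R : ℂ) * av (uu w)‖ * ‖qq (uu w) R‖ ≤ 1 * (1 / 100) :=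
          mul_le_mul h1 h2 (norm_nonneg _) (by norm_num)
      _ = _ := by norm_num
  have hF := sfree hN1 hC.u_le (y := R) (A := 99 / 100) (Φ := 7 / 100) (F := 98 / 100)
    hR.le (by linarith) hm0 hq hΦ (by norm_num) (by norm_num)
  refine end_ray hC (by omega) (a := 0) (y := R) (F := 98 / 100) le_rfl (by norm_num) hR le_rfl
    (by linarith) (by simp) (by linarith) (by norm_num) hF ?_
  have h1 : Real.log (98 / 100 / R) = Real.log (196 / 100) + Real.log (1 / (2 * R)) := by
    rw [← Real.log_mul (by norm_num) (by positivity)]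
    congr 1
    field_simp
    norm_num
  have h2 : 1 - 2 * R ≤ Real.log (1 / (2 * R)) := by
    have := Real.one_sub_inv_le_log_of_pos (by positivity : 0 < 1 / (2 * R))
    rw [one_div, inv_inv] at this
    rw [one_div]
    exact this
  have h3 : (1 / 2 : ℝ) ≤ Real.log (196 / 100) := by
    have e : Real.log (196 / 100) = Real.log 2 + Real.log (98 / 100) := by
      rw [← Real.log_mul (by norm_num) (by norm_num)]
      norm_num
    have h4 := Real.log_two_gt_d9
    have h5 := Real.one_sub_inv_le_log_of_pos (by norm_num : (0 : ℝ) < 98 / 100)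
    norm_num at h5
    linarith
  have h4 : (N : ℝ) * (0 * (R - (av (uu w)).re) - (0 ^ 2 / 2 + 0 ^ 4 / 4 + 0 ^ 6 / 4)) = 0 := by
    ring
  rw [h1, h4]
  linarith

/-- **Piece (I), `R ≤ 4/5`**: `N ≥ 400`, `m₁ ≥ R / 25`. -/
theorem pieceI_small (hN : 400 ≤ N) (hC : Cfg2 N z w R σ) (hR4 : R ≤ 4 / 5)
    (hf : 1 / 25 * R ≤ (av (uu w)).re) : False := by
  have hR := hC.hR
  have hN40 : 40 ≤ N := by omega
  have hS9 : 9 < (N : ℝ) * R ^ 2 := by
    by_contra h
    exact C0.c0 hN hC (Or.inl (not_lt.1 h))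
  rcases le_or_gt (2 * R) (av (uu w)).re with h2 | h2
  · exact big_f hN hC h2 hS9.le
  obtain ⟨f, hfd⟩ : ∃ f, f = (av (uu w)).re / R := ⟨_, rfl⟩
  have hff : (av (uu w)).re = f * R := by rw [hfd, div_mul_cancel₀ _ hR.ne']
  have hf0 : 1 / 25 ≤ f := by rw [hfd, le_div_iff₀ hR]; exact hf
  have hf2 : f ≤ 2 := by
    rw [hfd, div_le_iff₀ hR]
    exact h2.le
  have hrc : ∀ g : ℕ, f ≤ (g : ℝ) / 2 ^ 20 → (rc2 g : ℝ) / 2 ^ 20 ≤ N * R ^ 2 := by
    intro g hg
    unfold rc2
    by_cases g1 : g ≤ 125829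
    · rw [Nat.ble_eq_true_of_le g1, cond_true]
      have g2 : (g : ℝ) ≤ 125829 := by exact_mod_cast g1
      have hlt : 81 / 4 < (N : ℝ) * R ^ 2 := by
        by_contra h
        refine C0.c0 hN hC (Or.inr (Or.inr (Or.inr ⟨not_lt.1 h, ?_⟩)))
        rw [hff]
        apply mul_le_mul_of_nonneg_right _ hR.le
        refine hg.trans ?_
        rw [div_le_iff₀ (by positivity)]
        norm_num
        linarith
      norm_num
      linarith
    · have b1 : Nat.ble g 125829 = false := by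
        rw [Bool.eq_false_iff, ne_eq, Nat.ble_eq]
        exact g1
      rw [b1, cond_false]
      by_cases g3 : g ≤ 262144
      · rw [Nat.ble_eq_true_of_le g3, cond_true]
        have g4 : (g : ℝ) ≤ 262144 := by exact_mod_cast g3
        have hlt : 16 < (N : ℝ) * R ^ 2 := by
          by_contra h
          refine C0.c0 hN hC (Or.inr (Or.inr (Or.inl ⟨not_lt.1 h, ?_⟩)))
          rw [hff]
          apply mul_le_mul_of_nonneg_right _ hR.le
          refine hg.trans ?_
          rw [div_le_iff₀ (by positivity)]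
          norm_num
          linarith
        norm_num
        linarith
      · have b2 : Nat.ble g 262144 = false := by
          rw [Bool.eq_false_iff, ne_eq, Nat.ble_eq]
          exact g3
        rw [b2, cond_false]
        by_cases g5 : g ≤ 440401
        · rw [Nat.ble_eq_true_of_le g5, cond_true]
          have g6 : (g : ℝ) ≤ 440401 := by exact_mod_cast g5
          have hlt : 49 / 4 < (N : ℝ) * R ^ 2 := by
            by_contra h
            refine C0.c0 hN hC (Or.inr (Or.inl ⟨not_lt.1 h, ?_⟩))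
            rw [hff]
            apply mul_le_mul_of_nonneg_right _ hR.le
            refine hg.trans ?_
            rw [div_le_iff₀ (by positivity)]
            norm_num
            linarith
          norm_num
          linarith
        · have b3 : Nat.ble g 440401 = false := by
            rw [Bool.eq_false_iff, ne_eq, Nat.ble_eq]
            exact g5
          rw [b3, cond_false]
          norm_num
          linarith
  have hflo : ((41943 : ℕ) : ℝ) / 2 ^ 20 < f := by
    refine lt_of_lt_of_le ?_ hf0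
    norm_num
  have hnear : false = true → 1 / 4 < ‖(R : ℂ) - conj (av (uu w))‖ := fun h => by simp at h
  rcases lt_or_ge R (((249037 : ℕ) : ℝ) / 2 ^ 20) with h | h
  · exact goR_sound hC hN40 hN (by linarith) hff hf2 hrc (fun _ => hR4) hnear hflo h dX1 0
      (by simpa using hR.le) dX1_ok
  rcases lt_or_ge R (((445645 : ℕ) : ℝ) / 2 ^ 20) with h' | h'
  · exact goR_sound hC hN40 hN (by linarith) hff hf2 hrc (fun _ => hR4) hnear hflo h' dX2 249037
      h dX2_ok
  · refine goR_sound hC hN40 hN (by linarith) hff hf2 hrc (fun _ => hR4) hnear hflo ?_ dX3 445645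
      h' dX3_ok
    refine lt_of_le_of_lt hR4 ?_
    norm_num

/-- **Piece (I), `4/5 ≤ R ≤ 21/10`**: `N ≥ 400`, `m₁ ≥ 9 R / 20`. -/
theorem pieceI_mid (hN : 400 ≤ N) (hC : Cfg2 N z w R σ) (hR4 : 4 / 5 ≤ R) (hR21 : R ≤ 21 / 10)
    (hf : 9 / 20 * R ≤ (av (uu w)).re) : False := by
  have hR := hC.hR
  have hN40 : 40 ≤ N := by omega
  have hN' : (400 : ℝ) ≤ N := by exact_mod_cast hN
  have hm : (av (uu w)).re ≤ 1 := (Complex.re_le_norm _).trans hC.av_le
  obtain ⟨f, hfd⟩ : ∃ f, f = (av (uu w)).re / R := ⟨_, rfl⟩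
  have hff : (av (uu w)).re = f * R := by rw [hfd, div_mul_cancel₀ _ hR.ne']
  have hf0 : 9 / 20 ≤ f := by rw [hfd, le_div_iff₀ hR]; exact hf
  have hf2 : f ≤ 2 := by
    rw [hfd, div_le_iff₀ hR]
    linarith
  have hS : 256 ≤ (N : ℝ) * R ^ 2 := by
    have h1 : (16 / 25 : ℝ) ≤ R ^ 2 := by nlinarith
    nlinarith
  have hrc : ∀ g : ℕ, f ≤ (g : ℝ) / 2 ^ 20 → (rc2 g : ℝ) / 2 ^ 20 ≤ N * R ^ 2 := by
    intro g _
    refine le_trans ?_ hS
    have : rc2 g ≤ 21233664 := by
      unfold rc2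
      cases Nat.ble g 125829 <;> cases Nat.ble g 262144 <;> cases Nat.ble g 440401 <;>
        simp
    have h2 : (rc2 g : ℝ) ≤ 21233664 := by exact_mod_cast this
    rw [div_le_iff₀ (by positivity)]
    norm_num
    linarith
  have hnear : true = true → 1 / 4 < ‖(R : ℂ) - conj (av (uu w))‖ := by
    intro _
    by_contra h
    refine Near.near_400 hN hC ?_ (not_lt.1 h)
    linarith
  have hflo : ((471859 : ℕ) : ℝ) / 2 ^ 20 < f := by
    refine lt_of_lt_of_le ?_ hf0
    norm_num
  refine goR_sound hC hN40 hN hR21 hff hf2 hrc (fun h => by simp at h) hnear hflo ?_ dX4 838860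
      ?_ dX4_ok
  · refine lt_of_le_of_lt hR21 ?_
    norm_num
  · refine le_trans ?_ hR4
    norm_num

end

end Pool.Agent.Lib.MP_af3a4a_an.P1.CHK.H58.S
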