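import Pool.Agent.Lib.MP_af3a4a_an.P1.CHK.H58.Tab
import Pool.Agent.Lib.MP_af3a4a_an.P1.CHK.H58.Cell
import Pool.Agent.Lib.MP_af3a4a_an.P1.CHK.H58.Dual

/-!
# DUAL (helper58): soundness of the checker
-/

set_option autoImplicit false

namespace Pool.Agent.Lib.MP_af3a4a_an.P1.CHK.H58

open Real

theorem sub_cast_ge (x y : ℕ) : (x : ℝ) - y ≤ ((x - y : ℕ) : ℝ) := by
  rcases le_total y x with h | h
  · rw [Nat.cast_sub h]
  · rw [Nat.sub_eq_zero_of_le h]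
    have : (x : ℝ) ≤ y := by exact_mod_cast h
    push_cast
    linarith

theorem mx_cast (x y : ℕ) : ((mx x y : ℕ) : ℝ) = max (x : ℝ) y := by
  unfold mx
  rcases Nat.lt_or_ge y x with h | h
  · have h1 : Nat.ble x y = false := by
      rw [Bool.eq_false_iff]
      intro h2
      exact absurd (Nat.le_of_ble_eq_true h2) (by omega)
    rw [h1]
    simp only [cond_false]
    rw [max_eq_left (by exact_mod_cast h.le)]
  · rw [Nat.ble_eq_true_of_le h]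
    simp only [cond_true]
    rw [max_eq_right (by exact_mod_cast h)]

theorem tst_sound {Z X Y s t E : ℕ} (h : tst Z X Y s t E = true) :
    (E : ℝ) ≤ 4 * ((X : ℝ) * s + Y - Z * (s + t)) := by
  have h1 : E + 4 * (Z * (s + t)) ≤ 4 * (X * s + Y) := Nat.le_of_ble_eq_true h
  have h2 : ((E + 4 * (Z * (s + t)) : ℕ) : ℝ) ≤ ((4 * (X * s + Y) : ℕ) : ℝ) := by
    exact_mod_cast h1
  push_cast at h2
  linarith

section

variable {Z al A C2 C3 M r0 r1 p q p0 q0 p1 q1 b r E : ℕ}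

theorem tp_sound (h : tp Z al A C2 C3 b r E = true) :
    (E : ℝ) ≤ 4 * Fp (al : ℝ) ((A : ℝ) - Z) ((C2 : ℝ) - Z) ((C3 : ℝ) - Z) b r := by
  have h1 := tst_sound h
  refine h1.trans (le_of_eq ?_)
  unfold Fp
  push_cast
  ring

theorem tm_sound (h : tm Z al A C2 C3 b r E = true) :
    (E : ℝ) ≤ 4 * Fm (al : ℝ) ((A : ℝ) - Z) ((C2 : ℝ) - Z) ((C3 : ℝ) - Z) b r := by
  have h1 := tst_sound h
  refine h1.trans (le_of_eq ?_)
  have h2 : 2 * (b * r) ≤ b * b + r * r := by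
    have := two_mul_le_add_sq b r
    nlinarith
  rw [Nat.cast_sub h2]
  unfold Fm
  push_cast
  ring

theorem t1_sound (h : t1 Z al A C2 C3 (M * M) b r E = true) :
    (E : ℝ) ≤ 4 * F1 (al : ℝ) ((A : ℝ) - Z) ((C2 : ℝ) - Z) ((C3 : ℝ) - Z) M b r := by
  have h1 := tst_sound h
  refine h1.trans (le_of_eq ?_)
  unfold F1
  push_cast
  ring

theorem beq_cases (p q : ℕ) : (p.beq q = true ∧ p = q) ∨ (p.beq q = false ∧ p ≠ q) := by
  rcases Nat.decEq p q with h | h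
  · right
    refine ⟨?_, h⟩
    rw [Bool.eq_false_iff]
    intro h1
    exact h (Nat.eq_of_beq_eq_true h1)
  · left
    refine ⟨?_, h⟩
    subst h
    exact Nat.beq_refl p

theorem ble_cases (p q : ℕ) : (Nat.ble p q = true ∧ p ≤ q) ∨ (Nat.ble p q = false ∧ q < p) := by
  rcases Nat.lt_or_ge q p with h | h
  · right
    refine ⟨?_, h⟩
    rw [Bool.eq_false_iff]
    intro h1
    exact absurd (Nat.le_of_ble_eq_true h1) (by omega)
  · left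
    exact ⟨Nat.ble_eq_true_of_le h, h⟩

theorem ep_sound (hr : r0 ≤ r1) (hL : p ≤ q ∨ r0 + p = r1 + q) :
    gp (al : ℝ) ((A : ℝ) - Z) ((C2 : ℝ) - Z) ((C3 : ℝ) - Z) p r0 ((q : ℝ) - p) ((r1 : ℝ) - r0) ≤
      (ep Z al A C2 C3 r0 r1 p q : ℕ) ∧
    gp (al : ℝ) ((A : ℝ) - Z) ((C2 : ℝ) - Z) ((C3 : ℝ) - Z) q r1 ((q : ℝ) - p) ((r1 : ℝ) - r0) ≤
      (ep Z al A C2 C3 r0 r1 p q : ℕ) := by
  have hrR : (r0 : ℝ) ≤ r1 := by exact_mod_cast hr
  have hdr : ((r1 - r0 : ℕ) : ℝ) = (r1 : ℝ) - r0 := Nat.cast_sub hr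
  unfold ep
  rcases beq_cases p q with ⟨hb, he⟩ | ⟨hb, he⟩
  · subst he
    rw [hb]
    simp only [cond_true]
    have h1 : gp (al : ℝ) ((A : ℝ) - Z) ((C2 : ℝ) - Z) ((C3 : ℝ) - Z) p r0 ((p : ℝ) - p)
        ((r1 : ℝ) - r0) ≤ (((al * p + A + C3 - 2 * Z) * ((r1 - r0) * (r1 - r0)) : ℕ) : ℝ) := by
      have h2 := sub_cast_ge (al * p + A + C3) (2 * Z)
      have h3 : gp (al : ℝ) ((A : ℝ) - Z) ((C2 : ℝ) - Z) ((C3 : ℝ) - Z) p r0 ((p : ℝ) - p)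
        ((r1 : ℝ) - r0) = (((al * p + A + C3 : ℕ) : ℝ) - ((2 * Z : ℕ) : ℝ)) *
          (((r1 : ℝ) - r0) * ((r1 : ℝ) - r0)) := by
        unfold gp
        push_cast
        ring
      have e : (((al * p + A + C3 - 2 * Z) * ((r1 - r0) * (r1 - r0)) : ℕ) : ℝ) =
          ((al * p + A + C3 - 2 * Z : ℕ) : ℝ) * (((r1 : ℝ) - r0) * ((r1 : ℝ) - r0)) := by
        rw [Nat.cast_mul, Nat.cast_mul, hdr]
      rw [h3, e]
      exact mul_le_mul_of_nonneg_right h2 (mul_self_nonneg _)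
    refine ⟨h1, ?_⟩
    refine le_trans (le_of_eq ?_) h1
    unfold gp
    ring
  · rw [hb]
    simp only [cond_false]
    rcases ble_cases p q with ⟨hc, hle⟩ | ⟨hc, hlt⟩
    · rw [hc]
      simp only [cond_true]
      have hpq : (p : ℝ) ≤ q := by exact_mod_cast hle
      have hdp : ((q - p : ℕ) : ℝ) = (q : ℝ) - p := Nat.cast_sub hle
      have h1 : gp (al : ℝ) ((A : ℝ) - Z) ((C2 : ℝ) - Z) ((C3 : ℝ) - Z) q r1 ((q : ℝ) - p)
          ((r1 : ℝ) - r0) ≤ ((2 * al * (q - p) * (r1 - r0 + (q - p)) * (r1 + q) +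
          ((r1 - r0 + (q - p)) * (r1 - r0 + (q - p)) * (al * q + A) + C2 * ((q - p) * (q - p))
          + C3 * ((r1 - r0) * (r1 - r0))
          - Z * ((r1 - r0 + (q - p)) * (r1 - r0 + (q - p)) + (q - p) * (q - p)
            + (r1 - r0) * (r1 - r0))) : ℕ) : ℝ) := by
        have h2 := sub_cast_ge ((r1 - r0 + (q - p)) * (r1 - r0 + (q - p)) * (al * q + A)
          + C2 * ((q - p) * (q - p)) + C3 * ((r1 - r0) * (r1 - r0)))
          (Z * ((r1 - r0 + (q - p)) * (r1 - r0 + (q - p)) + (q - p) * (q - p)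
            + (r1 - r0) * (r1 - r0)))
        rw [Nat.cast_add]
        refine le_trans (le_of_eq ?_) (add_le_add le_rfl h2)
        unfold gp
        push_cast
        rw [hdr, hdp]
        ring
      refine ⟨le_trans ?_ h1, h1⟩
      unfold gp
      have hal : (0 : ℝ) ≤ al := Nat.cast_nonneg _
      have h3 : (al : ℝ) * p ≤ al * q := mul_le_mul_of_nonneg_left hpq hal
      have h4 : 2 * (al : ℝ) * ((q : ℝ) - p) * ((r1 : ℝ) - r0 + (q - p)) * (r0 + p) ≤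
          2 * (al : ℝ) * ((q : ℝ) - p) * ((r1 : ℝ) - r0 + (q - p)) * (r1 + q) := by
        apply mul_le_mul_of_nonneg_left (by linarith)
        apply mul_nonneg (mul_nonneg (by linarith) (by linarith)) (by linarith)
      have h5 : ((r1 : ℝ) - r0 + (q - p)) ^ 2 * (al * p + (A - Z)) ≤
          ((r1 : ℝ) - r0 + (q - p)) ^ 2 * (al * q + (A - Z)) :=
        mul_le_mul_of_nonneg_left (by linarith) (sq_nonneg _)
      linarith
    · rw [hc]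
      simp only [cond_false]
      have hD : r0 + p = r1 + q := by
        rcases hL with h | h
        · omega
        · exact h
      have hDR : (r0 : ℝ) + p = r1 + q := by exact_mod_cast hD
      have h2 := sub_cast_ge (C2 + C3) (2 * Z)
      have h6 : ∀ x y : ℝ, gp (al : ℝ) ((A : ℝ) - Z) ((C2 : ℝ) - Z) ((C3 : ℝ) - Z) x y
          ((q : ℝ) - p) ((r1 : ℝ) - r0) ≤ (((C2 + C3 - 2 * Z) * ((r1 - r0) * (r1 - r0)) : ℕ) : ℝ) := by
        intro x y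
        have h7 : (q : ℝ) - p = -((r1 : ℝ) - r0) := by linarith
        rw [Nat.cast_mul, Nat.cast_mul, hdr, h7]
        refine le_trans (le_of_eq ?_) (mul_le_mul_of_nonneg_right h2 (mul_self_nonneg _))
        unfold gp
        push_cast
        ring
      exact ⟨h6 _ _, h6 _ _⟩

theorem em_sound (hr : r0 ≤ r1) (hle : p ≤ q) :
    2 * (al : ℝ) * ((q : ℝ) - p) * (((r1 : ℝ) - r0) - (q - p)) * (r0 - p)
      + (((r1 : ℝ) - r0) - (q - p)) ^ 2 * (al * p + ((A : ℝ) - Z)) + ((C2 : ℝ) - Z) * (q - p) ^ 2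
      + ((C3 : ℝ) - Z) * (r1 - r0) ^ 2 ≤ (em Z al A C2 C3 r0 r1 p q : ℕ) ∧
    2 * (al : ℝ) * ((q : ℝ) - p) * (((r1 : ℝ) - r0) - (q - p)) * (r1 - q)
      + (((r1 : ℝ) - r0) - (q - p)) ^ 2 * (al * q + ((A : ℝ) - Z)) + ((C2 : ℝ) - Z) * (q - p) ^ 2
      + ((C3 : ℝ) - Z) * (r1 - r0) ^ 2 ≤ (em Z al A C2 C3 r0 r1 p q : ℕ) := by
  have hrR : (r0 : ℝ) ≤ r1 := by exact_mod_cast hr
  have hdr : ((r1 - r0 : ℕ) : ℝ) = (r1 : ℝ) - r0 := Nat.cast_sub hr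
  have hpq : (p : ℝ) ≤ q := by exact_mod_cast hle
  have hdp : ((q - p : ℕ) : ℝ) = (q : ℝ) - p := Nat.cast_sub hle
  unfold em
  rcases beq_cases p q with ⟨hb, he⟩ | ⟨hb, he⟩
  · subst he
    rw [hb]
    simp only [cond_true]
    have h2 := sub_cast_ge (al * p + A + C3) (2 * Z)
    have h1 : ∀ x : ℝ, 2 * (al : ℝ) * ((p : ℝ) - p) * (((r1 : ℝ) - r0) - (p - p)) * x
      + (((r1 : ℝ) - r0) - (p - p)) ^ 2 * (al * p + ((A : ℝ) - Z)) + ((C2 : ℝ) - Z) * (p - p) ^ 2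
      + ((C3 : ℝ) - Z) * (r1 - r0) ^ 2 ≤
        (((al * p + A + C3 - 2 * Z) * ((r1 - r0) * (r1 - r0)) : ℕ) : ℝ) := by
      intro x
      rw [Nat.cast_mul, Nat.cast_mul, hdr]
      refine le_trans (le_of_eq ?_) (mul_le_mul_of_nonneg_right h2 (mul_self_nonneg _))
      push_cast
      ring
    exact ⟨h1 _, h1 _⟩
  · rw [hb]
    simp only [cond_false]
    set x : ℕ := (r1 - r0 - (q - p)) + ((q - p) - (r1 - r0)) with hx
    have hxR : (x : ℝ) = |((r1 : ℝ) - r0) - (q - p)| := by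
      rcases le_total (q - p) (r1 - r0) with h | h
      · have h1 : x = r1 - r0 - (q - p) := by omega
        have h2 : ((q : ℝ) - p) ≤ (r1 : ℝ) - r0 := by
          rw [← hdr, ← hdp]
          exact_mod_cast h
        rw [h1, Nat.cast_sub h, hdr, hdp, abs_of_nonneg (by linarith)]
      · have h1 : x = (q - p) - (r1 - r0) := by omega
        have h2 : (r1 : ℝ) - r0 ≤ (q : ℝ) - p := by
          rw [← hdr, ← hdp]
          exact_mod_cast h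
        rw [h1, Nat.cast_sub h, hdr, hdp, abs_of_nonpos (by linarith)]
        ring
    have hx2 : (x : ℝ) * x = (((r1 : ℝ) - r0) - (q - p)) ^ 2 := by
      rw [hxR, ← sq, sq_abs]
    have h2 := sub_cast_ge (x * x * (al * q + A)
        + C2 * ((q - p) * (q - p)) + C3 * ((r1 - r0) * (r1 - r0)))
        (Z * (x * x + (q - p) * (q - p) + (r1 - r0) * (r1 - r0)))
    have hal : (0 : ℝ) ≤ al := Nat.cast_nonneg _
    have h3 : (al : ℝ) * p ≤ al * q := mul_le_mul_of_nonneg_left hpq hal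
    have h0 : (0 : ℝ) ≤ r0 := Nat.cast_nonneg _
    have h0p : (0 : ℝ) ≤ p := Nat.cast_nonneg _
    have key : ∀ y : ℝ, |y| ≤ r1 + q →
        2 * (al : ℝ) * ((q : ℝ) - p) * (((r1 : ℝ) - r0) - (q - p)) * y ≤
          2 * al * ((q : ℝ) - p) * x * (r1 + q) := by
      intro y hy
      have h4 : (((r1 : ℝ) - r0) - (q - p)) * y ≤ x * (r1 + q) := by
        calc (((r1 : ℝ) - r0) - (q - p)) * y ≤ |(((r1 : ℝ) - r0) - (q - p)) * y| := le_abs_self _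
          _ = x * |y| := by rw [abs_mul, ← hxR]
          _ ≤ x * (r1 + q) := mul_le_mul_of_nonneg_left hy (Nat.cast_nonneg _)
      have h5 : (0 : ℝ) ≤ 2 * (al : ℝ) * ((q : ℝ) - p) := mul_nonneg (by linarith) (by linarith)
      have := mul_le_mul_of_nonneg_left h4 h5
      linarith
    have hcast : ((2 * al * (q - p) * x * (r1 + q) + (x * x * (al * q + A)
        + C2 * ((q - p) * (q - p)) + C3 * ((r1 - r0) * (r1 - r0))
        - Z * (x * x + (q - p) * (q - p) + (r1 - r0) * (r1 - r0))) : ℕ) : ℝ) ≥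
        2 * al * ((q : ℝ) - p) * x * (r1 + q) + ((x : ℝ) * x * (al * q + (A - Z))
        + (C2 - Z) * ((q : ℝ) - p) ^ 2 + (C3 - Z) * ((r1 : ℝ) - r0) ^ 2) := by
      rw [Nat.cast_add]
      refine le_trans (le_of_eq ?_) (add_le_add le_rfl h2)
      push_cast
      rw [hdr, hdp]
      ring
    rw [hx2] at hcast
    constructor
    · have h6 := key ((r0 : ℝ) - p) (by
        rw [abs_le]
        constructor <;> linarith)
      have h5 : (((r1 : ℝ) - r0) - (q - p)) ^ 2 * (al * p + (A - Z)) ≤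
          (((r1 : ℝ) - r0) - (q - p)) ^ 2 * (al * q + (A - Z)) :=
        mul_le_mul_of_nonneg_left (by linarith) (sq_nonneg _)
      linarith
    · have h6 := key ((r1 : ℝ) - q) (by
        rw [abs_le]
        constructor <;> linarith)
      linarith

theorem e1_sound (hr : r0 ≤ r1) :
    ((C2 : ℝ) - Z) * ((q : ℝ) - p) ^ 2 + ((C3 : ℝ) - Z) * ((r1 : ℝ) - r0) ^ 2 ≤
      (e1 Z C2 C3 r0 r1 p q : ℕ) := by
  have hdr : ((r1 - r0 : ℕ) : ℝ) = (r1 : ℝ) - r0 := Nat.cast_sub hr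
  unfold e1
  rcases beq_cases p q with ⟨hb, he⟩ | ⟨hb, he⟩
  · subst he
    rw [hb]
    simp only [cond_true]
    have h2 := sub_cast_ge C3 Z
    rw [Nat.cast_mul, Nat.cast_mul, hdr]
    refine le_trans (le_of_eq ?_) (mul_le_mul_of_nonneg_right h2 (mul_self_nonneg _))
    ring
  · rw [hb]
    simp only [cond_false]
    set x : ℕ := (q - p) + (p - q) with hx
    have hx2 : (x : ℝ) * x = ((q : ℝ) - p) ^ 2 := by
      rcases le_total p q with h | h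
      · have h1 : x = q - p := by omega
        rw [h1, Nat.cast_sub h]
        ring
      · have h1 : x = p - q := by omega
        rw [h1, Nat.cast_sub h]
        ring
    have h2 := sub_cast_ge (C2 * (x * x) + C3 * ((r1 - r0) * (r1 - r0)))
      (Z * (x * x + (r1 - r0) * (r1 - r0)))
    refine le_trans (le_of_eq ?_) h2
    push_cast
    rw [hx2, hdr]
    ring

theorem okL_iff (h : okL r0 r1 p q = true) : p ≤ q ∨ r0 + p = r1 + q := by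
  unfold okL at h
  rw [Bool.or_eq_true] at h
  rcases h with h | h
  · exact Or.inl (Nat.le_of_ble_eq_true h)
  · exact Or.inr (Nat.eq_of_beq_eq_true h)

theorem okP_sound (h : okP Z al A C2 C3 r0 r1 p0 q0 p1 q1 = true) (hr : r0 ≤ r1) (hp : p0 ≤ p1)
    (hq : q0 ≤ q1) (hL0 : p0 ≤ q0 ∨ r0 + p0 = r1 + q0) (hL1 : p1 ≤ q1 ∨ r0 + p1 = r1 + q1)
    {τ t : ℝ} (h0 : 0 ≤ τ) (h1 : τ ≤ 1) (ht0 : 0 ≤ t) (ht1 : t ≤ 1) :
    0 ≤ Fp (al : ℝ) ((A : ℝ) - Z) ((C2 : ℝ) - Z) ((C3 : ℝ) - Z)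
      ((p0 + τ * (q0 - p0)) + t * ((p1 + τ * (q1 - p1)) - (p0 + τ * (q0 - p0))))
      (r0 + τ * (r1 - r0)) := by
  unfold okP at h
  rw [Bool.and_eq_true, Bool.and_eq_true, Bool.and_eq_true] at h
  obtain ⟨a1, a2, a3, a4⟩ := h
  have b1 := tp_sound a1
  have b2 := tp_sound a2
  have b3 := tp_sound a3
  have b4 := tp_sound a4
  rw [Nat.cast_add] at b1 b2 b3 b4
  have hpR : (p0 : ℝ) ≤ p1 := by exact_mod_cast hp
  have hqR : (q0 : ℝ) ≤ q1 := by exact_mod_cast hq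
  have hrR : (r0 : ℝ) ≤ r1 := by exact_mod_cast hr
  set bb : ℕ := bp Z al A C2 r1 p0 q0 p1 q1 with hbb
  have hbb0 : (0 : ℝ) ≤ bb := Nat.cast_nonneg _
  have l0 : (bb : ℝ) / 4 ≤ Fp (al : ℝ) ((A : ℝ) - Z) ((C2 : ℝ) - Z) ((C3 : ℝ) - Z)
      (p0 + τ * (q0 - p0)) (r0 + τ * (r1 - r0)) := by
    obtain ⟨g0, g1⟩ := ep_sound (Z := Z) (al := al) (A := A) (C2 := C2) (C3 := C3) hr hL0
    exact Fp_line h0 h1 (Nat.cast_nonneg _) g0 g1 (by linarith) (by linarith)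
  have l1 : (bb : ℝ) / 4 ≤ Fp (al : ℝ) ((A : ℝ) - Z) ((C2 : ℝ) - Z) ((C3 : ℝ) - Z)
      (p1 + τ * (q1 - p1)) (r0 + τ * (r1 - r0)) := by
    obtain ⟨g0, g1⟩ := ep_sound (Z := Z) (al := al) (A := A) (C2 := C2) (C3 := C3) hr hL1
    exact Fp_line h0 h1 (Nat.cast_nonneg _) g0 g1 (by linarith) (by linarith)
  have hmp : (p1 : ℝ) ≤ (mx p1 q1 : ℕ) := by rw [mx_cast]; exact le_max_left _ _
  have hmq : (q1 : ℝ) ≤ (mx p1 q1 : ℕ) := by rw [mx_cast]; exact le_max_right _ _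
  have hdp : (p1 : ℝ) - p0 ≤ (mx (p1 - p0) (q1 - q0) : ℕ) := by
    rw [mx_cast, Nat.cast_sub hp]
    exact le_max_left _ _
  have hdq : (q1 : ℝ) - q0 ≤ (mx (p1 - p0) (q1 - q0) : ℕ) := by
    rw [mx_cast, Nat.cast_sub hq]
    exact le_max_right _ _
  refine Fp_B (Nat.cast_nonneg _) ht0 ht1 (bm := ((mx p1 q1 : ℕ) : ℝ)) (r1 := (r1 : ℝ))
    (db := ((mx (p1 - p0) (q1 - q0) : ℕ) : ℝ)) (cb := (bb : ℝ)) ?_ ?_ ?_ ?_ hbb0 ?_ ?_ ?_
  · nlinarith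
  · nlinarith
  · have := aff_le h0 h1 hmp hmq
    linarith
  · nlinarith
  · have h2 := sub_cast_ge (al * mx p1 q1 + A + 2 * al * (r1 + mx p1 q1) + C2) (2 * Z)
    have h3 : (bb : ℝ) = ((al * mx p1 q1 + A + 2 * al * (r1 + mx p1 q1) + C2 - 2 * Z : ℕ) : ℝ) *
        ((mx (p1 - p0) (q1 - q0) : ℕ) : ℝ) ^ 2 := by
      rw [hbb]
      unfold bp
      rw [Nat.cast_mul, Nat.cast_mul]
      ring
    rw [h3]
    apply mul_le_mul_of_nonneg_right _ (sq_nonneg _)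
    refine le_trans (le_of_eq ?_) h2
    push_cast
    ring
  · linarith
  · have e : (p0 : ℝ) + τ * (q0 - p0) + (p1 + τ * (q1 - p1) - (p0 + τ * (q0 - p0))) =
        p1 + τ * (q1 - p1) := by ring
    rw [e]
    linarith

theorem okM_sound (h : okM Z al A C2 C3 r0 r1 p0 q0 p1 q1 = true) (hr : r0 ≤ r1) (hp : p0 ≤ p1)
    (hq : q0 ≤ q1)
    {τ t : ℝ} (h0 : 0 ≤ τ) (h1 : τ ≤ 1) (ht0 : 0 ≤ t) (ht1 : t ≤ 1) :
    0 ≤ Fm (al : ℝ) ((A : ℝ) - Z) ((C2 : ℝ) - Z) ((C3 : ℝ) - Z)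
      ((p0 + τ * (q0 - p0)) + t * ((p1 + τ * (q1 - p1)) - (p0 + τ * (q0 - p0))))
      (r0 + τ * (r1 - r0)) := by
  unfold okM at h
  rw [Bool.and_eq_true, Bool.and_eq_true, Bool.and_eq_true, Bool.and_eq_true,
    Bool.and_eq_true] at h
  obtain ⟨⟨c1, c2⟩, a1, a2, a3, a4⟩ := h
  have hL0 : p0 ≤ q0 := Nat.le_of_ble_eq_true c1
  have hL1 : p1 ≤ q1 := Nat.le_of_ble_eq_true c2
  have b1 := tm_sound a1
  have b2 := tm_sound a2
  have b3 := tm_sound a3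
  have b4 := tm_sound a4
  rw [Nat.cast_add] at b1 b2 b3 b4
  have hpR : (p0 : ℝ) ≤ p1 := by exact_mod_cast hp
  have hqR : (q0 : ℝ) ≤ q1 := by exact_mod_cast hq
  have hrR : (r0 : ℝ) ≤ r1 := by exact_mod_cast hr
  set bb : ℕ := bm Z al A C2 r0 r1 p0 q0 p1 q1 with hbb
  have hbb0 : (0 : ℝ) ≤ bb := Nat.cast_nonneg _
  have l0 : (bb : ℝ) / 4 ≤ Fm (al : ℝ) ((A : ℝ) - Z) ((C2 : ℝ) - Z) ((C3 : ℝ) - Z)
      (p0 + τ * (q0 - p0)) (r0 + τ * (r1 - r0)) := by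
    obtain ⟨g0, g1⟩ := em_sound (Z := Z) (al := al) (A := A) (C2 := C2) (C3 := C3) hr hL0
    exact Fm_line h0 h1 (Nat.cast_nonneg _) g0 g1 (by linarith) (by linarith)
  have l1 : (bb : ℝ) / 4 ≤ Fm (al : ℝ) ((A : ℝ) - Z) ((C2 : ℝ) - Z) ((C3 : ℝ) - Z)
      (p1 + τ * (q1 - p1)) (r0 + τ * (r1 - r0)) := by
    obtain ⟨g0, g1⟩ := em_sound (Z := Z) (al := al) (A := A) (C2 := C2) (C3 := C3) hr hL1
    exact Fm_line h0 h1 (Nat.cast_nonneg _) g0 g1 (by linarith) (by linarith)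
  have hmp : (p1 : ℝ) ≤ (mx p1 q1 : ℕ) := by rw [mx_cast]; exact le_max_left _ _
  have hmq : (q1 : ℝ) ≤ (mx p1 q1 : ℕ) := by rw [mx_cast]; exact le_max_right _ _
  have hdp : (p1 : ℝ) - p0 ≤ (mx (p1 - p0) (q1 - q0) : ℕ) := by
    rw [mx_cast, Nat.cast_sub hp]
    exact le_max_left _ _
  have hdq : (q1 : ℝ) - q0 ≤ (mx (p1 - p0) (q1 - q0) : ℕ) := by
    rw [mx_cast, Nat.cast_sub hq]
    exact le_max_right _ _
  have hDp : (p1 : ℝ) - r0 ≤ ((mx (p1 + r1) (q1 + r0) : ℕ) : ℝ) - (r0 + r1) := by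
    have : ((p1 + r1 : ℕ) : ℝ) ≤ (mx (p1 + r1) (q1 + r0) : ℕ) := by
      rw [mx_cast]; exact le_max_left _ _
    push_cast at this
    linarith
  have hDq : (q1 : ℝ) - r1 ≤ ((mx (p1 + r1) (q1 + r0) : ℕ) : ℝ) - (r0 + r1) := by
    have : ((q1 + r0 : ℕ) : ℝ) ≤ (mx (p1 + r1) (q1 + r0) : ℕ) := by
      rw [mx_cast]; exact le_max_right _ _
    push_cast at this
    linarith
  refine Fm_B (Nat.cast_nonneg _) ht0 ht1 (bm := ((mx p1 q1 : ℕ) : ℝ))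
    (D := ((mx (p1 + r1) (q1 + r0) : ℕ) : ℝ) - (r0 + r1))
    (db := ((mx (p1 - p0) (q1 - q0) : ℕ) : ℝ)) (cb := (bb : ℝ)) ?_ ?_ ?_ ?_ hbb0 ?_ ?_ ?_
  · nlinarith
  · nlinarith
  · have := aff_le h0 h1 hmp hmq
    linarith
  · have := aff_le h0 h1 hDp hDq
    linarith
  · have h2 := sub_cast_ge (al * mx p1 q1 + A + 2 * al * mx (p1 + r1) (q1 + r0) + C2)
      (2 * Z + 2 * al * (r0 + r1))
    have h3 : (bb : ℝ) = ((al * mx p1 q1 + A + 2 * al * mx (p1 + r1) (q1 + r0) + C2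
        - (2 * Z + 2 * al * (r0 + r1)) : ℕ) : ℝ) *
        ((mx (p1 - p0) (q1 - q0) : ℕ) : ℝ) ^ 2 := by
      rw [hbb]
      unfold bm
      rw [Nat.cast_mul, Nat.cast_mul]
      ring
    rw [h3]
    apply mul_le_mul_of_nonneg_right _ (sq_nonneg _)
    refine le_trans (le_of_eq ?_) h2
    push_cast
    ring
  · linarith
  · have e : (p0 : ℝ) + τ * (q0 - p0) + (p1 + τ * (q1 - p1) - (p0 + τ * (q0 - p0))) =
        p1 + τ * (q1 - p1) := by ring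
    rw [e]
    linarith

theorem ok1_sound (h : ok1 Z al A C2 C3 (M * M) r0 r1 p0 q0 p1 q1 = true) (hr : r0 ≤ r1)
    (hp : p0 ≤ p1) (hq : q0 ≤ q1)
    {τ t : ℝ} (h0 : 0 ≤ τ) (h1 : τ ≤ 1) (ht0 : 0 ≤ t) (ht1 : t ≤ 1) :
    0 ≤ F1 (al : ℝ) ((A : ℝ) - Z) ((C2 : ℝ) - Z) ((C3 : ℝ) - Z) M
      ((p0 + τ * (q0 - p0)) + t * ((p1 + τ * (q1 - p1)) - (p0 + τ * (q0 - p0))))
      (r0 + τ * (r1 - r0)) := by
  unfold ok1 at h
  rw [Bool.and_eq_true, Bool.and_eq_true, Bool.and_eq_true] at h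
  obtain ⟨a1, a2, a3, a4⟩ := h
  have b1 := t1_sound a1
  have b2 := t1_sound a2
  have b3 := t1_sound a3
  have b4 := t1_sound a4
  have hpR : (p0 : ℝ) ≤ p1 := by exact_mod_cast hp
  have hqR : (q0 : ℝ) ≤ q1 := by exact_mod_cast hq
  have l0 : (0 : ℝ) ≤ F1 (al : ℝ) ((A : ℝ) - Z) ((C2 : ℝ) - Z) ((C3 : ℝ) - Z) M
      (p0 + τ * (q0 - p0)) (r0 + τ * (r1 - r0)) :=
    F1_line h0 h1 (Nat.cast_nonneg _) (e1_sound hr) (by linarith) (by linarith)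
  have l1 : (0 : ℝ) ≤ F1 (al : ℝ) ((A : ℝ) - Z) ((C2 : ℝ) - Z) ((C3 : ℝ) - Z) M
      (p1 + τ * (q1 - p1)) (r0 + τ * (r1 - r0)) :=
    F1_line h0 h1 (Nat.cast_nonneg _) (e1_sound hr) (by linarith) (by linarith)
  refine F1_B (Nat.cast_nonneg _) ht0 ht1 ?_ ?_ l0 ?_
  · exact aff_ge h0 h1 (Nat.cast_nonneg _) (Nat.cast_nonneg _)
  · nlinarith
  · have e : (p0 : ℝ) + τ * (q0 - p0) + (p1 + τ * (q1 - p1) - (p0 + τ * (q0 - p0))) =
        p1 + τ * (q1 - p1) := by ring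
    rw [e]
    exact l1

/-- an affine function of `s` which is nonnegative at two points -/
theorem affine_nonneg {X Y s s0 s1 : ℝ} (h0 : s0 ≤ s) (h1 : s ≤ s1) (a0 : 0 ≤ X * s0 + Y)
    (a1 : 0 ≤ X * s1 + Y) : 0 ≤ X * s + Y := by
  rcases le_total 0 X with h | h
  · have := mul_le_mul_of_nonneg_left h0 h
    linarith
  · have := mul_le_mul_of_nonpos_left h1 h
    linarith

theorem cell_sound (h : cell Z M al A C2 C3 r0 r1 p0 q0 p1 q1 = true) (hr : r0 ≤ r1)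
    (hp : p0 ≤ p1) (hq : q0 ≤ q1) (hL0 : p0 ≤ q0 ∨ r0 + p0 = r1 + q0)
    {τ b s : ℝ} (h0 : 0 ≤ τ) (h1 : τ ≤ 1) (hb0 : p0 + τ * (q0 - p0) ≤ b)
    (hb1 : b ≤ p1 + τ * (q1 - p1)) (hs0 : (M : ℝ) ^ 2 ≤ s)
    (hs1 : ((r0 + τ * (r1 - r0)) - b) ^ 2 ≤ s) (hs2 : s ≤ ((r0 + τ * (r1 - r0)) + b) ^ 2) :
    0 ≤ (al * b + ((A : ℝ) - Z)) * s + (((C2 : ℝ) - Z) * b ^ 2
      + ((C3 : ℝ) - Z) * (r0 + τ * (r1 - r0)) ^ 2) := by
  unfold cell at h
  rw [Bool.and_eq_true, Bool.and_eq_true] at h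
  obtain ⟨hL1, hP, hc⟩ := h
  have hL1' := okL_iff hL1
  obtain ⟨t, ht0, ht1, hbt⟩ : ∃ t : ℝ, 0 ≤ t ∧ t ≤ 1 ∧
      b = (p0 + τ * (q0 - p0)) + t * ((p1 + τ * (q1 - p1)) - (p0 + τ * (q0 - p0))) := by
    rcases eq_or_lt_of_le (hb0.trans hb1) with he | hlt
    · refine ⟨0, le_rfl, zero_le_one, ?_⟩
      linarith
    · refine ⟨(b - (p0 + τ * (q0 - p0))) / ((p1 + τ * (q1 - p1)) - (p0 + τ * (q0 - p0))), ?_, ?_, ?_⟩
      · exact div_nonneg (by linarith) (by linarith)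
      · rw [div_le_one (by linarith)]
        linarith
      · rw [div_mul_cancel₀ _ (by linarith)]
        ring
  set L0 : ℝ := p0 + τ * (q0 - p0) with hL0d
  set L1 : ℝ := p1 + τ * (q1 - p1) with hL1d
  set R : ℝ := r0 + τ * (r1 - r0) with hR
  have hPs := okP_sound hP hr hp hq hL0 hL1' h0 h1 ht0 ht1
  rw [← hbt] at hPs
  have hP' : 0 ≤ (al * b + ((A : ℝ) - Z)) * (R + b) ^ 2 + (((C2 : ℝ) - Z) * b ^ 2
      + ((C3 : ℝ) - Z) * R ^ 2) := by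
    unfold Fp at hPs
    linarith
  have fromM : okM Z al A C2 C3 r0 r1 p0 q0 p1 q1 = true →
      0 ≤ (al * b + ((A : ℝ) - Z)) * s + (((C2 : ℝ) - Z) * b ^ 2 + ((C3 : ℝ) - Z) * R ^ 2) := by
    intro hM
    have hMs := okM_sound hM hr hp hq h0 h1 ht0 ht1
    rw [← hbt] at hMs
    have hM' : 0 ≤ (al * b + ((A : ℝ) - Z)) * (R - b) ^ 2 + (((C2 : ℝ) - Z) * b ^ 2
      + ((C3 : ℝ) - Z) * R ^ 2) := by
      unfold Fm at hMs
      linarith
    exact affine_nonneg hs1 hs2 hM' hP'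
  rw [Bool.or_eq_true] at hc
  rcases hc with hc1 | hc
  · have h1s := ok1_sound hc1 hr hp hq h0 h1 ht0 ht1
    rw [← hbt] at h1s
    have h1' : 0 ≤ (al * b + ((A : ℝ) - Z)) * (M : ℝ) ^ 2 + (((C2 : ℝ) - Z) * b ^ 2
      + ((C3 : ℝ) - Z) * R ^ 2) := by
      unfold F1 at h1s
      linarith
    exact affine_nonneg hs0 hs2 h1' hP'
  · exact fromM hc

end

end Pool.Agent.Lib.MP_af3a4a_an.P1.CHK.H58
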