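import Pool.Agent.Lib.MP_af3a4a_an.P1.CHK.H58.Defs

/-!
# DUAL (helper58): the table of `κ` and of upper bounds of `-log κ`
-/

set_option autoImplicit false

namespace Pool.Agent.Lib.MP_af3a4a_an.P1.CHK.H58

open Real

/-- partial sums of the artanh series are lower bounds -/
theorem log_lower {x : ℝ} (h0 : 0 ≤ x) (h1 : x < 1) :
    2 * (x + x ^ 3 / 3 + x ^ 5 / 5 + x ^ 7 / 7 + x ^ 9 / 9 + x ^ 11 / 11) ≤
      Real.log (1 + x) - Real.log (1 - x) := by
  have hs := Real.hasSum_log_sub_log_of_abs_lt_one (x := x) (by rw [abs_of_nonneg h0]; exact h1)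
  have h2 := sum_le_hasSum (Finset.range 6) (fun i _ => by positivity) hs
  refine le_trans (le_of_eq ?_) h2
  simp only [Finset.sum_range_succ, Finset.sum_range_zero]
  norm_num
  ring

/-- the octave: `S 2^e` with `e = i / 16 - 4`, times `16` -/
def oct (i : ℕ) : ℕ := S * 2 ^ (i / 16)

/-- check of entry `i`: with `m = 16 K / oct`, `x = (m - 1) / (m + 1)`, `e = i / 16 - 4`:
`-log κ = -e log 2 - log m ≤ (kL - 16 S) / S` -/
def tchk (i : ℕ) : Bool :=
  Nat.ble (oct i) (16 * kK i) &&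
  (Nat.blt 0 (kK i) &&
  decide ((0 : ℚ) ≤ ((kL i : ℚ) / S - 16)
    + (if 64 ≤ i then ((i / 16 - 4 : ℕ) : ℚ) * (6931471803 / 10000000000)
        else - (((4 - i / 16 : ℕ) : ℚ) * (6931471808 / 10000000000)))
    + 2 * (((16 * kK i - oct i : ℕ) : ℚ) / (16 * kK i + oct i)
      + (((16 * kK i - oct i : ℕ) : ℚ) / (16 * kK i + oct i)) ^ 3 / 3
      + (((16 * kK i - oct i : ℕ) : ℚ) / (16 * kK i + oct i)) ^ 5 / 5
      + (((16 * kK i - oct i : ℕ) : ℚ) / (16 * kK i + oct i)) ^ 7 / 7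
      + (((16 * kK i - oct i : ℕ) : ℚ) / (16 * kK i + oct i)) ^ 9 / 9
      + (((16 * kK i - oct i : ℕ) : ℚ) / (16 * kK i + oct i)) ^ 11 / 11)))

theorem tab_ok : ∀ i < 209, tchk i = true := by decide +kernel

theorem tab_sound {i : ℕ} (hi : i < 209) :
    0 < kK i ∧ -Real.log ((kK i : ℝ) / S) ≤ (kL i : ℝ) / S - 16 := by
  have h := tab_ok i hi
  unfold tchk at h
  rw [Bool.and_eq_true, Bool.and_eq_true, decide_eq_true_eq] at h
  obtain ⟨h1, h2, h3⟩ := h
  have h1 : oct i ≤ 16 * kK i := Nat.le_of_ble_eq_true h1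
  have h2 : 0 < kK i := Nat.blt_eq.mp h2
  refine ⟨h2, ?_⟩
  set K := kK i with hK
  set o := oct i with ho
  have hopos : 0 < o := by
    rw [ho]
    unfold oct S
    positivity
  have hoR : (0 : ℝ) < o := by exact_mod_cast hopos
  have hKR : (0 : ℝ) < K := by exact_mod_cast h2
  have h1R : (o : ℝ) ≤ 16 * K := by exact_mod_cast h1
  set x : ℝ := ((16 * K - o : ℕ) : ℝ) / (16 * K + o) with hx
  have hsub : ((16 * K - o : ℕ) : ℝ) = 16 * K - o := by
    rw [Nat.cast_sub h1]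
    push_cast
    ring
  have hden : (0 : ℝ) < 16 * K + o := by positivity
  have hx0 : 0 ≤ x := by
    rw [hx, hsub]
    exact div_nonneg (by linarith) hden.le
  have hx1 : x < 1 := by
    rw [hx, hsub, div_lt_one hden]
    linarith
  have hlow := log_lower hx0 hx1
  have e1 : 1 + x = 32 * K / (16 * K + o) := by
    rw [hx, hsub]
    field_simp
    ring
  have e2 : 1 - x = 2 * o / (16 * K + o) := by
    rw [hx, hsub]
    field_simp
    ring
  have e3 : Real.log (1 + x) - Real.log (1 - x) = Real.log (16 * K / o) := by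
    rw [← Real.log_div (by rw [e1]; positivity) (by rw [e2]; positivity), e1, e2]
    congr 1
    field_simp
    ring
  have hS : (S : ℝ) = 1048576 := by
    unfold S
    norm_num
  have hoS : (o : ℝ) = S * 2 ^ (i / 16) := by
    rw [ho]
    unfold oct
    push_cast
    ring
  have e4 : Real.log ((K : ℝ) / S) = Real.log (16 * K / o) + ((i / 16 : ℕ) : ℝ) * Real.log 2
      - 4 * Real.log 2 := by
    have h5 : (K : ℝ) / S = (16 * K / o) * 2 ^ (i / 16) / 2 ^ 4 := by
      rw [hoS]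
      have : (2 : ℝ) ^ (i / 16) ≠ 0 := by positivity
      have hS0 : (S : ℝ) ≠ 0 := by rw [hS]; norm_num
      field_simp
      norm_num
    rw [h5, Real.log_div (by positivity) (by positivity), Real.log_mul (by positivity)
      (by positivity), Real.log_pow, Real.log_pow]
    norm_num
  have h6 : (((0 : ℚ)) : ℝ) ≤ ((((kL i : ℚ) / S - 16)
    + (if 64 ≤ i then ((i / 16 - 4 : ℕ) : ℚ) * (6931471803 / 10000000000)
        else - (((4 - i / 16 : ℕ) : ℚ) * (6931471808 / 10000000000)))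
    + 2 * (((16 * K - o : ℕ) : ℚ) / (16 * K + o)
      + (((16 * K - o : ℕ) : ℚ) / (16 * K + o)) ^ 3 / 3
      + (((16 * K - o : ℕ) : ℚ) / (16 * K + o)) ^ 5 / 5
      + (((16 * K - o : ℕ) : ℚ) / (16 * K + o)) ^ 7 / 7
      + (((16 * K - o : ℕ) : ℚ) / (16 * K + o)) ^ 9 / 9
      + (((16 * K - o : ℕ) : ℚ) / (16 * K + o)) ^ 11 / 11) : ℚ) : ℝ) := by
    exact_mod_cast h3
  have hl1 := Real.log_two_gt_d9
  have hl2 := Real.log_two_lt_d9
  have h7 : (((if 64 ≤ i then ((i / 16 - 4 : ℕ) : ℚ) * (6931471803 / 10000000000)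
        else - (((4 - i / 16 : ℕ) : ℚ) * (6931471808 / 10000000000)) : ℚ)) : ℝ) ≤
      (((i / 16 : ℕ) : ℝ) - 4) * Real.log 2 := by
    split_ifs with hc
    · have h8 : 4 ≤ i / 16 := by omega
      have h9 : ((i / 16 - 4 : ℕ) : ℝ) = ((i / 16 : ℕ) : ℝ) - 4 := by
        rw [Nat.cast_sub h8]
        norm_num
      push_cast [h9]
      have h10 : (0 : ℝ) ≤ ((i / 16 : ℕ) : ℝ) - 4 := by
        rw [← h9]
        positivity
      have := mul_le_mul_of_nonneg_left hl1.le h10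
      norm_num at this ⊢
      linarith
    · have h8 : i / 16 ≤ 4 := by omega
      have h9 : ((4 - i / 16 : ℕ) : ℝ) = 4 - ((i / 16 : ℕ) : ℝ) := by
        rw [Nat.cast_sub h8]
        norm_num
      push_cast [h9]
      have h10 : (0 : ℝ) ≤ 4 - ((i / 16 : ℕ) : ℝ) := by
        rw [← h9]
        positivity
      have := mul_le_mul_of_nonneg_left hl2.le h10
      norm_num at this ⊢
      linarith
  rw [Rat.cast_add, Rat.cast_add] at h6
  have h11 : (((2 * (((16 * K - o : ℕ) : ℚ) / (16 * K + o)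
      + (((16 * K - o : ℕ) : ℚ) / (16 * K + o)) ^ 3 / 3
      + (((16 * K - o : ℕ) : ℚ) / (16 * K + o)) ^ 5 / 5
      + (((16 * K - o : ℕ) : ℚ) / (16 * K + o)) ^ 7 / 7
      + (((16 * K - o : ℕ) : ℚ) / (16 * K + o)) ^ 9 / 9
      + (((16 * K - o : ℕ) : ℚ) / (16 * K + o)) ^ 11 / 11) : ℚ)) : ℝ) =
      2 * (x + x ^ 3 / 3 + x ^ 5 / 5 + x ^ 7 / 7 + x ^ 9 / 9 + x ^ 11 / 11) := by
    rw [hx]
    push_cast
    ring
  rw [h11] at h6
  have h12 : (((kL i : ℚ) / S - 16 : ℚ) : ℝ) = (kL i : ℝ) / S - 16 := by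
    push_cast
    ring
  rw [h12] at h6
  rw [e4, ← e3]
  have h13 : ((0 : ℚ) : ℝ) = 0 := by norm_num
  rw [h13] at h6
  linarith

end Pool.Agent.Lib.MP_af3a4a_an.P1.CHK.H58
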